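import Pool.Agent.Helper50.RG.AnT

/-!
# RG-66 : a checker for intervals of `β` (d = 2, 3, 4)

All computations are in `ℚ`. `eLo x ≤ exp x ≤ eHi x` for every `x : ℚ` (`Real.exp_bound` for `|y| ≤ 1`,
`n = 12`, `y = x/16`, 16th power; `exp 1 ≤ 3`). `fLo j u ≤ fk j u ≤ fHi j u` for `j`, `u`.

`chkF j u₀ κ C` (for `j ≥ 1`): `0 < u₀`, `0 < fLo j u₀`, `fHi (j-1) u₀ ≤ κ fLo j u₀` and
`fHi j u₀ * eHi (-(fLo (j-1) u₀ / fHi j u₀) u₀) ≤ C`. It implies `fk j u ≤ C exp (κ u)` for all `u ≥ 0`: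
with `r = fk (j-1) u₀/fk j u₀ ≤ κ`, `fk_tangent`: `fk j u ≤ fk j u₀ exp (r (u - u₀)) ≤
fk j u₀ exp (-r u₀) exp (κ u)`, and `r ≥ fLo (j-1) u₀/fHi j u₀` (`0 ≤ fLo (j-1) u₀` is checked).

`chkH`: `h v = h0 + h1 v + h2 v² + h3 v³` with `h_i ≥ 0`, `h0 > 0`, `h1² ≥ 2 h0 h2`, `h1 h2 ≥ 3 h0 h3` is
log-concave on `[0, ∞)`: `h'² - h h'' = (h1² - 2 h0 h2) + (2 h1 h2 - 6 h0 h3) v + 2 h2² v² + 4 h2 h3 v³ + 3 h3² v⁴`.
So with `r = h' v₀/h v₀ ≤ γ` (`v₀ ≥ 0`): `h v ≤ h v₀ exp (r (v - v₀)) ≤ exp (G + γ v)` if `h v₀ ≤ eLo (G + r v₀)`.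

`chk d Lam F c`: `Lam ≥ lam`, `F ≤ log (fk (d+1) lam)`. It implies for all `β ∈ [a, b]` that the parameters
`Lw, kw, G, κ, γ, θ = exp (-ϑ)` are valid and `Phi < 0`:
`gk d u v = ∑_{i<d} v^i/i! fk (d+1-i) u ≤ exp (κ u) h v`, `h_i = C_(d+1-i)/i!` (`cs` is the list
`C_2, …, C_(d+1)`, index `j - 2`); `-β log β ≤ β s₁ + exp (-s₁) - β`, `-p log p ≤ p s₂ + exp (-s₂) - p`,
`log q ≤ q exp (-t) - 1 + t` (all from `1 + x ≤ exp x`), `q = lam²/(4d²) ((kw p)² + θ β (κ² β + 2 γ kw p))`.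
So `Phi ≤ bd β`, where `bd` is a polynomial of degree `2` in `β` with second coefficient `lead`, and
`bd β ≤ max (bd a) (bd b) + max 0 (-lead) (b-a)²/4` on `[a, b]`.
-/

set_option autoImplicit false

namespace Pool.Agent.Helper50.RG

/-- Taylor polynomial of the exponential function -/
def expT (n : ℕ) (y : ℚ) : ℚ := ((List.range n).map (fun i => y ^ i / (Nat.factorial i : ℚ))).sum

/-- remainder -/
def expR (y : ℚ) : ℚ := |y| ^ 12 * (13 / (479001600 * 12))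

/-- lower bound of the exponential function -/
def eLo (x : ℚ) : ℚ :=
  if |x| ≤ 16 ∧ 0 ≤ expT 12 (x / 16) - expR (x / 16) then (expT 12 (x / 16) - expR (x / 16)) ^ 16
  else 0

/-- upper bound of the exponential function -/
def eHi (x : ℚ) : ℚ :=
  if |x| ≤ 16 then (expT 12 (x / 16) + expR (x / 16)) ^ 16 else 3 ^ (Int.toNat ⌈x⌉)

/-- lower bound of `fk j u` -/
def fLo (j : ℕ) (u : ℚ) : ℚ := eLo u - expT j u

/-- upper bound of `fk j u` -/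
def fHi (j : ℕ) (u : ℚ) : ℚ := eHi u - expT j u

/-- check of `fk j u ≤ C exp (κ u)` by the tangent at `u₀` -/
def chkF (j : ℕ) (u₀ κ C : ℚ) : Bool :=
  decide (0 < u₀) && decide (0 < fLo j u₀) && decide (0 ≤ fLo (j - 1) u₀) &&
    decide (fHi (j - 1) u₀ ≤ κ * fLo j u₀) &&
    decide (fHi j u₀ * eHi (-(fLo (j - 1) u₀ / fHi j u₀) * u₀) ≤ C)

/-- check of `h0 + h1 v + h2 v² + h3 v³ ≤ exp (G + γ v)` by the tangent at `v₀` -/
def chkH (h0 h1 h2 h3 v₀ γ G : ℚ) : Bool :=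
  let hv := h0 + h1 * v₀ + h2 * v₀ ^ 2 + h3 * v₀ ^ 3
  let hd := h1 + 2 * h2 * v₀ + 3 * h3 * v₀ ^ 2
  decide (0 < h0) && decide (0 ≤ h1) && decide (0 ≤ h2) && decide (0 ≤ h3) &&
    decide (2 * h0 * h2 ≤ h1 ^ 2) && decide (3 * h0 * h3 ≤ h1 * h2) && decide (0 ≤ v₀) &&
    decide (hd ≤ γ * hv) && decide (hv ≤ eLo (G + hd / hv * v₀))

/-- data of an interval -/
structure Cell where
  a : ℚ
  b : ℚ
  w₀ : ℚ
  kw : ℚ
  Lw : ℚ
  κ : ℚ
  us : List ℚ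
  cs : List ℚ
  v₀ : ℚ
  γ : ℚ
  G : ℚ
  ϑ : ℚ
  s₁ : ℚ
  s₂ : ℚ
  t : ℚ

/-- the coefficient of `v^i` -/
def Cell.h (c : Cell) (d i : ℕ) : ℚ :=
  if i < d then c.cs.getD (d - 1 - i) 0 / (Nat.factorial i : ℚ) else 0

/-- upper bound of `q` -/
def Cell.q (c : Cell) (d : ℕ) (Lam β : ℚ) : ℚ :=
  Lam ^ 2 / (4 * (d : ℚ) ^ 2) *
    ((c.kw * (1 - β)) ^ 2 + eHi (-c.ϑ) * β * (c.κ ^ 2 * β + 2 * c.γ * c.kw * (1 - β)))

/-- upper bound of the exponent -/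
def Cell.bd (c : Cell) (d : ℕ) (Lam F β : ℚ) : ℚ :=
  β * c.s₁ + eHi (-c.s₁) - β + ((1 - β) * c.s₂ + eHi (-c.s₂) - (1 - β)) + β * c.G +
    (1 - β) * c.Lw - F + d * β * c.ϑ + d * (c.q d Lam β * eHi (-c.t) - 1 + c.t) + 2 * d

/-- the coefficient of `β²` -/
def Cell.lead (c : Cell) (d : ℕ) (Lam : ℚ) : ℚ :=
  d * eHi (-c.t) * (Lam ^ 2 / (4 * (d : ℚ) ^ 2) *
    (c.kw ^ 2 + eHi (-c.ϑ) * (c.κ ^ 2 - 2 * c.γ * c.kw)))

/-- the check of an interval -/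
def chk (d : ℕ) (Lam F : ℚ) (c : Cell) : Bool :=
  decide (0 < c.a) && decide (c.a ≤ c.b) && decide (c.b < 1) && decide (0 < c.kw) &&
    decide (0 < c.κ) && decide (0 < c.γ) && decide (0 ≤ c.ϑ) &&
    chkF (d + 1) c.w₀ c.kw (eLo c.Lw) &&
    (List.range d).all (fun i => chkF (i + 2) (c.us.getD i 0) c.κ (c.cs.getD i 0)) &&
    chkH (c.h d 0) (c.h d 1) (c.h d 2) (c.h d 3) c.v₀ c.γ c.G &&
    decide (max (c.bd d Lam F c.a) (c.bd d Lam F c.b) +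
      max 0 (-c.lead d Lam) * (c.b - c.a) ^ 2 / 4 < 0)

private theorem AnCell_expT (n : ℕ) (y : ℚ) :
    ((expT n y : ℚ) : ℝ) = ∑ i ∈ Finset.range n, (y : ℝ) ^ i / (Nat.factorial i : ℝ) := by
  induction n with
  | zero => simp [expT]
  | succ n ih =>
    have h : expT (n + 1) y = expT n y + y ^ n / (Nat.factorial n : ℚ) := by
      unfold expT
      rw [List.range_succ, List.map_append, List.sum_append]
      simp
    rw [h, Rat.cast_add, ih, Finset.sum_range_succ]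
    push_cast
    rfl

private theorem AnCell_bound (x : ℚ) (hx : |x| ≤ 16) :
    |Real.exp ((x : ℝ) / 16) - ((expT 12 (x / 16) : ℚ) : ℝ)| ≤ ((expR (x / 16) : ℚ) : ℝ) := by
  have hx1 : |(x : ℝ) / 16| ≤ 1 := by
    have h1 : |(x : ℝ)| ≤ 16 := by exact_mod_cast hx
    rw [abs_div, abs_of_pos (by norm_num : (0 : ℝ) < 16), div_le_one (by norm_num)]
    exact h1
  have h := Real.exp_bound hx1 (n := 12) (by norm_num)
  have e1 : ((expT 12 (x / 16) : ℚ) : ℝ) =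
      ∑ m ∈ Finset.range 12, ((x : ℝ) / 16) ^ m / (Nat.factorial m : ℝ) := by
    rw [AnCell_expT]
    push_cast
    rfl
  have e2 : ((expR (x / 16) : ℚ) : ℝ) = |(x : ℝ) / 16| ^ 12 *
      (((12 : ℕ).succ : ℝ) / (((12 : ℕ).factorial : ℝ) * ((12 : ℕ) : ℝ))) := by
    unfold expR
    push_cast
    norm_num [Nat.factorial]
  rw [e1, e2]
  exact h

private theorem AnCell_exp16 (x : ℚ) : Real.exp x = Real.exp ((x : ℝ) / 16) ^ 16 := by
  rw [← Real.exp_nat_mul]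
  congr 1
  push_cast
  ring

theorem eLo_le (x : ℚ) : (eLo x : ℝ) ≤ Real.exp x := by
  unfold eLo
  split_ifs with h
  · have h1 := AnCell_bound x h.1
    have h2 : ((expT 12 (x / 16) : ℚ) : ℝ) - ((expR (x / 16) : ℚ) : ℝ) ≤
        Real.exp ((x : ℝ) / 16) := by
      have := (abs_le.1 h1).1
      linarith
    have h3 : (0 : ℝ) ≤ ((expT 12 (x / 16) : ℚ) : ℝ) - ((expR (x / 16) : ℚ) : ℝ) := by
      exact_mod_cast h.2
    rw [AnCell_exp16]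
    push_cast
    exact pow_le_pow_left₀ h3 h2 16
  · rw [Rat.cast_zero]
    exact (Real.exp_pos _).le

theorem le_eHi (x : ℚ) : Real.exp x ≤ (eHi x : ℝ) := by
  unfold eHi
  split_ifs with h
  · have h1 := AnCell_bound x h
    have h2 : Real.exp ((x : ℝ) / 16) ≤
        ((expT 12 (x / 16) : ℚ) : ℝ) + ((expR (x / 16) : ℚ) : ℝ) := by
      have := (abs_le.1 h1).2
      linarith
    rw [AnCell_exp16]
    push_cast
    exact pow_le_pow_left₀ (Real.exp_pos _).le h2 16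
  · have h1 : (x : ℝ) ≤ (Int.toNat ⌈x⌉ : ℝ) := by
      have h2 : x ≤ (⌈x⌉ : ℚ) := Int.le_ceil x
      have h3 : (⌈x⌉ : ℤ) ≤ (Int.toNat ⌈x⌉ : ℤ) := Int.self_le_toNat _
      have h4 : x ≤ ((Int.toNat ⌈x⌉ : ℕ) : ℚ) := h2.trans (by exact_mod_cast h3)
      exact_mod_cast h4
    have h5 : Real.exp 1 ≤ 3 := by
      have := Real.exp_one_lt_d9
      linarith
    calc Real.exp x ≤ Real.exp (Int.toNat ⌈x⌉ : ℝ) := Real.exp_le_exp.2 h1
      _ = Real.exp 1 ^ (Int.toNat ⌈x⌉) := by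
          rw [← Real.exp_nat_mul, mul_one]
      _ ≤ 3 ^ (Int.toNat ⌈x⌉) := pow_le_pow_left₀ (Real.exp_pos _).le h5 _
      _ = _ := by push_cast; rfl

private theorem AnCell_fLo (j : ℕ) (u : ℚ) : ((fLo j u : ℚ) : ℝ) ≤ fk j u := by
  unfold fLo fk
  rw [Rat.cast_sub, AnCell_expT]
  have := eLo_le u
  linarith

private theorem AnCell_fHi (j : ℕ) (u : ℚ) : fk j u ≤ ((fHi j u : ℚ) : ℝ) := by
  unfold fHi fk
  rw [Rat.cast_sub, AnCell_expT]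
  have := le_eHi u
  linarith

private theorem AnCell_chkF {j : ℕ} {u₀ κ C : ℚ} (h : chkF (j + 1) u₀ κ C = true) {u : ℝ}
    (hu : 0 ≤ u) : fk (j + 1) u ≤ (C : ℝ) * Real.exp (κ * u) := by
  unfold chkF at h
  simp only [Bool.and_eq_true, decide_eq_true_eq, Nat.add_sub_cancel] at h
  obtain ⟨⟨⟨⟨h1, h2⟩, h3⟩, h4⟩, h5⟩ := h
  have h1' : (0 : ℝ) < u₀ := by exact_mod_cast h1
  have h2' : (0 : ℝ) < ((fLo (j + 1) u₀ : ℚ) : ℝ) := by exact_mod_cast h2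
  have h3' : (0 : ℝ) ≤ ((fLo j u₀ : ℚ) : ℝ) := by exact_mod_cast h3
  have h4' : ((fHi j u₀ : ℚ) : ℝ) ≤ κ * ((fLo (j + 1) u₀ : ℚ) : ℝ) := by exact_mod_cast h4
  have l1 := AnCell_fLo (j + 1) u₀
  have l2 := AnCell_fLo j u₀
  have l3 := AnCell_fHi (j + 1) u₀
  have l4 := AnCell_fHi j u₀
  have hf0 : 0 < fk (j + 1) u₀ := fk_pos _ h1'
  have hf1 : 0 < fk j u₀ := fk_pos _ h1'
  have hHi : (0 : ℝ) < ((fHi (j + 1) u₀ : ℚ) : ℝ) := hf0.trans_le l3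
  have hκ : (0 : ℝ) < κ := by
    by_contra hcon
    have : (κ : ℝ) * ((fLo (j + 1) u₀ : ℚ) : ℝ) ≤ 0 :=
      mul_nonpos_of_nonpos_of_nonneg (not_lt.1 hcon) h2'.le
    linarith
  have hr1 : fk j u₀ / fk (j + 1) u₀ ≤ κ := by
    rw [div_le_iff₀ hf0]
    calc fk j u₀ ≤ κ * ((fLo (j + 1) u₀ : ℚ) : ℝ) := l4.trans h4'
      _ ≤ κ * fk (j + 1) u₀ := mul_le_mul_of_nonneg_left l1 hκ.le
  have hr2 : ((fLo j u₀ : ℚ) : ℝ) / ((fHi (j + 1) u₀ : ℚ) : ℝ) ≤ fk j u₀ / fk (j + 1) u₀ := by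
    calc ((fLo j u₀ : ℚ) : ℝ) / ((fHi (j + 1) u₀ : ℚ) : ℝ)
        ≤ fk j u₀ / ((fHi (j + 1) u₀ : ℚ) : ℝ) := by gcongr
      _ ≤ fk j u₀ / fk (j + 1) u₀ := by gcongr
  have h5' : ((fHi (j + 1) u₀ : ℚ) : ℝ) *
      Real.exp (-(((fLo j u₀ : ℚ) : ℝ) / ((fHi (j + 1) u₀ : ℚ) : ℝ)) * u₀) ≤ C := by
    have h6 := le_eHi (-(fLo j u₀ / fHi (j + 1) u₀) * u₀)
    have h7 : ((fHi (j + 1) u₀ : ℚ) : ℝ) *
        ((eHi (-(fLo j u₀ / fHi (j + 1) u₀) * u₀) : ℚ) : ℝ) ≤ C := by exact_mod_cast h5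
    push_cast at h6
    exact (mul_le_mul_of_nonneg_left h6 hHi.le).trans h7
  have ht := fk_tangent j h1' hu
  refine ht.trans ?_
  have e1 : Real.exp (fk j u₀ / fk (j + 1) u₀ * (u - u₀)) =
      Real.exp (-(fk j u₀ / fk (j + 1) u₀) * u₀) * Real.exp (fk j u₀ / fk (j + 1) u₀ * u) := by
    rw [← Real.exp_add]
    congr 1
    ring
  rw [e1, ← mul_assoc]
  refine mul_le_mul ?_ ?_ (Real.exp_pos _).le ?_
  · refine le_trans ?_ h5'
    refine mul_le_mul l3 (Real.exp_le_exp.2 ?_) (Real.exp_pos _).le hHi.le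
    exact mul_le_mul_of_nonneg_right (neg_le_neg hr2) h1'.le
  · exact Real.exp_le_exp.2 (mul_le_mul_of_nonneg_right hr1 hu)
  · refine le_trans ?_ h5'
    exact mul_nonneg hHi.le (Real.exp_pos _).le

/-- the tangent inequality for a log-concave function on `[0, ∞)` -/
private theorem AnCell_tan {h h' h'' : ℝ → ℝ} (hd : ∀ x, HasDerivAt h (h' x) x)
    (hd' : ∀ x, HasDerivAt h' (h'' x) x) (hpos : ∀ x, 0 ≤ x → 0 < h x)
    (hlc : ∀ x, 0 ≤ x → h x * h'' x ≤ h' x ^ 2) {v₀ v : ℝ} (h0 : 0 ≤ v₀) (hv : 0 ≤ v) :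
    h v ≤ h v₀ * Real.exp (h' v₀ / h v₀ * (v - v₀)) := by
  have hanti : AntitoneOn (fun x => h' x / h x) (Set.Ici 0) := by
    apply antitoneOn_of_deriv_nonpos (convex_Ici 0)
    · intro x hx
      exact ((hd' x).continuousAt.div (hd x).continuousAt (hpos x hx).ne').continuousWithinAt
    · intro x hx
      rw [interior_Ici] at hx
      exact ((hd' x).div (hd x) (hpos x hx.le).ne').differentiableAt.differentiableWithinAt
    · intro x hx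
      rw [interior_Ici] at hx
      have h1 := ((hd' x).div (hd x) (hpos x (le_of_lt hx)).ne')
      have h2 : deriv (fun x => h' x / h x) x = (h'' x * h x - h' x * h' x) / h x ^ 2 := h1.deriv
      rw [h2]
      refine div_nonpos_of_nonpos_of_nonneg ?_ (sq_nonneg _)
      have := hlc x (le_of_lt hx)
      nlinarith
  have hlog : ∀ x, 0 ≤ x → HasDerivAt (fun x => Real.log (h x)) (h' x / h x) x :=
    fun x hx => (hd x).log (hpos x hx).ne'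
  have key : Real.log (h v) ≤ Real.log (h v₀) + h' v₀ / h v₀ * (v - v₀) := by
    rcases lt_trichotomy v v₀ with hlt | heq | hgt
    · obtain ⟨ξ, hξ, hξ'⟩ := exists_hasDerivAt_eq_slope (fun x => Real.log (h x))
        (fun x => h' x / h x) hlt
        (fun x hx => (hlog x (hv.trans hx.1)).continuousAt.continuousWithinAt)
        (fun x hx => hlog x (hv.trans hx.1.le))
      have h1 : h' v₀ / h v₀ ≤ h' ξ / h ξ :=
        hanti (Set.mem_Ici.2 (hv.trans hξ.1.le)) (Set.mem_Ici.2 h0) hξ.2.le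
      rw [hξ', le_div_iff₀ (by linarith)] at h1
      linarith
    · rw [heq, sub_self, mul_zero, add_zero]
    · obtain ⟨ξ, hξ, hξ'⟩ := exists_hasDerivAt_eq_slope (fun x => Real.log (h x))
        (fun x => h' x / h x) hgt
        (fun x hx => (hlog x (h0.trans hx.1)).continuousAt.continuousWithinAt)
        (fun x hx => hlog x (h0.trans hx.1.le))
      have h1 : h' ξ / h ξ ≤ h' v₀ / h v₀ :=
        hanti (Set.mem_Ici.2 h0) (Set.mem_Ici.2 (h0.trans hξ.1.le)) hξ.1.le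
      rw [hξ', div_le_iff₀ (by linarith)] at h1
      linarith
  have h2 := Real.exp_le_exp.2 key
  rw [Real.exp_log (hpos v hv), Real.exp_add, Real.exp_log (hpos v₀ h0)] at h2
  exact h2

private theorem AnCell_chkH {h0 h1 h2 h3 v₀ γ G : ℚ} (h : chkH h0 h1 h2 h3 v₀ γ G = true)
    {v : ℝ} (hv : 0 ≤ v) :
    (h0 : ℝ) + h1 * v + h2 * v ^ 2 + h3 * v ^ 3 ≤ Real.exp (G + γ * v) := by
  unfold chkH at h
  simp only [Bool.and_eq_true, decide_eq_true_eq] at h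
  obtain ⟨⟨⟨⟨⟨⟨⟨⟨p0, p1⟩, p2⟩, p3⟩, q1⟩, q2⟩, hv0⟩, hγ⟩, hG⟩ := h
  have p0' : (0 : ℝ) < h0 := by exact_mod_cast p0
  have p1' : (0 : ℝ) ≤ h1 := by exact_mod_cast p1
  have p2' : (0 : ℝ) ≤ h2 := by exact_mod_cast p2
  have p3' : (0 : ℝ) ≤ h3 := by exact_mod_cast p3
  have q1' : 2 * (h0 : ℝ) * h2 ≤ (h1 : ℝ) ^ 2 := by exact_mod_cast q1
  have q2' : 3 * (h0 : ℝ) * h3 ≤ (h1 : ℝ) * h2 := by exact_mod_cast q2
  have hv0' : (0 : ℝ) ≤ v₀ := by exact_mod_cast hv0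
  have hγ' : (h1 : ℝ) + 2 * h2 * v₀ + 3 * h3 * (v₀ : ℝ) ^ 2 ≤
      γ * ((h0 : ℝ) + h1 * v₀ + h2 * (v₀ : ℝ) ^ 2 + h3 * (v₀ : ℝ) ^ 3) := by exact_mod_cast hγ
  have hG' := eLo_le (G + (h1 + 2 * h2 * v₀ + 3 * h3 * v₀ ^ 2) /
    (h0 + h1 * v₀ + h2 * v₀ ^ 2 + h3 * v₀ ^ 3) * v₀)
  have hG2 : (h0 : ℝ) + h1 * v₀ + h2 * (v₀ : ℝ) ^ 2 + h3 * (v₀ : ℝ) ^ 3 ≤
      ((eLo (G + (h1 + 2 * h2 * v₀ + 3 * h3 * v₀ ^ 2) /
    (h0 + h1 * v₀ + h2 * v₀ ^ 2 + h3 * v₀ ^ 3) * v₀) : ℚ) : ℝ) := by exact_mod_cast hG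
  push_cast at hG'
  have hpos : ∀ x : ℝ, 0 ≤ x → 0 < (h0 : ℝ) + h1 * x + h2 * x ^ 2 + h3 * x ^ 3 := by
    intro x hx
    positivity
  have ht := AnCell_tan (h := fun x : ℝ => (h0 : ℝ) + h1 * x + h2 * x ^ 2 + h3 * x ^ 3)
    (h' := fun x : ℝ => (h1 : ℝ) + 2 * h2 * x + 3 * h3 * x ^ 2)
    (h'' := fun x : ℝ => 2 * (h2 : ℝ) + 6 * h3 * x)
    (fun x => by
      have e := ((((hasDerivAt_id x).const_mul (h1 : ℝ)).const_add (h0 : ℝ)).add
        ((hasDerivAt_pow 2 x).const_mul (h2 : ℝ))).add ((hasDerivAt_pow 3 x).const_mul (h3 : ℝ))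
      refine e.congr_deriv ?_
      push_cast
      ring)
    (fun x => by
      have e := (((hasDerivAt_id x).const_mul (2 * (h2 : ℝ))).const_add (h1 : ℝ)).add
        ((hasDerivAt_pow 2 x).const_mul (3 * (h3 : ℝ)))
      refine e.congr_deriv ?_
      push_cast
      ring)
    hpos
    (fun x hx => by
      have e : ((h1 : ℝ) + 2 * h2 * x + 3 * h3 * x ^ 2) ^ 2 -
          ((h0 : ℝ) + h1 * x + h2 * x ^ 2 + h3 * x ^ 3) * (2 * (h2 : ℝ) + 6 * h3 * x) =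
          ((h1 : ℝ) ^ 2 - 2 * h0 * h2) + 2 * ((h1 : ℝ) * h2 - 3 * h0 * h3) * x +
            2 * (h2 : ℝ) ^ 2 * x ^ 2 + 4 * h2 * h3 * x ^ 3 + 3 * (h3 : ℝ) ^ 2 * x ^ 4 := by ring
      have e1 : 0 ≤ (h1 : ℝ) ^ 2 - 2 * h0 * h2 := by linarith
      have e2 : 0 ≤ (h1 : ℝ) * h2 - 3 * h0 * h3 := by linarith
      have e3 : 0 ≤ ((h1 : ℝ) ^ 2 - 2 * h0 * h2) + 2 * ((h1 : ℝ) * h2 - 3 * h0 * h3) * x +
            2 * (h2 : ℝ) ^ 2 * x ^ 2 + 4 * h2 * h3 * x ^ 3 + 3 * (h3 : ℝ) ^ 2 * x ^ 4 := by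
        positivity
      linarith)
    hv0' hv
  refine ht.trans ?_
  have hp := hpos v₀ hv0'
  set H : ℝ := (h0 : ℝ) + h1 * v₀ + h2 * (v₀ : ℝ) ^ 2 + h3 * (v₀ : ℝ) ^ 3 with hH
  set R : ℝ := ((h1 : ℝ) + 2 * h2 * v₀ + 3 * h3 * (v₀ : ℝ) ^ 2) / H with hR
  have hRγ : R ≤ γ := by
    rw [hR, div_le_iff₀ hp]
    exact hγ'
  calc H * Real.exp (R * (v - v₀)) ≤ Real.exp (G + R * v₀) * Real.exp (R * (v - v₀)) :=
        mul_le_mul_of_nonneg_right (hG2.trans hG') (Real.exp_pos _).le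
    _ = Real.exp (G + R * v) := by
        rw [← Real.exp_add]
        congr 1
        ring
    _ ≤ Real.exp (G + γ * v) := by
        refine Real.exp_le_exp.2 ?_
        have := mul_le_mul_of_nonneg_right hRγ hv
        linarith

private theorem AnCell_gk {d : ℕ} (hd : 2 ≤ d) (hd4 : d ≤ 4) {c : Cell}
    (hF : ∀ i < d, chkF (i + 2) (c.us.getD i 0) c.κ (c.cs.getD i 0) = true)
    (hH : chkH (c.h d 0) (c.h d 1) (c.h d 2) (c.h d 3) c.v₀ c.γ c.G = true)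
    {u v : ℝ} (hu : 0 ≤ u) (hv : 0 ≤ v) :
    gk d u v ≤ Real.exp (c.G + c.κ * u + c.γ * v) := by
  have h1 : ∀ i ∈ Finset.range d, v ^ i / (Nat.factorial i : ℝ) * fk (d + 1 - i) u ≤
      Real.exp (c.κ * u) * (((c.h d i : ℚ) : ℝ) * v ^ i) := by
    intro i hi
    rw [Finset.mem_range] at hi
    have h2 := AnCell_chkF (hF (d - 1 - i) (by omega)) hu
    have h3 : d - 1 - i + 1 + 1 = d + 1 - i := by omega
    rw [h3] at h2
    have h4 : ((c.h d i : ℚ) : ℝ) = ((c.cs.getD (d - 1 - i) 0 : ℚ) : ℝ) / (Nat.factorial i : ℝ) := by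
      unfold Cell.h
      rw [if_pos hi]
      push_cast
      rfl
    have h5 : 0 ≤ v ^ i / (Nat.factorial i : ℝ) := by positivity
    calc v ^ i / (Nat.factorial i : ℝ) * fk (d + 1 - i) u
        ≤ v ^ i / (Nat.factorial i : ℝ) *
          (((c.cs.getD (d - 1 - i) 0 : ℚ) : ℝ) * Real.exp (c.κ * u)) :=
          mul_le_mul_of_nonneg_left h2 h5
      _ = _ := by rw [h4]; ring
  have h6 : gk d u v ≤ Real.exp (c.κ * u) * ∑ i ∈ Finset.range d, ((c.h d i : ℚ) : ℝ) * v ^ i := by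
    unfold gk
    rw [Finset.mul_sum]
    exact Finset.sum_le_sum h1
  have h7 : ∑ i ∈ Finset.range d, ((c.h d i : ℚ) : ℝ) * v ^ i =
      ((c.h d 0 : ℚ) : ℝ) + ((c.h d 1 : ℚ) : ℝ) * v + ((c.h d 2 : ℚ) : ℝ) * v ^ 2 +
        ((c.h d 3 : ℚ) : ℝ) * v ^ 3 := by
    have hz : ∀ i, d ≤ i → c.h d i = 0 := by
      intro i hi
      unfold Cell.h
      rw [if_neg (by omega)]
    have hsub : Finset.range d ⊆ Finset.range 4 := Finset.range_subset_range.2 hd4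
    rw [Finset.sum_subset hsub (fun i _ hi => by
      rw [Finset.mem_range, not_lt] at hi
      rw [hz i hi]
      simp)]
    simp only [Finset.sum_range_succ, Finset.sum_range_zero]
    ring
  rw [h7] at h6
  refine h6.trans ?_
  calc Real.exp (c.κ * u) * (((c.h d 0 : ℚ) : ℝ) + ((c.h d 1 : ℚ) : ℝ) * v +
        ((c.h d 2 : ℚ) : ℝ) * v ^ 2 + ((c.h d 3 : ℚ) : ℝ) * v ^ 3)
      ≤ Real.exp (c.κ * u) * Real.exp (c.G + c.γ * v) :=
        mul_le_mul_of_nonneg_left (AnCell_chkH hH hv) (Real.exp_pos _).le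
    _ = _ := by
        rw [← Real.exp_add]
        congr 1
        ring

private theorem AnCell_xlog {x : ℝ} (hx : 0 < x) (s : ℚ) :
    -x * Real.log x ≤ x * s + ((eHi (-s) : ℚ) : ℝ) - x := by
  have h1 := Real.add_one_le_exp (-(s : ℝ) - Real.log x)
  have h2 : Real.exp (-(s : ℝ) - Real.log x) = Real.exp (-(s : ℝ)) / x := by
    rw [Real.exp_sub, Real.exp_log hx]
  have h3 := le_eHi (-s)
  push_cast at h3
  rw [h2] at h1
  have h4 : x * (-(s : ℝ) - Real.log x + 1) ≤ x * (Real.exp (-(s : ℝ)) / x) :=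
    mul_le_mul_of_nonneg_left h1 hx.le
  rw [mul_div_cancel₀ _ hx.ne'] at h4
  linarith

private theorem AnCell_log {q : ℝ} (hq : 0 < q) (t : ℝ) :
    Real.log q ≤ q * Real.exp (-t) - 1 + t := by
  have h1 := Real.add_one_le_exp (Real.log q - t)
  rw [Real.exp_sub, Real.exp_log hq] at h1
  rw [Real.exp_neg, ← div_eq_mul_inv]
  linarith

theorem cell_sound (d : ℕ) (hd : 2 ≤ d) (hd4 : d ≤ 4) (lam : ℝ) (h0 : 0 < lam) (Lam F : ℚ)
    (h1 : lam ≤ Lam) (h2 : (F : ℝ) ≤ Real.log (fk (d + 1) lam)) (c : Cell)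
    (hc : chk d Lam F c = true) (β : ℝ) (hβ : (c.a : ℝ) ≤ β) (hβ' : β ≤ c.b) :
    ∃ Lw kw G κ γ θ : ℝ, Par d Lw kw G κ γ θ ∧ Phi d lam Lw kw G κ γ θ β < 0 := by
  unfold chk at hc
  simp only [Bool.and_eq_true, decide_eq_true_eq, List.all_eq_true, List.mem_range] at hc
  obtain ⟨⟨⟨⟨⟨⟨⟨⟨⟨⟨ha, hab⟩, hb⟩, hkw⟩, hκ⟩, hγ⟩, hϑ⟩, hW⟩, hF⟩, hH⟩, hM⟩ := hc
  have ha' : (0 : ℝ) < c.a := by exact_mod_cast ha
  have hb' : (c.b : ℝ) < 1 := by exact_mod_cast hb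
  have hkw' : (0 : ℝ) < c.kw := by exact_mod_cast hkw
  have hκ' : (0 : ℝ) < c.κ := by exact_mod_cast hκ
  have hγ' : (0 : ℝ) < c.γ := by exact_mod_cast hγ
  have hϑ' : (0 : ℝ) ≤ c.ϑ := by exact_mod_cast hϑ
  have hβ0 : 0 < β := ha'.trans_le hβ
  have hβ1 : 0 < 1 - β := by linarith
  have hd0 : (0 : ℝ) < d := by exact_mod_cast (by omega : 0 < d)
  refine ⟨c.Lw, c.kw, c.G, c.κ, c.γ, Real.exp (-(c.ϑ : ℝ)), ?_, ?_⟩
  · refine ⟨hkw', hκ', hγ', Real.exp_pos _, ?_, ?_, ?_⟩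
    · exact Real.exp_le_one_iff.2 (by linarith)
    · intro w hw
      refine (AnCell_chkF hW hw).trans ?_
      rw [Real.exp_add]
      exact mul_le_mul_of_nonneg_right (eLo_le _) (Real.exp_pos _).le
    · intro u v hu hv
      exact AnCell_gk hd hd4 hF hH hu hv
  · -- the exponent
    unfold Phi
    rw [Real.log_exp]
    set Q : ℝ := lam ^ 2 / (4 * (d : ℝ) ^ 2) * (((c.kw : ℝ) * (1 - β)) ^ 2 +
      Real.exp (-(c.ϑ : ℝ)) * β * ((c.κ : ℝ) ^ 2 * β + 2 * c.γ * c.kw * (1 - β))) with hQ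
    have hQ0 : 0 < Q := by positivity
    have heϑ := le_eHi (-c.ϑ)
    have het := le_eHi (-c.t)
    push_cast at heϑ het
    set Θ : ℝ := ((eHi (-c.ϑ) : ℚ) : ℝ) with hΘ
    set τ : ℝ := ((eHi (-c.t) : ℚ) : ℝ) with hτ
    have hΘ0 : 0 < Θ := (Real.exp_pos _).trans_le heϑ
    have hτ0 : 0 < τ := (Real.exp_pos _).trans_le het
    set QR : ℝ → ℝ := fun x => (Lam : ℝ) ^ 2 / (4 * (d : ℝ) ^ 2) * (((c.kw : ℝ) * (1 - x)) ^ 2 +
      Θ * x * ((c.κ : ℝ) ^ 2 * x + 2 * c.γ * c.kw * (1 - x))) with hQR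
    have hQQ : Q ≤ QR β := by
      simp only [hQ, hQR]
      have hl2 : lam ^ 2 ≤ (Lam : ℝ) ^ 2 := pow_le_pow_left₀ h0.le h1 2
      have hA : 0 ≤ (c.κ : ℝ) ^ 2 * β + 2 * c.γ * c.kw * (1 - β) := by positivity
      have hB : Real.exp (-(c.ϑ : ℝ)) * β * ((c.κ : ℝ) ^ 2 * β + 2 * c.γ * c.kw * (1 - β)) ≤
          Θ * β * ((c.κ : ℝ) ^ 2 * β + 2 * c.γ * c.kw * (1 - β)) :=
        mul_le_mul_of_nonneg_right (mul_le_mul_of_nonneg_right heϑ hβ0.le) hA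
      refine mul_le_mul ?_ (by linarith) ?_ ?_
      · gcongr
      · positivity
      · positivity
    have hlogq := AnCell_log hQ0 (c.t : ℝ)
    have hqτ : Q * Real.exp (-(c.t : ℝ)) ≤ QR β * τ :=
      mul_le_mul hQQ het (Real.exp_pos _).le (hQ0.le.trans hQQ)
    have hx1 := AnCell_xlog hβ0 c.s₁
    have hx2 := AnCell_xlog hβ1 c.s₂
    -- the quadratic polynomial
    set BR : ℝ → ℝ := fun x => x * c.s₁ + ((eHi (-c.s₁) : ℚ) : ℝ) - x +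
      ((1 - x) * c.s₂ + ((eHi (-c.s₂) : ℚ) : ℝ) - (1 - x)) + x * c.G + (1 - x) * c.Lw - F +
      d * x * c.ϑ + d * (QR x * τ - 1 + c.t) + 2 * d with hBR
    have hcast : ∀ x : ℚ, ((c.bd d Lam F x : ℚ) : ℝ) = BR x := by
      intro x
      simp only [hBR, hQR, Cell.bd, Cell.q, hΘ, hτ]
      push_cast
      ring
    set LR : ℝ := d * τ * ((Lam : ℝ) ^ 2 / (4 * (d : ℝ) ^ 2) * ((c.kw : ℝ) ^ 2 +
      Θ * ((c.κ : ℝ) ^ 2 - 2 * c.γ * c.kw))) with hLR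
    have hlead : ((c.lead d Lam : ℚ) : ℝ) = LR := by
      simp only [hLR, Cell.lead, hΘ, hτ]
      push_cast
      ring
    have hM1 : BR c.a ≤ ((max (c.bd d Lam F c.a) (c.bd d Lam F c.b) : ℚ) : ℝ) := by
      rw [← hcast]
      exact_mod_cast le_max_left _ _
    have hM2 : BR c.b ≤ ((max (c.bd d Lam F c.a) (c.bd d Lam F c.b) : ℚ) : ℝ) := by
      rw [← hcast]
      exact_mod_cast le_max_right _ _
    have hL1 : (0 : ℝ) ≤ ((max 0 (-c.lead d Lam) : ℚ) : ℝ) := by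
      exact_mod_cast le_max_left _ _
    have hL2 : -LR ≤ ((max 0 (-c.lead d Lam) : ℚ) : ℝ) := by
      rw [← hlead]
      exact_mod_cast le_max_right _ _
    have hM' : ((max (c.bd d Lam F c.a) (c.bd d Lam F c.b) : ℚ) : ℝ) +
        ((max 0 (-c.lead d Lam) : ℚ) : ℝ) * ((c.b : ℝ) - c.a) ^ 2 / 4 < 0 := by
      exact_mod_cast hM
    generalize ((max (c.bd d Lam F c.a) (c.bd d Lam F c.b) : ℚ) : ℝ) = MM at hM1 hM2 hM'
    generalize ((max 0 (-c.lead d Lam) : ℚ) : ℝ) = LL at hL1 hL2 hM'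
    have hquad : ((c.b : ℝ) - c.a) * BR β = ((c.b : ℝ) - β) * BR c.a + (β - c.a) * BR c.b -
        LR * ((β - c.a) * ((c.b : ℝ) - β)) * ((c.b : ℝ) - c.a) := by
      simp only [hBR, hQR, hLR]
      ring
    have hfin : BR β ≤ MM + LL * ((c.b : ℝ) - c.a) ^ 2 / 4 := by
      have hu : 0 ≤ β - c.a := by linarith
      have hw : 0 ≤ (c.b : ℝ) - β := by linarith
      have hprod : (β - c.a) * ((c.b : ℝ) - β) ≤ ((c.b : ℝ) - c.a) ^ 2 / 4 := by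
        nlinarith [sq_nonneg ((β - c.a) - ((c.b : ℝ) - β))]
      have hprod0 : 0 ≤ (β - c.a) * ((c.b : ℝ) - β) := mul_nonneg hu hw
      have hLb : -LR * ((β - c.a) * ((c.b : ℝ) - β)) ≤ LL * ((c.b : ℝ) - c.a) ^ 2 / 4 := by
        calc -LR * ((β - c.a) * ((c.b : ℝ) - β)) ≤ LL * ((β - c.a) * ((c.b : ℝ) - β)) :=
              mul_le_mul_of_nonneg_right hL2 hprod0
          _ ≤ LL * (((c.b : ℝ) - c.a) ^ 2 / 4) := mul_le_mul_of_nonneg_left hprod hL1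
          _ = _ := by ring
      rcases (sub_nonneg.2 (hβ.trans hβ')).eq_or_lt with he | hlt
      · have hβa : β = c.a := by linarith
        rw [hβa]
        have : 0 ≤ LL * ((c.b : ℝ) - c.a) ^ 2 / 4 := by positivity
        linarith
      · have h3 : ((c.b : ℝ) - c.a) * BR β ≤
            ((c.b : ℝ) - c.a) * (MM + LL * ((c.b : ℝ) - c.a) ^ 2 / 4) := by
          rw [hquad]
          have e1 := mul_le_mul_of_nonneg_left hM1 hw
          have e2 := mul_le_mul_of_nonneg_left hM2 hu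
          have e3 := mul_le_mul_of_nonneg_left hLb hlt.le
          nlinarith [e1, e2, e3]
        exact le_of_mul_le_mul_left h3 hlt
    have hBRβ : BR β < 0 := hfin.trans_lt hM'
    have hdq : (d : ℝ) * Real.log Q ≤ d * (QR β * τ - 1 + c.t) :=
      mul_le_mul_of_nonneg_left (by linarith) hd0.le
    simp only [hBR] at hBRβ
    linarith

end Pool.Agent.Helper50.RG
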