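import Pool.Agent.Helper50.RG.Defs

/-!
# RG-62 : an inequality in one variable

Let `t ∈ (0, 1)` with `p = t/(1 - t²)` (`t < 0.6181` for `p < 1`), `b = 1/(1 - t)`. Then
`b²/(2b-1) = 1/(1-t²)`, `2 p/b = 2 t/(1+t)`, so the bracket divided by `p` is
`2 (1-t) - (1-t²) log (1-t²)/t ≤ 2 - t - t³/2` (`-(1-y) log (1-y) ≤ y - y²/2`, `y = t²`). And
`- log p/(1-p) ≥ 3 (1+p)/(1 + 4p + p²) = 3 (1-t²)(1+t-t²)/((1-t²)² + 4t(1-t²) + t²)` (Padé bound of the
logarithm). So with `D = (1-t²)² + 4t(1-t²) + t²`, `R = 3 (1-t²)(1+t-t²)/D`: the left side is at most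
`5 (2 - t - t³/2) - 4 R + (d-5) (2 - t - t³/2 - R)` and `5 (2-t-t³/2) - 4 R ≤ 2.36`
(maximum about `2.341`), `2 - t - t³/2 - R ≤ 0.265` (maximum `0.264` at `t = 0.618`), polynomial
inequalities in `t ∈ [0, 0.6181]`.
-/

set_option autoImplicit false

namespace Pool.Agent.Helper50.RG

/-- Padé bound of the logarithm -/
private theorem anG_pade {p : ℝ} (h0 : 0 < p) (h1 : p < 1) :
    3 * (1 - p ^ 2) / (1 + 4 * p + p ^ 2) ≤ -Real.log p := by
  have hder : ∀ x ∈ Set.Ioo p 1, HasDerivAt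
      (fun x : ℝ => -Real.log x - 3 * (1 - x ^ 2) / (1 + 4 * x + x ^ 2))
      (-(1 - x) ^ 4 / (x * (1 + 4 * x + x ^ 2) ^ 2)) x := by
    intro x hx
    have hx0 : 0 < x := h0.trans hx.1
    have hD : 1 + 4 * x + x ^ 2 ≠ 0 := by positivity
    have e1 := (Real.hasDerivAt_log hx0.ne').neg
    have e2 : HasDerivAt (fun x : ℝ => 3 * (1 - x ^ 2)) (3 * (-(2 * x))) x := by
      have := ((hasDerivAt_pow 2 x).const_sub 1).const_mul 3
      refine this.congr_deriv ?_
      ring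
    have e3 : HasDerivAt (fun x : ℝ => 1 + 4 * x + x ^ 2) (4 + 2 * x) x := by
      have := (((hasDerivAt_id x).const_mul 4).const_add 1).add (hasDerivAt_pow 2 x)
      refine (this.congr_deriv ?_).congr_of_eventuallyEq ?_
      · ring
      · exact Filter.Eventually.of_forall (fun y => by simp)
    have e4 := e1.sub (e2.div e3 hD)
    refine e4.congr_deriv ?_
    field_simp
    ring
  have hcont : ContinuousOn
      (fun x : ℝ => -Real.log x - 3 * (1 - x ^ 2) / (1 + 4 * x + x ^ 2)) (Set.Icc p 1) := by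
    apply ContinuousOn.sub
    · apply ContinuousOn.neg
      apply Real.continuousOn_log.mono
      intro x hx
      have : 0 < x := lt_of_lt_of_le h0 hx.1
      exact this.ne'
    · apply ContinuousOn.div
      · fun_prop
      · fun_prop
      · intro x hx
        have : 0 < x := lt_of_lt_of_le h0 hx.1
        positivity
  have hanti := antitoneOn_of_deriv_nonpos (convex_Icc p 1) hcont
    (fun x hx => by
      rw [interior_Icc] at hx
      exact (hder x hx).differentiableAt.differentiableWithinAt)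
    (fun x hx => by
      rw [interior_Icc] at hx
      rw [(hder x hx).deriv]
      have hx0 : 0 < x := h0.trans hx.1
      apply div_nonpos_of_nonpos_of_nonneg
      · have : 0 ≤ (1 - x) ^ 4 := by positivity
        linarith
      · positivity)
  have h2 := hanti (Set.left_mem_Icc.mpr h1.le) (Set.right_mem_Icc.mpr h1.le) h1.le
  simp only [Real.log_one] at h2
  norm_num at h2
  linarith

/-- `-(1-y) log (1-y) ≤ y - y²/2` in the variable `z = 1 - y` -/
private theorem anG_log {z : ℝ} (h0 : 0 < z) (h1 : z < 1) :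
    -Real.log z ≤ (1 / z - z) / 2 := by
  have hder : ∀ x ∈ Set.Ioo z 1, HasDerivAt
      (fun x : ℝ => (1 / x - x) / 2 + Real.log x)
      (-(1 - x) ^ 2 / (2 * x ^ 2)) x := by
    intro x hx
    have hx0 : 0 < x := h0.trans hx.1
    have e1 := Real.hasDerivAt_log hx0.ne'
    have e2 : HasDerivAt (fun x : ℝ => 1 / x) (-1 / x ^ 2) x := by
      have := (hasDerivAt_const x (1 : ℝ)).div (hasDerivAt_id x) hx0.ne'
      refine this.congr_deriv ?_
      simp
    have e4 := ((e2.sub (hasDerivAt_id x)).div_const 2).add e1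
    refine e4.congr_deriv ?_
    field_simp
    ring
  have hcont : ContinuousOn
      (fun x : ℝ => (1 / x - x) / 2 + Real.log x) (Set.Icc z 1) := by
    intro x hx
    have hx0 : 0 < x := lt_of_lt_of_le h0 hx.1
    apply ContinuousAt.continuousWithinAt
    apply ContinuousAt.add
    · apply ContinuousAt.div_const
      apply ContinuousAt.sub
      · exact continuousAt_const.div continuousAt_id hx0.ne'
      · exact continuousAt_id
    · exact Real.continuousAt_log hx0.ne'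
  have hanti := antitoneOn_of_deriv_nonpos (convex_Icc z 1) hcont
    (fun x hx => by
      rw [interior_Icc] at hx
      exact (hder x hx).differentiableAt.differentiableWithinAt)
    (fun x hx => by
      rw [interior_Icc] at hx
      rw [(hder x hx).deriv]
      have hx0 : 0 < x := h0.trans hx.1
      apply div_nonpos_of_nonpos_of_nonneg
      · have : 0 ≤ (1 - x) ^ 2 := by positivity
        linarith
      · positivity)
  have h2 := hanti (Set.left_mem_Icc.mpr h1.le) (Set.right_mem_Icc.mpr h1.le) h1.le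
  simp only [Real.log_one] at h2
  norm_num at h2
  have h3 : (1 / z - z) / 2 = (z⁻¹ - z) / 2 := by rw [one_div]
  rw [h3]
  linarith

private theorem anG_polyA {t : ℝ} (h0 : 0 ≤ t) (h1 : t ≤ 5 / 8) :
    0 ≤ 12 * ((1 - t ^ 2) * (1 + t - t ^ 2)) - (10 - 5 * t - 5 / 2 * t ^ 3 - 236 / 100) *
      ((1 - t ^ 2) ^ 2 + 4 * t * (1 - t ^ 2) + t ^ 2) := by
  rcases le_total t (1 / 2) with h | h
  · obtain ⟨u, hu⟩ : ∃ u, u = t := ⟨_, rfl⟩
    obtain ⟨w, hw⟩ : ∃ w, w = 1 / 2 - t := ⟨_, rfl⟩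
    have hu0 : 0 ≤ u := by rw [hu]; exact h0
    have hw0 : 0 ≤ w := by rw [hw]; linarith
    have key : 12 * ((1 - t ^ 2) * (1 + t - t ^ 2)) - (10 - 5 * t - 5 / 2 * t ^ 3 - 236 / 100) *
      ((1 - t ^ 2) ^ 2 + 4 * t * (1 - t ^ 2) + t ^ 2) =
      (13952/25)*(u^0*w^7) + (75968/25)*(u^1*w^6) + (165728/25)*(u^2*w^5) +
      (183864/25)*(u^3*w^4) + (108088/25)*(u^4*w^3) + (32082/25)*(u^5*w^2) +
      (872/5)*(u^6*w^1) + (553/50)*(u^7*w^0) := by
      rw [hu, hw]; ring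
    rw [key]
    positivity
  · obtain ⟨u, hu⟩ : ∃ u, u = t - 1 / 2 := ⟨_, rfl⟩
    obtain ⟨w, hw⟩ : ∃ w, w = 5 / 8 - t := ⟨_, rfl⟩
    have hu0 : 0 ≤ u := by rw [hu]; linarith
    have hw0 : 0 ≤ w := by rw [hw]; linarith
    have key : 12 * ((1 - t ^ 2) * (1 + t - t ^ 2)) - (10 - 5 * t - 5 / 2 * t ^ 3 - 236 / 100) *
      ((1 - t ^ 2) ^ 2 + 4 * t * (1 - t ^ 2) + t ^ 2) =
      (4530176/25)*(u^0*w^7) + (4356096/5)*(u^1*w^6) + (47559168/25)*(u^2*w^5) +
      (68774272/25)*(u^3*w^4) + (76226656/25)*(u^4*w^3) + (60029512/25)*(u^5*w^2) +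
      (27651702/25)*(u^6*w^1) + (10767001/50)*(u^7*w^0) := by
      rw [hu, hw]; ring
    rw [key]
    positivity

private theorem anG_polyB {t : ℝ} (h0 : 0 ≤ t) (h1 : t ≤ 31 / 50) :
    0 ≤ 3 * ((1 - t ^ 2) * (1 + t - t ^ 2)) - (2 - t - 1 / 2 * t ^ 3 - 265 / 1000) *
      ((1 - t ^ 2) ^ 2 + 4 * t * (1 - t ^ 2) + t ^ 2) := by
  obtain ⟨u, hu⟩ : ∃ u, u = t := ⟨_, rfl⟩
  obtain ⟨w, hw⟩ : ∃ w, w = 31 / 50 - t := ⟨_, rfl⟩
  have hu0 : 0 ≤ u := by rw [hu]; exact h0
  have hw0 : 0 ≤ w := by rw [hw]; linarith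
  have key : 3 * ((1 - t ^ 2) * (1 + t - t ^ 2)) - (2 - t - 1 / 2 * t ^ 3 - 265 / 1000) *
      ((1 - t ^ 2) ^ 2 + 4 * t * (1 - t ^ 2) + t ^ 2) =
    (988281250000/27512614111)*(u^0*w^7) + (5493906250000/27512614111)*(u^1*w^6) +
    (12129948437500/27512614111)*(u^2*w^5) + (13471498687500/27512614111)*(u^3*w^4) +
    (7789943133125/27512614111)*(u^4*w^3) + (2221420588125/27512614111)*(u^5*w^2) +
    (265982721275/27512614111)*(u^6*w^1) + (2172646661/55025228222)*(u^7*w^0) := by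
    rw [hu, hw]; ring
  rw [key]
  positivity

theorem an_ineq (d : ℕ) (hd : 5 ≤ d) (p : ℝ) (h0 : 0 < p) (h1 : p < 1) :
    ∃ b : ℝ, 1 / 2 < b ∧
      ((d : ℝ) - 1) * Real.log p / (1 - p) +
        d * (2 / b + Real.log (b ^ 2 / (2 * b - 1)) / p) ≤ 2.36 + 0.265 * (d - 5) := by
  have hd5 : (5 : ℝ) ≤ d := by exact_mod_cast hd
  -- the parameter t
  obtain ⟨t, ht0, hteq⟩ : ∃ t : ℝ, 0 < t ∧ p * (1 - t ^ 2) = t := by
    set s := Real.sqrt (1 + 4 * p ^ 2) with hs
    have hs2 : s ^ 2 = 1 + 4 * p ^ 2 := Real.sq_sqrt (by positivity)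
    have hs0 : 0 ≤ s := Real.sqrt_nonneg _
    refine ⟨2 * p / (1 + s), by positivity, ?_⟩
    have h1s : (1 + s) ≠ 0 := by positivity
    field_simp
    nlinarith [hs2]
  have ht1 : t ^ 2 + t < 1 := by
    have h2 : 0 < 1 - t ^ 2 := by
      by_contra h
      rw [not_lt] at h
      have := mul_nonpos_of_nonneg_of_nonpos h0.le h
      linarith
    nlinarith
  have ht2 : t < 1 := by nlinarith
  have ht3 : t ≤ 31 / 50 := by nlinarith
  have hz0 : 0 < 1 - t ^ 2 := by nlinarith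
  have hz1 : 1 - t ^ 2 < 1 := by nlinarith
  have hp : p = t / (1 - t ^ 2) := by
    rw [eq_div_iff hz0.ne']; exact hteq
  have h1t : 0 < 1 - t := by linarith
  refine ⟨1 / (1 - t), ?_, ?_⟩
  · rw [div_lt_div_iff₀ (by norm_num) h1t]
    linarith
  have hb1 : 2 / (1 / (1 - t)) = 2 * (1 - t) := by
    field_simp
  have hb2 : (1 / (1 - t)) ^ 2 / (2 * (1 / (1 - t)) - 1) = 1 / (1 - t ^ 2) := by
    have h1t' : 0 < 1 + t := by linarith
    have e1 : 2 * (1 / (1 - t)) - 1 = (1 + t) / (1 - t) := by field_simp; ring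
    rw [e1, show 1 - t ^ 2 = (1 - t) * (1 + t) by ring]
    field_simp
  rw [hb1, hb2]
  have hlogz : Real.log (1 / (1 - t ^ 2)) = -Real.log (1 - t ^ 2) := by
    rw [one_div, Real.log_inv]
  rw [hlogz]
  -- the bracket
  have hbr : 2 * (1 - t) + -Real.log (1 - t ^ 2) / p ≤ 2 - t - t ^ 3 / 2 := by
    have h3 := anG_log hz0 hz1
    have h4 : -Real.log (1 - t ^ 2) / p ≤ t - t ^ 3 / 2 := by
      rw [div_le_iff₀ h0]
      refine h3.trans (le_of_eq ?_)
      rw [hp]
      field_simp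
      ring
    linarith
  -- the first term
  have hR : 3 * (1 + p) / (1 + 4 * p + p ^ 2) ≤ -Real.log p / (1 - p) := by
    have h3 := anG_pade h0 h1
    rw [le_div_iff₀ (by linarith)]
    refine le_trans (le_of_eq ?_) h3
    field_simp
    ring
  set R := 3 * (1 + p) / (1 + 4 * p + p ^ 2) with hRdef
  set D := (1 - t ^ 2) ^ 2 + 4 * t * (1 - t ^ 2) + t ^ 2 with hD
  have hD0 : 0 < D := by rw [hD]; positivity
  have hRt : R = 3 * ((1 - t ^ 2) * (1 + t - t ^ 2)) / D := by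
    have e1 : (1 + 4 * p + p ^ 2) = D / (1 - t ^ 2) ^ 2 := by
      rw [hp, hD]; field_simp
    have e2 : 1 + p = (1 + t - t ^ 2) / (1 - t ^ 2) := by
      rw [hp]; field_simp; ring
    rw [hRdef, e1, e2]
    field_simp
  have hA : 5 * (2 - t - t ^ 3 / 2) - 4 * R ≤ 2.36 := by
    have h3 := anG_polyA ht0.le (by linarith : t ≤ 5 / 8)
    rw [← hD] at h3
    rw [hRt]
    have h5 : 5 * (2 - t - t ^ 3 / 2) - 2.36 ≤
        4 * (3 * ((1 - t ^ 2) * (1 + t - t ^ 2)) / D) := by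
      rw [← mul_div_assoc, le_div_iff₀ hD0]
      norm_num
      linarith
    linarith
  have hB : (2 - t - t ^ 3 / 2) - R ≤ 0.265 := by
    have h3 := anG_polyB ht0.le ht3
    rw [← hD] at h3
    rw [hRt]
    have h5 : (2 - t - t ^ 3 / 2) - 0.265 ≤ 3 * ((1 - t ^ 2) * (1 + t - t ^ 2)) / D := by
      rw [le_div_iff₀ hD0]
      norm_num
      linarith
    linarith
  have h6 : ((d : ℝ) - 1) * Real.log p / (1 - p) ≤ -(((d : ℝ) - 1) * R) := by
    have e1 : ((d : ℝ) - 1) * Real.log p / (1 - p) =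
        -(((d : ℝ) - 1) * (-Real.log p / (1 - p))) := by ring
    rw [e1]
    have := mul_le_mul_of_nonneg_left hR (show 0 ≤ (d : ℝ) - 1 by linarith)
    linarith
  have h7 : (d : ℝ) * (2 * (1 - t) + -Real.log (1 - t ^ 2) / p) ≤
      d * (2 - t - t ^ 3 / 2) := mul_le_mul_of_nonneg_left hbr (by linarith)
  have h8 := mul_le_mul_of_nonneg_left hB (show 0 ≤ (d : ℝ) - 5 by linarith)
  calc ((d : ℝ) - 1) * Real.log p / (1 - p) +
        d * (2 * (1 - t) + -Real.log (1 - t ^ 2) / p)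
      ≤ -(((d : ℝ) - 1) * R) + d * (2 - t - t ^ 3 / 2) := add_le_add h6 h7
    _ = (5 * (2 - t - t ^ 3 / 2) - 4 * R) + ((d : ℝ) - 5) * ((2 - t - t ^ 3 / 2) - R) := by ring
    _ ≤ 2.36 + ((d : ℝ) - 5) * 0.265 := add_le_add hA h8
    _ = _ := by ring

end Pool.Agent.Helper50.RG
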