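import Pool.Agent.Helper50.RG.Words

/-!
# RG-65 : numerical values of `lam` for `d = 2, 3, 4`

True values `lam_2 = 2.6879993...`, `lam_3 = 5.0714697...`, `lam_4 = 7.3217033...`. Intermediate
value theorem for `x fk d x - 2 d fk (d+1) x` on the given interval, with rational bounds of `exp`
at the end points (`Real.exp_bound'` for a reduced argument `x/8`, eighth powers).
The lower bounds of `log (fk (d+1) lam)`: `fk (d+1)` is monotone; evaluate it at the left end point
(true values `2.0016911`, `4.7769154`, `7.1643317`).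
-/

set_option autoImplicit false

namespace Pool.Agent.Helper50.RG

private theorem anL_exp_low {x a : ℝ} (n : ℕ) (hx : 0 ≤ x) (ha : 0 ≤ a)
    (h : a ≤ ∑ m ∈ Finset.range n, (x / 8) ^ m / (m.factorial : ℝ)) : a ^ 8 ≤ Real.exp x := by
  have h1 : a ≤ Real.exp (x / 8) := h.trans (Real.sum_le_exp_of_nonneg (by positivity) n)
  calc a ^ 8 ≤ Real.exp (x / 8) ^ 8 := pow_le_pow_left₀ ha h1 8
    _ = Real.exp x := by
        rw [← Real.exp_nat_mul]
        congr 1
        push_cast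
        ring

private theorem anL_exp_up {x b : ℝ} (n : ℕ) (hn : 0 < n) (hx : 0 ≤ x) (hx1 : x ≤ 8)
    (h : ∑ m ∈ Finset.range n, (x / 8) ^ m / (m.factorial : ℝ) +
      (x / 8) ^ n * (n + 1) / (n.factorial * n) ≤ b) : Real.exp x ≤ b ^ 8 := by
  have h1 : Real.exp (x / 8) ≤ b :=
    (Real.exp_bound' (by positivity) (by linarith) hn).trans h
  calc Real.exp x = Real.exp (x / 8) ^ 8 := by
        rw [← Real.exp_nat_mul]
        congr 1
        push_cast
        ring
    _ ≤ b ^ 8 := pow_le_pow_left₀ (Real.exp_pos _).le h1 8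

private theorem anL_ivt (d : ℕ) {l r : ℝ} (hl0 : 0 < l) (hlr : l < r)
    (h1 : l * fk d l < 2 * d * fk (d + 1) l) (h2 : 2 * d * fk (d + 1) r < r * fk d r) :
    ∃ lam, IsLam d lam ∧ l < lam ∧ lam < r := by
  have hc : ContinuousOn (fun x => x * fk d x - 2 * d * fk (d + 1) x) (Set.Icc l r) := by
    unfold fk
    fun_prop
  obtain ⟨x, hx, hx0⟩ := intermediate_value_Ioo hlr.le hc
    (show (0 : ℝ) ∈ Set.Ioo _ _ from ⟨by linarith, by linarith⟩)
  refine ⟨x, ⟨hl0.trans hx.1, ?_⟩, hx.1, hx.2⟩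
  simp only at hx0
  linarith

theorem exists_lam2 : ∃ lam : ℝ, IsLam 2 lam ∧ 2.68799 < lam ∧ lam < 2.68801 ∧
    2.0016 < Real.log (fk 3 lam) := by
  have hA : (1.3993372714 : ℝ) ^ 8 ≤ Real.exp 2.68799 := by
    refine anL_exp_low 8 (by norm_num) (by norm_num) ?_
    norm_num [Finset.sum_range_succ, Nat.factorial]
  have hB : Real.exp 2.68801 ≤ (1.3993407744 : ℝ) ^ 8 := by
    refine anL_exp_up 8 (by norm_num) (by norm_num) (by norm_num) ?_
    norm_num [Finset.sum_range_succ, Nat.factorial]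
  have hC : Real.exp 2.0016 ≤ (1.2842822475 : ℝ) ^ 8 := by
    refine anL_exp_up 8 (by norm_num) (by norm_num) (by norm_num) ?_
    norm_num [Finset.sum_range_succ, Nat.factorial]
  obtain ⟨lam, h1, h2, h3⟩ := anL_ivt 2 (l := 2.68799) (r := 2.68801) (by norm_num) (by norm_num)
    (by
      unfold fk
      norm_num [Finset.sum_range_succ, Nat.factorial] at hA ⊢
      linarith)
    (by
      unfold fk
      norm_num [Finset.sum_range_succ, Nat.factorial] at hB ⊢
      linarith)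
  refine ⟨lam, h1, h2, h3, ?_⟩
  have hE : (1.3993372714 : ℝ) ^ 8 ≤ Real.exp lam := hA.trans (Real.exp_le_exp.mpr h2.le)
  have hpos : 0 < lam := h1.1
  have hp2 : lam ^ 2 ≤ 2.68801 ^ 2 := pow_le_pow_left₀ hpos.le h3.le 2
  have hfk : Real.exp 2.0016 < fk 3 lam := by
    unfold fk
    norm_num [Finset.sum_range_succ, Nat.factorial] at hE hC hp2 ⊢
    linarith
  rw [Real.lt_log_iff_exp_lt (lt_trans (Real.exp_pos _) hfk)]
  exact hfk

theorem exists_lam3 : ∃ lam : ℝ, IsLam 3 lam ∧ 5.07146 < lam ∧ lam < 5.07148 ∧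
    4.7768 < Real.log (fk 4 lam) := by
  have hA : (1.8850088170 : ℝ) ^ 8 ≤ Real.exp 5.07146 := by
    refine anL_exp_low 10 (by norm_num) (by norm_num) ?_
    norm_num [Finset.sum_range_succ, Nat.factorial]
  have hB : Real.exp 5.07148 ≤ (1.8850135328 : ℝ) ^ 8 := by
    refine anL_exp_up 10 (by norm_num) (by norm_num) (by norm_num) ?_
    norm_num [Finset.sum_range_succ, Nat.factorial]
  have hC : Real.exp 4.7768 ≤ (1.8168423106 : ℝ) ^ 8 := by
    refine anL_exp_up 10 (by norm_num) (by norm_num) (by norm_num) ?_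
    norm_num [Finset.sum_range_succ, Nat.factorial]
  obtain ⟨lam, h1, h2, h3⟩ := anL_ivt 3 (l := 5.07146) (r := 5.07148) (by norm_num) (by norm_num)
    (by
      unfold fk
      norm_num [Finset.sum_range_succ, Nat.factorial] at hA ⊢
      linarith)
    (by
      unfold fk
      norm_num [Finset.sum_range_succ, Nat.factorial] at hB ⊢
      linarith)
  refine ⟨lam, h1, h2, h3, ?_⟩
  have hE : (1.8850088170 : ℝ) ^ 8 ≤ Real.exp lam := hA.trans (Real.exp_le_exp.mpr h2.le)
  have hpos : 0 < lam := h1.1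
  have hp2 : lam ^ 2 ≤ 5.07148 ^ 2 := pow_le_pow_left₀ hpos.le h3.le 2
  have hp3 : lam ^ 3 ≤ 5.07148 ^ 3 := pow_le_pow_left₀ hpos.le h3.le 3
  have hfk : Real.exp 4.7768 < fk 4 lam := by
    unfold fk
    norm_num [Finset.sum_range_succ, Nat.factorial] at hE hC hp2 hp3 ⊢
    linarith
  rw [Real.lt_log_iff_exp_lt (lt_trans (Real.exp_pos _) hfk)]
  exact hfk

theorem exists_lam4 : ∃ lam : ℝ, IsLam 4 lam ∧ 7.32169 < lam ∧ lam < 7.32171 ∧
    7.1642 < Real.log (fk 5 lam) := by
  have hA : (2.4973027506 : ℝ) ^ 8 ≤ Real.exp 7.32169 := by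
    refine anL_exp_low 12 (by norm_num) (by norm_num) ?_
    norm_num [Finset.sum_range_succ, Nat.factorial]
  have hB : Real.exp 7.32171 ≤ (2.4973089947 : ℝ) ^ 8 := by
    refine anL_exp_up 12 (by norm_num) (by norm_num) (by norm_num) ?_
    norm_num [Finset.sum_range_succ, Nat.factorial]
  have hC : Real.exp 7.1642 ≤ (2.4486209781 : ℝ) ^ 8 := by
    refine anL_exp_up 12 (by norm_num) (by norm_num) (by norm_num) ?_
    norm_num [Finset.sum_range_succ, Nat.factorial]
  obtain ⟨lam, h1, h2, h3⟩ := anL_ivt 4 (l := 7.32169) (r := 7.32171) (by norm_num) (by norm_num)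
    (by
      unfold fk
      norm_num [Finset.sum_range_succ, Nat.factorial] at hA ⊢
      linarith)
    (by
      unfold fk
      norm_num [Finset.sum_range_succ, Nat.factorial] at hB ⊢
      linarith)
  refine ⟨lam, h1, h2, h3, ?_⟩
  have hE : (2.4973027506 : ℝ) ^ 8 ≤ Real.exp lam := hA.trans (Real.exp_le_exp.mpr h2.le)
  have hpos : 0 < lam := h1.1
  have hp2 : lam ^ 2 ≤ 7.32171 ^ 2 := pow_le_pow_left₀ hpos.le h3.le 2
  have hp3 : lam ^ 3 ≤ 7.32171 ^ 3 := pow_le_pow_left₀ hpos.le h3.le 3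
  have hp4 : lam ^ 4 ≤ 7.32171 ^ 4 := pow_le_pow_left₀ hpos.le h3.le 4
  have hfk : Real.exp 7.1642 < fk 5 lam := by
    unfold fk
    norm_num [Finset.sum_range_succ, Nat.factorial] at hE hC hp2 hp3 hp4 ⊢
    linarith
  rw [Real.lt_log_iff_exp_lt (lt_trans (Real.exp_pos _) hfk)]
  exact hfk

end Pool.Agent.Helper50.RG
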