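import Pool.Agent.Helper50.RG.AnT

/-!
# RG-61 : the exponent near `β = 1`, and the basic choice of the parameters

`an_large`: take `kw = κ = γ = 2 d / lam`, `Lw = G = log (fk (d+1) lam) - 2 d`,
`θ = p/(1+p)`, `p = 1 - β`. Valid by `fk_tangent` at `lam` (`fk d lam / fk (d+1) lam = 2 d / lam`)
and `gk_le_fk`. `Phi = - β log β - p log p - d β log θ + d log (p² + θ β (1 + p))`, `p² + θ β (1+p) = p`, so
`Phi = (d-1) p log p - β log β + d β log (1+p) ≤ p ((d-1) log p + 1 + d) < 0`
(`-β log β ≤ 1 - β = p`, `log (1+p) ≤ p`).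

`an_naive`: take `kw = 2 d / lam`, `Lw = log (fk (d+1) lam) - 2 d`, and the tangent at
`s = β lam` for `B`: `κ = γ = fk d s / fk (d+1) s`, `G = log (fk (d+1) s) - κ s`. Let
`m = κ s/(2 d)`, so `κ = kw m/β`; `m ≥ β` by `fk_ratio_anti`. Take `θ = p β/(m (m + 2 p))`, it is
`≤ 1`. Then `(kw p)² + θ β (κ² β + 2 κ kw p) = kw² p`, and
`Phi = (d-1) p log p - (d+1) β log β + β log (fk (d+1) s / fk (d+1) lam) + d β log (m (m+2p))
+ 2 d β (1 - m)`. By `fk_moment` with `x = β`
`log (fk (d+1) s / fk (d+1) lam) ≤ (d+1) log β + p log P`. And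
`log m ≤ m/a - 1 + log a`, `log (m + 2p) ≤ (m+2p)/b - 1 + log b` with `a = b/(2b-1)` (so
`1/a + 1/b = 2`): `log (m (m+2p)) + 2 (1-m) ≤ 2p/b + log (b²/(2b-1))`. So `Phi ≤ β ⬝ (h)`.
-/

set_option autoImplicit false

namespace Pool.Agent.Helper50.RG

open Finset

/-- elementary bound of the logarithm -/
private theorem log_le_div {x a : ℝ} (hx : 0 < x) (ha : 0 < a) :
    Real.log x ≤ x / a - 1 + Real.log a := by
  have h := Real.log_le_sub_one_of_pos (div_pos hx ha)
  rw [Real.log_div hx.ne' ha.ne'] at h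
  linarith

private theorem neg_mul_log_le {β : ℝ} (h0 : 0 < β) : -β * Real.log β ≤ 1 - β := by
  have h := Real.one_sub_inv_le_log_of_pos h0
  have h2 := mul_le_mul_of_nonneg_left h h0.le
  have h3 : β * (1 - β⁻¹) = β - 1 := by
    field_simp
  rw [h3] at h2
  linarith

/-- the tangent of `log (fk (d+1))` at `s` -/
private theorem tangent_exp (d : ℕ) {s w : ℝ} (hs : 0 < s) (hw : 0 ≤ w) :
    fk (d + 1) w ≤ Real.exp (Real.log (fk (d + 1) s) - fk d s / fk (d + 1) s * s +
      fk d s / fk (d + 1) s * w) := by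
  have h := fk_tangent d hs hw
  have hf : 0 < fk (d + 1) s := fk_pos _ hs
  refine h.trans (le_of_eq ?_)
  rw [show Real.log (fk (d + 1) s) - fk d s / fk (d + 1) s * s + fk d s / fk (d + 1) s * w =
    Real.log (fk (d + 1) s) + fk d s / fk (d + 1) s * (w - s) by ring, Real.exp_add,
    Real.exp_log hf]

private theorem ratio_lam {d : ℕ} {lam : ℝ} (hl : IsLam d lam) :
    fk d lam / fk (d + 1) lam = 2 * d / lam := by
  have hf : 0 < fk (d + 1) lam := fk_pos _ hl.1
  rw [div_eq_div_iff hf.ne' hl.1.ne', mul_comm]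
  exact hl.2

private theorem tangent_lam {d : ℕ} {lam w : ℝ} (hl : IsLam d lam) (hw : 0 ≤ w) :
    fk (d + 1) w ≤ Real.exp (Real.log (fk (d + 1) lam) - 2 * d + 2 * d / lam * w) := by
  have h := tangent_exp d hl.1 hw
  rw [ratio_lam hl] at h
  have h2 : 2 * (d : ℝ) / lam * lam = 2 * d := div_mul_cancel₀ _ hl.1.ne'
  rw [h2] at h
  exact h

theorem an_large (d : ℕ) (hd : 2 ≤ d) (lam : ℝ) (hl : IsLam d lam) (β : ℝ) (h0 : 0 < β)
    (h1 : β < 1) (hp : ((d : ℝ) - 1) * Real.log (1 - β) + (d + 1) < 0) :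
    ∃ Lw kw G κ γ θ : ℝ, Par d Lw kw G κ γ θ ∧ Phi d lam Lw kw G κ γ θ β < 0 := by
  obtain ⟨p, rfl⟩ : ∃ p, β = 1 - p := ⟨1 - β, by ring⟩
  have e0 : 1 - (1 - p) = p := by ring
  rw [e0] at hp
  have hp0 : 0 < p := by linarith
  have hd' : (2 : ℝ) ≤ d := by exact_mod_cast hd
  have hd0 : (0 : ℝ) < d := by linarith
  have hlam := hl.1
  have hk : 0 < 2 * (d : ℝ) / lam := by positivity
  have h1p : 0 < 1 + p := by linarith
  refine ⟨Real.log (fk (d + 1) lam) - 2 * d, 2 * d / lam, Real.log (fk (d + 1) lam) - 2 * d,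
    2 * d / lam, 2 * d / lam, p / (1 + p), ⟨hk, hk, hk, div_pos hp0 h1p, ?_, ?_, ?_⟩, ?_⟩
  · rw [div_le_one h1p]
    linarith
  · intro w hw
    exact tangent_lam hl hw
  · intro u v hu hv
    refine (gk_le_fk d hu hv).trans ((tangent_lam hl (add_nonneg hu hv)).trans (le_of_eq ?_))
    congr 1
    ring
  · have e1 : lam ^ 2 / (4 * (d : ℝ) ^ 2) * ((2 * (d : ℝ) / lam * p) ^ 2 +
        p / (1 + p) * (1 - p) * ((2 * (d : ℝ) / lam) ^ 2 * (1 - p) +
          2 * (2 * (d : ℝ) / lam) * (2 * (d : ℝ) / lam) * p)) = p := by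
      field_simp
      ring
    unfold Phi
    rw [e0, e1, Real.log_div hp0.ne' h1p.ne']
    have h2 := neg_mul_log_le h0
    have h3 : Real.log (1 + p) ≤ p := by
      have := Real.log_le_sub_one_of_pos h1p
      linarith
    have h3' : 0 ≤ Real.log (1 + p) := Real.log_nonneg (by linarith)
    have h4 : (d : ℝ) * (1 - p) * Real.log (1 + p) ≤ d * p := by
      have h5 : (1 - p) * Real.log (1 + p) ≤ p := by nlinarith
      have := mul_le_mul_of_nonneg_left h5 hd0.le
      linarith
    have h6 := mul_neg_of_pos_of_neg hp0 hp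
    nlinarith

theorem an_naive (d : ℕ) (hd : 2 ≤ d) (lam : ℝ) (hl : IsLam d lam) (β b : ℝ) (h0 : 0 < β)
    (h1 : β < 1) (hb : 1 / 2 < b)
    (h : ((d : ℝ) - 1) * (1 - β) * Real.log (1 - β) / β +
      (1 - β) * Real.log (lam ^ (d + 1) / (((d + 1).factorial : ℝ) * fk (d + 1) lam)) +
      d * (2 * (1 - β) / b + Real.log (b ^ 2 / (2 * b - 1))) < 0) :
    ∃ Lw kw G κ γ θ : ℝ, Par d Lw kw G κ γ θ ∧ Phi d lam Lw kw G κ γ θ β < 0 := by
  have hd' : (2 : ℝ) ≤ d := by exact_mod_cast hd
  have hd0 : (0 : ℝ) < d := by linarith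
  have hlam := hl.1
  have hk : 0 < 2 * (d : ℝ) / lam := by positivity
  have hp0 : 0 < 1 - β := by linarith
  have hs : 0 < β * lam := mul_pos h0 hlam
  have hsl : β * lam ≤ lam := by nlinarith
  have hFs : 0 < fk (d + 1) (β * lam) := fk_pos _ hs
  have hF : 0 < fk (d + 1) lam := fk_pos _ hlam
  have hK0 := fk_ratio_anti d hs hsl
  rw [ratio_lam hl] at hK0
  have hmom := fk_moment (d + 1) hlam h0 h1.le
  set K : ℝ := fk d (β * lam) / fk (d + 1) (β * lam) with hKdef
  set P : ℝ := lam ^ (d + 1) / (((d + 1).factorial : ℝ) * fk (d + 1) lam) with hP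
  have hPpos : 0 < P := by positivity
  have hKpos : 0 < K := hk.trans_le hK0
  set m : ℝ := K * (β * lam) / (2 * d) with hm
  have hmpos : 0 < m := by positivity
  have hKm : K = 2 * d / lam * m / β := by
    rw [hm]
    field_simp
  have hmβ : β ≤ m := by
    rw [hm, le_div_iff₀ (by positivity)]
    rw [div_le_iff₀ hlam] at hK0
    nlinarith
  have hmp : 0 < m * (m + 2 * (1 - β)) := by positivity
  refine ⟨Real.log (fk (d + 1) lam) - 2 * d, 2 * d / lam,
    Real.log (fk (d + 1) (β * lam)) - K * (β * lam), K, K,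
    (1 - β) * β / (m * (m + 2 * (1 - β))), ⟨hk, hKpos, hKpos, by positivity, ?_, ?_, ?_⟩, ?_⟩
  · rw [div_le_one hmp]
    nlinarith
  · intro w hw
    exact tangent_lam hl hw
  · intro u v hu hv
    refine (gk_le_fk d hu hv).trans ((tangent_exp d hs (add_nonneg hu hv)).trans (le_of_eq ?_))
    rw [← hKdef]
    congr 1
    ring
  · have e1 : lam ^ 2 / (4 * (d : ℝ) ^ 2) * ((2 * (d : ℝ) / lam * (1 - β)) ^ 2 +
        (1 - β) * β / (m * (m + 2 * (1 - β))) * β * (K ^ 2 * β +
          2 * K * (2 * (d : ℝ) / lam) * (1 - β))) = 1 - β := by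
      rw [hKm]
      have h2 : m + 2 * (1 - β) ≠ 0 := by positivity
      field_simp
      ring
    have e2 : K * (β * lam) = 2 * d * m := by
      rw [hm]
      field_simp
    unfold Phi
    rw [e1, e2, Real.log_div (by positivity) hmp.ne', Real.log_mul hp0.ne' h0.ne',
      Real.log_mul hmpos.ne' (by positivity)]
    -- the moment inequality
    have h2 : Real.log (fk (d + 1) (β * lam)) ≤ (d + 1 : ℕ) * Real.log β +
        Real.log (fk (d + 1) lam) + (1 - β) * Real.log P := by
      have h3 := Real.log_le_log hFs hmom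
      rw [Real.log_mul (by positivity) (by positivity), Real.log_mul (by positivity) hF.ne',
        Real.log_pow, Real.log_rpow hPpos] at h3
      exact h3
    push_cast at h2
    -- the bounds of the logarithms
    have hb0 : 0 < b := by linarith
    have h2b : 0 < 2 * b - 1 := by linarith
    have h3 := log_le_div hmpos (a := b / (2 * b - 1)) (by positivity)
    have h4 := log_le_div (x := m + 2 * (1 - β)) (a := b) (by positivity) hb0
    have h5 : Real.log (b ^ 2 / (2 * b - 1)) = Real.log (b / (2 * b - 1)) + Real.log b := by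
      rw [← Real.log_mul (by positivity) hb0.ne']
      congr 1
      field_simp
    have h6 : m / (b / (2 * b - 1)) + (m + 2 * (1 - β)) / b = 2 * m + 2 * (1 - β) / b := by
      field_simp
      ring
    have h7 : Real.log m + Real.log (m + 2 * (1 - β)) + 2 * (1 - m) ≤
        2 * (1 - β) / b + Real.log (b ^ 2 / (2 * b - 1)) := by
      rw [h5]
      linarith
    have h8 := mul_neg_of_pos_of_neg h0 h
    have h9 : β * (((d : ℝ) - 1) * (1 - β) * Real.log (1 - β) / β) =
        ((d : ℝ) - 1) * (1 - β) * Real.log (1 - β) := by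
      field_simp
    have h10 := mul_le_mul_of_nonneg_left h2 h0.le
    have h11 := mul_le_mul_of_nonneg_left h7 (mul_pos hd0 h0).le
    have h12 : β * (((d : ℝ) - 1) * (1 - β) * Real.log (1 - β) / β +
      (1 - β) * Real.log P + d * (2 * (1 - β) / b + Real.log (b ^ 2 / (2 * b - 1)))) =
        ((d : ℝ) - 1) * (1 - β) * Real.log (1 - β) + β * (1 - β) * Real.log P +
        d * β * (2 * (1 - β) / b + Real.log (b ^ 2 / (2 * b - 1))) := by
      rw [mul_add, mul_add, h9]
      ring
    rw [h12] at h8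
    linarith

end Pool.Agent.Helper50.RG
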