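import Pool.Agent.Helper50.RG.Words

/-!
# RG-63 : the parameter `lam` and the fraction `P` for `d ≥ 5`

`k = d + 1`, `P(x) = x^k/(k! fk k x)`, `μ(x) = x fk d x/fk k x = x + k P(x)`. Let
`P₀ = exp (-2.37 - 0.265 (d-5))`, `x₀ = 2 d - k P₀`. If `P(x₀) ≤ P₀`, then `μ(x₀) ≤ 2 d < μ(2 d)`, so
by the intermediate value theorem there is `lam ∈ [x₀, 2 d]` with `μ(lam) = 2 d`, i.e. `IsLam`, and
`k P(lam) = 2 d - lam ≤ k P₀`.

`P(x₀) ≤ P₀`: `∑_{i<k} x^i/i! ≤ x^(k-1)/(k-1)! / (1 - (k-1)/x)` for `x > k - 1` (geometric series), so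
`1/P(x) = k! fk k x/x^k ≥ k! e^x/x^k - (k/x)/(1 - (k-1)/x)`. Put `δ = k P₀`, `x₀ = 2 d - δ`:
`e^x₀/x₀^k ≥ e^(2d)/(2d)^k e^(-δ (1 - k/(2d)))`, `δ` is decreasing in `d` (`δ ≤ 0.57`), and
`δ (1 - k/(2d)) ≤ 0.229` for `d = 5`, `≤ δ/2 ≤ 0.26` for `d ≥ 6`.
`R_d = k! e^(2d)/(2d)^k`: `R_5 = 720 e^10/10^6 > 15.85`, `R_(d+1)/R_d = (d+2)/(d+1) (1 - 1/(d+1))^(d+1) e²/2 ≥ 1.359`
(`log (1+y) + log (1-y)/y ≥ -1` for `0 < y ≤ 1/6`), and the subtracted term is at most `1.36`. So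
`1/P(x₀) ≥ 0.795 ⬝ 15.85 ⬝ 1.359^(d-5) - 1.36 ≥ e^2.37 e^(0.265 (d-5))` for `d = 5` (`11.2 ≥ 10.7`), and for
`d ≥ 6` (use the better values of `δ/2 ≤ 0.26`, i.e. factor `0.77`, `0.77 ⬝ 15.85 ⬝ 1.359 - 1.36 = 15.2 ≥ 10.7 ⬝ 1.304 = 13.95`, and the left side grows
faster). (Check the constants numerically before you start; there is room.)
-/

set_option autoImplicit false

namespace Pool.Agent.Helper50.RG

open Finset

private theorem anP_fk_succ (d : ℕ) (x : ℝ) :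
    fk d x = fk (d + 1) x + x ^ d / (d.factorial : ℝ) := by
  unfold fk
  rw [Finset.sum_range_succ]
  ring

/-- the partial sums of the exponential series -/
private theorem anP_sum (k : ℕ) : ∀ x : ℝ, (k : ℝ) < x →
    ∑ i ∈ range (k + 1), x ^ i / (i.factorial : ℝ) ≤
      x ^ (k + 1) / ((k.factorial : ℝ) * (x - k)) := by
  induction k with
  | zero =>
    intro x hx
    have hx0 : x ≠ 0 := by
      have : (0 : ℝ) < x := by simpa using hx
      exact this.ne'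
    simp [hx0]
  | succ k ih =>
    intro x hx
    have hx1 : (k : ℝ) + 1 < x := by simpa using hx
    have hk0 : (0 : ℝ) ≤ k := Nat.cast_nonneg _
    have h1 := ih x (by linarith)
    rw [Finset.sum_range_succ]
    have hf : (0 : ℝ) < (k.factorial : ℝ) := by exact_mod_cast Nat.factorial_pos _
    have hxk : 0 < x - k := by linarith
    have hxk1 : 0 < x - (k + 1) := by linarith
    have hx0 : 0 < x := by linarith
    have hfs : ((k + 1).factorial : ℝ) = ((k : ℝ) + 1) * (k.factorial : ℝ) := by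
      rw [Nat.factorial_succ]; push_cast; ring
    rw [hfs]
    push_cast
    have h2 : x ^ (k + 1) / ((k.factorial : ℝ) * (x - k)) +
        x ^ (k + 1) / (((k : ℝ) + 1) * (k.factorial : ℝ)) ≤
        x ^ (k + 1 + 1) / (((k : ℝ) + 1) * (k.factorial : ℝ) * (x - (k + 1))) := by
      have e1 : x ^ (k + 1) / ((k.factorial : ℝ) * (x - k)) +
        x ^ (k + 1) / (((k : ℝ) + 1) * (k.factorial : ℝ)) =
        (x ^ (k + 1) / (((k : ℝ) + 1) * (k.factorial : ℝ))) * (((k : ℝ) + 1) / (x - k) + 1) := by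
        field_simp
      have e2 : x ^ (k + 1 + 1) / (((k : ℝ) + 1) * (k.factorial : ℝ) * (x - (k + 1))) =
        (x ^ (k + 1) / (((k : ℝ) + 1) * (k.factorial : ℝ))) *
          (((k : ℝ) + 1) / (x - (k + 1)) + 1) := by
        field_simp
        ring
      rw [e1, e2]
      apply mul_le_mul_of_nonneg_left _ (by positivity)
      have h3 : ((k : ℝ) + 1) / (x - k) ≤ ((k : ℝ) + 1) / (x - (k + 1)) := by
        apply div_le_div_of_nonneg_left (by positivity) hxk1 (by linarith)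
      linarith
    linarith

private theorem anP_E_low : (1.3 : ℝ) ≤ Real.exp 0.265 := by
  have h := Real.sum_le_exp_of_nonneg (x := 0.265) (by norm_num) 4
  norm_num [Finset.sum_range_succ, Nat.factorial] at h ⊢
  linarith

private theorem anP_E_up : Real.exp 0.265 ≤ (1.31 : ℝ) := by
  have h := Real.exp_bound' (x := 0.265) (by norm_num) (by norm_num) (n := 4) (by norm_num)
  norm_num [Finset.sum_range_succ, Nat.factorial] at h ⊢
  linarith

private theorem anP_exp236 : (10.53 : ℝ) ≤ Real.exp 2.36 ∧ Real.exp 2.36 ≤ 10.7 := by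
  have e1 : Real.exp 2.36 = Real.exp 1 * Real.exp 1 * Real.exp 0.36 := by
    rw [← Real.exp_add, ← Real.exp_add]; norm_num
  have h1 := Real.exp_one_gt_d9
  have h2 := Real.exp_one_lt_d9
  have h3 := Real.sum_le_exp_of_nonneg (x := 0.36) (by norm_num) 5
  have h4 := Real.exp_bound' (x := 0.36) (by norm_num) (by norm_num) (n := 5) (by norm_num)
  have h5 : (1.433 : ℝ) ≤ Real.exp 0.36 := by
    norm_num [Finset.sum_range_succ, Nat.factorial] at h3 ⊢
    linarith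
  have h6 : Real.exp 0.36 ≤ (1.434 : ℝ) := by
    norm_num [Finset.sum_range_succ, Nat.factorial] at h4 ⊢
    linarith
  have h7 : (7.389 : ℝ) ≤ Real.exp 1 * Real.exp 1 := by nlinarith
  have h8 : Real.exp 1 * Real.exp 1 ≤ 7.3891 := by nlinarith
  rw [e1]
  constructor
  · nlinarith
  · nlinarith [Real.exp_pos 0.36]

/-- the main factor -/
private theorem anP_R (m : ℕ) : 15.85 * Real.exp 0.265 ^ m * (2 * ((m : ℝ) + 5)) ^ (m + 6) ≤
    ((m + 6).factorial : ℝ) * Real.exp (2 * ((m : ℝ) + 5)) := by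
  induction m with
  | zero =>
    have h1 := Real.exp_one_gt_d9
    have h2 : Real.exp (2 * (((0 : ℕ) : ℝ) + 5)) = Real.exp 1 ^ 10 := by
      rw [← Real.exp_nat_mul]; norm_num
    rw [h2]
    have h3 : (2.71828 : ℝ) ^ 10 ≤ Real.exp 1 ^ 10 :=
      pow_le_pow_left₀ (by norm_num) (by linarith) 10
    norm_num [Nat.factorial] at h3 ⊢
    linarith
  | succ m ih =>
    have hE := anP_E_up
    have he := Real.exp_one_gt_d9
    have hm0 : (0 : ℝ) ≤ m := Nat.cast_nonneg _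
    -- (1 + 1/(m+5))^(m+5) ≤ e
    have h1 : ((m : ℝ) + 6) ^ (m + 5) ≤ Real.exp 1 * ((m : ℝ) + 5) ^ (m + 5) := by
      have h2 := Real.add_one_le_exp (1 / ((m : ℝ) + 5))
      have h3 : 1 / ((m : ℝ) + 5) + 1 = ((m : ℝ) + 6) / ((m : ℝ) + 5) := by field_simp; ring
      rw [h3] at h2
      have h4 := pow_le_pow_left₀ (by positivity) h2 (m + 5)
      rw [← Real.exp_nat_mul, div_pow] at h4
      have h5 : ((m + 5 : ℕ) : ℝ) * (1 / ((m : ℝ) + 5)) = 1 := by
        push_cast; field_simp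
      rw [h5, div_le_iff₀ (by positivity)] at h4
      exact h4
    have hfac : (((m + 1) + 6).factorial : ℝ) = ((m : ℝ) + 7) * ((m + 6).factorial : ℝ) := by
      rw [show (m + 1) + 6 = (m + 6) + 1 by ring, Nat.factorial_succ]
      push_cast; ring
    have hexp : Real.exp (2 * (((m + 1 : ℕ) : ℝ) + 5)) =
        Real.exp 1 * Real.exp 1 * Real.exp (2 * ((m : ℝ) + 5)) := by
      rw [← Real.exp_add, ← Real.exp_add]
      congr 1
      push_cast; ring
    have hbase : (2 * (((m + 1 : ℕ) : ℝ) + 5)) ^ (m + 1 + 6) =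
        2 ^ (m + 7) * (((m : ℝ) + 6) ^ 2 * ((m : ℝ) + 6) ^ (m + 5)) := by
      rw [← pow_add, mul_pow]
      congr 1
      · congr 1
        · push_cast; ring
        · omega
    have hbase2 : (2 * ((m : ℝ) + 5)) ^ (m + 6) =
        2 ^ (m + 6) * (((m : ℝ) + 5) * ((m : ℝ) + 5) ^ (m + 5)) := by
      rw [← pow_succ', mul_pow]
    rw [hfac, hexp, hbase]
    rw [hbase2] at ih
    have hA : (0 : ℝ) < ((m : ℝ) + 5) ^ (m + 5) := by positivity
    have hEm : (0 : ℝ) < Real.exp 0.265 ^ m := pow_pos (Real.exp_pos _) m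
    -- E (m+6)^2 2 ≤ e (m+7) (m+5)
    have hkey : Real.exp 0.265 * 2 * ((m : ℝ) + 6) ^ 2 ≤
        Real.exp 1 * (((m : ℝ) + 7) * ((m : ℝ) + 5)) := by
      have h6 : Real.exp 0.265 * 2 * ((m : ℝ) + 6) ^ 2 ≤ 2.62 * ((m : ℝ) + 6) ^ 2 := by
        nlinarith [sq_nonneg ((m : ℝ) + 6)]
      have h7 : 2.7 * (((m : ℝ) + 7) * ((m : ℝ) + 5)) ≤
          Real.exp 1 * (((m : ℝ) + 7) * ((m : ℝ) + 5)) := by
        apply mul_le_mul_of_nonneg_right _ (by positivity)
        linarith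
      have h8 : 2.62 * ((m : ℝ) + 6) ^ 2 ≤ 2.7 * (((m : ℝ) + 7) * ((m : ℝ) + 5)) := by
        nlinarith
      linarith
    calc 15.85 * Real.exp 0.265 ^ (m + 1) *
          (2 ^ (m + 7) * (((m : ℝ) + 6) ^ 2 * ((m : ℝ) + 6) ^ (m + 5)))
        ≤ 15.85 * Real.exp 0.265 ^ (m + 1) *
          (2 ^ (m + 7) * (((m : ℝ) + 6) ^ 2 * (Real.exp 1 * ((m : ℝ) + 5) ^ (m + 5)))) := by
          apply mul_le_mul_of_nonneg_left _ (by positivity)
          apply mul_le_mul_of_nonneg_left _ (by positivity)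
          exact mul_le_mul_of_nonneg_left h1 (by positivity)
      _ = (15.85 * Real.exp 0.265 ^ m * 2 ^ (m + 6) * ((m : ℝ) + 5) ^ (m + 5) * Real.exp 1) *
          (Real.exp 0.265 * 2 * ((m : ℝ) + 6) ^ 2) := by ring
      _ ≤ (15.85 * Real.exp 0.265 ^ m * 2 ^ (m + 6) * ((m : ℝ) + 5) ^ (m + 5) * Real.exp 1) *
          (Real.exp 1 * (((m : ℝ) + 7) * ((m : ℝ) + 5))) :=
          mul_le_mul_of_nonneg_left hkey (by positivity)
      _ = (Real.exp 1 * Real.exp 1 * ((m : ℝ) + 7)) * (15.85 * Real.exp 0.265 ^ m *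
          (2 ^ (m + 6) * (((m : ℝ) + 5) * ((m : ℝ) + 5) ^ (m + 5)))) := by ring
      _ ≤ (Real.exp 1 * Real.exp 1 * ((m : ℝ) + 7)) *
          (((m + 6).factorial : ℝ) * Real.exp (2 * ((m : ℝ) + 5))) :=
          mul_le_mul_of_nonneg_left ih (by positivity)
      _ = _ := by ring

/-- the value at the left end of the interval -/
private theorem anP_neg (m : ℕ) {Q x : ℝ}
    (hQ : Q = 1 / (Real.exp 2.36 * Real.exp 0.265 ^ m))
    (hx : x = 2 * ((m : ℝ) + 5) - ((m : ℝ) + 6) * Q) :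
    0 < x ∧ x ^ (m + 6) / ((m + 6).factorial : ℝ) < Q * fk (m + 6) x := by
  have hE := anP_E_low
  obtain ⟨he1, he2⟩ := anP_exp236
  have hm0 : (0 : ℝ) ≤ m := Nat.cast_nonneg _
  have hEm : 1 + 0.3 * (m : ℝ) ≤ Real.exp 0.265 ^ m := by
    have h1 := one_add_mul_le_pow (a := (0.3 : ℝ)) (by norm_num) m
    have h2 : (1 + (0.3 : ℝ)) ^ m ≤ Real.exp 0.265 ^ m :=
      pow_le_pow_left₀ (by norm_num) (by linarith) m
    linarith
  set Em : ℝ := Real.exp 0.265 ^ m with hEmdef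
  have hEm1 : 1 ≤ Em := by linarith
  have hEm0 : 0 < Em := by linarith
  have he0 : 0 < Real.exp 2.36 := Real.exp_pos _
  have hQ0 : 0 < Q := by rw [hQ]; positivity
  have hQE : Q * Em * Real.exp 2.36 = 1 := by rw [hQ]; field_simp
  have hQE' : Q * Em ≤ 0.095 := by
    have h1 : 0 < Q * Em := by positivity
    nlinarith
  -- delta
  set δ : ℝ := ((m : ℝ) + 6) * Q with hδ
  have hδ0 : 0 < δ := by rw [hδ]; positivity
  have hδ1 : δ ≤ 0.57 := by
    have h1 : ((m : ℝ) + 6) * Q ≤ 6 * (Q * Em) := by nlinarith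
    rw [hδ]; linarith
  have hx' : x = 2 * ((m : ℝ) + 5) - δ := hx
  have hx0 : 0 < x := by rw [hx']; linarith
  refine ⟨hx0, ?_⟩
  -- the exponent
  have hexpo : δ * (((m : ℝ) + 4) / (2 * ((m : ℝ) + 5))) ≤ 0.228 := by
    rw [← mul_div_assoc, div_le_iff₀ (by positivity), hδ]
    have h1 : ((m : ℝ) + 6) * ((m : ℝ) + 4) ≤
        (2.4 * (1 + 0.3 * (m : ℝ))) * (2 * ((m : ℝ) + 5)) := by nlinarith
    have h2 : (2.4 * (1 + 0.3 * (m : ℝ))) * (2 * ((m : ℝ) + 5)) ≤
        (2.4 * Em) * (2 * ((m : ℝ) + 5)) := by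
      apply mul_le_mul_of_nonneg_right _ (by positivity)
      linarith
    calc ((m : ℝ) + 6) * Q * ((m : ℝ) + 4) = Q * (((m : ℝ) + 6) * ((m : ℝ) + 4)) := by ring
      _ ≤ Q * ((2.4 * Em) * (2 * ((m : ℝ) + 5))) :=
          mul_le_mul_of_nonneg_left (h1.trans h2) hQ0.le
      _ = (2.4 * (Q * Em)) * (2 * ((m : ℝ) + 5)) := by ring
      _ ≤ 0.228 * (2 * ((m : ℝ) + 5)) := by
          apply mul_le_mul_of_nonneg_right _ (by positivity)
          linarith
  -- the partial sum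
  have hS := anP_sum (m + 5) x (by rw [hx']; push_cast; linarith)
  have hxm : x - ((m + 5 : ℕ) : ℝ) = (m : ℝ) + 5 - δ := by rw [hx']; push_cast; ring
  rw [hxm] at hS
  have hfac : ((m + 6).factorial : ℝ) = ((m : ℝ) + 6) * ((m + 5).factorial : ℝ) := by
    rw [show m + 6 = (m + 5) + 1 by ring, Nat.factorial_succ]
    push_cast; ring
  have hf0 : (0 : ℝ) < ((m + 5).factorial : ℝ) := by exact_mod_cast Nat.factorial_pos _
  have hf1 : (0 : ℝ) < ((m + 6).factorial : ℝ) := by exact_mod_cast Nat.factorial_pos _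
  have hfk : fk (m + 6) x = Real.exp x - ∑ i ∈ range (m + 5 + 1), x ^ i / (i.factorial : ℝ) := rfl
  set Y : ℝ := x ^ (m + 6) / ((m + 6).factorial : ℝ) with hY
  have hY0 : 0 < Y := by rw [hY]; positivity
  have hS' : ∑ i ∈ range (m + 5 + 1), x ^ i / (i.factorial : ℝ) ≤ Y * 1.36 := by
    refine hS.trans ?_
    have h1 : x ^ (m + 5 + 1) / (((m + 5).factorial : ℝ) * ((m : ℝ) + 5 - δ)) =
        Y * (((m : ℝ) + 6) / ((m : ℝ) + 5 - δ)) := by
      have h2 : 0 < (m : ℝ) + 5 - δ := by linarith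
      rw [hY, hfac]
      field_simp
    rw [h1]
    apply mul_le_mul_of_nonneg_left _ hY0.le
    rw [div_le_iff₀ (by linarith)]
    nlinarith
  -- the exponential
  have hR := anP_R m
  rw [← hEmdef] at hR
  have hxpow : x ^ (m + 6) ≤ (2 * ((m : ℝ) + 5)) ^ (m + 6) *
      Real.exp (-(((m : ℝ) + 6) * (δ / (2 * ((m : ℝ) + 5))))) := by
    have h1 := Real.add_one_le_exp (-(δ / (2 * ((m : ℝ) + 5))))
    have h2 : x = (2 * ((m : ℝ) + 5)) * (-(δ / (2 * ((m : ℝ) + 5))) + 1) := by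
      rw [hx']; field_simp; ring
    have h3 : 0 ≤ -(δ / (2 * ((m : ℝ) + 5))) + 1 := by
      have h4 : δ / (2 * ((m : ℝ) + 5)) ≤ 1 := by
        rw [div_le_one (by positivity)]; linarith
      linarith
    have h4 := pow_le_pow_left₀ h3 h1 (m + 6)
    rw [← Real.exp_nat_mul] at h4
    have h5 : ((m + 6 : ℕ) : ℝ) * -(δ / (2 * ((m : ℝ) + 5))) =
        -(((m : ℝ) + 6) * (δ / (2 * ((m : ℝ) + 5)))) := by push_cast; ring
    rw [h5] at h4
    rw [h2, mul_pow]
    exact mul_le_mul_of_nonneg_left h4 (by positivity)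
  have hexpx : 12.2 * Em * Y ≤ Real.exp x := by
    have h1 : Real.exp (-(0.228 : ℝ)) ≤ Real.exp (-(δ * (((m : ℝ) + 4) / (2 * ((m : ℝ) + 5))))) :=
      Real.exp_le_exp.mpr (by linarith)
    have h2 := Real.add_one_le_exp (-(0.228 : ℝ))
    have h3 : (0.772 : ℝ) ≤ Real.exp (-(δ * (((m : ℝ) + 4) / (2 * ((m : ℝ) + 5))))) :=
      le_trans (by linarith) h1
    have h4 : Real.exp x = Real.exp (2 * ((m : ℝ) + 5)) *
        Real.exp (-(δ * (((m : ℝ) + 4) / (2 * ((m : ℝ) + 5))))) *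
        Real.exp (-(((m : ℝ) + 6) * (δ / (2 * ((m : ℝ) + 5))))) := by
      rw [← Real.exp_add, ← Real.exp_add]
      congr 1
      rw [hx']
      field_simp
      ring
    set A1 := Real.exp (-(δ * (((m : ℝ) + 4) / (2 * ((m : ℝ) + 5))))) with hA1
    set A2 := Real.exp (-(((m : ℝ) + 6) * (δ / (2 * ((m : ℝ) + 5))))) with hA2
    have hA20 : 0 < A2 := Real.exp_pos _
    have hbase : 0 < (2 * ((m : ℝ) + 5)) ^ (m + 6) := by positivity
    have h5 : Y * ((m + 6).factorial : ℝ) = x ^ (m + 6) := by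
      rw [hY]; field_simp
    -- multiply by the factorial
    have h6 : 12.2 * Em * Y * ((m + 6).factorial : ℝ) ≤
        Real.exp x * ((m + 6).factorial : ℝ) := by
      calc 12.2 * Em * Y * ((m + 6).factorial : ℝ)
          = 12.2 * Em * x ^ (m + 6) := by rw [mul_assoc, h5]
        _ ≤ 12.2 * Em * ((2 * ((m : ℝ) + 5)) ^ (m + 6) * A2) :=
            mul_le_mul_of_nonneg_left hxpow (by positivity)
        _ = (12.2 * Em * (2 * ((m : ℝ) + 5)) ^ (m + 6)) * A2 := by ring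
        _ ≤ (0.772 * (15.85 * Em * (2 * ((m : ℝ) + 5)) ^ (m + 6))) * A2 := by
            apply mul_le_mul_of_nonneg_right _ hA20.le
            have : 0 < Em * (2 * ((m : ℝ) + 5)) ^ (m + 6) := by positivity
            nlinarith
        _ ≤ (A1 * (((m + 6).factorial : ℝ) * Real.exp (2 * ((m : ℝ) + 5)))) * A2 := by
            apply mul_le_mul_of_nonneg_right _ hA20.le
            apply mul_le_mul h3 hR (by positivity) (Real.exp_pos _).le
        _ = Real.exp x * ((m + 6).factorial : ℝ) := by rw [h4]; ring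
    exact le_of_mul_le_mul_right h6 hf1
  -- conclusion
  rw [hfk]
  have h7 : 10.7 * Em * Y + 1.36 * Y < 12.2 * Em * Y := by
    have : 1.36 * Y < 1.5 * Em * Y := by nlinarith
    linarith
  have h8 : (10.7 * Em) * Y < Real.exp x - ∑ i ∈ range (m + 5 + 1), x ^ i / (i.factorial : ℝ) := by
    linarith
  have h9 : Q * ((10.7 * Em) * Y) <
      Q * (Real.exp x - ∑ i ∈ range (m + 5 + 1), x ^ i / (i.factorial : ℝ)) :=
    mul_lt_mul_of_pos_left h8 hQ0
  refine lt_of_le_of_lt ?_ h9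
  have h10 : 1 ≤ Q * (10.7 * Em) := by
    rw [← hQE]
    have : Q * Em * Real.exp 2.36 ≤ Q * Em * 10.7 :=
      mul_le_mul_of_nonneg_left he2 (by positivity)
    linarith
  calc Y = 1 * Y := (one_mul Y).symm
    _ ≤ (Q * (10.7 * Em)) * Y := mul_le_mul_of_nonneg_right h10 hY0.le
    _ = _ := by ring

theorem exists_lam_P (d : ℕ) (hd : 5 ≤ d) : ∃ lam : ℝ, IsLam d lam ∧
    Real.log (lam ^ (d + 1) / (((d + 1).factorial : ℝ) * fk (d + 1) lam)) <
      -2.36 - 0.265 * (d - 5) := by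
  obtain ⟨m, rfl⟩ : ∃ m, d = m + 5 := ⟨d - 5, by omega⟩
  obtain ⟨Q, hQ⟩ : ∃ Q : ℝ, Q = 1 / (Real.exp 2.36 * Real.exp 0.265 ^ m) := ⟨_, rfl⟩
  obtain ⟨x, hx⟩ : ∃ x : ℝ, x = 2 * ((m : ℝ) + 5) - ((m : ℝ) + 6) * Q := ⟨_, rfl⟩
  obtain ⟨hx0, hneg⟩ := anP_neg m hQ hx
  have hm0 : (0 : ℝ) ≤ m := Nat.cast_nonneg _
  have hQ0 : 0 < Q := by rw [hQ]; positivity
  have hf0 : (0 : ℝ) < ((m + 5).factorial : ℝ) := by exact_mod_cast Nat.factorial_pos _
  have hfac : ((m + 5 + 1).factorial : ℝ) = ((m : ℝ) + 6) * ((m + 5).factorial : ℝ) := by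
    rw [Nat.factorial_succ]
    push_cast; ring
  have hdc : ((m + 5 : ℕ) : ℝ) = (m : ℝ) + 5 := by push_cast; ring
  set h : ℝ → ℝ := fun y => y * fk (m + 5) y - 2 * ((m + 5 : ℕ) : ℝ) * fk (m + 5 + 1) y with hh
  have hform : ∀ y, h y = (y - 2 * ((m : ℝ) + 5)) * fk (m + 5 + 1) y +
      y ^ (m + 5 + 1) / ((m + 5).factorial : ℝ) := by
    intro y
    rw [hh]
    simp only
    rw [anP_fk_succ (m + 5) y, pow_succ, hdc]
    ring
  have hcont : Continuous h := by
    rw [hh]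
    unfold fk
    fun_prop
  have hb : 0 < h (2 * ((m : ℝ) + 5)) := by
    rw [hform, sub_self, zero_mul, zero_add]
    positivity
  have ha : h x < 0 := by
    rw [hform]
    have h1 : x - 2 * ((m : ℝ) + 5) = -(((m : ℝ) + 6) * Q) := by rw [hx]; ring
    rw [h1]
    have h2 : x ^ (m + 5 + 1) / ((m + 5).factorial : ℝ) =
        ((m : ℝ) + 6) * (x ^ (m + 6) / ((m + 6).factorial : ℝ)) := by
      rw [show ((m + 6).factorial : ℝ) = ((m : ℝ) + 6) * ((m + 5).factorial : ℝ) from hfac]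
      field_simp
    rw [h2]
    have h3 := mul_lt_mul_of_pos_left hneg (show 0 < (m : ℝ) + 6 by linarith)
    have h4 : fk (m + 5 + 1) x = fk (m + 6) x := rfl
    rw [h4]
    linarith
  have h3 := intermediate_value_Ioo (f := h) (a := x) (b := 2 * ((m : ℝ) + 5))
    (by rw [hx]; nlinarith) hcont.continuousOn
  obtain ⟨lam, hlam, h4⟩ := h3 ⟨ha, hb⟩
  have hlam0 : 0 < lam := hx0.trans hlam.1
  have hfk0 : 0 < fk (m + 5 + 1) lam := fk_pos (m + 5 + 1) hlam0
  refine ⟨lam, ⟨hlam0, ?_⟩, ?_⟩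
  · rw [hh] at h4
    simp only at h4
    linarith
  · have h5 : lam ^ (m + 5 + 1) / (((m + 5 + 1).factorial : ℝ) * fk (m + 5 + 1) lam) =
        (2 * ((m : ℝ) + 5) - lam) / ((m : ℝ) + 6) := by
      rw [hform] at h4
      have h6 : lam ^ (m + 5 + 1) = (2 * ((m : ℝ) + 5) - lam) * fk (m + 5 + 1) lam *
          ((m + 5).factorial : ℝ) := by
        have h7 : lam ^ (m + 5 + 1) / ((m + 5).factorial : ℝ) =
          (2 * ((m : ℝ) + 5) - lam) * fk (m + 5 + 1) lam := by linarith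
        rw [div_eq_iff hf0.ne'] at h7
        exact h7
      rw [h6, hfac]
      field_simp
    rw [h5]
    have h8 : (2 * ((m : ℝ) + 5) - lam) / ((m : ℝ) + 6) < Q := by
      rw [div_lt_iff₀ (by linarith)]
      have := hlam.1
      rw [hx] at this
      linarith
    have h9 : 0 < (2 * ((m : ℝ) + 5) - lam) / ((m : ℝ) + 6) := by
      apply div_pos _ (by linarith)
      linarith [hlam.2]
    have h10 := Real.log_lt_log h9 h8
    refine lt_of_lt_of_eq h10 ?_
    rw [hQ, one_div, Real.log_inv, Real.log_mul (Real.exp_pos _).ne'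
      (pow_pos (Real.exp_pos _) m).ne', Real.log_exp, Real.log_pow, Real.log_exp, hdc]
    ring

end Pool.Agent.Helper50.RG
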