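import Pool.Agent.Helper50.RG.AnT

/-!
# RG-64 : the exponent near `β = 0` for `d = 2, 3, 4`

Parameters: `kw = 2 d/lam`, `Lw = log (fk (d+1) lam) - 2 d`, `θ = 1`, `κ = 2 √d/(lam √β)`,
`γ = (d-1)/lam`. For `κ > 1`, `fk j u ≤ u^j/j! e^u ≤ c_j (κ-1)^(-j) e^(κ u)`, `c_j = j^j e^(-j)/j!`
(`c_2 = 0.27067`, `c_3 = 0.22405`, `c_4 = 0.19537`, `c_5 = 0.17547`). So
`gk d u v ≤ e^(κ u) ∑_{l<d} c_(l+2) (κ-1)^(-2-l) v^(d-1-l)/(d-1-l)!
≤ e^(κ u) c_2 (κ-1)^(-2) (v + a)^(d-1)/(d-1)!` with `a = A/(κ-1)`, where `A^l/l! ≥ c_(2+l)/c_2` for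
`1 ≤ l ≤ d-1`: `A = 0.83` for `d = 2`, `1.21` for `d = 3`, `1.58` for `d = 4`. With
`y^(d-1) ≤ ((d-1)/(e γ))^(d-1) e^(γ y)`, `y = v + a`:
`G = log (2 e^(-2) (κ-1)^(-2) ((d-1)/(e γ))^(d-1)/(d-1)!) + γ a`.
`Phi = -β log β - p log p + β G - β log (fk (d+1) lam) + 2 d β + d log (p² + β (κ² β + 2 γ kw p)/kw²)`, and
`(κ² β + 2 γ kw p)/kw² = 1/d + (d-1) p/d`, so the last logarithm is at most `-β + β²/d`, and
`-p log p ≤ β`. Everything simplifies to
`Phi/β ≤ log (lam^(d+1)/(2 d! fk (d+1) lam)) + 2 log (κ/(κ-1)) + (d-1) A/(lam (κ-1)) + β`, and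
`lam^(d+1)/(d! fk (d+1) lam) = 2 d - lam` (this is `IsLam`: `fk d = fk (d+1) + lam^d/d!`). For `β ≤ 0.02`:
`d = 2` (`lam ≥ 2.687`): `κ ≥ 7.43`, sum `≤ log 0.6565 + 0.2885 + 0.0485 + 0.02 < 0`;
`d = 3` (`lam ≥ 5.07`): `κ ≥ 4.82`, `log 0.465 + 0.465 + 0.125 + 0.02 < 0`;
`d = 4` (`lam ≥ 7.32`): `κ ≥ 3.86`, `log 0.34 + 0.601 + 0.227 + 0.02 < 0`.
(Upper bounds for `lam`, needed for `κ`: `lam < 2.689`, `5.073`, `7.323`.)
-/

set_option autoImplicit false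

namespace Pool.Agent.Helper50.RG

open Finset

private theorem anS_pow (n : ℕ) (hn : 1 ≤ n) {x : ℝ} (hx : 0 ≤ x) :
    x ^ n ≤ (n : ℝ) ^ n * Real.exp (x - n) := by
  have hn0 : (0 : ℝ) < n := by exact_mod_cast hn
  have h1 : x / n ≤ Real.exp (x / n - 1) := by
    have := Real.add_one_le_exp (x / n - 1)
    linarith
  have h2 : (x / n) ^ n ≤ Real.exp (x / n - 1) ^ n := pow_le_pow_left₀ (by positivity) h1 n
  rw [← Real.exp_nat_mul, div_pow, div_le_iff₀ (by positivity)] at h2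
  have h3 : (n : ℝ) * (x / n - 1) = x - n := by
    field_simp
  rw [h3] at h2
  linarith

private theorem anS_fk (j : ℕ) (hj : 1 ≤ j) {q u : ℝ} (hq : 0 < q) (hu : 0 ≤ u) :
    fk j u ≤ (j : ℝ) ^ j * Real.exp (-j) / (j.factorial : ℝ) / q ^ j * Real.exp ((q + 1) * u) := by
  have h1 := fk_le_pow j hu
  have h2 := anS_pow j hj (mul_nonneg hq.le hu)
  have h3 : u ^ j ≤ (j : ℝ) ^ j * Real.exp (q * u - j) / q ^ j := by
    rw [le_div_iff₀ (by positivity), ← mul_pow, mul_comm u q]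
    exact h2
  calc fk j u ≤ u ^ j / (j.factorial : ℝ) * Real.exp u := h1
    _ ≤ (j : ℝ) ^ j * Real.exp (q * u - j) / q ^ j / (j.factorial : ℝ) * Real.exp u := by gcongr
    _ = _ := by
        have : Real.exp ((q + 1) * u) = Real.exp (q * u) * Real.exp u := by
          rw [← Real.exp_add]
          ring_nf
        rw [this, Real.exp_sub, Real.exp_neg]
        field_simp

private theorem anS_core (d n : ℕ) (hdn : d = n + 1) (hn : 1 ≤ n) (lam β κ A : ℝ)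
    (hl : IsLam d lam) (h0 : 0 < β) (h1 : β < 1) (hκ : 1 < κ)
    (hκ2 : κ ^ 2 * lam ^ 2 * β = 4 * d) (hA : 0 ≤ A)
    (hgk : ∀ u v : ℝ, 0 ≤ u → 0 ≤ v → gk d u v ≤
      2 * Real.exp (-2) / (κ - 1) ^ 2 * ((v + A / (κ - 1)) ^ n / (n.factorial : ℝ)) *
        Real.exp (κ * u))
    (hnum : (2 * (d : ℝ) - lam) / 2 * (κ / (κ - 1)) ^ 2 + n / lam * (A / (κ - 1)) + β < 1) :
    ∃ Lw kw G κ γ θ : ℝ, Par d Lw kw G κ γ θ ∧ Phi d lam Lw kw G κ γ θ β < 0 := by
  obtain ⟨hl0, hl1⟩ := hl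
  have hq : 0 < κ - 1 := by linarith
  have hn0 : (0 : ℝ) < n := by exact_mod_cast hn
  have hdc : (d : ℝ) = n + 1 := by rw [hdn]; push_cast; ring
  have hd0 : (0 : ℝ) < d := by rw [hdc]; positivity
  have hfk : 0 < fk (d + 1) lam :=
    lt_of_lt_of_le (by positivity) (fk_ge_pow (d + 1) hl0.le)
  obtain ⟨Y, hY⟩ : ∃ Y, Y = 2 * lam ^ n / ((n.factorial : ℝ) * (κ - 1) ^ 2) := ⟨_, rfl⟩
  have hY0 : 0 < Y := by rw [hY]; positivity
  refine ⟨Real.log (fk (d + 1) lam) - 2 * d, 2 * d / lam,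
    Real.log Y - 2 - n + n / lam * (A / (κ - 1)), κ, n / lam, 1, ⟨by positivity, by linarith,
    by positivity, one_pos, le_refl _, ?_, ?_⟩, ?_⟩
  · intro w hw
    have h := fk_tangent d hl0 hw
    have h2 : fk d lam / fk (d + 1) lam = 2 * d / lam := by
      rw [div_eq_div_iff hfk.ne' hl0.ne']
      linarith
    rw [h2] at h
    refine h.trans (le_of_eq ?_)
    have h3 : Real.log (fk (d + 1) lam) - 2 * d + 2 * d / lam * w =
        Real.log (fk (d + 1) lam) + 2 * d / lam * (w - lam) := by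
      field_simp
      ring
    rw [h3, Real.exp_add, Real.exp_log hfk]
  · intro u v hu hv
    refine (hgk u v hu hv).trans ?_
    have ha : 0 ≤ v + A / (κ - 1) := by positivity
    have h2 := anS_pow n hn (mul_nonneg (by positivity : 0 ≤ (n : ℝ) / lam) ha)
    have h3 : (v + A / (κ - 1)) ^ n ≤ lam ^ n *
        Real.exp (n / lam * (v + A / (κ - 1)) - n) := by
      rw [mul_pow, div_pow] at h2
      have h4 : (0 : ℝ) < (n : ℝ) ^ n := by positivity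
      have h5 : (n : ℝ) ^ n / lam ^ n * (v + A / (κ - 1)) ^ n * lam ^ n =
          (n : ℝ) ^ n * (v + A / (κ - 1)) ^ n := by field_simp
      have h6 := mul_le_mul_of_nonneg_right h2 (by positivity : 0 ≤ lam ^ n)
      rw [h5] at h6
      have h7 : (n : ℝ) ^ n * (v + A / (κ - 1)) ^ n ≤ (n : ℝ) ^ n * (lam ^ n *
        Real.exp (n / lam * (v + A / (κ - 1)) - n)) := by linarith
      exact le_of_mul_le_mul_left h7 h4
    have h8 : Real.exp (Real.log Y - 2 - n + n / lam * (A / (κ - 1)) + κ * u + n / lam * v) =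
        Y * Real.exp (-2) * Real.exp (n / lam * (v + A / (κ - 1)) - n) * Real.exp (κ * u) := by
      conv_rhs => rw [← Real.exp_log hY0]
      rw [← Real.exp_add, ← Real.exp_add, ← Real.exp_add]
      congr 1
      ring
    rw [h8]
    calc 2 * Real.exp (-2) / (κ - 1) ^ 2 * ((v + A / (κ - 1)) ^ n / (n.factorial : ℝ)) *
          Real.exp (κ * u)
        ≤ 2 * Real.exp (-2) / (κ - 1) ^ 2 * ((lam ^ n *
          Real.exp (n / lam * (v + A / (κ - 1)) - n)) / (n.factorial : ℝ)) *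
          Real.exp (κ * u) := by gcongr
      _ = _ := by
          rw [hY]
          field_simp
  · unfold Phi
    have hE : lam ^ 2 / (4 * (d : ℝ) ^ 2) * ((2 * d / lam * (1 - β)) ^ 2 +
        1 * β * (κ ^ 2 * β + 2 * (n / lam) * (2 * d / lam) * (1 - β))) = 1 - β + β ^ 2 / d := by
      have e1 : κ ^ 2 = 4 * d / (lam ^ 2 * β) := by
        rw [eq_div_iff (by positivity)]
        linarith
      rw [e1]
      have hn1 : (n : ℝ) = d - 1 := by linarith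
      rw [hn1]
      field_simp
      ring
    rw [hE, Real.log_one]
    have hpos : 0 < 1 - β + β ^ 2 / d := by
      have : 0 < β ^ 2 / d := by positivity
      linarith
    have l1 := Real.log_le_sub_one_of_pos hpos
    have l1' : (d : ℝ) * Real.log (1 - β + β ^ 2 / d) ≤ -(d * β) + β ^ 2 := by
      have := mul_le_mul_of_nonneg_left l1 hd0.le
      have e : (d : ℝ) * (1 - β + β ^ 2 / d - 1) = -(d * β) + β ^ 2 := by
        field_simp
        ring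
      linarith
    have l2 : -(1 - β) * Real.log (1 - β) ≤ β := by
      have h2 := Real.one_sub_inv_le_log_of_pos (by linarith : 0 < 1 - β)
      have h3 := mul_le_mul_of_nonneg_left h2 (by linarith : 0 ≤ 1 - β)
      have e : (1 - β) * (1 - (1 - β)⁻¹) = -β := by
        have : (1 - β) ≠ 0 := by linarith
        field_simp
        ring
      linarith
    obtain ⟨X, hX⟩ : ∃ X, X = (2 * (d : ℝ) - lam) / 2 * (κ / (κ - 1)) ^ 2 := ⟨_, rfl⟩
    have eX : Y / (β * fk (d + 1) lam) = X := by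
      have e2 : fk d lam = fk (d + 1) lam + lam ^ d / (d.factorial : ℝ) := by
        unfold fk
        rw [sum_range_succ]
        ring
      have e3 : lam ^ (d + 1) / (d.factorial : ℝ) = (2 * d - lam) * fk (d + 1) lam := by
        rw [e2] at hl1
        rw [pow_succ]
        have : lam ^ d * lam / (d.factorial : ℝ) = lam * (lam ^ d / (d.factorial : ℝ)) := by ring
        rw [this]
        linarith
      have hdf : (d.factorial : ℝ) = (n + 1) * n.factorial := by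
        rw [hdn, Nat.factorial_succ]
        push_cast
        ring
      have hβ : β = 4 * d / (κ ^ 2 * lam ^ 2) := by
        rw [eq_div_iff (by positivity)]
        linarith
      have e4 : fk (d + 1) lam * (2 * d - lam) * (d.factorial : ℝ) = lam ^ (d + 1) := by
        field_simp at e3
        linarith
      rw [hX, hY, div_eq_iff (by positivity)]
      rw [div_eq_iff (by positivity)]
      have e5 : lam ^ (d + 1) = lam ^ n * lam ^ 2 := by
        rw [← pow_add, hdn]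
      have e6 : (2 * (d : ℝ) - lam) / 2 * (κ / (κ - 1)) ^ 2 * (β * fk (d + 1) lam) *
          ((n.factorial : ℝ) * (κ - 1) ^ 2) =
          (fk (d + 1) lam * (2 * d - lam) * (d.factorial : ℝ)) * (κ ^ 2 * β / (2 * d)) := by
        rw [hdf, ← hdc]
        field_simp
      rw [e6, e4, e5]
      have e7 : lam ^ n * lam ^ 2 * (κ ^ 2 * β / (2 * d)) =
          lam ^ n * (κ ^ 2 * lam ^ 2 * β) / (2 * d) := by ring
      rw [e7, hκ2]
      field_simp
      ring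
    have hX0 : 0 < X := by rw [← eX]; positivity
    have l3 := Real.log_le_sub_one_of_pos hX0
    have l4 : Real.log X = Real.log Y - Real.log β - Real.log (fk (d + 1) lam) := by
      rw [← eX, Real.log_div hY0.ne' (by positivity), Real.log_mul h0.ne' hfk.ne']
      ring
    rw [← hX] at hnum
    have l5 : Real.log Y - Real.log β - Real.log (fk (d + 1) lam) + n / lam * (A / (κ - 1)) + β
        < 0 := by linarith
    have l6 := mul_neg_of_pos_of_neg h0 l5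
    have l7 : -β * Real.log β - (1 - β) * Real.log (1 - β) +
        β * (Real.log Y - 2 - n + n / lam * (A / (κ - 1))) +
        (1 - β) * (Real.log (fk (d + 1) lam) - 2 * d) - Real.log (fk (d + 1) lam) -
        d * β * 0 + d * Real.log (1 - β + β ^ 2 / d) + 2 * d ≤
        β * (Real.log Y - Real.log β - Real.log (fk (d + 1) lam) + n / lam * (A / (κ - 1)) + β) := by
      rw [hdc] at l1' ⊢
      nlinarith
    linarith

private theorem anS_fk' (j : ℕ) (hj : 1 ≤ j) {q u : ℝ} (hq : 0 < q) (hu : 0 ≤ u) :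
    fk j u ≤ (j : ℝ) ^ j / (j.factorial : ℝ) * Real.exp (-1) ^ j * (1 / q) ^ j *
      Real.exp ((q + 1) * u) := by
  refine (anS_fk j hj hq hu).trans (le_of_eq ?_)
  have h : Real.exp (-1) ^ j = Real.exp (-j) := by
    rw [← Real.exp_nat_mul]
    congr 1
    ring
  rw [h, one_div, inv_pow]
  ring

private theorem anS_gk2 (κ : ℝ) (hκ : 1 < κ) (u v : ℝ) (hu : 0 ≤ u) (hv : 0 ≤ v) :
    gk 2 u v ≤ 2 * Real.exp (-2) / (κ - 1) ^ 2 *
      ((v + 0.83 / (κ - 1)) ^ 1 / (Nat.factorial 1 : ℝ)) * Real.exp (κ * u) := by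
  have hq : 0 < κ - 1 := by linarith
  have hr : 0 < 1 / (κ - 1) := by positivity
  have h2 := anS_fk' 2 (by norm_num) hq hu
  have h3 := anS_fk' 3 (by norm_num) hq hu
  have e1 : κ - 1 + 1 = κ := by ring
  rw [e1] at h2 h3
  have e2 : gk 2 u v = fk 3 u + v * fk 2 u := by
    unfold gk
    simp [sum_range_succ]
  have e3 : Real.exp (-2) = Real.exp (-1) ^ 2 := by
    rw [← Real.exp_nat_mul]
    norm_num
  rw [e2, e3]
  have ht := Real.exp_neg_one_lt_d9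
  have ht0 := Real.exp_pos (-1)
  have hE := Real.exp_pos (κ * u)
  have er : ∀ x : ℝ, x / (κ - 1) = x * (1 / (κ - 1)) := fun x => by ring
  have er2 : 2 * Real.exp (-1) ^ 2 / (κ - 1) ^ 2 = 2 * Real.exp (-1) ^ 2 * (1 / (κ - 1)) ^ 2 := by
    rw [one_div, inv_pow]
    ring
  rw [er, er2]
  generalize 1 / (κ - 1) = r at *
  generalize Real.exp (κ * u) = E at *
  generalize Real.exp (-1) = t at *
  norm_num [Nat.factorial] at h2 h3 ⊢
  have k1 : 0 ≤ t ^ 2 * r ^ 3 * E := by positivity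
  have k2 := mul_le_mul_of_nonneg_left h2 hv
  have k3 := mul_nonneg (by linarith : 0 ≤ 1.66 - 4.5 * t) k1
  calc fk 3 u + v * fk 2 u ≤ _ := add_le_add h3 k2
    _ ≤ _ := by
      norm_num at k3
      linarith

private theorem anS_gk3 (κ : ℝ) (hκ : 1 < κ) (u v : ℝ) (hu : 0 ≤ u) (hv : 0 ≤ v) :
    gk 3 u v ≤ 2 * Real.exp (-2) / (κ - 1) ^ 2 *
      ((v + 1.21 / (κ - 1)) ^ 2 / (Nat.factorial 2 : ℝ)) * Real.exp (κ * u) := by
  have hq : 0 < κ - 1 := by linarith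
  have hr : 0 < 1 / (κ - 1) := by positivity
  have h2 := anS_fk' 2 (by norm_num) hq hu
  have h3 := anS_fk' 3 (by norm_num) hq hu
  have h4 := anS_fk' 4 (by norm_num) hq hu
  have e1 : κ - 1 + 1 = κ := by ring
  rw [e1] at h2 h3 h4
  have e2 : gk 3 u v = fk 4 u + v * fk 3 u + v ^ 2 / 2 * fk 2 u := by
    unfold gk
    simp [sum_range_succ]
  have e3 : Real.exp (-2) = Real.exp (-1) ^ 2 := by
    rw [← Real.exp_nat_mul]
    norm_num
  rw [e2, e3]
  have ht := Real.exp_neg_one_lt_d9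
  have ht0 := Real.exp_pos (-1)
  have hE := Real.exp_pos (κ * u)
  have er : ∀ x : ℝ, x / (κ - 1) = x * (1 / (κ - 1)) := fun x => by ring
  have er2 : 2 * Real.exp (-1) ^ 2 / (κ - 1) ^ 2 = 2 * Real.exp (-1) ^ 2 * (1 / (κ - 1)) ^ 2 := by
    rw [one_div, inv_pow]
    ring
  rw [er, er2]
  generalize 1 / (κ - 1) = r at *
  generalize Real.exp (κ * u) = E at *
  generalize Real.exp (-1) = t at *
  norm_num [Nat.factorial] at h2 h3 h4 ⊢
  have ht2 : t ^ 2 ≤ 0.1354 := by nlinarith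
  have k1 : 0 ≤ v * (t ^ 2 * r ^ 3 * E) := by positivity
  have k1' : 0 ≤ t ^ 2 * r ^ 4 * E := by positivity
  have k2 := mul_le_mul_of_nonneg_left h2 (by positivity : 0 ≤ v ^ 2 / 2)
  have k3 := mul_le_mul_of_nonneg_left h3 hv
  have k4 := mul_nonneg (by linarith : 0 ≤ 2.42 - 4.5 * t) k1
  have k5 := mul_nonneg (by linarith : 0 ≤ 1.4641 - 32 / 3 * t ^ 2) k1'
  calc fk 4 u + v * fk 3 u + v ^ 2 / 2 * fk 2 u ≤ _ := add_le_add (add_le_add h4 k3) k2
    _ ≤ _ := by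
      norm_num at k4 k5
      linarith

private theorem anS_gk4 (κ : ℝ) (hκ : 1 < κ) (u v : ℝ) (hu : 0 ≤ u) (hv : 0 ≤ v) :
    gk 4 u v ≤ 2 * Real.exp (-2) / (κ - 1) ^ 2 *
      ((v + 1.58 / (κ - 1)) ^ 3 / (Nat.factorial 3 : ℝ)) * Real.exp (κ * u) := by
  have hq : 0 < κ - 1 := by linarith
  have hr : 0 < 1 / (κ - 1) := by positivity
  have h2 := anS_fk' 2 (by norm_num) hq hu
  have h3 := anS_fk' 3 (by norm_num) hq hu
  have h4 := anS_fk' 4 (by norm_num) hq hu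
  have h5 := anS_fk' 5 (by norm_num) hq hu
  have e1 : κ - 1 + 1 = κ := by ring
  rw [e1] at h2 h3 h4 h5
  have e2 : gk 4 u v = fk 5 u + v * fk 4 u + v ^ 2 / 2 * fk 3 u + v ^ 3 / 6 * fk 2 u := by
    unfold gk
    simp [sum_range_succ, Nat.factorial]
  have e3 : Real.exp (-2) = Real.exp (-1) ^ 2 := by
    rw [← Real.exp_nat_mul]
    norm_num
  rw [e2, e3]
  have ht := Real.exp_neg_one_lt_d9
  have ht0 := Real.exp_pos (-1)
  have hE := Real.exp_pos (κ * u)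
  have er : ∀ x : ℝ, x / (κ - 1) = x * (1 / (κ - 1)) := fun x => by ring
  have er2 : 2 * Real.exp (-1) ^ 2 / (κ - 1) ^ 2 = 2 * Real.exp (-1) ^ 2 * (1 / (κ - 1)) ^ 2 := by
    rw [one_div, inv_pow]
    ring
  rw [er, er2]
  generalize 1 / (κ - 1) = r at *
  generalize Real.exp (κ * u) = E at *
  generalize Real.exp (-1) = t at *
  norm_num [Nat.factorial] at h2 h3 h4 h5 ⊢
  have ht2 : t ^ 2 ≤ 0.1354 := by nlinarith
  have ht3 : t ^ 3 ≤ 0.0499 := by nlinarith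
  have k1 : 0 ≤ v ^ 2 * (t ^ 2 * r ^ 3 * E) := by positivity
  have k1' : 0 ≤ v * (t ^ 2 * r ^ 4 * E) := by positivity
  have k1'' : 0 ≤ t ^ 2 * r ^ 5 * E := by positivity
  have k2 := mul_le_mul_of_nonneg_left h2 (by positivity : 0 ≤ v ^ 3 / 6)
  have k3 := mul_le_mul_of_nonneg_left h3 (by positivity : 0 ≤ v ^ 2 / 2)
  have k4 := mul_le_mul_of_nonneg_left h4 hv
  have k5 := mul_nonneg (by linarith : 0 ≤ 3.16 - 4.5 * t) k1
  have k6 := mul_nonneg (by linarith : 0 ≤ 2.4964 - 32 / 3 * t ^ 2) k1'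
  have k7 := mul_nonneg (by norm_num at ht3 ⊢; linarith : 0 ≤ 3.944312 / 3 - 625 / 24 * t ^ 3) k1''
  calc fk 5 u + v * fk 4 u + v ^ 2 / 2 * fk 3 u + v ^ 3 / 6 * fk 2 u ≤ _ :=
        add_le_add (add_le_add (add_le_add h5 k4) k3) k2
    _ ≤ _ := by
      norm_num at k5 k6 k7
      linarith

/-- The choice of `κ`. -/
private theorem anS_kappa (d : ℕ) (hd : 1 ≤ d) (lam β κ₀ L : ℝ) (hl0 : 0 < lam) (hl : lam < L)
    (h0 : 0 < β) (hβ : β ≤ 0.02) (hκ0 : 1 < κ₀) (hnum : κ₀ ^ 2 * (L ^ 2 * 0.02) ≤ 4 * d) :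
    ∃ κ : ℝ, κ₀ ≤ κ ∧ κ ^ 2 * lam ^ 2 * β = 4 * d := by
  have hd0 : (0 : ℝ) < d := by exact_mod_cast hd
  refine ⟨Real.sqrt (4 * d / (lam ^ 2 * β)), ?_, ?_⟩
  · apply Real.le_sqrt_of_sq_le
    rw [le_div_iff₀ (by positivity)]
    refine le_trans ?_ hnum
    have h1 : lam ^ 2 ≤ L ^ 2 := pow_le_pow_left₀ hl0.le hl.le 2
    have h2 : lam ^ 2 * β ≤ L ^ 2 * 0.02 := mul_le_mul h1 hβ h0.le (by positivity)
    exact mul_le_mul_of_nonneg_left h2 (by positivity)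
  · rw [Real.sq_sqrt (by positivity)]
    field_simp

private theorem anS_ratio (κ κ₀ : ℝ) (h0 : 1 < κ₀) (h : κ₀ ≤ κ) :
    0 < κ / (κ - 1) ∧ κ / (κ - 1) ≤ κ₀ / (κ₀ - 1) ∧ 1 / (κ - 1) ≤ 1 / (κ₀ - 1) := by
  have h1 : 0 < κ₀ - 1 := by linarith
  have h2 : 0 < κ - 1 := by linarith
  refine ⟨div_pos (by linarith) h2, ?_, ?_⟩
  · rw [div_le_div_iff₀ h2 h1]
    nlinarith
  · exact one_div_le_one_div_of_le h1 (by linarith)

private theorem anS_num (D lam β κ κ₀ n A L₁ : ℝ) (h0 : 1 < κ₀) (h : κ₀ ≤ κ) (hL : 0 < L₁)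
    (hl : L₁ < lam) (hn : 0 ≤ n) (hA : 0 ≤ A) (hβ : β ≤ 0.02) (hD : 0 ≤ D - L₁)
    (hnum : (D - L₁) / 2 * (κ₀ / (κ₀ - 1)) ^ 2 + n / L₁ * (A * (1 / (κ₀ - 1))) + 0.02 < 1) :
    (D - lam) / 2 * (κ / (κ - 1)) ^ 2 + n / lam * (A / (κ - 1)) + β < 1 := by
  obtain ⟨r1, r2, r3⟩ := anS_ratio κ κ₀ h0 h
  have h2 : 0 < κ - 1 := by linarith
  have e : A / (κ - 1) = A * (1 / (κ - 1)) := by ring
  rw [e]
  have s1 : (D - lam) / 2 * (κ / (κ - 1)) ^ 2 ≤ (D - L₁) / 2 * (κ₀ / (κ₀ - 1)) ^ 2 := by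
    have : (κ / (κ - 1)) ^ 2 ≤ (κ₀ / (κ₀ - 1)) ^ 2 := pow_le_pow_left₀ r1.le r2 2
    calc (D - lam) / 2 * (κ / (κ - 1)) ^ 2 ≤ (D - L₁) / 2 * (κ / (κ - 1)) ^ 2 := by
          apply mul_le_mul_of_nonneg_right _ (by positivity)
          linarith
      _ ≤ _ := mul_le_mul_of_nonneg_left this (by linarith)
  have s2 : n / lam * (A * (1 / (κ - 1))) ≤ n / L₁ * (A * (1 / (κ₀ - 1))) := by
    have : n / lam ≤ n / L₁ := div_le_div_of_nonneg_left hn hL hl.le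
    have h3 : 0 ≤ 1 / (κ - 1) := by positivity
    have h4 : 0 ≤ n / L₁ := by positivity
    gcongr
  linarith

theorem an_small2 (lam : ℝ) (hl : IsLam 2 lam) (h1 : 2.687 < lam) (h2 : lam < 2.689) (β : ℝ)
    (h0 : 0 < β) (hβ : β ≤ 0.02) :
    ∃ Lw kw G κ γ θ : ℝ, Par 2 Lw kw G κ γ θ ∧ Phi 2 lam Lw kw G κ γ θ β < 0 := by
  obtain ⟨κ, hκ0, hκ⟩ := anS_kappa 2 (by norm_num) lam β 7.43 2.689 hl.1 h2 h0 hβ (by norm_num)
    (by norm_num)
  have hκ1 : 1 < κ := by linarith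
  refine anS_core 2 1 rfl le_rfl lam β κ 0.83 hl h0 (by linarith) hκ1 hκ (by norm_num)
    (anS_gk2 κ hκ1) ?_
  exact anS_num _ lam β κ 7.43 _ 0.83 2.687 (by norm_num) hκ0 (by norm_num) h1 (by norm_num)
    (by norm_num) hβ (by norm_num) (by norm_num)

theorem an_small3 (lam : ℝ) (hl : IsLam 3 lam) (h1 : 5.07 < lam) (h2 : lam < 5.073) (β : ℝ)
    (h0 : 0 < β) (hβ : β ≤ 0.02) :
    ∃ Lw kw G κ γ θ : ℝ, Par 3 Lw kw G κ γ θ ∧ Phi 3 lam Lw kw G κ γ θ β < 0 := by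
  obtain ⟨κ, hκ0, hκ⟩ := anS_kappa 3 (by norm_num) lam β 4.82 5.073 hl.1 h2 h0 hβ (by norm_num)
    (by norm_num)
  have hκ1 : 1 < κ := by linarith
  refine anS_core 3 2 rfl (by norm_num) lam β κ 1.21 hl h0 (by linarith) hκ1 hκ (by norm_num)
    (anS_gk3 κ hκ1) ?_
  exact anS_num _ lam β κ 4.82 _ 1.21 5.07 (by norm_num) hκ0 (by norm_num) h1 (by norm_num)
    (by norm_num) hβ (by norm_num) (by norm_num)

theorem an_small4 (lam : ℝ) (hl : IsLam 4 lam) (h1 : 7.32 < lam) (h2 : lam < 7.323) (β : ℝ)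
    (h0 : 0 < β) (hβ : β ≤ 0.02) :
    ∃ Lw kw G κ γ θ : ℝ, Par 4 Lw kw G κ γ θ ∧ Phi 4 lam Lw kw G κ γ θ β < 0 := by
  obtain ⟨κ, hκ0, hκ⟩ := anS_kappa 4 (by norm_num) lam β 3.86 7.323 hl.1 h2 h0 hβ (by norm_num)
    (by norm_num)
  have hκ1 : 1 < κ := by linarith
  refine anS_core 4 3 rfl (by norm_num) lam β κ 1.58 hl h0 (by linarith) hκ1 hκ (by norm_num)
    (anS_gk4 κ hκ1) ?_
  exact anS_num _ lam β κ 3.86 _ 1.58 7.32 (by norm_num) hκ0 (by norm_num) h1 (by norm_num)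
    (by norm_num) hβ (by norm_num) (by norm_num)

end Pool.Agent.Helper50.RG
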