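import Pool.Agent.Helper50.RG.AnC
import Pool.Agent.Helper50.RG.AnN
import Pool.Agent.Helper50.RG.AnG
import Pool.Agent.Helper50.RG.AnP
import Pool.Agent.Helper50.RG.AnS
import Pool.Agent.Helper50.RG.AnL

/-!
# The analytic input for all `d ≥ 2`
-/

set_option autoImplicit false

namespace Pool.Agent.Helper50.RG

/-- the intervals of the list cover `(a, b]` -/
def cov : ℚ → List Cell → ℚ → Bool
  | a, [], b => decide (b ≤ a)
  | a, c :: l, b => decide (c.a ≤ a) && cov c.b l b

theorem cov_spec (l : List Cell) : ∀ (a b : ℚ), cov a l b = true → ∀ β : ℝ, (a : ℝ) < β → β ≤ b →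
    ∃ c ∈ l, (c.a : ℝ) ≤ β ∧ β ≤ c.b := by
  induction l with
  | nil =>
    intro a b h β h1 h2
    simp only [cov, decide_eq_true_eq] at h
    have : (b : ℝ) ≤ a := by exact_mod_cast h
    linarith
  | cons c l ih =>
    intro a b h β h1 h2
    simp only [cov, Bool.and_eq_true, decide_eq_true_eq] at h
    have hca : (c.a : ℝ) ≤ a := by exact_mod_cast h.1
    rcases le_or_gt β (c.b : ℝ) with h3 | h3
    · exact ⟨c, by simp, by linarith, h3⟩
    · obtain ⟨c', hc', h4⟩ := ih c.b b h.2 β h3 h2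
      exact ⟨c', by simp [hc'], h4⟩

theorem an_mid (d : ℕ) (hd : 2 ≤ d) (hd4 : d ≤ 4) (lam : ℝ) (h0 : 0 < lam) (Lam F a b : ℚ)
    (h1 : lam ≤ Lam) (h2 : (F : ℝ) ≤ Real.log (fk (d + 1) lam)) (l : List Cell)
    (hl : l.all (chk d Lam F) = true) (hc : cov a l b = true) (β : ℝ) (hβ : (a : ℝ) < β)
    (hβ' : β ≤ b) :
    ∃ Lw kw G κ γ θ : ℝ, Par d Lw kw G κ γ θ ∧ Phi d lam Lw kw G κ γ θ β < 0 := by
  obtain ⟨c, hcl, h3, h4⟩ := cov_spec l a b hc β hβ hβ'
  exact cell_sound d hd hd4 lam h0 Lam F h1 h2 c (List.all_eq_true.1 hl c hcl) β h3 h4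

theorem exists_AN2 : ∃ lam : ℝ, IsLam 2 lam ∧ AN 2 lam := by
  obtain ⟨lam, hl, h1, h2, h3⟩ := exists_lam2
  refine ⟨lam, hl, ?_⟩
  intro β h0 hβ1
  rcases le_or_gt β 0.02 with h | h
  · exact an_small2 lam hl (by linarith) (by linarith) β h0 h
  rcases le_or_gt β 0.9505 with h' | h'
  · refine an_mid 2 le_rfl (by norm_num) lam hl.1 (268801 / 100000) (20016 / 10000) (2 / 100)
      (9505 / 10000) ?_ ?_ cells2 cells2_ok (by decide +kernel) β ?_ ?_
    · push_cast; linarith
    · push_cast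
      norm_num at h3 ⊢
      linarith
    · push_cast; linarith
    · push_cast; linarith
  · refine an_large 2 le_rfl lam hl β h0 hβ1 ?_
    have h4 : Real.log (1 - β) < -3 := by
      rw [Real.log_lt_iff_lt_exp (by linarith)]
      have h5 : ((eLo (-3) : ℚ) : ℝ) ≤ Real.exp (-3) := by
        have := eLo_le (-3)
        push_cast at this
        exact this
      have h6 : (495 / 10000 : ℚ) < eLo (-3) := by decide +kernel
      have h7 : ((495 / 10000 : ℚ) : ℝ) < ((eLo (-3) : ℚ) : ℝ) := by exact_mod_cast h6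
      push_cast at h7
      linarith
    push_cast
    linarith

theorem exists_AN3 : ∃ lam : ℝ, IsLam 3 lam ∧ AN 3 lam := by
  obtain ⟨lam, hl, h1, h2, h3⟩ := exists_lam3
  refine ⟨lam, hl, ?_⟩
  intro β h0 hβ1
  rcases le_or_gt β 0.02 with h | h
  · exact an_small3 lam hl (by linarith) (by linarith) β h0 h
  rcases le_or_gt β 0.866 with h' | h'
  · refine an_mid 3 (by norm_num) (by norm_num) lam hl.1 (507148 / 100000) (47768 / 10000)
      (2 / 100) (866 / 1000) ?_ ?_ cells3 cells3_ok (by decide +kernel) β ?_ ?_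
    · push_cast; linarith
    · push_cast
      norm_num at h3 ⊢
      linarith
    · push_cast; linarith
    · push_cast; linarith
  · refine an_large 3 (by norm_num) lam hl β h0 hβ1 ?_
    have h4 : Real.log (1 - β) < -2 := by
      rw [Real.log_lt_iff_lt_exp (by linarith)]
      have h5 : ((eLo (-2) : ℚ) : ℝ) ≤ Real.exp (-2) := by
        have := eLo_le (-2)
        push_cast at this
        exact this
      have h6 : (134 / 1000 : ℚ) < eLo (-2) := by decide +kernel
      have h7 : ((134 / 1000 : ℚ) : ℝ) < ((eLo (-2) : ℚ) : ℝ) := by exact_mod_cast h6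
      push_cast at h7
      linarith
    push_cast
    linarith

theorem exists_AN4 : ∃ lam : ℝ, IsLam 4 lam ∧ AN 4 lam := by
  obtain ⟨lam, hl, h1, h2, h3⟩ := exists_lam4
  refine ⟨lam, hl, ?_⟩
  intro β h0 hβ1
  rcases le_or_gt β 0.02 with h | h
  · exact an_small4 lam hl (by linarith) (by linarith) β h0 h
  rcases le_or_gt β 0.812 with h' | h'
  · refine an_mid 4 (by norm_num) (by norm_num) lam hl.1 (732171 / 100000) (71642 / 10000)
      (2 / 100) (812 / 1000) ?_ ?_ cells4 cells4_ok (by decide +kernel) β ?_ ?_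
    · push_cast; linarith
    · push_cast
      norm_num at h3 ⊢
      linarith
    · push_cast; linarith
    · push_cast; linarith
  · refine an_large 4 (by norm_num) lam hl β h0 hβ1 ?_
    have h4 : Real.log (1 - β) < -(5 / 3) := by
      rw [Real.log_lt_iff_lt_exp (by linarith)]
      have h5 : ((eLo (-(5 / 3)) : ℚ) : ℝ) ≤ Real.exp (-(5 / 3)) := by
        have := eLo_le (-(5 / 3))
        push_cast at this
        exact this
      have h6 : (188 / 1000 : ℚ) < eLo (-(5 / 3)) := by decide +kernel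
      have h7 : ((188 / 1000 : ℚ) : ℝ) < ((eLo (-(5 / 3)) : ℚ) : ℝ) := by exact_mod_cast h6
      push_cast at h7
      linarith
    push_cast
    linarith

theorem exists_AN (d : ℕ) (hd : 2 ≤ d) : ∃ lam : ℝ, IsLam d lam ∧ AN d lam := by
  rcases Nat.lt_or_ge d 5 with h5 | h5
  · interval_cases d
    · exact exists_AN2
    · exact exists_AN3
    · exact exists_AN4
  · obtain ⟨lam, hl, hP⟩ := exists_lam_P d h5
    refine ⟨lam, hl, ?_⟩
    intro β h0 h1
    have hp0 : 0 < 1 - β := by linarith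
    obtain ⟨b, hb, h⟩ := an_ineq d h5 (1 - β) hp0 (by linarith)
    refine an_naive d hd lam hl β b h0 h1 hb ?_
    have e1 : 1 - (1 - β) = β := by ring
    rw [e1] at h
    set P := Real.log (lam ^ (d + 1) / (((d + 1).factorial : ℝ) * fk (d + 1) lam)) with hPd
    have h2 : (1 - β) * (((d : ℝ) - 1) * Real.log (1 - β) / β +
        d * (2 / b + Real.log (b ^ 2 / (2 * b - 1)) / (1 - β)) + P) < 0 := by
      apply mul_neg_of_pos_of_neg hp0
      linarith
    have h3 : (1 - β) * (((d : ℝ) - 1) * Real.log (1 - β) / β +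
        d * (2 / b + Real.log (b ^ 2 / (2 * b - 1)) / (1 - β)) + P) =
        ((d : ℝ) - 1) * (1 - β) * Real.log (1 - β) / β + (1 - β) * P +
        d * (2 * (1 - β) / b + Real.log (b ^ 2 / (2 * b - 1))) := by
      field_simp
      ring
    rw [h3] at h2
    exact h2

end Pool.Agent.Helper50.RG
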