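import Pool.Agent.Helper50.RG.LargeB

/-!
# RG-60 : tangents of `log (fk j)`

`fk j x = exp x - ∑_{i<j} x^i/i!`, derivative `fk (j-1) x` (`j ≥ 1`). The ratio
`fk (j-1) x / fk j x = 1 + x^(j-1) / ((j-1)! fk j x)` is antitone on `(0, ∞)` (`fk j x / x^(j-1)` is
a power series with non-negative coefficients), so `log (fk j)` is concave on `(0, ∞)`, and
`fk_tangent` is the tangent inequality at `u₀` (`u = 0` by continuity, or as `fk j 0 = 0`).
`fk_le_pow`: `fk j x = ∑_{n ≥ j} x^n/n! ≤ x^j/j! exp x`. `fk_ge_pow`: `x^j / j! ≤ fk j x`.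
`gk_le_fk`: `gk d u v` is the sum of `u^a v^i/(a! i!)` over `i < d`, `a + i ≥ d + 1`, and `fk (d+1) (u+v)` the
sum over all `a + i ≥ d + 1`. (E.g. both sides vanish at `u = 0`... or use
`exp (u+v) - ∑_{n ≤ d} (u+v)^n/n! ≥ ∑_{i<d} v^i/i! (exp u - ∑_{a ≤ d - i} u^a/a!)` via series.)
`fk_moment`: `fk k (x * lam) / (x^k fk k lam) = k! P ∫_0^1 (1-t)^(k-1)/(k-1)! exp (lam x t) dt`,
`P = lam^k/(k! fk k lam)`; it is log-convex in `x ∈ [0,1]` (Hölder), with the value `P` at `x = 0` and `1` at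
`x = 1`. Other proof: `Q(x) = ∑_j q_j x^j`, `q_j = lam^(k+j)/((k+j)! fk k lam)`; `log Q` is convex iff
`Q Q'' ≥ Q'^2`.
-/

set_option autoImplicit false

namespace Pool.Agent.Helper50.RG

open Finset

private theorem anT_succ (j : ℕ) (x : ℝ) : fk j x = fk (j + 1) x + x ^ j / (j.factorial : ℝ) := by
  unfold fk
  rw [sum_range_succ]
  ring

private theorem anT_hasSum (j : ℕ) (x : ℝ) :
    HasSum (fun n : ℕ => x ^ (n + j) / ((n + j).factorial : ℝ)) (fk j x) := by
  have h := NormedSpace.expSeries_div_hasSum_exp (𝔸 := ℝ) x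
  rw [← Real.exp_eq_exp_ℝ] at h
  rw [hasSum_nat_add_iff (f := fun n : ℕ => x ^ n / (n.factorial : ℝ)) j]
  have e : fk j x + ∑ i ∈ range j, (fun n : ℕ => x ^ n / (n.factorial : ℝ)) i = Real.exp x := by
    unfold fk
    simp only [sub_add_cancel]
  rw [e]
  exact h

/-- the normalised series -/
private theorem anT_hasSum_div (j : ℕ) {x : ℝ} (hx : 0 < x) :
    HasSum (fun n : ℕ => (((n + j).factorial : ℝ))⁻¹ * x ^ n) (fk j x / x ^ j) := by
  have h := (anT_hasSum j x).div_const (x ^ j)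
  have e : (fun n : ℕ => x ^ (n + j) / ((n + j).factorial : ℝ) / x ^ j) =
      fun n : ℕ => (((n + j).factorial : ℝ))⁻¹ * x ^ n := by
    funext n
    rw [pow_add]
    field_simp
  rwa [e] at h

private theorem anT_cheb_fin (s : Finset ℕ) (w h : ℕ → ℝ) (hw : ∀ n, 0 ≤ w n) (hh : Monotone h)
    {x y : ℝ} (hx : 0 ≤ x) (hxy : x ≤ y) :
    (∑ n ∈ s, h n * (w n * x ^ n)) * (∑ n ∈ s, w n * y ^ n) ≤
      (∑ n ∈ s, h n * (w n * y ^ n)) * (∑ n ∈ s, w n * x ^ n) := by
  have hy : 0 ≤ y := hx.trans hxy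
  have hpow : ∀ m n : ℕ, m ≤ n → x ^ n * y ^ m ≤ x ^ m * y ^ n := by
    intro m n hmn
    obtain ⟨r, rfl⟩ := Nat.exists_eq_add_of_le hmn
    rw [pow_add, pow_add]
    calc x ^ m * x ^ r * y ^ m = (x ^ m * y ^ m) * x ^ r := by ring
      _ ≤ (x ^ m * y ^ m) * y ^ r :=
        mul_le_mul_of_nonneg_left (pow_le_pow_left₀ hx hxy r) (by positivity)
      _ = _ := by ring
  have key : ∀ m n : ℕ, (h m - h n) * (w m * w n * (x ^ m * y ^ n - x ^ n * y ^ m)) ≤ 0 := by
    intro m n
    have hww : 0 ≤ w m * w n := mul_nonneg (hw m) (hw n)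
    rcases le_total m n with hmn | hmn
    · exact mul_nonpos_of_nonpos_of_nonneg (sub_nonpos.2 (hh hmn))
        (mul_nonneg hww (sub_nonneg.2 (hpow m n hmn)))
    · exact mul_nonpos_of_nonneg_of_nonpos (sub_nonneg.2 (hh hmn))
        (mul_nonpos_of_nonneg_of_nonpos hww (sub_nonpos.2 (hpow n m hmn)))
  set T : ℝ := ∑ m ∈ s, ∑ n ∈ s, h m * (w m * w n * (x ^ m * y ^ n - x ^ n * y ^ m)) with hT
  have e1 : (∑ n ∈ s, h n * (w n * x ^ n)) * (∑ n ∈ s, w n * y ^ n) -
      (∑ n ∈ s, h n * (w n * y ^ n)) * (∑ n ∈ s, w n * x ^ n) = T := by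
    rw [sum_mul_sum, sum_mul_sum, ← sum_sub_distrib, hT]
    refine sum_congr rfl fun m _ => ?_
    rw [← sum_sub_distrib]
    refine sum_congr rfl fun n _ => ?_
    ring
  have e2 : T + T = ∑ m ∈ s, ∑ n ∈ s,
      (h m - h n) * (w m * w n * (x ^ m * y ^ n - x ^ n * y ^ m)) := by
    conv_lhs => rw [hT]
    conv_lhs =>
      arg 2
      rw [sum_comm]
    rw [← sum_add_distrib]
    refine sum_congr rfl fun m _ => ?_
    rw [← sum_add_distrib]
    refine sum_congr rfl fun n _ => ?_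
    ring
  have e3 : T + T ≤ 0 := by
    rw [e2]
    exact sum_nonpos fun m _ => sum_nonpos fun n _ => key m n
  linarith

private theorem anT_cheb (w h : ℕ → ℝ) (hw : ∀ n, 0 ≤ w n) (hh : Monotone h) {x y : ℝ}
    (hx : 0 ≤ x) (hxy : x ≤ y) {A B C D : ℝ} (hA : HasSum (fun n => h n * (w n * x ^ n)) A)
    (hB : HasSum (fun n => w n * x ^ n) B) (hC : HasSum (fun n => h n * (w n * y ^ n)) C)
    (hD : HasSum (fun n => w n * y ^ n) D) : A * D ≤ C * B :=
  le_of_tendsto_of_tendsto' (hA.tendsto_sum_nat.mul hD.tendsto_sum_nat)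
    (hC.tendsto_sum_nat.mul hB.tendsto_sum_nat) (fun N => anT_cheb_fin (range N) w h hw hh hx hxy)

theorem fk_hasDerivAt (j : ℕ) (x : ℝ) : HasDerivAt (fk (j + 1)) (fk j x) x := by
  have h1 : HasDerivAt (fun y : ℝ => ∑ i ∈ range (j + 1), y ^ i / (i.factorial : ℝ))
      (∑ i ∈ range j, x ^ i / (i.factorial : ℝ)) x := by
    have h2 : HasDerivAt (fun y : ℝ => ∑ i ∈ range (j + 1), y ^ i / (i.factorial : ℝ))
        (∑ i ∈ range (j + 1), ((i : ℝ) * x ^ (i - 1)) / (i.factorial : ℝ)) x :=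
      HasDerivAt.fun_sum fun i _ => (hasDerivAt_pow i x).div_const _
    convert h2 using 1
    rw [sum_range_succ']
    simp only [Nat.cast_zero, zero_mul, zero_div, add_zero, Nat.add_sub_cancel]
    refine sum_congr rfl fun i _ => ?_
    rw [Nat.factorial_succ]
    push_cast
    have : ((i : ℝ) + 1) ≠ 0 := by positivity
    field_simp
  exact (Real.hasDerivAt_exp x).sub h1

private theorem anT_zero (j : ℕ) : fk (j + 1) 0 = 0 := by
  unfold fk
  rw [sum_range_succ']
  simp

theorem fk_ratio_anti (j : ℕ) {x y : ℝ} (hx : 0 < x) (hxy : x ≤ y) :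
    fk j y / fk (j + 1) y ≤ fk j x / fk (j + 1) x := by
  have hy : 0 < y := hx.trans_le hxy
  have hX := fk_pos (j + 1) hx
  have hY := fk_pos (j + 1) hy
  have hfac : (0 : ℝ) < (j.factorial : ℝ) := by positivity
  -- `y^j fk (j+1) x ≤ x^j fk (j+1) y`
  have h1 : fk (j + 1) x / x ^ (j + 1) * x ≤ fk (j + 1) y / y ^ (j + 1) * y := by
    have hs1 := (anT_hasSum_div (j + 1) hx).mul_right x
    have hs2 := (anT_hasSum_div (j + 1) hy).mul_right y
    refine hasSum_le (fun n => ?_) hs1 hs2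
    rw [mul_assoc, mul_assoc]
    refine mul_le_mul_of_nonneg_left ?_ (by positivity)
    exact mul_le_mul (pow_le_pow_left₀ hx.le hxy n) hxy hx.le (by positivity)
  have h2 : fk (j + 1) x / x ^ j ≤ fk (j + 1) y / y ^ j := by
    have e1 : fk (j + 1) x / x ^ (j + 1) * x = fk (j + 1) x / x ^ j := by
      rw [pow_succ]; field_simp
    have e2 : fk (j + 1) y / y ^ (j + 1) * y = fk (j + 1) y / y ^ j := by
      rw [pow_succ]; field_simp
    rwa [e1, e2] at h1
  rw [div_le_div_iff₀ (by positivity) (by positivity)] at h2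
  rw [anT_succ j x, anT_succ j y, add_div, add_div, div_self hX.ne', div_self hY.ne']
  have h3 : y ^ j / (j.factorial : ℝ) / fk (j + 1) y ≤ x ^ j / (j.factorial : ℝ) / fk (j + 1) x := by
    rw [div_div, div_div, div_le_div_iff₀ (by positivity) (by positivity)]
    calc y ^ j * ((j.factorial : ℝ) * fk (j + 1) x) =
          (fk (j + 1) x * y ^ j) * (j.factorial : ℝ) := by ring
      _ ≤ (fk (j + 1) y * x ^ j) * (j.factorial : ℝ) := mul_le_mul_of_nonneg_right h2 hfac.le
      _ = _ := by ring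
  linarith

theorem fk_tangent (j : ℕ) {u₀ u : ℝ} (h₀ : 0 < u₀) (hu : 0 ≤ u) :
    fk (j + 1) u ≤ fk (j + 1) u₀ * Real.exp (fk j u₀ / fk (j + 1) u₀ * (u - u₀)) := by
  have hp0 := fk_pos (j + 1) h₀
  rcases hu.eq_or_lt with rfl | hu'
  · rw [anT_zero]
    positivity
  have hpu := fk_pos (j + 1) hu'
  set c : ℝ := fk j u₀ / fk (j + 1) u₀ with hc
  have hder : ∀ t : ℝ, 0 < t → HasDerivAt (fun t => Real.log (fk (j + 1) t) - c * t)
      (fk j t / fk (j + 1) t - c) t := by
    intro t ht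
    have h1 := (fk_hasDerivAt j t).log (fk_pos (j + 1) ht).ne'
    have h2 := (hasDerivAt_id t).const_mul c
    rw [mul_one] at h2
    exact h1.sub h2
  have hcont : ∀ a b : ℝ, 0 < a → ContinuousOn (fun t => Real.log (fk (j + 1) t) - c * t)
      (Set.Icc a b) := fun a b ha t ht =>
    (hder t (ha.trans_le ht.1)).continuousAt.continuousWithinAt
  have hmain : Real.log (fk (j + 1) u) - c * u ≤ Real.log (fk (j + 1) u₀) - c * u₀ := by
    rcases lt_trichotomy u u₀ with h | h | h
    · obtain ⟨ξ, hξ, he⟩ := exists_hasDerivAt_eq_slope _ _ h (hcont u u₀ hu')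
        (fun t ht => hder t (hu'.trans ht.1))
      have h1 : 0 ≤ fk j ξ / fk (j + 1) ξ - c :=
        sub_nonneg.2 (fk_ratio_anti j (hu'.trans hξ.1) hξ.2.le)
      rw [he] at h1
      have h2 : 0 < u₀ - u := by linarith
      have h3 := mul_nonneg h1 h2.le
      rw [div_mul_cancel₀ _ h2.ne'] at h3
      linarith
    · rw [h]
    · obtain ⟨ξ, hξ, he⟩ := exists_hasDerivAt_eq_slope _ _ h (hcont u₀ u h₀)
        (fun t ht => hder t (h₀.trans ht.1))
      have h1 : fk j ξ / fk (j + 1) ξ - c ≤ 0 :=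
        sub_nonpos.2 (fk_ratio_anti j h₀ hξ.1.le)
      rw [he] at h1
      have h2 : 0 < u - u₀ := by linarith
      have h3 := mul_nonpos_of_nonpos_of_nonneg h1 h2.le
      rw [div_mul_cancel₀ _ h2.ne'] at h3
      linarith
  rw [← Real.log_le_log_iff hpu (by positivity), Real.log_mul hp0.ne' (Real.exp_pos _).ne',
    Real.log_exp]
  linarith

/-- `x fk j x / fk (j+1) x` is monotone -/
theorem fk_mean_mono (j : ℕ) {x y : ℝ} (hx : 0 < x) (hxy : x ≤ y) :
    x * fk j x / fk (j + 1) x ≤ y * fk j y / fk (j + 1) y := by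
  have hy : 0 < y := hx.trans_le hxy
  have hX := fk_pos (j + 1) hx
  have hY := fk_pos (j + 1) hy
  have hmul : ∀ t : ℝ, 0 < t → HasSum (fun n : ℕ => ((n : ℝ) + (j + 1)) *
      ((((n + (j + 1)).factorial : ℝ))⁻¹ * t ^ n)) (fk j t / t ^ j) := by
    intro t ht
    have h1 := anT_hasSum_div j ht
    have e : (fun n : ℕ => (((n + j).factorial : ℝ))⁻¹ * t ^ n) =
        fun n : ℕ => ((n : ℝ) + (j + 1)) * ((((n + (j + 1)).factorial : ℝ))⁻¹ * t ^ n) := by
      funext n
      have e1 : ((n + (j + 1)).factorial : ℝ) = ((n : ℝ) + (j + 1)) * ((n + j).factorial : ℝ) := by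
        rw [← add_assoc, Nat.factorial_succ]
        push_cast
        ring
      have e2 : ((n : ℝ) + (j + 1)) ≠ 0 := by positivity
      rw [e1]
      field_simp
    rwa [e] at h1
  have hh : Monotone (fun n : ℕ => ((n : ℝ) + (j + 1))) := by
    intro a b hab
    have : (a : ℝ) ≤ b := by exact_mod_cast hab
    simp only
    linarith
  have key := anT_cheb (fun n : ℕ => (((n + (j + 1)).factorial : ℝ))⁻¹)
    (fun n : ℕ => ((n : ℝ) + (j + 1))) (fun n => by positivity) hh hx.le hxy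
    (hmul x hx) (anT_hasSum_div (j + 1) hx) (hmul y hy) (anT_hasSum_div (j + 1) hy)
  rw [div_le_div_iff₀ hX hY]
  have e1 : fk j x / x ^ j * (fk (j + 1) y / y ^ (j + 1)) =
      (x * fk j x * fk (j + 1) y) / (x ^ (j + 1) * y ^ (j + 1)) := by
    rw [pow_succ x]; field_simp
  have e2 : fk j y / y ^ j * (fk (j + 1) x / x ^ (j + 1)) =
      (y * fk j y * fk (j + 1) x) / (x ^ (j + 1) * y ^ (j + 1)) := by
    rw [pow_succ y]; field_simp
  rw [e1, e2] at key
  exact (div_le_div_iff_of_pos_right (by positivity)).1 key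

theorem fk_le_pow (j : ℕ) {x : ℝ} (hx : 0 ≤ x) :
    fk j x ≤ x ^ j / (j.factorial : ℝ) * Real.exp x := by
  have h1 := anT_hasSum j x
  have h2 := (NormedSpace.expSeries_div_hasSum_exp (𝔸 := ℝ) x).mul_left (x ^ j / (j.factorial : ℝ))
  rw [← Real.exp_eq_exp_ℝ] at h2
  refine hasSum_le (fun n => ?_) h1 h2
  rw [div_mul_div_comm, pow_add, mul_comm (x ^ n)]
  refine div_le_div_of_nonneg_left (by positivity) (by positivity) ?_
  have h3 : j.factorial * n.factorial ≤ (n + j).factorial := by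
    rw [mul_comm]
    exact Nat.le_of_dvd (Nat.factorial_pos _) (Nat.factorial_mul_factorial_dvd_factorial_add n j)
  exact_mod_cast h3

theorem fk_ge_pow (j : ℕ) {x : ℝ} (hx : 0 ≤ x) : x ^ j / (j.factorial : ℝ) ≤ fk j x := by
  rw [anT_succ j x]
  have := fk_nonneg (j + 1) hx
  linarith

private theorem anT_gk_aux (r : ℕ) {v : ℝ} (hv : 0 ≤ v) : ∀ k : ℕ, ∀ u : ℝ, 0 ≤ u →
    ∑ i ∈ range r, v ^ i / (i.factorial : ℝ) * fk (k - i) u ≤ fk k (u + v) := by
  intro k
  induction k with
  | zero =>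
    intro u hu
    have e0 : ∀ t, fk 0 t = Real.exp t := fun t => by simp [fk]
    simp only [Nat.zero_sub, e0]
    rw [← sum_mul, Real.exp_add, mul_comm]
    exact mul_le_mul_of_nonneg_left (Real.sum_le_exp_of_nonneg hv r) (Real.exp_pos u).le
  | succ k ih =>
    -- `G` is monotone
    have hd1 : ∀ t : ℝ, HasDerivAt (fun t => ∑ i ∈ range r, v ^ i / (i.factorial : ℝ) *
        fk (k + 1 - i) t) (∑ i ∈ range r, v ^ i / (i.factorial : ℝ) * fk (k - i) t) t := by
      intro t
      refine HasDerivAt.fun_sum fun i _ => HasDerivAt.const_mul _ ?_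
      rcases Nat.lt_or_ge k i with h | h
      · have e1 : k + 1 - i = 0 := by omega
        have e2 : k - i = 0 := by omega
        rw [e1, e2]
        have e0 : fk 0 = Real.exp := by funext s; simp [fk]
        rw [e0]
        exact Real.hasDerivAt_exp t
      · have e1 : k + 1 - i = (k - i) + 1 := by omega
        rw [e1]
        exact fk_hasDerivAt (k - i) t
    have hd2 : ∀ t : ℝ, HasDerivAt (fun t => fk (k + 1) (t + v)) (fk k (t + v)) t := by
      intro t
      exact (fk_hasDerivAt k (t + v)).comp_add_const t v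
    have hmono : MonotoneOn (fun t => fk (k + 1) (t + v) - ∑ i ∈ range r,
        v ^ i / (i.factorial : ℝ) * fk (k + 1 - i) t) (Set.Ici 0) := by
      refine monotoneOn_of_hasDerivWithinAt_nonneg (convex_Ici 0)
        (f' := fun t => fk k (t + v) - ∑ i ∈ range r, v ^ i / (i.factorial : ℝ) * fk (k - i) t)
        (fun t _ => ((hd2 t).sub (hd1 t)).continuousAt.continuousWithinAt) ?_ ?_
      · intro t _
        exact ((hd2 t).sub (hd1 t)).hasDerivWithinAt
      · intro t ht
        rw [interior_Ici] at ht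
        exact sub_nonneg.2 (ih t (le_of_lt ht))
    intro u hu
    have h1 := hmono (Set.mem_Ici.2 le_rfl) (Set.mem_Ici.2 hu) hu
    simp only [zero_add] at h1
    -- at `0`
    have h0 : ∑ i ∈ range r, v ^ i / (i.factorial : ℝ) * fk (k + 1 - i) 0 ≤ fk (k + 1) v := by
      have e1 : ∀ i ∈ range r, v ^ i / (i.factorial : ℝ) * fk (k + 1 - i) 0 =
          if k + 1 ≤ i then v ^ i / (i.factorial : ℝ) else 0 := by
        intro i _
        split_ifs with h
        · have : k + 1 - i = 0 := by omega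
          rw [this]
          simp [fk]
        · have : k + 1 - i = (k - i) + 1 := by omega
          rw [this, anT_zero, mul_zero]
      rw [sum_congr rfl e1, ← sum_filter]
      have hdisj : Disjoint ((range r).filter (fun i => k + 1 ≤ i)) (range (k + 1)) := by
        rw [Finset.disjoint_left]
        intro i hi hi'
        rw [mem_filter] at hi
        rw [mem_range] at hi'
        omega
      have hsub : (range r).filter (fun i => k + 1 ≤ i) ∪ range (k + 1) ⊆ range (r + (k + 1)) := by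
        intro i hi
        rw [mem_union, mem_filter, mem_range, mem_range] at hi
        rw [mem_range]
        omega
      have h2 := sum_le_sum_of_subset_of_nonneg (f := fun i => v ^ i / (i.factorial : ℝ)) hsub
        (fun i _ _ => by positivity)
      rw [sum_union hdisj] at h2
      have h3 := Real.sum_le_exp_of_nonneg hv (r + (k + 1))
      unfold fk
      linarith
    linarith

theorem gk_le_fk (d : ℕ) {u v : ℝ} (hu : 0 ≤ u) (hv : 0 ≤ v) : gk d u v ≤ fk (d + 1) (u + v) :=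
  anT_gk_aux d hv (d + 1) u hu

/-- the second series: `∑ (n+1) y^n/(n+k+1)!` -/
private theorem anT_hasSum_snd (k : ℕ) {y : ℝ} (hy : 0 < y) :
    HasSum (fun n : ℕ => (((n : ℝ) + 1) / ((n : ℝ) + k + 1)) *
      ((((n + k).factorial : ℝ))⁻¹ * y ^ n))
      (fk k y / y ^ k - k * (fk (k + 1) y / y ^ (k + 1))) := by
  have h1 := (anT_hasSum_div k hy).sub ((anT_hasSum_div (k + 1) hy).mul_left (k : ℝ))
  have e : (fun n : ℕ => (((n + k).factorial : ℝ))⁻¹ * y ^ n -
      (k : ℝ) * ((((n + (k + 1)).factorial : ℝ))⁻¹ * y ^ n)) =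
      fun n : ℕ => (((n : ℝ) + 1) / ((n : ℝ) + k + 1)) * ((((n + k).factorial : ℝ))⁻¹ * y ^ n) := by
    funext n
    have e1 : ((n + (k + 1)).factorial : ℝ) = ((n : ℝ) + k + 1) * ((n + k).factorial : ℝ) := by
      rw [← add_assoc, Nat.factorial_succ]
      push_cast
      ring
    have e2 : ((n : ℝ) + k + 1) ≠ 0 := by positivity
    rw [e1]
    field_simp
    ring
  rwa [e] at h1

/-- the derivative of the first series -/
private theorem anT_hasDerivAt (k : ℕ) {y : ℝ} (hy : 0 < y) :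
    HasDerivAt (fun y => fk k y / y ^ k)
      (fk k y / y ^ k - k * (fk (k + 1) y / y ^ (k + 1))) y := by
  have h1 : HasDerivAt (fun y => fk (k + 1) y / y ^ k + 1 / (k.factorial : ℝ))
      (fk k y / y ^ k - k * (fk (k + 1) y / y ^ (k + 1))) y := by
    refine HasDerivAt.add_const _ ?_
    have h2 := (fk_hasDerivAt k y).div (hasDerivAt_pow k y) (by positivity)
    refine h2.congr_deriv ?_
    rcases Nat.eq_zero_or_pos k with rfl | hk
    · simp
    · obtain ⟨k', rfl⟩ : ∃ k', k = k' + 1 := ⟨k - 1, by omega⟩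
      simp only [Nat.add_sub_cancel, pow_succ]
      field_simp
  refine h1.congr_of_eventuallyEq ?_
  filter_upwards [lt_mem_nhds hy] with t ht
  have ht0 : 0 < t := ht
  rw [anT_succ k t, add_div]
  congr 1
  field_simp

private theorem anT_mono (k : ℕ) {x y : ℝ} (hx : 0 < x) (hxy : x ≤ y) :
    (fk k x / x ^ k - k * (fk (k + 1) x / x ^ (k + 1))) / (fk k x / x ^ k) ≤
      (fk k y / y ^ k - k * (fk (k + 1) y / y ^ (k + 1))) / (fk k y / y ^ k) := by
  have hy : 0 < y := hx.trans_le hxy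
  have hX := fk_pos k hx
  have hY := fk_pos k hy
  have hh : Monotone (fun n : ℕ => (((n : ℝ) + 1) / ((n : ℝ) + k + 1))) := by
    refine monotone_nat_of_le_succ fun n => ?_
    push_cast
    rw [div_le_div_iff₀ (by positivity) (by positivity)]
    have hk : (0 : ℝ) ≤ k := by positivity
    nlinarith
  have key := anT_cheb (fun n : ℕ => (((n + k).factorial : ℝ))⁻¹)
    (fun n : ℕ => (((n : ℝ) + 1) / ((n : ℝ) + k + 1))) (fun n => by positivity) hh hx.le hxy
    (anT_hasSum_snd k hx) (anT_hasSum_div k hx) (anT_hasSum_snd k hy) (anT_hasSum_div k hy)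
  rwa [div_le_div_iff₀ (by positivity) (by positivity)]

theorem fk_moment (k : ℕ) {lam x : ℝ} (hl : 0 < lam) (hx : 0 < x) (hx1 : x ≤ 1) :
    fk k (x * lam) ≤ x ^ k * fk k lam *
      (lam ^ k / ((k.factorial : ℝ) * fk k lam)) ^ (1 - x) := by
  have hL := fk_pos k hl
  have hfac : (0 : ℝ) < (k.factorial : ℝ) := by positivity
  rcases hx1.eq_or_lt with rfl | hx1'
  · simp
  set y₀ : ℝ := x * lam with hy₀
  have hy0 : 0 < y₀ := by positivity
  have hyl : y₀ < lam := by
    have := mul_lt_mul_of_pos_right hx1' hl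
    linarith
  have hY := fk_pos k hy0
  -- `f = log Ψ`
  set f : ℝ → ℝ := fun y => Real.log (fk k y / y ^ k) with hf
  set g : ℝ → ℝ := fun y => (fk k y / y ^ k - k * (fk (k + 1) y / y ^ (k + 1))) / (fk k y / y ^ k)
    with hg
  have hder : ∀ t : ℝ, 0 < t → HasDerivAt f (g t) t := by
    intro t ht
    have := fk_pos k ht
    exact (anT_hasDerivAt k ht).log (by positivity)
  have hcont : ∀ a b : ℝ, 0 < a → ContinuousOn f (Set.Icc a b) := fun a b ha t ht =>
    (hder t (ha.trans_le ht.1)).continuousAt.continuousWithinAt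
  have hup : f y₀ + g y₀ * (lam - y₀) ≤ f lam := by
    obtain ⟨ξ, hξ, he⟩ := exists_hasDerivAt_eq_slope _ _ hyl (hcont y₀ lam hy0)
      (fun t ht => hder t (hy0.trans ht.1))
    have h1 : g y₀ ≤ g ξ := anT_mono k hy0 hξ.1.le
    rw [he] at h1
    have h2 : 0 < lam - y₀ := by linarith
    rw [le_div_iff₀ h2] at h1
    linarith
  have hlow : ∀ ε : ℝ, 0 < ε → ε < y₀ → f y₀ ≤ f ε + g y₀ * (y₀ - ε) := by
    intro ε hε hεy
    obtain ⟨ξ, hξ, he⟩ := exists_hasDerivAt_eq_slope _ _ hεy (hcont ε y₀ hε)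
      (fun t ht => hder t (hε.trans ht.1))
    have h1 : g ξ ≤ g y₀ := anT_mono k (hε.trans hξ.1) hξ.2.le
    rw [he] at h1
    have h2 : 0 < y₀ - ε := by linarith
    rw [div_le_iff₀ h2] at h1
    linarith
  have hfε : ∀ ε : ℝ, 0 < ε → f ε ≤ Real.log (1 / (k.factorial : ℝ)) + ε := by
    intro ε hε
    have h1 := fk_le_pow k hε.le
    have h2 := fk_pos k hε
    have h3 : fk k ε / ε ^ k ≤ 1 / (k.factorial : ℝ) * Real.exp ε := by
      rw [div_le_iff₀ (by positivity)]
      calc fk k ε ≤ ε ^ k / (k.factorial : ℝ) * Real.exp ε := h1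
        _ = _ := by ring
    have h4 := Real.log_le_log (by positivity) h3
    rwa [Real.log_mul (by positivity) (Real.exp_pos _).ne', Real.log_exp] at h4
  have hlow0 : f y₀ ≤ Real.log (1 / (k.factorial : ℝ)) + g y₀ * y₀ := by
    refine le_of_forall_pos_le_add fun δ hδ => ?_
    -- choose ε small
    set ε : ℝ := min (y₀ / 2) (δ / (1 + |g y₀|)) with hε
    have hε0 : 0 < ε := by positivity
    have hε1 : ε < y₀ := lt_of_le_of_lt (min_le_left _ _) (by linarith)
    have h1 := hlow ε hε0 hε1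
    have h2 := hfε ε hε0
    have h3 : ε * (1 + |g y₀|) ≤ δ := by
      rw [← le_div_iff₀ (by positivity)]
      exact min_le_right _ _
    have h4 : -(g y₀ * ε) ≤ |g y₀| * ε := by
      have := neg_abs_le (g y₀)
      nlinarith
    nlinarith
  have hmain : f y₀ ≤ f lam + (1 - x) * (Real.log (1 / (k.factorial : ℝ)) - f lam) := by
    have h1 : (1 - x) * f y₀ ≤ (1 - x) * (Real.log (1 / (k.factorial : ℝ)) + g y₀ * y₀) :=
      mul_le_mul_of_nonneg_left hlow0 (by linarith)
    have h2 : x * (f y₀ + g y₀ * (lam - y₀)) ≤ x * f lam :=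
      mul_le_mul_of_nonneg_left hup hx.le
    have h3 : (1 - x) * (g y₀ * y₀) = x * (g y₀ * (lam - y₀)) := by
      rw [hy₀]; ring
    nlinarith
  -- conclusion
  have hP : lam ^ k / ((k.factorial : ℝ) * fk k lam) =
      Real.exp (Real.log (1 / (k.factorial : ℝ)) - f lam) := by
    rw [Real.exp_sub, Real.exp_log (by positivity), hf]
    simp only
    rw [Real.exp_log (by positivity)]
    field_simp
  rw [hP, ← Real.exp_mul]
  have hfy : fk k y₀ = y₀ ^ k * Real.exp (f y₀) := by
    rw [hf]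
    simp only
    rw [Real.exp_log (by positivity)]
    field_simp
  have hfl : fk k lam = lam ^ k * Real.exp (f lam) := by
    rw [hf]
    simp only
    rw [Real.exp_log (by positivity)]
    field_simp
  rw [hfy]
  calc y₀ ^ k * Real.exp (f y₀) ≤ y₀ ^ k *
        Real.exp (f lam + (1 - x) * (Real.log (1 / (k.factorial : ℝ)) - f lam)) :=
        mul_le_mul_of_nonneg_left (Real.exp_le_exp.2 hmain) (by positivity)
    _ = x ^ k * (lam ^ k * Real.exp (f lam)) *
        Real.exp ((Real.log (1 / (k.factorial : ℝ)) - f lam) * (1 - x)) := by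
      rw [Real.exp_add, hy₀, mul_pow, mul_comm (1 - x)]
      ring
    _ = _ := by rw [← hfl]

end Pool.Agent.Helper50.RG
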