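import Pool.Agent.Helper50.RG.RkM

/-!
# RG-5 : 0-extensions and 1-extensions

Let `v` be a vertex which is in no edge of `E`.

`rk_star`: take the generic placement `p` (`exists_generic`), the `|T| ≤ d` vectors `p v - p w`,
`w ∈ T` are linearly independent (`GP`), and the rows of `E` vanish at `v`.

`rk_star_succ`: `T.card = d + 1`, `x ≠ y` in `T`, and the pair `x y` is not in the closure of `E`.
Take a generic placement `p` (for `P`: choose it such that what follows works, or note that it is
enough to find one placement with rank at least `rk E + d + 1`, as `rk` is the maximum): start from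
a `p` with `GP` and all ranks equal to `rk`, and change only `p v` to
`z = p x + c (p y - p x)` with `c ≠ 0, 1` (`F` is infinite). The rows of `E` do not change. The
vectors `z - p x`, and `z - p w` for `w ∈ T`, `w ≠ x, y` are linearly independent (`z` is on the
line through `p x` and `p y`, and the points of `T` are affinely independent by `GP`), so these `d`
rows have rank `d` modulo the vectors which vanish at `v`. A linear combination of the rows of
`v x` and `v y` vanishes at `v` and is a non-zero multiple of the row of `x y`. Hence the rank is at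
least `rk (insert s(x, y) E) + d = rk E + 1 + d`.
-/

set_option autoImplicit false

namespace Pool.Agent.Helper50.RG

open Finset

variable {V : Type} [Fintype V] [DecidableEq V] {F : Type} [Field F] [Infinite F] {d : ℕ}
  {E : Finset (Sym2 V)}

omit [Fintype V] [Infinite F] in
private theorem RkX_row_mk (p : V → Fin d → F) (a b : V) :
    row p s(a, b) = Pi.single a (p a - p b) + Pi.single b (p b - p a) := rfl

omit [Fintype V] [Infinite F] in
private theorem RkX_row_zero (p : V → Fin d → F) {e : Sym2 V} {v : V} (h : v ∉ e) :
    row p e v = 0 := by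
  induction e using Sym2.ind with
  | _ a b =>
    rw [Sym2.mem_iff, not_or] at h
    rw [RkX_row_mk, Pi.add_apply, Pi.single_eq_of_ne h.1, Pi.single_eq_of_ne h.2, add_zero]

omit [Fintype V] [Infinite F] in
private theorem RkX_row_update (p : V → Fin d → F) {e : Sym2 V} {v : V} (h : v ∉ e)
    (z : Fin d → F) : row (Function.update p v z) e = row p e := by
  induction e using Sym2.ind with
  | _ a b =>
    rw [Sym2.mem_iff, not_or] at h
    rw [RkX_row_mk, RkX_row_mk, Function.update_of_ne (Ne.symm h.1),
      Function.update_of_ne (Ne.symm h.2)]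

omit [Infinite F] in
private theorem RkX_finrank {M N : Type} [AddCommGroup M] [Module F M] [AddCommGroup N]
    [Module F N] [FiniteDimensional F M] [FiniteDimensional F N] (π : M →ₗ[F] N)
    {W U : Submodule F M} {Q : Submodule F N} (hU : U ≤ W) (hk : U ≤ LinearMap.ker π)
    (hQ : Q ≤ W.map π) :
    Module.finrank F U + Module.finrank F Q ≤ Module.finrank F W := by
  have h1 := LinearMap.finrank_range_add_finrank_ker (π.domRestrict W)
  have h2 : LinearMap.range (π.domRestrict W) = W.map π := LinearMap.range_domRestrict _ _
  have h3 : Module.finrank F (U.comap W.subtype) = Module.finrank F U :=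
    (Submodule.comapSubtypeEquivOfLe hU).finrank_eq
  have h4 : U.comap W.subtype ≤ LinearMap.ker (π.domRestrict W) := by
    intro x hx
    rw [LinearMap.mem_ker, LinearMap.domRestrict_apply]
    exact LinearMap.mem_ker.1 (hk hx)
  have h5 := Submodule.finrank_mono h4
  have h6 := Submodule.finrank_mono hQ
  rw [h2] at h1
  omega

omit [Infinite F] in
/-- the span of the rows of a larger set, seen from a vertex -/
private theorem RkX_lower (p : V → Fin d → F) {v : V} {E' G : Finset (Sym2 V)}
    {U : Submodule F (V → Fin d → F)} {Q : Submodule F (Fin d → F)}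
    (hE' : U = Submodule.span F (row p '' (E' : Set (Sym2 V))))
    (hv : ∀ e ∈ E', v ∉ e)
    (hU : U ≤ Submodule.span F (row p '' (G : Set (Sym2 V))))
    (hQ : Q ≤ (Submodule.span F (row p '' (G : Set (Sym2 V)))).map
      (LinearMap.proj v : (V → Fin d → F) →ₗ[F] (Fin d → F))) :
    Module.finrank F U + Module.finrank F Q ≤ rkAt p G := by
  unfold rkAt
  refine RkX_finrank (LinearMap.proj v : (V → Fin d → F) →ₗ[F] (Fin d → F)) hU ?_ hQ
  rw [hE', Submodule.span_le]
  rintro _ ⟨e, he, rfl⟩
  rw [SetLike.mem_coe, LinearMap.mem_ker, LinearMap.proj_apply]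
  exact RkX_row_zero p (hv e he)

omit [Infinite F] in
private theorem RkX_mem_map (p : V → Fin d → F) {v w : V} {G : Finset (Sym2 V)} (hvw : v ≠ w)
    (h : s(v, w) ∈ G) : p v - p w ∈ (Submodule.span F (row p '' (G : Set (Sym2 V)))).map
      (LinearMap.proj v : (V → Fin d → F) →ₗ[F] (Fin d → F)) := by
  refine ⟨row p s(v, w), Submodule.subset_span ⟨_, h, rfl⟩, ?_⟩
  rw [LinearMap.proj_apply, RkX_row_mk, Pi.add_apply, Pi.single_eq_same,
    Pi.single_eq_of_ne hvw, add_zero]

theorem rk_star {v : V} {T : Finset V} (hv : ∀ e ∈ E, v ∉ e) (hT : v ∉ T) (hc : T.card ≤ d) :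
    rk F d (E ∪ star v T) = rk F d E + T.card := by
  refine le_antisymm ?_ ?_
  · refine (rk_union_le E (star v T)).trans ?_
    exact Nat.add_le_add_left card_image_le _
  · obtain ⟨p, -, hGP, hrk⟩ := exists_generic (V := V) F d 1 one_ne_zero
    rw [← hrk E, ← hrk (E ∪ star v T)]
    have haff : AffI p (insert v T) := hGP _ ((card_insert_le v T).trans (by omega))
    unfold AffI at haff
    have hcard : Fintype.card (insert v T : Finset V) = T.card + 1 := by
      rw [Fintype.card_coe, card_insert_of_notMem hT]
    have hfr := haff.finrank_vectorSpan hcard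
    rw [← hfr]
    refine RkX_lower p (v := v) (E' := E) rfl hv
      (Submodule.span_mono (Set.image_mono (by
        rw [coe_union]; exact Set.subset_union_left))) ?_
    rw [vectorSpan_range_eq_span_range_vsub_right F _
      (⟨v, mem_insert_self v T⟩ : (insert v T : Finset V)), Submodule.span_le]
    rintro _ ⟨⟨w, hw⟩, rfl⟩
    simp only [vsub_eq_sub]
    rcases mem_insert.1 hw with rfl | hwT
    · rw [sub_self]
      exact Submodule.zero_mem _
    · have hvw : v ≠ w := fun h => hT (h ▸ hwT)
      rw [← neg_sub]
      refine Submodule.neg_mem _ (RkX_mem_map p hvw ?_)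
      exact mem_union_right _ (mem_image_of_mem _ hwT)

theorem rk_star_succ {v : V} {T : Finset V} (hv : ∀ e ∈ E, v ∉ e) (hT : v ∉ T)
    (hc : T.card = d + 1) {x y : V} (hx : x ∈ T) (hy : y ∈ T) (hxy : x ≠ y)
    (hcl : ¬ Cl F d E s(x, y)) :
    rk F d (E ∪ star v T) = rk F d E + (d + 1) := by
  refine le_antisymm ?_ ?_
  · refine (rk_union_le E (star v T)).trans ?_
    rw [← hc]
    exact Nat.add_le_add_left card_image_le _
  · have hins : rk F d (insert s(x, y) E) = rk F d E + 1 := by
      have h1 := rk_insert_le (F := F) (d := d) s(x, y) E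
      have h2 : rk F d E ≤ rk F d (insert s(x, y) E) := rk_mono (subset_insert _ _)
      have h3 : rk F d (insert s(x, y) E) ≠ rk F d E := hcl
      omega
    obtain ⟨p, -, hGP, hrk⟩ := exists_generic (V := V) F d 1 one_ne_zero
    have hvx : v ≠ x := fun h => hT (h ▸ hx)
    have hvy : v ≠ y := fun h => hT (h ▸ hy)
    obtain ⟨c, hc0⟩ := Set.Infinite.nonempty
      (Set.Infinite.sdiff (Set.infinite_univ (α := F)) (Set.toFinite ({0, 1} : Set F)))
    have hc1 : c ≠ 0 := fun h => hc0.2 (by simp [h])
    have hc2 : c - 1 ≠ 0 := fun h => hc0.2 (by simp [sub_eq_zero.1 h])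
    set z : Fin d → F := p x + c • (p y - p x) with hz
    set q : V → Fin d → F := Function.update p v z with hq
    have hqv : q v = z := Function.update_self _ _ _
    have hqn : ∀ w, w ≠ v → q w = p w := fun w hw => Function.update_of_ne hw _ _
    refine le_trans ?_ (rkAt_le_rk q (E ∪ star v T))
    have haff : AffI p T := hGP _ hc.le
    unfold AffI at haff
    have hcard : Fintype.card (T : Finset V) = d + 1 := by
      rw [Fintype.card_coe, hc]
    have hfr := haff.finrank_vectorSpan hcard
    have hvE' : ∀ e ∈ insert s(x, y) E, v ∉ e := by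
      intro e he
      rcases mem_insert.1 he with rfl | he
      · rw [Sym2.mem_iff, not_or]
        exact ⟨hvx, hvy⟩
      · exact hv e he
    have hrows : ∀ E' : Finset (Sym2 V), (∀ e ∈ E', v ∉ e) →
        row q '' (E' : Set (Sym2 V)) = row p '' (E' : Set (Sym2 V)) := by
      intro E' hE'
      refine Set.image_congr fun e he => ?_
      exact RkX_row_update p (hE' e he) z
    have hmem : ∀ w ∈ T, row q s(v, w) ∈
        Submodule.span F (row q '' ((E ∪ star v T : Finset (Sym2 V)) : Set (Sym2 V))) := by
      intro w hw
      exact Submodule.subset_span ⟨_, mem_union_right _ (mem_image_of_mem _ hw), rfl⟩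
    have hrow : row q s(x, y) = c⁻¹ • row q s(v, x) - (c - 1)⁻¹ • row q s(v, y) := by
      rw [RkX_row_mk, RkX_row_mk, RkX_row_mk, hqv, hqn x hvx.symm, hqn y hvy.symm]
      have e1 : z - p x = c • (p y - p x) := by rw [hz]; abel
      have e2 : z - p y = (c - 1) • (p y - p x) := by rw [hz, sub_smul, one_smul]; abel
      have e3 : p x - z = -(c • (p y - p x)) := by rw [← e1]; abel
      have e4 : p y - z = -((c - 1) • (p y - p x)) := by rw [← e2]; abel
      rw [e1, e2, e3, e4]
      rw [smul_add, smul_add, ← Pi.single_smul, ← Pi.single_smul, ← Pi.single_smul,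
        ← Pi.single_smul, smul_neg, smul_neg, smul_smul, smul_smul, inv_mul_cancel₀ hc1,
        inv_mul_cancel₀ hc2, one_smul, ← neg_sub (p y) (p x), Pi.single_neg, Pi.single_neg]
      abel
    have hkey := RkX_lower q (v := v) (E' := insert s(x, y) E) (G := E ∪ star v T) (Q := vectorSpan F
      (Set.range fun w : T => p (w : V))) rfl hvE' ?_ ?_
    · have h7 : Module.finrank F
          (Submodule.span F (row q '' ((insert s(x, y) E : Finset (Sym2 V)) : Set (Sym2 V))))
          = rk F d E + 1 := by
        rw [hrows _ hvE', ← hins, ← hrk (insert s(x, y) E)]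
        rfl
      rw [h7, hfr] at hkey
      omega
    · rw [Submodule.span_le]
      rintro _ ⟨e, he, rfl⟩
      rw [mem_coe, mem_insert] at he
      rcases he with rfl | he
      · rw [SetLike.mem_coe, hrow]
        exact Submodule.sub_mem _ (Submodule.smul_mem _ _ (hmem x hx))
          (Submodule.smul_mem _ _ (hmem y hy))
      · exact Submodule.subset_span ⟨e, mem_coe.2 (mem_union_left _ he), rfl⟩
    · rw [vectorSpan_range_eq_span_range_vsub_right F _ (⟨x, hx⟩ : T), Submodule.span_le]
      have hm : ∀ w ∈ T, z - p w ∈ (Submodule.span F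
          (row q '' ((E ∪ star v T : Finset (Sym2 V)) : Set (Sym2 V)))).map
          (LinearMap.proj v : (V → Fin d → F) →ₗ[F] (Fin d → F)) := by
        intro w hw
        have hvw : v ≠ w := fun h => hT (h ▸ hw)
        have := RkX_mem_map q (G := E ∪ star v T) hvw
          (mem_union_right _ (mem_image_of_mem _ hw))
        rwa [hqv, hqn w hvw.symm] at this
      rintro _ ⟨⟨w, hw⟩, rfl⟩
      simp only [vsub_eq_sub]
      have e5 : p w - p x = (z - p x) - (z - p w) := by abel
      rw [e5]
      exact Submodule.sub_mem _ (hm x hx) (hm w hw)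

/-- restriction: a star with at most `d` leaves does not change the closure on the rest -/
theorem cl_restrict {v : V} {T : Finset V} (hv : ∀ e ∈ E, v ∉ e) (hT : v ∉ T) (hc : T.card ≤ d)
    {e : Sym2 V} (he : v ∉ e) (h : Cl F d (E ∪ star v T) e) : Cl F d E e := by
  unfold Cl at *
  have h1 : rk F d (E ∪ star v T) = rk F d E + T.card := rk_star hv hT hc
  have h2 : rk F d (insert e E ∪ star v T) = rk F d (insert e E) + T.card := by
    refine rk_star ?_ hT hc
    intro f hf
    rcases mem_insert.1 hf with rfl | hf
    · exact he
    · exact hv f hf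
  rw [insert_union] at h2
  omega

end Pool.Agent.Helper50.RG
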