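import Pool.Agent.Helper50.RG.RkM
import Pool.Agent.Helper50.RG.RkX

/-!
# RG-6 : complete graphs; trivial motions

Let `(2 : F) ≠ 0`. A trivial motion is `v ↦ S (p v) + t` with `S` alternating
(`x ⬝ S x = 0` for all `x`), the space of the pairs `(S, t)` has dimension `KK d`.

Key computation (K): let `A` contain `d + 1` points `x_0, …, x_d` with `p x_i` affinely independent,
and let `m` be a motion of `Kn A`. There is a unique affine map `x ↦ S x + t` with
`m x_i = S (p x_i) + t`. The equations of the pairs `x_i x_j` say that the quadratic form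
`q(x) = x ⬝ S x` vanishes at `y_i = p x_i - p x_0` and at `y_i - y_j`, so, as `2 ≠ 0`, its symmetric
bilinear form vanishes on the basis `y_i`, so `S` is alternating. For `w ∈ A` the vector
`m w - S (p w) - t` is orthogonal to `p w - p x_i` for all `i`, hence to all differences
`p x_i - p x_0`, so it is zero. So motions of `Kn A` restricted to `A` form a space of dimension at
most `KK d` (exactly `KK d`, as the restriction of `(S, t)` to `A` is injective).

`finrank_mot`: the motions of `E` are the vectors orthogonal to the rows.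

`rk_Kn`: for `d + 1 ≤ card A` take `p` with `GP`: the motions of `Kn A` as functions on `V` have
dimension `KK d + d * card (V \ A)`. For `card A ≤ d + 1` all rows of `Kn A` are independent by
0-extensions (`rk_star` of RG-5, or directly from `GP`: order the vertices); for `card A = d` this
gives `d (d-1) / 2 = d * d - KK d`.

`exists_motion_zero_on`: the restriction to `W` maps the motions of `E ∪ Kn W` (dimension
`d * card V - rkAt > KK d`) to the space of dimension `≤ KK d` of (K); take `m ≠ 0` in the kernel.

`motion_eq_zero`: the motions of `Kn A ∪ E` have dimension `KK d` by the rank hypothesis; the trivial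
motions have dimension `KK d` (`GP p`, `d ≤ card V`), so all motions are trivial; a trivial motion
`S x + t` which vanishes at `d` affinely independent points is zero: after subtracting, `S` vanishes
on a subspace of dimension `d - 1`, so the alternating form `x ⬝ S y` has rank at most `1`, hence `0`.
-/

set_option autoImplicit false

namespace Pool.Agent.Helper50.RG

open Finset

variable {V : Type} [Fintype V] [DecidableEq V] {F : Type} [Field F] {d : ℕ}

/-- the space of motions -/
def motSp (p : V → Fin d → F) (E : Finset (Sym2 V)) : Submodule F (V → Fin d → F) where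
  carrier := {m | Mot p m E}
  add_mem' := by
    intro a b ha hb u v huv
    have h1 := ha u v huv
    have h2 := hb u v huv
    unfold Sat at *
    calc ∑ i, (p u i - p v i) * ((a + b) u i - (a + b) v i)
        = ∑ i, (p u i - p v i) * (a u i - a v i) + ∑ i, (p u i - p v i) * (b u i - b v i) := by
          rw [← Finset.sum_add_distrib]
          exact Finset.sum_congr rfl fun i _ => by simp only [Pi.add_apply]; ring
      _ = 0 := by rw [h1, h2, add_zero]
  zero_mem' := by
    intro u v _
    simp [Sat]
  smul_mem' := by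
    intro c a ha u v huv
    have h1 := ha u v huv
    unfold Sat at *
    calc ∑ i, (p u i - p v i) * ((c • a) u i - (c • a) v i)
        = c * ∑ i, (p u i - p v i) * (a u i - a v i) := by
          rw [Finset.mul_sum]
          exact Finset.sum_congr rfl fun i _ => by simp only [Pi.smul_apply, smul_eq_mul]; ring
      _ = 0 := by rw [h1, mul_zero]

namespace KnAux

/-- the dot product of two configurations -/
def dotB (V F : Type) [Fintype V] [Field F] (d : ℕ) :
    LinearMap.BilinForm F (V → Fin d → F) :=
  LinearMap.mk₂ F (fun a b => ∑ v, ∑ i, a v i * b v i)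
    (fun a a' b => by
      rw [← Finset.sum_add_distrib]
      refine Finset.sum_congr rfl fun v _ => ?_
      rw [← Finset.sum_add_distrib]
      exact Finset.sum_congr rfl fun i _ => by simp only [Pi.add_apply]; ring)
    (fun c a b => by
      rw [smul_eq_mul, Finset.mul_sum]
      refine Finset.sum_congr rfl fun v _ => ?_
      rw [Finset.mul_sum]
      exact Finset.sum_congr rfl fun i _ => by simp only [Pi.smul_apply, smul_eq_mul]; ring)
    (fun a b b' => by
      rw [← Finset.sum_add_distrib]
      refine Finset.sum_congr rfl fun v _ => ?_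
      rw [← Finset.sum_add_distrib]
      exact Finset.sum_congr rfl fun i _ => by simp only [Pi.add_apply]; ring)
    (fun c a b => by
      rw [smul_eq_mul, Finset.mul_sum]
      refine Finset.sum_congr rfl fun v _ => ?_
      rw [Finset.mul_sum]
      exact Finset.sum_congr rfl fun i _ => by simp only [Pi.smul_apply, smul_eq_mul]; ring)

theorem dotB_apply (a b : V → Fin d → F) : dotB V F d a b = ∑ v, ∑ i, a v i * b v i := rfl

theorem dotB_single (u : V) (x : Fin d → F) (b : V → Fin d → F) :
    dotB V F d (Pi.single u x) b = ∑ i, x i * b u i := by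
  rw [dotB_apply, Finset.sum_eq_single u]
  · simp
  · intro v _ hv
    rw [Pi.single_eq_of_ne hv]
    simp
  · intro h
    exact absurd (Finset.mem_univ u) h

theorem dotB_comm (a b : V → Fin d → F) : dotB V F d a b = dotB V F d b a := by
  rw [dotB_apply, dotB_apply]
  exact Finset.sum_congr rfl fun v _ => Finset.sum_congr rfl fun i _ => mul_comm _ _

theorem dotB_sep (b : V → Fin d → F) (h : ∀ a, dotB V F d a b = 0) : b = 0 := by
  funext u i
  have h1 := h (Pi.single u (Pi.single i 1))
  rw [dotB_single, Finset.sum_eq_single i] at h1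
  · simpa using h1
  · intro j _ hj
    rw [Pi.single_eq_of_ne hj, zero_mul]
  · intro hi
    exact absurd (Finset.mem_univ i) hi

theorem dotB_nondeg : (dotB V F d).Nondegenerate := by
  constructor
  · intro a h
    exact dotB_sep a fun b => by rw [dotB_comm]; exact h b
  · intro b h
    exact dotB_sep b h

theorem dotB_row (p m : V → Fin d → F) (u v : V) :
    dotB V F d (row p s(u, v)) m = ∑ i, (p u i - p v i) * (m u i - m v i) := by
  have h1 : row p s(u, v) = Pi.single u (p u - p v) + Pi.single v (p v - p u) := rfl
  rw [h1, map_add, LinearMap.add_apply, dotB_single, dotB_single, ← Finset.sum_add_distrib]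
  exact Finset.sum_congr rfl fun i _ => by simp only [Pi.sub_apply]; ring

theorem motSp_eq (p : V → Fin d → F) (E : Finset (Sym2 V)) :
    motSp p E = (dotB V F d).orthogonal
      (Submodule.span F (row p '' (E : Set (Sym2 V)))) := by
  ext m
  rw [LinearMap.BilinForm.mem_orthogonal_iff]
  constructor
  · intro hm n hn
    induction hn using Submodule.span_induction with
    | mem x hx =>
      obtain ⟨e, he, rfl⟩ := hx
      induction e using Sym2.ind with
      | _ u v =>
        rw [dotB_row]
        exact hm u v he
    | zero => simp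
    | add x y _ _ hx hy => rw [map_add, LinearMap.add_apply, hx, hy, add_zero]
    | smul c x _ hx => rw [map_smul, LinearMap.smul_apply, hx, smul_zero]
  · intro h u v huv
    have h1 := h (row p s(u, v)) (Submodule.subset_span ⟨s(u, v), huv, rfl⟩)
    rw [dotB_row] at h1
    exact h1

theorem finrank_conf : Module.finrank F (V → Fin d → F) = d * Fintype.card V := by
  rw [Module.finrank_pi_fintype]
  simp [mul_comm]

end KnAux

theorem finrank_mot (p : V → Fin d → F) (E : Finset (Sym2 V)) :
    Module.finrank F (motSp p E) + rkAt p E = d * Fintype.card V := by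
  rw [KnAux.motSp_eq, LinearMap.BilinForm.finrank_orthogonal KnAux.dotB_nondeg,
    KnAux.finrank_conf]
  have h1 : rkAt p E ≤ Module.finrank F (V → Fin d → F) := Submodule.finrank_le _
  rw [KnAux.finrank_conf] at h1
  unfold rkAt at h1 ⊢
  omega

namespace KnAux

theorem mem_Kn {A : Finset V} {u v : V} : s(u, v) ∈ Kn A ↔ (u ∈ A ∧ v ∈ A) ∧ u ≠ v := by
  rw [Kn, Finset.mem_filter, Finset.mk_mem_sym2_iff, Sym2.mk_isDiag_iff]

theorem card_Kn (A : Finset V) : (Kn A).card = A.card.choose 2 := by
  rw [← Sym2.card_image_offDiag]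
  congr 1
  ext e
  induction e using Sym2.ind with
  | _ u v =>
    rw [mem_Kn, Finset.mem_image]
    constructor
    · rintro ⟨⟨h1, h2⟩, h3⟩
      exact ⟨(u, v), Finset.mem_offDiag.2 ⟨h1, h2, h3⟩, rfl⟩
    · rintro ⟨⟨a, b⟩, h1, h2⟩
      rw [Finset.mem_offDiag] at h1
      have h3 : s(a, b) = s(u, v) := h2
      rw [← mem_Kn, ← h3, mem_Kn]
      exact ⟨⟨h1.1, h1.2.1⟩, h1.2.2⟩

/-- number of independent edges of a complete graph -/
def lowf (d : ℕ) : ℕ → ℕ
  | 0 => 0
  | n + 1 => lowf d n + min n d

theorem lowf_small {n : ℕ} (h : n ≤ d + 1) : lowf d n = n.choose 2 := by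
  induction n with
  | zero => simp [lowf]
  | succ n ih =>
    rw [lowf, ih (by omega), Nat.choose_succ_succ' n 1, Nat.choose_one_right, min_eq_left (by omega),
      add_comm]

theorem choose_add (d : ℕ) : d.choose 2 + (d + 1).choose 2 = d * d := by
  induction d with
  | zero => simp
  | succ d ih =>
    have h1 : (d + 1 + 1).choose 2 = (d + 1) + (d + 1).choose 2 := by
      rw [Nat.choose_succ_succ' (d + 1) 1, Nat.choose_one_right]
    have h2 : (d + 1).choose 2 = d + d.choose 2 := by
      rw [Nat.choose_succ_succ' d 1, Nat.choose_one_right]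
    rw [h1]
    have h3 : (d + 1) * (d + 1) = d * d + 2 * d + 1 := by ring
    omega

theorem lowf_large {n : ℕ} (h : d ≤ n) : lowf d n + KK d = d * n := by
  induction n, h using Nat.le_induction with
  | base =>
    rw [lowf_small (by omega), KK, choose_add]
  | succ n hn ih =>
    rw [lowf, min_eq_right hn, mul_add, ← ih]
    ring

theorem le_rk_Kn [Infinite F] (A : Finset V) : lowf d A.card ≤ rk F d (Kn A) := by
  induction A using Finset.induction_on with
  | empty => simp [lowf]
  | insert v A hv ih =>
    obtain ⟨T, hTA, hT⟩ := Finset.exists_subset_card_eq (show min A.card d ≤ A.card from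
      min_le_left _ _)
    rw [Finset.card_insert_of_notMem hv, lowf]
    have h1 : Kn A ∪ star v T ⊆ Kn (insert v A) := by
      intro e he
      induction e using Sym2.ind with
      | _ a b =>
        rw [mem_Kn]
        rw [Finset.mem_union, mem_Kn] at he
        rcases he with he | he
        · exact ⟨⟨Finset.mem_insert_of_mem he.1.1, Finset.mem_insert_of_mem he.1.2⟩, he.2⟩
        · rw [star, Finset.mem_image] at he
          obtain ⟨w, hw, hw2⟩ := he
          have hwA := hTA hw
          have hne : v ≠ w := fun h => hv (h ▸ hwA)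
          rw [Sym2.eq_iff] at hw2
          rcases hw2 with ⟨rfl, rfl⟩ | ⟨rfl, rfl⟩
          · exact ⟨⟨Finset.mem_insert_self _ _, Finset.mem_insert_of_mem hwA⟩, hne⟩
          · exact ⟨⟨Finset.mem_insert_of_mem hwA, Finset.mem_insert_self _ _⟩, hne.symm⟩
    have h2 : rk F d (Kn A ∪ star v T) = rk F d (Kn A) + T.card := by
      refine rk_star ?_ (fun h => hv (hTA h)) (hT ▸ min_le_right _ _)
      intro e he hve
      induction e using Sym2.ind with
      | _ a b =>
        rw [mem_Kn] at he
        rcases Sym2.mem_iff.1 hve with rfl | rfl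
        · exact hv he.1.1
        · exact hv he.1.2
    have h3 := rk_mono (F := F) (d := d) h1
    rw [h2, hT] at h3
    omega

/-- entries above the diagonal -/
abbrev Up (d : ℕ) : Type := Σ j : Fin d, Fin (j : ℕ)

theorem card_Up (d : ℕ) : Fintype.card (Up d) = d.choose 2 := by
  rw [Fintype.card_sigma]
  simp only [Fintype.card_fin]
  rw [Fin.sum_univ_eq_sum_range (fun i => i) d, Finset.sum_range_id, Nat.choose_two_right]

/-- the alternating matrix with given entries above the diagonal -/
def alt (a : Up d → F) (i j : Fin d) : F :=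
  if h : (i : ℕ) < j then a ⟨j, ⟨i, h⟩⟩ else if h : (j : ℕ) < i then - a ⟨i, ⟨j, h⟩⟩ else 0

theorem alt_add (a b : Up d → F) (i j : Fin d) : alt (a + b) i j = alt a i j + alt b i j := by
  unfold alt
  split_ifs <;> simp [add_comm]

theorem alt_smul (c : F) (a : Up d → F) (i j : Fin d) : alt (c • a) i j = c * alt a i j := by
  unfold alt
  split_ifs <;> simp

theorem alt_self (a : Up d → F) (i : Fin d) : alt a i i = 0 := by
  simp [alt]

theorem alt_symm (a : Up d → F) (i j : Fin d) : alt a i j = - alt a j i := by
  unfold alt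
  rcases lt_trichotomy (i : ℕ) (j : ℕ) with h | h | h
  · rw [dif_pos h, dif_neg (by omega), dif_pos h, neg_neg]
  · simp [h]
  · rw [dif_neg (by omega), dif_pos h, dif_pos h]

theorem alt_inj (a : Up d → F) (h : ∀ i j, alt a i j = 0) : a = 0 := by
  funext x
  obtain ⟨j, i, hi⟩ := x
  have h1 := h ⟨i, hi.trans j.2⟩ j
  unfold alt at h1
  rw [dif_pos (show ((⟨i, hi.trans j.2⟩ : Fin d) : ℕ) < j from hi)] at h1
  exact h1

theorem alt_quad (h2 : (2 : F) ≠ 0) (a : Up d → F) (x : Fin d → F) :
    ∑ i, x i * ∑ j, alt a i j * x j = 0 := by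
  have h1 : ∑ i, x i * ∑ j, alt a i j * x j = - ∑ i, x i * ∑ j, alt a i j * x j := by
    calc ∑ i, x i * ∑ j, alt a i j * x j = ∑ i, ∑ j, x i * (alt a i j * x j) :=
          Finset.sum_congr rfl fun i _ => Finset.mul_sum _ _ _
      _ = ∑ j, ∑ i, x i * (alt a i j * x j) := Finset.sum_comm
      _ = ∑ j, - (x j * ∑ i, alt a j i * x i) := by
          refine Finset.sum_congr rfl fun j _ => ?_
          rw [Finset.mul_sum, ← Finset.sum_neg_distrib]
          refine Finset.sum_congr rfl fun i _ => ?_
          rw [alt_symm a i j]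
          ring
      _ = _ := Finset.sum_neg_distrib _
  have h3 : (2 : F) * ∑ i, x i * ∑ j, alt a i j * x j = 0 := by
    rw [two_mul]
    nth_rewrite 1 [h1]
    exact neg_add_cancel _
  exact (mul_eq_zero.1 h3).resolve_left h2

/-- motions which are trivial on `A` -/
def triv (p : V → Fin d → F) (A : Finset V) :
    ((Up d → F) × (Fin d → F)) × ({v : V // v ∉ A} → Fin d → F) →ₗ[F] (V → Fin d → F) where
  toFun z v := if h : v ∉ A then z.2 ⟨v, h⟩ else
    fun i => (∑ j, alt z.1.1 i j * p v j) + z.1.2 i
  map_add' := by
    intro z z'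
    funext v i
    by_cases h : v ∉ A
    · simp [h]
    · simp only [h, dite_false, Pi.add_apply, Prod.fst_add, Prod.snd_add, alt_add, add_mul,
        Finset.sum_add_distrib]
      ring
  map_smul' := by
    intro c z
    funext v i
    by_cases h : v ∉ A
    · simp [h]
    · simp only [h, dite_false, Pi.smul_apply, Prod.smul_fst, Prod.smul_snd, alt_smul,
        smul_eq_mul, RingHom.id_apply, mul_add, Finset.mul_sum, mul_assoc]

theorem triv_of_mem (p : V → Fin d → F) {A : Finset V} {v : V} (hv : v ∈ A)
    (z : ((Up d → F) × (Fin d → F)) × ({v : V // v ∉ A} → Fin d → F)) (i : Fin d) :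
    triv p A z v i = (∑ j, alt z.1.1 i j * p v j) + z.1.2 i := by
  have h : ¬ v ∉ A := fun h => h hv
  change (if h : v ∉ A then z.2 ⟨v, h⟩ else
    fun i => (∑ j, alt z.1.1 i j * p v j) + z.1.2 i) i = _
  rw [dif_neg h]

theorem triv_of_notMem (p : V → Fin d → F) {A : Finset V} {v : V} (hv : v ∉ A)
    (z : ((Up d → F) × (Fin d → F)) × ({v : V // v ∉ A} → Fin d → F)) :
    triv p A z v = z.2 ⟨v, hv⟩ := by
  change (if h : v ∉ A then z.2 ⟨v, h⟩ else
    fun i => (∑ j, alt z.1.1 i j * p v j) + z.1.2 i) = _
  rw [dif_pos hv]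

theorem triv_mot (h2 : (2 : F) ≠ 0) (p : V → Fin d → F) (A : Finset V)
    (z : ((Up d → F) × (Fin d → F)) × ({v : V // v ∉ A} → Fin d → F)) :
    triv p A z ∈ motSp p (Kn A) := by
  intro u v huv
  rw [mem_Kn] at huv
  unfold Sat
  have h1 := alt_quad h2 z.1.1 (p u - p v)
  rw [← h1]
  refine Finset.sum_congr rfl fun i _ => ?_
  rw [triv_of_mem p huv.1.1, triv_of_mem p huv.1.2]
  simp only [Pi.sub_apply, mul_sub, Finset.sum_sub_distrib]
  ring

theorem triv_inj (p : V → Fin d → F) {A A₀ : Finset V} (hAA : A₀ ⊆ A) (hc : A₀.card = d + 1)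
    (hp : AffI p A₀) : Function.Injective (triv p A) := by
  rw [← LinearMap.ker_eq_bot, LinearMap.ker_eq_bot']
  intro z hz
  have hz2 : z.2 = 0 := by
    funext v
    have := congrFun hz (v : V)
    rw [triv_of_notMem p v.2] at this
    exact this
  obtain ⟨x₀, hx₀⟩ : A₀.Nonempty := by
    rw [← Finset.card_pos]; omega
  unfold AffI at hp
  rw [affineIndependent_iff_linearIndependent_vsub F _ (⟨x₀, hx₀⟩ : A₀)] at hp
  have hspan := hp.span_eq_top_of_card_eq_finrank' (by
    rw [Fintype.card_subtype_compl, Fintype.card_coe, hc]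
    simp)
  have hzero : ∀ i, ∀ y : Fin d → F, ∑ j, alt z.1.1 i j * y j = 0 := by
    intro i y
    have hy : y ∈ Submodule.span F (Set.range fun x : {x : A₀ // x ≠ ⟨x₀, hx₀⟩} =>
        (p ((x : A₀) : V) -ᵥ p x₀ : Fin d → F)) := by
      rw [hspan]; exact Submodule.mem_top
    induction hy using Submodule.span_induction with
    | mem y hy =>
      obtain ⟨x, rfl⟩ := hy
      have h1 := congrFun (congrFun hz ((x : A₀) : V)) i
      have h3 := congrFun (congrFun hz x₀) i
      rw [triv_of_mem p (hAA (x : A₀).2)] at h1
      rw [triv_of_mem p (hAA hx₀)] at h3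
      simp only [vsub_eq_sub, Pi.sub_apply, mul_sub, Finset.sum_sub_distrib]
      have h4 : (∑ j, alt z.1.1 i j * p ((x : A₀) : V) j) = - z.1.2 i :=
        eq_neg_of_add_eq_zero_left h1
      have h5 : (∑ j, alt z.1.1 i j * p x₀ j) = - z.1.2 i :=
        eq_neg_of_add_eq_zero_left h3
      rw [h4, h5, sub_self]
    | zero => simp
    | add y y' _ _ hy hy' =>
      simp only [Pi.add_apply, mul_add, Finset.sum_add_distrib, hy, hy', add_zero]
    | smul c y _ hy =>
      have : ∑ j, alt z.1.1 i j * (c • y) j = c * ∑ j, alt z.1.1 i j * y j := by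
        rw [Finset.mul_sum]
        exact Finset.sum_congr rfl fun j _ => by simp only [Pi.smul_apply, smul_eq_mul]; ring
      rw [this, hy, mul_zero]
  have hz11 : z.1.1 = 0 := by
    refine alt_inj _ fun i j => ?_
    have h1 := hzero i (Pi.single j 1)
    rw [Finset.sum_eq_single j] at h1
    · simpa using h1
    · intro k _ hk
      rw [Pi.single_eq_of_ne hk, mul_zero]
    · intro h
      exact absurd (Finset.mem_univ j) h
  have hz12 : z.1.2 = 0 := by
    funext i
    have h3 := congrFun (congrFun hz x₀) i
    rw [triv_of_mem p (hAA hx₀), hzero, zero_add] at h3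
    exact h3
  exact Prod.ext (Prod.ext hz11 hz12) hz2

theorem rkAt_Kn_le (h2 : (2 : F) ≠ 0) (p : V → Fin d → F) {A : Finset V} (hA : d + 1 ≤ A.card)
    (hp : GP p) : rkAt p (Kn A) + KK d ≤ d * A.card := by
  obtain ⟨A₀, hA₀, hc⟩ := Finset.exists_subset_card_eq hA
  have hinj := triv_inj p hA₀ hc (hp A₀ (by omega))
  have h1 : Module.finrank F (((Up d → F) × (Fin d → F)) × ({v : V // v ∉ A} → Fin d → F)) ≤
      Module.finrank F (motSp p (Kn A)) := by
    refine LinearMap.finrank_le_finrank_of_injective
      (f := (triv p A).codRestrict (motSp p (Kn A)) (triv_mot h2 p A)) ?_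
    intro a b hab
    exact hinj (congrArg Subtype.val hab)
  have h3 := finrank_mot p (Kn A)
  have h4 : Module.finrank F (((Up d → F) × (Fin d → F)) × ({v : V // v ∉ A} → Fin d → F)) =
      KK d + d * (Fintype.card V - A.card) := by
    rw [Module.finrank_prod, Module.finrank_prod, Module.finrank_fintype_fun_eq_card, card_Up,
      Module.finrank_fintype_fun_eq_card, Fintype.card_fin, finrank_conf,
      Fintype.card_subtype_compl, Fintype.card_coe, KK, Nat.choose_succ_succ' d 1,
      Nat.choose_one_right]
    ring
  have h5 : A.card ≤ Fintype.card V := Finset.card_le_univ A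
  have h6 : d * Fintype.card V = d * (Fintype.card V - A.card) + d * A.card := by
    rw [← mul_add, Nat.sub_add_cancel h5]
  omega

end KnAux

theorem rk_Kn_small [Infinite F] {A : Finset V} (hA : A.card ≤ d + 1) :
    rk F d (Kn A) = A.card.choose 2 := by
  apply le_antisymm
  · rw [← KnAux.card_Kn]
    exact rk_le_card _
  · rw [← KnAux.lowf_small hA]
    exact KnAux.le_rk_Kn A

theorem rk_Kn [Infinite F] (h2 : (2 : F) ≠ 0) {A : Finset V} (hA : d ≤ A.card) :
    rk F d (Kn A) + KK d = d * A.card := by
  rcases hA.lt_or_eq with h | h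
  · apply le_antisymm
    · obtain ⟨p, -, hp, hr⟩ := exists_generic (V := V) F d 1 one_ne_zero
      rw [← hr]
      exact KnAux.rkAt_Kn_le h2 p h hp
    · rw [← KnAux.lowf_large hA]
      exact Nat.add_le_add_right (KnAux.le_rk_Kn A) _
  · rw [rk_Kn_small (by omega), ← h, KK, KnAux.choose_add]

end Pool.Agent.Helper50.RG
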