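import Pool.Agent.Helper50.RG.GeoC
import Pool.Agent.Helper50.RG.RkK

/-!
# RG-13 : rank and embeddings; rigidity of induced subgraphs

`rk_map`: for an injection `f : V' → V` the rows of the images of the edges of `E` at `p` are the
rows of `E` at `p ∘ f` extended by zero; every placement of `V'` is of the form `p ∘ f`.
`resE E C` is the graph `E` on the vertex type `C`.
`ins_eq_map`, `nb_resE`, ... are the dictionary between `E` on `C` and `resE E C`.
`isRigid_induce_iff`: from `isRigid_iff` for the type `A` and `rk_map`.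
-/

set_option autoImplicit false

namespace Pool.Agent.Helper50.RG

open Finset

variable {V : Type} [Fintype V] [DecidableEq V]

/-- the graph `E` on the vertex type `C` -/
def resE (E : Finset (Sym2 V)) (C : Finset V) : Finset (Sym2 C) :=
  univ.filter (fun e : Sym2 C => Sym2.map (Subtype.val) e ∈ E)

private theorem GeoD_row_mk {F : Type} [Field F] {d : ℕ} {V : Type} [DecidableEq V]
    (p : V → Fin d → F) (a b : V) :
    row p s(a, b) = Pi.single a (p a - p b) + Pi.single b (p b - p a) := rfl

/-- extension by zero -/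
private noncomputable def GeoD_ext (F : Type) [Field F] (d : ℕ) {V' : Type} (f : V' → V)
    (hf : Function.Injective f) : (V' → Fin d → F) →ₗ[F] (V → Fin d → F) where
  toFun m := Function.extend f m 0
  map_add' := by
    intro a b
    funext v
    by_cases h : ∃ v', f v' = v
    · obtain ⟨v', rfl⟩ := h
      rw [Pi.add_apply, hf.extend_apply, hf.extend_apply, hf.extend_apply, Pi.add_apply]
    · rw [Pi.add_apply, Function.extend_apply' _ _ _ h, Function.extend_apply' _ _ _ h,
        Function.extend_apply' _ _ _ h, Pi.zero_apply, add_zero]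
  map_smul' := by
    intro c a
    funext v
    by_cases h : ∃ v', f v' = v
    · obtain ⟨v', rfl⟩ := h
      rw [RingHom.id_apply, Pi.smul_apply, hf.extend_apply, hf.extend_apply, Pi.smul_apply]
    · rw [RingHom.id_apply, Pi.smul_apply, Function.extend_apply' _ _ _ h,
        Function.extend_apply' _ _ _ h, Pi.zero_apply, smul_zero]

omit [Fintype V] [DecidableEq V] in
private theorem GeoD_ext_apply {F : Type} [Field F] {d : ℕ} {V' : Type} (f : V' → V)
    (hf : Function.Injective f) (m : V' → Fin d → F) (v' : V') :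
    GeoD_ext F d f hf m (f v') = m v' := hf.extend_apply _ _ _

omit [Fintype V] [DecidableEq V] in
private theorem GeoD_ext_inj {F : Type} [Field F] {d : ℕ} {V' : Type} (f : V' → V)
    (hf : Function.Injective f) : Function.Injective (GeoD_ext F d f hf) := by
  intro a b h
  funext v'
  have := congrFun h (f v')
  rwa [GeoD_ext_apply, GeoD_ext_apply] at this

omit [Fintype V] in
private theorem GeoD_ext_single {F : Type} [Field F] {d : ℕ} {V' : Type} [DecidableEq V']
    (f : V' → V) (hf : Function.Injective f) (a : V') (x : Fin d → F) :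
    GeoD_ext F d f hf (Pi.single a x) = Pi.single (f a) x := by
  funext v
  by_cases h : ∃ v', f v' = v
  · obtain ⟨v', rfl⟩ := h
    rw [GeoD_ext_apply]
    by_cases hv : v' = a
    · rw [hv, Pi.single_eq_same, Pi.single_eq_same]
    · rw [Pi.single_eq_of_ne hv, Pi.single_eq_of_ne (fun h => hv (hf h))]
  · have h1 : GeoD_ext F d f hf (Pi.single a x) v = 0 := by
      change Function.extend f _ 0 v = 0
      rw [Function.extend_apply' _ _ _ h, Pi.zero_apply]
    rw [h1, Pi.single_eq_of_ne]
    rintro rfl
    exact h ⟨a, rfl⟩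

omit [Fintype V] in
private theorem GeoD_row {F : Type} [Field F] {d : ℕ} {V' : Type} [DecidableEq V']
    (f : V' → V) (hf : Function.Injective f) (p : V → Fin d → F) (e : Sym2 V') :
    row p (Sym2.map f e) = GeoD_ext F d f hf (row (p ∘ f) e) := by
  induction e using Sym2.ind with
  | _ a b =>
    rw [Sym2.map_mk, GeoD_row_mk, GeoD_row_mk, map_add, GeoD_ext_single, GeoD_ext_single]
    rfl

omit [Fintype V] in
private theorem GeoD_rkAt {F : Type} [Field F] {d : ℕ} {V' : Type} [DecidableEq V']
    (f : V' → V) (hf : Function.Injective f) (p : V → Fin d → F) (E : Finset (Sym2 V')) :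
    rkAt p (E.image (Sym2.map f)) = rkAt (p ∘ f) E := by
  unfold rkAt
  have h1 : row p '' ((E.image (Sym2.map f) : Finset (Sym2 V)) : Set (Sym2 V))
      = GeoD_ext F d f hf '' (row (p ∘ f) '' (E : Set (Sym2 V'))) := by
    rw [coe_image, Set.image_image, Set.image_image]
    exact Set.image_congr fun e _ => GeoD_row f hf p e
  rw [h1, Submodule.span_image]
  exact (Submodule.equivMapOfInjective _ (GeoD_ext_inj f hf) _).symm.finrank_eq

theorem rk_map (F : Type) [Field F] (d : ℕ) {V' : Type} [Fintype V'] [DecidableEq V']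
    (f : V' → V) (hf : Function.Injective f) (E : Finset (Sym2 V')) :
    rk F d (E.image (Sym2.map f)) = rk F d E := by
  unfold rk
  simp only [GeoD_rkAt f hf]
  exact (hf.surjective_comp_right (γ := Fin d → F)).iSup_comp (fun q => rkAt q E)

theorem image_resE (E : Finset (Sym2 V)) (C : Finset V) :
    (resE E C).image (Sym2.map Subtype.val) = ins E C := by
  ext e
  unfold resE ins
  rw [mem_image, mem_inter, mem_sym2_iff]
  constructor
  · rintro ⟨e', he', rfl⟩
    rw [mem_filter] at he'
    refine ⟨he'.2, ?_⟩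
    intro a ha
    rw [Sym2.mem_map] at ha
    obtain ⟨b, _, rfl⟩ := ha
    exact b.2
  · rintro ⟨he, hC⟩
    induction e using Sym2.ind with
    | _ a b =>
      refine ⟨s(⟨a, hC a (Sym2.mem_mk_left a b)⟩, ⟨b, hC b (Sym2.mem_mk_right a b)⟩), ?_, rfl⟩
      rw [mem_filter]
      exact ⟨mem_univ _, he⟩

omit [Fintype V] in
private theorem GeoD_Kn (A : Finset V) :
    (Kn (univ : Finset (A : Set V))).image (Sym2.map Subtype.val) = Kn A := by
  ext e
  unfold Kn
  rw [mem_image, mem_filter, mem_sym2_iff]
  constructor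
  · rintro ⟨e', he', rfl⟩
    rw [mem_filter] at he'
    refine ⟨?_, ?_⟩
    · intro a ha
      rw [Sym2.mem_map] at ha
      obtain ⟨b, _, rfl⟩ := ha
      exact b.2
    · intro h
      apply he'.2
      induction e' using Sym2.ind with
      | _ a b =>
        rw [Sym2.map_mk, Sym2.mk_isDiag_iff] at h
        rw [Sym2.mk_isDiag_iff]
        exact Subtype.ext h
  · rintro ⟨hC, he⟩
    induction e using Sym2.ind with
    | _ a b =>
      refine ⟨s(⟨a, hC a (Sym2.mem_mk_left a b)⟩, ⟨b, hC b (Sym2.mem_mk_right a b)⟩), ?_, rfl⟩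
      rw [mem_filter]
      refine ⟨by rw [mem_sym2_iff]; exact fun _ _ => mem_univ _, ?_⟩
      rw [Sym2.mk_isDiag_iff] at he ⊢
      exact fun h => he (congrArg Subtype.val h)

private theorem GeoD_induce (G : SimpleGraph V) [DecidableRel G.Adj] (A : Finset V) :
    (G.induce (A : Set V)).edgeFinset.image (Sym2.map Subtype.val) = ins G.edgeFinset A := by
  ext e
  unfold ins
  rw [mem_image, mem_inter, mem_sym2_iff]
  constructor
  · rintro ⟨e', he', rfl⟩
    rw [SimpleGraph.mem_edgeFinset] at he'
    rw [SimpleGraph.mem_edgeFinset]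
    refine ⟨?_, ?_⟩
    · induction e' using Sym2.ind with
      | _ a b =>
        rw [Sym2.map_mk]
        rw [SimpleGraph.mem_edgeSet] at he' ⊢
        exact he'
    · intro a ha
      rw [Sym2.mem_map] at ha
      obtain ⟨b, _, rfl⟩ := ha
      exact b.2
  · rintro ⟨he, hC⟩
    induction e using Sym2.ind with
    | _ a b =>
      refine ⟨s(⟨a, hC a (Sym2.mem_mk_left a b)⟩, ⟨b, hC b (Sym2.mem_mk_right a b)⟩), ?_, rfl⟩
      rw [SimpleGraph.mem_edgeFinset, SimpleGraph.mem_edgeSet] at he ⊢
      exact he

theorem isRigid_induce_iff (d : ℕ) (G : SimpleGraph V) [DecidableRel G.Adj] (A : Finset V) :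
    IsRigid d (G.induce (A : Set V)) ↔ rk ℝ d (ins G.edgeFinset A) = rk ℝ d (Kn A) := by
  have h1 := rk_map ℝ d (Subtype.val : ↥(A : Set V) → V) Subtype.val_injective
    (G.induce (A : Set V)).edgeFinset
  have h2 := rk_map ℝ d (Subtype.val : ↥(A : Set V) → V) Subtype.val_injective
    (Kn (univ : Finset (A : Set V)))
  rw [GeoD_induce G A] at h1
  rw [GeoD_Kn A] at h2
  rw [isRigid_iff, h1, h2]

end Pool.Agent.Helper50.RG
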