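import Pool.Agent.Helper50.RG.ProcB
import Pool.Agent.Helper50.RG.GeoD

/-!
# RG-27 : decomposition of a sequence into the core and the rest

Let `𝒮` be the set of the sequences on the left. For `s ∈ 𝒮` let `C` be the core, `J` the set of the
indices `i` with both ends of `s i` in `C` (`|J| = |ins E C| = M`, as `s` is simple),
`r = s` restricted to the complement of `J`, and `u` the sequence of the pairs of `J` in increasing order, as a
sequence `Fin M → C × C`. `u` is simple, in `TT C (d+1) M` (in a simple sequence the occupancy is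
the degree), and `edges u = resE E C`. So `|𝒮| ≤ ∑_{(C, J, r)} #{u | …} ≤ ϱ ∑_{(C, J, r)} |TT C (d+1) M|`,
the sum over all `(C, J, r)` which come from some `s ∈ 𝒮`. It remains to see that the sequences
obtained from different `((C, J, r), u)`, `u ∈ TT C (d+1) M` arbitrary, are different (there are at most `n^(2t)` sequences). Suppose
`((C, J, r), u)` and `((C', J', r'), u')` give the same sequence `z`. If `C' ⊄ C`: `(C, J, r)` comes
from `s ∈ 𝒮` with core `C`. Apply `exists_low` to `X = C ∪ C'`: there is
`v ∈ X \ C` with at most `d` neighbours in `X` in the graph `edges s`; all the pairs of `z` at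
`v` are pairs of `s` (as `v ∉ C`), so `v` has at most `d` half edges of `z` inside `X` (`s` is
simple), but `v ∈ C'` has at least `d + 1` half edges of `z` inside `C'`. So `C' ⊆ C`, and
`C = C'` by symmetry; then `J = J'` (the indices of the pairs inside `C`), `r = r'`, `u = u'`.
-/

set_option autoImplicit false

namespace Pool.Agent.Helper50.RG

open Finset

section decomp

variable {V : Type} [Fintype V] [DecidableEq V] {t : ℕ}

/-- the indices of the pairs inside `C` -/
private def cdJ (C : Finset V) (z : Fin t → V × V) : Finset (Fin t) :=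
  univ.filter (fun i => (z i).1 ∈ C ∧ (z i).2 ∈ C)

/-- the number of half edges at `v` with index in `J` -/
private def cdOcc (J : Finset (Fin t)) (z : Fin t → V × V) (v : V) : ℕ :=
  (J.filter (fun i => (z i).1 = v)).card + (J.filter (fun i => (z i).2 = v)).card

omit [Fintype V] in
private theorem mem_cdJ {C : Finset V} {z : Fin t → V × V} {i : Fin t} :
    i ∈ cdJ C z ↔ (z i).1 ∈ C ∧ (z i).2 ∈ C := by
  unfold cdJ
  simp

private theorem mem_edges {M : ℕ} {W : Type} [Fintype W] [DecidableEq W] {u : Fin M → W × W}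
    {e : Sym2 W} : e ∈ edges u ↔ ∃ i, s((u i).1, (u i).2) = e := by
  unfold edges
  simp

/-- the degree is at most the number of half edges -/
private theorem nb_le_cdOcc (C : Finset V) (a : Fin t → V × V) {v : V} (hv : v ∈ C) :
    nb (edges a) C v ≤ cdOcc (cdJ C a) a v := by
  have hsub : C.filter (fun w => s(v, w) ∈ edges a) ⊆
      (((cdJ C a).filter (fun i => (a i).1 = v)).image (fun i => (a i).2)) ∪
      (((cdJ C a).filter (fun i => (a i).2 = v)).image (fun i => (a i).1)) := by
    intro w hw
    obtain ⟨hwC, hwe⟩ := mem_filter.mp hw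
    obtain ⟨i, hi⟩ := mem_edges.mp hwe
    rw [mem_union, mem_image, mem_image]
    rcases Sym2.eq_iff.mp hi with ⟨h1, h2⟩ | ⟨h1, h2⟩
    · left
      refine ⟨i, mem_filter.mpr ⟨mem_cdJ.mpr ⟨?_, ?_⟩, h1⟩, h2⟩
      · rw [h1]; exact hv
      · rw [h2]; exact hwC
    · right
      refine ⟨i, mem_filter.mpr ⟨mem_cdJ.mpr ⟨?_, ?_⟩, h2⟩, h1⟩
      · rw [h1]; exact hwC
      · rw [h2]; exact hv
  unfold nb cdOcc
  exact (card_le_card hsub).trans ((card_union_le _ _).trans
    (add_le_add card_image_le card_image_le))

/-- the half edges at `v` which are half edges of a simple sequence `s` -/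
private theorem cdOcc_le_nb {X : Finset V} {s z : Fin t → V × V} (hs : Simp s)
    {J : Finset (Fin t)} {v : V}
    (h1 : ∀ i ∈ J, (z i).1 = v → z i = s i ∧ (z i).2 ∈ X)
    (h2 : ∀ i ∈ J, (z i).2 = v → z i = s i ∧ (z i).1 ∈ X) :
    cdOcc J z v ≤ nb (edges s) X v := by
  have hdisj : Disjoint (J.filter (fun i => (z i).1 = v)) (J.filter (fun i => (z i).2 = v)) := by
    rw [Finset.disjoint_left]
    intro i hi hi'
    obtain ⟨hiJ, hi1⟩ := mem_filter.mp hi
    obtain ⟨_, hi2⟩ := mem_filter.mp hi'
    have h3 := (h1 i hiJ hi1).1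
    exact hs.1 i (by rw [← h3, hi1, hi2])
  unfold cdOcc
  rw [← card_union_of_disjoint hdisj]
  unfold nb
  refine card_le_card_of_injOn (fun i => if (z i).1 = v then (z i).2 else (z i).1) ?_ ?_
  · intro i hi
    have hi' := mem_union.mp (mem_coe.mp hi)
    rw [mem_coe, mem_filter]
    by_cases h3 : (z i).1 = v
    · have hiJ : i ∈ J := by
        rcases hi' with h | h
        · exact (mem_filter.mp h).1
        · exact (mem_filter.mp h).1
      obtain ⟨h4, h5⟩ := h1 i hiJ h3
      simp only [h3, if_true]
      refine ⟨h5, mem_edges.mpr ⟨i, ?_⟩⟩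
      rw [← h4, h3]
    · have hi2 : i ∈ J ∧ (z i).2 = v := by
        rcases hi' with h | h
        · exact absurd (mem_filter.mp h).2 h3
        · exact mem_filter.mp h
      obtain ⟨h4, h5⟩ := h2 i hi2.1 hi2.2
      simp only [h3, if_false]
      refine ⟨h5, mem_edges.mpr ⟨i, ?_⟩⟩
      rw [← h4, hi2.2]
      exact Sym2.eq_swap
  · have key : ∀ i ∈ ((J.filter (fun i => (z i).1 = v)) ∪ (J.filter (fun i => (z i).2 = v))),
        s((s i).1, (s i).2) = s(v, if (z i).1 = v then (z i).2 else (z i).1) := by
      intro i hi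
      have hi' := mem_union.mp hi
      by_cases h3 : (z i).1 = v
      · have hiJ : i ∈ J := by
          rcases hi' with h | h
          · exact (mem_filter.mp h).1
          · exact (mem_filter.mp h).1
        obtain ⟨h4, h5⟩ := h1 i hiJ h3
        rw [if_pos h3, ← h4, h3]
      · have hi2 : i ∈ J ∧ (z i).2 = v := by
          rcases hi' with h | h
          · exact absurd (mem_filter.mp h).2 h3
          · exact mem_filter.mp h
        obtain ⟨h4, h5⟩ := h2 i hi2.1 hi2.2
        rw [if_neg h3, ← h4, hi2.2]
        exact Sym2.eq_swap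
    intro i hi j hj hij
    have h3 := key i (mem_coe.mp hi)
    have h4 := key j (mem_coe.mp hj)
    simp only at hij
    rw [hij] at h3
    exact hs.2 (h3.trans h4.symm)

/-- the number of edges inside `C` -/
private theorem card_ins_cdJ {C : Finset V} {s : Fin t → V × V} (hs : Simp s) :
    (ins (edges s) C).card = (cdJ C s).card := by
  have : ins (edges s) C = (cdJ C s).image (fun i => s((s i).1, (s i).2)) := by
    ext e
    rw [mem_ins, mem_image]
    constructor
    · rintro ⟨he, hC⟩
      obtain ⟨i, hi⟩ := mem_edges.mp he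
      refine ⟨i, mem_cdJ.mpr ⟨hC _ ?_, hC _ ?_⟩, hi⟩
      · rw [← hi]; exact Sym2.mem_mk_left _ _
      · rw [← hi]; exact Sym2.mem_mk_right _ _
    · rintro ⟨i, hi, rfl⟩
      refine ⟨mem_edges.mpr ⟨i, rfl⟩, fun v hv => ?_⟩
      rcases Sym2.mem_iff.mp hv with h | h
      · rw [h]; exact (mem_cdJ.mp hi).1
      · rw [h]; exact (mem_cdJ.mp hi).2
  rw [this, card_image_of_injective _ hs.2]

open Classical in
/-- the sequences which can be obtained from a cell by changing the pairs inside `C` -/
private noncomputable def cdExt (k : ℕ) (C : Finset V) (J : Finset (Fin t))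
    (r : Fin t → Option (V × V)) : Finset (Fin t → V × V) :=
  univ.filter (fun z => (∀ i, i ∉ J → some (z i) = r i) ∧
    (∀ i ∈ J, (z i).1 ∈ C ∧ (z i).2 ∈ C) ∧ ∀ v ∈ C, k ≤ cdOcc J z v)

private theorem mem_cdExt {k : ℕ} {C : Finset V} {J : Finset (Fin t)}
    {r : Fin t → Option (V × V)} {z : Fin t → V × V} : z ∈ cdExt k C J r ↔
    (∀ i, i ∉ J → some (z i) = r i) ∧
    (∀ i ∈ J, (z i).1 ∈ C ∧ (z i).2 ∈ C) ∧ ∀ v ∈ C, k ≤ cdOcc J z v := by
  classical
  unfold cdExt
  simp only [mem_filter, mem_univ, true_and]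

/-- what remains of `s` -/
private def cdR (J : Finset (Fin t)) (s : Fin t → V × V) : Fin t → Option (V × V) :=
  fun i => if i ∈ J then none else some (s i)

private theorem core_sub_of_ext {d : ℕ} {s : Fin t → V × V} (hs : Simp s) {C' : Finset V}
    {J' : Finset (Fin t)} {r' : Fin t → Option (V × V)} {z : Fin t → V × V}
    (hz : z ∈ cdExt (d + 1) (core (d + 1) (edges s)) (cdJ (core (d + 1) (edges s)) s)
      (cdR (cdJ (core (d + 1) (edges s)) s) s))
    (hz' : z ∈ cdExt (d + 1) C' J' r') : C' ⊆ core (d + 1) (edges s) := by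
  set C := core (d + 1) (edges s) with hC
  by_contra hcon
  have hne : C ≠ C ∪ C' := fun h => hcon (by rw [h]; exact subset_union_right)
  obtain ⟨v, hvX, hvC, hlow⟩ := exists_low (E := edges s) (k := d + 1) (X := C ∪ C')
    (by rw [← hC]; exact subset_union_left) (by rw [← hC]; exact hne)
  rw [← hC] at hvC
  have hvC' : v ∈ C' := by
    rcases mem_union.mp hvX with h | h
    · exact absurd h hvC
    · exact h
  obtain ⟨hz1, hz2, hz3⟩ := mem_cdExt.mp hz
  obtain ⟨hz1', hz2', hz3'⟩ := mem_cdExt.mp hz'
  have hocc := hz3' v hvC'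
  have hnotJ : ∀ i, i ∉ cdJ C s → z i = s i := by
    intro i hi
    have := hz1 i hi
    unfold cdR at this
    rw [if_neg hi] at this
    exact Option.some_injective _ this
  have hle : cdOcc J' z v ≤ nb (edges s) (C ∪ C') v := by
    refine cdOcc_le_nb hs ?_ ?_
    · intro i hi hiv
      refine ⟨hnotJ i fun h => hvC (by rw [← hiv]; exact (hz2 i h).1), ?_⟩
      exact mem_union_right _ (hz2' i hi).2
    · intro i hi hiv
      refine ⟨hnotJ i fun h => hvC (by rw [← hiv]; exact (hz2 i h).2), ?_⟩
      exact mem_union_right _ (hz2' i hi).1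
  omega

private theorem cdJ_sub_of_ext {k : ℕ} {C : Finset V} {s s' : Fin t → V × V}
    {z : Fin t → V × V} (hz : z ∈ cdExt k C (cdJ C s) (cdR (cdJ C s) s))
    (hz' : z ∈ cdExt k C (cdJ C s') (cdR (cdJ C s') s')) : cdJ C s ⊆ cdJ C s' := by
  intro i hi
  by_contra hcon
  have h1 := (mem_cdExt.mp hz).2.1 i hi
  have h2 := (mem_cdExt.mp hz').1 i hcon
  unfold cdR at h2
  rw [if_neg hcon] at h2
  rw [Option.some_injective _ h2] at h1
  exact hcon (mem_cdJ.mpr h1)

end decomp

open Classical in
theorem core_decomp (n t d s' : ℕ) (ϱ : ℝ) (hϱ : 0 ≤ ϱ)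
    (P : ∀ C : Finset (Fin n), Finset (Sym2 C) → Prop)
    (h : ∀ C : Finset (Fin n), C.Nonempty → ∀ M : ℕ, M + KK d + s' = d * C.card →
      ((univ.filter (fun u : Fin M → C × C => u ∈ TT C (d + 1) M ∧ Simp u ∧
        P C (edges u))).card : ℝ) ≤ ϱ * ((TT C (d + 1) M).card : ℝ)) :
    ((univ.filter (fun s : Fin t → Fin n × Fin n => Simp s ∧ Cnt d s' (edges s) ∧
      P (core (d + 1) (edges s)) (resE (edges s) (core (d + 1) (edges s))))).card : ℝ) ≤
        ϱ * (n : ℝ) ^ (2 * t) := by
  set S := univ.filter (fun s : Fin t → Fin n × Fin n => Simp s ∧ Cnt d s' (edges s) ∧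
      P (core (d + 1) (edges s)) (resE (edges s) (core (d + 1) (edges s)))) with hS
  set key : (Fin t → Fin n × Fin n) →
      Finset (Fin n) × Finset (Fin t) × (Fin t → Option (Fin n × Fin n)) := fun s =>
    (core (d + 1) (edges s), cdJ (core (d + 1) (edges s)) s,
      cdR (cdJ (core (d + 1) (edges s)) s) s) with hkey
  set Ext : Finset (Fin n) × Finset (Fin t) × (Fin t → Option (Fin n × Fin n)) →
      Finset (Fin t → Fin n × Fin n) := fun κ => cdExt (d + 1) κ.1 κ.2.1 κ.2.2 with hExt
  have hmemS : ∀ s, s ∈ S ↔ (Simp s ∧ Cnt d s' (edges s) ∧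
      P (core (d + 1) (edges s)) (resE (edges s) (core (d + 1) (edges s)))) := by
    intro s
    rw [hS, mem_filter]
    simp only [mem_univ, true_and]
  -- disjointness
  have hdisj : ∀ s ∈ S, ∀ s₁ ∈ S, ∀ z, z ∈ Ext (key s) → z ∈ Ext (key s₁) → key s = key s₁ := by
    intro s hs s₁ hs₁ z hz hz₁
    have hs1 := ((hmemS s).mp hs).1
    have hs2 := ((hmemS s₁).mp hs₁).1
    have hC : core (d + 1) (edges s) = core (d + 1) (edges s₁) :=
      Subset.antisymm (core_sub_of_ext hs2 hz₁ hz) (core_sub_of_ext hs1 hz hz₁)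
    have hz' : z ∈ cdExt (d + 1) (core (d + 1) (edges s)) (cdJ (core (d + 1) (edges s)) s)
      (cdR (cdJ (core (d + 1) (edges s)) s) s) := hz
    have hz₁' : z ∈ cdExt (d + 1) (core (d + 1) (edges s)) (cdJ (core (d + 1) (edges s)) s₁)
      (cdR (cdJ (core (d + 1) (edges s)) s₁) s₁) := by
      rw [hC]; exact hz₁
    have hJ : cdJ (core (d + 1) (edges s)) s = cdJ (core (d + 1) (edges s)) s₁ :=
      Subset.antisymm (cdJ_sub_of_ext hz' hz₁') (cdJ_sub_of_ext hz₁' hz')
    have hr : cdR (cdJ (core (d + 1) (edges s)) s) s =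
        cdR (cdJ (core (d + 1) (edges s)) s₁) s₁ := by
      funext i
      by_cases hi : i ∈ cdJ (core (d + 1) (edges s)) s
      · have hi' : i ∈ cdJ (core (d + 1) (edges s)) s₁ := by rw [← hJ]; exact hi
        unfold cdR
        rw [if_pos hi, if_pos hi']
      · have hi' : i ∉ cdJ (core (d + 1) (edges s)) s₁ := by rw [← hJ]; exact hi
        rw [← (mem_cdExt.mp hz').1 i hi, ← (mem_cdExt.mp hz₁').1 i hi']
    rw [hkey]
    simp only
    rw [hr, hJ, ← hC]
  -- the bound for one cell
  have hcell : ∀ s ∈ S, ((S.filter (fun a => key a = key s)).card : ℝ) ≤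
      ϱ * ((Ext (key s)).card : ℝ) := by
    intro s hs
    obtain ⟨hsimp, hcnt, hP⟩ := (hmemS s).mp hs
    obtain ⟨hCne, hcard⟩ := hcnt
    obtain ⟨c₀, hc₀⟩ := id hCne
    set C := core (d + 1) (edges s) with hC
    set J := cdJ C s with hJ
    have hM : J.card + KK d + s' = d * C.card := by
      rw [← card_ins_cdJ hsimp]; exact hcard
    refine le_trans ?_ ((h C hCne J.card hM).trans (mul_le_mul_of_nonneg_left ?_ hϱ))
    · -- the cell injects into the sequences `u`
      set e : Fin J.card → Fin t := fun m => (J.equivFin.symm m : Fin t) with he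
      have heJ : ∀ m, e m ∈ J := fun m => (J.equivFin.symm m).2
      have heinj : Function.Injective e := fun m m' hmm =>
        J.equivFin.symm.injective (Subtype.ext hmm)
      have hesurj : ∀ i ∈ J, ∃ m, e m = i := fun i hi =>
        ⟨J.equivFin ⟨i, hi⟩, by rw [he]; simp⟩
      set toC : Fin n → C := fun x => if hx : x ∈ C then ⟨x, hx⟩ else ⟨c₀, hc₀⟩ with htoC
      have htoCv : ∀ x ∈ C, ((toC x : C) : Fin n) = x := by
        intro x hx
        rw [htoC]
        simp only [hx, dif_pos]
      set Φ : (Fin t → Fin n × Fin n) → (Fin J.card → C × C) := fun a m =>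
        (toC (a (e m)).1, toC (a (e m)).2) with hΦ
      have hcellmem : ∀ a ∈ S.filter (fun a => key a = key s),
          Simp a ∧ core (d + 1) (edges a) = C ∧ cdJ C a = J ∧ (∀ i, i ∉ J → a i = s i) ∧
          P C (resE (edges a) C) := by
        intro a ha
        obtain ⟨haS, hak⟩ := mem_filter.mp ha
        obtain ⟨ha1, ha2, ha3⟩ := (hmemS a).mp haS
        rw [hkey] at hak
        simp only [Prod.mk.injEq] at hak
        obtain ⟨hk1, hk2, hk3⟩ := hak
        rw [hk1] at hk2 hk3 ha3
        refine ⟨ha1, hk1, hk2, ?_, ha3⟩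
        intro i hi
        have := congrFun hk3 i
        unfold cdR at this
        rw [if_neg hi, hk2, if_neg hi] at this
        exact Option.some_injective _ this
      refine Nat.cast_le.mpr (card_le_card_of_injOn Φ ?_ ?_)
      · intro a ha
        obtain ⟨ha1, ha2, ha3, ha4, ha5⟩ := hcellmem a (mem_coe.mp ha)
        have haC : ∀ m, (a (e m)).1 ∈ C ∧ (a (e m)).2 ∈ C := by
          intro m
          have : e m ∈ cdJ C a := by rw [ha3]; exact heJ m
          exact mem_cdJ.mp this
        have hv1 : ∀ m, (((Φ a m).1 : C) : Fin n) = (a (e m)).1 := fun m => htoCv _ (haC m).1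
        have hv2 : ∀ m, (((Φ a m).2 : C) : Fin n) = (a (e m)).2 := fun m => htoCv _ (haC m).2
        have hmap : ∀ m, Sym2.map (Subtype.val) s((Φ a m).1, (Φ a m).2) =
            s((a (e m)).1, (a (e m)).2) := by
          intro m
          rw [Sym2.map_mk, hv1, hv2]
        rw [mem_coe, mem_filter]
        refine ⟨mem_univ _, ?_, ⟨?_, ?_⟩, ?_⟩
        · -- in TT
          unfold TT
          rw [mem_filter]
          refine ⟨mem_univ _, fun v => ?_⟩
          have h1 : d + 1 ≤ nb (edges a) C v := by
            have := nb_core (E := edges a) (k := d + 1) (v := (v : Fin n))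
              (by rw [ha2]; exact v.2)
            rwa [ha2] at this
          have h2 := nb_le_cdOcc C a v.2
          rw [ha3] at h2
          refine h1.trans (h2.trans ?_)
          unfold cdOcc occ
          refine add_le_add ?_ ?_
          · refine card_le_card_of_surjOn e ?_
            intro i hi
            obtain ⟨hiJ, hiv⟩ := mem_filter.mp (mem_coe.mp hi)
            obtain ⟨m, rfl⟩ := hesurj i hiJ
            refine ⟨m, mem_coe.mpr (mem_filter.mpr ⟨mem_univ _, Subtype.ext ?_⟩), rfl⟩
            rw [hv1]; exact hiv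
          · refine card_le_card_of_surjOn e ?_
            intro i hi
            obtain ⟨hiJ, hiv⟩ := mem_filter.mp (mem_coe.mp hi)
            obtain ⟨m, rfl⟩ := hesurj i hiJ
            refine ⟨m, mem_coe.mpr (mem_filter.mpr ⟨mem_univ _, Subtype.ext ?_⟩), rfl⟩
            rw [hv2]; exact hiv
        · intro m hm
          have := congrArg (Subtype.val) hm
          rw [hv1, hv2] at this
          exact ha1.1 _ this
        · intro m m' hmm
          have h1 := congrArg (Sym2.map (Subtype.val)) hmm
          simp only at h1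
          rw [hmap, hmap] at h1
          exact heinj (ha1.2 h1)
        · have hres : edges (Φ a) = resE (edges a) C := by
            ext q
            unfold resE
            rw [mem_edges, mem_filter]
            constructor
            · rintro ⟨m, rfl⟩
              refine ⟨mem_univ _, ?_⟩
              rw [hmap]
              exact mem_edges.mpr ⟨e m, rfl⟩
            · rintro ⟨_, hq⟩
              obtain ⟨i, hi⟩ := mem_edges.mp hq
              have hiJ : i ∈ J := by
                rw [← ha3, mem_cdJ]
                have hmem : ∀ x ∈ Sym2.map (Subtype.val : C → Fin n) q, x ∈ C := by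
                  intro x hx
                  obtain ⟨y, _, rfl⟩ := Sym2.mem_map.mp hx
                  exact y.2
                rw [← hi] at hmem
                exact ⟨hmem _ (Sym2.mem_mk_left _ _), hmem _ (Sym2.mem_mk_right _ _)⟩
              obtain ⟨m, rfl⟩ := hesurj i hiJ
              refine ⟨m, Sym2.map.injective Subtype.val_injective ?_⟩
              rw [hmap, hi]
          rw [hres]
          exact ha5
      · intro a ha b hb hab
        obtain ⟨ha1, ha2, ha3, ha4, ha5⟩ := hcellmem a (mem_coe.mp ha)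
        obtain ⟨hb1, hb2, hb3, hb4, hb5⟩ := hcellmem b (mem_coe.mp hb)
        funext i
        by_cases hi : i ∈ J
        · obtain ⟨m, rfl⟩ := hesurj i hi
          have hac : (a (e m)).1 ∈ C ∧ (a (e m)).2 ∈ C := mem_cdJ.mp (by rw [ha3]; exact hi)
          have hbc : (b (e m)).1 ∈ C ∧ (b (e m)).2 ∈ C := mem_cdJ.mp (by rw [hb3]; exact hi)
          have h1 := congrFun hab m
          have h2 := congrArg (fun x : C × C => ((x.1 : C) : Fin n)) h1
          have h3 := congrArg (fun x : C × C => ((x.2 : C) : Fin n)) h1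
          simp only [hΦ] at h2 h3
          rw [htoCv _ hac.1, htoCv _ hbc.1] at h2
          rw [htoCv _ hac.2, htoCv _ hbc.2] at h3
          exact Prod.ext h2 h3
        · rw [ha4 i hi, hb4 i hi]
    · -- `TT` injects into the extensions
      set Ψ : (Fin J.card → C × C) → (Fin t → Fin n × Fin n) := fun u i =>
        if hi : i ∈ J then (((u (J.equivFin ⟨i, hi⟩)).1 : C), ((u (J.equivFin ⟨i, hi⟩)).2 : C))
        else s i with hΨ
      have hΨJ : ∀ u (i : Fin t) (hi : i ∈ J), Ψ u i =
          ((((u (J.equivFin ⟨i, hi⟩)).1 : C) : Fin n), (((u (J.equivFin ⟨i, hi⟩)).2 : C) : Fin n)) := by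
        intro u i hi
        rw [hΨ]
        simp only [hi, dif_pos]
      have hΨe : ∀ u m, Ψ u (J.equivFin.symm m : Fin t) =
          ((((u m).1 : C) : Fin n), (((u m).2 : C) : Fin n)) := by
        intro u m
        rw [hΨJ u _ (J.equivFin.symm m).2]
        simp
      refine Nat.cast_le.mpr (card_le_card_of_injOn Ψ ?_ ?_)
      · intro u hu
        have hu' : ∀ v, d + 1 ≤ occ u v := (mem_filter.mp (mem_coe.mp hu)).2
        rw [mem_coe]
        show Ψ u ∈ cdExt (d + 1) C J (cdR J s)
        rw [mem_cdExt]
        refine ⟨?_, ?_, ?_⟩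
        · intro i hi
          unfold cdR
          rw [if_neg hi, hΨ]
          simp only [hi, dif_neg, not_false_eq_true]
        · intro i hi
          rw [hΨJ u i hi]
          exact ⟨((u (J.equivFin ⟨i, hi⟩)).1 : C).2, ((u (J.equivFin ⟨i, hi⟩)).2 : C).2⟩
        · intro v hv
          refine (hu' ⟨v, hv⟩).trans ?_
          unfold occ cdOcc
          refine add_le_add ?_ ?_
          · refine card_le_card_of_injOn (fun m => (J.equivFin.symm m : Fin t)) ?_ ?_
            · intro m hm
              have hm' := (mem_filter.mp (mem_coe.mp hm)).2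
              rw [mem_coe, mem_filter]
              refine ⟨(J.equivFin.symm m).2, ?_⟩
              rw [hΨe, hm']
            · intro m _ m' _ hmm
              exact J.equivFin.symm.injective (Subtype.ext hmm)
          · refine card_le_card_of_injOn (fun m => (J.equivFin.symm m : Fin t)) ?_ ?_
            · intro m hm
              have hm' := (mem_filter.mp (mem_coe.mp hm)).2
              rw [mem_coe, mem_filter]
              refine ⟨(J.equivFin.symm m).2, ?_⟩
              rw [hΨe, hm']
            · intro m _ m' _ hmm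
              exact J.equivFin.symm.injective (Subtype.ext hmm)
      · intro u _ u' _ huu
        funext m
        have h1 := congrFun huu (J.equivFin.symm m : Fin t)
        rw [hΨe, hΨe] at h1
        have h2 := Prod.mk.inj h1
        exact Prod.ext (Subtype.ext h2.1) (Subtype.ext h2.2)
  -- summation
  have hsum : (S.card : ℝ) = ∑ κ ∈ S.image key, ((S.filter (fun a => key a = κ)).card : ℝ) := by
    rw [card_eq_sum_card_image key S]
    push_cast
    rfl
  rw [hsum]
  have hle : ∑ κ ∈ S.image key, ((S.filter (fun a => key a = κ)).card : ℝ) ≤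
      ∑ κ ∈ S.image key, ϱ * ((Ext κ).card : ℝ) := by
    refine sum_le_sum fun κ hκ => ?_
    obtain ⟨s, hs, rfl⟩ := mem_image.mp hκ
    exact hcell s hs
  refine hle.trans ?_
  rw [← mul_sum]
  refine mul_le_mul_of_nonneg_left ?_ hϱ
  have hU : ∑ κ ∈ S.image key, (Ext κ).card ≤ (n * n) ^ t := by
    rw [← card_biUnion]
    · refine (card_le_univ _).trans (le_of_eq ?_)
      simp
    · intro κ hκ κ' hκ' hne
      obtain ⟨s, hs, rfl⟩ := mem_image.mp hκ
      obtain ⟨s₁, hs₁, rfl⟩ := mem_image.mp hκ'
      rw [Function.onFun, Finset.disjoint_left]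
      intro z hz hz'
      exact hne (hdisj s hs s₁ hs₁ z hz hz')
  have : ((∑ κ ∈ S.image key, (Ext κ).card : ℕ) : ℝ) ≤ (((n * n) ^ t : ℕ) : ℝ) :=
    Nat.cast_le.mpr hU
  push_cast at this
  refine this.trans (le_of_eq ?_)
  rw [pow_mul]
  ring

end Pool.Agent.Helper50.RG
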