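import Pool.Agent.Helper50.RG.Base

/-!
# RG-15 : peeling

`peel_count`: induct on `card Y`: if `core (d+1) (ins E Y) ≠ Y`, there is `v ∈ Y` outside the core
with less than `d + 1` neighbours in `Y` (`exists_low` for `ins E Y`, `X = Y`), the core of
`ins E (Y.erase v)` is the same, and `card_ins_erase`.
`degenerate`: `core (d+1) (ins E Y) = ∅`: remove vertices of degree at most `d` one by one until `s`
vertices are left; each step loses at most `d` edges.
-/

set_option autoImplicit false

namespace Pool.Agent.Helper50.RG

open Finset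

variable {V : Type} [Fintype V] [DecidableEq V] {E : Finset (Sym2 V)} {d : ℕ}

/-- a vertex of low degree outside the core, and its removal keeps the core -/
private theorem step (hL : Lpl E) {Y : Finset V} (h : core (d + 1) (ins E Y) ≠ Y) :
    ∃ v ∈ Y, core (d + 1) (ins E (Y.erase v)) = core (d + 1) (ins E Y) ∧
      (ins E Y).card ≤ (ins E (Y.erase v)).card + d := by
  have hsub : core (d + 1) (ins E Y) ⊆ Y := core_ins_subset (by omega) E Y
  obtain ⟨v, hvY, hvc, hnb⟩ := exists_low hsub h
  refine ⟨v, hvY, ?_, ?_⟩
  · apply Finset.Subset.antisymm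
    · exact core_mono _ (ins_mono (Finset.Subset.refl _) (Finset.erase_subset _ _))
    · have hsub' : core (d + 1) (ins E Y) ⊆ Y.erase v := by
        intro w hw
        rw [Finset.mem_erase]
        refine ⟨?_, hsub hw⟩
        rintro rfl
        exact hvc hw
      apply subset_core
      intro w hw
      rw [nb_ins hsub' (hsub' hw)]
      have h1 := nb_core hw
      rw [nb_ins hsub (hsub hw)] at h1
      exact h1
  · rw [card_ins_erase hL hvY]
    rw [nb_ins (Finset.Subset.refl _) hvY] at hnb
    omega

theorem peel_count (hL : Lpl E) (Y : Finset V) :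
    (ins E Y).card ≤ (ins E (core (d + 1) (ins E Y))).card +
      d * (Y.card - (core (d + 1) (ins E Y)).card) := by
  induction hn : Y.card generalizing Y with
  | zero =>
    have hY : Y = ∅ := Finset.card_eq_zero.mp hn
    subst hY
    have h1 : ins E (∅ : Finset V) = ∅ := by
      apply Finset.eq_empty_of_forall_notMem
      intro e he
      rw [mem_ins] at he
      induction e using Sym2.ind with
      | _ x y => exact absurd (he.2 x (by simp)) (by simp)
    simp [h1]
  | succ n ih =>
    by_cases h : core (d + 1) (ins E Y) = Y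
    · rw [h]
      omega
    · obtain ⟨v, hv, hc, hcard⟩ := step hL h
      have hn' : (Y.erase v).card = n := by
        rw [Finset.card_erase_of_mem hv]
        omega
      have h1 := ih (Y.erase v) hn'
      rw [hc] at h1
      have h2 : (core (d + 1) (ins E Y)).card ≤ n := by
        rw [← hc, ← hn']
        exact Finset.card_le_card (core_ins_subset (by omega) E _)
      have h3 : n + 1 - (core (d + 1) (ins E Y)).card =
          (n - (core (d + 1) (ins E Y)).card) + 1 := by omega
      rw [h3, Nat.mul_add]
      omega

theorem degenerate (hL : Lpl E) {Y : Finset V} (hY : core (d + 1) (ins E Y) = ∅) {r s : ℕ}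
    (he : d * Y.card ≤ (ins E Y).card + r) (hs : s ≤ Y.card) :
    ∃ S ⊆ Y, S.card = s ∧ d * s ≤ (ins E S).card + r := by
  induction hn : Y.card generalizing Y with
  | zero =>
    have : s = 0 := by omega
    subst this
    exact ⟨∅, Finset.empty_subset _, by simp, by simp⟩
  | succ n ih =>
    by_cases hsY : s = Y.card
    · exact ⟨Y, Finset.Subset.refl _, hsY.symm, by rw [hsY]; exact he⟩
    · have h : core (d + 1) (ins E Y) ≠ Y := by
        rw [hY]
        intro h'
        rw [← h'] at hn
        simp at hn
      obtain ⟨v, hv, hc, hcard⟩ := step hL h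
      have hn' : (Y.erase v).card = n := by
        rw [Finset.card_erase_of_mem hv]
        omega
      have h2 : d * Y.card = d * (Y.erase v).card + d := by
        rw [hn', hn, Nat.mul_add, Nat.mul_one]
      obtain ⟨S, hSY, hSc, hSe⟩ := ih (Y := Y.erase v) (hc.trans hY) (by omega) (by omega) hn'
      exact ⟨S, hSY.trans (Finset.erase_subset _ _), hSc, hSe⟩

/-- under `E2`, a set with more than `d |Y| - r` edges has a non-empty core -/
theorem core_nonempty (hd : 2 ≤ d) (hL : Lpl E) {ε : ℝ} {N r : ℕ} (hE : E2 ε N E)
    (hr : 2 * (r : ℝ) + 1 ≤ ε * N) {Y : Finset V} (hY : ε * N ≤ Y.card)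
    (he : d * Y.card ≤ (ins E Y).card + r) : (core (d + 1) (ins E Y)).Nonempty := by
  rw [Finset.nonempty_iff_ne_empty]
  intro hc
  obtain ⟨S, hSY, hSc, hSe⟩ := degenerate hL hc (s := 2 * r + 1) he
    (by exact_mod_cast hr.trans hY)
  have hne : S.Nonempty := by
    rw [← Finset.card_pos]
    omega
  have h1 := hE S hne (by rw [hSc]; push_cast; exact hr)
  have h2 : 2 * (2 * r + 1) ≤ d * (2 * r + 1) := Nat.mul_le_mul_right _ hd
  rw [hSc] at h1
  omega

/-- a non-empty set of minimum degree at least `3` has more than `ε N` vertices -/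
theorem core_large (hL : Lpl E) {ε : ℝ} {N : ℕ} (hE : E2 ε N E) {A : Finset V}
    (hA : A.Nonempty) (h3 : ∀ v ∈ A, 3 ≤ nb E A v) : ε * N < A.card := by
  by_contra hcon
  push Not at hcon
  have h1 := hE A hA hcon
  have h2 := sum_nb hL A
  have h5 := Finset.card_nsmul_le_sum A (fun v => nb E A v) 3 h3
  rw [smul_eq_mul] at h5
  omega

end Pool.Agent.Helper50.RG
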