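import Pool.Agent.Helper50.RG.ProcB

/-!
# RG-25 : the process and uniform sequences of pairs

`prob_edg`: for a set `E` of `t` non-loops the number of orderings `σ` with `edg σ t = E` is
`t! (C(n,2) - t)!`, and the number of sequences `u : Fin t → Fin n × Fin n` with `Simp u`,
`edges u = E` is `t! 2^t`. (Or: group both sides by the injective function `Fin t → Pr n`.)
So `prob n (Q (edg σ t)) * #Simp = #(Simp ∧ Q)`.
`simp_ge`: the number of simple sequences is `∏_{i<t} (n (n-1) - 2 i)`, which is at least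
`n^(2t) (1 - (2 d + 1) / n)^(d n) ≥ n^(2t) 4^(-(2d+1) d)` for `t ≤ d n`, `n ≥ 2 (2 d + 1)`.
-/

set_option autoImplicit false

namespace Pool.Agent.Helper50.RG

open Finset

/-- the sequence `u` of pairs represents the first `t` edges of `σ` -/
private def sqM {n t : ℕ} (ht : t ≤ n.choose 2) (σ : Ord n) (u : Fin t → Fin n × Fin n) : Prop :=
  ∀ i : Fin t, s((u i).1, (u i).2) = (σ (Fin.castLE ht i) : Sym2 (Fin n))

private theorem sqM_edges {n t : ℕ} {ht : t ≤ n.choose 2} {σ : Ord n} {u : Fin t → Fin n × Fin n}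
    (h : sqM ht σ u) : edges u = edg σ t := by
  ext e
  unfold edges edg
  simp only [mem_image, mem_univ, true_and, mem_filter]
  constructor
  · rintro ⟨i, rfl⟩
    exact ⟨Fin.castLE ht i, i.2, (h i).symm⟩
  · rintro ⟨j, hj, rfl⟩
    exact ⟨⟨j, hj⟩, h ⟨j, hj⟩⟩

private theorem sqM_simp {n t : ℕ} {ht : t ≤ n.choose 2} {σ : Ord n} {u : Fin t → Fin n × Fin n}
    (h : sqM ht σ u) : Simp u := by
  constructor
  · intro i hi
    have h1 := (σ (Fin.castLE ht i)).2
    rw [← h i, Sym2.mk_isDiag_iff] at h1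
    exact h1 hi
  · intro i j hij
    have hij' : s((u i).1, (u i).2) = s((u j).1, (u j).2) := hij
    rw [h i, h j] at hij'
    exact Fin.castLE_injective ht (σ.injective (Subtype.ext hij'))

open Classical in
/-- every ordering is represented by at least `2 ^ t` sequences -/
private theorem sqM_above {n t : ℕ} (ht : t ≤ n.choose 2) (σ : Ord n)
    (B : Finset (Fin t → Fin n × Fin n)) (hB : ∀ u, sqM ht σ u → u ∈ B) :
    2 ^ t ≤ (Finset.bipartiteAbove (sqM ht) B σ).card := by
  have hout : ∀ i : Fin t, ∃ p : Fin n × Fin n,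
      s(p.1, p.2) = (σ (Fin.castLE ht i) : Sym2 (Fin n)) := by
    intro i
    induction h : (σ (Fin.castLE ht i) : Sym2 (Fin n)) using Sym2.inductionOn with
    | _ a b => exact ⟨(a, b), rfl⟩
  choose p hp using hout
  have hne : ∀ i, (p i).1 ≠ (p i).2 := by
    intro i hi
    have h1 := (σ (Fin.castLE ht i)).2
    rw [← hp i, Sym2.mk_isDiag_iff] at h1
    exact h1 hi
  have hcard : (univ : Finset (Fin t → Bool)).card = 2 ^ t := by
    rw [Finset.card_univ, Fintype.card_fun, Fintype.card_bool, Fintype.card_fin]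
  rw [← hcard]
  refine Finset.card_le_card_of_injOn
    (fun ε i => if ε i then p i else ((p i).2, (p i).1)) ?_ ?_
  · intro ε _
    have hM : sqM ht σ (fun i => if ε i then p i else ((p i).2, (p i).1)) := by
      intro i
      by_cases h : ε i = true
      · simp only [h, if_true]
        exact hp i
      · simp only [h]
        rw [Sym2.eq_swap]
        exact hp i
    rw [Finset.mem_coe, Finset.mem_bipartiteAbove]
    exact ⟨hB _ hM, hM⟩
  · intro ε _ ε' _ h
    funext i
    have h1 := congrFun h i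
    simp only at h1
    cases h2 : ε i <;> cases h3 : ε' i
    · rfl
    · rw [h2, h3] at h1
      simp only [Bool.false_eq_true, if_false, if_true] at h1
      exact absurd (congrArg Prod.snd h1) (hne i)
    · rw [h2, h3] at h1
      simp only [Bool.false_eq_true, if_false, if_true] at h1
      exact absurd (congrArg Prod.fst h1) (hne i)
    · rfl

open Classical in
/-- every sequence represents at most `(C(n, 2) - t)!` orderings -/
private theorem sqM_below {n t : ℕ} (ht : t ≤ n.choose 2) (u : Fin t → Fin n × Fin n)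
    (A : Finset (Ord n)) :
    (Finset.bipartiteBelow (sqM ht) A u).card ≤ (n.choose 2 - t).factorial := by
  rcases (Finset.bipartiteBelow (sqM ht) A u).eq_empty_or_nonempty with h | ⟨σ₀, hσ₀⟩
  · rw [h]
    simp
  · rw [Finset.mem_bipartiteBelow] at hσ₀
    have hfix : ∀ σ ∈ Finset.bipartiteBelow (sqM ht) A u, ∀ i : Fin (n.choose 2),
        ¬ (t ≤ (i : ℕ)) → (σ.trans σ₀.symm) i = i := by
      intro σ hσ i hi
      rw [Finset.mem_bipartiteBelow] at hσ
      have h1 := hσ.2 ⟨i, not_le.1 hi⟩
      have h2 := hσ₀.2 ⟨i, not_le.1 hi⟩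
      rw [h1] at h2
      have h3 : σ (Fin.castLE ht ⟨i, not_le.1 hi⟩) = σ₀ (Fin.castLE ht ⟨i, not_le.1 hi⟩) :=
        Subtype.ext h2
      have h4 : Fin.castLE ht ⟨i, not_le.1 hi⟩ = i := Fin.ext rfl
      rw [h4] at h3
      rw [Equiv.trans_apply, h3, Equiv.symm_apply_apply]
    have h1 : (Finset.bipartiteBelow (sqM ht) A u).card ≤
        Fintype.card {f : Equiv.Perm (Fin (n.choose 2)) // ∀ i : Fin (n.choose 2), ¬ (t ≤ (i : ℕ)) → f i = i} := by
      rw [← Fintype.card_coe]
      refine Fintype.card_le_of_injective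
        (fun σ => (⟨σ.1.trans σ₀.symm, hfix σ.1 σ.2⟩ :
          {f : Equiv.Perm (Fin (n.choose 2)) // ∀ i : Fin (n.choose 2), ¬ (t ≤ (i : ℕ)) → f i = i})) ?_
      intro σ τ h
      have h2 : σ.1.trans σ₀.symm = τ.1.trans σ₀.symm := congrArg Subtype.val h
      apply Subtype.ext
      ext1 i
      have h3 := congrArg (fun f : Equiv.Perm (Fin (n.choose 2)) => f i) h2
      simp only [Equiv.trans_apply] at h3
      exact σ₀.symm.injective h3
    refine h1.trans (le_of_eq ?_)
    rw [Fintype.card_congr (Equiv.Perm.subtypeEquivSubtypePerm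
      (fun i : Fin (n.choose 2) => t ≤ (i : ℕ))).symm, Fintype.card_perm]
    congr 1
    have h5 := Fintype.card_subtype_compl (fun i : Fin (n.choose 2) => (i : ℕ) < t)
    have h6 : Fintype.card {i : Fin (n.choose 2) // (i : ℕ) < t} = t := by
      rw [← Fintype.card_fin t]
      refine Fintype.card_congr ⟨fun i => ⟨i.1, by simpa using i.2⟩,
        fun i => ⟨⟨i.1, by have := i.2; simp at this; omega⟩, by simpa using i.2⟩, ?_, ?_⟩
      · intro i; rfl
      · intro i; rfl
    rw [h6, Fintype.card_fin] at h5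
    rw [← h5]
    refine Fintype.card_congr (Equiv.subtypeEquivRight fun i => ?_)
    exact not_lt.symm

open Classical in
private theorem sq_count {n t : ℕ} (ht : t ≤ n.choose 2) (Q : Finset (Sym2 (Fin n)) → Prop) :
    (univ.filter (fun σ : Ord n => Q (edg σ t))).card * 2 ^ t ≤
      (univ.filter (fun u : Fin t → Fin n × Fin n => Simp u ∧ Q (edges u))).card *
        (n.choose 2 - t).factorial := by
  refine Finset.card_mul_le_card_mul (sqM ht) ?_ ?_
  · intro σ hσ
    rw [mem_filter] at hσ
    refine sqM_above ht σ _ ?_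
    intro u hu
    rw [mem_filter]
    refine ⟨mem_univ _, sqM_simp hu, ?_⟩
    rw [sqM_edges hu]
    exact hσ.2
  · intro u _
    exact sqM_below ht u _

open Classical in
theorem prob_le_seq (d : ℕ) : ∃ C₀ : ℝ, 0 < C₀ ∧ ∃ n₀ : ℕ, ∀ n ≥ n₀, ∀ t ≤ d * n,
    ∀ Q : Finset (Sym2 (Fin n)) → Prop,
      prob n (fun σ => Q (edg σ t)) ≤
        C₀ * ((univ.filter (fun u : Fin t → Fin n × Fin n => Simp u ∧ Q (edges u))).card : ℝ) /
          (n : ℝ) ^ (2 * t) := by
  refine ⟨Real.exp (2 * (2 * d + 1) * d), Real.exp_pos _, 2 * (2 * d + 1), ?_⟩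
  intro n hn t ht Q
  have hn1 : 1 ≤ n := by omega
  have hn0 : (0 : ℝ) < n := by exact_mod_cast hn1
  have hm2 : ((n.choose 2 : ℕ) : ℝ) = n * (n - 1) / 2 := Nat.cast_choose_two ℝ n
  have hnR : (2 : ℝ) * (2 * d + 1) ≤ n := by exact_mod_cast hn
  have htR : (t : ℝ) ≤ d * n := by exact_mod_cast ht
  have htm : t ≤ n.choose 2 := by
    have h1 : (t : ℝ) ≤ ((n.choose 2 : ℕ) : ℝ) := by
      rw [hm2]
      nlinarith
    exact_mod_cast h1
  set m := n.choose 2 with hm
  set a := (univ.filter (fun σ : Ord n => Q (edg σ t))).card with ha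
  set b := (univ.filter (fun u : Fin t → Fin n × Fin n => Simp u ∧ Q (edges u))).card with hb
  have hcount : a * 2 ^ t ≤ b * (m - t).factorial := sq_count htm Q
  have hcardO : Fintype.card (Ord n) = m.factorial := by
    have hPr : Fintype.card (Pr n) = m := by
      have := Sym2.card_subtype_not_diag (α := Fin n)
      rw [Fintype.card_fin] at this
      rw [hm, ← this]
    have e : Fin (n.choose 2) ≃ Pr n := (Fintype.equivFinOfCardEq hPr).symm
    rw [Fintype.card_equiv e, Fintype.card_fin]
  have hprob : prob n (fun σ => Q (edg σ t)) = (a : ℝ) / (m.factorial : ℝ) := by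
    unfold prob
    rw [hcardO]
  rw [hprob]
  have hdesc : ((m - t).factorial : ℝ) * (m.descFactorial t : ℝ) = (m.factorial : ℝ) := by
    exact_mod_cast Nat.factorial_mul_descFactorial htm
  have hf0 : (0 : ℝ) < ((m - t).factorial : ℝ) := by exact_mod_cast Nat.factorial_pos _
  have hm0 : (0 : ℝ) < (m.factorial : ℝ) := by exact_mod_cast Nat.factorial_pos _
  -- the main estimate
  have key : (n : ℝ) ^ (2 * t) ≤
      Real.exp (2 * (2 * d + 1) * d) * ((2 : ℝ) ^ t * (m.descFactorial t : ℝ)) := by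
    set x : ℝ := (2 * d + 1) / n with hx
    have hx0 : 0 ≤ x := by positivity
    have hx1 : x ≤ 1 / 2 := by
      rw [hx, div_le_iff₀ hn0]
      linarith
    have h1 : (1 : ℝ) ≤ Real.exp (2 * x) * (1 - x) := by
      have h2 := Real.add_one_le_exp (2 * x)
      have h3 : (1 : ℝ) ≤ (2 * x + 1) * (1 - x) := by nlinarith
      exact h3.trans (mul_le_mul_of_nonneg_right h2 (by linarith))
    have h2 : (2 : ℝ) ^ t * (m.descFactorial t : ℝ) =
        ∏ i ∈ range t, (2 * ((m : ℝ) - i)) := by
      rw [Nat.descFactorial_eq_prod_range, Finset.prod_mul_distrib, Finset.prod_const,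
        Finset.card_range]
      congr 1
      push_cast
      refine Finset.prod_congr rfl fun i hi => ?_
      rw [Nat.cast_sub]
      exact (Finset.mem_range.1 hi).le.trans htm
    have h3 : ((n : ℝ) ^ 2 * (1 - x)) ^ t ≤ ∏ i ∈ range t, (2 * ((m : ℝ) - i)) := by
      rw [← Finset.card_range t, ← Finset.prod_const, Finset.card_range]
      refine Finset.prod_le_prod (fun i _ => ?_) fun i hi => ?_
      · have : 0 ≤ 1 - x := by linarith
        positivity
      · have hi' : (i : ℝ) ≤ d * n := by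
          have : (i : ℝ) ≤ t := by exact_mod_cast (Finset.mem_range.1 hi).le
          linarith
        have h4 : (n : ℝ) ^ 2 * (1 - x) = n ^ 2 - (2 * d + 1) * n := by
          rw [hx]
          field_simp
        rw [h4, hm2]
        nlinarith
    have h5 : Real.exp (2 * x) ^ t ≤ Real.exp (2 * (2 * d + 1) * d) := by
      rw [← Real.exp_nat_mul]
      refine Real.exp_le_exp.2 ?_
      have h6 : (t : ℝ) * x ≤ d * n * x := mul_le_mul_of_nonneg_right htR hx0
      have h7 : (d : ℝ) * n * x = d * (2 * d + 1) := by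
        rw [hx]
        field_simp
      nlinarith
    calc (n : ℝ) ^ (2 * t) = ((n : ℝ) ^ 2) ^ t := by rw [pow_mul]
      _ ≤ ((n : ℝ) ^ 2 * (Real.exp (2 * x) * (1 - x))) ^ t := by
          refine pow_le_pow_left₀ (by positivity) ?_ t
          exact le_mul_of_one_le_right (by positivity) h1
      _ = Real.exp (2 * x) ^ t * ((n : ℝ) ^ 2 * (1 - x)) ^ t := by
          rw [← mul_pow]
          congr 1
          ring
      _ ≤ Real.exp (2 * (2 * d + 1) * d) * ∏ i ∈ range t, (2 * ((m : ℝ) - i)) := by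
          refine mul_le_mul h5 h3 ?_ (Real.exp_pos _).le
          have : 0 ≤ 1 - x := by linarith
          positivity
      _ = _ := by rw [h2]
  rw [div_le_div_iff₀ hm0 (by positivity)]
  have hcR : (a : ℝ) * 2 ^ t ≤ b * ((m - t).factorial : ℝ) := by exact_mod_cast hcount
  calc (a : ℝ) * (n : ℝ) ^ (2 * t)
      ≤ (a : ℝ) * (Real.exp (2 * (2 * d + 1) * d) * ((2 : ℝ) ^ t * (m.descFactorial t : ℝ))) :=
        mul_le_mul_of_nonneg_left key (Nat.cast_nonneg _)
    _ = Real.exp (2 * (2 * d + 1) * d) * (m.descFactorial t : ℝ) * ((a : ℝ) * 2 ^ t) := by ring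
    _ ≤ Real.exp (2 * (2 * d + 1) * d) * (m.descFactorial t : ℝ) *
        (b * ((m - t).factorial : ℝ)) :=
        mul_le_mul_of_nonneg_left hcR (by positivity)
    _ = Real.exp (2 * (2 * d + 1) * d) * b * (m.factorial : ℝ) := by
        rw [← hdesc]
        ring

end Pool.Agent.Helper50.RG
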