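import Pool.Agent.Helper50.RG.GeoD

/-!
# RG-14 : the events of the core as events of the type `C`

The embedding `Subtype.val : C → V` gives bijections of subsets of `C` (as a type) with
`Finset`s `B ⊆ C`: `B ↦ B.map`. Under it `ins`, `nb`, `incd`, `IsB`, `rk` (use `rk_map`,
`image_resE` of RG-13) correspond. `E1`-`E3` for `E` with `n` and constants imply those for
`resE E C` with `N`, since `ε n ≤ N ≤ n`.
-/

set_option autoImplicit false

namespace Pool.Agent.Helper50.RG

open Finset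

variable {V : Type} [Fintype V] [DecidableEq V] {d : ℕ} {E : Finset (Sym2 V)} {C : Finset V}

/-- the image in `V` of a set of elements of the type `C` -/
private def trUp (B : Finset C) : Finset V := B.map (Function.Embedding.subtype (· ∈ C))

private theorem tr_mem_up {B : Finset C} {v : V} : v ∈ trUp B ↔ ∃ h : v ∈ C, (⟨v, h⟩ : C) ∈ B := by
  unfold trUp
  rw [Finset.mem_map]
  constructor
  · rintro ⟨a, ha, rfl⟩
    exact ⟨a.2, ha⟩
  · rintro ⟨h, hb⟩
    exact ⟨⟨v, h⟩, hb, rfl⟩

private theorem tr_coe_mem_up {B : Finset C} {v : C} : (v : V) ∈ trUp B ↔ v ∈ B := by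
  rw [tr_mem_up]
  constructor
  · rintro ⟨_, hb⟩
    exact hb
  · intro hb
    exact ⟨v.2, hb⟩

private theorem tr_card_up (B : Finset C) : (trUp B).card = B.card := Finset.card_map _

private theorem tr_up_subset (B : Finset C) : trUp B ⊆ C := by
  intro v hv
  obtain ⟨h, _⟩ := tr_mem_up.1 hv
  exact h

private theorem tr_up_nonempty {B : Finset C} : (trUp B).Nonempty ↔ B.Nonempty := by
  unfold trUp
  exact Finset.map_nonempty

private theorem tr_exists_up {B : Finset V} (h : B ⊆ C) : ∃ B' : Finset C, trUp B' = B := by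
  refine ⟨univ.filter (fun v : C => (v : V) ∈ B), ?_⟩
  ext v
  rw [tr_mem_up]
  constructor
  · rintro ⟨hC, hv⟩
    exact (mem_filter.1 hv).2
  · intro hv
    exact ⟨h hv, mem_filter.2 ⟨mem_univ _, hv⟩⟩

private theorem tr_up_univ : trUp (univ : Finset C) = C := by
  ext v
  rw [tr_mem_up]
  constructor
  · rintro ⟨h, _⟩
    exact h
  · intro h
    exact ⟨h, mem_univ _⟩

private theorem tr_up_sdiff (B : Finset C) : trUp (univ \ B) = C \ trUp B := by
  ext v
  rw [tr_mem_up, mem_sdiff, tr_mem_up]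
  constructor
  · rintro ⟨h, hv⟩
    refine ⟨h, ?_⟩
    rintro ⟨_, hb⟩
    exact (mem_sdiff.1 hv).2 hb
  · rintro ⟨h, hv⟩
    exact ⟨h, mem_sdiff.2 ⟨mem_univ _, fun hb => hv ⟨h, hb⟩⟩⟩

private theorem tr_mem_resE {e : Sym2 C} : e ∈ resE E C ↔ Sym2.map Subtype.val e ∈ E := by
  unfold resE
  rw [mem_filter]
  exact ⟨fun h => h.2, fun h => ⟨mem_univ _, h⟩⟩

private theorem tr_map_inj : Function.Injective (Sym2.map (Subtype.val : C → V)) :=
  Sym2.map.injective Subtype.val_injective

private theorem tr_image_ins (B : Finset C) :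
    (ins (resE E C) B).image (Sym2.map Subtype.val) = ins E (trUp B) := by
  ext e
  rw [mem_image]
  unfold ins
  constructor
  · rintro ⟨a, ha, rfl⟩
    rw [mem_inter] at ha ⊢
    refine ⟨tr_mem_resE.1 ha.1, ?_⟩
    have h2 := ha.2
    revert h2
    refine Sym2.ind (fun x y => ?_) a
    intro h2
    rw [Sym2.map_mk, Finset.mk_mem_sym2_iff]
    rw [Finset.mk_mem_sym2_iff] at h2
    exact ⟨tr_coe_mem_up.2 h2.1, tr_coe_mem_up.2 h2.2⟩
  · rw [mem_inter]
    refine Sym2.ind (fun x y => ?_) e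
    rintro ⟨h1, h2⟩
    rw [Finset.mk_mem_sym2_iff] at h2
    obtain ⟨hx, hx'⟩ := tr_mem_up.1 h2.1
    obtain ⟨hy, hy'⟩ := tr_mem_up.1 h2.2
    refine ⟨s(⟨x, hx⟩, ⟨y, hy⟩), ?_, by rw [Sym2.map_mk]⟩
    rw [mem_inter, Finset.mk_mem_sym2_iff]
    refine ⟨tr_mem_resE.2 ?_, hx', hy'⟩
    rw [Sym2.map_mk]
    exact h1

private theorem tr_card_ins (B : Finset C) : (ins (resE E C) B).card = (ins E (trUp B)).card := by
  rw [← tr_image_ins, Finset.card_image_of_injective _ tr_map_inj]

private theorem tr_nb_up (B : Finset C) (v : C) : nb (resE E C) B v = nb E (trUp B) v := by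
  unfold nb
  have h : (trUp B).filter (fun w => s((v : V), w) ∈ E)
      = (B.filter (fun w => s(v, w) ∈ resE E C)).map
        (Function.Embedding.subtype (· ∈ C)) := by
    ext w
    rw [mem_filter, mem_map]
    constructor
    · rintro ⟨hw, he⟩
      obtain ⟨h, hb⟩ := tr_mem_up.1 hw
      refine ⟨⟨w, h⟩, mem_filter.2 ⟨hb, tr_mem_resE.2 ?_⟩, rfl⟩
      rw [Sym2.map_mk]
      exact he
    · rintro ⟨a, ha, rfl⟩
      rw [mem_filter] at ha
      refine ⟨tr_coe_mem_up.2 ha.1, ?_⟩
      have h := tr_mem_resE.1 ha.2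
      rw [Sym2.map_mk] at h
      exact h
  rw [h, Finset.card_map]

private theorem tr_isB_up (B : Finset C) : IsB d (resE E C) univ B ↔ IsB d E C (trUp B) := by
  unfold IsB
  constructor
  · rintro ⟨_, h⟩
    refine ⟨tr_up_subset B, ?_⟩
    intro v hv
    obtain ⟨hC, hb⟩ := tr_mem_up.1 hv
    have := h ⟨v, hC⟩ hb
    rw [tr_nb_up, tr_up_sdiff] at this
    exact this
  · rintro ⟨_, h⟩
    refine ⟨subset_univ _, ?_⟩
    intro v hv
    rw [tr_nb_up, tr_up_sdiff]
    exact h v (tr_coe_mem_up.2 hv)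

private theorem tr_card_incd (B : Finset C) :
    (incd (resE E C) univ B).card = (incd E C (trUp B)).card := by
  have h : (incd (resE E C) univ B).image (Sym2.map Subtype.val) = incd E C (trUp B) := by
    have h0 := tr_image_ins (E := E) (C := C) univ
    rw [tr_up_univ] at h0
    unfold incd
    rw [← h0]
    ext e
    rw [mem_image, mem_filter, mem_image]
    constructor
    · rintro ⟨a, ha, rfl⟩
      rw [mem_filter] at ha
      obtain ⟨ha1, v, hv, hva⟩ := ha
      refine ⟨⟨a, ha1, rfl⟩, v, tr_coe_mem_up.2 hv, ?_⟩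
      rw [Sym2.mem_map]
      exact ⟨v, hva, rfl⟩
    · rintro ⟨⟨a, ha, rfl⟩, v, hv, hva⟩
      refine ⟨a, ?_, rfl⟩
      rw [mem_filter]
      refine ⟨ha, ?_⟩
      rw [Sym2.mem_map] at hva
      obtain ⟨w, hw, rfl⟩ := hva
      exact ⟨w, tr_coe_mem_up.1 hv, hw⟩
  rw [← h, Finset.card_image_of_injective _ tr_map_inj]

private theorem tr_image_Kn (W : Finset C) :
    (Kn W).image (Sym2.map Subtype.val) = Kn (trUp W) := by
  ext e
  rw [mem_image]
  unfold Kn
  constructor
  · rintro ⟨a, ha, rfl⟩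
    rw [mem_filter] at ha ⊢
    revert ha
    refine Sym2.ind (fun x y => ?_) a
    rintro ⟨h1, h2⟩
    rw [Finset.mk_mem_sym2_iff] at h1
    rw [Sym2.map_mk, Finset.mk_mem_sym2_iff, Sym2.mk_isDiag_iff]
    rw [Sym2.mk_isDiag_iff] at h2
    exact ⟨⟨tr_coe_mem_up.2 h1.1, tr_coe_mem_up.2 h1.2⟩, fun h => h2 (Subtype.ext h)⟩
  · rw [mem_filter]
    refine Sym2.ind (fun x y => ?_) e
    rintro ⟨h1, h2⟩
    rw [Finset.mk_mem_sym2_iff] at h1
    rw [Sym2.mk_isDiag_iff] at h2
    obtain ⟨hx, hx'⟩ := tr_mem_up.1 h1.1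
    obtain ⟨hy, hy'⟩ := tr_mem_up.1 h1.2
    refine ⟨s(⟨x, hx⟩, ⟨y, hy⟩), ?_, by rw [Sym2.map_mk]⟩
    rw [mem_filter, Finset.mk_mem_sym2_iff, Sym2.mk_isDiag_iff]
    exact ⟨⟨hx', hy'⟩, fun h => h2 (congrArg Subtype.val h)⟩

private theorem tr_rk_up (W : Finset C) :
    rk ℝ d (ins (resE E C) univ ∪ Kn W) = rk ℝ d (ins E C ∪ Kn (trUp W)) := by
  rw [← rk_map ℝ d (Subtype.val : C → V) Subtype.val_injective, Finset.image_union, tr_image_ins,
    tr_image_Kn, tr_up_univ]

private theorem tr_card_univC : (univ : Finset C).card = C.card := by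
  rw [Finset.card_univ, Fintype.card_coe]

theorem e4_resE {C₂ ε : ℝ} : E4 d C₂ ε (resE E C) univ ↔ E4 d C₂ ε E C := by
  unfold E4
  rw [tr_card_univC]
  constructor
  · intro h B hB hI hc
    obtain ⟨B', rfl⟩ := tr_exists_up hI.1
    have := h B' (tr_up_nonempty.1 hB) ((tr_isB_up B').2 hI) (by rw [← tr_card_up B']; exact hc)
    rw [tr_card_ins, ← tr_card_up B'] at this
    exact this
  · intro h B hB hI hc
    have := h (trUp B) (tr_up_nonempty.2 hB) ((tr_isB_up B).1 hI) (by rw [tr_card_up B]; exact hc)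
    rw [← tr_card_ins, tr_card_up B] at this
    exact this

theorem e5_resE {ε ε₃ η : ℝ} : E5 d ε ε₃ η (resE E C) univ ↔ E5 d ε ε₃ η E C := by
  unfold E5
  rw [tr_card_univC]
  constructor
  · intro h B hI hc hc'
    obtain ⟨B', rfl⟩ := tr_exists_up hI.1
    have := h B' ((tr_isB_up B').2 hI) (by rw [← tr_card_up B']; exact hc)
      (by rw [← tr_card_up B']; exact hc')
    rw [tr_card_incd, ← tr_card_up B'] at this
    exact this
  · intro h B hI hc hc'
    have := h (trUp B) ((tr_isB_up B).1 hI) (by rw [tr_card_up B]; exact hc)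
      (by rw [tr_card_up B]; exact hc')
    rw [← tr_card_incd, tr_card_up B] at this
    exact this

theorem e6_resE {ε₃ : ℝ} : E6 d ε₃ (resE E C) univ ↔ E6 d ε₃ E C := by
  unfold E6
  rw [tr_card_univC]
  constructor
  · intro h W hW hc
    obtain ⟨W', rfl⟩ := tr_exists_up hW
    have := h W' (subset_univ _) (by rw [← tr_card_up W']; exact hc)
    rw [tr_rk_up] at this
    exact this
  · intro h W _ hc
    have := h (trUp W) (tr_up_subset W) (by rw [tr_card_up W]; exact hc)
    rw [tr_rk_up]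
    exact this

theorem e1_resE {c : ℝ} {n : ℕ} (hc : 0 ≤ c) (hC : 1 ≤ C.card) (hn : C.card ≤ n)
    (h : E1 c n E) : E1 c C.card (resE E C) := by
  intro A hA hcard
  have hlog : Real.log (C.card : ℝ) ≤ Real.log (n : ℝ) := by
    apply Real.log_le_log
    · exact_mod_cast hC
    · exact_mod_cast hn
  have := h (trUp A) (tr_up_nonempty.2 hA) (by
    rw [tr_card_up A]
    exact hcard.trans (mul_le_mul_of_nonneg_left hlog hc))
  rw [← tr_card_ins, tr_card_up A] at this
  exact this

theorem e2_resE {ε : ℝ} {n : ℕ} (hε : 0 ≤ ε) (hn : C.card ≤ n) (h : E2 ε n E) :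
    E2 ε C.card (resE E C) := by
  intro A hA hcard
  have hle : (C.card : ℝ) ≤ (n : ℝ) := by exact_mod_cast hn
  have := h (trUp A) (tr_up_nonempty.2 hA) (by
    rw [tr_card_up A]
    exact hcard.trans (mul_le_mul_of_nonneg_left hle hε))
  rw [← tr_card_ins, tr_card_up A] at this
  exact this

/-- `log n ≤ 2 log (card C)` if `(card C)^2 ≥ n` -/
theorem e3_resE {n : ℕ} (hC : 1 ≤ C.card) (hn : n ≤ C.card ^ 2) (h : E3 1 n E) :
    E3 2 C.card (resE E C) := by
  intro v
  have h1 := h v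
  rw [one_mul] at h1
  have h2 : nb (resE E C) univ v ≤ nb E univ v := by
    rw [tr_nb_up]
    unfold nb
    exact Finset.card_le_card (Finset.filter_subset_filter _ (subset_univ _))
  have h3 : Real.log (n : ℝ) ≤ 2 * Real.log (C.card : ℝ) := by
    rcases Nat.eq_zero_or_pos n with h0 | h0
    · rw [h0, Nat.cast_zero, Real.log_zero]
      have : 0 ≤ Real.log (C.card : ℝ) := Real.log_nonneg (by exact_mod_cast hC)
      linarith
    · have h4 : Real.log (n : ℝ) ≤ Real.log ((C.card : ℝ) ^ 2) := by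
        apply Real.log_le_log
        · exact_mod_cast h0
        · exact_mod_cast hn
      rw [Real.log_pow] at h4
      exact_mod_cast h4
  have h5 : (nb (resE E C) univ v : ℝ) ≤ (nb E univ (v : V) : ℝ) := by exact_mod_cast h2
  linarith

theorem card_resE : (resE E C).card = (ins E C).card := by
  rw [← image_resE, Finset.card_image_of_injective _ tr_map_inj]

end Pool.Agent.Helper50.RG
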