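import Pool.Agent.Helper50.RG.Model
import Pool.Agent.Helper50.RG.CoreDec
import Pool.Agent.Helper50.RG.SeqProb
import Pool.Agent.Helper50.RG.Transport
import Pool.Agent.Helper50.RG.Peel

/-!
# RG-58 : the structural events hold for the core of the process

`bad_prob`: `prob_le_seq`; by `core_large` the core has at least `ε' n` vertices (`E2`). Apply `core_decomp`
with `ϱ = 3 (ε' n)^(-1-δ)` and the property `P C F`: `ε' n ≤ card C` and `F` satisfies `E1 c₁`, `E2 ε'`,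
`E3 2` (with `N = card C`) and not `E4 ∧ E5 ∧ E6` (with the vertex set `univ` of the type `C`). By `e1_resE`, …,
`e6_resE` (`n ≤ (card C)²` for large `n`) the event implies `P`. If `card C < ε' n` the left side of the
hypothesis of `core_decomp` is `0`; otherwise use `core_model` for the type `C`.
-/

set_option autoImplicit false

namespace Pool.Agent.Helper50.RG

open Finset

/-- the property of the restriction to the core -/
private def bpP (d n : ℕ) (c₁ ε' C₂ ε ε₃ η : ℝ) (C : Finset (Fin n)) (F : Finset (Sym2 C)) :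
    Prop :=
  ε' * n ≤ C.card ∧ E1 c₁ C.card F ∧ E2 ε' C.card F ∧ E3 2 C.card F ∧
    ¬ (E4 d C₂ ε F univ ∧ E5 d ε ε₃ η F univ ∧ E6 d ε₃ F univ)

private theorem bp_lpl {n t : ℕ} {u : Fin t → Fin n × Fin n} (h : Simp u) : Lpl (edges u) := by
  intro e he
  unfold edges at he
  obtain ⟨i, _, rfl⟩ := mem_image.mp he
  rw [Sym2.mk_isDiag_iff]
  exact h.1 i

private theorem bp_card {α : Type} [Fintype α] (p q : α → Prop) (i₁ : DecidablePred p)
    (i₂ : DecidablePred q) (h : ∀ a, p a → q a) :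
    (@filter α p i₁ univ).card ≤ (@filter α q i₂ univ).card := by
  apply card_le_card
  intro a ha
  rw [mem_filter] at ha ⊢
  exact ⟨ha.1, h a ha.2⟩

/-- the event implies the property -/
private theorem bp_event {d n : ℕ} (hd : 2 ≤ d) {c₁ ε' C₂ ε ε₃ η : ℝ} (hc₁ : 0 < c₁)
    (hε' : 0 < ε') (hn : 1 ≤ ε' ^ 2 * n) {E : Finset (Sym2 (Fin n))} (hL : Lpl E)
    (hR : Reg c₁ ε' E) (hC : (core (d + 1) E).Nonempty) (hS : ¬ Str d C₂ ε ε₃ η E) :
    bpP d n c₁ ε' C₂ ε ε₃ η (core (d + 1) E) (resE E (core (d + 1) E)) := by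
  obtain ⟨h1, h2, h3⟩ := hR
  have hbig : ε' * n < (core (d + 1) E).card :=
    core_large hL h2 hC (fun v hv => le_trans (by omega) (nb_core hv))
  have hcn : (core (d + 1) E).card ≤ n := by
    have := card_le_univ (core (d + 1) E)
    rwa [Fintype.card_fin] at this
  have hpos : 1 ≤ (core (d + 1) E).card := hC.card_pos
  have hsq : n ≤ (core (d + 1) E).card ^ 2 := by
    have hn0 : (0 : ℝ) ≤ n := Nat.cast_nonneg n
    have h5 : (n : ℝ) ≤ ((core (d + 1) E).card : ℝ) ^ 2 := by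
      calc (n : ℝ) = 1 * n := (one_mul _).symm
        _ ≤ (ε' ^ 2 * n) * n := mul_le_mul_of_nonneg_right hn hn0
        _ = (ε' * n) ^ 2 := by ring
        _ ≤ ((core (d + 1) E).card : ℝ) ^ 2 := pow_le_pow_left₀ (by positivity) hbig.le 2
    exact_mod_cast h5
  refine ⟨hbig.le, e1_resE hc₁.le hpos hcn h1, e2_resE hε'.le hcn h2, e3_resE hpos hsq h3, ?_⟩
  rintro ⟨h4, h5, h6⟩
  exact hS ⟨e4_resE.mp h4, e5_resE.mp h5, e6_resE.mp h6⟩

theorem bad_prob (d : ℕ) (hd : 2 ≤ d) (lam : ℝ) (hl : IsLam d lam) (hAN : AN d lam)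
    (c₁ ε' : ℝ) (hc₁ : 0 < c₁) (hε' : 0 < ε') :
    ∃ C₂ ε δ : ℝ, 0 < C₂ ∧ 0 < ε ∧ 0 < δ ∧ ∀ ε₃ : ℝ, 0 < ε₃ → ε₃ ≤ ε' → ∃ η > 0,
    ∃ C : ℝ, ∃ n₀ : ℕ, ∀ n ≥ n₀, ∀ t ≤ d * n, ∀ s' ≤ 1,
      prob n (fun σ => Reg c₁ ε' (edg σ t) ∧ Cnt d s' (edg σ t) ∧
        ¬ Str d C₂ ε ε₃ η (edg σ t)) ≤ C * (n : ℝ) ^ (-1 - δ) := by
  classical
  obtain ⟨C₂, ε, δ, hC₂, hε, hδ, H⟩ := core_model d hd lam hl hAN c₁ ε' hc₁ hε'
  obtain ⟨C₀, hC₀, n₁, hprob⟩ := prob_le_seq d
  refine ⟨C₂, ε, δ, hC₂, hε, hδ, fun ε₃ h3 h3' => ?_⟩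
  obtain ⟨η, hη, N₀, HH⟩ := H ε₃ h3 h3'
  refine ⟨η, hη, C₀ * (3 * ε' ^ (-1 - δ)),
    max n₁ (max ⌈(N₀ : ℝ) / ε'⌉₊ (max ⌈1 / ε' ^ 2⌉₊ 1)), fun n hn t ht s' hs' => ?_⟩
  have hn1 : n₁ ≤ n := (le_max_left _ _).trans hn
  have hn' := (le_max_right _ _).trans hn
  have hn2 : (N₀ : ℝ) ≤ ε' * n := by
    have h5 : ⌈(N₀ : ℝ) / ε'⌉₊ ≤ n := (le_max_left _ _).trans hn'
    have h6 := Nat.ceil_le.mp h5
    rw [div_le_iff₀ hε'] at h6
    linarith
  have hn'' := (le_max_right _ _).trans hn'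
  have hn3 : 1 ≤ ε' ^ 2 * n := by
    have h5 : ⌈1 / ε' ^ 2⌉₊ ≤ n := (le_max_left _ _).trans hn''
    have h6 := Nat.ceil_le.mp h5
    rw [div_le_iff₀ (by positivity)] at h6
    linarith
  have hn4 : 1 ≤ n := (le_max_right _ _).trans hn''
  have hn0 : (0 : ℝ) < n := by exact_mod_cast hn4
  have hen : 0 < ε' * n := by positivity
  have key := core_decomp n t d s' (3 * (ε' * n) ^ (-1 - δ)) (by positivity)
    (bpP d n c₁ ε' C₂ ε ε₃ η) (by
      intro C _ M hM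
      by_cases hC : ε' * n ≤ C.card
      · have h7 := HH C (by
          rw [Fintype.card_coe]
          exact_mod_cast hn2.trans hC) M s' hs' (by rw [Fintype.card_coe]; exact hM)
        rw [Fintype.card_coe] at h7
        have h8 : (C.card : ℝ) ^ (-1 - δ) ≤ (ε' * n) ^ (-1 - δ) :=
          Real.rpow_le_rpow_of_nonpos hen hC (by linarith)
        refine le_trans ?_ (h7.trans ?_)
        · have h9 : (univ.filter (fun u : Fin M → C × C => u ∈ TT C (d + 1) M ∧ Simp u ∧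
              bpP d n c₁ ε' C₂ ε ε₃ η C (edges u))).card ≤
              ((TT C (d + 1) M).filter (fun u => Simp u ∧ E1 c₁ C.card (edges u) ∧
                E2 ε' C.card (edges u) ∧ E3 2 C.card (edges u) ∧
                ¬ (E4 d C₂ ε (edges u) univ ∧ E5 d ε ε₃ η (edges u) univ ∧
                  E6 d ε₃ (edges u) univ))).card := by
            apply card_le_card
            intro u hu
            rw [mem_filter] at hu ⊢
            exact ⟨hu.2.1, hu.2.2.1, hu.2.2.2.2⟩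
          exact_mod_cast h9
        · exact mul_le_mul_of_nonneg_right (mul_le_mul_of_nonneg_left h8 (by norm_num))
            (Nat.cast_nonneg _)
      · have h9 : (univ.filter (fun u : Fin M → C × C => u ∈ TT C (d + 1) M ∧ Simp u ∧
              bpP d n c₁ ε' C₂ ε ε₃ η C (edges u))) = ∅ := by
          apply filter_eq_empty_iff.mpr
          intro u _ hu
          exact hC hu.2.2.1
        rw [h9, card_empty, Nat.cast_zero]
        positivity)
  have h10 := hprob n hn1 t ht (fun E => Reg c₁ ε' E ∧ Cnt d s' E ∧ ¬ Str d C₂ ε ε₃ η E)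
  refine h10.trans ?_
  have hpow : (0 : ℝ) < (n : ℝ) ^ (2 * t) := by positivity
  rw [div_le_iff₀ hpow]
  refine (mul_le_mul_of_nonneg_left (le_trans ?_ key) hC₀.le).trans_eq ?_
  · refine Nat.cast_le.mpr (bp_card _ _ _ _ ?_)
    rintro u ⟨hs, hR, hCn, hS⟩
    exact ⟨hs, hCn, bp_event hd hc₁ hε' hn3 (bp_lpl hs) hR hCn.1 hS⟩
  · rw [Real.mul_rpow hε'.le hn0.le]
    ring

end Pool.Agent.Helper50.RG
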