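import Pool.Agent.Helper50.RG.Defs

/-!
# RG-1 : elementary facts about `ins`, `nb`, `incd`, `core`

Everything here is finite set theory, 1-12 lines each. `card_ins_erase`: the edges inside `A` which
contain `v` are the pairs `s(v, w)` with `w ∈ A.erase v` (no loops). `sum_nb`: count the pairs
`(v, e)`, `v ∈ e ∈ ins E A` twice (or induct on `A` with `card_ins_erase`). `exists_low`: otherwise
`X` has minimum degree at least `k`, hence `X ⊆ core k E`.
-/

set_option autoImplicit false

namespace Pool.Agent.Helper50.RG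

open Finset

variable {V : Type} [Fintype V] [DecidableEq V] {E E' : Finset (Sym2 V)} {A B C X : Finset V}
  {u v w : V} {k : ℕ}

theorem mem_ins {e : Sym2 V} : e ∈ ins E A ↔ e ∈ E ∧ ∀ v ∈ e, v ∈ A := by
  unfold ins
  rw [mem_inter, mem_sym2_iff]

theorem mk_mem_ins : s(u, v) ∈ ins E A ↔ s(u, v) ∈ E ∧ u ∈ A ∧ v ∈ A := by
  unfold ins
  rw [mem_inter, mk_mem_sym2_iff]

theorem ins_subset : ins E A ⊆ E := inter_subset_left

theorem ins_univ : ins E univ = E := by
  ext e
  simp [mem_ins]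

theorem ins_mono (hE : E ⊆ E') (hA : A ⊆ B) : ins E A ⊆ ins E' B := by
  intro e he
  rw [mem_ins] at he ⊢
  exact ⟨hE he.1, fun v hv => hA (he.2 v hv)⟩

theorem ins_ins (h : A ⊆ C) : ins (ins E C) A = ins E A := by
  ext e
  simp only [mem_ins]
  constructor
  · rintro ⟨⟨h1, _⟩, h3⟩
    exact ⟨h1, h3⟩
  · rintro ⟨h1, h3⟩
    exact ⟨⟨h1, fun v hv => h (h3 v hv)⟩, h3⟩

theorem lpl_mono (hE : E ⊆ E') (h : Lpl E') : Lpl E := fun e he => h e (hE he)

theorem lpl_ins (h : Lpl E) : Lpl (ins E A) := lpl_mono ins_subset h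

theorem nb_mono (hE : E ⊆ E') (hA : A ⊆ B) (v : V) : nb E A v ≤ nb E' B v := by
  unfold nb
  apply card_le_card
  intro w hw
  rw [mem_filter] at hw ⊢
  exact ⟨hA hw.1, hE hw.2⟩

theorem nb_ins (h : A ⊆ C) (hv : v ∈ C) : nb (ins E C) A v = nb E A v := by
  unfold nb
  congr 1
  apply filter_congr
  intro w hw
  rw [mk_mem_ins]
  exact ⟨fun h1 => h1.1, fun h1 => ⟨h1, hv, h hw⟩⟩

theorem nb_union (h : Disjoint A B) (v : V) : nb E (A ∪ B) v = nb E A v + nb E B v := by
  unfold nb
  rw [filter_union, card_union_of_disjoint (disjoint_filter_filter h)]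

theorem nb_erase (hL : Lpl E) (v : V) : nb E (A.erase v) v = nb E A v := by
  unfold nb
  congr 1
  ext w
  simp only [mem_filter, mem_erase]
  constructor
  · rintro ⟨⟨_, h2⟩, h3⟩
    exact ⟨h2, h3⟩
  · rintro ⟨h2, h3⟩
    refine ⟨⟨?_, h2⟩, h3⟩
    rintro rfl
    exact hL _ h3 (by simp)

theorem nb_lt_card (hL : Lpl E) (hv : v ∈ A) : nb E A v < A.card := by
  rw [← nb_erase hL]
  calc nb E (A.erase v) v ≤ (A.erase v).card := card_filter_le _ _
    _ < A.card := card_erase_lt_of_mem hv

theorem card_ins_erase (hL : Lpl E) (hv : v ∈ A) :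
    (ins E A).card = (ins E (A.erase v)).card + nb E A v := by
  have h1 : ins E A = ins E (A.erase v) ∪ (A.filter (fun w => s(v, w) ∈ E)).image
      (fun w => s(v, w)) := by
    ext e
    induction e using Sym2.ind with
    | _ x y =>
      simp only [mk_mem_ins, mem_union, mem_image, mem_filter, mem_erase]
      constructor
      · rintro ⟨h1, h2, h3⟩
        by_cases hx : x = v
        · right
          exact ⟨y, ⟨h3, hx ▸ h1⟩, by rw [hx]⟩
        · by_cases hy : y = v
          · right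
            refine ⟨x, ⟨h2, ?_⟩, ?_⟩
            · rw [Sym2.eq_swap, ← hy]
              exact h1
            · rw [Sym2.eq_swap, hy]
          · left
            exact ⟨h1, ⟨hx, h2⟩, ⟨hy, h3⟩⟩
      · rintro (⟨h1, ⟨_, h2⟩, ⟨_, h3⟩⟩ | ⟨w, ⟨h1, h2⟩, h3⟩)
        · exact ⟨h1, h2, h3⟩
        · rw [← h3]
          refine ⟨h2, ?_⟩
          rw [Sym2.eq_iff] at h3
          rcases h3 with ⟨rfl, rfl⟩ | ⟨rfl, rfl⟩
          · exact ⟨hv, h1⟩
          · exact ⟨h1, hv⟩
  have h2 : Disjoint (ins E (A.erase v)) ((A.filter (fun w => s(v, w) ∈ E)).image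
      (fun w => s(v, w))) := by
    rw [Finset.disjoint_left]
    intro e he hf
    rw [mem_image] at hf
    obtain ⟨w, _, rfl⟩ := hf
    rw [mk_mem_ins] at he
    simp at he
  rw [h1, card_union_of_disjoint h2, card_image_of_injective]
  · rfl
  · intro a b hab
    have hab' : s(v, a) = s(v, b) := hab
    rw [Sym2.eq_iff] at hab'
    rcases hab' with ⟨_, h⟩ | ⟨h, h'⟩
    · exact h
    · exact h'.trans h

theorem sum_nb (hL : Lpl E) (A : Finset V) : ∑ v ∈ A, nb E A v = 2 * (ins E A).card := by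
  induction A using Finset.induction_on with
  | empty =>
    have : ins E (∅ : Finset V) = ∅ := by
      ext e
      induction e using Sym2.ind with
      | _ x y => simp [mk_mem_ins]
    simp [this]
  | insert a A ha ih =>
    have h1 := card_ins_erase (A := insert a A) hL (mem_insert_self a A)
    rw [erase_insert ha] at h1
    have h2 : nb E (insert a A) a = nb E A a := by
      rw [← nb_erase hL, erase_insert ha]
    have h3 : ∀ v ∈ A, nb E (insert a A) v = nb E A v + (if s(v, a) ∈ E then 1 else 0) := by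
      intro v _
      unfold nb
      rw [filter_insert]
      split_ifs with h
      · rw [card_insert_of_notMem]
        simp [ha]
      · simp
    rw [sum_insert ha, h2, sum_congr rfl h3, sum_add_distrib, ih, h1, h2]
    have h4 : ∑ v ∈ A, (if s(v, a) ∈ E then 1 else 0) = nb E A a := by
      unfold nb
      rw [card_filter]
      refine sum_congr rfl fun v _ => ?_
      rw [Sym2.eq_swap]
    rw [h4]
    ring

theorem card_incd (E : Finset (Sym2 V)) (h : B ⊆ C) :
    (ins E C).card = (ins E (C \ B)).card + (incd E C B).card := by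
  classical
  have h1 : ins E (C \ B) = (ins E C).filter (fun e => ¬ ∃ v ∈ B, v ∈ e) := by
    ext e
    simp only [mem_filter, mem_ins, mem_sdiff]
    constructor
    · rintro ⟨h1, h2⟩
      refine ⟨⟨h1, fun v hv => (h2 v hv).1⟩, ?_⟩
      rintro ⟨v, hv, hve⟩
      exact (h2 v hve).2 hv
    · rintro ⟨⟨h1, h2⟩, h3⟩
      exact ⟨h1, fun v hv => ⟨h2 v hv, fun hvB => h3 ⟨v, hvB, hv⟩⟩⟩
  rw [h1, incd, add_comm, card_filter_add_card_filter_not]

theorem incd_mono (h : A ⊆ B) : incd E C A ⊆ incd E C B := by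
  intro e he
  unfold incd at he ⊢
  rw [mem_filter] at he ⊢
  obtain ⟨h1, v, hv, hve⟩ := he
  exact ⟨h1, v, h hv, hve⟩

/-- moving `v ∈ B` to the other side loses the edges from `v` to `C \ B` -/
theorem card_incd_erase (hL : Lpl E) (h : B ⊆ C) (hv : v ∈ B) :
    (incd E C B).card = (incd E C (B.erase v)).card + nb E (C \ B) v := by
  have h1 := card_incd E h
  have h2 := card_incd E ((erase_subset v B).trans h)
  have h3 : v ∈ C \ B.erase v := by simp [h hv]
  have h4 := card_ins_erase (E := E) hL h3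
  have h5 : (C \ B.erase v).erase v = C \ B := by
    ext w
    simp only [mem_erase, mem_sdiff]
    constructor
    · rintro ⟨h1, h2, h3⟩
      exact ⟨h2, fun hw => h3 ⟨h1, hw⟩⟩
    · rintro ⟨g1, g2⟩
      refine ⟨fun hwv => g2 (hwv ▸ hv), g1, fun hw => g2 hw.2⟩
  have h6 : nb E (C \ B.erase v) v = nb E (C \ B) v := by
    rw [← nb_erase hL, h5]
  rw [h5, h6] at h4
  omega

theorem card_incd_eq (hL : Lpl E) (h : B ⊆ C) :
    (incd E C B).card = (ins E B).card + ∑ v ∈ B, nb E (C \ B) v := by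
  have h1 := card_incd E h
  have h2 := sum_nb hL C
  have h3 := sum_nb hL B
  have h4 := sum_nb hL (C \ B)
  have hd : Disjoint B (C \ B) := disjoint_sdiff
  have hu : B ∪ (C \ B) = C := union_sdiff_of_subset h
  have h5 : ∀ v, nb E C v = nb E B v + nb E (C \ B) v := by
    intro v
    rw [← nb_union hd, hu]
  have h6 : ∑ v ∈ C, nb E C v = (∑ v ∈ B, nb E B v + ∑ v ∈ B, nb E (C \ B) v) +
      (∑ v ∈ C \ B, nb E B v + ∑ v ∈ C \ B, nb E (C \ B) v) := by
    rw [← sum_add_distrib, ← sum_add_distrib]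
    conv_lhs => rw [← hu, sum_union hd]
    rw [hu]
    congr 1 <;> exact sum_congr rfl fun v _ => h5 v
  have h7 : ∑ v ∈ C \ B, nb E B v = ∑ v ∈ B, nb E (C \ B) v := by
    unfold nb
    simp only [card_filter]
    rw [sum_comm]
    refine sum_congr rfl fun v _ => sum_congr rfl fun w _ => ?_
    rw [Sym2.eq_swap]
  omega

theorem nb_core (hv : v ∈ core k E) : k ≤ nb E (core k E) v := by
  unfold core at hv
  rw [mem_filter] at hv
  obtain ⟨_, A, hvA, hA⟩ := hv
  refine (hA v hvA).trans (nb_mono subset_rfl ?_ v)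
  intro w hw
  unfold core
  rw [mem_filter]
  exact ⟨mem_univ _, A, hw, hA⟩

theorem subset_core (h : ∀ w ∈ A, k ≤ nb E A w) : A ⊆ core k E := by
  intro w hw
  unfold core
  rw [mem_filter]
  exact ⟨mem_univ _, A, hw, h⟩

theorem core_mono (k : ℕ) (hE : E ⊆ E') : core k E ⊆ core k E' :=
  subset_core fun w hw => (nb_core hw).trans (nb_mono hE subset_rfl w)

theorem core_ins_subset (hk : 1 ≤ k) (E : Finset (Sym2 V)) (A : Finset V) :
    core k (ins E A) ⊆ A := by
  intro v hv
  have h1 := nb_core hv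
  have h2 : 0 < nb (ins E A) (core k (ins E A)) v := by omega
  unfold nb at h2
  rw [card_pos] at h2
  obtain ⟨w, hw⟩ := h2
  rw [mem_filter, mk_mem_ins] at hw
  exact hw.2.2.1

theorem exists_low (h : core k E ⊆ X) (hne : core k E ≠ X) :
    ∃ v ∈ X, v ∉ core k E ∧ nb E X v < k := by
  by_contra hcon
  push Not at hcon
  apply hne
  refine subset_antisymm h (subset_core fun w hw => ?_)
  by_cases hwc : w ∈ core k E
  · exact (nb_core hwc).trans (nb_mono subset_rfl h w)
  · exact hcon w hw hwc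

theorem core_subset_hat (d : ℕ) (E : Finset (Sym2 V)) : core (d + 1) E ⊆ hat d E := by
  intro v hv
  unfold hat
  rw [mem_filter]
  exact ⟨mem_univ _, fun X hX _ => hX hv⟩

theorem hat_subset {d : ℕ} (hX : core (d + 1) E ⊆ X) (h : ∀ w, d ≤ nb E X w → w ∈ X) :
    hat d E ⊆ X := by
  intro v hv
  unfold hat at hv
  rw [mem_filter] at hv
  exact hv.2 X hX h

theorem mem_hat_of {d : ℕ} (hw : d ≤ nb E (hat d E) w) : w ∈ hat d E := by
  have hdef : w ∈ hat d E ↔ w ∈ univ ∧ ∀ X : Finset V, core (d + 1) E ⊆ X →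
    (∀ w, d ≤ nb E X w → w ∈ X) → w ∈ X := by
    unfold hat
    rw [mem_filter]
  rw [hdef]
  refine ⟨mem_univ _, fun X hX h => ?_⟩
  exact h w (hw.trans (nb_mono subset_rfl (hat_subset hX h) w))

theorem isB_union {d : ℕ} (hA : IsB d E C A) (hB : IsB d E C B) : IsB d E C (A ∪ B) := by
  refine ⟨union_subset hA.1 hB.1, fun v hv => ?_⟩
  rw [mem_union] at hv
  rcases hv with hv | hv
  · refine lt_of_le_of_lt (nb_mono subset_rfl ?_ v) (hA.2 v hv)
    exact sdiff_subset_sdiff subset_rfl subset_union_left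
  · refine lt_of_le_of_lt (nb_mono subset_rfl ?_ v) (hB.2 v hv)
    exact sdiff_subset_sdiff subset_rfl subset_union_right

end Pool.Agent.Helper50.RG
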