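import Pool.Agent.Helper50.RG.Base

/-!
# RG-28 : the base events hold with high probability

`count_inside`: union bound over the set of `b` indices: `C(T, b) a^(2b) n^(2T-2b)`.
`e1_whp`: `(ins E A).card` is at most the number of indices `i` with `u i` inside `A`. Sum over
`A`, `|A| = a ≤ c₁ log n`, `b = a + 1`.
-/

set_option autoImplicit false

namespace Pool.Agent.Helper50.RG

open Finset

theorem count_inside {n T : ℕ} (A : Finset (Fin n)) (b : ℕ) :
    (univ.filter (fun u : Fin T → Fin n × Fin n =>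
      b ≤ (univ.filter (fun i => (u i).1 ∈ A ∧ (u i).2 ∈ A)).card)).card * n ^ (2 * b) ≤
        T.choose b * A.card ^ (2 * b) * n ^ (2 * T) := by
  classical
  have h1 : (univ.filter (fun u : Fin T → Fin n × Fin n =>
      b ≤ (univ.filter (fun i => (u i).1 ∈ A ∧ (u i).2 ∈ A)).card)) ⊆
      (powersetCard b (univ : Finset (Fin T))).biUnion (fun S =>
        Fintype.piFinset (fun i => if i ∈ S then A ×ˢ A else univ)) := by
    intro u hu
    rw [mem_filter] at hu
    obtain ⟨S, hS, hSb⟩ := exists_subset_card_eq hu.2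
    rw [mem_biUnion]
    refine ⟨S, mem_powersetCard.2 ⟨subset_univ _, hSb⟩, ?_⟩
    rw [Fintype.mem_piFinset]
    intro i
    by_cases hi : i ∈ S
    · rw [if_pos hi, mem_product]
      exact (mem_filter.1 (hS hi)).2
    · rw [if_neg hi]
      exact mem_univ _
  have h2 : ∀ S ∈ powersetCard b (univ : Finset (Fin T)),
      (Fintype.piFinset (fun i => if i ∈ S then A ×ˢ A else (univ : Finset (Fin n × Fin n)))).card
        * n ^ (2 * b) = A.card ^ (2 * b) * n ^ (2 * T) := by
    intro S hS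
    rw [mem_powersetCard] at hS
    have hbT : b ≤ T := by
      rw [← hS.2]
      simpa using card_le_univ S
    rw [Fintype.card_piFinset]
    have h3 : ∀ i : Fin T, (if i ∈ S then A ×ˢ A else (univ : Finset (Fin n × Fin n))).card =
        if i ∈ S then A.card ^ 2 else n ^ 2 := by
      intro i
      split_ifs
      · rw [card_product, sq]
      · rw [card_univ, Fintype.card_prod, Fintype.card_fin, sq]
    rw [prod_congr rfl (fun i _ => h3 i), prod_ite]
    rw [prod_const, prod_const]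
    have h4 : (univ.filter (fun i => i ∈ S)).card = b := by
      rw [filter_mem_eq_inter, univ_inter]
      exact hS.2
    have h5 : (univ.filter (fun i : Fin T => i ∉ S)).card = T - b := by
      have h6 := card_filter_add_card_filter_not (s := (univ : Finset (Fin T))) (fun i => i ∈ S)
      rw [h4, card_univ, Fintype.card_fin] at h6
      omega
    rw [h4, h5, ← pow_mul, ← pow_mul, mul_assoc, ← pow_add]
    congr 2
    omega
  calc _ ≤ (∑ S ∈ powersetCard b (univ : Finset (Fin T)),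
        (Fintype.piFinset (fun i =>
          if i ∈ S then A ×ˢ A else (univ : Finset (Fin n × Fin n)))).card) * n ^ (2 * b) :=
        Nat.mul_le_mul_right _ ((card_le_card h1).trans card_biUnion_le)
    _ = ∑ S ∈ powersetCard b (univ : Finset (Fin T)), A.card ^ (2 * b) * n ^ (2 * T) := by
        rw [sum_mul]
        exact sum_congr rfl h2
    _ = _ := by
        rw [sum_const, card_powersetCard, card_univ, Fintype.card_fin, smul_eq_mul, mul_assoc]

/-- the number of indices inside `A` bounds the number of edges inside `A` -/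
theorem card_ins_edges_le {n T : ℕ} (u : Fin T → Fin n × Fin n) (A : Finset (Fin n)) :
    (ins (edges u) A).card ≤ (univ.filter (fun i => (u i).1 ∈ A ∧ (u i).2 ∈ A)).card := by
  classical
  refine (card_le_card ?_).trans
    (card_image_le (s := univ.filter (fun i => (u i).1 ∈ A ∧ (u i).2 ∈ A))
      (f := fun i => s((u i).1, (u i).2)))
  intro e he
  rw [ins, mem_inter] at he
  rw [edges] at he
  obtain ⟨⟨i, -, rfl⟩, h2⟩ := And.imp_left mem_image.1 he
  rw [mem_image]
  refine ⟨i, ?_, rfl⟩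
  rw [mem_filter]
  rw [mk_mem_sym2_iff] at h2
  exact ⟨mem_univ _, h2⟩

/-- the union bound over all sets with sizes in `I` -/
theorem union_inside {n T : ℕ} (hn : 0 < n) (I : Finset ℕ) (b : ℕ → ℕ) :
    ((univ.filter (fun u : Fin T → Fin n × Fin n => ∃ A : Finset (Fin n), A.card ∈ I ∧
      b A.card ≤ (univ.filter (fun i => (u i).1 ∈ A ∧ (u i).2 ∈ A)).card)).card : ℝ) ≤
      ∑ a ∈ I, (n.choose a : ℝ) * ((T.choose (b a) : ℝ) * ((a : ℝ) / n) ^ (2 * b a)) *
        (n : ℝ) ^ (2 * T) := by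
  classical
  have hn' : (0 : ℝ) < n := by exact_mod_cast hn
  have h1 : (univ.filter (fun u : Fin T → Fin n × Fin n => ∃ A : Finset (Fin n), A.card ∈ I ∧
      b A.card ≤ (univ.filter (fun i => (u i).1 ∈ A ∧ (u i).2 ∈ A)).card)) ⊆
      I.biUnion (fun a => (powersetCard a (univ : Finset (Fin n))).biUnion (fun A =>
        univ.filter (fun u : Fin T → Fin n × Fin n =>
          b a ≤ (univ.filter (fun i => (u i).1 ∈ A ∧ (u i).2 ∈ A)).card))) := by
    intro u hu
    obtain ⟨A, hA, hb⟩ := (mem_filter.1 hu).2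
    rw [mem_biUnion]
    refine ⟨A.card, hA, ?_⟩
    rw [mem_biUnion]
    exact ⟨A, mem_powersetCard.2 ⟨subset_univ _, rfl⟩, mem_filter.2 ⟨mem_univ _, hb⟩⟩
  have h2 : ∀ a ∈ I, ∀ A ∈ powersetCard a (univ : Finset (Fin n)),
      ((univ.filter (fun u : Fin T → Fin n × Fin n =>
          b a ≤ (univ.filter (fun i => (u i).1 ∈ A ∧ (u i).2 ∈ A)).card)).card : ℝ) ≤
      ((T.choose (b a) : ℝ) * ((a : ℝ) / n) ^ (2 * b a)) * (n : ℝ) ^ (2 * T) := by
    intro a _ A hA
    have h3 := count_inside (T := T) A (b a)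
    rw [(mem_powersetCard.1 hA).2] at h3
    have h4 : ((univ.filter (fun u : Fin T → Fin n × Fin n =>
          b a ≤ (univ.filter (fun i => (u i).1 ∈ A ∧ (u i).2 ∈ A)).card)).card : ℝ) *
          (n : ℝ) ^ (2 * b a) ≤ (T.choose (b a) : ℝ) * (a : ℝ) ^ (2 * b a) *
          (n : ℝ) ^ (2 * T) := by exact_mod_cast h3
    rw [div_pow]
    rw [← le_div_iff₀ (pow_pos hn' _)] at h4
    refine h4.trans (le_of_eq ?_)
    ring
  calc _ ≤ (((I.biUnion (fun a => (powersetCard a (univ : Finset (Fin n))).biUnion (fun A =>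
        univ.filter (fun u : Fin T → Fin n × Fin n =>
          b a ≤ (univ.filter (fun i => (u i).1 ∈ A ∧ (u i).2 ∈ A)).card)))).card : ℕ) : ℝ) := by
        exact_mod_cast card_le_card h1
    _ ≤ ∑ a ∈ I, ∑ A ∈ powersetCard a (univ : Finset (Fin n)),
        ((univ.filter (fun u : Fin T → Fin n × Fin n =>
          b a ≤ (univ.filter (fun i => (u i).1 ∈ A ∧ (u i).2 ∈ A)).card)).card : ℝ) := by
        have h5 := (card_biUnion_le (s := I)
          (t := (fun a => (powersetCard a (univ : Finset (Fin n))).biUnion (fun A =>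
            univ.filter (fun u : Fin T → Fin n × Fin n =>
            b a ≤ (univ.filter (fun i => (u i).1 ∈ A ∧ (u i).2 ∈ A)).card)))))
        have h6 := h5.trans (sum_le_sum (fun a _ => card_biUnion_le))
        exact_mod_cast h6
    _ ≤ ∑ a ∈ I, ∑ A ∈ powersetCard a (univ : Finset (Fin n)),
        ((T.choose (b a) : ℝ) * ((a : ℝ) / n) ^ (2 * b a)) * (n : ℝ) ^ (2 * T) :=
        sum_le_sum (fun a ha => sum_le_sum (fun A hA => h2 a ha A hA))
    _ = _ := by
        refine sum_congr rfl (fun a _ => ?_)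
        rw [sum_const, card_powersetCard, card_univ, Fintype.card_fin, nsmul_eq_mul]
        ring

/-- the estimate of one binomial coefficient -/
theorem choose_le_exp_pow {N a : ℕ} (ha : 1 ≤ a) :
    (N.choose a : ℝ) ≤ (Real.exp 1 * N / a) ^ a := by
  have ha' : (0 : ℝ) < a := by exact_mod_cast ha
  have h1 : (N.choose a : ℝ) ≤ (N : ℝ) ^ a / (a.factorial : ℝ) := Nat.choose_le_pow_div a N
  have h2 : (a : ℝ) ^ a / (a.factorial : ℝ) ≤ Real.exp a :=
    Real.pow_div_factorial_le_exp (a : ℝ) ha'.le a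
  have h3 : Real.exp (a : ℝ) = (Real.exp 1) ^ a := by
    rw [← Real.exp_nat_mul, mul_one]
  rw [h3] at h2
  have hf : (0 : ℝ) < (a.factorial : ℝ) := by exact_mod_cast a.factorial_pos
  have h4 : 1 / (a.factorial : ℝ) ≤ (Real.exp 1) ^ a / (a : ℝ) ^ a := by
    rw [div_le_div_iff₀ hf (pow_pos ha' _)]
    rw [div_le_iff₀ hf] at h2
    linarith
  calc (N.choose a : ℝ) ≤ (N : ℝ) ^ a * (1 / (a.factorial : ℝ)) := by
        rw [mul_one_div]
        exact h1
    _ ≤ (N : ℝ) ^ a * ((Real.exp 1) ^ a / (a : ℝ) ^ a) :=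
        mul_le_mul_of_nonneg_left h4 (by positivity)
    _ = _ := by
        rw [div_pow, mul_pow]
        ring

/-- the estimate of one term of the union bound -/
theorem term_inside {n d a b : ℕ} (hn : 0 < n) (ha : 1 ≤ a) (hab : a ≤ b) :
    (n.choose a : ℝ) * (((d * n).choose b : ℝ) * ((a : ℝ) / n) ^ (2 * b)) ≤
      (Real.exp 1 * n / a) ^ a * (Real.exp 1 * d * a / n) ^ b := by
  have hn' : (0 : ℝ) < n := by exact_mod_cast hn
  have ha' : (0 : ℝ) < a := by exact_mod_cast ha
  have hb' : (0 : ℝ) < b := by exact_mod_cast (lt_of_lt_of_le (by omega : 0 < a) hab)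
  have hab' : (a : ℝ) ≤ b := by exact_mod_cast hab
  have he : 0 < Real.exp 1 := Real.exp_pos 1
  refine mul_le_mul (choose_le_exp_pow ha) ?_ (by positivity) (by positivity)
  have h1 := choose_le_exp_pow (N := d * n) (a := b) (by omega)
  calc ((d * n).choose b : ℝ) * ((a : ℝ) / n) ^ (2 * b)
      ≤ (Real.exp 1 * ((d * n : ℕ) : ℝ) / b) ^ b * ((a : ℝ) / n) ^ (2 * b) :=
        mul_le_mul_of_nonneg_right h1 (by positivity)
    _ = (Real.exp 1 * ((d * n : ℕ) : ℝ) / b * ((a : ℝ) / n) ^ 2) ^ b := by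
        rw [mul_pow, pow_mul ((a : ℝ) / n) 2 b]
    _ ≤ _ := by
        refine pow_le_pow_left₀ (by positivity) ?_ b
        push_cast
        have h2 : Real.exp 1 * ((d : ℝ) * n) / b * ((a : ℝ) / n) ^ 2 =
            Real.exp 1 * d * a / n * (a / b) := by
          field_simp
        rw [h2]
        have h3 : (a : ℝ) / b ≤ 1 := (div_le_one hb').2 hab'
        have h4 : 0 ≤ Real.exp 1 * d * a / n := by positivity
        calc Real.exp 1 * d * a / n * (a / b) ≤ Real.exp 1 * d * a / n * 1 :=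
              mul_le_mul_of_nonneg_left h3 h4
          _ = _ := mul_one _

open Classical in
theorem e1_whp (d : ℕ) : ∃ c₁ > 0, ∀ δ > 0, ∃ n₀ : ℕ, ∀ n ≥ n₀,
    ((univ.filter (fun u : Fin (d * n) → Fin n × Fin n => ¬ E1 c₁ n (edges u))).card : ℝ) ≤
      δ * (n : ℝ) ^ (2 * (d * n)) := by
  set e : ℝ := Real.exp 1 with he
  have he0 : 0 < e := Real.exp_pos 1
  set K : ℝ := e ^ 2 * d + 2 with hK
  have hK2 : 2 ≤ K := by
    have : 0 ≤ e ^ 2 * d := by positivity
    linarith
  have hlK : 0 < Real.log K := Real.log_pos (by linarith)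
  refine ⟨1 / (4 * Real.log K), by positivity, ?_⟩
  intro δ hδ
  -- `e d (n ^ (3/4)) / n ≤ δ` for large `n`
  have hlim : Filter.Tendsto (fun n : ℕ => e * d * ((n : ℝ) ^ (-(1 / 4 : ℝ))))
      Filter.atTop (nhds (e * d * 0)) := by
    refine Filter.Tendsto.const_mul _ ?_
    exact (tendsto_rpow_neg_atTop (by norm_num : (0 : ℝ) < 1 / 4)).comp
      tendsto_natCast_atTop_atTop
  rw [mul_zero] at hlim
  have hev := hlim.eventually (ge_mem_nhds hδ)
  rw [Filter.eventually_atTop] at hev
  obtain ⟨n₁, hn₁⟩ := hev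
  refine ⟨max n₁ 1, ?_⟩
  intro n hn
  have hn1 : n₁ ≤ n := le_trans (le_max_left _ _) hn
  have hn0 : 0 < n := lt_of_lt_of_le one_pos (le_trans (le_max_right _ _) hn)
  have hn' : (0 : ℝ) < n := by exact_mod_cast hn0
  have hn1' : (1 : ℝ) ≤ n := by exact_mod_cast hn0
  set L : ℕ := ⌊1 / (4 * Real.log K) * Real.log n⌋₊ with hL
  have hlog : 0 ≤ Real.log n := Real.log_nonneg hn1'
  have hLle : (L : ℝ) ≤ 1 / (4 * Real.log K) * Real.log n := Nat.floor_le (by positivity)
  -- `K ^ L ≤ n ^ (1/4)`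
  have hKL : K ^ L ≤ (n : ℝ) ^ (1 / 4 : ℝ) := by
    rw [← Real.rpow_natCast K L, Real.rpow_def_of_pos (by linarith : 0 < K),
      Real.rpow_def_of_pos hn']
    refine Real.exp_le_exp.2 ?_
    calc Real.log K * L ≤ Real.log K * (1 / (4 * Real.log K) * Real.log n) :=
          mul_le_mul_of_nonneg_left hLle hlK.le
      _ = Real.log n * (1 / 4) := by
          field_simp
  have hLK : (L : ℝ) ≤ K ^ L := by
    have h1 : (L : ℝ) ≤ 2 ^ L := by exact_mod_cast (Nat.lt_two_pow_self (n := L)).le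
    exact h1.trans (pow_le_pow_left₀ (by norm_num) hK2 L)
  have hsub : (univ.filter (fun u : Fin (d * n) → Fin n × Fin n =>
      ¬ E1 (1 / (4 * Real.log K)) n (edges u))) ⊆
      (univ.filter (fun u : Fin (d * n) → Fin n × Fin n => ∃ A : Finset (Fin n),
        A.card ∈ Icc 1 L ∧
        A.card + 1 ≤ (univ.filter (fun i => (u i).1 ∈ A ∧ (u i).2 ∈ A)).card)) := by
    intro u hu
    rw [mem_filter] at hu ⊢
    refine ⟨mem_univ _, ?_⟩
    have h1 := hu.2
    rw [E1] at h1
    push Not at h1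
    obtain ⟨A, hA1, hA2, hA3⟩ := h1
    refine ⟨A, mem_Icc.2 ⟨hA1.card_pos, Nat.le_floor hA2⟩, ?_⟩
    exact le_trans hA3 (card_ins_edges_le u A)
  have hcard := union_inside (T := d * n) hn0 (Icc 1 L) (fun a => a + 1)
  have h1 : ((univ.filter (fun u : Fin (d * n) → Fin n × Fin n =>
      ¬ E1 (1 / (4 * Real.log K)) n (edges u))).card : ℝ) ≤
      ((univ.filter (fun u : Fin (d * n) → Fin n × Fin n => ∃ A : Finset (Fin n),
        A.card ∈ Icc 1 L ∧
        A.card + 1 ≤ (univ.filter (fun i => (u i).1 ∈ A ∧ (u i).2 ∈ A)).card)).card : ℝ) := by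
    exact_mod_cast card_le_card hsub
  refine (h1.trans hcard).trans ?_
  rw [← sum_mul]
  refine mul_le_mul_of_nonneg_right ?_ (by positivity)
  have hterm : ∀ a ∈ Icc 1 L, (n.choose a : ℝ) *
      (((d * n).choose (a + 1) : ℝ) * ((a : ℝ) / n) ^ (2 * (a + 1))) ≤
      e * d * (K ^ L * K ^ L) / n := by
    intro a ha
    rw [mem_Icc] at ha
    have ha' : (0 : ℝ) < a := by exact_mod_cast (show 0 < a by omega)
    have haL : (a : ℝ) ≤ L := by exact_mod_cast ha.2
    refine (term_inside (d := d) hn0 ha.1 (Nat.le_succ a)).trans ?_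
    rw [← he]
    have h2 : (e * n / a) ^ a * (e * d * a / n) ^ (a + 1) =
        (e ^ 2 * d) ^ a * (e * d * a / n) := by
      rw [pow_succ, ← mul_assoc, ← mul_pow]
      congr 2
      field_simp
    rw [h2]
    have h3 : (e ^ 2 * d) ^ a ≤ K ^ L := by
      calc (e ^ 2 * d) ^ a ≤ K ^ a := pow_le_pow_left₀ (by positivity) (by linarith) a
        _ ≤ K ^ L := pow_le_pow_right₀ (by linarith) ha.2
    calc (e ^ 2 * d) ^ a * (e * d * a / n) ≤ K ^ L * (e * d * K ^ L / n) := by
          refine mul_le_mul h3 ?_ (by positivity) (by positivity)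
          refine div_le_div_of_nonneg_right ?_ hn'.le
          exact mul_le_mul_of_nonneg_left (haL.trans hLK) (by positivity)
      _ = _ := by ring
  calc ∑ a ∈ Icc 1 L, (n.choose a : ℝ) *
      (((d * n).choose (a + 1) : ℝ) * ((a : ℝ) / n) ^ (2 * (a + 1)))
      ≤ ∑ a ∈ Icc 1 L, e * d * (K ^ L * K ^ L) / n := sum_le_sum hterm
    _ = L * (e * d * (K ^ L * K ^ L) / n) := by
        rw [sum_const, Nat.card_Icc, nsmul_eq_mul]
        simp
    _ ≤ K ^ L * (e * d * (K ^ L * K ^ L) / n) :=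
        mul_le_mul_of_nonneg_right hLK (by positivity)
    _ ≤ (n : ℝ) ^ (1 / 4 : ℝ) * (e * d * ((n : ℝ) ^ (1 / 4 : ℝ) * (n : ℝ) ^ (1 / 4 : ℝ)) / n) := by
        refine mul_le_mul hKL ?_ (by positivity) (by positivity)
        refine div_le_div_of_nonneg_right ?_ hn'.le
        refine mul_le_mul_of_nonneg_left ?_ (by positivity)
        exact mul_le_mul hKL hKL (by positivity) (by positivity)
    _ = e * d * ((n : ℝ) ^ (-(1 / 4 : ℝ))) := by
        have h5 : (n : ℝ) ^ (-(1 / 4 : ℝ)) =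
            (n : ℝ) ^ (1 / 4 : ℝ) * (n : ℝ) ^ (1 / 4 : ℝ) * (n : ℝ) ^ (1 / 4 : ℝ) *
              (n : ℝ) ^ (-1 : ℝ) := by
          rw [← Real.rpow_add hn', ← Real.rpow_add hn', ← Real.rpow_add hn']
          norm_num
        rw [h5, Real.rpow_neg_one]
        ring
    _ ≤ δ := hn₁ n hn1

end Pool.Agent.Helper50.RG
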