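import Pool.Agent.Helper50.RG.Base1

/-!
# RG-29 : sparsity of small sets holds with high probability

See the comment in `Base1.lean` (`count_inside` may be used). With `b = ⌈3a/2⌉` one term of the
union bound is at most `(e² d √(e d a / n)) ^ a`.
-/

set_option autoImplicit false

namespace Pool.Agent.Helper50.RG

open Finset

/-- the estimate of one term when `3 a ≤ 2 b` -/
theorem term_inside_sqrt {n d a b : ℕ} (hn : 0 < n) (ha : 1 ≤ a) (hab : a ≤ b)
    (hb : 3 * a ≤ 2 * b) (hr : Real.exp 1 * d * a / n ≤ 1) :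
    (n.choose a : ℝ) * (((d * n).choose b : ℝ) * ((a : ℝ) / n) ^ (2 * b)) ≤
      (Real.exp 1 ^ 2 * d * Real.sqrt (Real.exp 1 * d * a / n)) ^ a := by
  have hn' : (0 : ℝ) < n := by exact_mod_cast hn
  have ha' : (0 : ℝ) < a := by exact_mod_cast ha
  refine (term_inside (d := d) hn ha hab).trans ?_
  set e : ℝ := Real.exp 1 with he
  have he0 : 0 < e := Real.exp_pos 1
  set r : ℝ := e * d * a / n with hr'
  have hr0 : 0 ≤ r := by positivity
  set q : ℝ := Real.sqrt r with hq
  have hq0 : 0 ≤ q := Real.sqrt_nonneg r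
  have hq2 : q ^ 2 = r := Real.sq_sqrt hr0
  have hq1 : q ≤ 1 := by
    rw [hq, Real.sqrt_le_one]
    exact hr
  have h1 : r ^ b ≤ (q ^ 3) ^ a := by
    rw [← hq2, ← pow_mul, ← pow_mul]
    exact pow_le_pow_of_le_one hq0 hq1 hb
  calc (e * n / a) ^ a * r ^ b ≤ (e * n / a) ^ a * (q ^ 3) ^ a :=
        mul_le_mul_of_nonneg_left h1 (by positivity)
    _ = (e * n / a * (q ^ 2 * q)) ^ a := by
        rw [← mul_pow]
        congr 1
    _ = _ := by
        congr 1
        rw [hq2, hr']
        field_simp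

open Classical in
theorem e2_whp (d : ℕ) : ∃ ε' > 0, ε' < 1 ∧ ∀ δ > 0, ∃ n₀ : ℕ, ∀ n ≥ n₀,
    ((univ.filter (fun u : Fin (d * n) → Fin n × Fin n => ¬ E2 ε' n (edges u))).card : ℝ) ≤
      δ * (n : ℝ) ^ (2 * (d * n)) := by
  set e : ℝ := Real.exp 1 with he
  have he0 : 0 < e := Real.exp_pos 1
  have he1 : 1 ≤ e := Real.one_le_exp (by norm_num)
  set D : ℝ := 4 * e ^ 5 * d ^ 3 + 4 with hD
  have hD4 : 4 ≤ D := by
    have : 0 ≤ 4 * e ^ 5 * (d : ℝ) ^ 3 := by positivity
    linarith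
  have hD0 : 0 < D := by linarith
  have hdd : (d : ℝ) ≤ (d : ℝ) ^ 3 := by
    exact_mod_cast Nat.le_self_pow (by norm_num) d
  have hee : e ≤ e ^ 5 := le_self_pow₀ he1 (by norm_num)
  have hed : e * d ≤ D := by
    have h1 : e * d ≤ e ^ 5 * (d : ℝ) ^ 3 := mul_le_mul hee hdd (by positivity) (by positivity)
    have h2 : 0 ≤ e ^ 5 * (d : ℝ) ^ 3 := by positivity
    nlinarith
  refine ⟨1 / D, by positivity, (div_lt_one hD0).2 (by linarith), ?_⟩
  intro δ hδ
  obtain ⟨s, hs⟩ := exists_pow_lt_of_lt_one (show 0 < δ / 4 by positivity)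
    (show (1 / 2 : ℝ) < 1 by norm_num)
  -- the terms with `a < s`
  have hlim : Filter.Tendsto
      (fun n : ℕ => (s : ℝ) * (e ^ 2 * d * Real.sqrt (e * d * s / (n : ℝ))))
      Filter.atTop (nhds (s * (e ^ 2 * d * Real.sqrt 0))) := by
    refine Filter.Tendsto.const_mul _ (Filter.Tendsto.const_mul _ ?_)
    refine (Real.continuous_sqrt.tendsto 0).comp ?_
    exact tendsto_const_div_atTop_nhds_zero_nat _
  rw [Real.sqrt_zero, mul_zero, mul_zero] at hlim
  have hev := hlim.eventually (ge_mem_nhds (show 0 < δ / 2 by positivity))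
  rw [Filter.eventually_atTop] at hev
  obtain ⟨n₁, hn₁⟩ := hev
  refine ⟨max n₁ 1, ?_⟩
  intro n hn
  have hn1 : n₁ ≤ n := le_trans (le_max_left _ _) hn
  have hn0 : 0 < n := lt_of_lt_of_le one_pos (le_trans (le_max_right _ _) hn)
  have hn' : (0 : ℝ) < n := by exact_mod_cast hn0
  set L : ℕ := ⌊1 / D * (n : ℝ)⌋₊ with hL
  have hLle : (L : ℝ) ≤ 1 / D * (n : ℝ) := Nat.floor_le (by positivity)
  set b : ℕ → ℕ := fun a => (3 * a + 1) / 2 with hb
  have hsub : (univ.filter (fun u : Fin (d * n) → Fin n × Fin n =>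
      ¬ E2 (1 / D) n (edges u))) ⊆
      (univ.filter (fun u : Fin (d * n) → Fin n × Fin n => ∃ A : Finset (Fin n),
        A.card ∈ Icc 1 L ∧
        b A.card ≤ (univ.filter (fun i => (u i).1 ∈ A ∧ (u i).2 ∈ A)).card)) := by
    intro u hu
    rw [mem_filter] at hu ⊢
    refine ⟨mem_univ _, ?_⟩
    have h1 := hu.2
    rw [E2] at h1
    push Not at h1
    obtain ⟨A, hA1, hA2, hA3⟩ := h1
    refine ⟨A, mem_Icc.2 ⟨hA1.card_pos, Nat.le_floor hA2⟩, ?_⟩
    have h2 := card_ins_edges_le u A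
    rw [hb]
    simp only
    omega
  have hcard := union_inside (T := d * n) hn0 (Icc 1 L) b
  have h1 : ((univ.filter (fun u : Fin (d * n) → Fin n × Fin n =>
      ¬ E2 (1 / D) n (edges u))).card : ℝ) ≤
      ((univ.filter (fun u : Fin (d * n) → Fin n × Fin n => ∃ A : Finset (Fin n),
        A.card ∈ Icc 1 L ∧
        b A.card ≤ (univ.filter (fun i => (u i).1 ∈ A ∧ (u i).2 ∈ A)).card)).card : ℝ) := by
    exact_mod_cast card_le_card hsub
  refine (h1.trans hcard).trans ?_
  rw [← sum_mul]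
  refine mul_le_mul_of_nonneg_right ?_ (by positivity)
  -- bound of one term
  have hterm : ∀ a ∈ Icc 1 L, (n.choose a : ℝ) *
      (((d * n).choose (b a) : ℝ) * ((a : ℝ) / n) ^ (2 * b a)) ≤
      (e ^ 2 * d * Real.sqrt (e * d * a / n)) ^ a ∧
      e ^ 2 * d * Real.sqrt (e * d * a / n) ≤ 1 / 2 := by
    intro a ha
    rw [mem_Icc] at ha
    have haL : (a : ℝ) ≤ 1 / D * n := le_trans (by exact_mod_cast ha.2) hLle
    have h2 : e * d * a / n ≤ e * d / D := by
      rw [div_le_div_iff₀ hn' hD0]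
      have h3 : (a : ℝ) * D ≤ n := by
        calc (a : ℝ) * D ≤ 1 / D * n * D := mul_le_mul_of_nonneg_right haL hD0.le
          _ = n := by field_simp
      calc e * d * a * D = e * d * (a * D) := by ring
        _ ≤ e * d * n := mul_le_mul_of_nonneg_left h3 (by positivity)
    refine ⟨term_inside_sqrt hn0 ha.1 (by rw [hb]; simp only; omega)
      (by rw [hb]; simp only; omega) (h2.trans ((div_le_one hD0).2 hed)), ?_⟩
    have h4 : Real.sqrt (e * d * a / n) ≤ Real.sqrt (e * d / D) := Real.sqrt_le_sqrt h2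
    have h5 : e ^ 2 * d * Real.sqrt (e * d / D) ≤ 1 / 2 := by
      have h6 : (e ^ 2 * d * Real.sqrt (e * d / D)) ^ 2 ≤ (1 / 2) ^ 2 := by
        rw [mul_pow, Real.sq_sqrt (by positivity)]
        have h7 : (e ^ 2 * (d : ℝ)) ^ 2 * (e * d / D) = e ^ 5 * d ^ 3 / D := by ring
        rw [h7, div_le_iff₀ hD0]
        have : 0 ≤ e ^ 5 * (d : ℝ) ^ 3 := by positivity
        rw [hD]
        nlinarith
      exact (pow_le_pow_iff_left₀ (by positivity) (by norm_num) (by norm_num)).1 h6
    exact (mul_le_mul_of_nonneg_left h4 (by positivity)).trans h5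
  have hsplit : ∀ a ∈ Icc 1 L, (n.choose a : ℝ) *
      (((d * n).choose (b a) : ℝ) * ((a : ℝ) / n) ^ (2 * b a)) ≤
      (if a < s then e ^ 2 * d * Real.sqrt (e * d * s / n) else 0) +
      (if s ≤ a then (1 / 2 : ℝ) ^ a else 0) := by
    intro a ha
    obtain ⟨h2, h3⟩ := hterm a ha
    rw [mem_Icc] at ha
    have h4 : 0 ≤ e ^ 2 * d * Real.sqrt (e * d * a / n) := by positivity
    by_cases has : a < s
    · rw [if_pos has, if_neg (by omega), add_zero]
      calc _ ≤ _ := h2
        _ ≤ e ^ 2 * d * Real.sqrt (e * d * a / n) :=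
            pow_le_of_le_one h4 (by linarith) (by omega)
        _ ≤ _ := by
            refine mul_le_mul_of_nonneg_left (Real.sqrt_le_sqrt ?_) (by positivity)
            refine div_le_div_of_nonneg_right ?_ hn'.le
            refine mul_le_mul_of_nonneg_left ?_ (by positivity)
            exact_mod_cast has.le
    · rw [if_neg has, if_pos (by omega), zero_add]
      exact h2.trans (pow_le_pow_left₀ h4 h3 a)
  refine (sum_le_sum hsplit).trans ?_
  rw [sum_add_distrib]
  have hpart1 : ∑ a ∈ Icc 1 L, (if a < s then e ^ 2 * d * Real.sqrt (e * d * s / n) else 0) ≤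
      δ / 2 := by
    rw [← sum_filter, sum_const, nsmul_eq_mul]
    refine le_trans ?_ (hn₁ n hn1)
    refine mul_le_mul_of_nonneg_right ?_ (by positivity)
    have h2 : ((Icc 1 L).filter (fun a => a < s)).card ≤ s := by
      calc ((Icc 1 L).filter (fun a => a < s)).card ≤ (range s).card := by
            refine card_le_card ?_
            intro a ha
            rw [mem_range]
            exact (mem_filter.1 ha).2
        _ = s := card_range s
    exact_mod_cast h2
  have hpart2 : ∑ a ∈ Icc 1 L, (if s ≤ a then (1 / 2 : ℝ) ^ a else 0) ≤ δ / 2 := by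
    rw [← sum_filter]
    have h2 : (Icc 1 L).filter (fun a => s ≤ a) ⊆ Ico s (L + 1) := by
      intro a ha
      rw [mem_filter, mem_Icc] at ha
      rw [mem_Ico]
      omega
    calc ∑ a ∈ (Icc 1 L).filter (fun a => s ≤ a), (1 / 2 : ℝ) ^ a
        ≤ ∑ a ∈ Ico s (L + 1), (1 / 2 : ℝ) ^ a :=
          sum_le_sum_of_subset_of_nonneg h2 (fun a _ _ => by positivity)
      _ ≤ (1 / 2 : ℝ) ^ s / (1 - 1 / 2) :=
          geom_sum_Ico_le_of_lt_one (by norm_num) (by norm_num)
      _ ≤ δ / 2 := by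
          rw [div_le_iff₀ (by norm_num)]
          linarith
  linarith

end Pool.Agent.Helper50.RG
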