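import Pool.Agent.Helper50.RG.Base1

/-!
# RG-30 : the maximum degree is at most `log n` with high probability

See the comment in `Base1.lean`. `nb (edges u) univ v` is at most the number of half edges
`occ u v` at `v`.
-/

set_option autoImplicit false

namespace Pool.Agent.Helper50.RG

open Finset

/-- the half edges -/
private def hf {n T : ℕ} (u : Fin T → Fin n × Fin n) (x : Fin T × Bool) : Fin n :=
  if x.2 then (u x.1).2 else (u x.1).1

private theorem nb_le_hf {n T : ℕ} (u : Fin T → Fin n × Fin n) (v : Fin n) :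
    nb (edges u) univ v ≤ (univ.filter (fun x : Fin T × Bool => hf u x = v)).card := by
  classical
  unfold nb
  have h1 : ∀ w : Fin n, s(v, w) ∈ edges u → ∃ x : Fin T × Bool, hf u x = v ∧
      hf u (x.1, !x.2) = w := by
    intro w hw
    unfold edges at hw
    obtain ⟨i, _, hi⟩ := mem_image.mp hw
    rcases Sym2.eq_iff.mp hi with ⟨h2, h3⟩ | ⟨h2, h3⟩
    · exact ⟨(i, false), by simp [hf, h2], by simp [hf, h3]⟩
    · exact ⟨(i, true), by simp [hf, h3], by simp [hf, h2]⟩
  refine card_le_card_of_surjOn (fun x => hf u (x.1, !x.2)) fun w hw => ?_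
  obtain ⟨x, hx1, hx2⟩ := h1 w (mem_filter.mp (mem_coe.mp hw)).2
  exact ⟨x, mem_coe.mpr (mem_filter.mpr ⟨mem_univ _, hx1⟩), hx2⟩

private theorem card_fix {n T : ℕ} (S : Finset (Fin T × Bool)) (v : Fin n) :
    (univ.filter (fun u : Fin T → Fin n × Fin n => ∀ x ∈ S, hf u x = v)).card * n ^ S.card =
      n ^ (2 * T) := by
  classical
  have h0 : (univ.filter (fun u : Fin T → Fin n × Fin n => ∀ x ∈ S, hf u x = v)).card =
      (univ.filter (fun w : Fin T × Bool → Fin n => ∀ x ∈ S, w x = v)).card := by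
    refine card_bij (fun u _ => hf u) (fun u hu => ?_) (fun u _ u' _ h => ?_) (fun w hw => ?_)
    · exact mem_filter.mpr ⟨mem_univ _, (mem_filter.mp hu).2⟩
    · funext i
      have h1 := congrFun h (i, false)
      have h2 := congrFun h (i, true)
      simp only [hf] at h1 h2
      exact Prod.ext (by simpa using h1) (by simpa using h2)
    · have h3 : hf (fun i => (w (i, false), w (i, true))) = w := by
        funext x
        obtain ⟨i, b⟩ := x
        cases b <;> simp [hf]
      refine ⟨fun i => (w (i, false), w (i, true)), ?_, h3⟩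
      refine mem_filter.mpr ⟨mem_univ _, ?_⟩
      rw [h3]
      exact (mem_filter.mp hw).2
  have h1 : (univ.filter (fun w : Fin T × Bool → Fin n => ∀ x ∈ S, w x = v)) =
      Fintype.piFinset (fun x => if x ∈ S then {v} else univ) := by
    ext w
    rw [mem_filter, Fintype.mem_piFinset]
    constructor
    · rintro ⟨_, h⟩ x
      by_cases hx : x ∈ S
      · rw [if_pos hx]
        exact mem_singleton.mpr (h x hx)
      · rw [if_neg hx]
        exact mem_univ _
    · intro h
      refine ⟨mem_univ _, fun x hx => ?_⟩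
      have := h x
      rw [if_pos hx] at this
      exact mem_singleton.mp this
  rw [h0, h1, Fintype.card_piFinset]
  have h2 : ∀ x : Fin T × Bool, (if x ∈ S then ({v} : Finset (Fin n)) else univ).card =
      if x ∈ S then 1 else n := by
    intro x
    split_ifs <;> simp
  rw [prod_congr rfl fun x _ => h2 x]
  have h3 : n ^ S.card = ∏ x : Fin T × Bool, if x ∈ S then n else 1 := by
    rw [prod_ite_mem, univ_inter, prod_const]
  rw [h3, ← prod_mul_distrib]
  have h4 : ∀ x : Fin T × Bool, ((if x ∈ S then 1 else n) * if x ∈ S then n else 1) = n := by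
    intro x
    split_ifs <;> simp
  rw [prod_congr rfl fun x _ => h4 x, prod_const, card_univ, Fintype.card_prod, Fintype.card_fin,
    Fintype.card_bool, Nat.mul_comm]

open Classical in
private theorem count_deg {n T : ℕ} (b : ℕ) :
    (univ.filter (fun u : Fin T → Fin n × Fin n => ∃ v, b ≤ nb (edges u) univ v)).card * n ^ b ≤
      n * (2 * T).choose b * n ^ (2 * T) := by
  have h1 : (univ.filter (fun u : Fin T → Fin n × Fin n => ∃ v, b ≤ nb (edges u) univ v)) ⊆
      (univ : Finset (Fin n)).biUnion fun v =>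
        (powersetCard b (univ : Finset (Fin T × Bool))).biUnion fun S =>
          univ.filter (fun u : Fin T → Fin n × Fin n => ∀ x ∈ S, hf u x = v) := by
    intro u hu
    obtain ⟨_, v, hv⟩ := mem_filter.mp hu
    obtain ⟨S, hS1, hS2⟩ := exists_subset_card_eq (hv.trans (nb_le_hf u v))
    refine mem_biUnion.mpr ⟨v, mem_univ _, mem_biUnion.mpr ⟨S, ?_, ?_⟩⟩
    · exact mem_powersetCard.mpr ⟨subset_univ _, hS2⟩
    · exact mem_filter.mpr ⟨mem_univ _, fun x hx => (mem_filter.mp (hS1 hx)).2⟩
  calc _ ≤ (∑ v : Fin n, ∑ S ∈ powersetCard b (univ : Finset (Fin T × Bool)),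
        (univ.filter (fun u : Fin T → Fin n × Fin n => ∀ x ∈ S, hf u x = v)).card) * n ^ b := by
        refine Nat.mul_le_mul_right _ ((card_le_card h1).trans ?_)
        refine card_biUnion_le.trans (sum_le_sum fun v _ => ?_)
        exact card_biUnion_le
    _ = ∑ v : Fin n, ∑ S ∈ powersetCard b (univ : Finset (Fin T × Bool)), n ^ (2 * T) := by
        rw [sum_mul]
        refine sum_congr rfl fun v _ => ?_
        rw [sum_mul]
        refine sum_congr rfl fun S hS => ?_
        rw [← (mem_powersetCard.mp hS).2]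
        exact card_fix S v
    _ = n * (2 * T).choose b * n ^ (2 * T) := by
        rw [sum_const, sum_const, card_powersetCard, card_univ, card_univ, Fintype.card_prod,
          Fintype.card_fin, Fintype.card_fin, Fintype.card_bool, smul_eq_mul, smul_eq_mul,
          Nat.mul_comm T 2, mul_assoc]

open Classical in
theorem e3_whp (d : ℕ) : ∀ δ > 0, ∃ n₀ : ℕ, ∀ n ≥ n₀,
    ((univ.filter (fun u : Fin (d * n) → Fin n × Fin n => ¬ E3 1 n (edges u))).card : ℝ) ≤
      δ * (n : ℝ) ^ (2 * (d * n)) := by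
  intro δ hδ
  have h1 := FloorSemiring.tendsto_pow_div_factorial_atTop (6 * (d : ℝ))
  obtain ⟨B, hB⟩ := Filter.eventually_atTop.mp (h1.eventually (gt_mem_nhds hδ))
  refine ⟨⌈Real.exp B⌉₊ + 1, fun n hn => ?_⟩
  have hn1 : Real.exp B ≤ n := by
    refine (Nat.le_ceil _).trans ?_
    exact_mod_cast (Nat.le_succ _).trans hn
  have hn0 : (0 : ℝ) < n := (Real.exp_pos _).trans_le hn1
  have hlog : (B : ℝ) ≤ Real.log n := (Real.le_log_iff_exp_le hn0).mpr hn1
  set b := ⌊Real.log n⌋₊ + 1 with hb
  have hb1 : Real.log n < b := by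
    rw [hb]
    push_cast
    exact Nat.lt_floor_add_one _
  have hbB : B ≤ b := by
    have : (B : ℝ) < b := hlog.trans_lt hb1
    exact_mod_cast this.le
  have hnb : (n : ℝ) ≤ 3 ^ b := by
    have h2 : Real.log n ≤ b * Real.log 3 := by
      have h3 : (1 : ℝ) ≤ Real.log 3 := by
        rw [Real.le_log_iff_exp_le (by norm_num)]
        exact Real.exp_one_lt_d9.le.trans (by norm_num)
      have h4 : (0 : ℝ) ≤ b := Nat.cast_nonneg _
      nlinarith
    have h5 := Real.exp_le_exp.mpr h2
    rw [Real.exp_log hn0, mul_comm, Real.exp_mul, Real.exp_log (by norm_num),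
      Real.rpow_natCast] at h5
    exact h5
  have h6 : (univ.filter (fun u : Fin (d * n) → Fin n × Fin n => ¬ E3 1 n (edges u))) ⊆
      univ.filter (fun u : Fin (d * n) → Fin n × Fin n => ∃ v, b ≤ nb (edges u) univ v) := by
    intro u hu
    obtain ⟨_, hu⟩ := mem_filter.mp hu
    refine mem_filter.mpr ⟨mem_univ _, ?_⟩
    unfold E3 at hu
    push Not at hu
    obtain ⟨v, hv⟩ := hu
    refine ⟨v, ?_⟩
    rw [one_mul] at hv
    rw [hb, Nat.add_one_le_iff]
    exact (Nat.floor_lt (Real.log_nonneg (by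
      have : (1 : ℝ) ≤ Real.exp B := Real.one_le_exp (Nat.cast_nonneg _)
      linarith))).mpr hv
  have h7 : ((univ.filter (fun u : Fin (d * n) → Fin n × Fin n =>
      ∃ v, b ≤ nb (edges u) univ v)).card : ℝ) * (n : ℝ) ^ b ≤
      n * ((2 * (d * n)).choose b : ℝ) * (n : ℝ) ^ (2 * (d * n)) := by
    exact_mod_cast count_deg b
  have h8 : ((2 * (d * n)).choose b : ℝ) ≤ (2 * (d * n)) ^ b / (b.factorial : ℝ) := by
    have := Nat.choose_le_pow_div (α := ℝ) b (2 * (d * n))
    push_cast at this
    exact this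
  have hf : (0 : ℝ) < b.factorial := by exact_mod_cast Nat.factorial_pos b
  have hnp : (0 : ℝ) < (n : ℝ) ^ b := pow_pos hn0 b
  have h9 : ((univ.filter (fun u : Fin (d * n) → Fin n × Fin n =>
      ∃ v, b ≤ nb (edges u) univ v)).card : ℝ) ≤
      (6 * (d : ℝ)) ^ b / b.factorial * (n : ℝ) ^ (2 * (d * n)) := by
    rw [← mul_le_mul_iff_left₀ hnp]
    refine h7.trans ?_
    have h10 : (n : ℝ) * ((2 * (d * n)).choose b : ℝ) ≤
        (6 * (d : ℝ)) ^ b / b.factorial * (n : ℝ) ^ b := by
      calc (n : ℝ) * ((2 * (d * n)).choose b : ℝ) ≤ 3 ^ b * ((2 * (d * n)) ^ b / b.factorial) :=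
            mul_le_mul hnb h8 (Nat.cast_nonneg _) (by positivity)
        _ = (6 * (d : ℝ)) ^ b / b.factorial * (n : ℝ) ^ b := by
            rw [show (6 * (d : ℝ)) = 3 * 2 * d by ring]
            simp only [mul_pow]
            ring
    calc (n : ℝ) * ((2 * (d * n)).choose b : ℝ) * (n : ℝ) ^ (2 * (d * n)) ≤
          ((6 * (d : ℝ)) ^ b / b.factorial * (n : ℝ) ^ b) * (n : ℝ) ^ (2 * (d * n)) :=
          mul_le_mul_of_nonneg_right h10 (by positivity)
      _ = _ := by ring
  calc ((univ.filter (fun u : Fin (d * n) → Fin n × Fin n => ¬ E3 1 n (edges u))).card : ℝ) ≤ _ :=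
        by exact_mod_cast card_le_card h6
    _ ≤ _ := h9
    _ ≤ δ * (n : ℝ) ^ (2 * (d * n)) :=
        mul_le_mul_of_nonneg_right (hB b hbB).le (by positivity)

end Pool.Agent.Helper50.RG
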