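import Pool.Agent.Helper50.RG.RkK
import Pool.Agent.Helper50.RG.RkX

/-!
# RG-7 : two cliques of a closed set which share `d` vertices

Take a generic placement `p` (`exists_generic`, `P = 1`). Let `m` be a motion of `E`. All pairs of
`A` are in the closure of `E`, so `m` satisfies them (the rank at `p` of `insert e E` equals that of
`E`, so the row of `e` is in the span). If `card A ≥ d + 1` and `card A' ≥ d + 1` then `m` is equal
on `A` to a trivial motion `S x + t` and on `A'` to `S' x + t'` (see the computation (K) of RG-6);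
they agree on the `d` points of `A ∩ A'`, so `S = S'`, `t = t'`. Hence `m` satisfies all pairs of
`A ∪ A'`, so the rows of these pairs are in the span of the rows of `E` (double orthogonal).
If `card A = d` then `A ⊆ A'` and there is nothing to show, and similarly for `A'`.
-/

set_option autoImplicit false

namespace Pool.Agent.Helper50.RG

open Finset

variable {V : Type} [Fintype V] [DecidableEq V] {F : Type} [Field F] [Infinite F] {d : ℕ}
  {E : Finset (Sym2 V)}

omit [Fintype V] in
private theorem RkC_mem_Kn {A : Finset V} {u v : V} :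
    s(u, v) ∈ Kn A ↔ (u ∈ A ∧ v ∈ A) ∧ u ≠ v := by
  unfold Kn
  rw [mem_filter, mk_mem_sym2_iff, Sym2.mk_isDiag_iff]

omit [Fintype V] in
private theorem RkC_Kn_mono {A B : Finset V} (h : A ⊆ B) : Kn A ⊆ Kn B := by
  unfold Kn
  exact filter_subset_filter _ (sym2_mono h)

omit [Fintype V] in
private theorem RkC_not_mem {A S T : Finset V} {v : V} (hT : T ⊆ A) (hvA : v ∉ A) (hvS : v ∉ S) :
    ∀ e ∈ Kn A ∪ S.biUnion (fun w => star w T), v ∉ e := by
  intro e he hve
  rcases mem_union.1 he with he | he
  · unfold Kn at he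
    rw [mem_filter, mem_sym2_iff] at he
    exact hvA (he.1 v hve)
  · rw [mem_biUnion] at he
    obtain ⟨w, hw, he⟩ := he
    unfold star at he
    rw [mem_image] at he
    obtain ⟨t, ht, rfl⟩ := he
    rcases Sym2.mem_iff.1 hve with h | h
    · exact hvS (h ▸ hw)
    · exact hvA (h ▸ hT ht)

private theorem RkC_ext {A T : Finset V} (hT : T ⊆ A) (hc : T.card = d) (S : Finset V)
    (hS : Disjoint A S) :
    rk F d (Kn A ∪ S.biUnion (fun w => star w T)) = rk F d (Kn A) + d * S.card := by
  induction S using Finset.induction_on with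
  | empty => simp
  | insert v S hv ih =>
    rw [disjoint_insert_right] at hS
    have h1 := ih hS.2
    have h2 : Kn A ∪ (insert v S).biUnion (fun w => star w T)
        = (Kn A ∪ S.biUnion (fun w => star w T)) ∪ star v T := by
      rw [biUnion_insert, union_comm (star v T), union_assoc]
    rw [h2, rk_star (RkC_not_mem hT hS.1 hv) (fun h => hS.1 (hT h)) hc.le, h1, hc,
      card_insert_of_notMem hv]
    ring

private theorem RkC_main (h2 : (2 : F) ≠ 0) {A S T : Finset V} (hT : T ⊆ A) (hc : T.card = d)
    (hS : Disjoint A S) (hA : ClK F d E A) (hcl : ∀ v ∈ S, ∀ w ∈ T, Cl F d E s(v, w)) :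
    ClK F d E (A ∪ S) := by
  set G : Finset (Sym2 V) := Kn A ∪ S.biUnion (fun w => star w T) with hG
  have hdA : d ≤ A.card := hc ▸ card_le_card hT
  have hr1 : rk F d G = rk F d (Kn A) + d * S.card := RkC_ext hT hc S hS
  have hr2 : rk F d (Kn A) + KK d = d * A.card := rk_Kn h2 hdA
  have hcard : (A ∪ S).card = A.card + S.card := card_union_of_disjoint hS
  have hr3 : rk F d (Kn (A ∪ S)) + KK d = d * (A ∪ S).card := rk_Kn h2 (by omega)
  have hr4 : rk F d (Kn (A ∪ S)) = rk F d G := by
    rw [hcard, mul_add] at hr3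
    omega
  have hsub : G ⊆ Kn (A ∪ S) := by
    rw [hG]
    refine union_subset (RkC_Kn_mono subset_union_left) ?_
    rw [biUnion_subset]
    intro v hv e he
    unfold star at he
    rw [mem_image] at he
    obtain ⟨w, hw, rfl⟩ := he
    rw [RkC_mem_Kn]
    refine ⟨⟨mem_union_right _ hv, mem_union_left _ (hT hw)⟩, ?_⟩
    rintro rfl
    exact disjoint_left.1 hS (hT hw) hv
  have hGcl : ∀ f ∈ G, Cl F d E f := by
    intro f hf
    rcases mem_union.1 hf with hf | hf
    · induction f using Sym2.ind with
      | _ a b =>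
        rw [RkC_mem_Kn] at hf
        exact hA a hf.1.1 b hf.1.2 hf.2
    · rw [mem_biUnion] at hf
      obtain ⟨v, hv, hf⟩ := hf
      unfold star at hf
      rw [mem_image] at hf
      obtain ⟨w, hw, rfl⟩ := hf
      exact hcl v hv w hw
  intro u hu v hv huv
  have he : s(u, v) ∈ Kn (A ∪ S) := RkC_mem_Kn.2 ⟨⟨hu, hv⟩, huv⟩
  have h3 : Cl F d G s(u, v) := cl_of_subset hsub (cl_of_mem he) hr4
  exact cl_trans hGcl (cl_mono subset_union_right h3)

theorem clK_union (h2 : (2 : F) ≠ 0) {A A' : Finset V} (hc : d ≤ (A ∩ A').card)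
    (hA : ClK F d E A) (hA' : ClK F d E A') : ClK F d E (A ∪ A') := by
  obtain ⟨T, hT, hTc⟩ := exists_subset_card_eq hc
  have h1 := RkC_main h2 (A := A) (S := A' \ A) (T := T) (hT.trans inter_subset_left) hTc
    disjoint_sdiff hA (fun v hv w hw => ?_)
  · rwa [union_sdiff_self_eq_union] at h1
  · rw [mem_sdiff] at hv
    have hw' := mem_inter.1 (hT hw)
    refine hA' v hv.1 w hw'.2 ?_
    rintro rfl
    exact hv.2 hw'.1

/-- a vertex with `d` edges to a clique joins the clique -/
theorem clK_insert (h2 : (2 : F) ≠ 0) {A : Finset V} {v : V} (hA : ClK F d E A)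
    {T : Finset V} (hT : T ⊆ A) (hc : d ≤ T.card) (hv : ∀ w ∈ T, Cl F d E s(v, w)) :
    ClK F d E (insert v A) := by
  by_cases hvA : v ∈ A
  · rwa [insert_eq_of_mem hvA]
  · obtain ⟨T', hT', hTc⟩ := exists_subset_card_eq hc
    have h1 := RkC_main h2 (A := A) (S := {v}) (T := T') (hT'.trans hT) hTc
      (disjoint_singleton_right.2 hvA) hA (fun u hu w hw => ?_)
    · rwa [union_comm, ← insert_eq] at h1
    · rw [mem_singleton] at hu
      rw [hu]
      exact hv w (hT' hw)

/-- the closure contains `Kn A` if and only if the rank of `E ∪ Kn A` is the rank of `E` -/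
theorem clK_iff (A : Finset V) : ClK F d E A ↔ rk F d (E ∪ Kn A) = rk F d E := by
  constructor
  · intro h
    refine rk_union_cl fun e he => ?_
    induction e using Sym2.ind with
    | _ a b =>
      rw [RkC_mem_Kn] at he
      exact h a he.1.1 b he.1.2 he.2
  · intro h u hu v hv huv
    have he : s(u, v) ∈ E ∪ Kn A := mem_union_right _ (RkC_mem_Kn.2 ⟨⟨hu, hv⟩, huv⟩)
    exact cl_of_subset subset_union_left (cl_of_mem he) h

/-- a graph on `A` is rigid if and only if its closure is complete -/
theorem clK_iff_rk (h2 : (2 : F) ≠ 0) {A : Finset V} (hE : E ⊆ Kn A) (hA : d ≤ A.card) :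
    ClK F d E A ↔ rk F d E + KK d = d * A.card := by
  have h1 : rk F d (Kn A) + KK d = d * A.card := rk_Kn h2 hA
  rw [clK_iff, union_eq_right.2 hE]
  constructor
  · intro h
    rw [← h]
    exact h1
  · intro h
    omega

end Pool.Agent.Helper50.RG
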