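import Pool.Agent.Helper50.RG.Peel
import Pool.Agent.Helper50.RG.RkC
import Pool.Agent.Helper50.RG.RkX

/-!
# RG-23 : moving a clique of the closure into the core

`clique_step`: `v ∈ X`, `T` is the set of neighbours of `v` in `X`, `|T| ≤ d`, `W ⊆ X` is a clique
of the closure of `ins E X`, `v ∈ W`, `|W| ≥ d + 1`. Let `F = ins E (X.erase v)`,
`ins E X = F ∪ star v T`. The set `W.erase v` is a clique of the closure of `F` (`cl_restrict`).
If `|T| < d` choose `T' ⊇ T`, `T' ⊆ T ∪ W.erase v`, `|T'| = d`:
`rk (F ∪ star v T') = rk F + d` (`rk_star`), but all edges of `star v T'` are in the closure of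
`F ∪ star v T`, which has rank `rk F + |T|`: contradiction. So `|T| = d`. For
`w ∈ W.erase v`, `w ∉ T`: the rank of `F ∪ star v (insert w T)` is `rk F + d`, so by
`rk_star_succ` all pairs of `insert w T` are in the closure of `F`. If there is no such `w` then
`W.erase v = T` by cardinality. So `(W.erase v) ∪ T` is a clique of the closure of `F`.

`clique_core`: induction on `|X \ C|` for `C ⊆ X` (`C = core (d+1) E`) and a clique `W ⊆ X` of the closure
of `ins E X`. Claim: there are `W₀, U` with `W ∪ W₀ ⊆ U`, either `|W₀| ≤ d` or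
(`W₀ ⊆ C` and `W₀` is a clique of the closure of `ins E C`), and for all `s ≤ |U \ W₀|` there is `S ⊆ U \ W₀` with
`|S| = s` and `d s ≤ e(S ∪ W₀)`. If `|W| ≤ d` take `W₀ = U = W`; if `X = C` too. Otherwise choose
`v ∈ X \ C` with at most `d` neighbours in `X` (`exists_low`). If `v ∉ W`, go to `X.erase v` with the same `W`
(`cl_restrict`). If `v ∈ W` use `clique_step`, the induction hypothesis for `X.erase v` and
`W' = (W.erase v) ∪ T` gives `W₀, U'`; put `U = insert v U'`; for `s = |U' \ W₀| + 1` take
`S = U \ W₀`: `e(U) ≥ e(U') + d` as `T ⊆ W' ⊆ U'`.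
Apply this with `X = univ`. Now use `E2`: (i) if `|W₀| > ε N / 4` nothing to do, otherwise let `r = |U \ W₀|`,
`s = min (r, ⌊ε N / 4⌋)`, `|S ∪ W₀| ≤ ε N`, so `2 d s ≤ 2 e(S ∪ W₀) < 3 (s + |W₀|)`
(`S ∪ W₀` is non-empty), so `s < 3 |W₀|` or `s = 0`, so `|W| ≤ r + |W₀| ≤ 4 |W₀|` or
`ε N ≤ 12 |W₀| + 4`. The case `|W₀| ≤ d` is excluded by `hW`, `hn`.
-/

set_option autoImplicit false

namespace Pool.Agent.Helper50.RG

open Finset

variable {V : Type} [Fintype V] [DecidableEq V] {E : Finset (Sym2 V)} {d : ℕ}

private theorem crd_split (hL : Lpl E) {X T : Finset V} {v : V} (hv : v ∈ X)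
    (hT : T = X.filter (fun w => s(v, w) ∈ E)) :
    ins E X = ins E (X.erase v) ∪ star v T := by
  subst hT
  ext e
  induction e using Sym2.ind with
  | _ x y =>
    unfold star
    simp only [mk_mem_ins, mem_union, mem_image, mem_filter, mem_erase]
    constructor
    · rintro ⟨h1, h2, h3⟩
      by_cases hx : x = v
      · right
        exact ⟨y, ⟨h3, hx ▸ h1⟩, by rw [hx]⟩
      · by_cases hy : y = v
        · right
          refine ⟨x, ⟨h2, ?_⟩, ?_⟩
          · rw [Sym2.eq_swap, ← hy]
            exact h1
          · rw [Sym2.eq_swap, hy]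
        · left
          exact ⟨h1, ⟨hx, h2⟩, ⟨hy, h3⟩⟩
    · rintro (⟨h1, ⟨_, h2⟩, ⟨_, h3⟩⟩ | ⟨w, ⟨h1, h2⟩, h3⟩)
      · exact ⟨h1, h2, h3⟩
      · rw [← h3]
        refine ⟨h2, ?_⟩
        rw [Sym2.eq_iff] at h3
        rcases h3 with ⟨rfl, rfl⟩ | ⟨rfl, rfl⟩
        · exact ⟨hv, h1⟩
        · exact ⟨h1, hv⟩

private theorem crd_not_mem {X : Finset V} {v : V} : ∀ e ∈ ins E (X.erase v), v ∉ e := by
  intro e he hve
  rw [mem_ins] at he
  exact (notMem_erase v X) (he.2 v hve)

private theorem crd_not_T (hL : Lpl E) {X T : Finset V} {v : V}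
    (hT : T = X.filter (fun w => s(v, w) ∈ E)) : v ∉ T := by
  rw [hT, mem_filter]
  rintro ⟨_, h⟩
  exact hL _ h (by simp)

private theorem crd_restrict (hL : Lpl E) {X W T : Finset V} {v : V} (hv : v ∈ X)
    (hT : T = X.filter (fun w => s(v, w) ∈ E)) (hT' : T.card ≤ d)
    (hcl : ClK ℝ d (ins E X) W) (hvW : v ∉ W) : ClK ℝ d (ins E (X.erase v)) W := by
  intro a ha b hb hab
  have h1 := hcl a ha b hb hab
  rw [crd_split hL hv hT] at h1
  refine cl_restrict crd_not_mem (crd_not_T hL hT) hT' ?_ h1
  rw [Sym2.mem_iff, not_or]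
  exact ⟨fun h => hvW (h ▸ ha), fun h => hvW (h ▸ hb)⟩

theorem clique_step (hL : Lpl E) {X W T : Finset V} {v : V} (hX : W ⊆ X) (hv : v ∈ W)
    (hT : T = X.filter (fun w => s(v, w) ∈ E)) (hT' : T.card ≤ d) (hW : d + 1 ≤ W.card)
    (hcl : ClK ℝ d (ins E X) W) :
    T.card = d ∧ ClK ℝ d (ins E (X.erase v)) ((W.erase v) ∪ T) := by
  have hvX : v ∈ X := hX hv
  have hsplit := crd_split hL hvX hT
  have hvT := crd_not_T hL hT
  set F := ins E (X.erase v) with hF
  have hvF : ∀ e ∈ F, v ∉ e := crd_not_mem
  -- the restriction to `W.erase v`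
  have hW' : ClK ℝ d F (W.erase v) := by
    refine crd_restrict hL hvX hT hT' ?_ (notMem_erase v W)
    intro a ha b hb hab
    exact hcl a (mem_of_mem_erase ha) b (mem_of_mem_erase hb) hab
  have hWc : d ≤ (W.erase v).card := by
    rw [card_erase_of_mem hv]; omega
  -- star edges in the closure
  have hst : ∀ S : Finset V, S ⊆ T ∪ W.erase v →
      rk ℝ d (F ∪ star v S) ≤ rk ℝ d F + T.card := by
    intro S hS
    have h1 : rk ℝ d ((F ∪ star v T) ∪ star v S) = rk ℝ d (F ∪ star v T) := by
      refine rk_union_cl fun e he => ?_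
      unfold star at he
      rw [mem_image] at he
      obtain ⟨w, hw, rfl⟩ := he
      rcases mem_union.1 (hS hw) with h | h
      · apply cl_of_mem
        rw [mem_union]
        right
        unfold star
        exact mem_image_of_mem _ h
      · rw [← hsplit]
        rw [mem_erase] at h
        exact hcl v hv w h.2 (fun h' => h.1 h'.symm)
    have h2 : rk ℝ d (F ∪ star v T) = rk ℝ d F + T.card := rk_star hvF hvT hT'
    rw [← h2, ← h1]
    exact rk_mono (union_subset_union_left subset_union_left)
  have hTd : T.card = d := by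
    by_contra hne
    have hlt : T.card < d := lt_of_le_of_ne hT' hne
    have hcard : d ≤ (T ∪ W.erase v).card := hWc.trans (card_le_card subset_union_right)
    obtain ⟨T', hTT', hT'U, hT'c⟩ := exists_subsuperset_card_eq
      (subset_union_left (s₁ := T) (s₂ := W.erase v)) hlt.le hcard
    have hvT' : v ∉ T' := by
      intro h
      rcases mem_union.1 (hT'U h) with h | h
      · exact hvT h
      · exact notMem_erase v W h
    have h1 := rk_star (F := ℝ) hvF hvT' hT'c.le
    have h2 := hst T' hT'U
    omega
  refine ⟨hTd, ?_⟩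
  -- pairs of `insert w T`
  have hins : ∀ w ∈ W.erase v, w ∉ T → ∀ x ∈ insert w T, ∀ y ∈ insert w T, x ≠ y →
      Cl ℝ d F s(x, y) := by
    intro w hw hwT x hx y hy hxy
    by_contra hcon
    have hvS : v ∉ insert w T := by
      rw [mem_insert, not_or]
      refine ⟨?_, hvT⟩
      rw [mem_erase] at hw
      exact fun h => hw.1 h.symm
    have hSc : (insert w T).card = d + 1 := by
      rw [card_insert_of_notMem hwT, hTd]
    have h1 := rk_star_succ (F := ℝ) hvF hvS hSc hx hy hxy hcon
    have h2 := hst (insert w T) (insert_subset (mem_union_right _ hw) subset_union_left)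
    omega
  intro a ha b hb hab
  by_cases haT : a ∈ T
  · by_cases hbT : b ∈ T
    · -- both in T
      by_cases hex : ∃ w ∈ W.erase v, w ∉ T
      · obtain ⟨w, hw, hwT⟩ := hex
        exact hins w hw hwT a (mem_insert_of_mem haT) b (mem_insert_of_mem hbT) hab
      · push Not at hex
        have heq : W.erase v = T := eq_of_subset_of_card_le hex (by omega)
        rw [← heq] at haT hbT
        exact hW' a haT b hbT hab
    · have hbW : b ∈ W.erase v := (mem_union.1 hb).resolve_right hbT
      exact hins b hbW hbT a (mem_insert_of_mem haT) b (mem_insert_self _ _) hab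
  · have haW : a ∈ W.erase v := (mem_union.1 ha).resolve_right haT
    by_cases hbT : b ∈ T
    · exact hins a haW haT a (mem_insert_self _ _) b (mem_insert_of_mem hbT) hab
    · have hbW : b ∈ W.erase v := (mem_union.1 hb).resolve_right hbT
      exact hW' a haW b hbW hab

private theorem crd_main (hL : Lpl E) (n : ℕ) : ∀ X : Finset V, core (d + 1) E ⊆ X →
    (X \ core (d + 1) E).card = n → ∀ W ⊆ X, ClK ℝ d (ins E X) W →
    ∃ W₀ U : Finset V, W ∪ W₀ ⊆ U ∧ U ⊆ X ∧
      (W₀.card ≤ d ∨ (W₀ ⊆ core (d + 1) E ∧ ClK ℝ d (ins E (core (d + 1) E)) W₀)) ∧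
      ∀ s ≤ (U \ W₀).card, ∃ S ⊆ U \ W₀, S.card = s ∧ d * s ≤ (ins E (S ∪ W₀)).card := by
  induction n with
  | zero =>
    intro X hCX hcard W hWX hcl
    have hXC : X = core (d + 1) E := by
      rw [card_eq_zero, sdiff_eq_empty_iff_subset] at hcard
      exact subset_antisymm hcard hCX
    subst hXC
    refine ⟨W, W, by rw [union_self], hWX, Or.inr ⟨hWX, hcl⟩, ?_⟩
    intro s hs
    rw [Finset.sdiff_self, card_empty] at hs
    exact ⟨∅, empty_subset _, by rw [card_empty]; omega, by
      have : s = 0 := by omega
      subst this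
      simp⟩
  | succ n ih =>
    intro X hCX hcard W hWX hcl
    by_cases hWd : W.card ≤ d
    · refine ⟨W, W, by rw [union_self], hWX, Or.inl hWd, ?_⟩
      intro s hs
      rw [Finset.sdiff_self, card_empty] at hs
      exact ⟨∅, empty_subset _, by rw [card_empty]; omega, by
        have : s = 0 := by omega
        subst this
        simp⟩
    · have hne : core (d + 1) E ≠ X := by
        intro h
        rw [← h, Finset.sdiff_self, card_empty] at hcard
        omega
      obtain ⟨v, hvX, hvC, hnb⟩ := exists_low hCX hne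
      obtain ⟨T, hT⟩ : ∃ T : Finset V, T = X.filter (fun w => s(v, w) ∈ E) := ⟨_, rfl⟩
      have hTc : T.card ≤ d := by
        rw [hT]
        unfold nb at hnb
        omega
      have hvT := crd_not_T hL hT
      have hCX' : core (d + 1) E ⊆ X.erase v := by
        intro w hw
        rw [mem_erase]
        exact ⟨fun h => hvC (h ▸ hw), hCX hw⟩
      have hcard' : (X.erase v \ core (d + 1) E).card = n := by
        rw [erase_sdiff_comm, card_erase_of_mem (mem_sdiff.2 ⟨hvX, hvC⟩), hcard]
        rfl
      by_cases hvW : v ∈ W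
      · obtain ⟨hTd, hcl'⟩ := clique_step hL hWX hvW hT hTc (by omega) hcl
        have hTX : T ⊆ X.erase v := by
          intro w hw
          rw [mem_erase]
          refine ⟨fun h => hvT (h ▸ hw), ?_⟩
          rw [hT, mem_filter] at hw
          exact hw.1
        obtain ⟨W₀, U, hU, hUX, hW₀, hS⟩ := ih (X.erase v) hCX' hcard' (W.erase v ∪ T)
          (union_subset (erase_subset_erase v hWX) hTX) hcl'
        have hvU : v ∉ U := fun h => notMem_erase v X (hUX h)
        have hW₀U : W₀ ⊆ U := subset_union_right.trans hU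
        have hvW₀ : v ∉ W₀ := fun h => hvU (hW₀U h)
        have hTU : T ⊆ U := (subset_union_right.trans subset_union_left).trans hU
        refine ⟨W₀, insert v U, ?_, ?_, hW₀, ?_⟩
        · intro w hw
          rw [mem_insert]
          by_cases hwv : w = v
          · exact Or.inl hwv
          · right
            rcases mem_union.1 hw with h | h
            · exact hU (mem_union_left _ (mem_union_left _ (mem_erase.2 ⟨hwv, h⟩)))
            · exact hW₀U h
        · exact insert_subset hvX (hUX.trans (erase_subset _ _))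
        · intro s hs
          rw [insert_sdiff_of_notMem _ hvW₀, card_insert_of_notMem
            (fun h => hvU (mem_sdiff.1 h).1)] at hs
          by_cases hs' : s ≤ (U \ W₀).card
          · obtain ⟨S, hSU, hSc, hSe⟩ := hS s hs'
            exact ⟨S, hSU.trans (sdiff_subset_sdiff (subset_insert _ _) subset_rfl), hSc, hSe⟩
          · have hseq : s = (U \ W₀).card + 1 := by omega
            refine ⟨insert v U \ W₀, subset_rfl, ?_, ?_⟩
            · rw [insert_sdiff_of_notMem _ hvW₀, card_insert_of_notMem
                (fun h => hvU (mem_sdiff.1 h).1), hseq]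
            · have hun : (insert v U \ W₀) ∪ W₀ = insert v U :=
                sdiff_union_of_subset (hW₀U.trans (subset_insert _ _))
              rw [hun]
              obtain ⟨S, hSU, hSc, hSe⟩ := hS _ le_rfl
              have hSeq : S = U \ W₀ := eq_of_subset_of_card_le hSU hSc.ge
              rw [hSeq, sdiff_union_of_subset hW₀U] at hSe
              have h1 := card_ins_erase (E := E) hL (mem_insert_self v U)
              rw [erase_insert hvU] at h1
              have h2 : d ≤ nb E (insert v U) v := by
                rw [← hTd]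
                unfold nb
                apply card_le_card
                intro w hw
                rw [mem_filter]
                refine ⟨mem_insert_of_mem (hTU hw), ?_⟩
                rw [hT, mem_filter] at hw
                exact hw.2
              rw [hseq, mul_add, mul_one, h1]
              omega
      · have hcl' := crd_restrict hL hvX hT hTc hcl hvW
        obtain ⟨W₀, U, hU, hUX, hW₀, hS⟩ := ih (X.erase v) hCX' hcard' W
          (fun w hw => mem_erase.2 ⟨fun h => hvW (h ▸ hw), hWX hw⟩) hcl'
        exact ⟨W₀, U, hU, hUX.trans (erase_subset _ _), hW₀, hS⟩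

theorem clique_core (hd : 2 ≤ d) (hL : Lpl E) {ε : ℝ} {N : ℕ} (hE : E2 ε N E) {W : Finset V}
    (hW : 4 * d < W.card) (hn : 12 * (d : ℝ) + 4 < ε * N) (hcl : ClK ℝ d E W) :
    ∃ W₀ ⊆ core (d + 1) E, ClK ℝ d (ins E (core (d + 1) E)) W₀ ∧
      (W.card ≤ 4 * W₀.card ∨ ε * N ≤ 12 * W₀.card + 4) := by
  obtain ⟨W₀, U, hU, -, hW₀, hS⟩ := crd_main (d := d) hL _ univ (subset_univ _) rfl W
    (subset_univ _) (by rw [ins_univ]; exact hcl)
  have hW₀U : W₀ ⊆ U := subset_union_right.trans hU
  have hWU : W ⊆ U := subset_union_left.trans hU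
  have hUc : U.card = (U \ W₀).card + W₀.card := by
    rw [card_sdiff_of_subset hW₀U]
    have := card_le_card hW₀U
    omega
  have hWUc := card_le_card hWU
  have hd0 : (0 : ℝ) ≤ d := Nat.cast_nonneg d
  have key : W.card ≤ 4 * W₀.card ∨ ε * N ≤ 12 * W₀.card + 4 := by
    by_cases hbig : ε * N < 4 * W₀.card
    · right
      have : (0 : ℝ) ≤ W₀.card := Nat.cast_nonneg _
      linarith
    · rw [not_lt] at hbig
      have hεN : 0 ≤ ε * N := by linarith
      set f := ⌊ε * N / 4⌋₊ with hf
      have hf1 : (f : ℝ) ≤ ε * N / 4 := Nat.floor_le (by linarith)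
      have hf2 : ε * N / 4 < f + 1 := Nat.lt_floor_add_one _
      set s := min (U \ W₀).card f with hs
      obtain ⟨S, hSU, hSc, hSe⟩ := hS s (min_le_left _ _)
      have hsf : (s : ℝ) ≤ f := by exact_mod_cast min_le_right _ _
      have hfpos : 0 < f := by
        have : (0 : ℝ) < f := by linarith
        exact_mod_cast this
      by_cases hne : (S ∪ W₀).Nonempty
      · have hcard : ((S ∪ W₀).card : ℝ) ≤ s + W₀.card := by
          have := card_union_le S W₀
          rw [hSc] at this
          exact_mod_cast this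
        have hE2 := hE (S ∪ W₀) hne (by linarith)
        have hcard' : (S ∪ W₀).card ≤ s + W₀.card := by exact_mod_cast hcard
        have h3 : s < 3 * W₀.card := by
          have h4 : 2 * (d * s) < 3 * (s + W₀.card) := by omega
          have h5 : 2 * s ≤ d * s := Nat.mul_le_mul_right s hd
          omega
        rcases le_total (U \ W₀).card f with hle | hle
        · left
          have hseq : s = (U \ W₀).card := min_eq_left hle
          omega
        · right
          have hseq : s = f := min_eq_right hle
          have h6 : f + 1 ≤ 3 * W₀.card := by omega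
          have h7 : ((f : ℝ) + 1) ≤ 3 * W₀.card := by exact_mod_cast h6
          linarith
      · exfalso
        rw [not_nonempty_iff_eq_empty, union_eq_empty] at hne
        rw [hne.1, card_empty] at hSc
        have hU0 : (U \ W₀).card = 0 := by
          rcases le_total (U \ W₀).card f with hle | hle
          · rw [min_eq_left hle] at hs
            omega
          · rw [min_eq_right hle] at hs
            omega
        have hW00 : W₀.card = 0 := by rw [hne.2, card_empty]
        omega
  rcases hW₀ with hsmall | ⟨h1, h2⟩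
  · exfalso
    rcases key with h | h
    · omega
    · have : (W₀.card : ℝ) ≤ d := by exact_mod_cast hsmall
      linarith
  · exact ⟨W₀, h1, h2, key⟩

end Pool.Agent.Helper50.RG
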