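import Pool.Agent.Helper50.RG.Flat
import Pool.Agent.Helper50.RG.CliqueRed

/-!
# RG-24 : few pairs are in the closure before the stopping time

Given `κ₀`, take `κ₁` from `exists_linear_clique` and `ε₃ = min (κ₁ / 5) (ε' / 13) ` (and at most `ε'`). If more than
`κ₀ n²` ordered pairs are in the closure of `E` then there is a clique `W` of the closure
with `κ₁ n` vertices, and by `clique_core` a clique `W₀ ⊆ C` of the closure of `ins E C`, `C` the core, with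
`|W₀| ≥ ε₃ n ≥ ε₃ |C|`. So `rk (ins E C ∪ Kn W₀) = rk (ins E C) ≤ e(C) = d |C| - KK d - 1`
(`clK_iff`, `rk_le_card`), which contradicts `E6`.
-/

set_option autoImplicit false

namespace Pool.Agent.Helper50.RG

open Finset

open Classical in
theorem few_closed (d : ℕ) (hd : 2 ≤ d) (ε' : ℝ) (hε' : 0 < ε') (κ₀ : ℝ) (hκ₀ : 0 < κ₀) :
    ∃ ε₃ > 0, ε₃ ≤ ε' ∧ ε₃ < 1 ∧ ∃ n₀ : ℕ, ∀ n ≥ n₀, ∀ E : Finset (Sym2 (Fin n)), Lpl E →
      E2 ε' n E → Cnt d 1 E → E6 d ε₃ E (core (d + 1) E) →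
      ((univ.filter (fun p : Fin n × Fin n => p.1 ≠ p.2 ∧ Cl ℝ d E s(p.1, p.2))).card : ℝ) ≤
        κ₀ * (n : ℝ) ^ 2 := by
  obtain ⟨κ₁, hκ₁, n₁, hn₁⟩ := exists_linear_clique d (by omega) κ₀ hκ₀
  set ε₃ := min (min (κ₁ / 5) (ε' / 13)) (1 / 2) with hε₃
  have hε₃0 : 0 < ε₃ := by rw [hε₃]; positivity
  have hε₃a : ε₃ ≤ κ₁ / 5 := (min_le_left _ _).trans (min_le_left _ _)
  have hε₃b : ε₃ ≤ ε' / 13 := (min_le_left _ _).trans (min_le_right _ _)
  have hε₃c : ε₃ ≤ 1 / 2 := min_le_right _ _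
  obtain ⟨n₂, hn₂⟩ := exists_nat_gt (4 * (d : ℝ) / κ₁)
  obtain ⟨n₃, hn₃⟩ := exists_nat_gt ((12 * (d : ℝ) + 52) / ε')
  refine ⟨ε₃, hε₃0, by linarith, by linarith, max n₁ (max n₂ n₃), ?_⟩
  intro n hn E hL hE2 hCnt hE6
  have hna : n₁ ≤ n := (le_max_left _ _).trans hn
  have hnb : n₂ ≤ n := (le_max_left _ _).trans ((le_max_right _ _).trans hn)
  have hnc : n₃ ≤ n := (le_max_right _ _).trans ((le_max_right _ _).trans hn)
  have h1 : 4 * (d : ℝ) < κ₁ * n := by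
    have e1 : (n₂ : ℝ) ≤ n := by exact_mod_cast hnb
    have e2 := hn₂.trans_le e1
    rw [div_lt_iff₀ hκ₁] at e2
    linarith
  have h2 : 12 * (d : ℝ) + 52 < ε' * n := by
    have e1 : (n₃ : ℝ) ≤ n := by exact_mod_cast hnc
    have e2 := hn₃.trans_le e1
    rw [div_lt_iff₀ hε'] at e2
    linarith
  by_contra hcon
  push Not at hcon
  obtain ⟨W, hW, hWcl⟩ := hn₁ (Fin n) E (by rw [Fintype.card_fin]; exact hna) (by
    rw [Fintype.card_fin]
    exact hcon.le)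
  rw [Fintype.card_fin] at hW
  have hW4 : 4 * d < W.card := by
    have : 4 * (d : ℝ) < W.card := h1.trans_le hW
    exact_mod_cast this
  have hd0 : (0 : ℝ) ≤ d := Nat.cast_nonneg d
  obtain ⟨W₀, hW₀, hcl, hsize⟩ := clique_core hd hL hE2 hW4 (by linarith) hWcl
  have hn0 : (0 : ℝ) ≤ n := Nat.cast_nonneg n
  have hbig : ε₃ * n ≤ W₀.card := by
    rcases hsize with h3 | h3
    · have e1 : (W.card : ℝ) ≤ 4 * W₀.card := by exact_mod_cast h3
      have e2 : ε₃ * n ≤ κ₁ / 5 * n := mul_le_mul_of_nonneg_right hε₃a hn0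
      have e3 : 0 ≤ κ₁ * n := by positivity
      linarith
    · have e2 : ε₃ * n ≤ ε' / 13 * n := mul_le_mul_of_nonneg_right hε₃b hn0
      linarith
  have hCn : ((core (d + 1) E).card : ℝ) ≤ n := by
    have e1 : (core (d + 1) E).card ≤ n := by
      have := Finset.card_le_univ (core (d + 1) E)
      rwa [Fintype.card_fin] at this
    exact_mod_cast e1
  have h4 := hE6 W₀ hW₀ ((mul_le_mul_of_nonneg_left hCn hε₃0.le).trans hbig)
  have h5 := (clK_iff (F := ℝ) (d := d) (E := ins E (core (d + 1) E)) W₀).1 hcl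
  rw [h5] at h4
  have h6 := rk_le_card (F := ℝ) (d := d) (ins E (core (d + 1) E))
  have h7 := hCnt.2
  omega

end Pool.Agent.Helper50.RG
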