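import Mathlib

/-!
# MP_6be5e0_co: hitting time of the giant rigid component, definitions

Graphs are finite sets `E : Finset (Sym2 V)` of unordered pairs. All definitions are elementary.
-/

set_option autoImplicit false

namespace Pool.Agent.Helper50.RG

open Finset

section graph

variable {V : Type} [Fintype V] [DecidableEq V]

/-- the edges of `E` with both ends in `A` -/
def ins (E : Finset (Sym2 V)) (A : Finset V) : Finset (Sym2 V) := E ∩ A.sym2

/-- the number of neighbours of `v` in `A` -/
def nb (E : Finset (Sym2 V)) (A : Finset V) (v : V) : ℕ := (A.filter (fun w => s(v, w) ∈ E)).card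

/-- no loops -/
def Lpl (E : Finset (Sym2 V)) : Prop := ∀ e ∈ E, ¬ e.IsDiag

/-- the edges of `E` inside `C` which meet `B` -/
def incd (E : Finset (Sym2 V)) (C B : Finset V) : Finset (Sym2 V) :=
  (ins E C).filter (fun e => ∃ v ∈ B, v ∈ e)

open Classical in
/-- the `k`-core: the union of all sets of minimum degree at least `k` -/
noncomputable def core (k : ℕ) (E : Finset (Sym2 V)) : Finset V :=
  univ.filter (fun v => ∃ A : Finset V, v ∈ A ∧ ∀ w ∈ A, k ≤ nb E A w)

open Classical in
/-- the closure of the `(d+1)`-core under adding vertices with at least `d` neighbours -/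
noncomputable def hat (d : ℕ) (E : Finset (Sym2 V)) : Finset V :=
  univ.filter (fun v => ∀ X : Finset V, core (d + 1) E ⊆ X →
    (∀ w, d ≤ nb E X w → w ∈ X) → v ∈ X)

/-- the complete graph on `A` -/
def Kn (A : Finset V) : Finset (Sym2 V) := A.sym2.filter (fun e => ¬ e.IsDiag)

/-- the star with centre `v` and leaves `T` -/
def star (v : V) (T : Finset V) : Finset (Sym2 V) := T.image (fun w => s(v, w))

/-- the complete bipartite graph between `X` and `Y` -/
def bip (X Y : Finset V) : Finset (Sym2 V) := (X ×ˢ Y).image (fun x => s(x.1, x.2))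

/-- `d (d + 1) / 2`, the dimension of the group of isometries -/
def KK (d : ℕ) : ℕ := (d + 1).choose 2

/-- `B ⊆ C` and every vertex of `B` has at most `d - 1` neighbours in `C \ B` -/
def IsB (d : ℕ) (E : Finset (Sym2 V)) (C B : Finset V) : Prop :=
  B ⊆ C ∧ ∀ v ∈ B, nb E (C \ B) v < d

end graph

section rigidity

variable {V : Type} [Fintype V] [DecidableEq V] {F : Type} [Field F] {d : ℕ}

/-- the row of the rigidity matrix which belongs to a pair of vertices -/
def row (p : V → Fin d → F) (e : Sym2 V) : V → Fin d → F :=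
  Sym2.lift ⟨fun u v => Pi.single u (p u - p v) + Pi.single v (p v - p u),
    fun _ _ => add_comm _ _⟩ e

/-- the rank of the rows of `E` at the placement `p` -/
noncomputable def rkAt (p : V → Fin d → F) (E : Finset (Sym2 V)) : ℕ :=
  Module.finrank F (Submodule.span F (row p '' (E : Set (Sym2 V))))

/-- the rank of `E` in the `d`-dimensional rigidity matroid over `F` (largest rank of all
placements) -/
noncomputable def rk (F : Type) [Field F] (d : ℕ) (E : Finset (Sym2 V)) : ℕ :=
  ⨆ p : V → Fin d → F, rkAt p E

/-- the infinitesimal motion `m` keeps the length of the pair `u v` -/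
def Sat (p m : V → Fin d → F) (u v : V) : Prop :=
  ∑ i, (p u i - p v i) * (m u i - m v i) = 0

/-- `m` is an infinitesimal motion of the graph `E` -/
def Mot (p m : V → Fin d → F) (E : Finset (Sym2 V)) : Prop :=
  ∀ u v, s(u, v) ∈ E → Sat p m u v

/-- the points of `A` are affinely independent -/
def AffI (p : V → Fin d → F) (A : Finset V) : Prop :=
  AffineIndependent F (fun x : A => p (x : V))

/-- general position -/
def GP (p : V → Fin d → F) : Prop := ∀ A : Finset V, A.card ≤ d + 1 → AffI p A

/-- algebraically independent coordinates -/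
def Generic (p : V → Fin d → ℝ) : Prop :=
  AlgebraicIndependent ℚ (fun x : V × Fin d => p x.1 x.2)

/-- the pair `e` belongs to the closure of `E` -/
def Cl (F : Type) [Field F] (d : ℕ) (E : Finset (Sym2 V)) (e : Sym2 V) : Prop :=
  rk F d (insert e E) = rk F d E

/-- `A` is a clique of the closure of `E` -/
def ClK (F : Type) [Field F] (d : ℕ) (E : Finset (Sym2 V)) (A : Finset V) : Prop :=
  ∀ u ∈ A, ∀ v ∈ A, u ≠ v → Cl F d E s(u, v)

end rigidity

section events

variable {V : Type} [Fintype V] [DecidableEq V]

/-- sets of at most `c log N` vertices contain at most as many edges as vertices -/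
def E1 (c : ℝ) (N : ℕ) (E : Finset (Sym2 V)) : Prop :=
  ∀ A : Finset V, A.Nonempty → (A.card : ℝ) ≤ c * Real.log N → (ins E A).card ≤ A.card

/-- sets of at most `ε N` vertices have less than `3/2` times as many edges as vertices -/
def E2 (ε : ℝ) (N : ℕ) (E : Finset (Sym2 V)) : Prop :=
  ∀ A : Finset V, A.Nonempty → (A.card : ℝ) ≤ ε * N → 2 * (ins E A).card < 3 * A.card

/-- all degrees are at most `c log N` -/
def E3 (c : ℝ) (N : ℕ) (E : Finset (Sym2 V)) : Prop :=
  ∀ v, (nb E univ v : ℝ) ≤ c * Real.log N

/-- small sets `B` with `IsB` are very small and contain at most as many edges as vertices -/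
def E4 (d : ℕ) (C₂ ε : ℝ) (E : Finset (Sym2 V)) (C : Finset V) : Prop :=
  ∀ B : Finset V, B.Nonempty → IsB d E C B → (B.card : ℝ) ≤ ε * C.card →
    (B.card : ℝ) ≤ C₂ * Real.log C.card ∧ (ins E B).card ≤ B.card

/-- sets `B` with `IsB` of linear size and linear complement meet many edges -/
def E5 (d : ℕ) (ε ε₃ η : ℝ) (E : Finset (Sym2 V)) (C : Finset V) : Prop :=
  ∀ B : Finset V, IsB d E C B → ε * C.card ≤ B.card → (B.card : ℝ) ≤ (1 - ε₃) * C.card →
    (d : ℝ) * B.card + η * C.card ≤ ((incd E C B).card : ℝ)

/-- the graph `E` on `C` together with a rigid body on any set `W` of linear size is rigid -/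
def E6 (d : ℕ) (ε₃ : ℝ) (E : Finset (Sym2 V)) (C : Finset V) : Prop :=
  ∀ W : Finset V, W ⊆ C → ε₃ * C.card ≤ W.card →
    rk ℝ d (ins E C ∪ Kn W) + KK d = d * C.card

end events

section sequences

variable {V : Type} [Fintype V] [DecidableEq V] {M : ℕ}

/-- the edge set of a sequence of pairs -/
def edges (u : Fin M → V × V) : Finset (Sym2 V) := univ.image (fun i => s((u i).1, (u i).2))

/-- the number of half edges at `v` -/
def occ (u : Fin M → V × V) (v : V) : ℕ :=
  (univ.filter (fun i => (u i).1 = v)).card + (univ.filter (fun i => (u i).2 = v)).card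

/-- no loops and no repeated edges -/
def Simp (u : Fin M → V × V) : Prop :=
  (∀ i, (u i).1 ≠ (u i).2) ∧ Function.Injective (fun i => s((u i).1, (u i).2))

/-- all sequences of `M` pairs in which every vertex has at least `k` half edges -/
def TT (V : Type) [Fintype V] [DecidableEq V] (k M : ℕ) : Finset (Fin M → V × V) :=
  univ.filter (fun u => ∀ v, k ≤ occ u v)

/-- the number of words of length `m` over `N` letters in which each letter occurs at least
`k` times -/
def Wd (k N m : ℕ) : ℕ :=
  (univ.filter (fun w : Fin m → Fin N =>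
    ∀ a, k ≤ (univ.filter (fun i => w i = a)).card)).card

/-- the tail of the exponential series -/
noncomputable def fk (k : ℕ) (x : ℝ) : ℝ :=
  Real.exp x - ∑ i ∈ range k, x ^ i / (i.factorial : ℝ)

/-- the generating function of a vertex with less than `d` half edges of the second kind and
at least `d + 1` half edges altogether -/
noncomputable def gk (d : ℕ) (u v : ℝ) : ℝ :=
  ∑ i ∈ range d, v ^ i / (i.factorial : ℝ) * fk (d + 1 - i) u

/-- the equation of the parameter `lam`: mean `2 d` of the Poisson distribution with parameter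
`lam` conditioned to be at least `d + 1` -/
def IsLam (d : ℕ) (lam : ℝ) : Prop :=
  0 < lam ∧ lam * fk d lam = 2 * d * fk (d + 1) lam

end sequences

section process

/-- unordered pairs of distinct elements -/
abbrev Pr (n : ℕ) := {e : Sym2 (Fin n) // ¬ e.IsDiag}

/-- orderings of all pairs -/
abbrev Ord (n : ℕ) := Fin (n.choose 2) ≃ Pr n

/-- the first `t` edges -/
def edg {n : ℕ} (σ : Ord n) (t : ℕ) : Finset (Sym2 (Fin n)) :=
  (univ.filter (fun i : Fin (n.choose 2) => (i : ℕ) < t)).image (fun i => (σ i : Sym2 (Fin n)))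

open Classical in
/-- probability of an event of the random graph process -/
noncomputable def prob (n : ℕ) (Q : Ord n → Prop) : ℝ :=
  ((univ.filter Q).card : ℝ) / Fintype.card (Ord n)

/-- the `(d+1)`-core is non-empty and has at least `d n' - d (d + 1) / 2` edges -/
def Hit (d : ℕ) {n : ℕ} (σ : Ord n) (t : ℕ) : Prop :=
  (core (d + 1) (edg σ t)).Nonempty ∧
    d * (core (d + 1) (edg σ t)).card ≤ (ins (edg σ t) (core (d + 1) (edg σ t))).card + KK d

/-- `t` is the stopping time -/
def Stop (d : ℕ) {n : ℕ} (σ : Ord n) (t : ℕ) : Prop := Hit d σ t ∧ ∀ s < t, ¬ Hit d σ s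

/-- the core at time `t` is non-empty and has exactly `d n' - d (d + 1) / 2 - r` edges -/
def Cnt (d r : ℕ) {n : ℕ} (E : Finset (Sym2 (Fin n))) : Prop :=
  (core (d + 1) E).Nonempty ∧ (ins E (core (d + 1) E)).card + KK d + r = d * (core (d + 1) E).card

/-- the base events -/
def Reg (c₁ ε' : ℝ) {n : ℕ} (E : Finset (Sym2 (Fin n))) : Prop :=
  E1 c₁ n E ∧ E2 ε' n E ∧ E3 1 n E

/-- the structural events of the core -/
def Str (d : ℕ) (C₂ ε ε₃ η : ℝ) {n : ℕ} (E : Finset (Sym2 (Fin n))) : Prop :=
  E4 d C₂ ε E (core (d + 1) E) ∧ E5 d ε ε₃ η E (core (d + 1) E) ∧ E6 d ε₃ E (core (d + 1) E)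

end process

end Pool.Agent.Helper50.RG
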