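import Pool.Agent.Helper50.RG.ProcB

/-!
# RG-26 : exchangeability of the process

`last_uniform`: for `i ≤ t` let `π_i` be the transposition of the positions `i` and `t`;
`σ ↦ σ ∘ π_i` preserves `edg σ (t+1)` and moves the `i`-th edge to the last position. So
`#{σ | Q ∧ σ i ∈ D} = #{σ | Q ∧ σ t ∈ D}` and the sum over `i ≤ t` of the left side is
`∑_{σ, Q} |D (edg σ (t+1))| ≥ a #{σ | Q}`.
`next_le`, `next_ge`: in the same way with the positions `j ≥ t` (there are `C(n,2) - t` of them);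
`Q` depends only on the values `σ i`, `i < t`.
-/

set_option autoImplicit false

namespace Pool.Agent.Helper50.RG

open Finset

variable {n : ℕ}

/-- `Q` depends only on the first `t` edges -/
def Prefix (t : ℕ) (Q : Ord n → Prop) : Prop :=
  ∀ σ τ : Ord n, (∀ i : Fin (n.choose 2), (i : ℕ) < t → σ i = τ i) → Q σ → Q τ

private theorem prob_equiv (f : Ord n ≃ Ord n) (P : Ord n → Prop) :
    prob n (fun σ => P (f σ)) = prob n P := by
  classical
  unfold prob
  congr 2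
  refine Finset.card_equiv f ?_
  intro σ
  simp only [mem_filter, mem_univ, true_and]

/-- exchange of two positions -/
private def sw (a b : Fin (n.choose 2)) : Ord n ≃ Ord n where
  toFun σ := (Equiv.swap a b).trans σ
  invFun σ := (Equiv.swap a b).trans σ
  left_inv σ := by
    ext i
    simp
  right_inv σ := by
    ext i
    simp

private theorem sw_apply (a b : Fin (n.choose 2)) (σ : Ord n) (i : Fin (n.choose 2)) :
    sw a b σ i = σ (Equiv.swap a b i) := rfl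

open Classical in
private theorem sum_prob (Q : Ord n → Prop) (I : Finset (Fin (n.choose 2)))
    (P : Fin (n.choose 2) → Ord n → Prop) :
    ∑ i ∈ I, prob n (fun σ => Q σ ∧ P i σ) =
      (∑ σ ∈ univ.filter Q, ((I.filter (fun i => P i σ)).card : ℝ)) / Fintype.card (Ord n) := by
  unfold prob
  rw [← Finset.sum_div]
  congr 1
  rw [← Nat.cast_sum, ← Nat.cast_sum]
  congr 1
  have h := Finset.sum_card_bipartiteAbove_eq_sum_card_bipartiteBelow
    (s := I) (t := univ.filter Q) P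
  unfold Finset.bipartiteAbove Finset.bipartiteBelow at h
  rw [← h]
  refine Finset.sum_congr rfl fun i _ => ?_
  rw [Finset.filter_filter]
  congr

open Classical in
private theorem le_sum_prob (Q : Ord n → Prop) (I : Finset (Fin (n.choose 2)))
    (P : Fin (n.choose 2) → Ord n → Prop) (a : ℝ)
    (h : ∀ σ, Q σ → a ≤ ((I.filter (fun i => P i σ)).card : ℝ)) :
    a * prob n Q ≤ ∑ i ∈ I, prob n (fun σ => Q σ ∧ P i σ) := by
  rw [sum_prob]
  unfold prob
  rw [← mul_div_assoc]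
  refine div_le_div_of_nonneg_right ?_ (Nat.cast_nonneg _)
  rw [mul_comm, ← nsmul_eq_mul]
  refine Finset.card_nsmul_le_sum _ _ _ fun σ hσ => h σ (mem_filter.mp hσ).2

open Classical in
private theorem sum_prob_le (Q : Ord n → Prop) (I : Finset (Fin (n.choose 2)))
    (P : Fin (n.choose 2) → Ord n → Prop) (a : ℝ)
    (h : ∀ σ, Q σ → ((I.filter (fun i => P i σ)).card : ℝ) ≤ a) :
    ∑ i ∈ I, prob n (fun σ => Q σ ∧ P i σ) ≤ a * prob n Q := by
  rw [sum_prob]
  unfold prob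
  rw [← mul_div_assoc]
  refine div_le_div_of_nonneg_right ?_ (Nat.cast_nonneg _)
  rw [mul_comm, ← nsmul_eq_mul]
  refine Finset.sum_le_card_nsmul _ _ _ fun σ hσ => h σ (mem_filter.mp hσ).2

private theorem swap_lt {N : ℕ} {t : ℕ} (i b : Fin N) (hi : (i : ℕ) < t) (hb : (b : ℕ) < t)
    (j : Fin N) (hj : (j : ℕ) < t) : ((Equiv.swap i b j : Fin N) : ℕ) < t := by
  rcases eq_or_ne j i with rfl | h1
  · rw [Equiv.swap_apply_left]; exact hb
  · rcases eq_or_ne j b with rfl | h2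
    · rw [Equiv.swap_apply_right]; exact hi
    · rw [Equiv.swap_apply_of_ne_of_ne h1 h2]; exact hj

private theorem edg_sw_lt {t : ℕ} (i b : Fin (n.choose 2)) (hi : (i : ℕ) < t) (hb : (b : ℕ) < t)
    (σ : Ord n) : edg (sw i b σ) t = edg σ t := by
  unfold edg
  ext e
  simp only [mem_image, mem_filter, mem_univ, true_and, sw_apply]
  constructor
  · rintro ⟨j, hj, rfl⟩
    exact ⟨_, swap_lt i b hi hb j hj, rfl⟩
  · rintro ⟨j, hj, rfl⟩
    exact ⟨_, swap_lt i b hi hb j hj, by rw [Equiv.swap_apply_self]⟩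

private theorem sw_fix {t : ℕ} (i b : Fin (n.choose 2)) (hi : t ≤ (i : ℕ)) (hb : t ≤ (b : ℕ))
    (σ : Ord n) (j : Fin (n.choose 2)) (hj : (j : ℕ) < t) : sw i b σ j = σ j := by
  rw [sw_apply, Equiv.swap_apply_of_ne_of_ne]
  · rintro rfl; omega
  · rintro rfl; omega

theorem last_uniform {t : ℕ} (ht : t < n.choose 2)
    (Q : Finset (Sym2 (Fin n)) → Prop) (D : Finset (Sym2 (Fin n)) → Finset (Sym2 (Fin n)))
    (hD : ∀ E, D E ⊆ E) (a : ℝ)
    (ha : ∀ σ : Ord n, Q (edg σ (t + 1)) → a ≤ ((D (edg σ (t + 1))).card : ℝ)) :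
    a * prob n (fun σ => Q (edg σ (t + 1))) ≤ ((t : ℝ) + 1) * prob n (fun σ =>
      Q (edg σ (t + 1)) ∧ (σ ⟨t, ht⟩ : Sym2 (Fin n)) ∈ D (edg σ (t + 1))) := by
  classical
  let I : Finset (Fin (n.choose 2)) := univ.filter (fun i => (i : ℕ) < t + 1)
  have h1 := le_sum_prob (n := n) (fun σ => Q (edg σ (t + 1))) I
    (fun i σ => (σ i : Sym2 (Fin n)) ∈ D (edg σ (t + 1))) a ?_
  · refine h1.trans (le_of_eq ?_)
    have h2 : ∀ i ∈ I, prob n (fun σ => Q (edg σ (t + 1)) ∧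
        (σ i : Sym2 (Fin n)) ∈ D (edg σ (t + 1))) = prob n (fun σ =>
        Q (edg σ (t + 1)) ∧ (σ ⟨t, ht⟩ : Sym2 (Fin n)) ∈ D (edg σ (t + 1))) := by
      intro i hi
      have hi' : (i : ℕ) < t + 1 := (mem_filter.mp hi).2
      rw [← prob_equiv (sw i ⟨t, ht⟩)]
      congr 1
      funext σ
      rw [edg_sw_lt i ⟨t, ht⟩ hi' (Nat.lt_succ_self t) σ, sw_apply, Equiv.swap_apply_left]
    rw [Finset.sum_congr rfl h2, Finset.sum_const, nsmul_eq_mul]
    congr 1
    show ((univ.filter (fun i : Fin (n.choose 2) => (i : ℕ) < t + 1)).card : ℝ) = _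
    rw [Fin.card_filter_val_lt, min_eq_right ht]
    push_cast
    rfl
  · intro σ hσ
    refine (ha σ hσ).trans (le_of_eq ?_)
    congr 1
    have h3 : D (edg σ (t + 1)) = (I.filter (fun i => (σ i : Sym2 (Fin n)) ∈
        D (edg σ (t + 1)))).image (fun i => (σ i : Sym2 (Fin n))) := by
      ext e
      simp only [mem_image, mem_filter]
      constructor
      · intro he
        have h4 := hD _ he
        unfold edg at h4
        obtain ⟨i, hi, rfl⟩ := mem_image.mp h4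
        exact ⟨i, ⟨hi, he⟩, rfl⟩
      · rintro ⟨i, ⟨_, h⟩, rfl⟩
        exact h
    have h5 : (D (edg σ (t + 1))).card = (I.filter (fun i => (σ i : Sym2 (Fin n)) ∈
        D (edg σ (t + 1)))).card := by
      conv_lhs => rw [h3]
      exact card_image_of_injective _ fun i j h => σ.injective (Subtype.ext h)
    rw [h5]
    congr

private theorem sum_next {t : ℕ} (ht : t < n.choose 2) (Q : Ord n → Prop) (hQ : Prefix t Q)
    (D : Finset (Sym2 (Fin n)) → Finset (Sym2 (Fin n))) :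
    ∑ j ∈ univ.filter (fun j : Fin (n.choose 2) => t ≤ (j : ℕ)),
      prob n (fun σ => Q σ ∧ (σ j : Sym2 (Fin n)) ∈ D (edg σ t)) =
    (((n.choose 2 : ℕ) : ℝ) - t) *
      prob n (fun σ => Q σ ∧ (σ ⟨t, ht⟩ : Sym2 (Fin n)) ∈ D (edg σ t)) := by
  classical
  have h2 : ∀ j ∈ univ.filter (fun j : Fin (n.choose 2) => t ≤ (j : ℕ)),
      prob n (fun σ => Q σ ∧ (σ j : Sym2 (Fin n)) ∈ D (edg σ t)) =
      prob n (fun σ => Q σ ∧ (σ ⟨t, ht⟩ : Sym2 (Fin n)) ∈ D (edg σ t)) := by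
    intro j hj
    have hj' : t ≤ (j : ℕ) := (mem_filter.mp hj).2
    rw [← prob_equiv (sw j ⟨t, ht⟩)]
    congr 1
    funext σ
    have h3 : ∀ i : Fin (n.choose 2), (i : ℕ) < t → sw j ⟨t, ht⟩ σ i = σ i :=
      sw_fix j ⟨t, ht⟩ hj' le_rfl σ
    rw [edg_congr h3, sw_apply, Equiv.swap_apply_left]
    have h4 : Q (sw j ⟨t, ht⟩ σ) ↔ Q σ :=
      ⟨hQ _ _ h3, hQ _ _ fun i hi => (h3 i hi).symm⟩
    rw [h4]
  rw [Finset.sum_congr rfl h2, Finset.sum_const, nsmul_eq_mul]
  congr 1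
  have h5 := Finset.card_filter_add_card_filter_not (s := (univ : Finset (Fin (n.choose 2))))
    (fun i => (i : ℕ) < t)
  rw [Fin.card_filter_val_lt, min_eq_right ht.le, card_univ, Fintype.card_fin] at h5
  have h6 : (univ.filter (fun j : Fin (n.choose 2) => t ≤ (j : ℕ))).card = n.choose 2 - t := by
    have h7 : (univ.filter (fun j : Fin (n.choose 2) => t ≤ (j : ℕ))) =
        univ.filter (fun j : Fin (n.choose 2) => ¬ (j : ℕ) < t) := by
      refine Finset.filter_congr fun j _ => ?_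
      exact not_lt.symm
    rw [h7]
    omega
  rw [h6, Nat.cast_sub ht.le]

theorem next_le {t : ℕ} (ht : t < n.choose 2) (Q : Ord n → Prop) (hQ : Prefix t Q)
    (D : Finset (Sym2 (Fin n)) → Finset (Sym2 (Fin n))) (a : ℝ)
    (ha : ∀ σ, Q σ → ((D (edg σ t)).card : ℝ) ≤ a) :
    (((n.choose 2 : ℕ) : ℝ) - t) * prob n (fun σ => Q σ ∧ (σ ⟨t, ht⟩ : Sym2 (Fin n)) ∈ D (edg σ t))
      ≤ a * prob n Q := by
  classical
  rw [← sum_next ht Q hQ D]
  refine sum_prob_le Q _ (fun j σ => (σ j : Sym2 (Fin n)) ∈ D (edg σ t)) a ?_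
  intro σ hσ
  refine le_trans ?_ (ha σ hσ)
  refine Nat.cast_le.mpr ?_
  refine Finset.card_le_card_of_injOn (fun j => (σ j : Sym2 (Fin n))) ?_ ?_
  · intro j hj
    simp only [mem_coe, mem_filter] at hj
    exact hj.2
  · intro i _ j _ h
    exact σ.injective (Subtype.ext h)

theorem next_ge {t : ℕ} (ht : t < n.choose 2) (Q : Ord n → Prop) (hQ : Prefix t Q)
    (D : Finset (Sym2 (Fin n)) → Finset (Sym2 (Fin n)))
    (hD : ∀ E, ∀ e ∈ D E, ¬ e.IsDiag ∧ e ∉ E) (a : ℝ)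
    (ha : ∀ σ, Q σ → a ≤ ((D (edg σ t)).card : ℝ)) :
    a * prob n Q ≤ (((n.choose 2 : ℕ) : ℝ) - t) *
      prob n (fun σ => Q σ ∧ (σ ⟨t, ht⟩ : Sym2 (Fin n)) ∈ D (edg σ t)) := by
  classical
  rw [← sum_next ht Q hQ D]
  refine le_sum_prob Q _ (fun j σ => (σ j : Sym2 (Fin n)) ∈ D (edg σ t)) a ?_
  intro σ hσ
  refine (ha σ hσ).trans ?_
  refine Nat.cast_le.mpr ?_
  refine Finset.card_le_card_of_surjOn (fun j => (σ j : Sym2 (Fin n))) ?_
  intro e he
  obtain ⟨h1, h2⟩ := hD _ e (mem_coe.mp he)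
  refine ⟨σ.symm ⟨e, h1⟩, ?_, ?_⟩
  · simp only [mem_coe, mem_filter]
    refine ⟨⟨mem_univ _, ?_⟩, ?_⟩
    · by_contra h3
      apply h2
      unfold edg
      refine mem_image.mpr ⟨σ.symm ⟨e, h1⟩, mem_filter.mpr ⟨mem_univ _, not_le.mp h3⟩, ?_⟩
      rw [Equiv.apply_symm_apply]
    · rw [Equiv.apply_symm_apply]
      exact mem_coe.mp he
  · show ((σ (σ.symm ⟨e, h1⟩) : Pr n) : Sym2 (Fin n)) = e
    rw [Equiv.apply_symm_apply]

end Pool.Agent.Helper50.RG
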