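import Pool.Agent.Helper50.RG.Peel
import Pool.Agent.Helper50.RG.RkC
import Pool.Agent.Helper50.RG.RkX

/-!
# RG-17 : the hat core is a rigid component

`C = core (d+1) E` has `e(C) = d |C| - KK d` edges and they are independent.
Hence `ins E C` has the rank of `Kn C`. `hat_full`: going from `C` to `hat d E` one adds vertices with at least `d`
neighbours in the current set, each raises the rank by at least `d` (`rk_star`, `rk_mono`); the rank of `X` cannot be larger
than `d |X| - KK d` (`rk_Kn`).
(Formally: a maximal `X` with `C ⊆ X ⊆ hat d E` and `rk (ins E X) + KK d = d |X|` is `hat d E`.)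

`hat_max`: let `hat d E ⊆ A` with `rk (ins E A) + KK d = d |A|`. Peel `A` down to `C`: there is an
order `v_1, …, v_s` of `A \ C` in which `v_i` has at most `d` neighbours in `C ∪ {v_{i+1}, …, v_s}`.
So `d |A| - KK d ≤ e(A) ≤ e(C) + d |A \ C| = d |A| - KK d`, hence each `v_i` has exactly `d`
neighbours in `C ∪ {v_{i+1}, …}`. So `v_s, v_{s-1}, …, v_1 ∈ hat d E`. Formally: show by induction
on `|X|` that for `C ⊆ X` with `d |X| ≤ e(X) + KK d` we have `X ⊆ hat d E`: take `v ∈ X \ C` with
less than `d+1` neighbours in `X` (`exists_low`); then `X.erase v` satisfies the assumption, so it is in the hat core; if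
`v` has less than `d` neighbours in `X.erase v` then `X.erase v` has more than `d |X.erase v| - KK d`
edges, which contradicts `peel_le`.
-/

set_option autoImplicit false

namespace Pool.Agent.Helper50.RG

open Finset

variable {V : Type} [Fintype V] [DecidableEq V] {E : Finset (Sym2 V)} {d : ℕ}

theorem peel_le (hL : Lpl E) {X : Finset V} (hX : core (d + 1) E ⊆ X) :
    (ins E X).card ≤ (ins E (core (d + 1) E)).card + d * (X.card - (core (d + 1) E).card) := by
  induction X using Finset.strongInduction with
  | H X ih =>
    by_cases hXC : core (d + 1) E = X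
    · rw [← hXC]
      omega
    · obtain ⟨v, hvX, hvC, hlow⟩ := exists_low hX hXC
      have hsub : core (d + 1) E ⊆ X.erase v := by
        intro w hw
        rw [mem_erase]
        exact ⟨fun h => hvC (h ▸ hw), hX hw⟩
      have h1 := ih (X.erase v) (erase_ssubset hvX) hsub
      have h2 := card_ins_erase hL hvX
      have h3 : (X.erase v).card = X.card - 1 := card_erase_of_mem hvX
      have h4 := card_le_card hsub
      have h5 : 0 < X.card := card_pos.2 ⟨v, hvX⟩
      obtain ⟨t, ht⟩ : ∃ t, X.card = (core (d + 1) E).card + 1 + t :=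
        ⟨X.card - ((core (d + 1) E).card + 1), by omega⟩
      have h6 : X.card - (core (d + 1) E).card = t + 1 := by omega
      have h7 : (X.erase v).card - (core (d + 1) E).card = t := by omega
      rw [h7] at h1
      rw [h6, mul_add, mul_one]
      omega

omit [Fintype V] in
private theorem HatRigid_sub (hL : Lpl E) (X : Finset V) : ins E X ⊆ Kn X := by
  intro e he
  unfold ins at he
  rw [mem_inter] at he
  unfold Kn
  rw [mem_filter]
  exact ⟨he.2, hL e he.1⟩

theorem hat_full (hL : Lpl E) (hne : (core (d + 1) E).Nonempty)
    (hc : (ins E (core (d + 1) E)).card + KK d = d * (core (d + 1) E).card)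
    (hr : rk ℝ d (ins E (core (d + 1) E)) = (ins E (core (d + 1) E)).card) :
    rk ℝ d (ins E (hat d E)) + KK d = d * (hat d E).card := by
  classical
  have hS : (univ.filter (fun X : Finset V => core (d + 1) E ⊆ X ∧ X ⊆ hat d E ∧
      rk ℝ d (ins E X) + KK d = d * X.card)).Nonempty := by
    refine ⟨core (d + 1) E, ?_⟩
    rw [mem_filter]
    refine ⟨mem_univ _, subset_rfl, core_subset_hat d E, ?_⟩
    rw [hr, hc]
  obtain ⟨X, hX, hmax⟩ := exists_max_image _ (fun X : Finset V => X.card) hS
  rw [mem_filter] at hX
  obtain ⟨-, hCX, hXH, hrX⟩ := hX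
  by_cases hclosed : ∀ w, d ≤ nb E X w → w ∈ X
  · have h1 : hat d E ⊆ X := hat_subset hCX hclosed
    rw [subset_antisymm h1 hXH]
    exact hrX
  · exfalso
    push Not at hclosed
    obtain ⟨w, hw, hwX⟩ := hclosed
    have hwH : w ∈ hat d E := mem_hat_of (hw.trans (nb_mono subset_rfl hXH w))
    obtain ⟨T, hT, hTc⟩ := exists_subset_card_eq (show d ≤ (X.filter
      (fun u => s(w, u) ∈ E)).card from hw)
    have hTX : T ⊆ X := hT.trans (filter_subset _ _)
    have hstar : ins E X ∪ star w T ⊆ ins E (insert w X) := by
      refine union_subset (ins_mono subset_rfl (subset_insert w X)) ?_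
      intro e he
      unfold star at he
      rw [mem_image] at he
      obtain ⟨u, hu, rfl⟩ := he
      rw [mk_mem_ins]
      exact ⟨(mem_filter.1 (hT hu)).2, mem_insert_self _ _, mem_insert_of_mem (hTX hu)⟩
    have hrs : rk ℝ d (ins E X ∪ star w T) = rk ℝ d (ins E X) + T.card := by
      refine rk_star ?_ (fun h => hwX (hTX h)) hTc.le
      intro e he hwe
      rw [mem_ins] at he
      exact hwX (he.2 w hwe)
    have h1 : rk ℝ d (ins E X ∪ star w T) ≤ rk ℝ d (ins E (insert w X)) := rk_mono hstar
    have h2 : rk ℝ d (ins E (insert w X)) ≤ rk ℝ d (Kn (insert w X)) :=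
      rk_mono (HatRigid_sub hL _)
    have hcard : (insert w X).card = X.card + 1 := card_insert_of_notMem hwX
    have hdX : d ≤ X.card := hTc ▸ card_le_card hTX
    have h3 : rk ℝ d (Kn (insert w X)) + KK d = d * (insert w X).card :=
      rk_Kn (by norm_num) (by omega)
    have h4 : rk ℝ d (ins E (insert w X)) + KK d = d * (insert w X).card := by
      rw [hcard, mul_add, mul_one] at h3 ⊢
      omega
    have h5 := hmax (insert w X) (by
      rw [mem_filter]
      exact ⟨mem_univ _, hCX.trans (subset_insert _ _), insert_subset hwH hXH, h4⟩)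
    omega

private theorem HatRigid_aux (hL : Lpl E)
    (hc : (ins E (core (d + 1) E)).card + KK d = d * (core (d + 1) E).card)
    {X : Finset V} (hX : core (d + 1) E ⊆ X) (he : d * X.card ≤ (ins E X).card + KK d) :
    X ⊆ hat d E := by
  induction X using Finset.strongInduction with
  | H X ih =>
    by_cases hXC : core (d + 1) E = X
    · rw [← hXC]
      exact core_subset_hat d E
    · obtain ⟨v, hvX, hvC, hlow⟩ := exists_low hX hXC
      have hsub : core (d + 1) E ⊆ X.erase v := by
        intro w hw
        rw [mem_erase]
        exact ⟨fun h => hvC (h ▸ hw), hX hw⟩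
      have h1 := peel_le hL hsub
      have h2 := card_ins_erase hL hvX
      have h3 : (X.erase v).card = X.card - 1 := card_erase_of_mem hvX
      have h4 := card_le_card hsub
      have h5 : 0 < X.card := card_pos.2 ⟨v, hvX⟩
      obtain ⟨t, ht⟩ : ∃ t, X.card = (core (d + 1) E).card + 1 + t :=
        ⟨X.card - ((core (d + 1) E).card + 1), by omega⟩
      have h7 : (X.erase v).card - (core (d + 1) E).card = t := by omega
      have h8 : (X.erase v).card = (core (d + 1) E).card + t := by omega
      rw [h7] at h1
      have h9 : d * X.card = d * (core (d + 1) E).card + d + d * t := by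
        rw [ht]; ring
      have h10 : d * (X.erase v).card = d * (core (d + 1) E).card + d * t := by
        rw [h8]; ring
      have hnb : nb E X v = d := by omega
      have hsub2 : X.erase v ⊆ hat d E := ih (X.erase v) (erase_ssubset hvX) hsub (by omega)
      have hv : v ∈ hat d E := by
        refine mem_hat_of ?_
        rw [← nb_erase hL] at hnb
        have h11 := nb_mono (E := E) (E' := E) subset_rfl hsub2 v
        omega
      rw [← insert_erase hvX]
      exact insert_subset hv hsub2

theorem hat_max (hL : Lpl E) (hne : (core (d + 1) E).Nonempty)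
    (hc : (ins E (core (d + 1) E)).card + KK d = d * (core (d + 1) E).card)
    {A : Finset V} (hA : hat d E ⊆ A) (hr : d * A.card ≤ rk ℝ d (ins E A) + KK d) :
    A = hat d E := by
  refine subset_antisymm ?_ hA
  refine HatRigid_aux hL hc ((core_subset_hat d E).trans hA) ?_
  have := rk_le_card (F := ℝ) (d := d) (ins E A)
  omega

end Pool.Agent.Helper50.RG
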