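import Pool.Agent.Helper50.RG.TightA
import Pool.Agent.Helper50.RG.RkC

/-!
# RG-18 : there is no rigid set with more than three vertices before the stopping time

`no_rigid`: let `rk (ins E A) = rk (Kn A)`, `|A| ≥ 4`. If `|A| ≤ d + 1`, then
`e(A) ≥ |A| (|A| - 1) / 2 > |A|` (`rk_Kn_small`), which contradicts `E1`. So `|A| ≥ d + 2` or
(`|A| = d + 1`, same argument), and `e(A) ≥ d |A| - KK d` (`rk_Kn`), where `d |A| - KK d > |A|` as
`(d - 1)(d + 2) > d (d + 1) / 2`. If `|A| ≤ ε' N`, then `E2` gives `2 (d |A| - KK d) < 3 |A|`, so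
`|A| < 2 KK d ≤ c₁ log N`, and `E1` gives a contradiction. So `|A| > ε' N`, and `ins E A` has a non-empty core
`A'` (`core_nonempty`), `e(A') ≥ d |A'| - KK d` (`peel_count`), which has more than `ε' N`
vertices (`core_large`). Let `E ⊆ E'`, let `C = core (d+1) E'` have `d |C| - KK d - 1` edges of `E'`; `A' ⊆ C`, and
`t1` for `B = C \ A'` in `E'`: `e'(C) = e'(A') + |incd B| ≥ d |A'| - KK d + d |B| = d |C| - KK d`,
contradiction. (`|B| ≤ (1 - ε₃) |C|` since `|A'| > ε' N ≥ ε₃ |C|`.)
-/

set_option autoImplicit false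

namespace Pool.Agent.Helper50.RG

open Finset

private theorem two_KK (d : ℕ) : 2 * KK d = d * (d + 1) := by
  unfold KK
  rw [Nat.choose_two_right, Nat.add_sub_cancel, Nat.mul_div_cancel', mul_comm]
  have := Nat.even_mul_succ_self d
  rw [mul_comm]
  exact this.two_dvd

theorem no_rigid {d n : ℕ} (hd : 2 ≤ d) {c₁ ε' C₂ ε ε₃ η : ℝ} (hη : 0 < η) (hε' : 0 < ε')
    (h3 : 0 ≤ ε₃) (h3' : ε₃ ≤ ε') {E E' : Finset (Sym2 (Fin n))} (hE : E ⊆ E') (hL : Lpl E')
    (hreg : Reg c₁ ε' E') (hc₁ : 2 * (KK d : ℝ) + 2 * d ≤ c₁ * Real.log n)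
    (hn : 2 * (KK d : ℝ) + 1 ≤ ε' * n)
    (hcnt : Cnt d 1 E') (h4 : E4 d C₂ ε E' (core (d + 1) E'))
    (h5 : E5 d ε ε₃ η E' (core (d + 1) E')) {A : Finset (Fin n)} (hA : 4 ≤ A.card) :
    rk ℝ d (ins E A) ≠ rk ℝ d (Kn A) := by
  intro hrk
  have hKK := two_KK d
  obtain ⟨hE1, hE2, -⟩ := hreg
  have hLE : Lpl E := lpl_mono hE hL
  have hAne : A.Nonempty := Finset.card_pos.mp (by omega)
  have hcard : rk ℝ d (Kn A) ≤ (ins E A).card := hrk ▸ rk_le_card _
  have hmono : (ins E A).card ≤ (ins E' A).card :=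
    Finset.card_le_card (ins_mono hE (Finset.Subset.refl A))
  have hE2E : E2 ε' n E := by
    intro B hB hs
    have h1 := hE2 B hB hs
    have h2 : (ins E B).card ≤ (ins E' B).card :=
      Finset.card_le_card (ins_mono hE (Finset.Subset.refl B))
    omega
  rcases Nat.lt_or_ge (d + 1) A.card with hAd | hAd
  swap
  · -- small sets
    rw [rk_Kn_small hAd] at hcard
    have h1 : (ins E' A).card ≤ A.card := by
      apply hE1 A hAne
      refine le_trans ?_ hc₁
      have h2 : A.card ≤ 2 * KK d + 2 * d := by omega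
      exact_mod_cast h2
    have h3 : 2 * A.card.choose 2 = A.card * (A.card - 1) := by
      rw [Nat.choose_two_right, Nat.mul_div_cancel']
      exact (Nat.even_mul_pred_self A.card).two_dvd
    obtain ⟨a, ha⟩ : ∃ a, A.card = a + 4 := ⟨A.card - 4, by omega⟩
    have h4 : 2 * A.card < A.card * (A.card - 1) := by
      rw [ha]
      have : a + 4 - 1 = a + 3 := rfl
      rw [this]
      nlinarith
    omega
  · have hrkK : rk ℝ d (Kn A) + KK d = d * A.card := rk_Kn two_ne_zero (by omega)
    have heA : d * A.card ≤ (ins E A).card + KK d := by omega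
    by_cases hs : (A.card : ℝ) ≤ ε' * n
    · have h1 := hE2 A hAne hs
      have h2 : 2 * (d * A.card) < 3 * A.card + 2 * KK d := by omega
      obtain ⟨e, rfl⟩ : ∃ e, d = e + 2 := ⟨d - 2, by omega⟩
      have h3 : A.card < 2 * KK (e + 2) := by nlinarith
      have h4 : (ins E' A).card ≤ A.card := by
        apply hE1 A hAne
        refine le_trans ?_ hc₁
        have h2 : A.card ≤ 2 * KK (e + 2) + 2 * (e + 2) := by omega
        exact_mod_cast h2
      have h5 : (e + 2) * A.card ≤ A.card + KK (e + 2) := by omega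
      have h6 : 2 * ((e + 1) * A.card) ≤ 2 * KK (e + 2) := by nlinarith
      rw [hKK] at h6
      have h7 : (e + 1) * (e + 2 + 2) ≤ (e + 1) * A.card := Nat.mul_le_mul_left _ (by omega)
      nlinarith
    · push Not at hs
      have hYne : (core (d + 1) (ins E A)).Nonempty :=
        core_nonempty hd hLE hE2E hn hs.le heA
      set A' := core (d + 1) (ins E A) with hA'
      have hA'A : A' ⊆ A := core_ins_subset (by omega) E A
      have hpeel := peel_count (d := d) hLE A
      rw [← hA'] at hpeel
      have hlarge : ε' * n < A'.card := by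
        refine core_large hLE hE2E hYne ?_
        intro v hv
        have h1 : d + 1 ≤ nb (ins E A) A' v := nb_core hv
        have h2 : nb (ins E A) A' v ≤ nb E A' v := nb_mono ins_subset (Finset.Subset.refl _) v
        omega
      set C := core (d + 1) E' with hC
      have hA'C : A' ⊆ C := core_mono (d + 1) (ins_subset.trans hE)
      have hCn : C.card ≤ n := by
        simpa using Finset.card_le_univ C
      have hBcard : (C \ A').card = C.card - A'.card := Finset.card_sdiff_of_subset hA'C
      have hle1 : A'.card ≤ C.card := Finset.card_le_card hA'C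
      have hle2 : A'.card ≤ A.card := Finset.card_le_card hA'A
      have hs3 : ((C \ A').card : ℝ) ≤ (1 - ε₃) * C.card := by
        rw [hBcard, Nat.cast_sub hle1]
        have h1 : ε₃ * C.card ≤ ε' * n := by
          have h2 : (C.card : ℝ) ≤ n := by exact_mod_cast hCn
          calc ε₃ * (C.card : ℝ) ≤ ε₃ * n := mul_le_mul_of_nonneg_left h2 h3
            _ ≤ ε' * n := mul_le_mul_of_nonneg_right h3' (Nat.cast_nonneg n)
        linarith
      have ht1 := t1 hd hL (fun v hv => nb_core hv) h4 h5 hη (B := C \ A') Finset.sdiff_subset hs3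
      have hci := card_incd E' (B := C \ A') (C := C) Finset.sdiff_subset
      have hdd : C \ (C \ A') = A' := by
        rw [Finset.sdiff_sdiff_eq_self hA'C]
      rw [hdd] at hci
      have hmono' : (ins E A').card ≤ (ins E' A').card :=
        Finset.card_le_card (ins_mono hE (Finset.Subset.refl A'))
      have hcnt2 := hcnt.2
      rw [← hC] at hcnt2
      rw [← hC, hBcard, Nat.mul_sub] at ht1
      rw [Nat.mul_sub] at hpeel
      have h8 : d * A'.card ≤ d * C.card := Nat.mul_le_mul_left _ hle1
      have h9 : d * A'.card ≤ d * A.card := Nat.mul_le_mul_left _ hle2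
      omega

end Pool.Agent.Helper50.RG
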