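import Pool.Agent.Helper50.RG.Base2
import Pool.Agent.Helper50.RG.Base3
import Pool.Agent.Helper50.RG.SeqProb

/-!
# RG-47 : the base events hold up to time `d n` with high probability

`reg_whp`: `e1_whp`, `e2_whp`, `e3_whp` and `prob_le_seq` with `t = d n`. `reg_mono`: `ins_mono`,
`nb_mono`.
-/

set_option autoImplicit false

namespace Pool.Agent.Helper50.RG

open Finset

theorem reg_mono {c₁ ε' : ℝ} {n : ℕ} {E E' : Finset (Sym2 (Fin n))} (h : E ⊆ E')
    (hr : Reg c₁ ε' E') : Reg c₁ ε' E := by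
  obtain ⟨h1, h2, h3⟩ := hr
  refine ⟨?_, ?_, ?_⟩
  · intro A hA hc
    exact (card_le_card (ins_mono h (Subset.refl A))).trans (h1 A hA hc)
  · intro A hA hc
    have h4 := h2 A hA hc
    have h5 := card_le_card (ins_mono h (Subset.refl A))
    omega
  · intro v
    refine le_trans ?_ (h3 v)
    exact_mod_cast nb_mono h (Subset.refl univ) v

theorem reg_whp (d : ℕ) : ∃ c₁ ε' : ℝ, 0 < c₁ ∧ 0 < ε' ∧ ε' < 1 ∧ ∀ δ > 0, ∃ n₀ : ℕ, ∀ n ≥ n₀,
    prob n (fun σ => ¬ Reg c₁ ε' (edg σ (d * n))) ≤ δ := by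
  classical
  obtain ⟨c₁, hc₁, H1⟩ := e1_whp d
  obtain ⟨ε', hε', hε'1, H2⟩ := e2_whp d
  obtain ⟨C₀, hC₀, n₁, H0⟩ := prob_le_seq d
  refine ⟨c₁, ε', hc₁, hε', hε'1, fun δ hδ => ?_⟩
  have hδ' : 0 < δ / (3 * C₀) := by positivity
  obtain ⟨m1, M1⟩ := H1 _ hδ'
  obtain ⟨m2, M2⟩ := H2 _ hδ'
  obtain ⟨m3, M3⟩ := e3_whp d _ hδ'
  refine ⟨n₁ + m1 + m2 + m3 + 1, fun n hn => ?_⟩
  have k1 := M1 n (by omega)
  have k2 := M2 n (by omega)
  have k3 := M3 n (by omega)
  have k0 := H0 n (by omega) (d * n) le_rfl (fun E => ¬ Reg c₁ ε' E)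
  have hn0 : (0 : ℝ) < (n : ℝ) ^ (2 * (d * n)) := by
    have : (0 : ℝ) < n := by
      have : 0 < n := by omega
      exact_mod_cast this
    positivity
  refine k0.trans ?_
  rw [div_le_iff₀ hn0]
  have hcard : ((univ.filter (fun u : Fin (d * n) → Fin n × Fin n =>
      Simp u ∧ ¬ Reg c₁ ε' (edges u))).card : ℝ) ≤
      ((univ.filter (fun u : Fin (d * n) → Fin n × Fin n => ¬ E1 c₁ n (edges u))).card : ℝ) +
      ((univ.filter (fun u : Fin (d * n) → Fin n × Fin n => ¬ E2 ε' n (edges u))).card : ℝ) +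
      ((univ.filter (fun u : Fin (d * n) → Fin n × Fin n => ¬ E3 1 n (edges u))).card : ℝ) := by
    rw [← Nat.cast_add, ← Nat.cast_add]
    refine Nat.cast_le.mpr ?_
    refine (card_le_card (t := (univ.filter (fun u : Fin (d * n) → Fin n × Fin n =>
      ¬ E1 c₁ n (edges u)) ∪ univ.filter (fun u : Fin (d * n) → Fin n × Fin n =>
      ¬ E2 ε' n (edges u))) ∪ univ.filter (fun u : Fin (d * n) → Fin n × Fin n =>
      ¬ E3 1 n (edges u))) ?_).trans ((card_union_le _ _).trans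
        (Nat.add_le_add_right (card_union_le _ _) _))
    intro u hu
    simp only [mem_filter, mem_univ, true_and, mem_union] at hu ⊢
    obtain ⟨_, h⟩ := hu
    unfold Reg at h
    tauto
  have hle : C₀ * ((univ.filter (fun u : Fin (d * n) → Fin n × Fin n =>
      Simp u ∧ ¬ Reg c₁ ε' (edges u))).card : ℝ) ≤
      C₀ * (3 * (δ / (3 * C₀) * (n : ℝ) ^ (2 * (d * n)))) := by
    refine mul_le_mul_of_nonneg_left ?_ hC₀.le
    linarith
  have heq : C₀ * (3 * (δ / (3 * C₀) * (n : ℝ) ^ (2 * (d * n)))) =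
      δ * (n : ℝ) ^ (2 * (d * n)) := by
    field_simp
  rw [heq] at hle
  refine le_trans (le_of_eq ?_) hle
  congr 3
  ext u
  simp only [mem_filter, mem_univ, true_and]

end Pool.Agent.Helper50.RG
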