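import Pool.Agent.Helper50.RG.Base

/-!
# RG-2 : elementary facts about the process
-/

set_option autoImplicit false

namespace Pool.Agent.Helper50.RG

open Finset

variable {n : ℕ} (σ : Ord n)

theorem edg_zero : edg σ 0 = ∅ := by
  simp [edg]

theorem edg_succ {t : ℕ} (ht : t < n.choose 2) :
    edg σ (t + 1) = insert (σ ⟨t, ht⟩ : Sym2 (Fin n)) (edg σ t) := by
  unfold edg
  rw [← Finset.image_insert (fun i => (σ i : Sym2 (Fin n)))]
  congr 1
  ext i
  simp only [mem_filter, mem_univ, true_and, mem_insert, Fin.ext_iff]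
  omega

theorem not_mem_edg {t : ℕ} (ht : t < n.choose 2) : (σ ⟨t, ht⟩ : Sym2 (Fin n)) ∉ edg σ t := by
  intro h
  unfold edg at h
  obtain ⟨i, hi, he⟩ := mem_image.mp h
  have h1 : i = ⟨t, ht⟩ := σ.injective (Subtype.ext he)
  have h2 := (mem_filter.mp hi).2
  rw [h1] at h2
  exact lt_irrefl _ h2

theorem edg_mono {s t : ℕ} (h : s ≤ t) : edg σ s ⊆ edg σ t := by
  unfold edg
  refine image_subset_image ?_
  intro i hi
  rw [mem_filter] at hi ⊢
  exact ⟨mem_univ _, lt_of_lt_of_le hi.2 h⟩

theorem lpl_edg (t : ℕ) : Lpl (edg σ t) := by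
  intro e he
  obtain ⟨i, _, rfl⟩ := mem_image.mp he
  exact (σ i).2

theorem card_edg {t : ℕ} (ht : t ≤ n.choose 2) : (edg σ t).card = t := by
  unfold edg
  rw [card_image_of_injective _ (fun i j h => σ.injective (Subtype.ext h))]
  rw [Fin.card_filter_val_lt]
  exact min_eq_right ht

/-- the edges of `edg σ t` are determined by the values of `σ` at `i < t` -/
theorem edg_congr {σ τ : Ord n} {t : ℕ} (h : ∀ i : Fin (n.choose 2), (i : ℕ) < t → σ i = τ i) :
    edg σ t = edg τ t := by
  unfold edg
  refine image_congr ?_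
  intro i hi
  have h1 : (i : ℕ) < t := (mem_filter.mp (mem_coe.mp hi)).2
  simp only [h i h1]

private theorem card_ord_pos (n : ℕ) : (0 : ℝ) < Fintype.card (Ord n) := by
  have : Nonempty (Ord n) := by
    refine ⟨Fintype.equivOfCardEq ?_⟩
    rw [Fintype.card_fin, Sym2.card_subtype_not_diag, Fintype.card_fin]
  exact_mod_cast Fintype.card_pos

theorem prob_nonneg (Q : Ord n → Prop) : 0 ≤ prob n Q := by
  unfold prob
  positivity

theorem prob_le_one (Q : Ord n → Prop) : prob n Q ≤ 1 := by
  unfold prob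
  rw [div_le_one (card_ord_pos n)]
  exact_mod_cast card_le_univ _

theorem prob_mono {Q R : Ord n → Prop} (h : ∀ σ, Q σ → R σ) : prob n Q ≤ prob n R := by
  unfold prob
  refine div_le_div_of_nonneg_right ?_ (card_ord_pos n).le
  refine Nat.cast_le.mpr (card_le_card ?_)
  intro σ hσ
  simp only [mem_filter, mem_univ, true_and] at hσ ⊢
  exact h σ hσ

theorem prob_or (Q R : Ord n → Prop) : prob n (fun σ => Q σ ∨ R σ) ≤ prob n Q + prob n R := by
  classical
  unfold prob
  rw [← add_div]
  refine div_le_div_of_nonneg_right ?_ (card_ord_pos n).le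
  rw [← Nat.cast_add]
  refine Nat.cast_le.mpr ((card_le_card ?_).trans (card_union_le _ _))
  intro σ hσ
  simp only [mem_filter, mem_univ, true_and, mem_union] at hσ ⊢
  exact hσ

theorem prob_not (Q : Ord n → Prop) : prob n (fun σ => ¬ Q σ) = 1 - prob n Q := by
  classical
  unfold prob
  rw [eq_sub_iff_add_eq, ← add_div, div_eq_one_iff_eq (card_ord_pos n).ne']
  norm_cast
  rw [add_comm, card_filter_add_card_filter_not, card_univ]

/-- union bound -/
theorem prob_exists (s : Finset ℕ) (Q : ℕ → Ord n → Prop) :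
    prob n (fun σ => ∃ t ∈ s, Q t σ) ≤ ∑ t ∈ s, prob n (Q t) := by
  classical
  unfold prob
  rw [← Finset.sum_div]
  refine div_le_div_of_nonneg_right ?_ (card_ord_pos n).le
  rw [← Nat.cast_sum]
  refine Nat.cast_le.mpr (le_trans (card_le_card ?_) card_biUnion_le)
  intro σ hσ
  simp only [mem_filter, mem_univ, true_and, mem_biUnion] at hσ ⊢
  exact hσ

/-- the stopping times `t` are disjoint events -/
theorem sum_prob_stop (d : ℕ) (s : Finset ℕ) : ∑ t ∈ s, prob n (fun σ => Stop d σ t) ≤ 1 := by
  classical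
  unfold prob
  rw [← Finset.sum_div, div_le_one (card_ord_pos n)]
  norm_cast
  rw [← card_biUnion]
  · exact card_le_univ _
  · intro a _ b _ hab
    rw [Function.onFun, Finset.disjoint_left]
    intro σ h1 h2
    have h3 := (mem_filter.mp h1).2
    have h4 := (mem_filter.mp h2).2
    rcases lt_trichotomy a b with h | h | h
    · exact h4.2 a h h3.1
    · exact hab h
    · exact h3.2 b h h4.1

end Pool.Agent.Helper50.RG
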