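import Pool.Agent.Helper50.RG.Tight
import Pool.Agent.Helper50.RG.ProcB

/-!
# RG-53 : the step before (`step_back`)

See the comment in `Steps.lean`, paragraph `step_back`.
-/

set_option autoImplicit false

namespace Pool.Agent.Helper50.RG

open Finset

private theorem StepB_E2_mono {V : Type} [Fintype V] [DecidableEq V] {ε : ℝ} {N : ℕ}
    {E E' : Finset (Sym2 V)} (h : E ⊆ E') (h2 : E2 ε N E') : E2 ε N E := by
  intro A hA hc
  have h3 := h2 A hA hc
  have h4 : (ins E A).card ≤ (ins E' A).card := card_le_card (ins_mono h (Subset.refl A))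
  omega

private theorem StepB_core_ins {V : Type} [Fintype V] [DecidableEq V] {k : ℕ}
    {E : Finset (Sym2 V)} {C' : Finset V} (h : core k E ⊆ C') :
    core k (ins E C') = core k E := by
  apply Finset.Subset.antisymm
  · exact core_mono k ins_subset
  · apply subset_core
    intro w hw
    rw [nb_ins h (h hw)]
    exact nb_core hw

private theorem StepB_aux {V : Type} [Fintype V] [DecidableEq V] {d n : ℕ} (hd : 2 ≤ d)
    {ε' C₂ ε ε₃ η : ℝ} (hη : 0 < η) (h3 : 0 < ε₃) (h3' : ε₃ ≤ ε') (hC₂ : 0 ≤ C₂)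
    (hn : 2 * (KK d : ℝ) + 3 ≤ ε' * n) (hn2 : C₂ * Real.log n + d ≤ ε' * n)
    (hn3 : (d : ℝ) ≤ ε₃ * (ε' * n)) (hVn : Fintype.card V = n)
    {E E' : Finset (Sym2 V)} {e : Sym2 V} (hE' : E' = insert e E) (heE : e ∉ E)
    (hL' : Lpl E') (hE2' : E2 ε' n E')
    (hne' : (core (d + 1) E').Nonempty)
    (hcnt : (ins E' (core (d + 1) E')).card + KK d = d * (core (d + 1) E').card)
    (h4 : E4 d C₂ ε E' (core (d + 1) E'))
    (h5 : E5 d ε ε₃ η E' (core (d + 1) E'))
    (he : e ∈ ins E' (core (d + 1) E'))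
    (hcl : Cl ℝ d ((ins E' (core (d + 1) E')).erase e) e) :
    ((core (d + 1) E).Nonempty ∧
      (ins E (core (d + 1) E)).card + KK d + 1 = d * (core (d + 1) E).card) ∧
    ∀ E'' ⊆ E, (core (d + 1) E'').Nonempty →
      ¬ d * (core (d + 1) E'').card ≤ (ins E'' (core (d + 1) E'')).card + KK d := by
  classical
  have hEE' : E ⊆ E' := by rw [hE']; exact subset_insert _ _
  set C' := core (d + 1) E' with hC'
  have hC : ∀ v ∈ C', d + 1 ≤ nb E' C' v := fun v hv => nb_core hv
  have hlarge : ε' * n < C'.card := core_large hL' hE2' hne' (fun v hv => by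
    have := hC v hv; omega)
  have hCn : (C'.card : ℝ) ≤ n := by
    rw [← hVn]; exact_mod_cast card_le_univ C'
  have hCpos : (0 : ℝ) < C'.card := by exact_mod_cast card_pos.2 hne'
  have hN : C₂ * Real.log C'.card + d ≤ ε' * n := by
    refine le_trans ?_ hn2
    have := mul_le_mul_of_nonneg_left (Real.log_le_log hCpos hCn) hC₂
    linarith
  have hA : (d : ℝ) ≤ ε₃ * C'.card := by
    refine hn3.trans (mul_le_mul_of_nonneg_left hlarge.le h3.le)
  have hn0 : (0 : ℝ) ≤ n := Nat.cast_nonneg n
  -- subsets of the core of small complement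
  have hsm : ∀ C ⊆ C', ε' * n < C.card → ((C' \ C).card : ℝ) ≤ (1 - ε₃) * C'.card := by
    intro C hsub hlt
    have e1 : (C' \ C).card + C.card = C'.card := by
      rw [card_sdiff_of_subset hsub]
      have := card_le_card hsub
      omega
    have e2 : ((C' \ C).card : ℝ) + C.card = C'.card := by exact_mod_cast e1
    have e3 : ε₃ * C'.card ≤ ε' * n :=
      mul_le_mul h3' hCn hCpos.le (h3.le.trans h3')
    linarith
  have hinsE : ins E' C' = insert e (ins E C') := by
    ext x
    rw [mem_ins, mem_insert, mem_ins, hE', mem_insert]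
    constructor
    · rintro ⟨h1 | h1, h2⟩
      · exact Or.inl h1
      · exact Or.inr ⟨h1, h2⟩
    · rintro (h1 | h1)
      · rw [h1]; exact ⟨Or.inl rfl, (mem_ins.1 he).2⟩
      · exact ⟨Or.inr h1.1, h1.2⟩
  have hcardE : (ins E' C').card = (ins E C').card + 1 := by
    rw [hinsE, card_insert_of_notMem (fun h => heE (ins_subset h))]
  have hno : ∀ C ⊆ C', ε' * n < C.card → e ∈ incd E' C' (C' \ C) →
      (incd E' C' (C' \ C)).card ≠ d * (C' \ C).card := by
    intro C hsub hlt hein heq
    exact tight_coloop hd hL' hC h4 h5 hη hE2' hN sdiff_subset (hsm C hsub hlt) hA heq hein hcl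
  have ht1 : ∀ C ⊆ C', ε' * n < C.card → d * (C' \ C).card ≤ (incd E' C' (C' \ C)).card :=
    fun C hsub hlt => t1 hd hL' hC h4 h5 hη sdiff_subset (hsm C hsub hlt)
  have hsplit : ∀ C ⊆ C', (ins E' C').card = (ins E' C).card + (incd E' C' (C' \ C)).card := by
    intro C hsub
    have := card_incd (B := C' \ C) (C := C') E' sdiff_subset
    rwa [Finset.sdiff_sdiff_eq_self hsub] at this
  have hcs : ∀ C ⊆ C', d * (C' \ C).card + d * C.card = d * C'.card := by
    intro C hsub
    rw [← Nat.mul_add, card_sdiff_of_subset hsub, Nat.sub_add_cancel (card_le_card hsub)]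
  constructor
  · have hL : Lpl E := lpl_mono hEE' hL'
    have hE2 : E2 ε' n E := StepB_E2_mono hEE' hE2'
    set C := core (d + 1) E with hCdef
    have hCC' : C ⊆ C' := core_mono (d + 1) hEE'
    have hne : C.Nonempty := by
      have h1 : (core (d + 1) (ins E C')).Nonempty := by
        refine core_nonempty (ε := ε') (N := n) (r := KK d + 1) hd hL hE2 ?_ hlarge.le ?_
        · push_cast
          linarith
        · omega
      rwa [StepB_core_ins hCC'] at h1
    have hCl : ε' * n < C.card := core_large hL hE2 hne (fun v hv => by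
      have : d + 1 ≤ nb E C v := nb_core hv
      omega)
    refine ⟨hne, ?_⟩
    have hpeel := peel_count (d := d) (E := E) hL C'
    rw [StepB_core_ins hCC', ← hCdef, ← card_sdiff_of_subset hCC'] at hpeel
    have g1 := hsplit C hCC'
    have g2 := ht1 C hCC' hCl
    have g3 := hcs C hCC'
    by_cases hmeet : e ∈ incd E' C' (C' \ C)
    · have g4 := hno C hCC' hCl hmeet
      have g5 : ins E' C = ins E C := by
        ext x
        rw [mem_ins, mem_ins, hE', mem_insert]
        constructor
        · rintro ⟨h1 | h1, h2⟩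
          · exfalso
            rw [h1] at h2
            unfold incd at hmeet
            rw [mem_filter] at hmeet
            obtain ⟨_, v, hv, hve⟩ := hmeet
            exact (mem_sdiff.1 hv).2 (h2 v hve)
          · exact ⟨h1, h2⟩
        · rintro ⟨h1, h2⟩
          exact ⟨Or.inr h1, h2⟩
      rw [g5] at g1
      omega
    · have hev : ∀ v ∈ e, v ∈ C := by
        intro v hv
        by_contra hvC
        apply hmeet
        unfold incd
        rw [mem_filter]
        exact ⟨he, v, mem_sdiff.2 ⟨(mem_ins.1 he).2 v hv, hvC⟩, hv⟩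
      have hCeq : C = C' := by
        refine subset_antisymm hCC' (subset_core fun v hv => ?_)
        by_cases hvC : v ∈ C
        · have h6 : d + 1 ≤ nb E C v := nb_core hvC
          exact h6.trans (nb_mono (Subset.refl E) hCC' v)
        · have h6 := hC v hv
          have h7 : nb E' C' v = nb E C' v := by
            unfold nb
            congr 1
            apply filter_congr
            intro x _
            rw [hE', mem_insert]
            constructor
            · rintro (h8 | h8)
              · exfalso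
                apply hvC
                apply hev
                rw [← h8]
                exact Sym2.mem_mk_left _ _
              · exact h8
            · exact Or.inr
          rwa [h7] at h6
      rw [hCeq]
      omega
  · intro E'' hE'' hne'' hhit
    have hE''E' := hE''.trans hEE'
    have hL'' : Lpl E'' := lpl_mono hE''E' hL'
    have hE2'' : E2 ε' n E'' := StepB_E2_mono hE''E' hE2'
    set C := core (d + 1) E'' with hCdef
    have hCC' : C ⊆ C' := core_mono (d + 1) hE''E'
    have hCl : ε' * n < C.card := core_large hL'' hE2'' hne'' (fun v hv => by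
      have : d + 1 ≤ nb E'' C v := nb_core hv
      omega)
    have g1 := hsplit C hCC'
    have g2 := ht1 C hCC' hCl
    have g3 := hcs C hCC'
    have g4 : ins E'' C ⊆ ins E' C := ins_mono hE''E' (Subset.refl C)
    have g5 := card_le_card g4
    by_cases hmeet : e ∈ incd E' C' (C' \ C)
    · have g6 := hno C hCC' hCl hmeet
      omega
    · have hev : ∀ v ∈ e, v ∈ C := by
        intro v hv
        by_contra hvC
        apply hmeet
        unfold incd
        rw [mem_filter]
        exact ⟨he, v, mem_sdiff.2 ⟨(mem_ins.1 he).2 v hv, hvC⟩, hv⟩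
      have g6 : (ins E'' C).card < (ins E' C).card := by
        apply card_lt_card
        rw [ssubset_iff_of_subset g4]
        refine ⟨e, mem_ins.2 ⟨(mem_ins.1 he).1, hev⟩, fun h => heE (hE'' (ins_subset h))⟩
      omega

theorem step_back {d n : ℕ} (hd : 2 ≤ d) {c₁ ε' C₂ ε ε₃ η : ℝ} (hη : 0 < η) (hε' : 0 < ε')
    (hε1 : ε' ≤ 1) (h3 : 0 < ε₃) (h3' : ε₃ ≤ ε') (hC₂ : 0 ≤ C₂)
    (hn : 2 * (KK d : ℝ) + 3 ≤ ε' * n) (hn2 : C₂ * Real.log n + d ≤ ε' * n)
    (hn3 : (d : ℝ) ≤ ε₃ * (ε' * n)) (σ : Ord n) {s : ℕ} (hs : s < n.choose 2)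
    (hreg : Reg c₁ ε' (edg σ (s + 1))) (hcnt : Cnt d 0 (edg σ (s + 1)))
    (h4 : E4 d C₂ ε (edg σ (s + 1)) (core (d + 1) (edg σ (s + 1))))
    (h5 : E5 d ε ε₃ η (edg σ (s + 1)) (core (d + 1) (edg σ (s + 1))))
    (he : (σ ⟨s, hs⟩ : Sym2 (Fin n)) ∈ ins (edg σ (s + 1)) (core (d + 1) (edg σ (s + 1))))
    (hcl : Cl ℝ d ((ins (edg σ (s + 1)) (core (d + 1) (edg σ (s + 1)))).erase
      (σ ⟨s, hs⟩ : Sym2 (Fin n))) (σ ⟨s, hs⟩ : Sym2 (Fin n))) :
    Cnt d 1 (edg σ s) ∧ ∀ s' ≤ s, ¬ Hit d σ s' := by
  obtain ⟨r1, r2⟩ := StepB_aux hd hη h3 h3' hC₂ hn hn2 hn3 (Fintype.card_fin n)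
    (edg_succ σ hs) (not_mem_edg σ hs) (lpl_edg σ (s + 1)) hreg.2.1 hcnt.1 hcnt.2 h4 h5 he hcl
  refine ⟨r1, fun s' hs' hhit => ?_⟩
  exact r2 (edg σ s') (edg_mono σ hs') hhit.1 hhit.2

end Pool.Agent.Helper50.RG
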