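import Pool.Agent.Helper50.RG.RkM

/-!
# RG-20 : a dependent sparse graph has linearly many edges in circuits

By `rk_circuit` there is a non-empty `D ⊆ E` of edges in the closure of the others, with degrees at
least `d + 1 ≥ 3` at its vertices. Let `A` be the set of its vertices; `2 |D| ≥ 3 |A|` and
`D ⊆ ins E A`, so `|A| > ε N` by `E2`, and `|D| ≥ 3/2 |A| ≥ ε N`.
-/

set_option autoImplicit false

namespace Pool.Agent.Helper50.RG

open Finset

variable {V : Type} [Fintype V] [DecidableEq V] {E : Finset (Sym2 V)} {d : ℕ}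

open Classical in
theorem many_circuit_edges (hd : 2 ≤ d) (hL : Lpl E) {ε : ℝ} {N : ℕ} (hE : E2 ε N E)
    (h : rk ℝ d E < E.card) :
    ε * N ≤ ((E.filter (fun e => Cl ℝ d (E.erase e) e)).card : ℝ) := by
  obtain ⟨D, hDE, hne, hcl, hdeg⟩ := rk_circuit hL h
  set A : Finset V := univ.filter (fun v => ∃ e ∈ D, v ∈ e) with hA
  have hLD : Lpl D := lpl_mono hDE hL
  have hins : ins D A = D := by
    apply Finset.Subset.antisymm ins_subset
    intro e he
    rw [mem_ins]
    exact ⟨he, fun v hv => Finset.mem_filter.mpr ⟨Finset.mem_univ _, e, he, hv⟩⟩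
  have hnb : ∀ v ∈ A, 3 ≤ nb D A v := by
    intro v hv
    have h1 := hdeg v (Finset.mem_filter.mp hv).2
    have h2 : nb D univ v ≤ nb D A v := by
      unfold nb
      apply Finset.card_le_card
      intro w hw
      rw [Finset.mem_filter] at hw ⊢
      exact ⟨Finset.mem_filter.mpr ⟨Finset.mem_univ _, s(v, w), hw.2, by simp⟩, hw.2⟩
    omega
  have h3 : 3 * A.card ≤ 2 * D.card := by
    have h4 := sum_nb hLD A
    rw [hins] at h4
    rw [← h4]
    have h5 := Finset.card_nsmul_le_sum A (fun v => nb D A v) 3 hnb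
    rw [smul_eq_mul] at h5
    omega
  have hAne : A.Nonempty := by
    obtain ⟨e, he⟩ := hne
    induction e using Sym2.ind with
    | _ x y => exact ⟨x, Finset.mem_filter.mpr ⟨Finset.mem_univ _, s(x, y), he, by simp⟩⟩
  have hAbig : ε * N < A.card := by
    by_contra hcon
    push Not at hcon
    have h4 := hE A hAne hcon
    have h5 : D.card ≤ (ins E A).card := by
      rw [← hins]
      exact Finset.card_le_card (ins_mono hDE (Finset.Subset.refl _))
    omega
  have h6 : A.card ≤ D.card := by omega
  have h7 : D.card ≤ (E.filter (fun e => Cl ℝ d (E.erase e) e)).card := by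
    apply Finset.card_le_card
    intro e he
    exact Finset.mem_filter.mpr ⟨hDE he, by convert hcl e he⟩
  have h8 : (A.card : ℝ) ≤ ((E.filter (fun e => Cl ℝ d (E.erase e) e)).card : ℝ) := by
    exact_mod_cast h6.trans h7
  linarith

end Pool.Agent.Helper50.RG
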