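import Pool.Agent.Helper50.RG.SwitchD
import Pool.Agent.Helper50.RG.Stress
import Pool.Agent.Helper50.RG.StepB
import Pool.Agent.Helper50.RG.Exch
import Pool.Agent.Helper50.RG.RegW

/-!
# RG-48 : the switching argument, first part

`switch_a`: let `Q E` be the property in `DD` (it only depends on `E = edg σ (t+1)`) and `D E` the set of the edges
`e` of `ins E C`, `C` the core, with `Cl ((ins E C).erase e) e`. By `many_circuit_edges` `|D E| ≥ ε' n`, so by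
`last_uniform` (`t + 1 ≤ d n`) `ε' n P(DD) ≤ d n P(DD ∧ σ t ∈ D)`. If `DD` holds and `σ t ∈ D` then
by `step_back` `Cnt d 1 (edg σ t)` and no `Hit` up to `t`; `Reg (edg σ t)` by `reg_mono`. Either
`Str (edg σ t)` fails (first term on the right) or `SSt`, and `σ t` is in the closure of `edg σ t` (`cl_mono`)
and not in `edg σ t`. By `hfc` there are at most `κ₀ n²` (ordered) such pairs, so by `next_le` (`SSt` is a
`Prefix t` event: `edg_congr`; `D' E` = the non-loops in the closure of `E` if there are at most `κ₀ n²` ordered pairs in the closure,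
otherwise empty) the probability is at most `κ₀ n² / (C(n,2) - t) P(SSt) ≤ 4 κ₀ P(SSt)`.

-/

set_option autoImplicit false

namespace Pool.Agent.Helper50.RG

open Finset

private theorem prefix_sst (d : ℕ) (c₁ ε' C₂ ε ε₃ η : ℝ) (n t : ℕ) :
    Prefix (n := n) t (SSt d c₁ ε' C₂ ε ε₃ η t) := by
  intro σ τ h hs
  have he : ∀ s' ≤ t, edg σ s' = edg τ s' := fun s' hs' =>
    edg_congr (fun i hi => h i (lt_of_lt_of_le hi hs'))
  obtain ⟨h1, h2, h3, h4⟩ := hs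
  rw [he t le_rfl] at h2 h3 h4
  refine ⟨?_, h2, h3, h4⟩
  intro s' hs' hh
  refine h1 s' hs' ?_
  unfold Hit at hh ⊢
  rw [he s' hs']
  exact hh

private theorem ev_log (C₂ ε' D : ℝ) (hC₂ : 0 < C₂) (hε' : 0 < ε') :
    ∃ n₁ : ℕ, ∀ n ≥ n₁, C₂ * Real.log n + D ≤ ε' * (n : ℕ) := by
  have h1 : ∀ᶠ x : ℝ in Filter.atTop, C₂ * Real.log x ≤ ε' / 2 * x := by
    have h := Real.isLittleO_log_id_atTop.def (show 0 < ε' / (2 * C₂) by positivity)
    filter_upwards [h, Filter.eventually_ge_atTop (0 : ℝ)] with x hx hx0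
    simp only [id, Real.norm_eq_abs, abs_of_nonneg hx0] at hx
    have h2 : Real.log x ≤ ε' / (2 * C₂) * x := (le_abs_self _).trans hx
    calc C₂ * Real.log x ≤ C₂ * (ε' / (2 * C₂) * x) := mul_le_mul_of_nonneg_left h2 hC₂.le
      _ = ε' / 2 * x := by field_simp
  have h2 : ∀ᶠ x : ℝ in Filter.atTop, D ≤ ε' / 2 * x := by
    filter_upwards [Filter.eventually_ge_atTop (D / (ε' / 2))] with x hx
    rw [div_le_iff₀ (by positivity)] at hx
    linarith
  have h3 : ∀ᶠ n : ℕ in Filter.atTop, C₂ * Real.log n + D ≤ ε' * (n : ℕ) := by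
    have := (h1.and h2)
    filter_upwards [tendsto_natCast_atTop_atTop.eventually this] with n hn
    linarith [hn.1, hn.2]
  exact Filter.eventually_atTop.1 h3

open Classical in
theorem switch_a (d : ℕ) (hd : 2 ≤ d) (c₁ ε' C₂ ε ε₃ η κ₀ : ℝ) (hε' : 0 < ε') (hε1 : ε' < 1)
    (hC₂ : 0 < C₂) (hε : 0 < ε) (hη : 0 < η) (h3 : 0 < ε₃) (h3' : ε₃ ≤ ε') (hκ : 0 < κ₀) :
    ∃ n₀ : ℕ, ∀ n ≥ n₀,
    (∀ E : Finset (Sym2 (Fin n)), Lpl E → E2 ε' n E → Cnt d 1 E → E6 d ε₃ E (core (d + 1) E) →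
      ((univ.filter (fun p : Fin n × Fin n => p.1 ≠ p.2 ∧ Cl ℝ d E s(p.1, p.2))).card : ℝ) ≤
        κ₀ * (n : ℝ) ^ 2) →
    ∀ t, t + 1 ≤ d * n →
      ε' / d * prob n (DD d c₁ ε' C₂ ε ε₃ η (t + 1)) ≤
        prob n (fun σ => Reg c₁ ε' (edg σ t) ∧ Cnt d 1 (edg σ t) ∧
          ¬ Str d C₂ ε ε₃ η (edg σ t)) +
        4 * κ₀ * prob n (SSt d c₁ ε' C₂ ε ε₃ η t) := by
  obtain ⟨n₁, hn₁⟩ := ev_log C₂ ε' d hC₂ hε'
  refine ⟨max n₁ (max (4 * d + 2) (max ⌈(2 * (KK d : ℝ) + 3) / ε'⌉₊ ⌈(d : ℝ) / (ε₃ * ε')⌉₊)), ?_⟩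
  intro n hn hfc t ht
  have hn1 : n₁ ≤ n := le_trans (le_max_left _ _) hn
  have hn' := le_trans (le_max_right _ _) hn
  have hn2 : 4 * d + 2 ≤ n := le_trans (le_max_left _ _) hn'
  have hn'' := le_trans (le_max_right _ _) hn'
  have hn3 : 2 * (KK d : ℝ) + 3 ≤ ε' * n := by
    have h1 : (2 * (KK d : ℝ) + 3) / ε' ≤ n :=
      (Nat.le_ceil _).trans (by exact_mod_cast le_trans (le_max_left _ _) hn'')
    rw [div_le_iff₀ hε'] at h1
    linarith
  have hn4 : (d : ℝ) ≤ ε₃ * (ε' * n) := by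
    have h1 : (d : ℝ) / (ε₃ * ε') ≤ n :=
      (Nat.le_ceil _).trans (by exact_mod_cast le_trans (le_max_right _ _) hn'')
    rw [div_le_iff₀ (by positivity)] at h1
    linarith
  have hch : d * n ≤ n.choose 2 := by
    rw [Nat.choose_two_right, Nat.le_div_iff_mul_le (by norm_num)]
    have : 2 * d ≤ n - 1 := by omega
    calc d * n * 2 = n * (2 * d) := by ring
      _ ≤ n * (n - 1) := Nat.mul_le_mul_left _ this
  have htn : t < n.choose 2 := by omega
  have hnpos : (0 : ℝ) < n := by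
    have : 0 < n := by omega
    exact_mod_cast this
  have hdpos : (0 : ℝ) < d := by
    have : 0 < d := by omega
    exact_mod_cast this
  set Q : Finset (Sym2 (Fin n)) → Prop := fun E => Cnt d 0 E ∧ Reg c₁ ε' E ∧ Str d C₂ ε ε₃ η E ∧
    rk ℝ d (ins E (core (d + 1) E)) < (ins E (core (d + 1) E)).card with hQ
  set D : Finset (Sym2 (Fin n)) → Finset (Sym2 (Fin n)) := fun E =>
    (ins E (core (d + 1) E)).filter (fun e => Cl ℝ d ((ins E (core (d + 1) E)).erase e) e) with hD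
  -- the last edge is in a circuit with positive probability
  have s1 := last_uniform htn Q D (fun E => (filter_subset _ _).trans ins_subset) (ε' * n)
    (by
      intro σ hσ
      obtain ⟨_, hr, _, hlt⟩ := hσ
      refine many_circuit_edges hd (lpl_ins (lpl_edg σ (t + 1))) ?_ hlt
      intro A hA hA2
      refine lt_of_le_of_lt ?_ (hr.2.1 A hA hA2)
      exact Nat.mul_le_mul_left _ (card_le_card (ins_mono ins_subset (Subset.refl _))))
  -- the event for the graph one step before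
  have s2 : prob n (fun σ => Q (edg σ (t + 1)) ∧ (σ ⟨t, htn⟩ : Sym2 (Fin n)) ∈
      D (edg σ (t + 1))) ≤ prob n (fun σ => Reg c₁ ε' (edg σ t) ∧ Cnt d 1 (edg σ t) ∧
          ¬ Str d C₂ ε ε₃ η (edg σ t)) + prob n (fun σ => SSt d c₁ ε' C₂ ε ε₃ η t σ ∧
          (σ ⟨t, htn⟩ : Sym2 (Fin n)) ∈ (univ.filter (fun e : Sym2 (Fin n) => ¬ e.IsDiag ∧
            Cl ℝ d (edg σ t) e))) := by
    refine le_trans (prob_mono ?_) (prob_or _ _)
    rintro σ ⟨⟨hc, hr, hs, _⟩, he⟩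
    rw [hD, mem_filter] at he
    obtain ⟨he1, he2⟩ := he
    obtain ⟨b1, b2⟩ := step_back hd hη hε' hε1.le h3 h3' hC₂.le hn3 (hn₁ n hn1) hn4 σ htn hr hc
      hs.1 hs.2.1 he1 he2
    have b3 : Reg c₁ ε' (edg σ t) := reg_mono (edg_mono σ (Nat.le_succ t)) hr
    by_cases hstr : Str d C₂ ε ε₃ η (edg σ t)
    · right
      refine ⟨⟨b2, b1, b3, hstr⟩, ?_⟩
      rw [mem_filter]
      refine ⟨mem_univ _, (σ ⟨t, htn⟩).2, ?_⟩
      refine cl_mono ?_ he2
      intro f hf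
      rw [mem_erase] at hf
      have hf2 := ins_subset hf.2
      rw [edg_succ σ htn, mem_insert] at hf2
      exact hf2.resolve_left hf.1
    · left
      exact ⟨b3, b1, hstr⟩
  -- few pairs in the closure
  have s3 := next_le htn (SSt d c₁ ε' C₂ ε ε₃ η t) (prefix_sst d c₁ ε' C₂ ε ε₃ η n t)
    (fun E => univ.filter (fun e : Sym2 (Fin n) => ¬ e.IsDiag ∧ Cl ℝ d E e)) (κ₀ * (n : ℝ) ^ 2)
    (by
      intro σ hσ
      refine le_trans ?_ (hfc (edg σ t) (lpl_edg σ t) hσ.2.2.1.2.1 hσ.2.1 hσ.2.2.2.2.2)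
      refine Nat.cast_le.mpr ?_
      refine card_le_card_of_surjOn (fun p : Fin n × Fin n => s(p.1, p.2)) ?_
      intro e he
      rw [mem_coe, mem_filter] at he
      induction e using Sym2.ind with
      | _ x y =>
        refine ⟨(x, y), ?_, rfl⟩
        rw [mem_coe, mem_filter]
        refine ⟨mem_univ _, ?_, he.2.2⟩
        intro hxy
        exact he.2.1 (by rw [Sym2.mk_isDiag_iff]; exact hxy))
  set P1 := prob n (DD d c₁ ε' C₂ ε ε₃ η (t + 1)) with hP1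
  set P2 := prob n (fun σ => Reg c₁ ε' (edg σ t) ∧ Cnt d 1 (edg σ t) ∧
          ¬ Str d C₂ ε ε₃ η (edg σ t)) with hP2
  set P3 := prob n (SSt d c₁ ε' C₂ ε ε₃ η t) with hP3
  set P4 := prob n (fun σ => SSt d c₁ ε' C₂ ε ε₃ η t σ ∧
          (σ ⟨t, htn⟩ : Sym2 (Fin n)) ∈ (univ.filter (fun e : Sym2 (Fin n) => ¬ e.IsDiag ∧
            Cl ℝ d (edg σ t) e))) with hP4
  set P5 := prob n (fun σ => Q (edg σ (t + 1)) ∧ (σ ⟨t, htn⟩ : Sym2 (Fin n)) ∈
      D (edg σ (t + 1))) with hP5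
  have s1' : ε' * n * P1 ≤ ((t : ℝ) + 1) * P5 := s1
  have s3' : (((n.choose 2 : ℕ) : ℝ) - t) * P4 ≤ κ₀ * (n : ℝ) ^ 2 * P3 := s3
  have p4 : 0 ≤ P4 := prob_nonneg _
  have p5 : 0 ≤ P5 := prob_nonneg _
  have c1 : (n : ℝ) ^ 2 / 4 ≤ ((n.choose 2 : ℕ) : ℝ) - t := by
    rw [Nat.cast_choose_two ℝ n]
    have e1 : (t : ℝ) + 1 ≤ d * n := by exact_mod_cast ht
    have e2 : 4 * (d : ℝ) + 2 ≤ n := by exact_mod_cast hn2
    nlinarith
  have c2 : P4 ≤ 4 * κ₀ * P3 := by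
    have e1 : P4 * ((n : ℝ) ^ 2 / 4) ≤ (4 * κ₀ * P3) * ((n : ℝ) ^ 2 / 4) := by
      calc P4 * ((n : ℝ) ^ 2 / 4) = ((n : ℝ) ^ 2 / 4) * P4 := by ring
        _ ≤ (((n.choose 2 : ℕ) : ℝ) - t) * P4 := mul_le_mul_of_nonneg_right c1 p4
        _ ≤ _ := s3'
        _ = _ := by ring
    exact le_of_mul_le_mul_right e1 (by positivity)
  have c3 : ε' / d * P1 ≤ P5 := by
    have e2 : (t : ℝ) + 1 ≤ d * n := by exact_mod_cast ht
    have e1 : (ε' / d * P1) * (d * n) ≤ P5 * (d * n) := by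
      calc (ε' / d * P1) * (d * n) = ε' * n * P1 := by field_simp
        _ ≤ _ := s1'
        _ ≤ (d * n) * P5 := mul_le_mul_of_nonneg_right e2 p5
        _ = _ := by ring
    exact le_of_mul_le_mul_right e1 (by positivity)
  linarith

end Pool.Agent.Helper50.RG
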