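import Pool.Agent.Helper50.RG.Peel
import Pool.Agent.Helper50.RG.ProcB

/-!
# RG-19 : the stopping time (`stop_exists`, `stop_of_inside`)

`stop_exists`: at time `T = d n` the graph has `d n` edges; by `core_nonempty` (`Y = univ`, `r = 0`)
the core is non-empty, and by `peel_count` it has at least `d |C|` edges. So there is a first `t`
with `Hit`, `t ≤ d n`; `t ≠ 0` as `edg σ 0 = ∅`. Write `t = s + 1`, `E = edg σ s`,
`E' = edg σ (s + 1) = insert e E`, `C' = core (d+1) E'`. In `E` the set `C'` has at least
`d |C'| - KK d - 1` edges, so `core (d+1) (ins E C')` is non-empty (`core_nonempty`,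
`r = KK d + 1`; `|C'| ≥ ε' n` by `core_large`), it is equal to
`C = core (d+1) E` (as `core (d+1) E ⊆ C'` by `core_mono`), and by `peel_count`
`e(C) ≥ d |C| - KK d - 1`; since `¬ Hit d σ s`, `e(C) = d |C| - KK d - 1`. Also by `peel_count`
`e_E(C') ≤ e(C) + d |C' \ C| = d |C'| - KK d - 1`, so `e_{E'}(C') ≤ d |C'| - KK d`, and equality
holds by `Hit`.

`step_back`: let `E' = edg σ (s+1) = insert e E` with `Cnt d 0 E'` and let `e` be an edge of `ins E' C'` in the
closure of the others. Again `C = core (d+1) E ⊆ C'` is non-empty. Let `S = C' \ C`.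
By `peel_count` (for `ins E C'`) at most `d |S|` edges of `E` inside `C'` meet `S`, so at most
`d |S| + 1` edges of `E'` do. By `t1` at least `d |S|`. If exactly `d |S|`: if `e` meets `S` then
`tight_coloop` gives a contradiction. If `e` does not meet `S`, then
`e ⊆ C` so `C'` has minimum degree at least `d + 1` in `E` (its vertices outside `C` have the same
degrees in `E` and `E'`, the vertices of `C` have degree at least `d+1` in `ins E C`), so `C' = C`, `S = ∅`, `e(C) = d |C| - KK d - 1`. If `d |S| + 1`: then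
`e` meets `S` (otherwise at most `d |S|`), and `e_E(C) = e_{E'}(C) = e_{E'}(C') - d |S| - 1
= d |C| - KK d - 1`. So `Cnt d 1 E`. Now let `s' ≤ s` with `Hit d σ s'`, `C'' = core (d+1) (edg σ s')`,
`C'' ⊆ C'`, `|C''| > ε' n` (`core_large`). If `e ⊆ C''` then `e_{E'}(C'') ≥ d |C''| - KK d + 1`, and `t1` for `C' \ C''` in `E'`
contradicts `e_{E'}(C') = d |C'| - KK d`. Otherwise `e` meets `S' = C' \ C''`, and by `t1`
`e_{E'}(C') ≥ e_{E'}(C'') + d |S'| ≥ d |C'| - KK d`, so `S'` is tight and `tight_coloop` is a
contradiction.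
-/

set_option autoImplicit false

namespace Pool.Agent.Helper50.RG

open Finset

private theorem Steps_E2_mono {V : Type} [Fintype V] [DecidableEq V] {ε : ℝ} {N : ℕ}
    {E E' : Finset (Sym2 V)} (h : E ⊆ E') (h2 : E2 ε N E') : E2 ε N E := by
  intro A hA hc
  have h3 := h2 A hA hc
  have h4 : (ins E A).card ≤ (ins E' A).card := card_le_card (ins_mono h (Subset.refl A))
  omega

private theorem Steps_core_ins {V : Type} [Fintype V] [DecidableEq V] {k : ℕ}
    {E : Finset (Sym2 V)} {C' : Finset V} (h : core k E ⊆ C') :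
    core k (ins E C') = core k E := by
  apply Finset.Subset.antisymm
  · exact core_mono k ins_subset
  · apply subset_core
    intro w hw
    rw [nb_ins h (h hw)]
    exact nb_core hw

private theorem Steps_core_empty {V : Type} [Fintype V] [DecidableEq V] (d : ℕ) :
    core (d + 1) (∅ : Finset (Sym2 V)) = ∅ := by
  rw [Finset.eq_empty_iff_forall_notMem]
  intro v hv
  have h1 := nb_core hv
  have h2 : nb (∅ : Finset (Sym2 V)) (core (d + 1) ∅) v = 0 := by
    unfold nb
    simp
  omega

private theorem Steps_insert_card {V : Type} [Fintype V] [DecidableEq V]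
    (e : Sym2 V) (E : Finset (Sym2 V)) (A : Finset V) :
    (ins (insert e E) A).card ≤ (ins E A).card + 1 := by
  have h1 : ins (insert e E) A ⊆ insert e (ins E A) := by
    intro x hx
    rw [mem_ins, Finset.mem_insert] at hx
    rw [Finset.mem_insert, mem_ins]
    rcases hx with ⟨h1 | h1, h2⟩
    · exact Or.inl h1
    · exact Or.inr ⟨h1, h2⟩
  exact (card_le_card h1).trans (card_insert_le _ _)

private theorem Steps_main {d n : ℕ} (hd : 2 ≤ d) {ε' : ℝ}
    (hn : 2 * (KK d : ℝ) + 3 ≤ ε' * n) {E E' : Finset (Sym2 (Fin n))} {e : Sym2 (Fin n)}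
    (hE' : E' = insert e E) (hL' : Lpl E') (hE2' : E2 ε' n E')
    (hne' : (core (d + 1) E').Nonempty)
    (hh' : d * (core (d + 1) E').card ≤ (ins E' (core (d + 1) E')).card + KK d)
    (hnot : (core (d + 1) E).Nonempty →
      (ins E (core (d + 1) E)).card + KK d < d * (core (d + 1) E).card) :
    Cnt d 1 E ∧ Cnt d 0 E' := by
  have hEE' : E ⊆ E' := by
    rw [hE']
    exact Finset.subset_insert _ _
  have hE2 : E2 ε' n E := Steps_E2_mono hEE' hE2'
  have hL : Lpl E := lpl_mono hEE' hL'
  have hCC' : core (d + 1) E ⊆ core (d + 1) E' := core_mono (d + 1) hEE'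
  have hins : (ins E' (core (d + 1) E')).card ≤ (ins E (core (d + 1) E')).card + 1 := by
    have h0 := Steps_insert_card e E (core (d + 1) E')
    rwa [← hE'] at h0
  have hlarge : ε' * n < (core (d + 1) E').card := by
    refine core_large hL' hE2' hne' (fun v hv => ?_)
    have := nb_core hv
    omega
  have hne : (core (d + 1) E).Nonempty := by
    have h1 : (core (d + 1) (ins E (core (d + 1) E'))).Nonempty := by
      refine core_nonempty (ε := ε') (N := n) (r := KK d + 1) hd hL hE2 ?_ hlarge.le ?_
      · push_cast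
        linarith
      · omega
    rwa [Steps_core_ins hCC'] at h1
  have hpeel := peel_count (d := d) (E := E) hL (core (d + 1) E')
  rw [Steps_core_ins hCC'] at hpeel
  have hcard : (core (d + 1) E).card ≤ (core (d + 1) E').card := card_le_card hCC'
  have h4 : d * ((core (d + 1) E').card - (core (d + 1) E).card) + d * (core (d + 1) E).card =
      d * (core (d + 1) E').card := by
    rw [← Nat.mul_add, Nat.sub_add_cancel hcard]
  have hnot' := hnot hne
  refine ⟨⟨hne, ?_⟩, ⟨hne', ?_⟩⟩
  · omega
  · omega

theorem stop_exists {d n : ℕ} (hd : 2 ≤ d) {c₁ ε' : ℝ} (hε' : 0 < ε') (hε1 : ε' ≤ 1)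
    (hn : 2 * (KK d : ℝ) + 3 ≤ ε' * n) (hdn : d * n ≤ n.choose 2) (σ : Ord n)
    (hreg : Reg c₁ ε' (edg σ (d * n))) :
    ∃ s, s + 1 ≤ d * n ∧ Stop d σ (s + 1) ∧ Cnt d 1 (edg σ s) ∧ Cnt d 0 (edg σ (s + 1)) := by
  classical
  have hKK : (0 : ℝ) ≤ (KK d : ℝ) := Nat.cast_nonneg _
  -- the event at time `d n`
  have hhit : Hit d σ (d * n) := by
    have hcard : (edg σ (d * n)).card = d * n := card_edg σ hdn
    have hun : ins (edg σ (d * n)) univ = edg σ (d * n) := ins_univ
    have h1 : (core (d + 1) (ins (edg σ (d * n)) univ)).Nonempty := by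
      refine core_nonempty (ε := ε') (N := n) (r := 0) hd (lpl_edg σ _) hreg.2.1 ?_ ?_ ?_
      · push_cast
        linarith
      · rw [Finset.card_univ, Fintype.card_fin]
        have h0 : (0 : ℝ) ≤ n := Nat.cast_nonneg n
        nlinarith
      · rw [hun, hcard, Finset.card_univ, Fintype.card_fin]
        omega
    have h2 := peel_count (d := d) (lpl_edg σ (d * n)) univ
    rw [hun] at h1 h2
    refine ⟨h1, ?_⟩
    rw [hcard, Finset.card_univ, Fintype.card_fin] at h2
    have h3 : (core (d + 1) (edg σ (d * n))).card ≤ n := by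
      have := Finset.card_le_univ (core (d + 1) (edg σ (d * n)))
      rwa [Fintype.card_fin] at this
    have h4 : d * (n - (core (d + 1) (edg σ (d * n))).card) +
        d * (core (d + 1) (edg σ (d * n))).card = d * n := by
      rw [← Nat.mul_add, Nat.sub_add_cancel h3]
    omega
  have hex : ∃ t, Hit d σ t := ⟨_, hhit⟩
  set t := Nat.find hex with htdef
  have ht : Hit d σ t := Nat.find_spec hex
  have htle : t ≤ d * n := Nat.find_min' hex hhit
  have htmin : ∀ s < t, ¬ Hit d σ s := fun s hs => Nat.find_min hex hs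
  have ht0 : t ≠ 0 := by
    intro h0
    rw [h0] at ht
    obtain ⟨h1, _⟩ := ht
    rw [edg_zero, Steps_core_empty] at h1
    exact Finset.not_nonempty_empty h1
  obtain ⟨s, hs⟩ := Nat.exists_eq_succ_of_ne_zero ht0
  rw [Nat.succ_eq_add_one] at hs
  rw [hs] at ht htle htmin
  refine ⟨s, htle, ⟨ht, htmin⟩, ?_⟩
  have hslt : s < n.choose 2 := by omega
  have hE2' : E2 ε' n (edg σ (s + 1)) := Steps_E2_mono (edg_mono σ htle) hreg.2.1
  refine Steps_main hd hn (edg_succ σ hslt) (lpl_edg σ (s + 1)) hE2' ht.1 ht.2 (fun hne => ?_)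
  have hnot : ¬ Hit d σ s := htmin s (Nat.lt_succ_self s)
  by_contra hcon
  push Not at hcon
  exact hnot ⟨hne, hcon⟩

/-- the next edge inside the core ends at the stopping time -/
theorem stop_of_inside {d n : ℕ} (σ : Ord n) {s : ℕ} (hs : s < n.choose 2)
    (hcnt : Cnt d 1 (edg σ s)) (hno : ∀ s' ≤ s, ¬ Hit d σ s')
    (he : ∀ v ∈ (σ ⟨s, hs⟩ : Sym2 (Fin n)), v ∈ core (d + 1) (edg σ s)) : Stop d σ (s + 1) := by
  classical
  have hE' := edg_succ σ hs
  have hnotin := not_mem_edg σ hs
  set e : Sym2 (Fin n) := (σ ⟨s, hs⟩ : Sym2 (Fin n)) with hedef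
  set E := edg σ s with hEdef
  set C := core (d + 1) E with hCdef
  have hEE' : E ⊆ insert e E := Finset.subset_insert _ _
  have hCC : core (d + 1) (insert e E) = C := by
    apply Finset.Subset.antisymm
    · apply subset_core
      intro w hw
      have hw' := nb_core hw
      by_cases hwC : w ∈ C
      · have h1 := nb_core hwC
        have h2 : nb E C w ≤ nb E (core (d + 1) (insert e E)) w :=
          nb_mono (Finset.Subset.refl E) (core_mono (d + 1) hEE') w
        exact h1.trans h2
      · have h3 : nb (insert e E) (core (d + 1) (insert e E)) w =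
            nb E (core (d + 1) (insert e E)) w := by
          unfold nb
          congr 1
          apply Finset.filter_congr
          intro x _
          rw [Finset.mem_insert]
          constructor
          · rintro (h4 | h4)
            · exfalso
              apply hwC
              apply he
              rw [← h4]
              exact Sym2.mem_mk_left _ _
            · exact h4
          · exact Or.inr
        rwa [h3] at hw'
    · exact core_mono (d + 1) hEE'
  refine ⟨?_, fun s' hs' => hno s' (Nat.lt_succ_iff.1 hs')⟩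
  unfold Hit
  rw [hE', hCC]
  refine ⟨hcnt.1, ?_⟩
  have h1 : ins (insert e E) C = insert e (ins E C) := by
    ext x
    rw [mem_ins, Finset.mem_insert, Finset.mem_insert, mem_ins]
    constructor
    · rintro ⟨h1 | h1, h2⟩
      · exact Or.inl h1
      · exact Or.inr ⟨h1, h2⟩
    · rintro (h1 | ⟨h1, h2⟩)
      · subst h1
        exact ⟨Or.inl rfl, he⟩
      · exact ⟨Or.inr h1, h2⟩
  have h2 : (ins (insert e E) C).card = (ins E C).card + 1 := by
    rw [h1, Finset.card_insert_of_notMem]
    intro h3
    exact hnotin (ins_subset h3)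
  have h3 : (ins E C).card + KK d + 1 = d * C.card := hcnt.2
  omega

end Pool.Agent.Helper50.RG
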