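import Pool.Agent.Helper50.RG.SwitchD
import Pool.Agent.Helper50.RG.Steps
import Pool.Agent.Helper50.RG.Exch
import Pool.Agent.Helper50.RG.RegW

/-!
# RG-59 : the switching argument, second part

`switch_b`: `next_ge` with `D E` = the non-edges inside the core: at least
`N(N-1)/2 - d N ≥ N²/3 ≥ ε'² n²/3` (`core_large`), and `stop_of_inside`.
-/

set_option autoImplicit false

namespace Pool.Agent.Helper50.RG

open Finset

private theorem prefix_sst (d : ℕ) (c₁ ε' C₂ ε ε₃ η : ℝ) (n t : ℕ) :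
    Prefix (n := n) t (SSt d c₁ ε' C₂ ε ε₃ η t) := by
  intro σ τ h hs
  have he : ∀ s' ≤ t, edg σ s' = edg τ s' := fun s' hs' =>
    edg_congr (fun i hi => h i (lt_of_lt_of_le hi hs'))
  obtain ⟨h1, h2, h3, h4⟩ := hs
  rw [he t le_rfl] at h2 h3 h4
  refine ⟨?_, h2, h3, h4⟩
  intro s' hs' hh
  refine h1 s' hs' ?_
  unfold Hit at hh ⊢
  rw [he s' hs']
  exact hh

private theorem card_Kn' {V : Type} [Fintype V] [DecidableEq V] (A : Finset V) :
    (Kn A).card = A.card.choose 2 := by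
  rw [← Sym2.card_image_offDiag]
  congr 1
  ext e
  induction e using Sym2.ind with
  | _ x y =>
    unfold Kn
    simp only [mem_filter, mk_mem_sym2_iff, Sym2.mk_isDiag_iff, mem_image, mem_offDiag,
      Prod.exists, Function.uncurry_apply_pair, Sym2.eq_iff]
    constructor
    · rintro ⟨⟨hx, hy⟩, hxy⟩
      exact ⟨x, y, ⟨hx, hy, hxy⟩, Or.inl ⟨rfl, rfl⟩⟩
    · rintro ⟨a, b, ⟨ha, hb, hab⟩, (⟨rfl, rfl⟩ | ⟨rfl, rfl⟩)⟩
      · exact ⟨⟨ha, hb⟩, hab⟩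
      · exact ⟨⟨hb, ha⟩, fun h => hab h.symm⟩

private theorem card_nonedges {d n : ℕ} {ε' : ℝ} (hd : 2 ≤ d) (hε' : 0 < ε')
    (hn : 4 * (d : ℝ) + 2 ≤ ε' * n) {E : Finset (Sym2 (Fin n))} (hL : Lpl E) (hE : E2 ε' n E)
    (hc : Cnt d 1 E) :
    ε' ^ 2 * (n : ℝ) ^ 2 / 4 ≤ ((Kn (core (d + 1) E) \ E).card : ℝ) := by
  set C := core (d + 1) E with hC
  set N := C.card with hN
  have h1 : ε' * n < N := core_large hL hE hc.1 (fun v hv => by
    have h0 : d + 1 ≤ nb E C v := nb_core hv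
    exact le_trans (by omega) h0)
  have h2 : (Kn C).card ≤ (Kn C \ E).card + (ins E C).card := by
    have e1 : Kn C ⊆ (Kn C \ E) ∪ ins E C := by
      intro e he
      by_cases hee : e ∈ E
      · refine mem_union_right _ ?_
        rw [mem_ins]
        refine ⟨hee, ?_⟩
        have := (mem_filter.mp he).1
        rw [mem_sym2_iff] at this
        exact this
      · exact mem_union_left _ (mem_sdiff.mpr ⟨he, hee⟩)
    exact (card_le_card e1).trans (card_union_le _ _)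
  rw [card_Kn', ← hN] at h2
  have h3 : (ins E C).card ≤ d * N := by
    have := hc.2
    rw [← hC, ← hN] at this
    omega
  have h4 : ((N.choose 2 : ℕ) : ℝ) = N * (N - 1) / 2 := Nat.cast_choose_two ℝ N
  have h5 : ((N.choose 2 : ℕ) : ℝ) ≤ ((Kn C \ E).card : ℝ) + d * N := by
    exact_mod_cast h2.trans (Nat.add_le_add_left h3 _)
  rw [h4] at h5
  have h6 : 4 * (d : ℝ) + 2 ≤ N := hn.trans h1.le
  have h7 : (N : ℝ) ^ 2 / 4 ≤ N * (N - 1) / 2 - d * N := by nlinarith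
  have h8 : ε' ^ 2 * (n : ℝ) ^ 2 ≤ (N : ℝ) ^ 2 := by
    rw [← mul_pow]
    exact pow_le_pow_left₀ (by positivity) h1.le 2
  linarith

theorem switch_b (d : ℕ) (hd : 2 ≤ d) (c₁ ε' C₂ ε ε₃ η : ℝ) (hε' : 0 < ε') (hε1 : ε' < 1) :
    ∃ n₀ : ℕ, ∀ n ≥ n₀, ∀ t, t + 1 ≤ d * n →
      ε' ^ 2 / 2 * prob n (SSt d c₁ ε' C₂ ε ε₃ η t) ≤ prob n (fun σ => Stop d σ (t + 1)) := by
  refine ⟨max (2 * d + 1) ⌈(4 * (d : ℝ) + 2) / ε'⌉₊, ?_⟩
  intro n hn t ht
  have hn1 : 2 * d + 1 ≤ n := le_trans (le_max_left _ _) hn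
  have hn2 : 4 * (d : ℝ) + 2 ≤ ε' * n := by
    have h1 : (4 * (d : ℝ) + 2) / ε' ≤ n :=
      (Nat.le_ceil _).trans (by exact_mod_cast le_trans (le_max_right _ _) hn)
    rw [div_le_iff₀ hε'] at h1
    linarith
  have hch : d * n ≤ n.choose 2 := by
    rw [Nat.choose_two_right, Nat.le_div_iff_mul_le (by norm_num)]
    have : 2 * d ≤ n - 1 := by omega
    calc d * n * 2 = n * (2 * d) := by ring
      _ ≤ n * (n - 1) := Nat.mul_le_mul_left _ this
  have htn : t < n.choose 2 := by omega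
  have hnpos : (0 : ℝ) < n := by
    have : 0 < n := by omega
    exact_mod_cast this
  have h1 := next_ge htn (SSt d c₁ ε' C₂ ε ε₃ η t) (prefix_sst d c₁ ε' C₂ ε ε₃ η n t)
    (fun E => Kn (core (d + 1) E) \ E)
    (by
      intro E e he
      rw [mem_sdiff] at he
      exact ⟨(mem_filter.mp he.1).2, he.2⟩)
    (ε' ^ 2 * (n : ℝ) ^ 2 / 4)
    (by
      intro σ hσ
      exact card_nonedges hd hε' hn2 (lpl_edg σ t) hσ.2.2.1.2.1 hσ.2.1)
  have h2 : prob n (fun σ => SSt d c₁ ε' C₂ ε ε₃ η t σ ∧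
      (σ ⟨t, htn⟩ : Sym2 (Fin n)) ∈ Kn (core (d + 1) (edg σ t)) \ edg σ t) ≤
      prob n (fun σ => Stop d σ (t + 1)) := by
    refine prob_mono ?_
    rintro σ ⟨hs, he⟩
    refine stop_of_inside σ htn hs.2.1 hs.1 ?_
    rw [mem_sdiff] at he
    have h3 := (mem_filter.mp he.1).1
    rw [mem_sym2_iff] at h3
    exact h3
  have h3 : ((n.choose 2 : ℕ) : ℝ) - t ≤ (n : ℝ) ^ 2 / 2 := by
    rw [Nat.cast_choose_two ℝ n]
    have : (0 : ℝ) ≤ t := Nat.cast_nonneg t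
    nlinarith
  have h4 : (0 : ℝ) ≤ ((n.choose 2 : ℕ) : ℝ) - t := by
    have : (t : ℝ) ≤ ((n.choose 2 : ℕ) : ℝ) := by exact_mod_cast htn.le
    linarith
  have h5 : (ε' ^ 2 / 2 * prob n (SSt d c₁ ε' C₂ ε ε₃ η t)) * ((n : ℝ) ^ 2 / 2) ≤
      prob n (fun σ => Stop d σ (t + 1)) * ((n : ℝ) ^ 2 / 2) := by
    calc _ = ε' ^ 2 * (n : ℝ) ^ 2 / 4 * prob n (SSt d c₁ ε' C₂ ε ε₃ η t) := by ring
      _ ≤ _ := h1
      _ ≤ ((n : ℝ) ^ 2 / 2) * prob n (fun σ => Stop d σ (t + 1)) :=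
          mul_le_mul h3 h2 (prob_nonneg _) (by positivity)
      _ = _ := by ring
  exact le_of_mul_le_mul_right h5 (by positivity)

end Pool.Agent.Helper50.RG
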