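import Pool.Agent.Helper50.RG.BadP
import Pool.Agent.Helper50.RG.Closed
import Pool.Agent.Helper50.RG.SwitchA
import Pool.Agent.Helper50.RG.SwitchB
import Pool.Agent.Helper50.RG.NoRigid
import Pool.Agent.Helper50.RG.HatRigid

/-!
# RG-49 : the theorem in terms of ranks

Let `c₁, ε'` be as in `reg_whp`, `C₂, ε, δ` as in `bad_prob`. Given `ε₀`, choose `κ₀ > 0` with
`(d/ε') 4 κ₀ (2/ε'²) ≤ ε₀/4`, then `ε₃` by `few_closed` for `κ₀`, then `η, C` by `bad_prob`.
The bad event is contained in the union of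
(A) `¬ Reg (edg σ (d n))`, probability at most `ε₀/4`;
(B) for some `t ≤ d n`, `s' ≤ 1`: `Reg ∧ Cnt d s' ∧ ¬ Str` at time `t`: at most `2 (d n + 1) C n^(-1-δ) ≤ ε₀/4`;
(C) `DD` at some time `t + 1 ≤ d n`: by `switch_a`, `switch_b`, `bad_prob`, `sum_prob_stop` at most
`(d/ε') (d n C n^(-1-δ) + 4 κ₀ (2/ε'²)) ≤ ε₀/2`.
Outside: by `stop_exists` the stopping time is `s + 1 ≤ d n`, with `Cnt d 1` at `s`, `Cnt d 0` at `s + 1`, so `Str` at
both times (and `Reg`, `reg_mono`), and not `DD`, so the rank of the core at time `s + 1` is its number of edges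
(`rk_le_card`). `no_rigid` (with `E' = edg σ s`) gives the statement before the stopping time, `hat_full`,
`rk_Kn` and `hat_max` the statement at the stopping time. (`d n ≤ C(n,2)` for `n ≥ 2 d + 1`.)
-/

set_option autoImplicit false

namespace Pool.Agent.Helper50.RG

open Finset

/-- the statement in terms of the rank -/
def GoodRk (d : ℕ) {n : ℕ} (σ : Ord n) : Prop :=
  ∃ t, t ≤ n.choose 2 ∧ Stop d σ t ∧
    (∀ s < t, ∀ A : Finset (Fin n), 4 ≤ A.card →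
      rk ℝ d (ins (edg σ s) A) ≠ rk ℝ d (Kn A)) ∧
    rk ℝ d (ins (edg σ t) (hat d (edg σ t))) = rk ℝ d (Kn (hat d (edg σ t))) ∧
    ∀ A : Finset (Fin n), hat d (edg σ t) ⊆ A →
      rk ℝ d (ins (edg σ t) A) = rk ℝ d (Kn A) → A = hat d (edg σ t)

private theorem good_det {d n : ℕ} (hd : 2 ≤ d) {c₁ ε' C₂ ε ε₃ η : ℝ} (hη : 0 < η)
    (hε' : 0 < ε') (hε1 : ε' < 1) (h3 : 0 < ε₃) (h3' : ε₃ ≤ ε')
    (hn : 2 * (KK d : ℝ) + 3 ≤ ε' * n) (hc₁ : 2 * (KK d : ℝ) + 2 * d ≤ c₁ * Real.log n)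
    (hdn : d * n ≤ n.choose 2) (σ : Ord n) (hreg : Reg c₁ ε' (edg σ (d * n)))
    (hstr : ∀ t ≤ d * n, ∀ s' ≤ 1, Reg c₁ ε' (edg σ t) → Cnt d s' (edg σ t) →
      Str d C₂ ε ε₃ η (edg σ t))
    (hDD : ∀ t, t + 1 ≤ d * n → ¬ DD d c₁ ε' C₂ ε ε₃ η (t + 1) σ) : GoodRk d σ := by
  obtain ⟨s, hs, hstop, hcs, hct⟩ := stop_exists hd hε' hε1.le hn hdn σ hreg
  have hregs : Reg c₁ ε' (edg σ s) := reg_mono (edg_mono σ (by omega)) hreg
  have hregt : Reg c₁ ε' (edg σ (s + 1)) := reg_mono (edg_mono σ hs) hreg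
  have hSs := hstr s (by omega) 1 le_rfl hregs hcs
  have hSt := hstr (s + 1) hs 0 (by omega) hregt hct
  have hrk : rk ℝ d (ins (edg σ (s + 1)) (core (d + 1) (edg σ (s + 1)))) =
      (ins (edg σ (s + 1)) (core (d + 1) (edg σ (s + 1)))).card := by
    refine le_antisymm (rk_le_card _) ?_
    by_contra h
    exact hDD s hs ⟨hct, hregt, hSt, not_le.mp h⟩
  have hL := lpl_edg σ (s + 1)
  have hcard : (ins (edg σ (s + 1)) (core (d + 1) (edg σ (s + 1)))).card + KK d =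
      d * (core (d + 1) (edg σ (s + 1))).card := by
    have := hct.2
    omega
  have hge : d ≤ (hat d (edg σ (s + 1))).card := by
    obtain ⟨v, hv⟩ := hct.1
    have h1 := nb_core hv
    have h2 := nb_lt_card hL hv
    have h4 := card_le_card (core_subset_hat d (edg σ (s + 1)))
    omega
  have h2R : (2 : ℝ) ≠ 0 := two_ne_zero
  refine ⟨s + 1, le_trans hs hdn, hstop, ?_, ?_, ?_⟩
  · intro r hr A hA
    exact no_rigid hd hη hε' h3.le h3' (edg_mono σ (by omega : r ≤ s)) (lpl_edg σ s) hregs hc₁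
      (by linarith) hcs hSs.1 hSs.2.1 hA
  · have e1 := hat_full hL hct.1 hcard hrk
    have e2 := rk_Kn h2R hge
    omega
  · intro A hA hrA
    refine hat_max hL hct.1 hcard hA ?_
    have e2 := rk_Kn h2R (le_trans hge (card_le_card hA))
    omega

theorem good_whp (d : ℕ) (hd : 2 ≤ d) (lam : ℝ) (hl : IsLam d lam) (hAN : AN d lam)
    (ε₀ : ℝ) (hε₀ : 0 < ε₀) :
    ∃ n₀ : ℕ, ∀ n ≥ n₀, prob n (fun σ => ¬ GoodRk d σ) ≤ ε₀ := by
  obtain ⟨c₁, ε', hc₁, hε', hε1, hregw⟩ := reg_whp d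
  obtain ⟨C₂, ε, δ, hC₂, hε, hδ, hbad⟩ := bad_prob d hd lam hl hAN c₁ ε' hc₁ hε'
  have hd0 : (0 : ℝ) < d := by
    have : 0 < d := by omega
    exact_mod_cast this
  set κ₀ : ℝ := ε₀ * ε' ^ 3 / (32 * d) with hκdef
  have hκ : 0 < κ₀ := by positivity
  obtain ⟨ε₃, h3, h3', h31, nf, hfc⟩ := few_closed d hd ε' hε' κ₀ hκ
  obtain ⟨η, hη, C, nb', hbad2⟩ := hbad ε₃ h3 h3'
  obtain ⟨nr, hnr⟩ := hregw (ε₀ / 4) (by positivity)
  obtain ⟨na, hna⟩ := switch_a d hd c₁ ε' C₂ ε ε₃ η κ₀ hε' hε1 hC₂ hε hη h3 h3' hκ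
  obtain ⟨nc, hnc⟩ := switch_b d hd c₁ ε' C₂ ε ε₃ η hε' hε1
  -- asymptotics
  set K : ℝ := (d + 1) * |C| * (2 + d / ε') with hK
  have hK0 : 0 ≤ K := by positivity
  have hlim : Filter.Tendsto (fun n : ℕ => K * (n : ℝ) ^ (-δ)) Filter.atTop (nhds 0) := by
    have h := (tendsto_rpow_neg_atTop hδ).comp tendsto_natCast_atTop_atTop
    have h' := h.const_mul K
    simpa using h'
  have ev1 : ∀ᶠ n : ℕ in Filter.atTop, K * (n : ℝ) ^ (-δ) < ε₀ / 4 :=
    hlim.eventually (gt_mem_nhds (by positivity))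
  have ev2 : ∀ᶠ n : ℕ in Filter.atTop, 2 * (KK d : ℝ) + 3 ≤ ε' * n :=
    (Filter.Tendsto.const_mul_atTop hε' tendsto_natCast_atTop_atTop).eventually_ge_atTop _
  have ev3 : ∀ᶠ n : ℕ in Filter.atTop, 2 * (KK d : ℝ) + 2 * d ≤ c₁ * Real.log n :=
    (Filter.Tendsto.const_mul_atTop hc₁
      (Real.tendsto_log_atTop.comp tendsto_natCast_atTop_atTop)).eventually_ge_atTop _
  have ev4 := Filter.eventually_ge_atTop (nf + nb' + nr + na + nc + 2 * d + 1)
  obtain ⟨n₀, hn₀⟩ := Filter.eventually_atTop.mp (((ev1.and ev2).and ev3).and ev4)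
  refine ⟨n₀, fun n hn => ?_⟩
  obtain ⟨⟨⟨h1, h2⟩, h3n⟩, h4⟩ := hn₀ n hn
  have hdn : d * n ≤ n.choose 2 := by
    rw [Nat.choose_two_right, Nat.le_div_iff_mul_le (by norm_num)]
    have : 2 * d ≤ n - 1 := by omega
    calc d * n * 2 = n * (2 * d) := by ring
      _ ≤ n * (n - 1) := Nat.mul_le_mul_left _ this
  have hn0 : (0 : ℝ) < n := by
    have : 0 < n := by omega
    exact_mod_cast this
  have hn1 : (1 : ℝ) ≤ n := by
    have : 1 ≤ n := by omega
    exact_mod_cast this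
  -- the bound for one term
  set β : ℝ := |C| * (n : ℝ) ^ (-1 - δ) with hβ
  have hβ0 : 0 ≤ β := by positivity
  have hb : ∀ t ≤ d * n, ∀ s' ≤ 1, prob n (fun σ => Reg c₁ ε' (edg σ t) ∧ Cnt d s' (edg σ t) ∧
        ¬ Str d C₂ ε ε₃ η (edg σ t)) ≤ β := by
    intro t ht s' hs'
    refine le_trans (hbad2 n (by omega) t ht s' hs') ?_
    exact mul_le_mul_of_nonneg_right (le_abs_self C) (by positivity)
  have hβsum : ((d * n + 1 : ℕ) : ℝ) * β ≤ (d + 1) * |C| * (n : ℝ) ^ (-δ) := by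
    have e1 : (n : ℝ) ^ (-1 - δ) = (n : ℝ) ^ (-δ) / n := by
      rw [show (-1 - δ : ℝ) = -δ - 1 by ring, Real.rpow_sub_one hn0.ne']
    rw [hβ, e1]
    have e2 : ((d * n + 1 : ℕ) : ℝ) ≤ (d + 1) * n := by
      push_cast
      nlinarith
    have e3 : 0 ≤ |C| * ((n : ℝ) ^ (-δ) / n) := by positivity
    calc ((d * n + 1 : ℕ) : ℝ) * (|C| * ((n : ℝ) ^ (-δ) / n))
        ≤ ((d + 1) * n) * (|C| * ((n : ℝ) ^ (-δ) / n)) := mul_le_mul_of_nonneg_right e2 e3
      _ = (d + 1) * |C| * (n : ℝ) ^ (-δ) := by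
          field_simp
  -- the events
  have hcover : ∀ σ : Ord n, ¬ GoodRk d σ →
      (¬ Reg c₁ ε' (edg σ (d * n)) ∨
        (∃ t ∈ range (d * n + 1), Reg c₁ ε' (edg σ t) ∧ Cnt d 0 (edg σ t) ∧
          ¬ Str d C₂ ε ε₃ η (edg σ t))) ∨
      ((∃ t ∈ range (d * n + 1), Reg c₁ ε' (edg σ t) ∧ Cnt d 1 (edg σ t) ∧
          ¬ Str d C₂ ε ε₃ η (edg σ t)) ∨
        ∃ t ∈ range (d * n), DD d c₁ ε' C₂ ε ε₃ η (t + 1) σ) := by
    intro σ hσ
    by_contra hcon
    push Not at hcon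
    obtain ⟨⟨hA, hB⟩, hC, hD⟩ := hcon
    apply hσ
    refine good_det (C₂ := C₂) (ε := ε) hd hη hε' hε1 h3 h3' h2 h3n hdn σ hA ?_ ?_
    · intro t ht s' hs' hr hc
      rcases Nat.le_one_iff_eq_zero_or_eq_one.mp hs' with h | h
      · subst h
        exact hB t (mem_range.mpr (by omega)) hr hc
      · subst h
        exact hC t (mem_range.mpr (by omega)) hr hc
    · intro t ht
      exact hD t (mem_range.mpr (by omega))
  have hPA := hnr n (by omega)
  have hPB : ∀ s' ≤ 1, prob n (fun σ => ∃ t ∈ range (d * n + 1), Reg c₁ ε' (edg σ t) ∧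
      Cnt d s' (edg σ t) ∧ ¬ Str d C₂ ε ε₃ η (edg σ t)) ≤ (d + 1) * |C| * (n : ℝ) ^ (-δ) := by
    intro s' hs'
    refine le_trans (prob_exists (range (d * n + 1)) (fun t σ => Reg c₁ ε' (edg σ t) ∧
      Cnt d s' (edg σ t) ∧ ¬ Str d C₂ ε ε₃ η (edg σ t))) ?_
    refine le_trans (Finset.sum_le_sum (g := fun _ => β) fun t ht => ?_) ?_
    · exact hb t (by have := mem_range.mp ht; omega) s' hs'
    · rw [sum_const, card_range, nsmul_eq_mul]
      exact hβsum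
  have hPD : prob n (fun σ => ∃ t ∈ range (d * n), DD d c₁ ε' C₂ ε ε₃ η (t + 1) σ) ≤
      d / ε' * ((d + 1) * |C| * (n : ℝ) ^ (-δ)) + ε₀ / 4 := by
    refine le_trans (prob_exists (range (d * n))
      (fun t σ => DD d c₁ ε' C₂ ε ε₃ η (t + 1) σ)) ?_
    have hterm : ∀ t ∈ range (d * n), prob n (fun σ => DD d c₁ ε' C₂ ε ε₃ η (t + 1) σ) ≤
        d / ε' * β + d / ε' * (4 * κ₀ * (2 / ε' ^ 2)) * prob n (fun σ => Stop d σ (t + 1)) := by
      intro t ht
      have ht' : t + 1 ≤ d * n := by have := mem_range.mp ht; omega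
      have ea := hna n (by omega) (fun E hL hE hc h6 => hfc n (by omega) E hL hE hc h6) t ht'
      have eb := hnc n (by omega) t ht'
      have ec := hb t (by omega) 1 le_rfl
      have eS : prob n (SSt d c₁ ε' C₂ ε ε₃ η t) ≤
          2 / ε' ^ 2 * prob n (fun σ => Stop d σ (t + 1)) := by
        rw [div_mul_eq_mul_div, le_div_iff₀ (by positivity)]
        nlinarith
      have e5 : ε' / d * prob n (DD d c₁ ε' C₂ ε ε₃ η (t + 1)) ≤
          β + 4 * κ₀ * (2 / ε' ^ 2 * prob n (fun σ => Stop d σ (t + 1))) := by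
        refine le_trans ea (add_le_add ec ?_)
        exact mul_le_mul_of_nonneg_left eS (by positivity)
      have e6 : prob n (DD d c₁ ε' C₂ ε ε₃ η (t + 1)) =
          d / ε' * (ε' / d * prob n (DD d c₁ ε' C₂ ε ε₃ η (t + 1))) := by
        field_simp
      change prob n (DD d c₁ ε' C₂ ε ε₃ η (t + 1)) ≤ _
      rw [e6]
      refine le_trans (mul_le_mul_of_nonneg_left e5 (by positivity)) (le_of_eq ?_)
      ring
    refine le_trans (Finset.sum_le_sum hterm) ?_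
    rw [sum_add_distrib, sum_const, card_range, nsmul_eq_mul, ← mul_sum]
    refine add_le_add ?_ ?_
    · calc ((d * n : ℕ) : ℝ) * (d / ε' * β) = d / ε' * (((d * n : ℕ) : ℝ) * β) := by ring
        _ ≤ d / ε' * (((d * n + 1 : ℕ) : ℝ) * β) := by
            refine mul_le_mul_of_nonneg_left ?_ (by positivity)
            refine mul_le_mul_of_nonneg_right ?_ hβ0
            exact_mod_cast Nat.le_succ _
        _ ≤ d / ε' * ((d + 1) * |C| * (n : ℝ) ^ (-δ)) :=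
            mul_le_mul_of_nonneg_left hβsum (by positivity)
    · have hstop : ∑ t ∈ range (d * n), prob n (fun σ => Stop d σ (t + 1)) ≤ 1 := by
        have e := sum_prob_stop (n := n) d ((range (d * n)).map ⟨fun t => t + 1,
          fun a b h => by simpa using h⟩)
        rw [sum_map] at e
        exact e
      have hcoef : d / ε' * (4 * κ₀ * (2 / ε' ^ 2)) = ε₀ / 4 := by
        rw [hκdef]
        field_simp
        norm_num
      rw [hcoef]
      calc ε₀ / 4 * ∑ t ∈ range (d * n), prob n (fun σ => Stop d σ (t + 1)) ≤ ε₀ / 4 * 1 :=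
            mul_le_mul_of_nonneg_left hstop (by positivity)
        _ = ε₀ / 4 := by ring
  have hfin := le_trans (prob_mono hcover) (le_trans (prob_or _ _)
    (add_le_add (prob_or _ _) (prob_or _ _)))
  have hB0 := hPB 0 (by omega)
  have hB1 := hPB 1 le_rfl
  have hKe : K * (n : ℝ) ^ (-δ) = 2 * ((d + 1) * |C| * (n : ℝ) ^ (-δ)) +
      d / ε' * ((d + 1) * |C| * (n : ℝ) ^ (-δ)) := by
    rw [hK]; ring
  linarith

end Pool.Agent.Helper50.RG
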