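import Pool.Agent.Helper50.RG.Statement
import Pool.Agent.Helper50.RG.AnMain
import Pool.Agent.Helper50.RG.GoodRk
import Pool.Agent.Helper50.RG.GeoD

/-!
# From ranks to the final statement
-/

set_option autoImplicit false

namespace Pool.Agent.Helper50.RG

open Finset

section bridge

variable {n : ℕ} (σ : Ord n) (t : ℕ)

theorem proc_adj_iff (u v : Fin n) : (proc σ t).Adj u v ↔ s(u, v) ∈ edg σ t := by
  constructor
  · rintro ⟨i, hi, h⟩
    rw [edg, Finset.mem_image]
    exact ⟨i, by simp [hi], h⟩
  · intro h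
    rw [edg, Finset.mem_image] at h
    obtain ⟨i, hi, h⟩ := h
    simp only [Finset.mem_filter, Finset.mem_univ, true_and] at hi
    exact ⟨i, hi, h⟩

theorem degIn_eq (A : Finset (Fin n)) (v : Fin n) :
    degIn (proc σ t) (A : Set (Fin n)) v = nb (edg σ t) A v := by
  unfold degIn nb
  rw [← Set.ncard_coe_finset]
  congr 1
  ext w
  simp only [Set.mem_setOf_eq, Finset.coe_filter, proc_adj_iff, Finset.mem_coe]

theorem kCore_eq (k : ℕ) : kCore k (proc σ t) = (core k (edg σ t) : Set (Fin n)) := by
  classical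
  ext v
  simp only [kCore, Set.mem_sUnion, Set.mem_setOf_eq, core, Finset.coe_filter, Finset.mem_univ,
    true_and]
  constructor
  · rintro ⟨A, hA, hv⟩
    refine ⟨A.toFinset, by simpa using hv, fun w hw => ?_⟩
    rw [← degIn_eq, Set.coe_toFinset]
    exact hA w (by simpa using hw)
  · rintro ⟨A, hv, hA⟩
    refine ⟨(A : Set (Fin n)), fun w hw => ?_, by simpa using hv⟩
    rw [degIn_eq]
    exact hA w (by simpa using hw)

theorem hatCore_eq (d : ℕ) : hatCore d (proc σ t) = (hat d (edg σ t) : Set (Fin n)) := by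
  classical
  ext v
  simp only [hatCore, Set.mem_sInter, Set.mem_setOf_eq, hat, Finset.coe_filter, Finset.mem_univ,
    true_and, kCore_eq]
  constructor
  · intro h X hX hX'
    have := h (X : Set (Fin n)) ⟨by exact_mod_cast hX, fun w hw => by
      rw [degIn_eq] at hw
      exact_mod_cast hX' w hw⟩
    exact_mod_cast this
  · intro h X hX
    have := h X.toFinset (by
      intro w hw
      rw [Set.mem_toFinset]
      exact hX.1 (by exact_mod_cast hw)) (fun w hw => by
      rw [← degIn_eq, Set.coe_toFinset] at hw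
      rw [Set.mem_toFinset]
      exact hX.2 w hw)
    rwa [Set.mem_toFinset] at this

theorem edgeFinset_proc [DecidableRel (proc σ t).Adj] : (proc σ t).edgeFinset = edg σ t := by
  ext e
  induction e using Sym2.ind with
  | _ u v => rw [SimpleGraph.mem_edgeFinset, SimpleGraph.mem_edgeSet, proc_adj_iff]

theorem edgesIn_eq (A : Finset (Fin n)) :
    edgesIn (proc σ t) (A : Set (Fin n)) = (ins (edg σ t) A).card := by
  unfold edgesIn
  rw [← Set.ncard_coe_finset]
  congr 1
  ext e
  rw [Finset.mem_coe, mem_ins]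
  induction e using Sym2.ind with
  | _ u v =>
    simp only [Set.mem_setOf_eq, SimpleGraph.mem_edgeSet, proc_adj_iff, Finset.mem_coe]

theorem hits_iff (d : ℕ) : Hits d (proc σ t) ↔ Hit d σ t := by
  unfold Hits Hit
  rw [kCore_eq, edgesIn_eq, Set.ncard_coe_finset, Finset.coe_nonempty]
  rfl

theorem isStop_iff (d : ℕ) : IsStop d σ t ↔ Stop d σ t := by
  unfold IsStop Stop
  simp only [hits_iff]

theorem rigid_iff (d : ℕ) (A : Finset (Fin n)) :
    IsRigid d ((proc σ t).induce (A : Set (Fin n))) ↔
      rk ℝ d (ins (edg σ t) A) = rk ℝ d (Kn A) := by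
  classical
  rw [isRigid_induce_iff, edgeFinset_proc]

theorem giant_of_goodRk (d : ℕ) (h : GoodRk d σ) : GiantAtStop d σ := by
  classical
  obtain ⟨t, ht, hstop, h1, h2, h3⟩ := h
  refine ⟨t, ht, (isStop_iff σ t d).2 hstop, ?_, ?_⟩
  · intro s hs A hA
    by_contra hcon
    have hr := hA.prop
    have e1 : A = (A.toFinset : Set (Fin n)) := by simp
    rw [e1, rigid_iff] at hr
    refine h1 s hs A.toFinset ?_ hr
    rw [e1, Set.ncard_coe_finset] at hcon
    omega
  · rw [hatCore_eq]
    refine ⟨?_, ?_⟩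
    · show IsRigid d _
      rw [rigid_iff]
      exact h2
    · intro B hB hle
      have e1 : B = (B.toFinset : Set (Fin n)) := by simp
      change IsRigid d _ at hB
      rw [e1, rigid_iff] at hB
      have h4 : hat d (edg σ t) ⊆ B.toFinset := by
        intro w hw
        rw [Set.mem_toFinset]
        exact hle (by exact_mod_cast hw)
      have h5 := h3 B.toFinset h4 hB
      rw [e1, h5]

end bridge

theorem giant_whp (d : ℕ) (hd : 2 ≤ d) :
    Filter.Tendsto (fun n : ℕ => (Nat.card {σ : Ord n // GiantAtStop d σ} : ℝ) / Nat.card (Ord n))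
      Filter.atTop (nhds 1) := by
  classical
  obtain ⟨lam, hl, hAN⟩ := exists_AN d hd
  rw [Metric.tendsto_atTop]
  intro ε hε
  obtain ⟨n₀, h⟩ := good_whp d hd lam hl hAN (ε / 2) (by linarith)
  refine ⟨n₀, fun n hn => ?_⟩
  have h1 := h n hn
  have h2 : prob n (fun σ => ¬ GiantAtStop d σ) ≤ ε / 2 :=
    (prob_mono fun σ hσ hc => hσ (giant_of_goodRk σ d hc)).trans h1
  rw [prob_not] at h2
  have h3 : (Nat.card {σ : Ord n // GiantAtStop d σ} : ℝ) / Nat.card (Ord n) =
      prob n (fun σ => GiantAtStop d σ) := by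
    unfold prob
    rw [Nat.card_eq_fintype_card, Nat.card_eq_fintype_card, Fintype.card_subtype]
  rw [h3, Real.dist_eq, abs_lt]
  have h4 := prob_le_one (n := n) (fun σ => GiantAtStop d σ)
  constructor <;> linarith

end Pool.Agent.Helper50.RG
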