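import Pool.Agent.Helper50.RG.RkK

/-!
# RG-8 : large complete bipartite graphs are rigid

Let `D = (d + 1) (d + 2) / 2` be the number of monomials of degree `2` in `d + 1` variables, and let
`X`, `Y` be disjoint with at least `D` vertices each (take `m₀ = D`, or anything larger). Over `ℝ`
choose a generic placement `p` with the additional polynomial condition (see `exists_generic`) that
for some choice of `D` vertices of `X` the quadratic forms on `ℝ^(d+1)` are determined by their
values at `(p x, 1)` (the determinant of the matrix of all monomials `z_i z_j`, `i ≤ j`, at the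
points `(p x, 1)`; it is not the zero polynomial as the monomials are linearly independent
functions), and in the same way for `Y`. (Alternatively use an algebraically independent placement.)
In particular the vectors `(p x, 1)` span `ℝ^(d+1)`.

Let `m` be a motion of `bip X Y`. Put `P v = (p v, 1)` and `Q v = (m v, - m v ⬝ p v)`
in `ℝ^(d+1)`. The equation of the pair `x y` is `Q x ⬝ P y + Q y ⬝ P x = 0`. As the `P y` span,
`Q x = T (P x)` for all `x ∈ X` with a linear map `T` (choose `d + 1` vertices `y_j` with `P y_j` a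
basis; `T` is defined by `T z ⬝ P y_j = - Q y_j ⬝ z`). Then `Q y = - Tᵗ (P y)` for all `y ∈ Y`
(the `P x` span). Also `Q v ⬝ P v = 0` for all `v`. So the quadratic form `z ⬝ T z` vanishes at all
`P x`, `x ∈ X`, hence it is zero, so `Tᵗ = -T`, and `Q v = T (P v)` for all `v ∈ X ∪ Y`. Hence
`Q u ⬝ P v + Q v ⬝ P u = 0` for all `u, v ∈ X ∪ Y`, i.e. `m` satisfies all pairs of `X ∪ Y`. So all
their rows are in the span of the rows of `bip X Y`.

(Implementation: instead of a generic placement we use a placement which maps `X` and `Y` onto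
`{0, 1, -1}^d`; its rank is a lower bound of the generic rank, and the upper bound is `rk_Kn`.)
-/

set_option autoImplicit false

namespace Pool.Agent.Helper50.RG

open Finset

/-- the vector `(1, x)` -/
private def PV {d : ℕ} (x : Fin d → ℝ) : Fin (d + 1) → ℝ := Fin.cons 1 x

/-- the vector `(-m ⬝ x, m)` -/
private def QV {d : ℕ} (x m : Fin d → ℝ) : Fin (d + 1) → ℝ := Fin.cons (-∑ i, m i * x i) m

private theorem bip_pair {d : ℕ} {x y m n : Fin d → ℝ}
    (h : ∑ i, (x i - y i) * (m i - n i) = 0) :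
    ∑ k, QV x m k * PV y k + ∑ k, QV y n k * PV x k = 0 := by
  simp only [QV, PV, Fin.sum_univ_succ, Fin.cons_zero, Fin.cons_succ, mul_one]
  have h1 : ∑ i, (x i - y i) * (m i - n i) =
      (∑ i, m i * x i) - (∑ i, m i * y i) + (∑ i, n i * y i) - (∑ i, n i * x i) := by
    rw [← Finset.sum_sub_distrib, ← Finset.sum_add_distrib, ← Finset.sum_sub_distrib]
    exact Finset.sum_congr rfl fun i _ => by ring
  linarith

private theorem bip_self {d : ℕ} (x m : Fin d → ℝ) : ∑ k, QV x m k * PV x k = 0 := by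
  simp only [QV, PV, Fin.sum_univ_succ, Fin.cons_zero, Fin.cons_succ, mul_one]
  ring

private theorem sum_P0 {d : ℕ} {x : Fin d → ℝ} (hx : x = 0) (f : Fin (d + 1) → ℝ) :
    ∑ k, f k * PV x k = f 0 := by
  simp [hx, PV, Fin.sum_univ_succ]

private theorem sum_P1 {d : ℕ} {x : Fin d → ℝ} {i : Fin d} {s : ℝ} (hx : x = Pi.single i s)
    (f : Fin (d + 1) → ℝ) : ∑ k, f k * PV x k = f 0 + s * f i.succ := by
  simp [hx, PV, Fin.sum_univ_succ, Pi.single_apply, mul_comm]

private theorem sum_P2 {d : ℕ} {x : Fin d → ℝ} {i j : Fin d}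
    (hx : x = Pi.single i 1 + Pi.single j 1) (f : Fin (d + 1) → ℝ) :
    ∑ k, f k * PV x k = f 0 + f i.succ + f j.succ := by
  simp [hx, PV, Fin.sum_univ_succ, Pi.single_apply, mul_add, Finset.sum_add_distrib, add_assoc]

private theorem bip_skew {d : ℕ} {V : Type} {X Y : Finset V} {p m : V → Fin d → ℝ}
    (hm : ∀ x ∈ X, ∀ y ∈ Y, ∑ i, (p x i - p y i) * (m x i - m y i) = 0)
    (hX0 : ∃ x ∈ X, p x = 0) (hX1 : ∀ i, ∃ x ∈ X, p x = Pi.single i 1)
    (hX2 : ∀ i, ∃ x ∈ X, p x = Pi.single i (-1))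
    (hX3 : ∀ i j, i ≠ j → ∃ x ∈ X, p x = Pi.single i 1 + Pi.single j 1)
    (hY0 : ∃ x ∈ Y, p x = 0) (hY1 : ∀ i, ∃ x ∈ Y, p x = Pi.single i 1) :
    ∃ T : Fin (d + 1) → Fin (d + 1) → ℝ, (∀ j k, T j k = - T k j) ∧
      ∀ v, v ∈ X ∨ v ∈ Y → ∀ k, QV (p v) (m v) k = ∑ l, T k l * PV (p v) l := by
  obtain ⟨y0, hy0, hpy0⟩ := hY0
  choose y1 hy1 hpy1 using hY1
  have heq : ∀ x ∈ X, ∀ y ∈ Y,
      ∑ k, QV (p x) (m x) k * PV (p y) k + ∑ k, QV (p y) (m y) k * PV (p x) k = 0 :=
    fun x hx y hy => bip_pair (hm x hx y hy)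
  let T : Fin (d + 1) → Fin (d + 1) → ℝ :=
    Fin.cons (fun k => -QV (p y0) (m y0) k)
      (fun i k => -(QV (p (y1 i)) (m (y1 i)) k - QV (p y0) (m y0) k))
  have hT0 : ∀ k, T 0 k = -QV (p y0) (m y0) k := fun k => rfl
  have hT1 : ∀ i k, T (Fin.succ i) k =
    -(QV (p (y1 i)) (m (y1 i)) k - QV (p y0) (m y0) k) := fun i k => rfl
  have hTX : ∀ x ∈ X, ∀ j, QV (p x) (m x) j = ∑ k, T j k * PV (p x) k := by
    intro x hx j
    have h0 := heq x hx y0 hy0
    rw [sum_P0 hpy0] at h0
    refine Fin.cases ?_ (fun i => ?_) j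
    · have : ∑ k, T 0 k * PV (p x) k = -∑ k, QV (p y0) (m y0) k * PV (p x) k := by
        rw [← Finset.sum_neg_distrib]
        exact Finset.sum_congr rfl fun k _ => by rw [hT0]; ring
      rw [this]
      linarith
    · have h1 := heq x hx (y1 i) (hy1 i)
      rw [sum_P1 (hpy1 i)] at h1
      have : ∑ k, T (Fin.succ i) k * PV (p x) k =
          (∑ k, QV (p y0) (m y0) k * PV (p x) k) -
            ∑ k, QV (p (y1 i)) (m (y1 i)) k * PV (p x) k := by
        rw [← Finset.sum_sub_distrib]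
        exact Finset.sum_congr rfl fun k _ => by rw [hT1]; ring
      rw [this]
      linarith
  have hTY : ∀ y ∈ Y, ∀ k, QV (p y) (m y) k + ∑ j, T j k * PV (p y) j = 0 := by
    intro y hy
    have hr : ∀ x ∈ X, ∑ k, (QV (p y) (m y) k + ∑ j, T j k * PV (p y) j) * PV (p x) k = 0 := by
      intro x hx
      have h1 := heq x hx y hy
      have h2 : ∑ k, (QV (p y) (m y) k + ∑ j, T j k * PV (p y) j) * PV (p x) k =
          ∑ k, QV (p y) (m y) k * PV (p x) k +
            ∑ j, (∑ k, T j k * PV (p x) k) * PV (p y) j := by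
        simp only [add_mul, Finset.sum_add_distrib, Finset.sum_mul]
        congr 1
        rw [Finset.sum_comm]
        exact Finset.sum_congr rfl fun j _ => Finset.sum_congr rfl fun k _ => by ring
      rw [h2]
      have h3 : ∑ j, (∑ k, T j k * PV (p x) k) * PV (p y) j =
          ∑ j, QV (p x) (m x) j * PV (p y) j :=
        Finset.sum_congr rfl fun j _ => by rw [← hTX x hx j]
      rw [h3]
      linarith
    obtain ⟨x0, hx0, hpx0⟩ := hX0
    have h0 := hr x0 hx0
    rw [sum_P0 hpx0] at h0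
    intro k
    refine Fin.cases h0 (fun i => ?_) k
    obtain ⟨x1, hx1, hpx1⟩ := hX1 i
    have h1 := hr x1 hx1
    rw [sum_P1 hpx1] at h1
    linarith
  have hTq : ∀ x ∈ X, ∑ j, (∑ k, T j k * PV (p x) k) * PV (p x) j = 0 := by
    intro x hx
    rw [← bip_self (p x) (m x)]
    exact Finset.sum_congr rfl fun j _ => by rw [← hTX x hx j]
  have hT00 : T 0 0 = 0 := by
    obtain ⟨x0, hx0, hpx0⟩ := hX0
    have h := hTq x0 hx0
    rwa [sum_P0 hpx0, sum_P0 hpx0] at h
  have hTi : ∀ i : Fin d, T i.succ i.succ = 0 ∧ T 0 i.succ + T i.succ 0 = 0 := by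
    intro i
    obtain ⟨x1, hx1, hpx1⟩ := hX1 i
    obtain ⟨x2, hx2, hpx2⟩ := hX2 i
    have h1 := hTq x1 hx1
    have h2 := hTq x2 hx2
    rw [sum_P1 hpx1, sum_P1 hpx1, sum_P1 hpx1] at h1
    rw [sum_P1 hpx2, sum_P1 hpx2, sum_P1 hpx2] at h2
    constructor <;> linarith
  have hTij : ∀ i j : Fin d, i ≠ j → T i.succ j.succ + T j.succ i.succ = 0 := by
    intro i j hij
    obtain ⟨x, hx, hpx⟩ := hX3 i j hij
    have h := hTq x hx
    rw [sum_P2 hpx, sum_P2 hpx, sum_P2 hpx, sum_P2 hpx] at h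
    have h1 := hTi i
    have h2 := hTi j
    linarith [h1.1, h1.2, h2.1, h2.2]
  have hskew : ∀ j k, T j k = - T k j := by
    intro j k
    refine Fin.cases (Fin.cases ?_ (fun i => ?_) k) (fun i => Fin.cases ?_ (fun l => ?_) k) j
    · linarith
    · linarith [(hTi i).2]
    · linarith [(hTi i).2]
    · by_cases h : i = l
      · subst h
        linarith [(hTi i).1]
      · linarith [hTij i l h]
  refine ⟨T, hskew, ?_⟩
  rintro v (hv | hv) k
  · exact hTX v hv k
  · have h1 := hTY v hv k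
    have h2 : ∑ j, T j k * PV (p v) j = -∑ j, T k j * PV (p v) j := by
      rw [← Finset.sum_neg_distrib]
      exact Finset.sum_congr rfl fun j _ => by rw [hskew j k]; ring
    linarith

/-- skew matrices, parametrised by the pairs of indices -/
private noncomputable def skewOf {d : ℕ}
    (c : {e : Sym2 (Fin (d + 1)) // ¬ e.IsDiag} → ℝ) (j k : Fin (d + 1)) : ℝ :=
  if h : j = k then 0
  else if j < k then c ⟨s(j, k), by simpa using h⟩ else - c ⟨s(j, k), by simpa using h⟩

private theorem skewOf_surj {d : ℕ} {T : Fin (d + 1) → Fin (d + 1) → ℝ}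
    (hT : ∀ j k, T j k = - T k j) : ∃ c, ∀ j k, skewOf c j k = T j k := by
  refine ⟨fun e => T (Sym2.inf e.1) (Sym2.sup e.1), fun j k => ?_⟩
  unfold skewOf
  by_cases h : j = k
  · subst h
    rw [dif_pos rfl]
    linarith [hT j j]
  · rw [dif_neg h]
    rcases lt_or_gt_of_ne h with h1 | h1
    · rw [if_pos h1]
      simp [h1.le]
    · rw [if_neg h1.le.not_gt]
      simp only [Sym2.inf_mk, Sym2.sup_mk]
      rw [inf_eq_right.2 h1.le, sup_eq_left.2 h1.le]
      linarith [hT j k]

private theorem skewOf_add {d : ℕ} (a b : {e : Sym2 (Fin (d + 1)) // ¬ e.IsDiag} → ℝ)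
    (j k : Fin (d + 1)) : skewOf (a + b) j k = skewOf a j k + skewOf b j k := by
  unfold skewOf
  split_ifs
  · simp
  · rfl
  · simp only [Pi.add_apply]
    ring

private theorem skewOf_smul {d : ℕ} (r : ℝ) (a : {e : Sym2 (Fin (d + 1)) // ¬ e.IsDiag} → ℝ)
    (j k : Fin (d + 1)) : skewOf (r • a) j k = r * skewOf a j k := by
  unfold skewOf
  split_ifs
  · simp
  · rfl
  · simp only [Pi.smul_apply, smul_eq_mul]
    ring

/-- all trivial motions on `A`, arbitrary outside -/
private noncomputable def bipMap {V : Type} [DecidableEq V] {d : ℕ} (p : V → Fin d → ℝ)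
    (A : Finset V) :
    (({e : Sym2 (Fin (d + 1)) // ¬ e.IsDiag} → ℝ) × ({v : V // v ∉ A} → Fin d → ℝ)) →ₗ[ℝ]
      (V → Fin d → ℝ) where
  toFun c v i := if h : v ∈ A then ∑ l, skewOf c.1 i.succ l * PV (p v) l else c.2 ⟨v, h⟩ i
  map_add' a b := by
    funext v i
    by_cases h : v ∈ A
    · simp only [h, dif_pos, Prod.fst_add, Pi.add_apply, skewOf_add, add_mul,
        Finset.sum_add_distrib]
    · simp only [h, dif_neg, not_false_eq_true, Prod.snd_add, Pi.add_apply]
  map_smul' r a := by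
    funext v i
    by_cases h : v ∈ A
    · simp only [h, dif_pos, Prod.smul_fst, Pi.smul_apply, skewOf_smul, smul_eq_mul,
        RingHom.id_apply, Finset.mul_sum, mul_assoc]
    · simp only [h, dif_neg, not_false_eq_true, Prod.smul_snd, Pi.smul_apply, RingHom.id_apply]

private theorem bip_rkAt {V : Type} [Fintype V] [DecidableEq V] {d : ℕ} {X Y : Finset V}
    {p : V → Fin d → ℝ}
    (hX0 : ∃ x ∈ X, p x = 0) (hX1 : ∀ i, ∃ x ∈ X, p x = Pi.single i 1)
    (hX2 : ∀ i, ∃ x ∈ X, p x = Pi.single i (-1))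
    (hX3 : ∀ i j, i ≠ j → ∃ x ∈ X, p x = Pi.single i 1 + Pi.single j 1)
    (hY0 : ∃ x ∈ Y, p x = 0) (hY1 : ∀ i, ∃ x ∈ Y, p x = Pi.single i 1) :
    d * (X ∪ Y).card ≤ rkAt p (bip X Y) + KK d := by
  have hle : motSp p (bip X Y) ≤ LinearMap.range (bipMap p (X ∪ Y)) := by
    intro m hm
    have hm1 : ∀ x ∈ X, ∀ y ∈ Y, ∑ i, (p x i - p y i) * (m x i - m y i) = 0 := by
      intro x hx y hy
      refine hm x y ?_
      rw [bip, Finset.mem_image]
      exact ⟨(x, y), Finset.mem_product.2 ⟨hx, hy⟩, rfl⟩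
    obtain ⟨T, hT, hTm⟩ := bip_skew hm1 hX0 hX1 hX2 hX3 hY0 hY1
    obtain ⟨c, hc⟩ := skewOf_surj hT
    refine ⟨(c, fun v => m v), ?_⟩
    funext v i
    change (if h : v ∈ X ∪ Y then ∑ l, skewOf c i.succ l * PV (p v) l else m v i) = m v i
    split_ifs with h
    · have h1 := hTm v (Finset.mem_union.1 h) i.succ
      have h2 : QV (p v) (m v) i.succ = m v i := rfl
      rw [h2] at h1
      rw [h1]
      exact Finset.sum_congr rfl fun l _ => by rw [hc]
    · rfl
  have h1 : Module.finrank ℝ (motSp p (bip X Y)) ≤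
      Module.finrank ℝ (({e : Sym2 (Fin (d + 1)) // ¬ e.IsDiag} → ℝ) ×
        ({v : V // v ∉ X ∪ Y} → Fin d → ℝ)) :=
    (Submodule.finrank_mono hle).trans (LinearMap.finrank_range_le _)
  have h2 : Module.finrank ℝ (({e : Sym2 (Fin (d + 1)) // ¬ e.IsDiag} → ℝ) ×
        ({v : V // v ∉ X ∪ Y} → Fin d → ℝ)) = KK d + (Fintype.card V - (X ∪ Y).card) * d := by
    rw [Module.finrank_prod, Module.finrank_fintype_fun_eq_card, Sym2.card_subtype_not_diag,
      Fintype.card_fin, Module.finrank_pi_fintype]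
    simp only [Module.finrank_fintype_fun_eq_card, Fintype.card_fin, Finset.sum_const,
      Finset.card_univ, smul_eq_mul]
    have h3 : Fintype.card {v : V // v ∉ X ∪ Y} = Fintype.card V - (X ∪ Y).card := by
      rw [Fintype.card_of_subtype (X ∪ Y)ᶜ (by intro v; simp), Finset.card_compl]
    rw [h3]
    rfl
  have h4 := finrank_mot p (bip X Y)
  rw [h2] at h1
  have h5 : (X ∪ Y).card ≤ Fintype.card V := Finset.card_le_univ _
  obtain ⟨n, hn⟩ := Nat.exists_eq_add_of_le h5
  rw [hn] at h1 h4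
  rw [Nat.add_sub_cancel_left] at h1
  have h6 : d * ((X ∪ Y).card + n) = d * (X ∪ Y).card + n * d := by ring
  rw [h6] at h4
  omega

private def c3 : Fin 3 → ℝ := ![0, 1, -1]

private theorem exists_place {V : Type} {d : ℕ} (X : Finset V)
    (hX : 3 ^ d ≤ X.card) :
    ∃ f : V → (Fin d → Fin 3), ∀ θ, ∃ x ∈ X, f x = θ := by
  classical
  have h1 : Fintype.card (Fin d → Fin 3) ≤ Fintype.card X := by
    simpa using hX
  obtain ⟨g⟩ := Function.Embedding.nonempty_of_card_le h1
  have hinj : Function.Injective (fun θ => (g θ : V)) :=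
    Subtype.val_injective.comp g.injective
  refine ⟨Function.invFun (fun θ => (g θ : V)), fun θ => ⟨g θ, (g θ).2, ?_⟩⟩
  exact Function.leftInverse_invFun hinj θ

theorem exists_bip_rigid (d : ℕ) : ∃ m₀ : ℕ, ∀ (V : Type) [Fintype V] [DecidableEq V]
    (X Y : Finset V), Disjoint X Y → m₀ ≤ X.card → m₀ ≤ Y.card → ClK ℝ d (bip X Y) (X ∪ Y) := by
  refine ⟨3 ^ d, ?_⟩
  intro V _ _ X Y hXY hX hY
  obtain ⟨f, hf⟩ := exists_place X hX
  obtain ⟨g, hg⟩ := exists_place Y hY
  let p : V → Fin d → ℝ := fun v i => if v ∈ X then c3 (f v i) else c3 (g v i)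
  have hpX : ∀ θ : Fin d → Fin 3, ∃ x ∈ X, p x = fun i => c3 (θ i) := by
    intro θ
    obtain ⟨x, hx, hθ⟩ := hf θ
    refine ⟨x, hx, ?_⟩
    funext i
    change (if x ∈ X then c3 (f x i) else c3 (g x i)) = _
    rw [if_pos hx, hθ]
  have hpY : ∀ θ : Fin d → Fin 3, ∃ x ∈ Y, p x = fun i => c3 (θ i) := by
    intro θ
    obtain ⟨x, hx, hθ⟩ := hg θ
    refine ⟨x, hx, ?_⟩
    funext i
    change (if x ∈ X then c3 (f x i) else c3 (g x i)) = _
    rw [if_neg (fun h => Finset.disjoint_left.1 hXY h hx), hθ]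
  have e0 : (fun _ : Fin d => c3 0) = 0 := by
    funext i
    simp [c3]
  have e1 : ∀ i : Fin d, (fun j => c3 (if j = i then 1 else 0)) = Pi.single i 1 := by
    intro i
    funext j
    by_cases h : j = i
    · subst h
      simp [c3]
    · simp [h, c3]
  have e2 : ∀ i : Fin d, (fun j => c3 (if j = i then 2 else 0)) = Pi.single i (-1) := by
    intro i
    funext j
    by_cases h : j = i
    · subst h
      simp [c3]
    · simp [h, c3]
  have e3 : ∀ i k : Fin d, i ≠ k → (fun j => c3 (if j = i ∨ j = k then 1 else 0)) =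
      Pi.single i 1 + Pi.single k 1 := by
    intro i k hik
    funext j
    by_cases h : j = i
    · subst h
      simp [hik, c3]
    · by_cases h' : j = k
      · subst h'
        simp [h, c3]
      · simp [h, h', c3]
  have hmain : d * (X ∪ Y).card ≤ rkAt p (bip X Y) + KK d := by
    refine bip_rkAt ?_ ?_ ?_ ?_ ?_ ?_
    · rw [← e0]; exact hpX _
    · intro i; rw [← e1]; exact hpX _
    · intro i; rw [← e2]; exact hpX _
    · intro i k hik; rw [← e3 i k hik]; exact hpX _
    · rw [← e0]; exact hpY _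
    · intro i; rw [← e1]; exact hpY _
  have hd : d ≤ (X ∪ Y).card :=
    (Nat.lt_pow_self (by norm_num : 1 < 3)).le.trans
      (hX.trans (Finset.card_le_card Finset.subset_union_left))
  have hKn := rk_Kn (F := ℝ) (V := V) (d := d) two_ne_zero hd
  intro u hu v hv huv
  have hsub : insert s(u, v) (bip X Y) ⊆ Kn (X ∪ Y) := by
    intro e he
    rw [Finset.mem_insert] at he
    rw [Kn, Finset.mem_filter, Finset.mem_sym2_iff]
    rcases he with rfl | he
    · refine ⟨?_, by simpa using huv⟩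
      intro a ha
      rcases Sym2.mem_iff.1 ha with rfl | rfl
      · exact hu
      · exact hv
    · rw [bip, Finset.mem_image] at he
      obtain ⟨⟨x, y⟩, hxy, rfl⟩ := he
      rw [Finset.mem_product] at hxy
      refine ⟨?_, ?_⟩
      · intro a ha
        rcases Sym2.mem_iff.1 ha with rfl | rfl
        · exact Finset.mem_union_left _ hxy.1
        · exact Finset.mem_union_right _ hxy.2
      · intro h
        have h1 : x = y := by simpa using h
        exact Finset.disjoint_left.1 hXY hxy.1 (by rw [h1]; exact hxy.2)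
  apply le_antisymm
  · have h1 := rk_mono (F := ℝ) (d := d) hsub
    have h2 := rkAt_le_rk p (bip X Y)
    omega
  · exact rk_mono (Finset.subset_insert _ _)

end Pool.Agent.Helper50.RG
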