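import Pool.Agent.Helper50.RG.Ktt
import Pool.Agent.Helper50.RG.RkBip
import Pool.Agent.Helper50.RG.RkC

/-!
# RG-22 : a dense closed set contains a clique of linear size

Let `R u v` mean `u ≠ v` and `Cl ℝ d E s(u, v)`. Let `m = max m₀ (d+1)` (`exists_bip_rigid`). By
`many_ktt` there are at least `c n^(2m)` injective `z : Fin m ⊕ Fin m → V` with all pairs
`z (inl i), z (inr j)` in the closure of `E`; by `exists_bip_rigid`, monotonicity and transitivity
of the closure (`cl_mono`, `cl_trans`) the image of `z` is a clique: `ClK ℝ d E (image of z)`.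
Let `w` be the largest size of a clique. For a given injective `d`-tuple `t` the cliques which
contain the image of `t` are all contained in one of them (`clK_union`), so there are at most
`w^(2m-d)` of the `z` whose first `d` values are `t`. So `c n^(2m) ≤ n^d w^(2m-d)`.
-/

set_option autoImplicit false

namespace Pool.Agent.Helper50.RG

open Finset

section

variable {V : Type} [Fintype V] [DecidableEq V] {d : ℕ} {E : Finset (Sym2 V)}

private theorem flat_clique {m : ℕ}
    (hbip : ∀ (X Y : Finset V), Disjoint X Y → m ≤ X.card → m ≤ Y.card →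
      ClK ℝ d (bip X Y) (X ∪ Y))
    {z : Fin m ⊕ Fin m → V} (hz : Function.Injective z)
    (hR : ∀ i j, Cl ℝ d E s(z (Sum.inl i), z (Sum.inr j))) :
    ClK ℝ d E (univ.image z) := by
  set X : Finset V := univ.image (fun i : Fin m => z (Sum.inl i)) with hX
  set Y : Finset V := univ.image (fun i : Fin m => z (Sum.inr i)) with hY
  have hXY : univ.image z = X ∪ Y := by
    ext v
    simp only [hX, hY, mem_image, mem_univ, true_and, mem_union]
    constructor
    · rintro ⟨a, rfl⟩
      rcases a with i | i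
      · exact Or.inl ⟨i, rfl⟩
      · exact Or.inr ⟨i, rfl⟩
    · rintro (⟨i, rfl⟩ | ⟨i, rfl⟩)
      · exact ⟨_, rfl⟩
      · exact ⟨_, rfl⟩
  have hXc : X.card = m := by
    rw [hX, Finset.card_image_of_injective]
    · simp
    · intro i j hij
      exact Sum.inl_injective (hz hij)
  have hYc : Y.card = m := by
    rw [hY, Finset.card_image_of_injective]
    · simp
    · intro i j hij
      exact Sum.inr_injective (hz hij)
  have hdis : Disjoint X Y := by
    rw [Finset.disjoint_left]
    intro v hv hv'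
    simp only [hX, hY, mem_image, mem_univ, true_and] at hv hv'
    obtain ⟨i, rfl⟩ := hv
    obtain ⟨j, hj⟩ := hv'
    exact absurd (hz hj) (by simp)
  have hK := hbip X Y hdis (le_of_eq hXc.symm) (le_of_eq hYc.symm)
  rw [hXY]
  intro u hu v hv huv
  have h1 := hK u hu v hv huv
  refine cl_trans (S := bip X Y) ?_ (cl_mono Finset.subset_union_right h1)
  intro f hf
  unfold bip at hf
  simp only [mem_image, mem_product, hX, hY, mem_univ, true_and, Prod.exists] at hf
  obtain ⟨a, b, ⟨⟨i, rfl⟩, ⟨j, rfl⟩⟩, rfl⟩ := hf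
  exact hR i j

/-- all cliques which contain `T` are contained in one of them -/
private theorem flat_max (T : Finset V) (hT : d ≤ T.card) (hK : ClK ℝ d E T) :
    ∃ U : Finset V, ClK ℝ d E U ∧ ∀ A : Finset V, T ⊆ A → ClK ℝ d E A → A ⊆ U := by
  classical
  have hne : (univ.filter (fun A : Finset V => T ⊆ A ∧ ClK ℝ d E A)).Nonempty :=
    ⟨T, by simp [hK]⟩
  obtain ⟨U, hU, hmax⟩ := Finset.exists_max_image _ Finset.card hne
  simp only [mem_filter, mem_univ, true_and] at hU hmax
  refine ⟨U, hU.2, ?_⟩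
  intro A hTA hA
  have hun : ClK ℝ d E (A ∪ U) := by
    refine clK_union two_ne_zero ?_ hA hU.2
    exact hT.trans (Finset.card_le_card (Finset.subset_inter hTA hU.1))
  have h1 := hmax (A ∪ U) ⟨hTA.trans Finset.subset_union_left, hun⟩
  have h2 : U = A ∪ U := Finset.eq_of_subset_of_card_le Finset.subset_union_right h1
  rw [h2]
  exact Finset.subset_union_left

private theorem flat_fiber {m w : ℕ} (hdm : d ≤ m) (Z : Finset (Fin m ⊕ Fin m → V))
    (hZi : ∀ z ∈ Z, Function.Injective z) (hZ : ∀ z ∈ Z, ClK ℝ d E (univ.image z))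
    (hw : ∀ A : Finset V, ClK ℝ d E A → A.card ≤ w) (t : Fin d → V) :
    (Z.filter (fun z => (fun i : Fin d => z (Sum.inl (Fin.castLE hdm i))) = t)).card ≤
      w ^ (2 * m - d) := by
  classical
  by_cases hemp : (Z.filter (fun z => (fun i : Fin d => z (Sum.inl (Fin.castLE hdm i))) = t)) = ∅
  · rw [hemp]; simp
  obtain ⟨z₀, hz₀⟩ := Finset.nonempty_iff_ne_empty.mpr hemp
  rw [mem_filter] at hz₀
  have htinj : Function.Injective t := by
    rw [← hz₀.2]
    intro i j hij
    have h1 := Sum.inl_injective (hZi z₀ hz₀.1 hij)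
    exact (Fin.castLE_injective hdm) h1
  have himg : ∀ z ∈ Z, (fun i : Fin d => z (Sum.inl (Fin.castLE hdm i))) = t →
      univ.image t ⊆ univ.image z := by
    intro z _ hzt v hv
    simp only [mem_image, mem_univ, true_and] at hv ⊢
    obtain ⟨i, rfl⟩ := hv
    exact ⟨_, congrFun hzt i⟩
  have hTc : (univ.image t).card = d := by
    rw [Finset.card_image_of_injective _ htinj]; simp
  have hTK : ClK ℝ d E (univ.image t) := by
    intro u hu v hv huv
    exact hZ z₀ hz₀.1 u (himg z₀ hz₀.1 hz₀.2 hu) v (himg z₀ hz₀.1 hz₀.2 hv) huv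
  obtain ⟨U, hU, hUmax⟩ := flat_max (univ.image t) (le_of_eq hTc.symm) hTK
  -- the fibre is contained in a product
  have hsub : (Z.filter (fun z => (fun i : Fin d => z (Sum.inl (Fin.castLE hdm i))) = t)) ⊆
      Fintype.piFinset (fun j : Fin m ⊕ Fin m =>
        Sum.elim (fun i : Fin m => if h : (i : ℕ) < d then ({t ⟨i, h⟩} : Finset V) else U)
          (fun _ => U) j) := by
    intro z hz
    rw [mem_filter] at hz
    rw [Fintype.mem_piFinset]
    have hzU : ∀ j, z j ∈ U := by
      intro j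
      exact hUmax _ (himg z hz.1 hz.2) (hZ z hz.1) (Finset.mem_image_of_mem z (mem_univ j))
    intro j
    rcases j with i | i
    · simp only [Sum.elim_inl]
      split_ifs with h
      · rw [mem_singleton]
        have h1 := congrFun hz.2 ⟨i, h⟩
        simpa using h1
      · exact hzU _
    · exact hzU _
  refine (Finset.card_le_card hsub).trans ?_
  rw [Fintype.card_piFinset, Fintype.prod_sum_type]
  simp only [Sum.elim_inl, Sum.elim_inr]
  have h1 : ∏ i : Fin m, (if h : (i : ℕ) < d then ({t ⟨i, h⟩} : Finset V) else U).card =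
      U.card ^ (m - d) := by
    have h2 : ∀ i : Fin m, (if h : (i : ℕ) < d then ({t ⟨i, h⟩} : Finset V) else U).card =
        if (i : ℕ) < d then 1 else U.card := by
      intro i
      split_ifs <;> simp
    rw [Finset.prod_congr rfl (fun i _ => h2 i)]
    rw [Fin.prod_univ_eq_prod_range (fun i => if i < d then 1 else U.card) m]
    rw [Finset.prod_ite]
    simp only [prod_const_one, one_mul, prod_const]
    congr 1
    have h3 : (range m).filter (fun x => ¬ x < d) = Finset.Ico d m := by
      ext x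
      simp only [mem_filter, mem_range, not_lt, mem_Ico]
      tauto
    rw [h3, Nat.card_Ico]
  rw [h1]
  simp only [prod_const, card_univ, Fintype.card_fin]
  rw [← pow_add]
  have h4 : m - d + m = 2 * m - d := by omega
  rw [h4]
  exact Nat.pow_le_pow_left (hw U hU) _

end

open Classical in
theorem exists_linear_clique (d : ℕ) (hd : 1 ≤ d) (κ : ℝ) (hκ : 0 < κ) :
    ∃ κ₁ : ℝ, κ₁ > 0 ∧ ∃ n₀ : ℕ,
    ∀ (V : Type) [Fintype V] [DecidableEq V] (E : Finset (Sym2 V)), n₀ ≤ Fintype.card V →
    κ * (Fintype.card V : ℝ) ^ 2 ≤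
      ((univ.filter (fun p : V × V => p.1 ≠ p.2 ∧ Cl ℝ d E s(p.1, p.2))).card : ℝ) →
    ∃ W : Finset V, κ₁ * Fintype.card V ≤ W.card ∧ ClK ℝ d E W := by
  obtain ⟨m₀, hm₀⟩ := exists_bip_rigid d
  set m := max m₀ (d + 1) with hm
  have hm1 : 1 ≤ m := by omega
  have hdm : d ≤ m := by omega
  have hmm : m₀ ≤ m := le_max_left _ _
  obtain ⟨c, hc, n₀, hktt⟩ := many_ktt m hm1 κ hκ
  refine ⟨min c 1, lt_min hc one_pos, max n₀ 1, ?_⟩
  intro V _ _ E hn hdense
  set n := Fintype.card V with hn'
  have hn0 : n₀ ≤ n := (le_max_left _ _).trans hn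
  have hn1 : 1 ≤ n := (le_max_right _ _).trans hn
  -- a largest clique
  have hne : (univ.filter (fun A : Finset V => ClK ℝ d E A)).Nonempty :=
    ⟨∅, by
      rw [mem_filter]
      exact ⟨mem_univ _, fun u hu => absurd hu (notMem_empty u)⟩⟩
  obtain ⟨W, hW, hmax⟩ := Finset.exists_max_image _ Finset.card hne
  simp only [mem_filter, mem_univ, true_and] at hW hmax
  refine ⟨W, ?_, hW⟩
  have hZ := hktt V hn0 (fun u v => u ≠ v ∧ Cl ℝ d E s(u, v)) (by
    intro x y hxy
    refine ⟨hxy.1.symm, ?_⟩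
    rw [Sym2.eq_swap]
    exact hxy.2) (by convert hdense)
  set Z := (univ.filter (fun z : Fin m ⊕ Fin m → V => Function.Injective z ∧
        ∀ i j, z (Sum.inl i) ≠ z (Sum.inr j) ∧ Cl ℝ d E s(z (Sum.inl i), z (Sum.inr j)))) with hZdef
  have hcount : Z.card ≤ n ^ d * W.card ^ (2 * m - d) := by
    have hZi : ∀ z ∈ Z, Function.Injective z := by
      intro z hz
      rw [hZdef, mem_filter] at hz
      exact hz.2.1
    have hZc : ∀ z ∈ Z, ClK ℝ d E (univ.image z) := by
      intro z hz
      rw [hZdef, mem_filter] at hz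
      exact flat_clique (fun X Y h1 h2 h3 => hm₀ V X Y h1 (hmm.trans h2) (hmm.trans h3))
        hz.2.1 (fun i j => (hz.2.2 i j).2)
    have h1 := Finset.card_eq_sum_card_fiberwise (s := Z) (t := (univ : Finset (Fin d → V)))
      (f := fun z => (fun i : Fin d => z (Sum.inl (Fin.castLE hdm i)))) (by simp)
    rw [h1]
    calc ∑ t : Fin d → V,
          (Z.filter (fun z => (fun i : Fin d => z (Sum.inl (Fin.castLE hdm i))) = t)).card
        ≤ ∑ t : Fin d → V, W.card ^ (2 * m - d) :=
          Finset.sum_le_sum (fun t _ => flat_fiber hdm Z hZi hZc hmax t)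
      _ = n ^ d * W.card ^ (2 * m - d) := by
          rw [Finset.sum_const, smul_eq_mul]
          simp [hn']
  have hreal : c * (n : ℝ) ^ (2 * m) ≤ (n : ℝ) ^ d * (W.card : ℝ) ^ (2 * m - d) := by
    have hZ' : c * (n : ℝ) ^ (2 * m) ≤ ((Z.card : ℕ) : ℝ) := by
      refine hZ.trans (le_of_eq ?_)
      rw [hZdef]
      congr!
    refine hZ'.trans ?_
    have h2 : ((Z.card : ℕ) : ℝ) ≤ ((n ^ d * W.card ^ (2 * m - d) : ℕ) : ℝ) := by
      exact_mod_cast hcount
    push_cast at h2
    exact h2
  have hnpos : (0 : ℝ) < n := by exact_mod_cast hn1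
  have hsplit : (n : ℝ) ^ (2 * m) = (n : ℝ) ^ d * (n : ℝ) ^ (2 * m - d) := by
    rw [← pow_add]
    congr 1
    omega
  rw [hsplit] at hreal
  have h3 : c * (n : ℝ) ^ (2 * m - d) ≤ (W.card : ℝ) ^ (2 * m - d) := by
    have h4 : (0 : ℝ) < (n : ℝ) ^ d := pow_pos hnpos d
    have h5 : (n : ℝ) ^ d * (c * (n : ℝ) ^ (2 * m - d)) ≤
        (n : ℝ) ^ d * (W.card : ℝ) ^ (2 * m - d) := by
      calc _ = c * ((n : ℝ) ^ d * (n : ℝ) ^ (2 * m - d)) := by ring
        _ ≤ _ := hreal
    exact le_of_mul_le_mul_left h5 h4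
  have hk0 : (0 : ℝ) < min c 1 := lt_min hc one_pos
  have hexp : 2 * m - d ≠ 0 := by omega
  have h6 : (min c 1 * (n : ℝ)) ^ (2 * m - d) ≤ (W.card : ℝ) ^ (2 * m - d) := by
    rw [mul_pow]
    refine le_trans (mul_le_mul_of_nonneg_right ?_ (by positivity)) h3
    calc (min c 1) ^ (2 * m - d) ≤ (min c 1) ^ 1 :=
          pow_le_pow_of_le_one hk0.le (min_le_right _ _) (by omega)
      _ = min c 1 := pow_one _
      _ ≤ c := min_le_left _ _
  exact (pow_le_pow_iff_left₀ (by positivity) (by positivity) hexp).mp h6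

end Pool.Agent.Helper50.RG
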