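import Mathlib

/-!
# RG-40 : a moment bound over a finite field

`cnt b ν` is the number of vertices with position `b` and velocity `ν`; every position has at most
`L` vertices. `S μ = ∑ {cnt b ν | (a - b) ⬝ (μ - ν) = 0}`. Expand:
`∑_μ S(μ)^i = ∑_{(b_1,ν_1), …, (b_i,ν_i)} ∏ cnt(b_j,ν_j) #{μ | (a - b_j) ⬝ (μ - ν_j) = 0 ∀ j}`, and the number
of solutions `μ` is at most `q^(d - r)`, `r` the rank of `a - b_1, …, a - b_i`. Let
`T_i = ∑_{b_1..b_i} ∏ load(b_j) q^(d - r)`. `T_0 = q^d`; for fixed `b_1, …, b_i` (`i + 1 ≤ d`, `r ≤ i`) the next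
sum over `b` is: either `a - b` is not in the span (factor `1/q`, total load at most `N`), or it is in
the span: at most `q^r ≤ q^(d-1)` positions, each with load at most `L`. So
`T_(i+1) ≤ T_i (N/q + L q^(d-1))`, and `L q^d = C₁ N`.
-/

set_option autoImplicit false

namespace Pool.Agent.Helper50.RG

open Finset

open Module

private theorem fqA_card {F : Type} [Field F] [Fintype F] {d : ℕ}
    (W : Submodule F (Fin d → F)) (A : Finset (Fin d → F))
    (hA : ∀ μ ∈ A, ∀ μ' ∈ A, ∀ w ∈ W, ∑ j, w j * (μ j - μ' j) = 0) :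
    (A.card : ℝ) ≤ (Fintype.card F : ℝ) ^ (d - finrank F W) := by
  classical
  rcases A.eq_empty_or_nonempty with h | ⟨μ₀, hμ₀⟩
  · rw [h]
    simp
  have hmem : ∀ μ ∈ A, dotProductEquiv F (Fin d) (μ - μ₀) ∈ W.dualAnnihilator := by
    intro μ hμ
    rw [Submodule.mem_dualAnnihilator]
    intro w hw
    have h1 := hA μ hμ μ₀ hμ₀ w hw
    rw [← h1]
    change (μ - μ₀) ⬝ᵥ w = _
    rw [dotProduct]
    exact Finset.sum_congr rfl fun j _ => by rw [Pi.sub_apply, mul_comm]
  have hfin : Finite W.dualAnnihilator := Module.finite_of_finite F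
  have h1 : Nat.card A ≤ Nat.card W.dualAnnihilator := by
    refine Nat.card_le_card_of_injective
      (fun μ : A => (⟨dotProductEquiv F (Fin d) (μ.1 - μ₀), hmem μ.1 μ.2⟩ : W.dualAnnihilator)) ?_
    intro μ μ' h
    have h2 := (dotProductEquiv F (Fin d)).injective (congrArg Subtype.val h)
    exact Subtype.ext (sub_left_injective h2)
  rw [Nat.card_eq_fintype_card, Fintype.card_coe, Module.natCard_eq_pow_finrank (K := F),
    Nat.card_eq_fintype_card] at h1
  have h2 := Subspace.finrank_add_finrank_dualAnnihilator_eq W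
  rw [Module.finrank_fin_fun] at h2
  have h3 : finrank F W.dualAnnihilator = d - finrank F W := by omega
  rw [h3] at h1
  exact_mod_cast h1

private theorem fqA_main {F : Type} [Field F] [Fintype F] [DecidableEq F] {d : ℕ}
    (cnt : (Fin d → F) → (Fin d → F) → ℕ) (N : ℕ) (hN : ∑ b, ∑ ν, cnt b ν = N) (C₁ : ℝ)
    (hC₁ : 0 ≤ C₁)
    (hL : ∀ b, ((∑ ν, cnt b ν : ℕ) : ℝ) ≤ C₁ * N / (Fintype.card F : ℝ) ^ d)
    (a : Fin d → F) (S : (Fin d → F) → ℕ)
    (hS : ∀ μ, S μ = ∑ b, ∑ ν, if ∑ j, (a j - b j) * (μ j - ν j) = 0 then cnt b ν else 0)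
    (i : ℕ) : ∀ (W : Submodule F (Fin d → F)) (A : Finset (Fin d → F)),
    finrank F W + i ≤ d →
    (∀ μ ∈ A, ∀ μ' ∈ A, ∀ w ∈ W, ∑ j, w j * (μ j - μ' j) = 0) →
    ∑ μ ∈ A, (S μ : ℝ) ^ i ≤
      ((1 + C₁) * N) ^ i * (Fintype.card F : ℝ) ^ (d - finrank F W - i) := by
  classical
  induction i with
  | zero =>
    intro W A _ hA
    simpa using fqA_card W A hA
  | succ i ih =>
    intro W A hr hA
    obtain ⟨e, he⟩ : ∃ e, d = finrank F W + i + 1 + e := ⟨d - (finrank F W + i + 1), by omega⟩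
    set q : ℝ := (Fintype.card F : ℝ) with hq
    have hq1 : 1 ≤ q := by
      rw [hq]
      exact_mod_cast Fintype.card_pos (α := F)
    have hq0 : 0 < q := by linarith
    set B : ℝ := ((1 + C₁) * N) ^ i with hB
    have hB0 : 0 ≤ B := by positivity
    have e1 : d - finrank F W - (i + 1) = e := by omega
    have e2 : d - finrank F W - i = e + 1 := by omega
    rw [e1]
    -- expand one factor
    have h1 : ∑ μ ∈ A, (S μ : ℝ) ^ (i + 1) = ∑ b, ∑ ν, (cnt b ν : ℝ) *
        ∑ μ ∈ A.filter (fun μ => ∑ j, (a j - b j) * (μ j - ν j) = 0), (S μ : ℝ) ^ i := by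
      have h2 : ∀ μ ∈ A, (S μ : ℝ) ^ (i + 1) = ∑ b, ∑ ν,
          (cnt b ν : ℝ) * (if ∑ j, (a j - b j) * (μ j - ν j) = 0 then (S μ : ℝ) ^ i else 0) := by
        intro μ _
        rw [pow_succ]
        have h3 : (S μ : ℝ) = ∑ b, ∑ ν,
            if ∑ j, (a j - b j) * (μ j - ν j) = 0 then (cnt b ν : ℝ) else 0 := by
          conv_lhs => rw [hS μ]
          push_cast
          rfl
        refine (congrArg (fun z : ℝ => (S μ : ℝ) ^ i * z) h3).trans ?_
        rw [Finset.mul_sum]
        refine Finset.sum_congr rfl fun b _ => ?_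
        rw [Finset.mul_sum]
        refine Finset.sum_congr rfl fun ν _ => ?_
        split_ifs <;> ring
      rw [Finset.sum_congr rfl h2, Finset.sum_comm]
      refine Finset.sum_congr rfl fun b _ => ?_
      rw [Finset.sum_comm]
      refine Finset.sum_congr rfl fun ν _ => ?_
      rw [← Finset.mul_sum, Finset.sum_filter]
    rw [h1]
    -- bound for each position
    have h2 : ∀ b : Fin d → F, ∑ ν, (cnt b ν : ℝ) *
        ∑ μ ∈ A.filter (fun μ => ∑ j, (a j - b j) * (μ j - ν j) = 0), (S μ : ℝ) ^ i ≤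
        (B * q ^ e) * (((∑ ν, cnt b ν : ℕ) : ℝ) +
          (if a - b ∈ W then q * (C₁ * N / q ^ d) else 0)) := by
      intro b
      by_cases hb : a - b ∈ W
      · rw [if_pos hb]
        have h3 : ∀ ν : Fin d → F, ∑ μ ∈ A.filter (fun μ => ∑ j, (a j - b j) * (μ j - ν j) = 0),
            (S μ : ℝ) ^ i ≤ B * q ^ (e + 1) := by
          intro ν
          have := ih W (A.filter (fun μ => ∑ j, (a j - b j) * (μ j - ν j) = 0)) (by omega) (by
            intro μ hμ μ' hμ' w hw
            exact hA μ (Finset.mem_filter.1 hμ).1 μ' (Finset.mem_filter.1 hμ').1 w hw)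
          rwa [e2] at this
        calc ∑ ν, (cnt b ν : ℝ) *
            ∑ μ ∈ A.filter (fun μ => ∑ j, (a j - b j) * (μ j - ν j) = 0), (S μ : ℝ) ^ i
            ≤ ∑ ν, (cnt b ν : ℝ) * (B * q ^ (e + 1)) :=
              Finset.sum_le_sum fun ν _ => mul_le_mul_of_nonneg_left (h3 ν) (Nat.cast_nonneg _)
          _ = ((∑ ν, cnt b ν : ℕ) : ℝ) * (B * q ^ (e + 1)) := by
              rw [← Finset.sum_mul]
              push_cast
              rfl
          _ = (B * q ^ e) * (q * ((∑ ν, cnt b ν : ℕ) : ℝ)) := by ring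
          _ ≤ (B * q ^ e) * (((∑ ν, cnt b ν : ℕ) : ℝ) + q * (C₁ * N / q ^ d)) := by
              refine mul_le_mul_of_nonneg_left ?_ (by positivity)
              have h4 := mul_le_mul_of_nonneg_left (hL b) hq0.le
              have h5 : (0 : ℝ) ≤ ((∑ ν, cnt b ν : ℕ) : ℝ) := Nat.cast_nonneg _
              linarith
      · rw [if_neg hb, add_zero]
        have hf : finrank F (W ⊔ Submodule.span F {a - b} : Submodule F (Fin d → F)) =
            finrank F W + 1 := Submodule.finrank_sup_span_singleton hb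
        have h3 : ∀ ν : Fin d → F, ∑ μ ∈ A.filter (fun μ => ∑ j, (a j - b j) * (μ j - ν j) = 0),
            (S μ : ℝ) ^ i ≤ B * q ^ e := by
          intro ν
          have := ih (W ⊔ Submodule.span F {a - b})
            (A.filter (fun μ => ∑ j, (a j - b j) * (μ j - ν j) = 0)) (by omega) (by
            intro μ hμ μ' hμ' w hw
            obtain ⟨w₁, hw₁, w₂, hw₂, rfl⟩ := Submodule.mem_sup.1 hw
            obtain ⟨c, rfl⟩ := Submodule.mem_span_singleton.1 hw₂
            have k1 := hA μ (Finset.mem_filter.1 hμ).1 μ' (Finset.mem_filter.1 hμ').1 w₁ hw₁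
            have k2 := (Finset.mem_filter.1 hμ).2
            have k3 := (Finset.mem_filter.1 hμ').2
            have k4 : ∑ j, (w₁ + c • (a - b)) j * (μ j - μ' j) =
                ∑ j, w₁ j * (μ j - μ' j) + c * (∑ j, (a j - b j) * (μ j - ν j) -
                  ∑ j, (a j - b j) * (μ' j - ν j)) := by
              rw [← Finset.sum_sub_distrib, Finset.mul_sum, ← Finset.sum_add_distrib]
              refine Finset.sum_congr rfl fun j _ => ?_
              simp only [Pi.add_apply, Pi.smul_apply, Pi.sub_apply, smul_eq_mul]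
              ring
            rw [k4, k1, k2, k3]
            ring)
          rw [hf] at this
          have e3 : d - (finrank F W + 1) - i = e := by omega
          rwa [e3] at this
        calc ∑ ν, (cnt b ν : ℝ) *
            ∑ μ ∈ A.filter (fun μ => ∑ j, (a j - b j) * (μ j - ν j) = 0), (S μ : ℝ) ^ i
            ≤ ∑ ν, (cnt b ν : ℝ) * (B * q ^ e) :=
              Finset.sum_le_sum fun ν _ => mul_le_mul_of_nonneg_left (h3 ν) (Nat.cast_nonneg _)
          _ = (B * q ^ e) * ((∑ ν, cnt b ν : ℕ) : ℝ) := by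
              rw [← Finset.sum_mul]
              push_cast
              ring
    -- number of positions in the span
    have hcard : ((univ.filter (fun b : Fin d → F => a - b ∈ W)).card : ℝ) ≤
        q ^ finrank F W := by
      have hfin : Finite W := Module.finite_of_finite F
      have k1 : Nat.card (univ.filter (fun b : Fin d → F => a - b ∈ W)) ≤ Nat.card W := by
        refine Nat.card_le_card_of_injective
          (fun b : (univ.filter (fun b : Fin d → F => a - b ∈ W)) =>
            (⟨a - b.1, (Finset.mem_filter.1 b.2).2⟩ : W)) ?_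
        intro b b' h
        exact Subtype.ext (sub_right_injective (congrArg Subtype.val h))
      rw [Nat.card_eq_fintype_card, Fintype.card_coe, Module.natCard_eq_pow_finrank (K := F),
        Nat.card_eq_fintype_card] at k1
      rw [hq]
      exact_mod_cast k1
    have h4 : ∑ b : Fin d → F, (if a - b ∈ W then q * (C₁ * N / q ^ d) else 0) ≤ C₁ * N := by
      rw [← Finset.sum_filter, Finset.sum_const, nsmul_eq_mul]
      have k1 : (0 : ℝ) ≤ q * (C₁ * N / q ^ d) := by positivity
      refine (mul_le_mul_of_nonneg_right hcard k1).trans ?_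
      have k2 : q ^ finrank F W * (q * (C₁ * N / q ^ d)) =
          C₁ * N * (q ^ (finrank F W + 1) / q ^ d) := by
        rw [pow_succ]
        ring
      rw [k2]
      have k3 : q ^ (finrank F W + 1) / q ^ d ≤ 1 := by
        rw [div_le_one (by positivity)]
        exact pow_le_pow_right₀ hq1 (by omega)
      have k4 : (0 : ℝ) ≤ C₁ * N := by positivity
      nlinarith
    calc ∑ b, ∑ ν, (cnt b ν : ℝ) *
          ∑ μ ∈ A.filter (fun μ => ∑ j, (a j - b j) * (μ j - ν j) = 0), (S μ : ℝ) ^ i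
        ≤ ∑ b : Fin d → F, (B * q ^ e) * (((∑ ν, cnt b ν : ℕ) : ℝ) +
          (if a - b ∈ W then q * (C₁ * N / q ^ d) else 0)) :=
          Finset.sum_le_sum fun b _ => h2 b
      _ = (B * q ^ e) * ((N : ℝ) +
          ∑ b : Fin d → F, (if a - b ∈ W then q * (C₁ * N / q ^ d) else 0)) := by
          rw [← Finset.mul_sum, Finset.sum_add_distrib, ← hN]
          push_cast
          rfl
      _ ≤ (B * q ^ e) * ((N : ℝ) + C₁ * N) :=
          mul_le_mul_of_nonneg_left (by linarith) (by positivity)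
      _ = ((1 + C₁) * N) ^ (i + 1) * q ^ e := by
          rw [hB]
          ring

open Classical in
theorem fq_moment {F : Type} [Field F] [Fintype F] [DecidableEq F] (d : ℕ)
    (cnt : (Fin d → F) → (Fin d → F) → ℕ) (N : ℕ) (hN : ∑ b, ∑ ν, cnt b ν = N) (C₁ : ℝ)
    (hC₁ : 0 ≤ C₁)
    (hL : ∀ b, ((∑ ν, cnt b ν : ℕ) : ℝ) ≤ C₁ * N / (Fintype.card F : ℝ) ^ d)
    (a : Fin d → F) (i : ℕ) (hi : i ≤ d) :
    ∑ μ : Fin d → F, ((∑ b, ∑ ν, if ∑ j, (a j - b j) * (μ j - ν j) = 0 then cnt b ν else 0 : ℕ) : ℝ) ^ i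
      ≤ ((1 + C₁) * N) ^ i * (Fintype.card F : ℝ) ^ ((d : ℝ) - i) := by
  have h := fqA_main cnt N hN C₁ hC₁ hL a
    (fun μ => ∑ b, ∑ ν, if ∑ j, (a j - b j) * (μ j - ν j) = 0 then cnt b ν else 0)
    (fun μ => by
      refine Finset.sum_congr rfl fun b _ => Finset.sum_congr rfl fun ν _ => ?_
      congr) i ⊥ univ (by simpa using hi) (by
      intro μ _ μ' _ w hw
      rw [Submodule.mem_bot] at hw
      subst hw
      simp)
  rw [finrank_bot, Nat.sub_zero] at h
  have e : (Fintype.card F : ℝ) ^ ((d : ℝ) - i) = (Fintype.card F : ℝ) ^ (d - i) := by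
    rw [← Nat.cast_sub hi, Real.rpow_natCast]
  rw [e]
  exact h

end Pool.Agent.Helper50.RG
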