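import Pool.Agent.Helper50.RG.Defs
import Pool.Agent.Helper50.RG.FqA

/-!
# RG-41 : few sequences have a bad motion for a given placement over a finite field

`BadM p m u η`: `m` is a motion of `u` at `p`, there is an orientation `o` such that every vertex of the support of
`m` is the head of at most `d` pairs, and at least `d |supp m| + η N` pairs meet the support.

Count the pairs `(m, u)` with an orientation. Fix (2^M ways) `o`, (`2^N` ways) the support `B`, (`3^M` ways)
the kind of each index `i`: kind 1: the head is in `B`; kind 2: the head is not in `B` and the tail is in `B`;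
kind 3: no end in `B`; and (`(N+1)^(q^(2d))` ways) the law `cnt b ν = #{v | p v = b, m v = ν}`. For an index of
kind 1 or 3 the anchor is the head, for kind 2 it is the tail; `N^M` choices of all anchors. For fixed anchors
`h i` and fixed `m` the number of choices of the other end of pair `i` is at most: kind 1: `S(m (h i))`, where
`S` is as in `fq_moment` with `a = p (h i)` (the number of vertices `w` with `Sat p m (h i) w` depends only on
the law); kind 2: the other end `z` has `m z = 0`, so `(p (h i) - p z) ⬝ m (h i) = 0` with `m (h i) ≠ 0`: `p z` is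
in an affine hyperplane, at most `q^(d-1) C₁ N/q^d = C₁ N/q` choices; kind 3: `N`. The sum over all `m` with support in `B`
(drop the condition that the law of `m` is `cnt`) is at most
`∏_{v ∈ B} (∑_μ S_v(μ)^(i_v)) (C₁ N/q)^(#2) N^(#3)`, `i_v ≤ d` the number of `i` of kind 1 with anchor `v`, and by
`fq_moment` `≤ ∏_v ((1+C₁) N)^(i_v) q^(d - i_v) (C₁ N/q)^(#2) N^(#3) ≤ N^M (1 + C₁)^M q^(d |B| - #1 - #2)`, and
`#1 + #2 ≥ d |B| + η N`.
-/

set_option autoImplicit false

namespace Pool.Agent.Helper50.RG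

open Finset

/-- the head of the pair `i` -/
def head {V : Type} {M : ℕ} (o : Fin M → Bool) (u : Fin M → V × V) (i : Fin M) : V :=
  if o i then (u i).1 else (u i).2

open Classical in
/-- `m` is a bad motion for the placement `p` and the sequence `u` -/
def BadM {V : Type} [Fintype V] {F : Type} [Field F] {d M : ℕ}
    (p m : V → Fin d → F) (u : Fin M → V × V) (η : ℝ) : Prop :=
  (∀ i, Sat p m (u i).1 (u i).2) ∧
  (∃ o : Fin M → Bool, ∀ v, m v ≠ 0 → (univ.filter (fun i => head o u i = v)).card ≤ d) ∧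
  ((d : ℝ) * ((univ.filter (fun v => m v ≠ 0)).card : ℝ) + η * Fintype.card V ≤
    ((univ.filter (fun i => m (u i).1 ≠ 0 ∨ m (u i).2 ≠ 0)).card : ℝ))

section FqBaux

variable {V : Type} [Fintype V] {F : Type} [Field F] {d M : ℕ}

private theorem sat_comm' (p m : V → Fin d → F) (u v : V) : Sat p m u v ↔ Sat p m v u := by
  unfold Sat
  rw [show (∑ i, (p u i - p v i) * (m u i - m v i)) =
    ∑ i, (p v i - p u i) * (m v i - m u i) from Finset.sum_congr rfl (fun i _ => by ring)]

open Classical in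
/-- the law of the placement and the motion -/
private noncomputable def fqLaw (p m : V → Fin d → F) (b ν : Fin d → F) : ℕ :=
  (univ.filter (fun v => p v = b ∧ m v = ν)).card

variable [Fintype F]

open Classical in
private noncomputable def fqS (cnt : (Fin d → F) → (Fin d → F) → ℕ) (a μ : Fin d → F) : ℕ :=
  ∑ b, ∑ ν, if ∑ j, (a j - b j) * (μ j - ν j) = 0 then cnt b ν else 0

private theorem fqS_moment (cnt : (Fin d → F) → (Fin d → F) → ℕ) (N : ℕ)
    (hN : ∑ b, ∑ ν, cnt b ν = N) (C₁ : ℝ) (hC₁ : 0 ≤ C₁)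
    (hL : ∀ b, ((∑ ν, cnt b ν : ℕ) : ℝ) ≤ C₁ * N / (Fintype.card F : ℝ) ^ d)
    (a : Fin d → F) (i : ℕ) (hi : i ≤ d) :
    ∑ μ : Fin d → F, ((fqS cnt a μ : ℕ) : ℝ) ^ i
      ≤ ((1 + C₁) * N) ^ i * (Fintype.card F : ℝ) ^ ((d : ℝ) - i) := by
  classical
  have h := fq_moment (F := F) d cnt N hN C₁ hC₁ hL a i hi
  unfold fqS
  convert h

open Classical in
private theorem fqLaw_load (p m : V → Fin d → F) (b : Fin d → F) :
    ∑ ν, fqLaw p m b ν = (univ.filter (fun v => p v = b)).card := by
  unfold fqLaw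
  rw [Finset.card_eq_sum_card_fiberwise (f := m) (t := univ) (fun _ _ => Finset.mem_coe.2 (mem_univ _))]
  refine Finset.sum_congr rfl fun ν _ => ?_
  rw [Finset.filter_filter]

private theorem fqLaw_sum (p m : V → Fin d → F) :
    ∑ b, ∑ ν, fqLaw p m b ν = Fintype.card V := by
  classical
  have h1 : ∀ b, ∑ ν, fqLaw p m b ν = (univ.filter (fun v => p v = b)).card :=
    fun b => fqLaw_load p m b
  rw [Finset.sum_congr rfl (fun b _ => h1 b)]
  rw [← Finset.card_eq_sum_card_fiberwise (f := p) (t := univ) (fun _ _ => Finset.mem_coe.2 (mem_univ _))]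
  rfl

open Classical in
private theorem card_kind0 (p m : V → Fin d → F) (h : V) :
    (univ.filter (fun x : V × V => x.1 = h ∧ Sat p m x.1 x.2)).card ≤
      fqS (fqLaw p m) (p h) (m h) := by
  have h1 : (univ.filter (fun x : V × V => x.1 = h ∧ Sat p m x.1 x.2)).card ≤
      (univ.filter (fun w : V => Sat p m h w)).card := by
    apply Finset.card_le_card_of_injOn (fun x => x.2)
    · intro x hx
      simp only [coe_filter, mem_univ, true_and, Set.mem_ofPred_eq] at hx ⊢
      rw [← hx.1]; exact hx.2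
    · intro x hx y hy hxy
      simp only [coe_filter, mem_univ, true_and, Set.mem_ofPred_eq] at hx hy
      exact Prod.ext (hx.1.trans hy.1.symm) hxy
  refine h1.trans (le_of_eq ?_)
  rw [Finset.card_eq_sum_card_fiberwise (f := p) (t := univ) (fun _ _ => Finset.mem_coe.2 (mem_univ _))]
  unfold fqS
  refine Finset.sum_congr rfl fun b _ => ?_
  rw [Finset.card_eq_sum_card_fiberwise (f := m) (t := univ) (fun _ _ => Finset.mem_coe.2 (mem_univ _))]
  refine Finset.sum_congr rfl fun ν _ => ?_
  split_ifs with hc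
  · unfold fqLaw
    congr 1
    ext w
    simp only [mem_filter, mem_univ, true_and]
    constructor
    · rintro ⟨⟨_, h2⟩, h3⟩; exact ⟨h2, h3⟩
    · rintro ⟨h2, h3⟩
      refine ⟨⟨?_, h2⟩, h3⟩
      unfold Sat
      rw [h2, h3]; exact hc
  · rw [Finset.card_eq_zero, Finset.filter_eq_empty_iff]
    intro w hw h3
    simp only [mem_filter, mem_univ, true_and] at hw
    obtain ⟨h2, h4⟩ := hw
    unfold Sat at h2
    rw [h3, h4] at h2
    exact hc h2

open Classical in
private theorem card_hyper (a μ : Fin d → F) (hμ : μ ≠ 0) :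
    (univ.filter (fun b : Fin d → F => ∑ j, (a j - b j) * μ j = 0)).card * Fintype.card F ≤
      Fintype.card F ^ d := by
  obtain ⟨j0, hj0⟩ : ∃ j, μ j ≠ 0 := by
    by_contra hc
    push Not at hc
    exact hμ (funext hc)
  have h1 : ((univ.filter (fun b : Fin d → F => ∑ j, (a j - b j) * μ j = 0)) ×ˢ
      (univ : Finset F)).card ≤ (univ : Finset (Fin d → F)).card := by
    apply Finset.card_le_card_of_injOn (fun x => x.1 + Pi.single j0 x.2)
    · intro x _; exact Finset.mem_coe.2 (mem_univ _)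
    · intro x hx y hy hxy
      simp only [coe_product, coe_filter, mem_univ, true_and, coe_univ, Set.mem_prod,
        Set.mem_ofPred_eq, Set.mem_univ, and_true] at hx hy
      simp only at hxy
      have key : ∀ z : (Fin d → F) × F, ∑ j, (a j - z.1 j) * μ j = 0 →
          ∑ j, (a j - (z.1 + Pi.single j0 z.2 : Fin d → F) j) * μ j = - (z.2 * μ j0) := by
        intro z hz
        have h2 : ∀ j, (a j - (z.1 + Pi.single j0 z.2 : Fin d → F) j) * μ j =
            (a j - z.1 j) * μ j - (Pi.single j0 z.2 : Fin d → F) j * μ j := by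
          intro j; simp only [Pi.add_apply]; ring
        rw [Finset.sum_congr rfl (fun j _ => h2 j), Finset.sum_sub_distrib, hz]
        have h3 : ∑ j, (Pi.single j0 z.2 : Fin d → F) j * μ j = z.2 * μ j0 := by
          rw [Finset.sum_eq_single j0]
          · rw [Pi.single_eq_same]
          · intro j _ hj
            rw [Pi.single_eq_of_ne hj, zero_mul]
          · intro hj; exact absurd (mem_univ _) hj
        rw [h3, zero_sub]
      have h4 := key x hx
      rw [hxy, key y hy] at h4
      have h5 : y.2 = x.2 := mul_right_cancel₀ hj0 (neg_injective h4)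
      rw [← h5] at hxy
      exact Prod.ext (add_right_cancel hxy) h5.symm
  rw [Finset.card_product, Finset.card_univ, Finset.card_univ, Fintype.card_fun,
    Fintype.card_fin] at h1
  exact h1

open Classical in
private theorem card_kind1 (p m : V → Fin d → F) (C₁ : ℝ) (hC₁ : 0 ≤ C₁)
    (hL : ∀ b, ((univ.filter (fun v => p v = b)).card : ℝ) ≤
      C₁ * Fintype.card V / (Fintype.card F : ℝ) ^ d) (h : V) (hm : m h ≠ 0) :
    ((univ.filter (fun x : V × V => x.2 = h ∧ m x.1 = 0 ∧ Sat p m x.1 x.2)).card : ℝ) ≤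
      C₁ * Fintype.card V / Fintype.card F := by
  set H : Finset (Fin d → F) := univ.filter (fun b => ∑ j, (p h j - b j) * m h j = 0) with hH
  have h1 : (univ.filter (fun x : V × V => x.2 = h ∧ m x.1 = 0 ∧ Sat p m x.1 x.2)).card ≤
      (univ.filter (fun w : V => p w ∈ H)).card := by
    apply Finset.card_le_card_of_injOn (fun x => x.1)
    · intro x hx
      simp only [coe_filter, mem_univ, true_and, Set.mem_ofPred_eq] at hx ⊢
      obtain ⟨h2, h3, h4⟩ := hx
      rw [hH, mem_filter]
      refine ⟨mem_univ _, ?_⟩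
      rw [h2, sat_comm'] at h4
      unfold Sat at h4
      rw [h3] at h4
      simpa using h4
    · intro x hx y hy hxy
      simp only [coe_filter, mem_univ, true_and, Set.mem_ofPred_eq] at hx hy
      exact Prod.ext hxy (hx.1.trans hy.1.symm)
  have h2 : (univ.filter (fun w : V => p w ∈ H)).card =
      ∑ b ∈ H, (univ.filter (fun w : V => p w = b)).card := by
    rw [Finset.card_eq_sum_card_fiberwise (f := p) (t := H)]
    · refine Finset.sum_congr rfl fun b hb => ?_
      congr 1
      ext w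
      simp only [mem_filter, mem_univ, true_and]
      constructor
      · rintro ⟨_, h3⟩; exact h3
      · intro h3; exact ⟨h3 ▸ hb, h3⟩
    · intro w hw
      simpa using hw
  have hq : (0 : ℝ) < Fintype.card F := by exact_mod_cast Fintype.card_pos
  have h3 : ((univ.filter (fun w : V => p w ∈ H)).card : ℝ) ≤
      H.card * (C₁ * Fintype.card V / (Fintype.card F : ℝ) ^ d) := by
    rw [h2]
    push_cast
    refine (Finset.sum_le_sum (fun b _ => hL b)).trans ?_
    rw [Finset.sum_const, nsmul_eq_mul]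
  have h4 : (H.card : ℝ) * Fintype.card F ≤ (Fintype.card F : ℝ) ^ d := by
    exact_mod_cast card_hyper (p h) (m h) hm
  calc ((univ.filter (fun x : V × V => x.2 = h ∧ m x.1 = 0 ∧ Sat p m x.1 x.2)).card : ℝ)
      ≤ ((univ.filter (fun w : V => p w ∈ H)).card : ℝ) := by exact_mod_cast h1
    _ ≤ H.card * (C₁ * Fintype.card V / (Fintype.card F : ℝ) ^ d) := h3
    _ = (H.card * Fintype.card F) * (C₁ * Fintype.card V /
        ((Fintype.card F : ℝ) ^ d * Fintype.card F)) := by field_simp
    _ ≤ (Fintype.card F : ℝ) ^ d * (C₁ * Fintype.card V /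
        ((Fintype.card F : ℝ) ^ d * Fintype.card F)) := by
        apply mul_le_mul_of_nonneg_right h4
        positivity
    _ = _ := by field_simp

open Classical in
/-- the possible pairs for an index of kind `k` with anchor `h` -/
private noncomputable def fqA (p m : V → Fin d → F) (k : Fin 3) (h : V) : Finset (V × V) :=
  univ.filter (fun x => (k = 0 → x.1 = h ∧ Sat p m x.1 x.2) ∧
    (k = 1 → x.2 = h ∧ m x.1 = 0 ∧ Sat p m x.1 x.2) ∧ (k = 2 → x.1 = h))

open Classical in
private theorem card_fqA (p m : V → Fin d → F) (C₁ : ℝ) (hC₁ : 0 ≤ C₁)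
    (hL : ∀ b, ((univ.filter (fun v => p v = b)).card : ℝ) ≤
      C₁ * Fintype.card V / (Fintype.card F : ℝ) ^ d) (k : Fin 3) (h : V)
    (hm : k = 1 → m h ≠ 0) :
    ((fqA p m k h).card : ℝ) ≤ if k = 0 then (fqS (fqLaw p m) (p h) (m h) : ℝ) else
      if k = 1 then C₁ * Fintype.card V / Fintype.card F else Fintype.card V := by
  unfold fqA
  split_ifs with h0 h1
  · subst h0
    refine le_trans ?_ (Nat.cast_le.2 (card_kind0 p m h))
    apply le_of_eq
    congr 2
    ext x
    simp
  · subst h1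
    refine le_trans (le_of_eq ?_) (card_kind1 p m C₁ hC₁ hL h (hm rfl))
    congr 2
    ext x
    simp
  · have h2 : k = 2 := by
      have := k.2
      ext
      have a0 : (k : ℕ) ≠ 0 := fun h => h0 (Fin.ext h)
      have a1 : (k : ℕ) ≠ 1 := fun h => h1 (Fin.ext h)
      simp only [Fin.val_two]
      omega
    subst h2
    have h3 : (univ.filter (fun x : V × V => ((2 : Fin 3) = 0 → x.1 = h ∧ Sat p m x.1 x.2) ∧
        ((2 : Fin 3) = 1 → x.2 = h ∧ m x.1 = 0 ∧ Sat p m x.1 x.2) ∧
        ((2 : Fin 3) = 2 → x.1 = h))).card ≤ (univ : Finset V).card := by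
      apply Finset.card_le_card_of_injOn (fun x => x.2)
      · intro x _; exact Finset.mem_coe.2 (mem_univ _)
      · intro x hx y hy hxy
        rw [mem_coe, mem_filter] at hx hy
        exact Prod.ext ((hx.2.2.2 rfl).trans (hy.2.2.2 rfl).symm) hxy
    rw [Finset.card_univ] at h3
    exact_mod_cast h3

open Classical in
/-- sum over the motions with given support -/
private theorem sum_mot (B : Finset V) (cnt : (Fin d → F) → (Fin d → F) → ℕ)
    (p : V → Fin d → F) (C₁ : ℝ) (hC₁ : 0 ≤ C₁)
    (hN : ∑ b, ∑ ν, cnt b ν = Fintype.card V)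
    (hL : ∀ b, ((∑ ν, cnt b ν : ℕ) : ℝ) ≤ C₁ * Fintype.card V / (Fintype.card F : ℝ) ^ d)
    (s : Finset (Fin M)) (h : Fin M → V) (hB : ∀ i ∈ s, h i ∈ B)
    (hd : ∀ v ∈ B, (s.filter (fun i => h i = v)).card ≤ d) :
    ∑ m ∈ Fintype.piFinset (fun v => if v ∈ B then (univ : Finset (Fin d → F)) else {0}),
      ∏ i ∈ s, ((fqS cnt (p (h i)) (m (h i)) : ℕ) : ℝ) ≤
    ((1 + C₁) * Fintype.card V) ^ s.card *
      (Fintype.card F : ℝ) ^ ((d : ℝ) * B.card - s.card) := by
  have hq : (0 : ℝ) < Fintype.card F := by exact_mod_cast Fintype.card_pos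
  have e1 : ∀ m : V → Fin d → F, ∏ i ∈ s, ((fqS cnt (p (h i)) (m (h i)) : ℕ) : ℝ) =
      ∏ v, ((fqS cnt (p v) (m v) : ℕ) : ℝ) ^ (s.filter (fun i => h i = v)).card := by
    intro m
    rw [← Finset.prod_fiberwise s h]
    refine Finset.prod_congr rfl fun v _ => ?_
    rw [Finset.prod_congr rfl (g := fun _ => ((fqS cnt (p v) (m v) : ℕ) : ℝ))
      (fun i hi => by rw [(mem_filter.1 hi).2]), Finset.prod_const]
  rw [Finset.sum_congr rfl (fun m _ => e1 m)]
  have e2 := Finset.prod_univ_sum (fun v => if v ∈ B then (univ : Finset (Fin d → F)) else {0})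
    (fun v μ => ((fqS cnt (p v) μ : ℕ) : ℝ) ^ (s.filter (fun i => h i = v)).card)
  rw [← e2]
  have e3 : ∀ v : V, ∑ μ ∈ (if v ∈ B then (univ : Finset (Fin d → F)) else {0}),
      ((fqS cnt (p v) μ : ℕ) : ℝ) ^ (s.filter (fun i => h i = v)).card ≤
      if v ∈ B then ((1 + C₁) * Fintype.card V) ^ (s.filter (fun i => h i = v)).card *
        (Fintype.card F : ℝ) ^ ((d : ℝ) - (s.filter (fun i => h i = v)).card) else 1 := by
    intro v
    by_cases hv : v ∈ B
    · rw [if_pos hv, if_pos hv]
      exact fqS_moment cnt _ hN C₁ hC₁ hL (p v) _ (hd v hv)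
    · rw [if_neg hv, if_neg hv]
      have h0 : (s.filter (fun i => h i = v)).card = 0 := by
        rw [Finset.card_eq_zero, Finset.filter_eq_empty_iff]
        intro i hi hiv
        exact hv (hiv ▸ hB i hi)
      rw [h0]
      simp
  refine (Finset.prod_le_prod (fun v _ => Finset.sum_nonneg fun μ _ => by positivity)
    (fun v _ => e3 v)).trans (le_of_eq ?_)
  rw [Finset.prod_ite_mem, Finset.univ_inter, Finset.prod_mul_distrib, Finset.prod_pow_eq_pow_sum,
    ← Real.rpow_sum_of_pos hq]
  have e4 : ∑ v ∈ B, (s.filter (fun i => h i = v)).card = s.card :=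
    (Finset.card_eq_sum_card_fiberwise (f := h) (t := B) (fun i hi => hB i hi)).symm
  rw [e4, Finset.sum_sub_distrib, Finset.sum_const, nsmul_eq_mul]
  congr 2
  rw [← e4]
  push_cast
  ring

open Classical in
private theorem fiber_sum (B : Finset V) (p m0 : V → Fin d → F) (C₁ η : ℝ) (hC₁ : 0 ≤ C₁)
    (κ : Fin M → Fin 3) (h : Fin M → V)
    (hκ0 : ∀ i, κ i = 0 → h i ∈ B) (hκ1 : ∀ i, κ i = 1 → h i ∈ B)
    (hd : ∀ v ∈ B, (univ.filter (fun i => κ i = 0 ∧ h i = v)).card ≤ d)
    (hη : (d : ℝ) * B.card + η * Fintype.card V ≤ ((univ.filter (fun i => κ i ≠ 2)).card : ℝ))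
    (hL : ∀ b, ((univ.filter (fun v => p v = b)).card : ℝ) ≤
      C₁ * Fintype.card V / (Fintype.card F : ℝ) ^ d)
    (Ms : Finset (V → Fin d → F))
    (hMs : ∀ m ∈ Ms, (∀ v, v ∉ B → m v = 0) ∧ (∀ v ∈ B, m v ≠ 0) ∧ fqLaw p m = fqLaw p m0) :
    ∑ m ∈ Ms, ∏ i, ((fqA p m (κ i) (h i)).card : ℝ) ≤
      (Fintype.card V : ℝ) ^ M * (1 + C₁) ^ M *
        (Fintype.card F : ℝ) ^ (-η * Fintype.card V) := by
  have hq : (0 : ℝ) < Fintype.card F := by exact_mod_cast Fintype.card_pos
  have hq1 : (1 : ℝ) ≤ Fintype.card F := by exact_mod_cast Fintype.card_pos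
  set N : ℝ := ((Fintype.card V : ℕ) : ℝ) with hN
  have hN0 : 0 ≤ N := by rw [hN]; positivity
  set q : ℝ := ((Fintype.card F : ℕ) : ℝ) with hqdef
  set n0 := (univ.filter (fun i => κ i = 0)).card with hn0
  set n1 := ((univ.filter (fun i => ¬ κ i = 0)).filter (fun i => κ i = 1)).card with hn1
  set n2 := ((univ.filter (fun i => ¬ κ i = 0)).filter (fun i => ¬ κ i = 1)).card with hn2
  have hsum1 : n0 + (n1 + n2) = M := by
    have a1 := Finset.card_filter_add_card_filter_not (s := (univ : Finset (Fin M)))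
      (fun i => κ i = 0)
    have a2 := Finset.card_filter_add_card_filter_not
      (s := (univ.filter (fun i => ¬ κ i = 0) : Finset (Fin M))) (fun i => κ i = 1)
    rw [Finset.card_univ, Fintype.card_fin] at a1
    omega
  have hsum2 : (univ.filter (fun i => κ i ≠ 2)).card = n0 + n1 := by
    have a1 := Finset.card_filter_add_card_filter_not (s := (univ : Finset (Fin M)))
      (fun i => κ i = 2)
    rw [Finset.card_univ, Fintype.card_fin] at a1
    have a3 : (univ.filter (fun i => κ i = 2)).card = n2 := by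
      rw [hn2]
      congr 1
      ext i
      simp only [mem_filter, mem_univ, true_and]
      have hk : ∀ k : Fin 3, k = 2 ↔ ¬ k = 0 ∧ ¬ k = 1 := by decide
      exact hk (κ i)
    have a4 : (univ.filter (fun i => κ i ≠ 2)).card = (univ.filter (fun i => ¬ κ i = 2)).card := rfl
    omega
  have hterm : ∀ m ∈ Ms, ∏ i, ((fqA p m (κ i) (h i)).card : ℝ) ≤
      (∏ i ∈ univ.filter (fun i => κ i = 0), ((fqS (fqLaw p m0) (p (h i)) (m (h i)) : ℕ) : ℝ)) *
        ((C₁ * N / q) ^ n1 * N ^ n2) := by
    intro m hm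
    obtain ⟨hm1, hm2, hm3⟩ := hMs m hm
    have a1 : ∀ i, ((fqA p m (κ i) (h i)).card : ℝ) ≤
        if κ i = 0 then ((fqS (fqLaw p m0) (p (h i)) (m (h i)) : ℕ) : ℝ) else
          if κ i = 1 then C₁ * N / q else N := by
      intro i
      have := card_fqA p m C₁ hC₁ hL (κ i) (h i) (fun hk => hm2 _ (hκ1 i hk))
      rwa [hm3] at this
    refine (Finset.prod_le_prod (fun i _ => by positivity) (fun i _ => a1 i)).trans (le_of_eq ?_)
    rw [Finset.prod_ite, Finset.prod_ite, Finset.prod_const, Finset.prod_const]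
  rcases Ms.eq_empty_or_nonempty with he | ⟨m1, hm1⟩
  · rw [he, Finset.sum_empty]
    positivity
  have hlaw := (hMs m1 hm1).2.2
  have hcN : ∑ b, ∑ ν, fqLaw p m0 b ν = Fintype.card V := fqLaw_sum p m0
  have hcL : ∀ b, ((∑ ν, fqLaw p m0 b ν : ℕ) : ℝ) ≤
      C₁ * Fintype.card V / (Fintype.card F : ℝ) ^ d := by
    intro b
    rw [fqLaw_load]
    exact hL b
  have hmain := sum_mot B (fqLaw p m0) p C₁ hC₁ hcN hcL (univ.filter (fun i => κ i = 0)) h
    (fun i hi => hκ0 i (mem_filter.1 hi).2)
    (fun v hv => by rw [Finset.filter_filter]; exact hd v hv)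
  have hc : 0 ≤ (C₁ * N / q) ^ n1 * N ^ n2 := by positivity
  calc ∑ m ∈ Ms, ∏ i, ((fqA p m (κ i) (h i)).card : ℝ)
      ≤ ∑ m ∈ Ms, (∏ i ∈ univ.filter (fun i => κ i = 0),
          ((fqS (fqLaw p m0) (p (h i)) (m (h i)) : ℕ) : ℝ)) * ((C₁ * N / q) ^ n1 * N ^ n2) :=
        Finset.sum_le_sum hterm
    _ = (∑ m ∈ Ms, ∏ i ∈ univ.filter (fun i => κ i = 0),
          ((fqS (fqLaw p m0) (p (h i)) (m (h i)) : ℕ) : ℝ)) * ((C₁ * N / q) ^ n1 * N ^ n2) := by
        rw [Finset.sum_mul]
    _ ≤ (∑ m ∈ Fintype.piFinset (fun v => if v ∈ B then (univ : Finset (Fin d → F)) else {0}),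
          ∏ i ∈ univ.filter (fun i => κ i = 0),
          ((fqS (fqLaw p m0) (p (h i)) (m (h i)) : ℕ) : ℝ)) * ((C₁ * N / q) ^ n1 * N ^ n2) := by
        apply mul_le_mul_of_nonneg_right _ hc
        apply Finset.sum_le_sum_of_subset_of_nonneg
        · intro m hm
          rw [Fintype.mem_piFinset]
          intro v
          by_cases hv : v ∈ B
          · rw [if_pos hv]; exact mem_univ _
          · rw [if_neg hv, Finset.mem_singleton]; exact (hMs m hm).1 v hv
        · intro m _ _
          exact Finset.prod_nonneg fun i _ => by positivity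
    _ ≤ (((1 + C₁) * N) ^ n0 * q ^ ((d : ℝ) * B.card - n0)) * ((C₁ * N / q) ^ n1 * N ^ n2) :=
        mul_le_mul_of_nonneg_right hmain hc
    _ = ((1 + C₁) ^ n0 * C₁ ^ n1) * N ^ (n0 + (n1 + n2)) * q ^ ((d : ℝ) * B.card - n0 - n1) := by
        have a1 : q ^ ((d : ℝ) * B.card - n0) = q ^ ((d : ℝ) * B.card - n0 - n1) * q ^ n1 := by
          rw [← Real.rpow_natCast q n1, ← Real.rpow_add hq]
          congr 1; ring
        rw [a1, div_pow, mul_pow, mul_pow, pow_add, pow_add]
        have hqn : q ^ n1 ≠ 0 := (pow_pos hq n1).ne'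
        field_simp
    _ ≤ (1 + C₁) ^ M * N ^ M * q ^ (-η * N) := by
        rw [hsum1]
        have b1 : (1 + C₁) ^ n0 * C₁ ^ n1 ≤ (1 + C₁) ^ M := by
          calc (1 + C₁) ^ n0 * C₁ ^ n1 ≤ (1 + C₁) ^ n0 * (1 + C₁) ^ n1 := by
                apply mul_le_mul_of_nonneg_left _ (by positivity)
                exact pow_le_pow_left₀ hC₁ (by linarith) n1
            _ = (1 + C₁) ^ (n0 + n1) := by rw [pow_add]
            _ ≤ (1 + C₁) ^ M := pow_le_pow_right₀ (by linarith) (by omega)
        have b2 : q ^ ((d : ℝ) * B.card - n0 - n1) ≤ q ^ (-η * N) := by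
          apply Real.rpow_le_rpow_of_exponent_le hq1
          rw [hsum2] at hη
          push_cast at hη
          linarith
        exact mul_le_mul (mul_le_mul_of_nonneg_right b1 (by positivity)) b2 (by positivity)
          (by positivity)
    _ = N ^ M * (1 + C₁) ^ M * q ^ (-η * N) := by ring

open Classical in
/-- the kind of a pair (head, tail) -/
private noncomputable def fqK (m : V → Fin d → F) (x : V × V) : Fin 3 :=
  if m x.1 ≠ 0 then 0 else if m x.2 ≠ 0 then 1 else 2

open Classical in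
private noncomputable def fqAnc (m : V → Fin d → F) (x : V × V) : V :=
  if fqK m x = 1 then x.2 else x.1

omit [Fintype V] [Fintype F] in
private theorem fqK_zero {m : V → Fin d → F} {x : V × V} : fqK m x = 0 ↔ m x.1 ≠ 0 := by
  unfold fqK; split_ifs with h1 h2 <;> simp_all

omit [Fintype V] [Fintype F] in
private theorem fqK_one {m : V → Fin d → F} {x : V × V} :
    fqK m x = 1 ↔ m x.1 = 0 ∧ m x.2 ≠ 0 := by
  unfold fqK; split_ifs with h1 h2 <;> simp_all

omit [Fintype V] [Fintype F] in
private theorem fqK_two {m : V → Fin d → F} {x : V × V} :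
    fqK m x = 2 ↔ m x.1 = 0 ∧ m x.2 = 0 := by
  unfold fqK; split_ifs with h1 h2 <;> simp_all

open Classical in
/-- a bad motion of a sequence of pairs (head, tail) -/
private def fqG (p m : V → Fin d → F) (w : Fin M → V × V) (η : ℝ) : Prop :=
  (∀ i, Sat p m (w i).1 (w i).2) ∧
  (∀ v, m v ≠ 0 → (univ.filter (fun i => (w i).1 = v)).card ≤ d) ∧
  ((d : ℝ) * ((univ.filter (fun v => m v ≠ 0)).card : ℝ) + η * Fintype.card V ≤
    ((univ.filter (fun i => m (w i).1 ≠ 0 ∨ m (w i).2 ≠ 0)).card : ℝ))

open Classical in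
private theorem card_W (p : V → Fin d → F) (C₁ η : ℝ) (hC₁ : 0 ≤ C₁)
    (hL : ∀ b, ((univ.filter (fun v => p v = b)).card : ℝ) ≤
      C₁ * Fintype.card V / (Fintype.card F : ℝ) ^ d) :
    ((univ.filter (fun w : Fin M → V × V => ∃ m : V → Fin d → F, fqG p m w η)).card : ℝ) ≤
      (2 ^ Fintype.card V * (3 ^ M * (((Fintype.card V : ℝ) + 1) ^ (Fintype.card F ^ (2 * d)) *
        (Fintype.card V : ℝ) ^ M))) * ((Fintype.card V : ℝ) ^ M * (1 + C₁) ^ M *
        (Fintype.card F : ℝ) ^ (-η * Fintype.card V)) := by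
  set W : Finset (Fin M → V × V) :=
    univ.filter (fun w : Fin M → V × V => ∃ m : V → Fin d → F, fqG p m w η) with hW
  set bd : ℝ := (Fintype.card V : ℝ) ^ M * (1 + C₁) ^ M *
        (Fintype.card F : ℝ) ^ (-η * Fintype.card V) with hbd
  have hbd0 : 0 ≤ bd := by positivity
  set mm : (Fin M → V × V) → (V → Fin d → F) :=
    fun w => if h : ∃ m : V → Fin d → F, fqG p m w η then h.choose else 0 with hmm
  have hmmW : ∀ w ∈ W, fqG p (mm w) w η := by
    intro w hw
    rw [hW, mem_filter] at hw
    simp only [hmm, dif_pos hw.2]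
    exact hw.2.choose_spec
  have hlt : ∀ (m : V → Fin d → F) (x : (Fin d → F) × (Fin d → F)),
      fqLaw p m x.1 x.2 < Fintype.card V + 1 := by
    intro m x
    unfold fqLaw
    exact Nat.lt_succ_of_le (Finset.card_le_univ _)
  set Φ : (Fin M → V × V) →
      Finset V × (Fin M → Fin 3) × ((Fin d → F) × (Fin d → F) → Fin (Fintype.card V + 1)) ×
        (Fin M → V) :=
    fun w => (univ.filter (fun v => mm w v ≠ 0), fun i => fqK (mm w) (w i),
      fun x => ⟨fqLaw p (mm w) x.1 x.2, hlt _ _⟩, fun i => fqAnc (mm w) (w i)) with hΦ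
  have hfib : ∀ D, ((W.filter (fun w => Φ w = D)).card : ℝ) ≤ bd := by
    intro D
    rcases (W.filter (fun w => Φ w = D)).eq_empty_or_nonempty with he | ⟨w0, hw0⟩
    · rw [he]; simpa using hbd0
    rw [mem_filter] at hw0
    obtain ⟨hw0W, hw0D⟩ := hw0
    have hG0 := hmmW w0 hw0W
    obtain ⟨B, κ, cnt, h⟩ := D
    simp only [hΦ, Prod.mk.injEq] at hw0D
    obtain ⟨hB, hκ, hcnt, hh⟩ := hw0D
    have hBmem : ∀ v, v ∈ B ↔ mm w0 v ≠ 0 := by
      intro v; rw [← hB]; simp
    have hκi : ∀ i, κ i = fqK (mm w0) (w0 i) := fun i => (congrFun hκ i).symm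
    have hhi : ∀ i, h i = fqAnc (mm w0) (w0 i) := fun i => (congrFun hh i).symm
    set Ms : Finset (V → Fin d → F) := univ.filter (fun m => (∀ v, v ∉ B → m v = 0) ∧
      (∀ v ∈ B, m v ≠ 0) ∧ fqLaw p m = fqLaw p (mm w0)) with hMs
    have hsub : W.filter (fun w => Φ w = (B, κ, cnt, h)) ⊆
        Ms.biUnion (fun m => Fintype.piFinset (fun i => fqA p m (κ i) (h i))) := by
      intro w hw
      rw [mem_filter] at hw
      obtain ⟨hwW, hwD⟩ := hw
      have hG := hmmW w hwW
      simp only [hΦ, Prod.mk.injEq] at hwD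
      obtain ⟨hB', hκ', hcnt', hh'⟩ := hwD
      have hBmem' : ∀ v, v ∈ B ↔ mm w v ≠ 0 := by
        intro v; rw [← hB']; simp
      rw [Finset.mem_biUnion]
      refine ⟨mm w, ?_, ?_⟩
      · rw [hMs, mem_filter]
        refine ⟨mem_univ _, fun v hv => ?_, fun v hv => (hBmem' v).1 hv, ?_⟩
        · by_contra hc
          exact hv ((hBmem' v).2 hc)
        · funext b ν
          have e1 := congrArg Fin.val (congrFun hcnt' (b, ν))
          have e2 := congrArg Fin.val (congrFun hcnt (b, ν))
          simp only at e1 e2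
          rw [e1, e2]
      · rw [Fintype.mem_piFinset]
        intro i
        have e1 : κ i = fqK (mm w) (w i) := (congrFun hκ' i).symm
        have e2 : h i = fqAnc (mm w) (w i) := (congrFun hh' i).symm
        unfold fqA
        rw [mem_filter]
        refine ⟨mem_univ _, fun h0 => ?_, fun h1 => ?_, fun h2 => ?_⟩
        · rw [e1] at h0
          have h3 : fqAnc (mm w) (w i) = (w i).1 := by
            unfold fqAnc; rw [h0]; simp
          exact ⟨(e2.trans h3).symm, hG.1 i⟩
        · rw [e1] at h1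
          have h3 : fqAnc (mm w) (w i) = (w i).2 := by
            unfold fqAnc; rw [h1]; simp
          exact ⟨(e2.trans h3).symm, (fqK_one.1 h1).1, hG.1 i⟩
        · rw [e1] at h2
          have h3 : fqAnc (mm w) (w i) = (w i).1 := by
            unfold fqAnc; rw [h2]; simp
          exact (e2.trans h3).symm
    have hcard : (W.filter (fun w => Φ w = (B, κ, cnt, h))).card ≤
        ∑ m ∈ Ms, ∏ i, (fqA p m (κ i) (h i)).card := by
      refine (Finset.card_le_card hsub).trans (Finset.card_biUnion_le.trans (le_of_eq ?_))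
      refine Finset.sum_congr rfl fun m _ => ?_
      rw [Fintype.card_piFinset]
    have hfs := fiber_sum B p (mm w0) C₁ η hC₁ κ h
      (fun i hi => by
        rw [hκi] at hi
        rw [hBmem, hhi]
        have h3 : fqAnc (mm w0) (w0 i) = (w0 i).1 := by
          unfold fqAnc; rw [hi]; simp
        rw [h3]; exact fqK_zero.1 hi)
      (fun i hi => by
        rw [hκi] at hi
        rw [hBmem, hhi]
        have h3 : fqAnc (mm w0) (w0 i) = (w0 i).2 := by
          unfold fqAnc; rw [hi]; simp
        rw [h3]; exact (fqK_one.1 hi).2)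
      (fun v hv => by
        refine le_trans (Finset.card_le_card ?_) (hG0.2.1 v ((hBmem v).1 hv))
        intro i hi
        rw [mem_filter] at hi ⊢
        refine ⟨mem_univ _, ?_⟩
        obtain ⟨_, h0, h1⟩ := hi
        rw [hκi] at h0
        rw [hhi] at h1
        have h3 : fqAnc (mm w0) (w0 i) = (w0 i).1 := by
          unfold fqAnc; rw [h0]; simp
        rw [← h3]; exact h1)
      (by
        have h1 := hG0.2.2
        have h2 : (univ.filter (fun v => mm w0 v ≠ 0)).card = B.card := by rw [hB]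
        have h3 : (univ.filter (fun i => κ i ≠ 2)) =
            univ.filter (fun i => mm w0 (w0 i).1 ≠ 0 ∨ mm w0 (w0 i).2 ≠ 0) := by
          ext i
          simp only [mem_filter, mem_univ, true_and]
          rw [hκi, Ne, fqK_two]
          tauto
        rw [h2] at h1
        rw [h3]
        exact h1)
      hL Ms (fun m hm => (mem_filter.1 hm).2)
    refine le_trans ?_ hfs
    have : ((∑ m ∈ Ms, ∏ i, (fqA p m (κ i) (h i)).card : ℕ) : ℝ) =
        ∑ m ∈ Ms, ∏ i, ((fqA p m (κ i) (h i)).card : ℝ) := by push_cast; rfl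
    rw [← this]
    exact_mod_cast hcard
  have htot : (W.card : ℝ) = ∑ D, ((W.filter (fun w => Φ w = D)).card : ℝ) := by
    rw [Finset.card_eq_sum_card_fiberwise (f := Φ) (t := univ)
      (fun _ _ => Finset.mem_coe.2 (mem_univ _))]
    push_cast
    rfl
  rw [htot]
  refine (Finset.sum_le_sum fun D _ => hfib D).trans (le_of_eq ?_)
  rw [Finset.sum_const, nsmul_eq_mul, Finset.card_univ]
  congr 1
  rw [Fintype.card_prod, Fintype.card_prod, Fintype.card_prod, Fintype.card_finset,
    Fintype.card_fun, Fintype.card_fun, Fintype.card_fun, Fintype.card_prod, Fintype.card_fun,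
    Fintype.card_fin, Fintype.card_fin, Fintype.card_fin, Fintype.card_fin]
  push_cast
  rw [← pow_add, ← two_mul]

end FqBaux

open Classical in
theorem bad_count {V : Type} [Fintype V] {F : Type} [Field F] [Fintype F] {d M : ℕ}
    (p : V → Fin d → F) (C₁ η : ℝ) (hC₁ : 0 ≤ C₁) (hη : 0 ≤ η)
    (hL : ∀ b, ((univ.filter (fun v => p v = b)).card : ℝ) ≤
      C₁ * Fintype.card V / (Fintype.card F : ℝ) ^ d) :
    ((univ.filter (fun u : Fin M → V × V => ∃ m : V → Fin d → F, BadM p m u η)).card : ℝ) ≤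
      (Fintype.card V : ℝ) ^ (2 * M) * 6 ^ M * 2 ^ Fintype.card V * (1 + C₁) ^ M *
        ((Fintype.card V : ℝ) + 1) ^ (Fintype.card F ^ (2 * d)) *
        (Fintype.card F : ℝ) ^ (-η * Fintype.card V) := by
  set W : Finset (Fin M → V × V) :=
    univ.filter (fun w : Fin M → V × V => ∃ m : V → Fin d → F, fqG p m w η) with hW
  set tw : (Fin M → Bool) × (Fin M → V × V) → (Fin M → V × V) :=
    fun x i => if x.1 i then x.2 i else (x.2 i).swap with htw
  have hsub : (univ.filter (fun u : Fin M → V × V => ∃ m : V → Fin d → F, BadM p m u η)) ⊆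
      ((univ : Finset (Fin M → Bool)) ×ˢ W).image tw := by
    intro u hu
    rw [mem_filter] at hu
    obtain ⟨_, m, h1, ⟨o, h2⟩, h3⟩ := hu
    rw [Finset.mem_image]
    refine ⟨(o, tw (o, u)), ?_, ?_⟩
    · rw [Finset.mem_product]
      refine ⟨mem_univ _, ?_⟩
      rw [hW, mem_filter]
      refine ⟨mem_univ _, m, ?_, ?_, ?_⟩
      · intro i
        simp only [htw]
        split_ifs
        · exact h1 i
        · exact (sat_comm' p m _ _).1 (h1 i)
      · intro v hv
        refine le_trans (le_of_eq ?_) (h2 v hv)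
        congr 1
        ext i
        rw [mem_filter, mem_filter, show (tw (o, u) i).1 = head o u i from by
          simp only [htw, head]; split_ifs <;> rfl]
      · refine h3.trans (le_of_eq ?_)
        congr 2
        ext i
        simp only [mem_filter, mem_univ, true_and, htw]
        split_ifs
        · rfl
        · exact or_comm
    · funext i
      simp only [htw]
      split_ifs
      · rfl
      · exact Prod.swap_swap _
  have hcard : (univ.filter (fun u : Fin M → V × V => ∃ m : V → Fin d → F, BadM p m u η)).card ≤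
      2 ^ M * W.card := by
    refine (Finset.card_le_card hsub).trans (Finset.card_image_le.trans (le_of_eq ?_))
    rw [Finset.card_product, Finset.card_univ, Fintype.card_fun, Fintype.card_fin,
      Fintype.card_bool]
  have hWc := card_W (M := M) p C₁ η hC₁ hL
  rw [← hW] at hWc
  calc ((univ.filter (fun u : Fin M → V × V => ∃ m : V → Fin d → F, BadM p m u η)).card : ℝ)
      ≤ 2 ^ M * (W.card : ℝ) := by exact_mod_cast hcard
    _ ≤ 2 ^ M * _ := mul_le_mul_of_nonneg_left hWc (by positivity)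
    _ = _ := by
      rw [show (6 : ℝ) = 2 * 3 by norm_num, mul_pow, two_mul M, pow_add]
      ring

end Pool.Agent.Helper50.RG
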