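import Pool.Agent.Helper50.RG.RkK

/-!
# RG-51 : motions which vanish on a set

See the comment in `RkK.lean`: the computation (K), and the paragraphs `exists_motion_zero_on`,
`motion_eq_zero`.
-/

set_option autoImplicit false

namespace Pool.Agent.Helper50.RG

open Finset

variable {V : Type} [Fintype V] [DecidableEq V] {F : Type} [Field F] {d : ℕ}

/-- index set of the pairs `i < j` -/
private abbrev RkK2I (d : ℕ) : Type := Σ j : Fin d, Fin (j : ℕ)

private theorem rkK2_card (d : ℕ) : d + Fintype.card (RkK2I d) = KK d := by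
  have h1 : Fintype.card (RkK2I d) = d.choose 2 := by
    rw [Fintype.card_sigma]
    simp only [Fintype.card_fin]
    rw [Fin.sum_univ_eq_sum_range (fun i => i) d, Finset.sum_range_id, Nat.choose_two_right]
  rw [h1, KK, Nat.choose_succ_succ' d 1, Nat.choose_one_right]

private theorem rkK2_nd {p : V → Fin d → F} {A : Finset V} (hA : A.card = d + 1) (hp : AffI p A)
    {x0 : V} (hx : x0 ∈ A) {z : Fin d → F} (h : ∀ a ∈ A, (p a - p x0) ⬝ᵥ z = 0) : z = 0 := by
  have h1 : vectorSpan F (Set.range (fun x : A => p (x : V))) = ⊤ := by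
    refine AffineIndependent.vectorSpan_eq_top_of_card_eq_finrank_add_one hp ?_
    simp [hA]
  have hmem : p x0 ∈ Set.range (fun x : A => p (x : V)) := ⟨⟨x0, hx⟩, rfl⟩
  have h2 : ∀ w ∈ vectorSpan F (Set.range (fun x : A => p (x : V))), w ⬝ᵥ z = 0 := by
    rw [vectorSpan_eq_span_vsub_set_right F hmem]
    intro w hw
    induction hw using Submodule.span_induction with
    | mem w hw =>
      obtain ⟨_, ⟨a, rfl⟩, rfl⟩ := hw
      exact h a a.2
    | zero => exact zero_dotProduct z
    | add a b _ _ ha hb => rw [add_dotProduct, ha, hb, add_zero]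
    | smul c a _ ha => rw [smul_dotProduct, ha, smul_zero]
  have h3 : ∀ w, z ⬝ᵥ w = 0 := fun w => by
    rw [dotProduct_comm]
    exact h2 w (by rw [h1]; exact Submodule.mem_top)
  exact dotProduct_eq_zero z h3

private theorem rkK2_sat {p m : V → Fin d → F} {u v : V} :
    Sat p m u v ↔ (p u - p v) ⬝ᵥ (m u - m v) = 0 := by
  unfold Sat dotProduct
  simp only [Pi.sub_apply]

private theorem rkK2_mem_Kn {W : Finset V} {u v : V} (hu : u ∈ W) (hv : v ∈ W) (h : u ≠ v) :
    s(u, v) ∈ Kn W := by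
  unfold Kn
  rw [Finset.mem_filter, Finset.mk_mem_sym2_iff, Sym2.mk_isDiag_iff]
  exact ⟨⟨hu, hv⟩, h⟩

/-- the linear map which detects the motions of a simplex -/
private def rkK2_Psi (p : V → Fin d → F) (x : Fin (d + 1) → V) :
    (V → Fin d → F) →ₗ[F] (Fin d → F) × (RkK2I d → F) where
  toFun m := (m (x 0), fun ji => (p (x (Fin.succ ⟨ji.2, ji.2.2.trans ji.1.2⟩)) - p (x 0)) ⬝ᵥ
    (m (x ji.1.succ) - m (x 0)))
  map_add' a b := by
    ext k
    · rfl
    · simp only [Pi.add_apply, Prod.mk_add_mk]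
      rw [← dotProduct_add]
      congr 1
      abel
  map_smul' c a := by
    ext k
    · rfl
    · simp only [Pi.smul_apply, RingHom.id_apply, Prod.smul_mk, smul_eq_mul]
      rw [← smul_sub, dotProduct_smul, smul_eq_mul]

/-- `W` contains `d + 1` affinely independent points -/
theorem exists_motion_zero_on (h2 : (2 : F) ≠ 0) (p : V → Fin d → F) (E : Finset (Sym2 V))
    {W A : Finset V} (hAW : A ⊆ W) (hA : A.card = d + 1) (hp : AffI p A)
    (hr : rkAt p (E ∪ Kn W) + KK d < d * Fintype.card V) :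
    ∃ m : V → Fin d → F, m ≠ 0 ∧ (∀ w ∈ W, m w = 0) ∧ Mot p m E := by
  have hdim := finrank_mot p (E ∪ Kn W)
  -- enumerate `A`
  let e := (A.equivFinOfCardEq hA).symm
  let x : Fin (d + 1) → V := fun i => (e i : V)
  have hxA : ∀ i, x i ∈ A := fun i => (e i).2
  have hxinj : Function.Injective x := fun i j h => e.injective (Subtype.ext h)
  have hxsurj : ∀ a ∈ A, ∃ i, x i = a := fun a ha => ⟨e.symm ⟨a, ha⟩, by
    simp only [x, Equiv.apply_symm_apply]⟩
  have hlt : Module.finrank F ((Fin d → F) × (RkK2I d → F)) <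
      Module.finrank F (motSp p (E ∪ Kn W)) := by
    rw [Module.finrank_prod, Module.finrank_fintype_fun_eq_card,
      Module.finrank_fintype_fun_eq_card, Fintype.card_fin, rkK2_card]
    omega
  have hker := LinearMap.ker_ne_bot_of_finrank_lt
    (f := (rkK2_Psi p x).comp (motSp p (E ∪ Kn W)).subtype) hlt
  obtain ⟨m, hm, hm0⟩ := (Submodule.ne_bot_iff _).1 hker
  have hmot : Mot p m.1 (E ∪ Kn W) := m.2
  have hPsi : rkK2_Psi p x m.1 = 0 := hm
  have hx0 : m.1 (x 0) = 0 := congrArg Prod.fst hPsi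
  have hij : ∀ i j : Fin d, i < j → (p (x i.succ) - p (x 0)) ⬝ᵥ m.1 (x j.succ) = 0 := by
    intro i j hij
    have h := congrFun (congrArg Prod.snd hPsi) ⟨j, ⟨i, hij⟩⟩
    have h' : (p (x i.succ) - p (x 0)) ⬝ᵥ (m.1 (x j.succ) - m.1 (x 0)) = 0 := h
    rwa [hx0, sub_zero] at h'
  have hKn : ∀ i j, i ≠ j → (p (x i) - p (x j)) ⬝ᵥ (m.1 (x i) - m.1 (x j)) = 0 := by
    intro i j hne
    exact rkK2_sat.1 (hmot _ _ (Finset.mem_union_right _
      (rkK2_mem_Kn (hAW (hxA i)) (hAW (hxA j)) (hxinj.ne hne))))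
  have hdiag : ∀ i : Fin d, (p (x i.succ) - p (x 0)) ⬝ᵥ m.1 (x i.succ) = 0 := by
    intro i
    have h := hKn i.succ 0 (Fin.succ_ne_zero i)
    rwa [hx0, sub_zero] at h
  have hall : ∀ i j : Fin d, (p (x i.succ) - p (x 0)) ⬝ᵥ m.1 (x j.succ) = 0 := by
    intro i j
    rcases lt_trichotomy i j with h | h | h
    · exact hij i j h
    · subst h; exact hdiag i
    · have h3 := hij j i h
      have h4 := hKn i.succ j.succ (fun h' => h.ne' (Fin.succ_injective _ h'))
      have h5 : p (x i.succ) - p (x j.succ) =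
          (p (x i.succ) - p (x 0)) - (p (x j.succ) - p (x 0)) := by abel
      rw [h5, sub_dotProduct, dotProduct_sub, dotProduct_sub, hdiag i, hdiag j, h3] at h4
      linear_combination -h4
  have hxz : ∀ j, m.1 (x j) = 0 := by
    intro j
    refine Fin.cases hx0 (fun j => ?_) j
    refine rkK2_nd hA hp (hxA 0) fun a ha => ?_
    obtain ⟨i, rfl⟩ := hxsurj a ha
    refine Fin.cases ?_ (fun i => ?_) i
    · rw [sub_self, zero_dotProduct]
    · exact hall i j
  have hAz : ∀ a ∈ A, m.1 a = 0 := by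
    intro a ha
    obtain ⟨i, rfl⟩ := hxsurj a ha
    exact hxz i
  refine ⟨m.1, fun h => hm0 (Subtype.ext h), fun w hw => ?_, fun u v huv =>
    hmot u v (Finset.mem_union_left _ huv)⟩
  by_cases hwA : w ∈ A
  · exact hAz w hwA
  have hwa : ∀ a ∈ A, (p w - p a) ⬝ᵥ m.1 w = 0 := by
    intro a ha
    have h := rkK2_sat.1 (hmot _ _ (Finset.mem_union_right _
      (rkK2_mem_Kn hw (hAW ha) (fun h => hwA (h ▸ ha)))))
    rwa [hAz a ha, sub_zero] at h
  refine rkK2_nd hA hp (hxA 0) fun a ha => ?_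
  have h5 : p a - p (x 0) = (p w - p (x 0)) - (p w - p a) := by abel
  rw [h5, sub_dotProduct, hwa a ha, hwa _ (hxA 0), sub_zero]

/-- the alternating matrix with given entries above the diagonal -/
private def rkK2_alt (s : RkK2I d → F) : Matrix (Fin d) (Fin d) F := fun i j =>
  if h : i < j then s ⟨j, ⟨i, h⟩⟩ else if h : j < i then - s ⟨i, ⟨j, h⟩⟩ else 0

private theorem rkK2_alt_diag (s : RkK2I d → F) (i : Fin d) : rkK2_alt s i i = 0 := by
  simp [rkK2_alt]

private theorem rkK2_alt_swap (s : RkK2I d → F) (i j : Fin d) :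
    rkK2_alt s j i = - rkK2_alt s i j := by
  unfold rkK2_alt
  rcases lt_trichotomy i j with h | h | h
  · simp [h, h.not_gt]
  · subst h; simp
  · simp [h, h.not_gt]

private theorem rkK2_alt_form (s : RkK2I d → F) (x : Fin d → F) :
    x ⬝ᵥ (rkK2_alt s).mulVec x = 0 := by
  have h1 : x ⬝ᵥ (rkK2_alt s).mulVec x =
      ∑ ij : Fin d × Fin d, x ij.1 * (rkK2_alt s ij.1 ij.2 * x ij.2) := by
    rw [Fintype.sum_prod_type]
    unfold dotProduct Matrix.mulVec dotProduct
    simp only [Finset.mul_sum]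
  rw [h1]
  refine Finset.sum_involution (fun ij _ => ij.swap) ?_ ?_ ?_ ?_
  · rintro ⟨i, j⟩ -
    simp only [Prod.swap_prod_mk]
    rw [rkK2_alt_swap s i j]
    ring
  · rintro ⟨i, j⟩ - hne h
    have h2 : j = i := congrArg Prod.fst h
    subst h2
    exact hne (by simp [rkK2_alt_diag])
  · intro ij _
    exact Finset.mem_univ _
  · intro ij _
    exact Prod.swap_swap ij

private theorem rkK2_alt_anti (s : RkK2I d → F) (x y : Fin d → F) :
    x ⬝ᵥ (rkK2_alt s).mulVec y = - (y ⬝ᵥ (rkK2_alt s).mulVec x) := by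
  have h1 := rkK2_alt_form s (x + y)
  rw [Matrix.mulVec_add, dotProduct_add, add_dotProduct, add_dotProduct, rkK2_alt_form,
    rkK2_alt_form] at h1
  linear_combination h1

private theorem rkK2_alt_inj {s : RkK2I d → F} (h : rkK2_alt s = 0) : s = 0 := by
  funext ji
  obtain ⟨j, i⟩ := ji
  have h1 := congrFun (congrFun h ⟨i, i.2.trans j.2⟩) j
  have h2 : (⟨i, i.2.trans j.2⟩ : Fin d) < j := i.2
  unfold rkK2_alt at h1
  rw [dif_pos h2] at h1
  exact h1

/-- the trivial motions -/
private def rkK2_Th (p : V → Fin d → F) :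
    (Fin d → F) × (RkK2I d → F) →ₗ[F] (V → Fin d → F) where
  toFun z := fun v => (rkK2_alt z.2).mulVec (p v) + z.1
  map_add' a b := by
    have h : rkK2_alt (a.2 + b.2) = rkK2_alt a.2 + rkK2_alt b.2 := by
      ext i j
      simp only [rkK2_alt, Matrix.add_apply, Pi.add_apply]
      split_ifs <;> ring
    funext v
    simp only [Prod.snd_add, Prod.fst_add, h, Matrix.add_mulVec, Pi.add_apply]
    abel
  map_smul' c a := by
    have h : rkK2_alt (c • a.2) = c • rkK2_alt a.2 := by
      ext i j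
      simp only [rkK2_alt, Matrix.smul_apply, Pi.smul_apply, smul_eq_mul]
      split_ifs <;> ring
    funext v
    simp only [Prod.smul_snd, Prod.smul_fst, h, Matrix.smul_mulVec, Pi.smul_apply,
      RingHom.id_apply, smul_add]

private theorem rkK2_Th_mot (p : V → Fin d → F) (z : (Fin d → F) × (RkK2I d → F))
    (E : Finset (Sym2 V)) : Mot p (rkK2_Th p z) E := by
  intro u v _
  rw [rkK2_sat]
  have h : rkK2_Th p z u - rkK2_Th p z v = (rkK2_alt z.2).mulVec (p u - p v) := by
    change ((rkK2_alt z.2).mulVec (p u) + z.1) - ((rkK2_alt z.2).mulVec (p v) + z.1) = _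
    rw [Matrix.mulVec_sub]
    abel
  rw [h]
  exact rkK2_alt_form _ _

private theorem rkK2_Th_inj {p : V → Fin d → F} (hp : GP p) {A : Finset V} (hd : 0 < d)
    (hA : d ≤ A.card) {z : (Fin d → F) × (RkK2I d → F)}
    (hz : ∀ v ∈ A, rkK2_Th p z v = 0) : z = 0 := by
  obtain ⟨B, hBA, hB⟩ := Finset.exists_subset_card_eq hA
  have hBi : AffI p B := hp B (by omega)
  obtain ⟨b0, hb0⟩ : B.Nonempty := Finset.card_pos.1 (by omega)
  set S := rkK2_alt z.2 with hS
  have hv : ∀ v ∈ B, S.mulVec (p v) + z.1 = 0 := fun v hv => hz v (hBA hv)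
  have hdif : ∀ v ∈ B, S.mulVec (p v - p b0) = 0 := by
    intro v h
    rw [Matrix.mulVec_sub, sub_eq_zero]
    have h1 := hv v h
    have h2 := hv b0 hb0
    rw [← h2] at h1
    exact add_right_cancel h1
  set H := vectorSpan F (Set.range (fun x : B => p (x : V))) with hH
  have hfin : Module.finrank F H = d - 1 := by
    refine AffineIndependent.finrank_vectorSpan hBi ?_
    simp [hB]
    omega
  have hmem : p b0 ∈ Set.range (fun x : B => p (x : V)) := ⟨⟨b0, hb0⟩, rfl⟩
  have hHk : H ≤ LinearMap.ker S.mulVecLin := by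
    rw [hH, vectorSpan_eq_span_vsub_set_right F hmem, Submodule.span_le]
    rintro _ ⟨_, ⟨a, rfl⟩, rfl⟩
    exact hdif a a.2
  have hne : H ≠ ⊤ := by
    intro h
    rw [h, finrank_top, Module.finrank_fin_fun] at hfin
    omega
  obtain ⟨x, hx⟩ : ∃ x, x ∉ H := by
    by_contra hcon
    push Not at hcon
    exact hne (eq_top_iff.2 fun y _ => hcon y)
  have htop : H ⊔ Submodule.span F {x} = ⊤ := by
    apply Submodule.eq_top_of_finrank_eq
    have h1 : H < H ⊔ Submodule.span F {x} := by
      refine lt_of_le_of_ne le_sup_left fun h => hx ?_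
      rw [h]
      exact Submodule.mem_sup_right (Submodule.mem_span_singleton_self x)
    have h2 := Submodule.finrank_lt_finrank_of_lt h1
    have h3 := Submodule.finrank_le (H ⊔ Submodule.span F {x})
    rw [Module.finrank_fin_fun] at h3 ⊢
    omega
  have hSx : S.mulVec x = 0 := by
    refine dotProduct_eq_zero _ fun w => ?_
    rw [dotProduct_comm]
    have hw : w ∈ H ⊔ Submodule.span F {x} := by rw [htop]; exact Submodule.mem_top
    obtain ⟨h, hh, y, hy, rfl⟩ := Submodule.mem_sup.1 hw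
    obtain ⟨c, rfl⟩ := Submodule.mem_span_singleton.1 hy
    have h1 : S.mulVec h = 0 := hHk hh
    rw [add_dotProduct, smul_dotProduct, rkK2_alt_form, smul_zero, add_zero, rkK2_alt_anti,
      ← hS, h1, dotProduct_zero, neg_zero]
  have hSw : ∀ w, S.mulVec w = 0 := by
    intro w
    have hw : w ∈ H ⊔ Submodule.span F {x} := by rw [htop]; exact Submodule.mem_top
    obtain ⟨h, hh, y, hy, rfl⟩ := Submodule.mem_sup.1 hw
    obtain ⟨c, rfl⟩ := Submodule.mem_span_singleton.1 hy
    have h1 : S.mulVec h = 0 := hHk hh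
    rw [Matrix.mulVec_add, h1, Matrix.mulVec_smul, hSx, smul_zero, add_zero]
  have hS0 : S = 0 := by
    ext i j
    have h1 := congrFun (hSw (Pi.single j 1)) i
    rw [Matrix.mulVec_single_one] at h1
    exact h1
  have h2 : z.2 = 0 := rkK2_alt_inj hS0
  have h1 : z.1 = 0 := by
    have h3 := hv b0 hb0
    rwa [hSw, zero_add] at h3
  exact Prod.ext h1 h2

theorem motion_eq_zero (p : V → Fin d → F) (hp : GP p) (E : Finset (Sym2 V))
    {A : Finset V} (hA : d ≤ A.card) (hr : rkAt p (Kn A ∪ E) + KK d = d * Fintype.card V)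
    (m : V → Fin d → F) (hm : ∀ v ∈ A, m v = 0) (hE : Mot p m E) : m = 0 := by
  rcases Nat.eq_zero_or_pos d with rfl | hd
  · funext v i
    exact i.elim0
  have hdim := finrank_mot p (Kn A ∪ E)
  have hinj : LinearMap.ker (rkK2_Th p) = ⊥ := by
    rw [LinearMap.ker_eq_bot']
    intro z hz
    exact rkK2_Th_inj hp hd hA (fun v _ => congrFun hz v)
  have hrange : LinearMap.range (rkK2_Th p) = motSp p (Kn A ∪ E) := by
    apply Submodule.eq_of_le_of_finrank_eq
    · rintro _ ⟨z, rfl⟩
      exact rkK2_Th_mot p z _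
    · rw [LinearMap.finrank_range_of_inj (LinearMap.ker_eq_bot.1 hinj), Module.finrank_prod,
        Module.finrank_fintype_fun_eq_card, Module.finrank_fintype_fun_eq_card, Fintype.card_fin,
        rkK2_card]
      omega
  have hmm : m ∈ motSp p (Kn A ∪ E) := by
    intro u v huv
    rcases Finset.mem_union.1 huv with h | h
    · unfold Kn at h
      rw [Finset.mem_filter, Finset.mk_mem_sym2_iff] at h
      rw [rkK2_sat, hm u h.1.1, hm v h.1.2, sub_zero, dotProduct_zero]
    · exact hE u v h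
  rw [← hrange] at hmm
  obtain ⟨z, rfl⟩ := hmm
  rw [rkK2_Th_inj hp hd hA hm, map_zero]

end Pool.Agent.Helper50.RG
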