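import Pool.Agent.Helper50.RG.RkS
import Pool.Agent.Helper50.RG.RkK2

/-!
# RG-42 : the polynomial of a special set

Let `K` be an algebraic closure of `F` (infinite, `2 ≠ 0` in it). By `special_rigid` for `A = univ \ S` and
`exists_generic` there is `p' : V → Fin d → K`, `GP p'`, with
`rkAt p' (Kn A ∪ E) + KK d = d |V|`; by `motion_eq_zero` every motion of `E` at `p'` which vanishes outside `S` is
zero. These conditions on `m` are: `m` vanishes outside `S`, and the `d |S|` (or more) linear equations of the edges
of `E` which meet `S`; so some `d |S| × d |S|` minor of the matrix of this system (unknowns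
`m v i`, `v ∈ S`) is non-zero at `p'`. This minor is a polynomial `P` with integer coefficients
in the coordinates `p w i`, each entry is linear, so the total degree is at most `d |S|`; it only contains
coordinates of vertices in `S` or adjacent to `S`. Its image over `F` is non-zero as its value at `p'` is not zero. Where
it does not vanish, `m = 0`.
-/

set_option autoImplicit false

namespace Pool.Agent.Helper50.RG

open Finset

/-- the coefficient of `m x.1 x.2` in the equation of the pair `e` -/
private noncomputable def sMat {V : Type} [DecidableEq V] {R : Type} [CommRing R] {d : ℕ}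
    (p : V → Fin d → R) (S : Finset V) (e : V × V) (x : S × Fin d) : R :=
  (p e.1 x.2 - p e.2 x.2) *
    ((if e.1 = (x.1 : V) then 1 else 0) - (if e.2 = (x.1 : V) then 1 else 0))

private theorem sum_ite_S {V : Type} [DecidableEq V] {R : Type} [CommRing R]
    (S : Finset V) (m : V → R) (hm : ∀ v ∉ S, m v = 0) (a : V) :
    ∑ v : S, (if a = (v : V) then (1 : R) else 0) * m v = m a := by
  rw [Finset.sum_coe_sort S (fun v => (if a = v then (1 : R) else 0) * m v)]
  by_cases ha : a ∈ S
  · rw [Finset.sum_eq_single a]
    · simp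
    · intro b _ hb; rw [if_neg (Ne.symm hb), zero_mul]
    · intro h; exact absurd ha h
  · rw [hm a ha]
    apply Finset.sum_eq_zero
    intro b hb
    rw [if_neg (by rintro rfl; exact ha hb), zero_mul]

private theorem sMat_mul {V : Type} [DecidableEq V] {R : Type} [CommRing R] {d : ℕ}
    (p : V → Fin d → R) (S : Finset V) (e : V × V) (m : V → Fin d → R) (hm : ∀ v ∉ S, m v = 0) :
    ∑ x : S × Fin d, sMat p S e x * m x.1 x.2 =
      ∑ i, (p e.1 i - p e.2 i) * (m e.1 i - m e.2 i) := by
  rw [Fintype.sum_prod_type_right]
  refine Finset.sum_congr rfl fun i _ => ?_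
  have h1 := sum_ite_S S (fun v => m v i) (fun v hv => by rw [hm v hv]; rfl) e.1
  have h2 := sum_ite_S S (fun v => m v i) (fun v hv => by rw [hm v hv]; rfl) e.2
  rw [← h1, ← h2, ← Finset.sum_sub_distrib, Finset.mul_sum]
  refine Finset.sum_congr rfl fun v _ => ?_
  simp only [sMat]
  ring

private theorem sMat_map {V : Type} [DecidableEq V] {R R' : Type} [CommRing R] [CommRing R']
    {d : ℕ} (φ : R →+* R') (p : V → Fin d → R) (S : Finset V) (e : V × V) (x : S × Fin d) :
    φ (sMat p S e x) = sMat (fun v i => φ (p v i)) S e x := by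
  simp only [sMat, map_mul, map_sub]
  congr 2 <;> split_ifs <;> simp

/-- a system with trivial kernel has a non-zero maximal minor -/
private theorem exists_det_ne_zero {K : Type} [Field K] {R n : Type} [Fintype R] [Fintype n]
    [DecidableEq n] (M : Matrix R n K) (h : ∀ x : n → K, M.mulVec x = 0 → x = 0) :
    ∃ f : n → R, (M.submatrix f id).det ≠ 0 := by
  classical
  have hinj : Function.Injective M.mulVec := by
    intro x y hxy
    have := h (x - y) (by rw [Matrix.mulVec_sub, hxy, sub_self])
    exact sub_eq_zero.1 this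
  have hcol : LinearIndependent K M.col := Matrix.mulVec_injective_iff.1 hinj
  have hrank : M.rank = Fintype.card n := by
    rw [← Matrix.rank_transpose]
    apply LinearIndependent.rank_matrix
    exact hcol
  obtain ⟨κ, a, ha, hsp, hli⟩ := exists_linearIndependent' K M.row
  have hfin : Finite κ := Finite.of_injective a ha
  have := Fintype.ofFinite κ
  have hcard : Fintype.card κ = Fintype.card n := by
    rw [← hrank, M.rank_eq_finrank_span_row, ← hsp,
      linearIndependent_iff_card_eq_finrank_span.mp hli, Set.finrank]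
  obtain ⟨e⟩ := Fintype.card_eq.1 hcard
  refine ⟨fun i => a (e.symm i), ?_⟩
  have hli2 : LinearIndependent K (M.submatrix (fun i => a (e.symm i)) id).row := by
    have := hli.comp e.symm e.symm.injective
    exact this
  have hu := Matrix.linearIndependent_rows_iff_isUnit.1 hli2
  exact ((Matrix.isUnit_iff_isUnit_det _).1 hu).ne_zero

private theorem nonzero_system {V : Type} [Fintype V] [DecidableEq V] {K : Type} [Field K]
    [Infinite K] (h2 : (2 : K) ≠ 0) {d : ℕ} (hd : 2 ≤ d) {E : Finset (Sym2 V)} (hL : Lpl E)
    {S : Finset V} (hA : d ≤ (univ \ S).card) (hS : ∀ v ∈ S, nb E S v = 2)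
    (hO : ∀ v ∈ S, nb E (univ \ S) v + 1 = d)
    (hne : ∀ S' ⊆ S, S'.Nonempty → (∀ v ∈ S', ∀ w ∈ S, s(v, w) ∈ E → w ∈ S') →
      ¬ ∃ O : Finset V, ∀ v ∈ S', (univ \ S).filter (fun w => s(v, w) ∈ E) = O) :
    ∃ p : V → Fin d → K, ∀ m : V → Fin d → K, (∀ v ∉ S, m v = 0) → Mot p m E → m = 0 := by
  have hdis : Disjoint (univ \ S) S := Finset.sdiff_disjoint
  have h1 := special_rigid (F := K) h2 hd hL hdis hA hS hO hne
  have hun : univ \ S ∪ S = (univ : Finset V) := by
    rw [Finset.sdiff_union_self_eq_union]; simp
  have hcard : (univ \ S).card + S.card = Fintype.card V := by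
    rw [← Finset.card_union_of_disjoint hdis, hun, Finset.card_univ]
  rw [hun, ins_univ, hcard] at h1
  obtain ⟨p, -, hGP, hrk⟩ := exists_generic (V := V) K d 1 one_ne_zero
  refine ⟨p, fun m hm hE => ?_⟩
  refine motion_eq_zero p hGP E hA ?_ m ?_ hE
  · rw [hrk, h1]
  · intro v hv
    exact hm v (Finset.mem_sdiff.1 hv).2

theorem special_poly {V : Type} [Fintype V] [DecidableEq V] {F : Type} [Field F]
    (h2 : (2 : F) ≠ 0) {d : ℕ} (hd : 2 ≤ d) {E : Finset (Sym2 V)} (hL : Lpl E) {S : Finset V}
    (hA : d ≤ (univ \ S).card) (hS : ∀ v ∈ S, nb E S v = 2)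
    (hO : ∀ v ∈ S, nb E (univ \ S) v + 1 = d)
    (hne : ∀ S' ⊆ S, S'.Nonempty → (∀ v ∈ S', ∀ w ∈ S, s(v, w) ∈ E → w ∈ S') →
      ¬ ∃ O : Finset V, ∀ v ∈ S', (univ \ S).filter (fun w => s(v, w) ∈ E) = O) :
    ∃ P : MvPolynomial (V × Fin d) F, P ≠ 0 ∧ P.totalDegree ≤ d * S.card ∧
      (∀ x ∈ P.vars, x.1 ∈ S ∨ ∃ v ∈ S, s(v, x.1) ∈ E) ∧
      ∀ p : V → Fin d → F, MvPolynomial.eval (fun x : V × Fin d => p x.1 x.2) P ≠ 0 →
        ∀ m : V → Fin d → F, (∀ v ∉ S, m v = 0) → Mot p m E → m = 0 := by
  classical
  set K := AlgebraicClosure F with hK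
  have h2' : (2 : K) ≠ 0 := by
    have := (algebraMap F K).injective
    intro h
    apply h2
    apply this
    rw [map_ofNat, h, map_zero]
  have : Infinite K := inferInstance
  obtain ⟨p', hp'⟩ := nonzero_system (K := K) h2' hd hL hA hS hO hne
  -- the rows
  let R := {e : V × V // s(e.1, e.2) ∈ E}
  let M' : Matrix R (S × Fin d) K := fun e x => sMat p' S e.1 x
  have hM' : ∀ x : S × Fin d → K, M'.mulVec x = 0 → x = 0 := by
    intro x hx
    let m : V → Fin d → K := fun v i => if h : v ∈ S then x (⟨v, h⟩, i) else 0
    have hm0 : ∀ v ∉ S, m v = 0 := by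
      intro v hv
      funext i
      simp only [m, dif_neg hv, Pi.zero_apply]
    have hmx : ∀ y : S × Fin d, m y.1 y.2 = x y := by
      rintro ⟨⟨v, hv⟩, i⟩
      simp only [m, dif_pos hv]
    have hmot : Mot p' m E := by
      intro u v huv
      have h3 := congrFun hx ⟨(u, v), huv⟩
      have h4 := sMat_mul p' S (u, v) m hm0
      simp only [hmx] at h4
      unfold Sat
      rw [← h4]
      exact h3
    have h5 := hp' m hm0 hmot
    funext y
    rw [← hmx y, h5]
    rfl
  obtain ⟨f, hf⟩ := exists_det_ne_zero M' hM'
  -- the polynomial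
  let X' : V → Fin d → MvPolynomial (V × Fin d) F := fun v i => MvPolynomial.X (v, i)
  let N : Matrix (S × Fin d) (S × Fin d) (MvPolynomial (V × Fin d) F) :=
    fun y x => sMat X' S (f y).1 x
  have hNmap : ∀ (L : Type) [CommRing L] (φ : MvPolynomial (V × Fin d) F →+* L),
      φ N.det = Matrix.det (fun y x => sMat (fun v i => φ (MvPolynomial.X (v, i))) S (f y).1 x) := by
    intro L _ φ
    rw [RingHom.map_det]
    congr 1
    ext y x
    exact sMat_map φ X' S (f y).1 x
  refine ⟨N.det, ?_, ?_, ?_, ?_⟩
  · intro h0
    apply hf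
    have h6 := hNmap K (MvPolynomial.aeval (fun x : V × Fin d => p' x.1 x.2)).toRingHom
    rw [h0, map_zero] at h6
    have h7 : (fun (y x : S × Fin d) => sMat (fun v i =>
        (MvPolynomial.aeval (R := F) (fun x : V × Fin d => p' x.1 x.2)).toRingHom
          (MvPolynomial.X (v, i))) S (f y).1 x) = M'.submatrix f id := by
      funext y x
      simp only [AlgHom.toRingHom_eq_coe, RingHom.coe_coe, MvPolynomial.aeval_X,
        Matrix.submatrix_apply, id, M']
    rw [← h7]
    exact h6.symm
  · rw [Matrix.det_apply]
    refine (MvPolynomial.totalDegree_finsetSum_le (d := d * S.card) ?_)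
    intro σ _
    have h8 : (∏ y, N (σ y) y).totalDegree ≤ d * S.card := by
      refine (MvPolynomial.totalDegree_finsetProd _ _).trans ?_
      calc ∑ y, (N (σ y) y).totalDegree ≤ ∑ _y : S × Fin d, 1 := by
            apply Finset.sum_le_sum
            intro y _
            simp only [N, sMat, X']
            refine (MvPolynomial.totalDegree_mul _ _).trans ?_
            have h9 : (MvPolynomial.X ((f (σ y)).1.1, y.2) -
                MvPolynomial.X ((f (σ y)).1.2, y.2) : MvPolynomial (V × Fin d) F).totalDegree ≤ 1 := by
              refine (MvPolynomial.totalDegree_sub _ _).trans ?_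
              simp
            have h10 : (((if (f (σ y)).1.1 = (y.1 : V) then 1 else 0) -
                (if (f (σ y)).1.2 = (y.1 : V) then 1 else 0) :
                MvPolynomial (V × Fin d) F)).totalDegree = 0 := by
              split_ifs <;> simp
            omega
        _ = d * S.card := by simp [Fintype.card_prod, mul_comm]
    rcases Int.units_eq_one_or (Equiv.Perm.sign σ) with h | h
    · rw [h, one_smul]; exact h8
    · rw [h, Units.neg_smul, one_smul, MvPolynomial.totalDegree_neg]; exact h8
  · intro x hx
    rw [Matrix.det_apply] at hx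
    have h11 := MvPolynomial.vars_sum_subset _ _ hx
    rw [Finset.mem_biUnion] at h11
    obtain ⟨σ, -, h12⟩ := h11
    have h13 : x ∈ (∏ y, N (σ y) y).vars := by
      rcases Int.units_eq_one_or (Equiv.Perm.sign σ) with h | h
      · rwa [h, one_smul] at h12
      · rw [h, Units.neg_smul, one_smul, MvPolynomial.vars_neg] at h12; exact h12
    have h14 := MvPolynomial.vars_prod _ h13
    rw [Finset.mem_biUnion] at h14
    obtain ⟨y, -, h15⟩ := h14
    set e := f (σ y) with he
    simp only [N, sMat, X'] at h15
    rw [← he] at h15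
    have hE : s(e.1.1, e.1.2) ∈ E := e.2
    by_cases h16 : e.1.1 = (y.1 : V) ∨ e.1.2 = (y.1 : V)
    · have h17 := MvPolynomial.vars_mul _ _ h15
      rw [Finset.mem_union] at h17
      have h18 : x ∈ ((if e.1.1 = (y.1 : V) then 1 else 0) -
          (if e.1.2 = (y.1 : V) then 1 else 0) : MvPolynomial (V × Fin d) F).vars → False := by
        intro hx'
        have : ((if e.1.1 = (y.1 : V) then 1 else 0) -
          (if e.1.2 = (y.1 : V) then 1 else 0) : MvPolynomial (V × Fin d) F) =
          MvPolynomial.C ((if e.1.1 = (y.1 : V) then 1 else 0) -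
          (if e.1.2 = (y.1 : V) then 1 else 0)) := by
          split_ifs <;> simp
        rw [this, MvPolynomial.vars_C] at hx'
        exact absurd hx' (Finset.notMem_empty _)
      have h19 : x = (e.1.1, y.2) ∨ x = (e.1.2, y.2) := by
        rcases h17 with h | h
        · have h20 := MvPolynomial.vars_sub_subset _ h
          rw [Finset.mem_union, MvPolynomial.vars_X, MvPolynomial.vars_X, Finset.mem_singleton,
            Finset.mem_singleton] at h20
          exact h20
        · exact (h18 h).elim
      have hyS : (y.1 : V) ∈ S := y.1.2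
      rcases h19 with rfl | rfl
      · rcases h16 with h | h
        · left; simp only [h]; exact hyS
        · right
          refine ⟨y.1, hyS, ?_⟩
          rw [← h, Sym2.eq_swap]
          exact hE
      · rcases h16 with h | h
        · right
          refine ⟨y.1, hyS, ?_⟩
          rw [← h]
          exact hE
        · left; simp only [h]; exact hyS
    · push Not at h16
      rw [if_neg h16.1, if_neg h16.2, sub_zero, mul_zero, MvPolynomial.vars_0] at h15
      exact absurd h15 (Finset.notMem_empty _)
  · intro p hp m hm hE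
    have h21 := hNmap F (MvPolynomial.eval (fun x : V × Fin d => p x.1 x.2))
    simp only [MvPolynomial.eval_X] at h21
    set D : Matrix (S × Fin d) (S × Fin d) F := fun y x => sMat p S (f y).1 x with hD
    have h22 : D.det ≠ 0 := by
      intro h
      apply hp
      rw [h21]
      exact h
    have h23 : D.mulVec (fun x => m x.1 x.2) = 0 := by
      funext y
      have h24 := sMat_mul p S (f y).1 m hm
      have h25 := hE (f y).1.1 (f y).1.2 (f y).2
      unfold Sat at h25
      rw [h25] at h24
      exact h24
    have h26 := Matrix.eq_zero_of_mulVec_eq_zero h22 h23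
    funext v
    by_cases hv : v ∈ S
    · funext i
      exact congrFun h26 (⟨v, hv⟩, i)
    · exact hm v hv

end Pool.Agent.Helper50.RG
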