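import Pool.Agent.Helper50.RG.Defs

/-!
# RG-43 : many good placements over a finite field

`F = ZMod q`, `N = |V|`. A star set is `insert v T` with `T` a set of at most `d` neighbours of `v`. For
`X ⊆ V` let `Good X p` mean: (i) `AffI p (Z ∩ X)` for all star sets `Z`; (ii) every position is used by at most
`L = (log N)² N/q^d` vertices of `X`; (iii) `eval p P ≠ 0`. Let `I ⊆ V` contain the vertices of the variables of
`P`, `|I| ≤ C (log N)²`.

(a) `#{p | Good I p} ≥ q^(dN)/2`: `P` vanishes at most at `(deg P/q) q^(dN)` points (Schwartz-Zippel: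
`MvPolynomial.schwartz_zippel_totalDegree`), for each set of at most `d + 1` vertices of `I` (at most
`(|I|+1)^(d+1)` sets) at most `(d + 1)/q` of all `p` are not affinely independent on it (the `j`-th point is in the affine span of the
first ones with probability at most `q^(j-1)/q^d ≤ 1/q`, `j ≤ d`), and (ii) holds as `|I| ≤ L`; the sum of the
exceptional fractions is at most `polylog N/q → 0` as `q ≥ N^(1/(4d))/2`.

(b) `x ∉ X ⊇ I`: `#{p | Good (insert x X) p} ≥ #{p | Good X p}/2`: `Good X p` does not depend on `p x`; for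
fixed other values `p x` has to avoid: for each star set `Z` containing `x` the affine span of
`p (Z ∩ X)` (at most `q^(d-1)` points; there are at most `(1 + D) (D + 1)^d ` such `Z`, where `D = c₃ log N` bounds the degrees), and the
positions which are used at least `L - 1` times (at most `2 N/L = 2 q^d/(log N)²` positions): at most half of
all `q^d` points.
(Formally: partition the placements by their values on `V \ {x}`.)
Induct over the at most `N` vertices outside `I`.
-/

set_option autoImplicit false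
set_option linter.unusedSectionVars false

namespace Pool.Agent.Helper50.RG

open Finset

section FqD

variable {V : Type} [Fintype V] [DecidableEq V] {q : ℕ} [Fact q.Prime] {d : ℕ}

open Classical in
private theorem FqD_span (p : V → Fin d → ZMod q) (A : Finset V) (hA : A.card ≤ d) :
    (univ.filter (fun b : Fin d → ZMod q =>
      b ∈ affineSpan (ZMod q) (p '' (A : Set V)))).card ≤ q ^ (d - 1) := by
  rcases A.eq_empty_or_nonempty with rfl | ⟨a0, ha0⟩
  · have : (univ.filter (fun b : Fin d → ZMod q =>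
      b ∈ affineSpan (ZMod q) (p '' ((∅ : Finset V) : Set V)))) = ∅ := by
      refine Finset.filter_eq_empty_iff.mpr fun b _ hb => ?_
      rw [Finset.coe_empty, Set.image_empty, AffineSubspace.span_empty] at hb
      exact hb
    rw [this, Finset.card_empty]
    exact Nat.zero_le _
  · set W : Submodule (ZMod q) (Fin d → ZMod q) :=
      vectorSpan (ZMod q) (p '' (A : Set V)) with hW
    have h1 : Module.finrank (ZMod q) W ≤ d - 1 := by
      have hc : A.card = (A.card - 1) + 1 := by
        have := Finset.card_pos.mpr ⟨a0, ha0⟩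
        omega
      have h2 := finrank_vectorSpan_image_finset_le (ZMod q) p A hc
      rw [Finset.coe_image] at h2
      exact h2.trans (by omega)
    have h2 : (univ.filter (fun b : Fin d → ZMod q =>
        b ∈ affineSpan (ZMod q) (p '' (A : Set V)))).card ≤ Fintype.card W := by
      rw [← Fintype.card_coe]
      refine Fintype.card_le_of_injective (fun b => (⟨(b : Fin d → ZMod q) - p a0, ?_⟩ : W)) ?_
      · have hb := (Finset.mem_filter.mp b.2).2
        have ha : p a0 ∈ affineSpan (ZMod q) (p '' (A : Set V)) :=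
          subset_affineSpan _ _ ⟨a0, ha0, rfl⟩
        have := AffineSubspace.vsub_mem_direction hb ha
        rw [direction_affineSpan] at this
        exact this
      · intro b b' hbb
        have := congrArg Subtype.val hbb
        simp only [sub_left_inj] at this
        exact Subtype.ext this
    refine h2.trans ?_
    rw [Module.card_eq_pow_finrank (K := ZMod q) (V := W), ZMod.card]
    exact Nat.pow_le_pow_right (Fact.out (p := q.Prime)).pos h1

private theorem FqD_ext {p : V → Fin d → ZMod q} {A : Finset V} {x : V}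
    (hA : AffI p A) (h : p x ∉ affineSpan (ZMod q) (p '' (A : Set V))) :
    AffI p (insert x A) := by
  unfold AffI at *
  have hxm : x ∈ insert x A := Finset.mem_insert_self x A
  refine AffineIndependent.affineIndependent_of_notMem_span (i := ⟨x, hxm⟩) ?_ ?_
  · have hmem : ∀ y : {y : ↥(insert x A) // y ≠ ⟨x, hxm⟩}, (y : ↥(insert x A)).1 ∈ A := by
      intro y
      rcases Finset.mem_insert.mp y.1.2 with h1 | h1
      · exact absurd (Subtype.ext h1) y.2
      · exact h1
    exact hA.comp_embedding ⟨fun y : {y : ↥(insert x A) // y ≠ ⟨x, hxm⟩} =>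
      (⟨(y : ↥(insert x A)).1, hmem y⟩ : ↥A), fun y z hyz => by
      have := congrArg Subtype.val hyz
      exact Subtype.ext (Subtype.ext this)⟩
  · intro hmem
    apply h
    refine affineSpan_mono (ZMod q) ?_ hmem
    rintro _ ⟨y, hy, rfl⟩
    refine ⟨y.1, ?_, rfl⟩
    rcases Finset.mem_insert.mp y.2 with h1 | h1
    · exact absurd (Subtype.ext h1) hy
    · exact h1

private theorem FqD_congr {p p' : V → Fin d → ZMod q} {A : Finset V}
    (h : ∀ v ∈ A, p v = p' v) (hA : AffI p A) : AffI p' A := by
  unfold AffI at *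
  have : (fun x : A => p' (x : V)) = fun x : A => p (x : V) := by
    funext x
    exact (h x x.2).symm
  rw [this]
  exact hA

open Classical in
private theorem FqD_fib (x : V) (H : (V → Fin d → ZMod q) → Prop) :
    ∑ p : V → Fin d → ZMod q, (univ.filter (fun b => H (Function.update p x b))).card =
      (univ.filter H).card * Fintype.card (Fin d → ZMod q) := by
  have e1 : ∑ p : V → Fin d → ZMod q, (univ.filter (fun b => H (Function.update p x b))).card =
      ((univ : Finset ((V → Fin d → ZMod q) × (Fin d → ZMod q))).filter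
        (fun z => H (Function.update z.1 x z.2))).card := by
    simp only [Finset.card_filter]
    rw [Fintype.sum_prod_type]
  have e2 : (univ.filter H).card * Fintype.card (Fin d → ZMod q) =
      ((univ : Finset ((V → Fin d → ZMod q) × (Fin d → ZMod q))).filter
        (fun z => H z.1)).card := by
    simp only [Finset.card_filter]
    rw [Fintype.sum_prod_type, Finset.sum_mul]
    refine Finset.sum_congr rfl fun p _ => ?_
    by_cases hp : H p
    · simp [hp]
    · simp [hp]
  rw [e1, e2]
  refine Finset.card_bij' (fun z _ => (Function.update z.1 x z.2, z.1 x))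
    (fun z _ => (Function.update z.1 x z.2, z.1 x)) ?_ ?_ ?_ ?_
  · intro z hz
    simp only [Finset.mem_filter, Finset.mem_univ, true_and] at hz ⊢
    exact hz
  · intro z hz
    simp only [Finset.mem_filter, Finset.mem_univ, true_and] at hz ⊢
    rw [Function.update_idem, Function.update_eq_self]
    exact hz
  · intro z _
    simp
  · intro z _
    simp

open Classical in
private theorem FqD_half (x : V) (G H : (V → Fin d → ZMod q) → Prop)
    (h : ∀ p, G p → Fintype.card (Fin d → ZMod q) ≤
      2 * (univ.filter (fun b => H (Function.update p x b))).card) :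
    (univ.filter G).card ≤ 2 * (univ.filter H).card := by
  have hpos : 0 < Fintype.card (Fin d → ZMod q) := Fintype.card_pos
  refine Nat.le_of_mul_le_mul_right ?_ hpos
  calc (univ.filter G).card * Fintype.card (Fin d → ZMod q)
      = ∑ p ∈ univ.filter G, Fintype.card (Fin d → ZMod q) := by
        rw [Finset.sum_const, smul_eq_mul]
    _ ≤ ∑ p ∈ univ.filter G, 2 * (univ.filter (fun b => H (Function.update p x b))).card :=
        Finset.sum_le_sum fun p hp => h p (Finset.mem_filter.mp hp).2
    _ ≤ ∑ p : V → Fin d → ZMod q,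
          2 * (univ.filter (fun b => H (Function.update p x b))).card :=
        Finset.sum_le_sum_of_subset (Finset.filter_subset _ _)
    _ = 2 * (univ.filter H).card * Fintype.card (Fin d → ZMod q) := by
        rw [← Finset.mul_sum, FqD_fib x H, mul_assoc]

open Classical in
private theorem FqD_few (x : V) (H : (V → Fin d → ZMod q) → Prop) (c : ℕ)
    (h : ∀ p, (univ.filter (fun b => H (Function.update p x b))).card ≤ c) :
    (univ.filter H).card * Fintype.card (Fin d → ZMod q) ≤
      Fintype.card (V → Fin d → ZMod q) * c := by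
  rw [← FqD_fib x H]
  calc _ ≤ ∑ _p : V → Fin d → ZMod q, c := Finset.sum_le_sum fun p _ => h p
    _ = _ := by rw [Finset.sum_const, smul_eq_mul, Finset.card_univ]

private theorem FqD_cardPt : Fintype.card (Fin d → ZMod q) = q ^ d := by
  rw [Fintype.card_fun, ZMod.card, Fintype.card_fin]

private theorem FqD_span_update {p : V → Fin d → ZMod q} {A : Finset V} {x : V} (hx : x ∉ A)
    (b : Fin d → ZMod q) : (Function.update p x b) '' (A : Set V) = p '' (A : Set V) := by
  refine Set.image_congr fun v hv => ?_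
  rw [Function.update_of_ne]
  rintro rfl
  exact hx hv

open Classical in
private theorem FqD_na (hd : 1 ≤ d) (A : Finset V) (hA : A.card ≤ d + 1) :
    (univ.filter (fun p : V → Fin d → ZMod q => ¬ AffI p A)).card * q ≤
      A.card * Fintype.card (V → Fin d → ZMod q) := by
  induction A using Finset.induction_on with
  | empty =>
    have : (univ.filter (fun p : V → Fin d → ZMod q => ¬ AffI p (∅ : Finset V))) = ∅ := by
      refine Finset.filter_eq_empty_iff.mpr fun p _ hp => hp ?_
      unfold AffI
      exact affineIndependent_of_subsingleton _ _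
    rw [this]
    simp
  | insert x A hx ih =>
    rw [Finset.card_insert_of_notMem hx] at hA ⊢
    have ih' := ih (by omega)
    set Hs : (V → Fin d → ZMod q) → Prop :=
      fun p => p x ∈ affineSpan (ZMod q) (p '' (A : Set V)) with hHs
    have h1 : (univ.filter (fun p : V → Fin d → ZMod q => ¬ AffI p (insert x A))).card ≤
        (univ.filter (fun p : V → Fin d → ZMod q => ¬ AffI p A)).card +
          (univ.filter Hs).card := by
      refine (Finset.card_le_card ?_).trans (Finset.card_union_le _ _)
      intro p hp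
      rw [Finset.mem_union, Finset.mem_filter, Finset.mem_filter]
      by_cases h1 : AffI p A
      · right
        refine ⟨Finset.mem_univ _, ?_⟩
        by_contra h2
        exact (Finset.mem_filter.mp hp).2 (FqD_ext h1 h2)
      · left
        exact ⟨Finset.mem_univ _, h1⟩
    have h2 : (univ.filter Hs).card * q ^ d ≤
        Fintype.card (V → Fin d → ZMod q) * q ^ (d - 1) := by
      have := FqD_few x Hs (q ^ (d - 1)) ?_
      · rwa [FqD_cardPt] at this
      · intro p
        have : (fun b => Hs (Function.update p x b)) =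
            fun b => b ∈ affineSpan (ZMod q) (p '' (A : Set V)) := by
          funext b
          rw [hHs]
          simp only
          rw [FqD_span_update hx, Function.update_self]
        simp only [this]
        exact FqD_span p A (by omega)
    have h3 : (univ.filter Hs).card * q ≤ Fintype.card (V → Fin d → ZMod q) := by
      have hq : 0 < q ^ (d - 1) := Nat.pow_pos (Fact.out (p := q.Prime)).pos
      refine Nat.le_of_mul_le_mul_right ?_ hq
      calc (univ.filter Hs).card * q * q ^ (d - 1) = (univ.filter Hs).card * q ^ d := by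
            rw [mul_assoc, ← pow_succ', Nat.sub_add_cancel hd]
        _ ≤ _ := h2
    calc _ ≤ ((univ.filter (fun p : V → Fin d → ZMod q => ¬ AffI p A)).card +
          (univ.filter Hs).card) * q := Nat.mul_le_mul_right _ h1
      _ = (univ.filter (fun p : V → Fin d → ZMod q => ¬ AffI p A)).card * q +
          (univ.filter Hs).card * q := add_mul _ _ _
      _ ≤ A.card * Fintype.card (V → Fin d → ZMod q) + Fintype.card (V → Fin d → ZMod q) :=
          Nat.add_le_add ih' h3
      _ = _ := by ring

open Classical in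
private theorem FqD_sz (P : MvPolynomial (V × Fin d) (ZMod q)) (hP : P ≠ 0) :
    (univ.filter (fun p : V → Fin d → ZMod q =>
      MvPolynomial.eval (fun x : V × Fin d => p x.1 x.2) P = 0)).card * q ≤
      P.totalDegree * Fintype.card (V → Fin d → ZMod q) := by
  set n := Fintype.card (V × Fin d) with hn
  set e : V × Fin d ≃ Fin n := Fintype.equivFin _ with he
  set P' : MvPolynomial (Fin n) (ZMod q) := MvPolynomial.rename e P with hP'
  have hP0 : P' ≠ 0 := by
    intro h0
    apply hP
    apply MvPolynomial.rename_injective e e.injective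
    rw [← hP', h0, map_zero]
  have hdeg : P'.totalDegree ≤ P.totalDegree := MvPolynomial.totalDegree_rename_le e P
  have hsz := MvPolynomial.schwartz_zippel_totalDegree hP0 (univ : Finset (ZMod q))
  have hq : 0 < q := (Fact.out (p := q.Prime)).pos
  have hcardS : (univ : Finset (ZMod q)).card = q := by rw [Finset.card_univ, ZMod.card]
  rw [hcardS] at hsz
  have hcount : (univ.filter (fun p : V → Fin d → ZMod q =>
      MvPolynomial.eval (fun x : V × Fin d => p x.1 x.2) P = 0)).card =
      (Finset.filter (fun f => MvPolynomial.eval f P' = 0)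
        (Fintype.piFinset fun _ : Fin n => (univ : Finset (ZMod q)))).card := by
    refine Finset.card_bij' (fun p _ => fun i => p (e.symm i).1 (e.symm i).2)
      (fun f _ => fun v i => f (e (v, i))) ?_ ?_ ?_ ?_
    · intro p hp
      simp only [Finset.mem_filter, Fintype.mem_piFinset, Finset.mem_univ, true_and,
        implies_true] at hp ⊢
      rw [hP', MvPolynomial.eval_rename]
      convert hp using 3
      funext x
      simp
    · intro f hf
      simp only [Finset.mem_filter, Fintype.mem_piFinset, Finset.mem_univ, true_and,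
        implies_true] at hf ⊢
      rw [hP', MvPolynomial.eval_rename] at hf
      exact hf
    · intro p _
      funext v i
      simp
    · intro f _
      funext i
      simp
  have hcardV : Fintype.card (V → Fin d → ZMod q) = q ^ n := by
    rw [Fintype.card_fun, Fintype.card_fun, ZMod.card, Fintype.card_fin, ← pow_mul, hn,
      Fintype.card_prod, Fintype.card_fin, mul_comm]
  rw [hcount, hcardV]
  have hqn : (0 : ℚ≥0) < (q : ℚ≥0) ^ n := pow_pos (by exact_mod_cast hq) n
  have hq0 : (0 : ℚ≥0) < (q : ℚ≥0) := by exact_mod_cast hq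
  rw [div_le_div_iff₀ hqn hq0] at hsz
  have h4 : (Finset.filter (fun f => MvPolynomial.eval f P' = 0)
        (Fintype.piFinset fun _ : Fin n => (univ : Finset (ZMod q)))).card * q ≤
      P'.totalDegree * q ^ n := by exact_mod_cast hsz
  exact h4.trans (Nat.mul_le_mul_right _ hdeg)

private theorem FqD_sub (S : Finset V) (k : ℕ) :
    (S.powerset.filter (fun T => T.card ≤ k)).card ≤ (k + 1) * (S.card + 1) ^ k := by
  have h1 : S.powerset.filter (fun T => T.card ≤ k) ⊆
      (range (k + 1)).biUnion (fun j => powersetCard j S) := by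
    intro T hT
    rw [Finset.mem_filter, Finset.mem_powerset] at hT
    rw [Finset.mem_biUnion]
    exact ⟨T.card, Finset.mem_range.mpr (by omega), Finset.mem_powersetCard.mpr ⟨hT.1, rfl⟩⟩
  refine (Finset.card_le_card h1).trans (Finset.card_biUnion_le.trans ?_)
  calc ∑ j ∈ range (k + 1), (powersetCard j S).card
      ≤ ∑ _j ∈ range (k + 1), (S.card + 1) ^ k := by
        refine Finset.sum_le_sum fun j hj => ?_
        rw [Finset.card_powersetCard]
        have hj' : j ≤ k := by
          have := Finset.mem_range.mp hj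
          omega
        calc S.card.choose j ≤ S.card ^ j := Nat.choose_le_pow _ _
          _ ≤ (S.card + 1) ^ j := Nat.pow_le_pow_left (Nat.le_succ _) _
          _ ≤ (S.card + 1) ^ k := Nat.pow_le_pow_right (Nat.succ_pos _) hj'
    _ = _ := by rw [Finset.sum_const, Finset.card_range, smul_eq_mul]

private theorem FqD_eval (P : MvPolynomial (V × Fin d) (ZMod q)) (x : V)
    (hxP : x ∉ P.vars.image Prod.fst) (p : V → Fin d → ZMod q) (b : Fin d → ZMod q) :
    MvPolynomial.eval (fun y : V × Fin d => Function.update p x b y.1 y.2) P =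
      MvPolynomial.eval (fun y : V × Fin d => p y.1 y.2) P := by
  refine MvPolynomial.eval₂Hom_congr' rfl ?_ rfl
  intro y hy _
  have hne : y.1 ≠ x := by
    rintro rfl
    exact hxP (Finset.mem_image_of_mem _ hy)
  rw [Function.update_of_ne hne]

open Classical in
/-- partial goodness -/
private def FqD_Good (E : Finset (Sym2 V)) (P : MvPolynomial (V × Fin d) (ZMod q)) (L : ℝ)
    (X : Finset V) (p : V → Fin d → ZMod q) : Prop :=
  (∀ v, ∀ T : Finset V, T.card ≤ d → (∀ w ∈ T, s(v, w) ∈ E) → AffI p (insert v T ∩ X)) ∧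
  (∀ b, ((X.filter (fun v => p v = b)).card : ℝ) ≤ L) ∧
  MvPolynomial.eval (fun x : V × Fin d => p x.1 x.2) P ≠ 0

open Classical in
private theorem FqD_step (E : Finset (Sym2 V)) (P : MvPolynomial (V × Fin d) (ZMod q)) (L : ℝ)
    (D : ℕ) (hD : ∀ v, nb E univ v ≤ D)
    (hstar : 4 * ((D + 1) * (((d + 1) * (D + 1) ^ d) * q ^ (d - 1))) ≤ q ^ d)
    (X : Finset V) (x : V) (hx : x ∉ X) (hxP : x ∉ P.vars.image Prod.fst)
    (hpos : ∀ p : V → Fin d → ZMod q, 4 * (univ.filter (fun b : Fin d → ZMod q =>
      L - 1 < ((X.filter (fun v => p v = b)).card : ℝ))).card ≤ q ^ d)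
    (p : V → Fin d → ZMod q) (hp : FqD_Good E P L X p) :
    Fintype.card (Fin d → ZMod q) ≤
      2 * (univ.filter (fun b => FqD_Good E P L (insert x X) (Function.update p x b))).card := by
  set W : Finset V := univ.filter (fun v => v = x ∨ s(v, x) ∈ E) with hW
  set Nn : V → Finset V := fun v => univ.filter (fun w => s(v, w) ∈ E) with hNn
  set B1 : Finset (Fin d → ZMod q) := W.biUnion fun v =>
    ((Nn v).powerset.filter (fun T => T.card ≤ d ∧ x ∈ insert v T)).biUnion fun T =>
      univ.filter (fun b : Fin d → ZMod q =>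
        b ∈ affineSpan (ZMod q) (p '' ((insert v T ∩ X : Finset V) : Set V))) with hB1
  set B2 : Finset (Fin d → ZMod q) := univ.filter (fun b : Fin d → ZMod q =>
      L - 1 < ((X.filter (fun v => p v = b)).card : ℝ)) with hB2
  set G' : Finset (Fin d → ZMod q) := univ.filter (fun b =>
    FqD_Good E P L (insert x X) (Function.update p x b)) with hG'
  have hNc : ∀ v, (Nn v).card ≤ D := hD
  have hWc : W.card ≤ D + 1 := by
    have h1 : W ⊆ insert x (Nn x) := by
      intro v hv
      rcases (Finset.mem_filter.mp hv).2 with h | h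
      · exact Finset.mem_insert.mpr (Or.inl h)
      · refine Finset.mem_insert.mpr (Or.inr (Finset.mem_filter.mpr ⟨Finset.mem_univ _, ?_⟩))
        rw [Sym2.eq_swap]
        exact h
    exact (Finset.card_le_card h1).trans ((Finset.card_insert_le _ _).trans
      (Nat.succ_le_succ (hNc x)))
  have hB1c : B1.card ≤ (D + 1) * (((d + 1) * (D + 1) ^ d) * q ^ (d - 1)) := by
    refine (Finset.card_biUnion_le_card_mul _ _ (((d + 1) * (D + 1) ^ d) * q ^ (d - 1))
      fun v _ => ?_).trans (Nat.mul_le_mul_right _ hWc)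
    refine (Finset.card_biUnion_le_card_mul _ _ (q ^ (d - 1)) fun T hT => ?_).trans
      (Nat.mul_le_mul_right _ ?_)
    · refine FqD_span p _ ?_
      obtain ⟨_, hTd, hxT⟩ := Finset.mem_filter.mp hT
      have h1 : insert v T ∩ X ⊆ (insert v T).erase x := by
        intro y hy
        rw [Finset.mem_inter] at hy
        refine Finset.mem_erase.mpr ⟨?_, hy.1⟩
        rintro rfl
        exact hx hy.2
      refine (Finset.card_le_card h1).trans ?_
      rw [Finset.card_erase_of_mem hxT]
      have := Finset.card_insert_le v T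
      omega
    · calc ((Nn v).powerset.filter (fun T => T.card ≤ d ∧ x ∈ insert v T)).card
          ≤ ((Nn v).powerset.filter (fun T => T.card ≤ d)).card := by
            refine Finset.card_le_card fun T hT => ?_
            rw [Finset.mem_filter] at hT ⊢
            exact ⟨hT.1, hT.2.1⟩
        _ ≤ (d + 1) * ((Nn v).card + 1) ^ d := FqD_sub _ _
        _ ≤ (d + 1) * (D + 1) ^ d :=
            Nat.mul_le_mul_left _ (Nat.pow_le_pow_left (Nat.succ_le_succ (hNc v)) _)
  have hB2c : 4 * B2.card ≤ q ^ d := hpos p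
  have hcov : (univ : Finset (Fin d → ZMod q)) ⊆ B1 ∪ B2 ∪ G' := by
    intro b _
    by_cases hb1 : b ∈ B1
    · exact Finset.mem_union_left _ (Finset.mem_union_left _ hb1)
    by_cases hb2 : b ∈ B2
    · exact Finset.mem_union_left _ (Finset.mem_union_right _ hb2)
    refine Finset.mem_union_right _ (Finset.mem_filter.mpr ⟨Finset.mem_univ _, ?_, ?_, ?_⟩)
    · intro v T hT hTE
      have hagree : ∀ y ∈ insert v T ∩ X, p y = Function.update p x b y := by
        intro y hy
        rw [Function.update_of_ne]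
        rintro rfl
        exact hx (Finset.mem_inter.mp hy).2
      have hbase : AffI (Function.update p x b) (insert v T ∩ X) :=
        FqD_congr hagree (hp.1 v T hT hTE)
      by_cases hxZ : x ∈ insert v T
      · rw [Finset.inter_insert_of_mem hxZ]
        refine FqD_ext hbase ?_
        rw [FqD_span_update (fun h => hx (Finset.mem_inter.mp h).2), Function.update_self]
        intro hmem
        apply hb1
        rw [hB1, Finset.mem_biUnion]
        refine ⟨v, ?_, ?_⟩
        · refine Finset.mem_filter.mpr ⟨Finset.mem_univ _, ?_⟩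
          rcases Finset.mem_insert.mp hxZ with h | h
          · exact Or.inl h.symm
          · exact Or.inr (hTE x h)
        · rw [Finset.mem_biUnion]
          refine ⟨T, Finset.mem_filter.mpr ⟨Finset.mem_powerset.mpr ?_, hT, hxZ⟩,
            Finset.mem_filter.mpr ⟨Finset.mem_univ _, hmem⟩⟩
          intro w hw
          exact Finset.mem_filter.mpr ⟨Finset.mem_univ _, hTE w hw⟩
      · rw [Finset.inter_insert_of_notMem hxZ]
        exact hbase
    · intro b'
      have hfil : X.filter (fun v => Function.update p x b v = b') =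
          X.filter (fun v => p v = b') := by
        refine Finset.filter_congr fun v hv => ?_
        rw [Function.update_of_ne]
        rintro rfl
        exact hx hv
      rw [Finset.filter_insert, Function.update_self, hfil]
      split_ifs with hbb
      · subst hbb
        rw [Finset.card_insert_of_notMem (fun h => hx (Finset.mem_filter.mp h).1)]
        have : ¬ (L - 1 < ((X.filter (fun v => p v = b)).card : ℝ)) := by
          intro h
          exact hb2 (Finset.mem_filter.mpr ⟨Finset.mem_univ _, h⟩)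
        push_cast
        linarith
      · exact hp.2.1 b'
    · rw [FqD_eval P x hxP]
      exact hp.2.2
  have hcard : q ^ d ≤ B1.card + B2.card + G'.card := by
    rw [← FqD_cardPt, ← Finset.card_univ]
    exact (Finset.card_le_card hcov).trans ((Finset.card_union_le _ _).trans
      (Nat.add_le_add_right (Finset.card_union_le _ _) _))
  rw [FqD_cardPt]
  omega

open Classical in
private theorem FqD_base (hd : 1 ≤ d) (E : Finset (Sym2 V))
    (P : MvPolynomial (V × Fin d) (ZMod q)) (hP : P ≠ 0) (L : ℝ) (I : Finset V)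
    (hIL : (I.card : ℝ) ≤ L)
    (hnum : 2 * ((d + 2) * (I.card + 1) ^ (d + 1) * (d + 1) + P.totalDegree) ≤ q) :
    Fintype.card (V → Fin d → ZMod q) ≤
      2 * (univ.filter (fun p : V → Fin d → ZMod q => FqD_Good E P L I p)).card := by
  set T0 := Fintype.card (V → Fin d → ZMod q) with hT0
  have hq : 0 < q := (Fact.out (p := q.Prime)).pos
  set B1 : Finset (V → Fin d → ZMod q) :=
    (I.powerset.filter (fun A => A.card ≤ d + 1)).biUnion fun A =>
      univ.filter (fun p : V → Fin d → ZMod q => ¬ AffI p A) with hB1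
  set B2 : Finset (V → Fin d → ZMod q) := univ.filter (fun p : V → Fin d → ZMod q =>
    MvPolynomial.eval (fun x : V × Fin d => p x.1 x.2) P = 0) with hB2
  set G' : Finset (V → Fin d → ZMod q) :=
    univ.filter (fun p : V → Fin d → ZMod q => FqD_Good E P L I p) with hG'
  have h1 : B1.card * q ≤ (d + 2) * (I.card + 1) ^ (d + 1) * (d + 1) * T0 := by
    calc B1.card * q ≤ (∑ A ∈ I.powerset.filter (fun A => A.card ≤ d + 1),
          (univ.filter (fun p : V → Fin d → ZMod q => ¬ AffI p A)).card) * q :=
          Nat.mul_le_mul_right _ Finset.card_biUnion_le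
      _ = ∑ A ∈ I.powerset.filter (fun A => A.card ≤ d + 1),
          (univ.filter (fun p : V → Fin d → ZMod q => ¬ AffI p A)).card * q :=
          Finset.sum_mul _ _ _
      _ ≤ ∑ A ∈ I.powerset.filter (fun A => A.card ≤ d + 1), (d + 1) * T0 := by
          refine Finset.sum_le_sum fun A hA => ?_
          have hAc := (Finset.mem_filter.mp hA).2
          exact (FqD_na hd A hAc).trans (Nat.mul_le_mul_right _ hAc)
      _ = (I.powerset.filter (fun A => A.card ≤ d + 1)).card * ((d + 1) * T0) := by
          rw [Finset.sum_const, smul_eq_mul]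
      _ ≤ ((d + 1 + 1) * (I.card + 1) ^ (d + 1)) * ((d + 1) * T0) :=
          Nat.mul_le_mul_right _ (FqD_sub I (d + 1))
      _ = _ := by ring
  have h2 : B2.card * q ≤ P.totalDegree * T0 := FqD_sz P hP
  have hcov : (univ : Finset (V → Fin d → ZMod q)) ⊆ B1 ∪ B2 ∪ G' := by
    intro p _
    by_cases hb1 : p ∈ B1
    · exact Finset.mem_union_left _ (Finset.mem_union_left _ hb1)
    by_cases hb2 : p ∈ B2
    · exact Finset.mem_union_left _ (Finset.mem_union_right _ hb2)
    refine Finset.mem_union_right _ (Finset.mem_filter.mpr ⟨Finset.mem_univ _, ?_, ?_, ?_⟩)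
    · intro v T hT _
      by_contra hA
      apply hb1
      rw [hB1, Finset.mem_biUnion]
      refine ⟨insert v T ∩ I, Finset.mem_filter.mpr ⟨Finset.mem_powerset.mpr
        Finset.inter_subset_right, ?_⟩, Finset.mem_filter.mpr ⟨Finset.mem_univ _, hA⟩⟩
      exact (Finset.card_le_card Finset.inter_subset_left).trans
        ((Finset.card_insert_le _ _).trans (Nat.succ_le_succ hT))
    · intro b
      refine le_trans ?_ hIL
      exact_mod_cast Finset.card_le_card (Finset.filter_subset _ _)
    · intro h0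
      exact hb2 (Finset.mem_filter.mpr ⟨Finset.mem_univ _, h0⟩)
  have hcard : T0 ≤ B1.card + B2.card + G'.card := by
    rw [hT0, ← Finset.card_univ]
    exact (Finset.card_le_card hcov).trans ((Finset.card_union_le _ _).trans
      (Nat.add_le_add_right (Finset.card_union_le _ _) _))
  have h3 : 2 * (B1.card + B2.card) ≤ T0 := by
    refine Nat.le_of_mul_le_mul_right ?_ hq
    calc 2 * (B1.card + B2.card) * q = 2 * (B1.card * q + B2.card * q) := by ring
      _ ≤ 2 * ((d + 2) * (I.card + 1) ^ (d + 1) * (d + 1) * T0 + P.totalDegree * T0) :=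
          Nat.mul_le_mul_left _ (Nat.add_le_add h1 h2)
      _ = (2 * ((d + 2) * (I.card + 1) ^ (d + 1) * (d + 1) + P.totalDegree)) * T0 := by ring
      _ ≤ q * T0 := Nat.mul_le_mul_right _ hnum
      _ = T0 * q := mul_comm _ _
  omega

open Classical in
private theorem FqD_all (hd : 1 ≤ d) (E : Finset (Sym2 V))
    (P : MvPolynomial (V × Fin d) (ZMod q)) (hP : P ≠ 0) (L : ℝ)
    (hIL : ((P.vars.image Prod.fst).card : ℝ) ≤ L)
    (hnum : 2 * ((d + 2) * ((P.vars.image Prod.fst).card + 1) ^ (d + 1) * (d + 1)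
      + P.totalDegree) ≤ q)
    (D : ℕ) (hD : ∀ v, nb E univ v ≤ D)
    (hstar : 4 * ((D + 1) * (((d + 1) * (D + 1) ^ d) * q ^ (d - 1))) ≤ q ^ d)
    (hpos : ∀ (X : Finset V) (p : V → Fin d → ZMod q),
      4 * (univ.filter (fun b : Fin d → ZMod q =>
      L - 1 < ((X.filter (fun v => p v = b)).card : ℝ))).card ≤ q ^ d)
    (Y : Finset V) (hY : Disjoint Y (P.vars.image Prod.fst)) :
    Fintype.card (V → Fin d → ZMod q) ≤ 2 ^ (Y.card + 1) *
      (univ.filter (fun p : V → Fin d → ZMod q =>
        FqD_Good E P L (P.vars.image Prod.fst ∪ Y) p)).card := by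
  induction Y using Finset.induction_on with
  | empty =>
    rw [Finset.union_empty, Finset.card_empty, zero_add, pow_one]
    exact FqD_base hd E P hP L _ hIL hnum
  | insert x Y hx ih =>
    rw [Finset.disjoint_insert_left] at hY
    have ih' := ih hY.2
    have h1 := FqD_half x (fun p => FqD_Good E P L (P.vars.image Prod.fst ∪ Y) p)
      (fun p => FqD_Good E P L (insert x (P.vars.image Prod.fst ∪ Y)) p) (fun p hp =>
        FqD_step E P L D hD hstar _ x (by
          rw [Finset.mem_union, not_or]
          exact ⟨hY.1, hx⟩) hY.1 (hpos _) p hp)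
    rw [Finset.card_insert_of_notMem hx, Finset.union_insert]
    calc _ ≤ _ := ih'
      _ ≤ 2 ^ (Y.card + 1) * (2 * _) := Nat.mul_le_mul_left _ h1
      _ = _ := by ring

end FqD

/-- the numerical conditions for large `N` -/
private theorem FqD_num (d : ℕ) (hd : 2 ≤ d) (K C₂ : ℝ) : ∃ N₀ : ℕ, ∀ N : ℕ, N₀ ≤ N →
    1 ≤ (N : ℝ) ∧ 3 ≤ Real.log N ∧
    K * Real.log N ^ (2 * (d + 1)) ≤ (N : ℝ) ^ (1 / (4 * (d : ℝ))) / 2 ∧
    C₂ * (N : ℝ) ^ (1 / 4 : ℝ) ≤ N := by
  have hd0 : (0 : ℝ) < 1 / (4 * (d : ℝ)) := by positivity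
  have h1 : ∀ᶠ x : ℝ in Filter.atTop, 1 ≤ x := Filter.eventually_ge_atTop 1
  have h2 : ∀ᶠ x : ℝ in Filter.atTop, 3 ≤ Real.log x :=
    Real.tendsto_log_atTop.eventually_ge_atTop 3
  have h3 : ∀ᶠ x : ℝ in Filter.atTop,
      K * Real.log x ^ (2 * (d + 1)) ≤ x ^ (1 / (4 * (d : ℝ))) / 2 := by
    have hlo := isLittleO_log_rpow_rpow_atTop ((2 * (d + 1) : ℕ) : ℝ) hd0
    have hc : (0 : ℝ) < 1 / (2 * (|K| + 1)) := by positivity
    filter_upwards [hlo.def hc, h1, h2] with x hx hx1 hx2
    have hlog : 0 ≤ Real.log x := by linarith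
    rw [Real.rpow_natCast, Real.norm_of_nonneg (pow_nonneg hlog _),
      Real.norm_of_nonneg (Real.rpow_nonneg (by linarith) _)] at hx
    have hKp : 0 < |K| + 1 := by positivity
    have hK : K ≤ |K| + 1 := by linarith [le_abs_self K]
    calc K * Real.log x ^ (2 * (d + 1)) ≤ (|K| + 1) * Real.log x ^ (2 * (d + 1)) :=
          mul_le_mul_of_nonneg_right hK (pow_nonneg hlog _)
      _ ≤ (|K| + 1) * (1 / (2 * (|K| + 1)) * x ^ (1 / (4 * (d : ℝ)))) :=
          mul_le_mul_of_nonneg_left hx hKp.le
      _ = x ^ (1 / (4 * (d : ℝ))) / 2 := by field_simp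
  have h4 : ∀ᶠ x : ℝ in Filter.atTop, C₂ * x ^ (1 / 4 : ℝ) ≤ x := by
    have ht : Filter.Tendsto (fun x : ℝ => x ^ (3 / 4 : ℝ)) Filter.atTop Filter.atTop :=
      tendsto_rpow_atTop (by norm_num)
    filter_upwards [ht.eventually_ge_atTop C₂, h1] with x hx hx1
    have hx0 : 0 < x := by linarith
    calc C₂ * x ^ (1 / 4 : ℝ) ≤ x ^ (3 / 4 : ℝ) * x ^ (1 / 4 : ℝ) :=
          mul_le_mul_of_nonneg_right hx (Real.rpow_nonneg hx0.le _)
      _ = x := by
          rw [← Real.rpow_add hx0]
          norm_num
  have hall := h1.and (h2.and (h3.and h4))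
  obtain ⟨N₀, hN₀⟩ := Filter.eventually_atTop.mp
    ((tendsto_natCast_atTop_atTop (R := ℝ)).eventually hall)
  exact ⟨N₀, fun N hN => hN₀ N hN⟩

open Classical in
theorem many_good (d : ℕ) (hd : 2 ≤ d) (C₂ c₃ : ℝ) (hC₂ : 0 < C₂) (hc₃ : 0 < c₃) : ∃ N₀ : ℕ,
    ∀ (V : Type) [Fintype V] [DecidableEq V], N₀ ≤ Fintype.card V →
    ∀ (q : ℕ) [Fact q.Prime], (Fintype.card V : ℝ) ^ (1 / (4 * (d : ℝ))) / 2 ≤ q →
      (q : ℝ) ≤ (Fintype.card V : ℝ) ^ (1 / (4 * (d : ℝ))) →
    ∀ (E : Finset (Sym2 V)), Lpl E → E3 c₃ (Fintype.card V) E →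
    ∀ P : MvPolynomial (V × Fin d) (ZMod q), P ≠ 0 →
      (P.totalDegree : ℝ) ≤ C₂ * Real.log (Fintype.card V) →
      ((P.vars.image Prod.fst).card : ℝ) ≤ C₂ * Real.log (Fintype.card V) ^ 2 →
    (q : ℝ) ^ (d * Fintype.card V) ≤ 2 ^ (Fintype.card V + 1) *
      ((univ.filter (fun p : V → Fin d → ZMod q =>
        (∀ v, ∀ T : Finset V, T.card ≤ d → (∀ w ∈ T, s(v, w) ∈ E) → AffI p (insert v T)) ∧
        (∀ b, ((univ.filter (fun v => p v = b)).card : ℝ) ≤
          Real.log (Fintype.card V) ^ 2 * Fintype.card V / (q : ℝ) ^ d) ∧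
        MvPolynomial.eval (fun x : V × Fin d => p x.1 x.2) P ≠ 0)).card : ℝ) := by
  set K : ℝ := 4 * (d + 1) * (c₃ + 1) ^ (d + 1) +
    (2 * ((d + 2) * (C₂ + 1) ^ (d + 1) * (d + 1)) + 2 * C₂) with hK
  obtain ⟨N₀, hN₀⟩ := FqD_num d hd K C₂
  refine ⟨N₀, ?_⟩
  intro V _ _ hV q _ hq1 hq2 E _ hE3 P hP hdeg hvars
  set N := Fintype.card V with hN
  obtain ⟨n1, n2, n3, n4⟩ := hN₀ N hV
  set ℓ := Real.log N with hℓ
  have hq0 : 0 < q := (Fact.out (p := q.Prime)).pos
  have hqR : (0 : ℝ) < q := by exact_mod_cast hq0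
  have hN0 : (0 : ℝ) < N := by linarith
  have hℓ1 : 1 ≤ ℓ := by linarith
  have hℓ0 : 0 ≤ ℓ := by linarith
  have hKq : K * ℓ ^ (2 * (d + 1)) ≤ q := n3.trans hq1
  set D : ℕ := ⌊c₃ * ℓ⌋₊ with hDdef
  have hD : ∀ v, nb E univ v ≤ D := fun v => Nat.le_floor (hE3 v)
  have hDR : (D : ℝ) ≤ c₃ * ℓ := Nat.floor_le (by positivity)
  set L : ℝ := ℓ ^ 2 * N / (q : ℝ) ^ d with hL
  have hqd : (q : ℝ) ^ d ≤ (N : ℝ) ^ (1 / 4 : ℝ) := by
    calc (q : ℝ) ^ d ≤ ((N : ℝ) ^ (1 / (4 * (d : ℝ)))) ^ d :=
          pow_le_pow_left₀ hqR.le hq2 d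
      _ = (N : ℝ) ^ (1 / 4 : ℝ) := by
          rw [← Real.rpow_natCast, ← Real.rpow_mul hN0.le]
          congr 1
          have : (d : ℝ) ≠ 0 := by
            have : d ≠ 0 := by omega
            exact_mod_cast this
          field_simp
  have hqdN : (q : ℝ) ^ d ≤ N := by
    refine hqd.trans ?_
    calc (N : ℝ) ^ (1 / 4 : ℝ) ≤ (N : ℝ) ^ (1 : ℝ) :=
          Real.rpow_le_rpow_of_exponent_le n1 (by norm_num)
      _ = N := Real.rpow_one _
  have hqdpos : (0 : ℝ) < (q : ℝ) ^ d := pow_pos hqR d
  have hpow1 : ℓ ^ (d + 1) ≤ ℓ ^ (2 * (d + 1)) := pow_le_pow_right₀ hℓ1 (by omega)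
  have hpow2 : ℓ ≤ ℓ ^ (2 * (d + 1)) := by
    calc ℓ = ℓ ^ 1 := (pow_one _).symm
      _ ≤ _ := pow_le_pow_right₀ hℓ1 (by omega)
  -- stars
  have hstar' : 4 * ((d + 1) * (D + 1) ^ (d + 1)) ≤ q := by
    have : (4 : ℝ) * ((d + 1) * ((D : ℝ) + 1) ^ (d + 1)) ≤ q := by
      calc (4 : ℝ) * ((d + 1) * ((D : ℝ) + 1) ^ (d + 1))
          ≤ 4 * ((d + 1) * ((c₃ + 1) * ℓ) ^ (d + 1)) := by
            have : (D : ℝ) + 1 ≤ (c₃ + 1) * ℓ := by
              calc (D : ℝ) + 1 ≤ c₃ * ℓ + ℓ := by linarith
                _ = _ := by ring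
            gcongr
        _ = 4 * (d + 1) * (c₃ + 1) ^ (d + 1) * ℓ ^ (d + 1) := by
            rw [mul_pow]
            ring
        _ ≤ 4 * (d + 1) * (c₃ + 1) ^ (d + 1) * ℓ ^ (2 * (d + 1)) := by gcongr
        _ ≤ K * ℓ ^ (2 * (d + 1)) := by
            refine mul_le_mul_of_nonneg_right ?_ (by positivity)
            rw [hK]
            have : (0 : ℝ) ≤ 2 * ((d + 2) * (C₂ + 1) ^ (d + 1) * (d + 1)) + 2 * C₂ := by
              positivity
            linarith
        _ ≤ q := hKq
    exact_mod_cast this
  have hstar : 4 * ((D + 1) * (((d + 1) * (D + 1) ^ d) * q ^ (d - 1))) ≤ q ^ d := by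
    calc 4 * ((D + 1) * (((d + 1) * (D + 1) ^ d) * q ^ (d - 1)))
        = (4 * ((d + 1) * (D + 1) ^ (d + 1))) * q ^ (d - 1) := by ring
      _ ≤ q * q ^ (d - 1) := Nat.mul_le_mul_right _ hstar'
      _ = q ^ d := by rw [← pow_succ', Nat.sub_add_cancel (by omega)]
  -- the base
  have hnum : 2 * ((d + 2) * ((P.vars.image Prod.fst).card + 1) ^ (d + 1) * (d + 1)
      + P.totalDegree) ≤ q := by
    have : (2 : ℝ) * ((d + 2) * (((P.vars.image Prod.fst).card : ℝ) + 1) ^ (d + 1) * (d + 1)
        + P.totalDegree) ≤ q := by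
      calc (2 : ℝ) * ((d + 2) * (((P.vars.image Prod.fst).card : ℝ) + 1) ^ (d + 1) * (d + 1)
          + P.totalDegree)
          ≤ 2 * ((d + 2) * ((C₂ + 1) * ℓ ^ 2) ^ (d + 1) * (d + 1) + C₂ * ℓ) := by
            have h5 : ((P.vars.image Prod.fst).card : ℝ) + 1 ≤ (C₂ + 1) * ℓ ^ 2 := by
              have : (1 : ℝ) ≤ ℓ ^ 2 := one_le_pow₀ hℓ1
              linarith
            gcongr
        _ = (2 * ((d + 2) * (C₂ + 1) ^ (d + 1) * (d + 1))) * ℓ ^ (2 * (d + 1))
            + 2 * C₂ * ℓ := by
            rw [mul_pow, ← pow_mul]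
            ring
        _ ≤ (2 * ((d + 2) * (C₂ + 1) ^ (d + 1) * (d + 1))) * ℓ ^ (2 * (d + 1))
            + 2 * C₂ * ℓ ^ (2 * (d + 1)) := by gcongr
        _ = (2 * ((d + 2) * (C₂ + 1) ^ (d + 1) * (d + 1)) + 2 * C₂) * ℓ ^ (2 * (d + 1)) := by
            ring
        _ ≤ K * ℓ ^ (2 * (d + 1)) := by
            refine mul_le_mul_of_nonneg_right ?_ (by positivity)
            rw [hK]
            have : (0 : ℝ) ≤ 4 * (d + 1) * (c₃ + 1) ^ (d + 1) := by positivity
            linarith
        _ ≤ q := hKq
    exact_mod_cast this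
  have hIL : ((P.vars.image Prod.fst).card : ℝ) ≤ L := by
    refine hvars.trans ?_
    rw [hL, le_div_iff₀ hqdpos]
    calc C₂ * ℓ ^ 2 * (q : ℝ) ^ d ≤ C₂ * ℓ ^ 2 * (N : ℝ) ^ (1 / 4 : ℝ) := by gcongr
      _ = ℓ ^ 2 * (C₂ * (N : ℝ) ^ (1 / 4 : ℝ)) := by ring
      _ ≤ ℓ ^ 2 * N := by gcongr
  -- crowded positions
  have hpos : ∀ (X : Finset V) (p : V → Fin d → ZMod q),
      4 * (univ.filter (fun b : Fin d → ZMod q =>
      L - 1 < ((X.filter (fun v => p v = b)).card : ℝ))).card ≤ q ^ d := by
    intro X p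
    set B := univ.filter (fun b : Fin d → ZMod q =>
      L - 1 < ((X.filter (fun v => p v = b)).card : ℝ)) with hB
    have h1 : (B.card : ℝ) * (L - 1) ≤ N := by
      calc (B.card : ℝ) * (L - 1) = ∑ b ∈ B, (L - 1) := by
            rw [Finset.sum_const, nsmul_eq_mul]
        _ ≤ ∑ b ∈ B, ((X.filter (fun v => p v = b)).card : ℝ) :=
            Finset.sum_le_sum fun b hb => (Finset.mem_filter.mp hb).2.le
        _ ≤ ∑ b : Fin d → ZMod q, ((X.filter (fun v => p v = b)).card : ℝ) :=
            Finset.sum_le_sum_of_subset_of_nonneg (Finset.subset_univ _)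
              fun _ _ _ => Nat.cast_nonneg _
        _ = (X.card : ℝ) := by
            rw [← Nat.cast_sum]
            congr 1
            exact (Finset.card_eq_sum_card_fiberwise (f := p) (s := X) (t := univ)
              (fun v _ => Finset.mem_coe.mpr (Finset.mem_univ _))).symm
        _ ≤ N := by
            rw [hN]
            exact_mod_cast Finset.card_le_univ X
    have hL8 : ℓ ^ 2 ≤ L := by
      rw [hL, le_div_iff₀ hqdpos]
      exact mul_le_mul_of_nonneg_left hqdN (by positivity)
    have hℓ9 : (9 : ℝ) ≤ ℓ ^ 2 := by nlinarith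
    have h2 : (B.card : ℝ) * (L / 2) ≤ N := by
      refine le_trans (mul_le_mul_of_nonneg_left ?_ (Nat.cast_nonneg _)) h1
      linarith
    have h3 : (4 : ℝ) * B.card ≤ (q : ℝ) ^ d := by
      have h4 : (B.card : ℝ) * (ℓ ^ 2 * N) ≤ 2 * N * (q : ℝ) ^ d := by
        rw [hL] at h2
        have := mul_le_mul_of_nonneg_right h2 (mul_nonneg (by norm_num : (0 : ℝ) ≤ 2) hqdpos.le)
        calc (B.card : ℝ) * (ℓ ^ 2 * N) =
            (B.card : ℝ) * (ℓ ^ 2 * N / (q : ℝ) ^ d / 2) * (2 * (q : ℝ) ^ d) := by
              field_simp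
          _ ≤ N * (2 * (q : ℝ) ^ d) := this
          _ = _ := by ring
      have h5 : (B.card : ℝ) * ℓ ^ 2 ≤ 2 * (q : ℝ) ^ d := by
        refine le_of_mul_le_mul_right ?_ hN0
        calc (B.card : ℝ) * ℓ ^ 2 * N = (B.card : ℝ) * (ℓ ^ 2 * N) := by ring
          _ ≤ 2 * N * (q : ℝ) ^ d := h4
          _ = _ := by ring
      have h6 : (B.card : ℝ) * 9 ≤ (B.card : ℝ) * ℓ ^ 2 :=
        mul_le_mul_of_nonneg_left hℓ9 (Nat.cast_nonneg _)
      have h7 : (0 : ℝ) ≤ B.card := Nat.cast_nonneg _
      linarith
    exact_mod_cast h3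
  have hmain := FqD_all (by omega) E P hP L hIL hnum D hD hstar hpos
    (univ \ P.vars.image Prod.fst) Finset.sdiff_disjoint
  rw [Finset.union_sdiff_of_subset (Finset.subset_univ _)] at hmain
  have hcardV : Fintype.card (V → Fin d → ZMod q) = q ^ (d * N) := by
    rw [Fintype.card_fun, Fintype.card_fun, ZMod.card, Fintype.card_fin, ← pow_mul, ← hN]
  rw [hcardV] at hmain
  have hfin : (univ.filter (fun p : V → Fin d → ZMod q => FqD_Good E P L univ p)).card =
      (univ.filter (fun p : V → Fin d → ZMod q =>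
        (∀ v, ∀ T : Finset V, T.card ≤ d → (∀ w ∈ T, s(v, w) ∈ E) → AffI p (insert v T)) ∧
        (∀ b, ((univ.filter (fun v => p v = b)).card : ℝ) ≤ L) ∧
        MvPolynomial.eval (fun x : V × Fin d => p x.1 x.2) P ≠ 0)).card := by
    congr 1
    refine Finset.filter_congr fun p _ => ?_
    unfold FqD_Good
    simp only [Finset.inter_univ]
  rw [hfin] at hmain
  have hYc : (univ \ P.vars.image Prod.fst).card ≤ N := by
    rw [hN]
    exact Finset.card_le_univ _
  have hmain2 := hmain.trans (Nat.mul_le_mul_right _ (Nat.pow_le_pow_right (by norm_num)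
    (Nat.succ_le_succ hYc)))
  exact_mod_cast hmain2

end Pool.Agent.Helper50.RG
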