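import Pool.Agent.Helper50.RG.FqE0
import Pool.Agent.Helper50.RG.RkK2

/-!
# RG-44 : a good placement and a failure of `E6` give a bad motion

`exists_badM`: `u` simple, `E = edges u`. `E6` fails for `W`, so `rk ℝ d (E ∪ Kn W) + KK d < d N` (it is at most
`d N` by `rk_Kn`, `rk_mono`), and `rkAt p (E ∪ Kn W) + KK d < d N` for the placement `p` over
`F = ZMod q` (`rkAt_le_real`). `W` contains `d + 1` vertices with affinely independent positions: otherwise all positions of `W` are in an
affine hyperplane with `q^(d-1)` points, and `|W| ≤ q^(d-1) C₁ N/q^d = C₁ N/q < ε₃ N`. By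
`exists_motion_zero_on` there is a motion `m ≠ 0` of `E` with `m = 0` on `W`. Let `B` be its support,
`|B| ≤ (1 - ε₃) N`. If `v ∈ B` had `d` neighbours outside `B`, then `m v ⬝ (p v - p w) = 0` for `d` neighbours
`w`, and these vectors are independent (`hLN`), so `m v = 0`, contradiction. So `IsB d E univ B`. If
`|B| ≤ ε N` then `B ⊆ S` by `exists_max_small` and `m = 0` by `hCN`, contradiction. So `E5` gives
`|incd E univ B| ≥ d |B| + η N`, which is the number of indices with an end in `B` (`card_incd_edges`).
Finally `exists_orient` with `sparse_of_t1` (`E` has at most `d N` edges).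
-/

set_option autoImplicit false

namespace Pool.Agent.Helper50.RG

open Finset

variable {V : Type} [Fintype V] [DecidableEq V] {d M : ℕ}

/-- a vector which is orthogonal to `d` independent differences is zero -/
private theorem FqE_zero {F : Type} [Field F] (p : V → Fin d → F) {v : V} {T : Finset V}
    (hv : v ∉ T) (hT : T.card = d) (haff : AffI p (insert v T)) (x : Fin d → F)
    (hx : ∀ w ∈ T, ∑ i, (p v i - p w i) * x i = 0) : x = 0 := by
  unfold AffI at haff
  have hcard : Fintype.card (insert v T : Finset V) = d + 1 := by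
    rw [Fintype.card_coe, card_insert_of_notMem hv, hT]
  have hfr := haff.finrank_vectorSpan hcard
  have htop : vectorSpan F (Set.range fun x : (insert v T : Finset V) => p (x : V)) = ⊤ := by
    apply Submodule.eq_top_of_finrank_eq
    rw [hfr]
    simp
  let L : (Fin d → F) →ₗ[F] F := ∑ i, x i • LinearMap.proj i
  have hL : ∀ y : Fin d → F, L y = ∑ i, y i * x i := by
    intro y
    simp only [L, LinearMap.sum_apply, LinearMap.smul_apply, LinearMap.proj_apply, smul_eq_mul]
    exact Finset.sum_congr rfl fun i _ => mul_comm _ _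
  have hker : ∀ y : Fin d → F, L y = 0 := by
    intro y
    have h1 : y ∈ vectorSpan F (Set.range fun x : (insert v T : Finset V) => p (x : V)) := by
      rw [htop]; exact Submodule.mem_top
    rw [vectorSpan_range_eq_span_range_vsub_right F _
      (⟨v, mem_insert_self v T⟩ : (insert v T : Finset V))] at h1
    have h2 : Submodule.span F (Set.range fun i : (insert v T : Finset V) =>
        p (i : V) -ᵥ p v) ≤ LinearMap.ker L := by
      rw [Submodule.span_le]
      rintro _ ⟨⟨w, hw⟩, rfl⟩
      change L (p w - p v) = 0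
      rw [hL]
      rcases mem_insert.1 hw with rfl | hwT
      · simp
      · have h3 := hx w hwT
        have h4 : ∑ i, (p w - p v) i * x i = -∑ i, (p v i - p w i) * x i := by
          rw [← Finset.sum_neg_distrib]
          exact Finset.sum_congr rfl fun i _ => by simp only [Pi.sub_apply]; ring
        rw [h4, h3, neg_zero]
    exact h2 h1
  funext i
  have h5 := hker (Pi.single i 1)
  rw [hL, Finset.sum_eq_single i] at h5
  · simpa using h5
  · intro j _ hj
    rw [Pi.single_eq_of_ne hj, zero_mul]
  · intro h
    exact absurd (mem_univ _) h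

/-- a set of vertices without `d + 1` affinely independent positions has few positions -/
private theorem FqE_few {q : ℕ} [Fact q.Prime] (hd : 1 ≤ d) (p : V → Fin d → ZMod q)
    {W : Finset V} (hW : W.Nonempty) (hno : ∀ A ⊆ W, A.card = d + 1 → ¬ AffI p A) :
    (W.image p).card ≤ q ^ (d - 1) := by
  classical
  set s : Set (Fin d → ZMod q) := ((W.image p : Finset (Fin d → ZMod q)) : Set (Fin d → ZMod q))
    with hs
  have hfr : Module.finrank (ZMod q) (Fin d → ZMod q) = d := by simp
  by_cases htop : affineSpan (ZMod q) s = ⊤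
  · exfalso
    obtain ⟨t, hts, hspan, hind⟩ := exists_affineIndependent (ZMod q) (Fin d → ZMod q) s
    have : Fintype t := Fintype.ofFinite t
    have hcard : Fintype.card t = d + 1 := by
      have h1 := hind.affineSpan_eq_top_iff_card_eq_finrank_add_one.1
        (by rw [Subtype.range_coe_subtype]; change affineSpan (ZMod q) t = ⊤; rw [hspan, htop])
      rw [h1, hfr]
    have hch : ∀ y : t, ∃ w ∈ W, p w = y := by
      intro y
      have h1 := hts y.2
      rw [hs, Finset.mem_coe, Finset.mem_image] at h1
      exact h1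
    choose w hwW hwp using hch
    have hinj : Function.Injective w := by
      intro y y' h
      apply Subtype.ext
      rw [← hwp y, ← hwp y', h]
    refine hno (univ.image w) ?_ ?_ ?_
    · intro x hx
      obtain ⟨y, _, rfl⟩ := Finset.mem_image.1 hx
      exact hwW y
    · rw [Finset.card_image_of_injective _ hinj, Finset.card_univ, hcard]
    · unfold AffI
      have hmem : ∀ x : (univ.image w : Finset V), p (x : V) ∈ t := by
        rintro ⟨x, hx⟩
        obtain ⟨y, _, rfl⟩ := Finset.mem_image.1 hx
        change p (w y) ∈ t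
        rw [hwp y]
        exact y.2
      let f : (univ.image w : Finset V) ↪ t :=
        ⟨fun x => ⟨p (x : V), hmem x⟩, by
          rintro ⟨x, hx⟩ ⟨x', hx'⟩ h
          obtain ⟨y, _, rfl⟩ := Finset.mem_image.1 hx
          obtain ⟨y', _, rfl⟩ := Finset.mem_image.1 hx'
          have h1 : p (w y) = p (w y') := congrArg Subtype.val h
          rw [hwp, hwp] at h1
          have h2 : y = y' := Subtype.ext h1
          subst h2
          rfl⟩
      exact hind.comp_embedding f
  · obtain ⟨w0, hw0⟩ := hW
    have hmem : ∀ y ∈ W.image p, y ∈ affineSpan (ZMod q) s := fun y hy =>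
      subset_affineSpan (ZMod q) s (Finset.mem_coe.2 hy)
    have hy0 := hmem _ (Finset.mem_image_of_mem p hw0)
    set D := (affineSpan (ZMod q) s).direction with hD
    have hDtop : D ≠ ⊤ := by
      intro h
      exact htop ((AffineSubspace.direction_eq_top_iff_of_nonempty ⟨_, hy0⟩).1 h)
    have hlt : Module.finrank (ZMod q) D < d := by
      have h1 := Submodule.finrank_lt hDtop
      rwa [hfr] at h1
    have : Fintype D := Fintype.ofFinite D
    have hDcard : Fintype.card D = q ^ Module.finrank (ZMod q) D := by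
      rw [Module.card_eq_pow_finrank (K := ZMod q), ZMod.card]
    have hle : (W.image p).card ≤ Fintype.card D := by
      rw [← Fintype.card_coe]
      apply Fintype.card_le_of_injective
        (fun y : (W.image p : Finset (Fin d → ZMod q)) =>
          (⟨(y : Fin d → ZMod q) -ᵥ p w0,
            AffineSubspace.vsub_mem_direction (hmem _ y.2) hy0⟩ : D))
      intro y y' h
      have h1 : (y : Fin d → ZMod q) - p w0 = (y' : Fin d → ZMod q) - p w0 :=
        congrArg Subtype.val h
      exact Subtype.ext (sub_left_injective h1)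
    rw [hDcard] at hle
    refine hle.trans (Nat.pow_le_pow_right (Fact.out : q.Prime).pos (by omega))

open Classical in
theorem exists_badM (hd : 2 ≤ d) {q : ℕ} [Fact q.Prime] (h2 : (2 : ZMod q) ≠ 0)
    {u : Fin M → V × V} (hu : Simp u) (hT : u ∈ TT V (d + 1) M) (hM : M ≤ d * Fintype.card V)
    (p : V → Fin d → ZMod q) {C₁ : ℝ}
    (hL : ∀ b, ((univ.filter (fun v => p v = b)).card : ℝ) ≤ C₁ * Fintype.card V / (q : ℝ) ^ d)
    {ε ε₃ η C₂ ε' : ℝ} (hη : 0 < η) (hε₃ : 0 < ε₃) (h3' : ε₃ ≤ ε') (hq : C₁ / q < ε₃)
    (hdN : (d : ℝ) + 1 ≤ ε₃ * Fintype.card V)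
    (hLN : ∀ v, ∀ T : Finset V, T.card ≤ d → (∀ w ∈ T, s(v, w) ∈ edges u) → AffI p (insert v T))
    (hE2 : E2 ε' (Fintype.card V) (edges u)) (h4 : E4 d C₂ ε (edges u) univ)
    (h5 : E5 d ε ε₃ η (edges u) univ) (h6 : ¬ E6 d ε₃ (edges u) univ)
    (S : Finset V)
    (hS : ∀ B : Finset V, IsB d (edges u) univ B → (B.card : ℝ) ≤ ε * Fintype.card V → B ⊆ S)
    (hCN : ∀ m : V → Fin d → ZMod q, (∀ v ∉ S, m v = 0) → Mot p m (edges u) → m = 0) :
    ∃ m : V → Fin d → ZMod q, BadM p m u η := by
  classical
  set E := edges u with hE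
  set N := Fintype.card V with hN
  have hL0 : Lpl E := lpl_edges hu
  have hNpos : (0 : ℝ) < N := by
    have h1 : (0 : ℝ) < ε₃ * N := lt_of_lt_of_le (by positivity) hdN
    exact (mul_pos_iff_of_pos_left hε₃).1 h1
  have hcu : ((univ : Finset V).card : ℝ) = N := by rw [Finset.card_univ]
  -- the set `W`
  unfold E6 at h6
  push Not at h6
  obtain ⟨W, -, hW1, hW2⟩ := h6
  rw [hcu] at hW1
  rw [ins_univ, Finset.card_univ, ← hN] at hW2
  have hWd : d + 1 ≤ W.card := by
    have h1 : ((d + 1 : ℕ) : ℝ) ≤ W.card := by push_cast; linarith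
    exact_mod_cast h1
  have hWne : W.Nonempty := Finset.card_pos.1 (by omega)
  have hWN : W.card ≤ N := by rw [hN, ← Finset.card_univ]; exact card_le_card (subset_univ _)
  have hrkle : rk ℝ d (E ∪ Kn W) + KK d ≤ d * N := by
    have h1 : E ∪ Kn W ⊆ Kn (univ : Finset V) := by
      intro e he
      rw [mem_union] at he
      unfold Kn
      rw [mem_filter]
      refine ⟨?_, ?_⟩
      · rw [mem_sym2_iff]
        exact fun _ _ => mem_univ _
      · rcases he with he | he
        · exact hL0 e he
        · unfold Kn at he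
          exact (mem_filter.1 he).2
    have h3 := rk_mono (F := ℝ) (d := d) h1
    have h4 := rk_Kn (F := ℝ) (V := V) (d := d) two_ne_zero (A := univ)
      (by rw [Finset.card_univ]; omega)
    rw [Finset.card_univ, ← hN] at h4
    omega
  have hrk : rkAt p (E ∪ Kn W) + KK d < d * N := by
    have h1 := rkAt_le_real p (E ∪ Kn W)
    omega
  -- affinely independent points in `W`
  obtain ⟨A, hAW, hA, hAff⟩ : ∃ A ⊆ W, A.card = d + 1 ∧ AffI p A := by
    by_contra hcon
    push Not at hcon
    have h1 := FqE_few (by omega) p hWne hcon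
    have hq0 : (0 : ℝ) < q := by exact_mod_cast (Fact.out : q.Prime).pos
    have hfib : ∀ b, ((W.filter (fun v => p v = b)).card : ℝ) ≤ C₁ * N / (q : ℝ) ^ d := by
      intro b
      refine le_trans ?_ (hL b)
      have h2 : (W.filter (fun v => p v = b)).card ≤ (univ.filter (fun v => p v = b)).card :=
        card_le_card (filter_subset_filter _ (subset_univ _))
      exact_mod_cast h2
    have hpos : 0 ≤ C₁ * N / (q : ℝ) ^ d := (Nat.cast_nonneg _).trans (hfib 0)
    have h3 : (W.card : ℝ) ≤ (q : ℝ) ^ (d - 1) * (C₁ * N / (q : ℝ) ^ d) := by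
      rw [Finset.card_eq_sum_card_image p W]
      push_cast
      refine (Finset.sum_le_sum fun b _ => hfib b).trans ?_
      rw [Finset.sum_const, nsmul_eq_mul]
      refine mul_le_mul_of_nonneg_right ?_ hpos
      exact_mod_cast h1
    have h4 : (q : ℝ) ^ (d - 1) * (C₁ * N / (q : ℝ) ^ d) = C₁ / q * N := by
      have h5 : (q : ℝ) ^ d = (q : ℝ) ^ (d - 1) * q := by
        rw [← pow_succ]
        congr 1
        omega
      rw [h5]
      field_simp
    rw [h4] at h3
    have h6 : C₁ / q * N < ε₃ * N := mul_lt_mul_of_pos_right hq hNpos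
    linarith
  obtain ⟨m, hm0, hmW, hmE⟩ := exists_motion_zero_on h2 p E hAW hA hAff hrk
  set B : Finset V := univ.filter (fun v => m v ≠ 0) with hB
  have hBmem : ∀ v, v ∈ B ↔ m v ≠ 0 := by
    intro v
    rw [hB, mem_filter]
    exact ⟨fun h => h.2, fun h => ⟨mem_univ _, h⟩⟩
  clear_value B
  have hBW : (B.card : ℝ) ≤ (1 - ε₃) * N := by
    have h1 : Disjoint B W := by
      rw [Finset.disjoint_left]
      intro v hv hv'
      exact (hBmem v).1 hv (hmW v hv')
    have h3 : B.card + W.card ≤ N := by
      rw [← card_union_of_disjoint h1, hN, ← Finset.card_univ]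
      exact card_le_card (subset_univ _)
    have h4 : (B.card : ℝ) + W.card ≤ N := by exact_mod_cast h3
    linarith
  have hIsB : IsB d E univ B := by
    refine ⟨subset_univ _, fun v hv => ?_⟩
    by_contra hcon
    rw [not_lt] at hcon
    unfold nb at hcon
    obtain ⟨T, hT1, hT2⟩ := Finset.exists_subset_card_eq hcon
    have hTB : ∀ w ∈ T, w ∉ B ∧ s(v, w) ∈ E := by
      intro w hw
      have h1 := mem_filter.1 (hT1 hw)
      exact ⟨(mem_sdiff.1 h1.1).2, h1.2⟩
    have hvT : v ∉ T := fun h => (hTB v h).1 hv
    have haff := hLN v T hT2.le (fun w hw => (hTB w hw).2)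
    apply (hBmem v).1 hv
    apply FqE_zero p hvT hT2 haff
    intro w hw
    have h1 : m w = 0 := by
      by_contra h3
      exact (hTB w hw).1 ((hBmem w).2 h3)
    have h3 := hmE v w (hTB w hw).2
    unfold Sat at h3
    rw [h1] at h3
    simpa using h3
  have hBbig : ε * N ≤ B.card := by
    by_contra hcon
    rw [not_le] at hcon
    have h1 := hS B hIsB hcon.le
    apply hm0
    refine hCN m (fun v hv => ?_) hmE
    by_contra h3
    exact hv (h1 ((hBmem v).2 h3))
  have h7 := h5 B hIsB (by rw [hcu]; exact hBbig) (by rw [hcu]; exact hBW)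
  rw [hcu, card_incd_edges hu] at h7
  refine ⟨m, ?_, ?_, ?_⟩
  · intro i
    apply hmE
    rw [hE]
    unfold edges
    exact mem_image_of_mem _ (mem_univ i)
  · obtain ⟨o, ho⟩ := exists_orient u (d := d) (fun A' => by
      rw [← card_ins_eq hu A']
      refine sparse_of_t1 hd hL0 (C := univ) (fun v _ => ?_) h4 h5 hη hE2 ?_ ?_ A'
        (subset_univ _)
      · rw [nb_univ_eq hu]
        unfold TT at hT
        exact (mem_filter.1 hT).2 v
      · rw [hcu]
        exact mul_le_mul_of_nonneg_right h3' hNpos.le
      · rw [ins_univ, card_edges hu, Finset.card_univ]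
        exact hM)
    exact ⟨o, fun v _ => by convert ho v⟩
  · have h8 : nin u B + ncr u B ≤
        (univ.filter (fun i => m (u i).1 ≠ 0 ∨ m (u i).2 ≠ 0)).card := by
      unfold nin ncr
      rw [← card_union_of_disjoint]
      · apply card_le_card
        intro i hi
        rw [mem_union, mem_filter, mem_filter] at hi
        rw [mem_filter]
        refine ⟨mem_univ _, ?_⟩
        rcases hi with hi | hi
        · exact Or.inl ((hBmem _).1 hi.2.1)
        · by_cases h9 : (u i).1 ∈ B
          · exact Or.inl ((hBmem _).1 h9)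
          · have h10 : (u i).2 ∈ B := by
              by_contra h11
              exact hi.2 ⟨fun h => absurd h h9, fun h => absurd h h11⟩
            exact Or.inr ((hBmem _).1 h10)
      · rw [Finset.disjoint_left]
        intro i hi hi'
        rw [mem_filter] at hi hi'
        exact hi'.2 ⟨fun _ => hi.2.2, fun _ => hi.2.1⟩
    have h9 : ((nin u B + ncr u B : ℕ) : ℝ) ≤
        ((univ.filter (fun i => m (u i).1 ≠ 0 ∨ m (u i).2 ≠ 0)).card : ℝ) := by exact_mod_cast h8
    have h10 : (d : ℝ) * (B.card : ℝ) + η * N ≤
        ((univ.filter (fun i => m (u i).1 ≠ 0 ∨ m (u i).2 ≠ 0)).card : ℝ) := h7.trans h9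
    rw [hB] at h10
    convert h10

end Pool.Agent.Helper50.RG
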