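import Pool.Agent.Helper50.RG.Split
import Pool.Agent.Helper50.RG.Base

/-!
# RG-56 : sequences and their graphs

`nb_compl_eq`, ...: for simple `u` the number of neighbours of `v ∈ B` outside `B` is `cr u B v`,
etc. Elementary counting.
-/

set_option autoImplicit false

namespace Pool.Agent.Helper50.RG

open Finset

variable {V : Type} [Fintype V] [DecidableEq V] {M : ℕ}

theorem nin_add_ncr_le (u : Fin M → V × V) (B : Finset V) : nin u B + ncr u B ≤ M := by
  unfold nin ncr
  rw [← card_union_of_disjoint]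
  · calc _ ≤ (univ : Finset (Fin M)).card := card_le_card (subset_univ _)
      _ = M := by simp
  · rw [disjoint_filter]
    rintro i _ ⟨h1, h2⟩ h3
    exact h3 ⟨fun _ => h2, fun _ => h1⟩

private theorem splitB_fiber (g : Fin M → V) (P : Fin M → Prop) [DecidablePred P] (B : Finset V) :
    ∑ v ∈ B, (univ.filter (fun i => g i = v ∧ P i)).card =
      (univ.filter (fun i => g i ∈ B ∧ P i)).card := by
  rw [card_eq_sum_card_fiberwise (f := g) (s := univ.filter (fun i => g i ∈ B ∧ P i)) (t := B)]
  · refine sum_congr rfl fun v hv => ?_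
    congr 1
    ext i
    simp only [mem_filter, mem_univ, true_and]
    constructor
    · rintro ⟨h1, h2⟩
      exact ⟨⟨h1 ▸ hv, h2⟩, h1⟩
    · rintro ⟨⟨_, h2⟩, h3⟩
      exact ⟨h3, h2⟩
  · intro i hi
    rw [mem_coe, mem_filter] at hi
    exact hi.2.1

theorem sum_cr (u : Fin M → V × V) (B : Finset V) : ∑ v ∈ B, cr u B v = ncr u B := by
  unfold cr ncr
  rw [sum_add_distrib, splitB_fiber (fun i => (u i).1) (fun i => (u i).2 ∉ B),
    splitB_fiber (fun i => (u i).2) (fun i => (u i).1 ∉ B), ← card_union_of_disjoint]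
  · congr 1
    ext i
    simp only [mem_union, mem_filter, mem_univ, true_and]
    tauto
  · rw [disjoint_filter]
    rintro i _ ⟨h1, _⟩ ⟨_, h2⟩
    exact h2 h1

theorem sum_occ (u : Fin M → V × V) (B : Finset V) :
    ∑ v ∈ B, occ u v = 2 * nin u B + ncr u B := by
  have h1 : ∀ g : Fin M → V, ∑ v ∈ B, (univ.filter (fun i => g i = v)).card =
      (univ.filter (fun i => g i ∈ B)).card := by
    intro g
    have := splitB_fiber g (fun _ => True) B
    simpa using this
  have h2 : ∀ (P Q : Fin M → Prop) [DecidablePred P] [DecidablePred Q],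
      (univ.filter P).card = (univ.filter (fun i => P i ∧ Q i)).card +
        (univ.filter (fun i => P i ∧ ¬ Q i)).card := by
    intro P Q _ _
    rw [← filter_filter, ← filter_filter, card_filter_add_card_filter_not]
  unfold occ
  rw [sum_add_distrib, h1, h1, h2 (fun i => (u i).1 ∈ B) (fun i => (u i).2 ∈ B),
    h2 (fun i => (u i).2 ∈ B) (fun i => (u i).1 ∈ B)]
  have h3 : (univ.filter (fun i => (u i).2 ∈ B ∧ (u i).1 ∈ B)) =
      univ.filter (fun i => (u i).1 ∈ B ∧ (u i).2 ∈ B) := by
    ext i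
    simp [and_comm]
  have h4 : ncr u B = (univ.filter (fun i => (u i).1 ∈ B ∧ ¬ (u i).2 ∈ B)).card +
      (univ.filter (fun i => (u i).2 ∈ B ∧ ¬ (u i).1 ∈ B)).card := by
    unfold ncr
    rw [← card_union_of_disjoint]
    · congr 1
      ext i
      simp only [mem_union, mem_filter, mem_univ, true_and]
      tauto
    · rw [disjoint_filter]
      rintro i _ ⟨h1, _⟩ ⟨_, h2⟩
      exact h2 h1
  rw [h3, h4]
  unfold nin
  ring

theorem lpl_edges {u : Fin M → V × V} (hu : Simp u) : Lpl (edges u) := by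
  intro e he
  unfold edges at he
  rw [mem_image] at he
  obtain ⟨i, _, rfl⟩ := he
  rw [Sym2.mk_isDiag_iff]
  exact hu.1 i

theorem card_edges {u : Fin M → V × V} (hu : Simp u) : (edges u).card = M := by
  unfold edges
  rw [card_image_of_injective _ hu.2]
  simp

private theorem splitB_nb {u : Fin M → V × V} (hu : Simp u) (A : Finset V) (v : V) :
    nb (edges u) A v = (univ.filter (fun i => (u i).1 = v ∧ (u i).2 ∈ A)).card +
      (univ.filter (fun i => (u i).2 = v ∧ (u i).1 ∈ A)).card := by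
  have h1 : A.filter (fun w => s(v, w) ∈ edges u) =
      (univ.filter (fun i => (u i).1 = v ∧ (u i).2 ∈ A)).image (fun i => (u i).2) ∪
        (univ.filter (fun i => (u i).2 = v ∧ (u i).1 ∈ A)).image (fun i => (u i).1) := by
    ext w
    simp only [mem_filter, mem_union, mem_image, mem_univ, true_and, edges]
    constructor
    · rintro ⟨hw, i, hi⟩
      rw [Sym2.eq_iff] at hi
      rcases hi with ⟨a, b⟩ | ⟨a, b⟩
      · left
        exact ⟨i, ⟨a, b ▸ hw⟩, b⟩
      · right
        exact ⟨i, ⟨b, a ▸ hw⟩, a⟩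
    · rintro (⟨i, ⟨a, b⟩, c⟩ | ⟨i, ⟨a, b⟩, c⟩)
      · refine ⟨c ▸ b, i, ?_⟩
        rw [a, c]
      · refine ⟨c ▸ b, i, ?_⟩
        rw [a, c, Sym2.eq_swap]
  unfold nb
  rw [h1, card_union_of_disjoint, card_image_of_injOn, card_image_of_injOn]
  · intro i hi j hj hij
    rw [mem_coe, mem_filter] at hi hj
    apply hu.2
    simp only at hij ⊢
    rw [hi.2.1, hj.2.1, hij]
  · intro i hi j hj hij
    rw [mem_coe, mem_filter] at hi hj
    apply hu.2
    simp only at hij ⊢
    rw [hi.2.1, hj.2.1, hij]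
  · rw [Finset.disjoint_left]
    intro w hw hw'
    rw [mem_image] at hw hw'
    obtain ⟨i, hi, hiw⟩ := hw
    obtain ⟨j, hj, hjw⟩ := hw'
    rw [mem_filter] at hi hj
    have hij : i = j := by
      apply hu.2
      simp only
      rw [hi.2.1, hj.2.1, hiw, hjw, Sym2.eq_swap]
    subst hij
    apply hu.1 i
    rw [hjw, hiw]

theorem nb_univ_eq {u : Fin M → V × V} (hu : Simp u) (v : V) :
    nb (edges u) univ v = occ u v := by
  rw [splitB_nb hu]
  unfold occ
  simp

theorem nb_compl_eq {u : Fin M → V × V} (hu : Simp u) (B : Finset V) {v : V} (hv : v ∈ B) :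
    nb (edges u) (univ \ B) v = cr u B v := by
  have _ := hv
  rw [splitB_nb hu]
  unfold cr
  simp

private theorem splitB_ins (u : Fin M → V × V) (B : Finset V) :
    ins (edges u) B = (univ.filter (fun i => (u i).1 ∈ B ∧ (u i).2 ∈ B)).image
      (fun i => s((u i).1, (u i).2)) := by
  ext e
  unfold ins edges
  rw [mem_inter, mem_image, mem_image]
  constructor
  · rintro ⟨⟨i, _, rfl⟩, h⟩
    rw [mk_mem_sym2_iff] at h
    exact ⟨i, by rw [mem_filter]; exact ⟨mem_univ _, h⟩, rfl⟩
  · rintro ⟨i, hi, rfl⟩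
    rw [mem_filter] at hi
    exact ⟨⟨i, mem_univ _, rfl⟩, by rw [mk_mem_sym2_iff]; exact hi.2⟩

theorem card_ins_eq {u : Fin M → V × V} (hu : Simp u) (B : Finset V) :
    (ins (edges u) B).card = nin u B := by
  rw [splitB_ins, card_image_of_injective _ hu.2]
  rfl

theorem card_ins_le (u : Fin M → V × V) (B : Finset V) :
    (ins (edges u) B).card ≤ nin u B := by
  rw [splitB_ins]
  exact card_image_le

theorem card_incd_edges {u : Fin M → V × V} (hu : Simp u) (B : Finset V) :
    (incd (edges u) univ B).card = nin u B + ncr u B := by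
  have h1 : incd (edges u) univ B =
      (univ.filter (fun i => (u i).1 ∈ B ∨ (u i).2 ∈ B)).image
        (fun i => s((u i).1, (u i).2)) := by
    unfold incd
    rw [ins_univ]
    ext e
    unfold edges
    rw [mem_filter, mem_image, mem_image]
    constructor
    · rintro ⟨⟨i, _, rfl⟩, v, hv, hve⟩
      refine ⟨i, ?_, rfl⟩
      rw [mem_filter]
      rw [Sym2.mem_iff] at hve
      rcases hve with rfl | rfl
      · exact ⟨mem_univ _, Or.inl hv⟩
      · exact ⟨mem_univ _, Or.inr hv⟩
    · rintro ⟨i, hi, rfl⟩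
      rw [mem_filter] at hi
      refine ⟨⟨i, mem_univ _, rfl⟩, ?_⟩
      rcases hi.2 with h | h
      · exact ⟨_, h, Sym2.mem_mk_left _ _⟩
      · exact ⟨_, h, Sym2.mem_mk_right _ _⟩
  rw [h1, card_image_of_injective _ hu.2]
  unfold nin ncr
  rw [← card_union_of_disjoint]
  · congr 1
    ext i
    simp only [mem_union, mem_filter, mem_univ, true_and]
    tauto
  · rw [disjoint_filter]
    rintro i _ ⟨h1, h2⟩ h3
    exact h3 ⟨fun _ => h2, fun _ => h1⟩

end Pool.Agent.Helper50.RG
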