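import Pool.Agent.Helper50.RG.Peel

/-!
# RG-16 : tight sets, first part (`small_isB`, `t1`, `sparse_of_t1`)

`C` has minimum degree at least `d + 1`, and `E4`, `E5` hold.

`t1`: every non-empty `B ⊆ C` with `card B ≤ (1 - ε₃) card C` meets at least `d |B|` edges. Take a
counterexample `B` of smallest size. If some `v ∈ B` has at least `d` neighbours in `C \ B`, then
`B.erase v` meets at most `d |B| - 1 - d` edges (`card_incd_erase`), so it is a smaller
counterexample, or `B = {v}` meets at least `d + 1` edges. So `IsB d E C B`. If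
`|B| ≤ ε |C|`: by `E4` `e(B) ≤ |B|`; each `v ∈ B` has at least `2` neighbours in `B` (degree at least `d+1`),
so by `sum_nb` all have exactly `2`, hence at least `d - 1` neighbours in `C \ B`, and
`card_incd_eq` gives at least `|B| + (d-1) |B|` edges. If `|B| ≥ ε |C|`, `E5` gives more than `d |B|`.

`tight`: if moreover `|incd B| = d |B|` then the `d |B|` edges add `d |B|` to the rank of
`ins E (C \ B)`. Induct on `card B`. If some `v ∈ B` has at least `d` neighbours in `C \ B`, then by
`t1` for `B.erase v` (if non-empty) it has exactly `d` and `B.erase v` is tight: use the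
0-extension `rk_star` for `v` and `C \ B`, then the induction hypothesis. (If `B = {v}` then `v` has
`d` neighbours altogether, contradiction.) Otherwise `IsB d E C B`, by `E5` (`η > 0`)
`|B| ≤ ε |C|`, by `E4` and the computation above `B` is special (`nb E B v = 2`,
`nb E (C \ B) v + 1 = d`), so `special_rigid` (with `special_ne`) applied to `A = C \ B`, `S = B`, and
`rk_Kn` give `rk (Kn A ∪ incd) = rk (Kn A) + d |B|`, and `rk_split` (submodularity) gives the same
for `ins E A ⊆ Kn A`.
-/

set_option autoImplicit false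

namespace Pool.Agent.Helper50.RG

open Finset

variable {V : Type} [Fintype V] [DecidableEq V] {E : Finset (Sym2 V)} {C : Finset V} {d : ℕ}
  {C₂ ε ε₃ η : ℝ}

/-- the structure of small sets with `IsB` -/
theorem small_isB (hd : 2 ≤ d) (hL : Lpl E) (hC : ∀ v ∈ C, d + 1 ≤ nb E C v)
    (h4 : E4 d C₂ ε E C) {B : Finset V} (hB : IsB d E C B) (hne : B.Nonempty)
    (hs : (B.card : ℝ) ≤ ε * C.card) :
    (B.card : ℝ) ≤ C₂ * Real.log C.card ∧ (∀ v ∈ B, nb E B v = 2) ∧
      (∀ v ∈ B, nb E (C \ B) v + 1 = d) ∧ (incd E C B).card = d * B.card := by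
  obtain ⟨h1, h2⟩ := h4 B hne hB hs
  have hsplit : ∀ v, nb E C v = nb E B v + nb E (C \ B) v := by
    intro v
    rw [← nb_union disjoint_sdiff, union_sdiff_of_subset hB.1]
  have hge : ∀ v ∈ B, 2 ≤ nb E B v := by
    intro v hv
    have h3 := hC v (hB.1 hv)
    have h5 := hB.2 v hv
    have h6 := hsplit v
    omega
  have hsum := sum_nb hL B
  have heq : ∀ v ∈ B, nb E B v = 2 := by
    by_contra hcon
    push Not at hcon
    obtain ⟨v, hv, hne2⟩ := hcon
    have h3 : 2 < nb E B v := lt_of_le_of_ne (hge v hv) (Ne.symm hne2)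
    have h5 : ∑ w ∈ B, 2 < ∑ w ∈ B, nb E B w := sum_lt_sum hge ⟨v, hv, h3⟩
    rw [sum_const, smul_eq_mul] at h5
    omega
  have hd1 : ∀ v ∈ B, nb E (C \ B) v + 1 = d := by
    intro v hv
    have h3 := hC v (hB.1 hv)
    have h5 := hB.2 v hv
    have h6 := hsplit v
    have h7 := heq v hv
    omega
  refine ⟨h1, heq, hd1, ?_⟩
  rw [card_incd_eq hL hB.1]
  have h3 : ∑ v ∈ B, nb E (C \ B) v = B.card * (d - 1) := by
    rw [sum_congr rfl (fun v hv => (by have := hd1 v hv; omega : nb E (C \ B) v = d - 1)),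
      sum_const, smul_eq_mul]
  have h5 : ∑ v ∈ B, nb E B v = B.card * 2 := by
    rw [sum_congr rfl heq, sum_const, smul_eq_mul]
  have h6 : (ins E B).card = B.card := by omega
  rw [h3, h6]
  obtain ⟨e, rfl⟩ : ∃ e, d = e + 1 := ⟨d - 1, by omega⟩
  rw [Nat.add_sub_cancel]
  ring

theorem t1 (hd : 2 ≤ d) (hL : Lpl E) (hC : ∀ v ∈ C, d + 1 ≤ nb E C v)
    (h4 : E4 d C₂ ε E C) (h5 : E5 d ε ε₃ η E C) (hη : 0 < η)
    {B : Finset V} (hB : B ⊆ C) (hs : (B.card : ℝ) ≤ (1 - ε₃) * C.card) :
    d * B.card ≤ (incd E C B).card := by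
  induction hn : B.card using Nat.strong_induction_on generalizing B with
  | _ n ih =>
    subst hn
    by_cases hex : ∃ v ∈ B, d ≤ nb E (C \ B) v
    · obtain ⟨v, hv, hdv⟩ := hex
      have hlt : (B.erase v).card < B.card := card_erase_lt_of_mem hv
      have h1 := ih _ hlt ((erase_subset v B).trans hB) (by
        have h2 : ((B.erase v).card : ℝ) ≤ B.card := by exact_mod_cast hlt.le
        exact h2.trans hs) rfl
      rw [card_incd_erase hL hB hv]
      have h2 : (B.erase v).card + 1 = B.card := card_erase_add_one hv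
      rw [← h2, mul_add, mul_one]
      exact add_le_add h1 hdv
    · push Not at hex
      have hisB : IsB d E C B := ⟨hB, hex⟩
      rcases B.eq_empty_or_nonempty with rfl | hne
      · simp
      · rcases le_total (B.card : ℝ) (ε * C.card) with h1 | h1
        · exact (small_isB hd hL hC h4 hisB hne h1).2.2.2.ge
        · have h2 := h5 B hisB h1 hs
          have h3 : (0 : ℝ) ≤ η * C.card := by positivity
          have h6 : (d : ℝ) * B.card ≤ ((incd E C B).card : ℝ) := by linarith
          exact_mod_cast h6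

/-- if `C` has at most `d |C|` edges then so does every subset -/
theorem sparse_of_t1 (hd : 2 ≤ d) (hL : Lpl E) (hC : ∀ v ∈ C, d + 1 ≤ nb E C v)
    (h4 : E4 d C₂ ε E C) (h5 : E5 d ε ε₃ η E C) (hη : 0 < η)
    {ε' : ℝ} {N : ℕ} (h2 : E2 ε' N E) (hN : ε₃ * C.card ≤ ε' * N)
    (he : (ins E C).card ≤ d * C.card) (A : Finset V) (hA : A ⊆ C) :
    (ins E A).card ≤ d * A.card := by
  have hsd : C \ (C \ A) = A := Finset.sdiff_sdiff_eq_self hA
  have hcard : (C \ A).card + A.card = C.card := card_sdiff_add_card_eq_card hA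
  rcases le_or_gt ((C \ A).card : ℝ) ((1 - ε₃) * C.card) with h1 | h1
  · have h3 := t1 hd hL hC h4 h5 hη (sdiff_subset : C \ A ⊆ C) h1
    have h6 := card_incd E (sdiff_subset : C \ A ⊆ C)
    rw [hsd] at h6
    have h7 : d * C.card = d * (C \ A).card + d * A.card := by rw [← mul_add, hcard]
    omega
  · rcases A.eq_empty_or_nonempty with rfl | hne
    · have h3 : ins E (∅ : Finset V) = ∅ := by
        ext e
        induction e using Sym2.ind with
        | _ x y => simp [mk_mem_ins]
      simp [h3]
    · have h3 : (A.card : ℝ) ≤ ε' * N := by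
        have h6 : ((C \ A).card : ℝ) + A.card = C.card := by exact_mod_cast hcard
        have h7 : (A.card : ℝ) < ε₃ * C.card := by linarith
        linarith
      have h6 := h2 A hne h3
      nlinarith

end Pool.Agent.Helper50.RG
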