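import Pool.Agent.Helper50.RG.FqB
import Pool.Agent.Helper50.RG.TightA
import Pool.Agent.Helper50.RG.SplitB

/-!
# RG-57 : orientations, and the largest small set with `IsB`

`exists_orient`: Hall's theorem: each index `i` has to choose one of the `2 d` elements
`{(u i).1, (u i).2} × Fin d` of `V × Fin d`, injectively; for a set `J` of indices let `A` be the set of
all their ends, `|J| ≤ nin u A ≤ d |A|`.

`exists_max_small`: `IsB` is closed under unions (`isB_union`), so the union `S` of all non-empty `B` with
`IsB d E univ B`, `|B| ≤ ε N` is again small: by induction over the `B`'s, the union of two such sets has at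
most `2 C₂ log N ≤ ε N` elements, hence by `E4` at most `C₂ log N`. Use `small_isB`.

-/

set_option autoImplicit false

namespace Pool.Agent.Helper50.RG

open Finset

variable {V : Type} [Fintype V] [DecidableEq V] {d M : ℕ}

theorem exists_orient (u : Fin M → V × V) (h : ∀ A : Finset V, nin u A ≤ d * A.card) :
    ∃ o : Fin M → Bool, ∀ v, (univ.filter (fun i => head o u i = v)).card ≤ d := by
  set t : Fin M → Finset (V × Fin d) :=
    fun i => ({(u i).1, (u i).2} : Finset V) ×ˢ (univ : Finset (Fin d)) with ht
  have hall : ∀ J : Finset (Fin M), J.card ≤ (J.biUnion t).card := by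
    intro J
    set A : Finset V := J.biUnion (fun i => {(u i).1, (u i).2}) with hA
    have h1 : J.biUnion t = A ×ˢ (univ : Finset (Fin d)) := by
      ext ⟨v, k⟩
      simp only [ht, hA, Finset.mem_biUnion, Finset.mem_product, Finset.mem_univ, and_true]
    rw [h1, Finset.card_product, Finset.card_univ, Fintype.card_fin]
    have h2 : J.card ≤ nin u A := by
      unfold nin
      apply Finset.card_le_card
      intro i hi
      rw [Finset.mem_filter]
      refine ⟨Finset.mem_univ _, ?_, ?_⟩
      · rw [hA, Finset.mem_biUnion]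
        exact ⟨i, hi, by simp⟩
      · rw [hA, Finset.mem_biUnion]
        exact ⟨i, hi, by simp⟩
    have h3 := h A
    rw [mul_comm] at h3
    omega
  obtain ⟨f, hf, hft⟩ := (Finset.all_card_le_biUnion_card_iff_exists_injective t).mp hall
  refine ⟨fun i => decide ((f i).1 = (u i).1), ?_⟩
  intro v
  have hhead : ∀ i, head (fun i => decide ((f i).1 = (u i).1)) u i = (f i).1 := by
    intro i
    unfold head
    by_cases h1 : (f i).1 = (u i).1
    · rw [if_pos (by simpa using h1), h1]
    · rw [if_neg (by simpa using h1)]
      have h2 := hft i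
      rw [ht, Finset.mem_product] at h2
      have h3 := h2.1
      rw [Finset.mem_insert, Finset.mem_singleton] at h3
      rcases h3 with h3 | h3
      · exact absurd h3 h1
      · exact h3.symm
  have h4 : (univ.filter (fun i => head (fun i => decide ((f i).1 = (u i).1)) u i = v)).card ≤
      (({v} : Finset V) ×ˢ (univ : Finset (Fin d))).card := by
    apply Finset.card_le_card_of_injOn f
    · intro i hi
      have hi' : i ∈ univ.filter
          (fun i => head (fun i => decide ((f i).1 = (u i).1)) u i = v) := hi
      rw [Finset.mem_filter] at hi'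
      have h5 := hi'.2
      rw [hhead i] at h5
      have h6 : f i ∈ ({v} : Finset V) ×ˢ (univ : Finset (Fin d)) := by
        rw [Finset.mem_product]
        exact ⟨by rw [Finset.mem_singleton]; exact h5, Finset.mem_univ _⟩
      exact h6
    · exact hf.injOn
  rw [Finset.card_product, Finset.card_singleton, Finset.card_univ, Fintype.card_fin,
    one_mul] at h4
  exact h4

theorem exists_max_small (hd : 2 ≤ d) {E : Finset (Sym2 V)} (hL : Lpl E)
    (hC : ∀ v : V, d + 1 ≤ nb E univ v) {C₂ ε : ℝ} (hε : 0 < ε)
    (hN : 2 * (C₂ * Real.log (Fintype.card V)) ≤ ε * Fintype.card V)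
    (hN' : 0 ≤ C₂ * Real.log (Fintype.card V))
    (h4 : E4 d C₂ ε E univ) :
    ∃ S : Finset V, (S.card : ℝ) ≤ C₂ * Real.log (Fintype.card V) ∧ (∀ v ∈ S, nb E S v = 2) ∧
      (∀ v ∈ S, nb E (univ \ S) v + 1 = d) ∧
      ∀ B : Finset V, IsB d E univ B → (B.card : ℝ) ≤ ε * Fintype.card V → B ⊆ S := by
  classical
  have hsmall : ∀ B : Finset V, IsB d E univ B → (B.card : ℝ) ≤ ε * Fintype.card V →
      (B.card : ℝ) ≤ C₂ * Real.log (Fintype.card V) := by
    intro B hB hBs
    rcases B.eq_empty_or_nonempty with h | h
    · rw [h, Finset.card_empty, Nat.cast_zero]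
      exact hN'
    · have h1 := h4 B h hB (by rw [Finset.card_univ]; exact hBs)
      rw [Finset.card_univ] at h1
      exact h1.1
  set F : Finset (Finset V) := (univ : Finset (Finset V)).filter
    (fun B => IsB d E univ B ∧ (B.card : ℝ) ≤ ε * Fintype.card V) with hF
  have key : ∀ G : Finset (Finset V), G ⊆ F → IsB d E univ (G.sup id) ∧
      ((G.sup id).card : ℝ) ≤ C₂ * Real.log (Fintype.card V) := by
    intro G
    induction G using Finset.induction_on with
    | empty =>
      intro _
      refine ⟨⟨Finset.subset_univ _, ?_⟩, ?_⟩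
      · intro v hv
        simp at hv
      · simpa using hN'
    | insert B G hBG ih =>
      intro hsub
      have h1 := ih (fun x hx => hsub (Finset.mem_insert_of_mem hx))
      have h2 : B ∈ F := hsub (Finset.mem_insert_self _ _)
      rw [hF, Finset.mem_filter] at h2
      rw [Finset.sup_insert]
      have h3 : IsB d E univ (id B ⊔ G.sup id) := isB_union h2.2.1 h1.1
      refine ⟨h3, ?_⟩
      apply hsmall _ h3
      have h5 := hsmall B h2.2.1 h2.2.2
      have h6 : ((id B ⊔ G.sup id).card : ℝ) ≤ (B.card : ℝ) + ((G.sup id).card : ℝ) := by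
        exact_mod_cast Finset.card_union_le B (G.sup id)
      linarith [h1.2]
  obtain ⟨h1, h2⟩ := key F (fun x hx => hx)
  refine ⟨F.sup id, h2, ?_, ?_, ?_⟩
  · intro v hv
    have h3 := small_isB hd hL (C := univ) (fun v _ => hC v) h4 h1 ⟨v, hv⟩ (by
      rw [Finset.card_univ]; linarith)
    exact h3.2.1 v hv
  · intro v hv
    have h3 := small_isB hd hL (C := univ) (fun v _ => hC v) h4 h1 ⟨v, hv⟩ (by
      rw [Finset.card_univ]; linarith)
    exact h3.2.2.1 v hv
  · intro B hB hBs
    have h3 : B ∈ F := by
      rw [hF, Finset.mem_filter]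
      exact ⟨Finset.mem_univ _, hB, hBs⟩
    exact Finset.le_sup (f := id) h3

end Pool.Agent.Helper50.RG
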