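import Pool.Agent.Helper50.RG.Words

/-!
# RG-54 : the parameter `lam`

`exists_lam`: `k = d + 1`, `μ(x) = x fk d x / fk k x = x + x^k/(d! fk k x)` is continuous;
`μ(2 d) > 2 d`, and `μ(2 d - 2) < 2 d` means `x^k / d! < 2 fk k x` at `x = 2 d - 2`, i.e.
`k < 2 ∑_{j ≥ 0} x^j / ((k+1) ⋯ (k+j))`. For `d ≥ 5` the terms with `j ≤ k - 4` are at least `1`
(`x = 2 k - 4 ≥ k + i` for `i ≤ k - 4`), so the sum is larger than `k - 3 ≥ k / 2`; for `d = 2, 3, 4` (`k = 3, 4, 5`, `x = 2, 4, 6`) use the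
first terms (sums `1 + 2/4 + 4/20 > 1.5`, `1 + 4/5 + 16/30 > 2`, `1 + 1 + 6/7 > 2.5`). Intermediate
value theorem on `[2d-2, 2d]`.

-/

set_option autoImplicit false

namespace Pool.Agent.Helper50.RG

open Finset

private theorem lam_fk_succ (d : ℕ) (x : ℝ) :
    fk d x = fk (d + 1) x + x ^ d / (d.factorial : ℝ) := by
  unfold fk
  rw [Finset.sum_range_succ]
  ring

private theorem lam_fk_ge (k n : ℕ) (hkn : k ≤ n) {x : ℝ} (hx : 0 ≤ x) :
    ∑ i ∈ Ico k n, x ^ i / (i.factorial : ℝ) ≤ fk k x := by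
  have h1 := Real.sum_le_exp_of_nonneg hx n
  unfold fk
  rw [Finset.sum_Ico_eq_sub _ hkn]
  linarith

/-- the terms of the exponential series increase up to the index `x` -/
private theorem lam_mono (k x : ℕ) (j : ℕ) (hj : k + j ≤ x) :
    (x : ℝ) ^ k / (k.factorial : ℝ) ≤ (x : ℝ) ^ (k + j) / ((k + j).factorial : ℝ) := by
  induction j with
  | zero => simp
  | succ j ih =>
    refine (ih (by omega)).trans ?_
    rw [← add_assoc, Nat.factorial_succ, pow_succ]
    push_cast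
    have hf : (0 : ℝ) < ((k + j).factorial : ℝ) := by exact_mod_cast Nat.factorial_pos _
    have hx : ((k : ℝ) + j + 1) ≤ (x : ℝ) := by exact_mod_cast hj
    have hk : (0 : ℝ) < (k : ℝ) + j + 1 := by positivity
    rw [div_le_div_iff₀ hf (by positivity)]
    have hp : (0 : ℝ) ≤ (x : ℝ) ^ (k + j) * ((k + j).factorial : ℝ) := by positivity
    nlinarith [mul_le_mul_of_nonneg_left hx hp]

private theorem lam_large (d : ℕ) (hd : 5 ≤ d) :
    ((2 * d - 2 : ℕ) : ℝ) ^ (d + 1) / (d.factorial : ℝ) <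
      2 * fk (d + 1) ((2 * d - 2 : ℕ) : ℝ) := by
  set x : ℕ := 2 * d - 2 with hx
  have hx0 : (0 : ℝ) < (x : ℝ) := by
    have : 0 < x := by omega
    exact_mod_cast this
  have h1 := lam_fk_ge (d + 1) (x + 2) (by omega) hx0.le
  rw [Finset.sum_Ico_succ_top (by omega)] at h1
  have h2 : ((x + 1 - (d + 1) : ℕ) : ℝ) * ((x : ℝ) ^ (d + 1) / ((d + 1).factorial : ℝ)) ≤
      ∑ i ∈ Ico (d + 1) (x + 1), (x : ℝ) ^ i / (i.factorial : ℝ) := by
    have h3 := Finset.card_nsmul_le_sum (Ico (d + 1) (x + 1))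
      (fun i => (x : ℝ) ^ i / (i.factorial : ℝ)) ((x : ℝ) ^ (d + 1) / ((d + 1).factorial : ℝ))
      (by
        intro i hi
        rw [Finset.mem_Ico] at hi
        have h4 := lam_mono (d + 1) x (i - (d + 1)) (by omega)
        rwa [show d + 1 + (i - (d + 1)) = i by omega] at h4)
    rwa [Nat.card_Ico, nsmul_eq_mul] at h3
  have h5 : (0 : ℝ) < (x : ℝ) ^ (x + 1) / ((x + 1).factorial : ℝ) := by
    have : (0 : ℝ) < ((x + 1).factorial : ℝ) := by exact_mod_cast Nat.factorial_pos _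
    positivity
  have h6 : x + 1 - (d + 1) = d - 2 := by omega
  rw [h6, Nat.cast_sub (by omega)] at h2
  have h7 : (x : ℝ) ^ (d + 1) / (d.factorial : ℝ) =
      ((d : ℝ) + 1) * ((x : ℝ) ^ (d + 1) / ((d + 1).factorial : ℝ)) := by
    rw [Nat.factorial_succ]
    have : (0 : ℝ) < (d.factorial : ℝ) := by exact_mod_cast Nat.factorial_pos _
    push_cast
    field_simp
  rw [h7]
  have h8 : (0 : ℝ) < (x : ℝ) ^ (d + 1) / ((d + 1).factorial : ℝ) := by
    have : (0 : ℝ) < ((d + 1).factorial : ℝ) := by exact_mod_cast Nat.factorial_pos _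
    positivity
  have h9 : (d : ℝ) + 1 ≤ 2 * ((d : ℝ) - (2 : ℕ)) := by
    have : (5 : ℝ) ≤ d := by exact_mod_cast hd
    push_cast
    linarith
  have h10 := mul_le_mul_of_nonneg_right h9 h8.le
  nlinarith [h10, h2, h1, h5]

private theorem lam_at (d : ℕ) (hd : 2 ≤ d) :
    ((2 * d - 2 : ℕ) : ℝ) ^ (d + 1) / (d.factorial : ℝ) <
      2 * fk (d + 1) ((2 * d - 2 : ℕ) : ℝ) := by
  rcases Nat.lt_or_ge d 5 with h | h
  · interval_cases d
    · have h1 := lam_fk_ge 3 6 (by norm_num) (x := 2) (by norm_num)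
      norm_num [Finset.sum_Ico_eq_sum_range, Finset.sum_range_succ, Nat.factorial] at h1 ⊢
      linarith
    · have h1 := lam_fk_ge 4 7 (by norm_num) (x := 4) (by norm_num)
      norm_num [Finset.sum_Ico_eq_sum_range, Finset.sum_range_succ, Nat.factorial] at h1 ⊢
      linarith
    · have h1 := lam_fk_ge 5 8 (by norm_num) (x := 6) (by norm_num)
      norm_num [Finset.sum_Ico_eq_sum_range, Finset.sum_range_succ, Nat.factorial] at h1 ⊢
      linarith
  · exact lam_large d h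

theorem exists_lam (d : ℕ) (hd : 2 ≤ d) :
    ∃ lam : ℝ, 2 * (d : ℝ) - 2 < lam ∧ lam < 2 * d ∧ IsLam d lam := by
  set h : ℝ → ℝ := fun x => x * fk d x - 2 * d * fk (d + 1) x with hh
  have hd2 : (2 : ℝ) ≤ d := by exact_mod_cast hd
  have hform : ∀ x, h x = (x - 2 * d) * fk (d + 1) x + x ^ (d + 1) / (d.factorial : ℝ) := by
    intro x
    rw [hh]
    simp only
    rw [lam_fk_succ d x, pow_succ]
    ring
  have hcont : Continuous h := by
    rw [hh]
    unfold fk
    fun_prop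
  have hb : 0 < h (2 * d) := by
    rw [hform, sub_self, zero_mul, zero_add]
    have : (0 : ℝ) < (d.factorial : ℝ) := by exact_mod_cast Nat.factorial_pos _
    positivity
  have ha : h (2 * d - 2) < 0 := by
    rw [hform]
    have h1 := lam_at d hd
    have h2 : ((2 * d - 2 : ℕ) : ℝ) = 2 * (d : ℝ) - 2 := by
      rw [Nat.cast_sub (by omega)]
      push_cast
      ring
    rw [h2] at h1
    linarith
  have h3 := intermediate_value_Ioo (f := h) (a := 2 * (d : ℝ) - 2) (b := 2 * d) (by linarith)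
    hcont.continuousOn
  obtain ⟨lam, hlam, h4⟩ := h3 ⟨ha, hb⟩
  refine ⟨lam, hlam.1, hlam.2, by linarith [hlam.1], ?_⟩
  rw [hh] at h4
  simp only at h4
  linarith

end Pool.Agent.Helper50.RG
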