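import Pool.Agent.Helper50.RG.WordsR

/-!
# RG-33 : lower bound for the number of words

Let `k = d + 1`, `f = fk k`, `a(m) = Wd k N m / m!`. `∑_m a(m) x^m = f(x)^N` for every `x > 0` (the
generating function: `HasSum`, by induction on `N` with `wd_succ`, Cauchy products; or only the two inequalities
that are needed). Let `u > 0` be small. As `lam f'(lam)/f(lam) = 2 d` (`f' = fk d`), there is a constant `C` with
`log f(lam e^u) ≤ log f(lam) + 2 d u + C u²` for `|u| ≤ 1`. Hence for `δ₁ > 0` the part of the sum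
`∑ a(m) lam^m` with `m ≥ (2 d + δ₁) N` is at most
`e^(-u (2d+δ₁) N) f(lam e^u)^N ≤ f(lam)^N e^(-(u δ₁ - C u²) N)`, and similarly for
`m ≤ (2 d - δ₁) N`. So for small `u`, large `N` at least half of the sum comes from
`|m - 2 d N| < δ₁ N` and some such `m₁` has `a(m₁) lam^m₁ ≥ f(lam)^N / (2 (2 δ₁ N + 2))`. By
`wd_ratio_le`, `wd_ratio_ge` the quotient `a(m)/a(m+1) = (m+1) Wd k N m / Wd k N (m+1)` lies between
`(m+1)/N - k` and `(m+1)/N`, so in the range `|m - 2dN| ≤ (1/2) N` between `1/2` (`2 d - (d+1) - 1/2 ≥ 1/2`)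
and `2 d + 1`; so all `a(m) lam^m` with `|m - 2 d N| ≤ δ₁ N` differ from `a(m₁) lam^m₁` by a factor at
most `e^(C' δ₁ N)`. Take `δ₀ = δ₁` small.
-/

set_option autoImplicit false

namespace Pool.Agent.Helper50.RG

open Finset

private theorem WordsL_hasSum_one (k : ℕ) (x : ℝ) :
    HasSum (fun j : ℕ => if k ≤ j then x ^ j / (j.factorial : ℝ) else 0) (fk k x) := by
  have h1 : HasSum (fun j : ℕ => x ^ j / (j.factorial : ℝ)) (Real.exp x) := by
    rw [Real.exp_eq_exp_ℝ]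
    exact NormedSpace.expSeries_div_hasSum_exp x
  have h2 : HasSum (fun j : ℕ => if j < k then x ^ j / (j.factorial : ℝ) else 0)
      (∑ i ∈ range k, x ^ i / (i.factorial : ℝ)) := by
    have h3 : HasSum (fun j : ℕ => if j < k then x ^ j / (j.factorial : ℝ) else 0)
        (∑ i ∈ range k, if i < k then x ^ i / (i.factorial : ℝ) else 0) := by
      apply hasSum_sum_of_ne_finset_zero
      intro j hj
      rw [Finset.mem_range] at hj
      rw [if_neg hj]
    have h4 : (∑ i ∈ range k, if i < k then x ^ i / (i.factorial : ℝ) else 0) =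
        ∑ i ∈ range k, x ^ i / (i.factorial : ℝ) := by
      refine Finset.sum_congr rfl (fun i hi => ?_)
      rw [if_pos (Finset.mem_range.1 hi)]
    rwa [h4] at h3
  have h5 := h1.sub h2
  have h6 : (fun j : ℕ => if k ≤ j then x ^ j / (j.factorial : ℝ) else 0) =
      fun j : ℕ => x ^ j / (j.factorial : ℝ) - if j < k then x ^ j / (j.factorial : ℝ) else 0 := by
    funext j
    by_cases hj : k ≤ j
    · rw [if_pos hj, if_neg (not_lt.2 hj), sub_zero]
    · rw [if_neg hj, if_pos (not_le.1 hj), sub_self]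
  rw [h6]
  exact h5

private theorem WordsL_hasSum (k : ℕ) (x : ℝ) (N : ℕ) :
    HasSum (fun m : ℕ => (Wd k N m : ℝ) * x ^ m / (m.factorial : ℝ)) (fk k x ^ N) := by
  induction N with
  | zero =>
    have h : (fun m : ℕ => (Wd k 0 m : ℝ) * x ^ m / (m.factorial : ℝ)) =
        fun m => if m = 0 then 1 else 0 := by
      funext m
      rw [wd_zero]
      by_cases hm : m = 0
      · subst hm
        simp
      · simp [hm]
    rw [h, pow_zero]
    exact hasSum_ite_eq 0 1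
  | succ N ih =>
    have h1 := WordsL_hasSum_one k x
    have hf : Summable (fun j : ℕ => ‖(if k ≤ j then x ^ j / (j.factorial : ℝ) else 0 : ℝ)‖) :=
      h1.summable.norm
    have hg : Summable (fun m : ℕ => ‖(Wd k N m : ℝ) * x ^ m / (m.factorial : ℝ)‖) :=
      ih.summable.norm
    have h2 := hasSum_sum_range_mul_of_summable_norm hf hg
    rw [h1.tsum_eq, ih.tsum_eq] at h2
    rw [pow_succ, mul_comm]
    have h3 : (fun m : ℕ => (Wd k (N + 1) m : ℝ) * x ^ m / (m.factorial : ℝ)) =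
        fun m : ℕ => ∑ j ∈ range (m + 1), (if k ≤ j then x ^ j / (j.factorial : ℝ) else 0) *
          ((Wd k N (m - j) : ℝ) * x ^ (m - j) / ((m - j).factorial : ℝ)) := by
      funext m
      rw [wd_succ]
      push_cast
      rw [Finset.sum_mul, Finset.sum_div]
      refine Finset.sum_congr rfl (fun j hj => ?_)
      have hjm : j ≤ m := Nat.lt_succ_iff.1 (Finset.mem_range.1 hj)
      by_cases hk : k ≤ j
      · rw [if_pos hk, if_pos hk]
        have h4 : (m.choose j : ℝ) * (j.factorial : ℝ) * ((m - j).factorial : ℝ) =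
            (m.factorial : ℝ) := by
          exact_mod_cast Nat.choose_mul_factorial_mul_factorial hjm
        have h5 : x ^ m = x ^ j * x ^ (m - j) := by
          rw [← pow_add, Nat.add_sub_cancel' hjm]
        have h6 : (j.factorial : ℝ) ≠ 0 := by positivity
        have h7 : ((m - j).factorial : ℝ) ≠ 0 := by positivity
        have h8 : (m.factorial : ℝ) ≠ 0 := by positivity
        rw [h5]
        field_simp
        rw [← h4]
        ring
      · rw [if_neg hk, if_neg hk]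
        simp
    rw [h3]
    exact h2

private theorem WordsL_deriv (k : ℕ) (x : ℝ) : HasDerivAt (fk (k + 1)) (fk k x) x := by
  have h1 : HasDerivAt (fun x : ℝ => ∑ i ∈ range (k + 1), x ^ i / (i.factorial : ℝ))
      (∑ i ∈ range (k + 1), ((i : ℝ) * x ^ (i - 1)) / (i.factorial : ℝ)) x := by
    apply HasDerivAt.fun_sum
    intro i _
    exact (hasDerivAt_pow i x).div_const _
  have h2 : (∑ i ∈ range (k + 1), ((i : ℝ) * x ^ (i - 1)) / (i.factorial : ℝ)) =
      ∑ i ∈ range k, x ^ i / (i.factorial : ℝ) := by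
    rw [Finset.sum_range_succ']
    simp only [Nat.cast_zero, zero_mul, zero_div, add_zero]
    refine Finset.sum_congr rfl (fun i _ => ?_)
    rw [Nat.factorial_succ]
    have h3 : ((i : ℝ) + 1) ≠ 0 := by positivity
    have h4 : (i.factorial : ℝ) ≠ 0 := by positivity
    push_cast
    field_simp
  rw [h2] at h1
  have h3 := (Real.hasDerivAt_exp x).sub h1
  exact h3

private theorem WordsL_small {φ : ℝ → ℝ} {φ' : ℝ} (h : HasDerivAt φ φ' 0) (h0 : φ' < 0) :
    ∃ u > 0, φ u < φ 0 := by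
  have h1 := hasDerivAt_iff_tendsto_slope.1 h
  have h2 : ∀ᶠ u in nhdsWithin (0 : ℝ) {0}ᶜ, slope φ 0 u < 0 := h1.eventually_lt_const h0
  have h3 : nhdsWithin (0 : ℝ) (Set.Ioi 0) ≤ nhdsWithin (0 : ℝ) {0}ᶜ := by
    apply nhdsWithin_mono
    intro u hu
    exact ne_of_gt hu
  have h4 := (h2.filter_mono h3).and self_mem_nhdsWithin
  obtain ⟨u, hu1, hu2⟩ := h4.exists
  have hu2' : (0 : ℝ) < u := hu2
  refine ⟨u, hu2', ?_⟩
  rw [slope_def_field, sub_zero] at hu1
  have h5 : φ u - φ 0 < 0 := by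
    by_contra hcon
    push Not at hcon
    exact absurd hu1 (not_lt.2 (div_nonneg hcon hu2'.le))
  linarith

private theorem WordsL_up (d : ℕ) {lam c : ℝ} (hlam : 0 < lam)
    (h : lam * fk d lam < c * fk (d + 1) lam) :
    ∃ u > 0, fk (d + 1) (lam * Real.exp u) * Real.exp (-(c * u)) < fk (d + 1) lam := by
  have h1 : HasDerivAt (fun u : ℝ => lam * Real.exp u) (lam * Real.exp 0) 0 :=
    (Real.hasDerivAt_exp 0).const_mul lam
  have h2 : HasDerivAt (fun u : ℝ => fk (d + 1) (lam * Real.exp u))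
      (fk d (lam * Real.exp 0) * (lam * Real.exp 0)) 0 := by
    have hd' : HasDerivAt (fk (d + 1)) (fk d (lam * Real.exp 0))
        ((fun u : ℝ => lam * Real.exp u) 0) := WordsL_deriv d (lam * Real.exp 0)
    exact hd'.comp (0 : ℝ) h1
  have h3 : HasDerivAt (fun u : ℝ => -(c * u)) (-(c * 1)) 0 :=
    ((hasDerivAt_id (0 : ℝ)).const_mul c).neg
  have h4 : HasDerivAt (fun u : ℝ => Real.exp (-(c * u)))
      (Real.exp (-(c * 0)) * (-(c * 1))) 0 := h3.exp
  have h5 := h2.mul h4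
  have h6 : fk d (lam * Real.exp 0) * (lam * Real.exp 0) * Real.exp (-(c * 0)) +
      fk (d + 1) (lam * Real.exp 0) * (Real.exp (-(c * 0)) * (-(c * 1))) < 0 := by
    simp only [Real.exp_zero, mul_one, mul_zero, neg_zero, one_mul]
    linarith
  obtain ⟨u, hu, hu2⟩ := WordsL_small h5 h6
  refine ⟨u, hu, ?_⟩
  simp only [Pi.mul_apply, Real.exp_zero, mul_one, mul_zero, neg_zero] at hu2
  exact hu2

private theorem WordsL_dn (d : ℕ) {lam c : ℝ} (hlam : 0 < lam)
    (h : c * fk (d + 1) lam < lam * fk d lam) :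
    ∃ u > 0, fk (d + 1) (lam * Real.exp (-u)) * Real.exp (c * u) < fk (d + 1) lam := by
  have h0 : HasDerivAt (fun u : ℝ => -u) (-1) 0 := (hasDerivAt_id (0 : ℝ)).neg
  have h1 : HasDerivAt (fun u : ℝ => lam * Real.exp (-u)) (lam * (Real.exp (-0) * (-1))) 0 :=
    h0.exp.const_mul lam
  have h2 : HasDerivAt (fun u : ℝ => fk (d + 1) (lam * Real.exp (-u)))
      (fk d (lam * Real.exp (-0)) * (lam * (Real.exp (-0) * (-1)))) 0 := by
    have hd' : HasDerivAt (fk (d + 1)) (fk d (lam * Real.exp (-0)))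
        ((fun u : ℝ => lam * Real.exp (-u)) 0) := WordsL_deriv d (lam * Real.exp (-0))
    exact hd'.comp (0 : ℝ) h1
  have h3 : HasDerivAt (fun u : ℝ => c * u) (c * 1) 0 := (hasDerivAt_id (0 : ℝ)).const_mul c
  have h4 : HasDerivAt (fun u : ℝ => Real.exp (c * u)) (Real.exp (c * 0) * (c * 1)) 0 := h3.exp
  have h5 := h2.mul h4
  have h6 : fk d (lam * Real.exp (-0)) * (lam * (Real.exp (-0) * (-1))) * Real.exp (c * 0) +
      fk (d + 1) (lam * Real.exp (-0)) * (Real.exp (c * 0) * (c * 1)) < 0 := by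
    simp only [neg_zero, Real.exp_zero, mul_one, mul_zero, one_mul]
    linarith
  obtain ⟨u, hu, hu2⟩ := WordsL_small h5 h6
  refine ⟨u, hu, ?_⟩
  simp only [Pi.mul_apply, neg_zero, Real.exp_zero, mul_one, mul_zero] at hu2
  exact hu2

private theorem WordsL_chain {b : ℕ → ℝ} {R : ℝ} (hR : 1 ≤ R) {a c : ℕ} (hac : a ≤ c)
    (h : ∀ m, a ≤ m → m < c → b m ≤ R * b (m + 1) ∧ b (m + 1) ≤ R * b m) :
    b a ≤ R ^ (c - a) * b c ∧ b c ≤ R ^ (c - a) * b a := by
  have hR0 : 0 ≤ R := by linarith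
  induction c, hac using Nat.le_induction with
  | base => simp
  | succ c hac ih =>
    obtain ⟨i1, i2⟩ := ih (fun m h1 h2 => h m h1 (Nat.lt_succ_of_lt h2))
    obtain ⟨j1, j2⟩ := h c hac (Nat.lt_succ_self c)
    have e : c + 1 - a = (c - a) + 1 := by omega
    rw [e, pow_succ]
    have hp : 0 ≤ R ^ (c - a) := pow_nonneg hR0 _
    constructor
    · calc b a ≤ R ^ (c - a) * b c := i1
        _ ≤ R ^ (c - a) * (R * b (c + 1)) := mul_le_mul_of_nonneg_left j1 hp
        _ = R ^ (c - a) * R * b (c + 1) := by ring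
    · calc b (c + 1) ≤ R * b c := j2
        _ ≤ R * (R ^ (c - a) * b a) := mul_le_mul_of_nonneg_left i2 hR0
        _ = R ^ (c - a) * R * b a := by ring

/-- the quotients of consecutive terms -/
private theorem WordsL_step (d : ℕ) (hd : 2 ≤ d) {lam : ℝ} (hlam : 0 < lam) {N m : ℕ}
    (hN : 1 ≤ N) (h1 : (2 * (d : ℝ) - 1 / 2) * N ≤ m) (h2 : (m : ℝ) + 1 ≤ (2 * d + 1) * N) :
    (Wd (d + 1) N m : ℝ) * lam ^ m / (m.factorial : ℝ) ≤ ((2 * d + 1) / lam) *
      ((Wd (d + 1) N (m + 1) : ℝ) * lam ^ (m + 1) / ((m + 1).factorial : ℝ)) ∧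
    (Wd (d + 1) N (m + 1) : ℝ) * lam ^ (m + 1) / ((m + 1).factorial : ℝ) ≤
      (2 * lam) * ((Wd (d + 1) N m : ℝ) * lam ^ m / (m.factorial : ℝ)) := by
  have hNr : (1 : ℝ) ≤ N := by exact_mod_cast hN
  have hN0 : (0 : ℝ) < N := by linarith
  have hdr : (2 : ℝ) ≤ d := by exact_mod_cast hd
  have hW0 : (0 : ℝ) ≤ (Wd (d + 1) N m : ℝ) := Nat.cast_nonneg _
  have hW1 : (0 : ℝ) ≤ (Wd (d + 1) N (m + 1) : ℝ) := Nat.cast_nonneg _
  have hfac : ((m + 1).factorial : ℝ) = ((m : ℝ) + 1) * (m.factorial : ℝ) := by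
    rw [Nat.factorial_succ]
    push_cast
    ring
  have hm0 : (0 : ℝ) < (m : ℝ) + 1 := by positivity
  have hf0 : (0 : ℝ) < (m.factorial : ℝ) := by positivity
  have hlm : 0 < lam ^ m := by positivity
  have r1 : (N : ℝ) * (Wd (d + 1) N m : ℝ) ≤ (Wd (d + 1) N (m + 1) : ℝ) := by
    exact_mod_cast wd_ratio_le (d + 1) N m
  have r2 := wd_ratio_ge (d + 1) N m (by omega)
  push_cast at r2
  rw [hfac]
  constructor
  · have e1 : (2 * (d : ℝ) + 1) / lam * ((Wd (d + 1) N (m + 1) : ℝ) * lam ^ (m + 1) /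
        (((m : ℝ) + 1) * (m.factorial : ℝ))) =
        ((2 * d + 1) * (Wd (d + 1) N (m + 1) : ℝ) / ((m : ℝ) + 1)) * (lam ^ m /
          (m.factorial : ℝ)) := by
      rw [pow_succ]
      field_simp
    have e2 : (Wd (d + 1) N m : ℝ) * lam ^ m / (m.factorial : ℝ) =
        (Wd (d + 1) N m : ℝ) * (lam ^ m / (m.factorial : ℝ)) := by ring
    rw [e1, e2]
    refine mul_le_mul_of_nonneg_right ?_ (by positivity)
    rw [le_div_iff₀ hm0]
    calc (Wd (d + 1) N m : ℝ) * ((m : ℝ) + 1) ≤ (Wd (d + 1) N m : ℝ) * ((2 * d + 1) * N) :=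
          mul_le_mul_of_nonneg_left h2 hW0
      _ = (2 * d + 1) * (N * (Wd (d + 1) N m : ℝ)) := by ring
      _ ≤ (2 * d + 1) * (Wd (d + 1) N (m + 1) : ℝ) :=
          mul_le_mul_of_nonneg_left r1 (by positivity)
  · have e1 : (Wd (d + 1) N (m + 1) : ℝ) * lam ^ (m + 1) / (((m : ℝ) + 1) * (m.factorial : ℝ)) =
        ((Wd (d + 1) N (m + 1) : ℝ) * lam / ((m : ℝ) + 1)) * (lam ^ m / (m.factorial : ℝ)) := by
      rw [pow_succ]
      field_simp
    have e2 : 2 * lam * ((Wd (d + 1) N m : ℝ) * lam ^ m / (m.factorial : ℝ)) =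
        (2 * lam * (Wd (d + 1) N m : ℝ)) * (lam ^ m / (m.factorial : ℝ)) := by ring
    rw [e1, e2]
    refine mul_le_mul_of_nonneg_right ?_ (by positivity)
    rw [div_le_iff₀ hm0]
    have r3 : (N : ℝ) / 2 * (Wd (d + 1) N (m + 1) : ℝ) ≤
        N * ((m : ℝ) + 1) * (Wd (d + 1) N m : ℝ) := by
      refine le_trans (mul_le_mul_of_nonneg_right ?_ hW1) r2
      nlinarith
    have r4 : (Wd (d + 1) N (m + 1) : ℝ) ≤ 2 * ((m : ℝ) + 1) * (Wd (d + 1) N m : ℝ) := by
      have r5 : (N : ℝ) * (Wd (d + 1) N (m + 1) : ℝ) ≤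
          N * (2 * ((m : ℝ) + 1) * (Wd (d + 1) N m : ℝ)) := by nlinarith
      exact le_of_mul_le_mul_left r5 hN0
    nlinarith

private theorem WordsL_mid (d : ℕ) {lam : ℝ} (hl : IsLam d lam) {δ₁ : ℝ} (hδ : 0 < δ₁)
    (hδ1 : δ₁ ≤ 1 / 2) :
    ∃ N₁ : ℕ, ∀ N ≥ N₁, ∃ m₁ : ℕ, |(m₁ : ℝ) - 2 * d * N| ≤ δ₁ * N ∧
      fk (d + 1) lam ^ N ≤ 2 * ((2 * d + 1) * N + 1) *
        ((Wd (d + 1) N m₁ : ℝ) * lam ^ m₁ / (m₁.factorial : ℝ)) := by
  classical
  obtain ⟨hlam, hle⟩ := hl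
  have hF : 0 < fk (d + 1) lam := fk_pos (d + 1) hlam
  obtain ⟨u₁, hu₁, hq₁⟩ := WordsL_up d (c := 2 * d + δ₁) hlam (by rw [hle]; nlinarith)
  obtain ⟨u₂, hu₂, hq₂⟩ := WordsL_dn d (c := 2 * d - δ₁) hlam (by rw [hle]; nlinarith)
  set q₁ : ℝ := fk (d + 1) (lam * Real.exp u₁) * Real.exp (-((2 * d + δ₁) * u₁)) /
    fk (d + 1) lam with hq₁d
  set q₂ : ℝ := fk (d + 1) (lam * Real.exp (-u₂)) * Real.exp ((2 * d - δ₁) * u₂) /
    fk (d + 1) lam with hq₂d
  have h1 : q₁ < 1 := (div_lt_one hF).2 hq₁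
  have h2 : q₂ < 1 := (div_lt_one hF).2 hq₂
  have h1' : 0 ≤ q₁ := div_nonneg (mul_nonneg (fk_nonneg _ (by positivity))
    (Real.exp_pos _).le) hF.le
  have h2' : 0 ≤ q₂ := div_nonneg (mul_nonneg (fk_nonneg _ (by positivity))
    (Real.exp_pos _).le) hF.le
  have t1 := (tendsto_pow_atTop_nhds_zero_of_lt_one h1' h1).eventually_lt_const
    (show (0 : ℝ) < 1 / 4 by norm_num)
  have t2 := (tendsto_pow_atTop_nhds_zero_of_lt_one h2' h2).eventually_lt_const
    (show (0 : ℝ) < 1 / 4 by norm_num)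
  obtain ⟨N₁, hN₁⟩ := Filter.eventually_atTop.1 (t1.and t2)
  refine ⟨N₁, fun N hN => ?_⟩
  obtain ⟨hA, hB⟩ := hN₁ N hN
  set b : ℕ → ℝ := fun m => (Wd (d + 1) N m : ℝ) * lam ^ m / (m.factorial : ℝ) with hb
  have hb0 : ∀ m, 0 ≤ b m := fun m => by
    simp only [hb]
    positivity
  set mid : Finset ℕ := (range ((2 * d + 1) * N + 1)).filter
    (fun m => |(m : ℝ) - 2 * d * N| ≤ δ₁ * N) with hmid
  have s0 : HasSum b (fk (d + 1) lam ^ N) := WordsL_hasSum (d + 1) lam N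
  have s1 := WordsL_hasSum (d + 1) (lam * Real.exp u₁) N
  have s2 := WordsL_hasSum (d + 1) (lam * Real.exp (-u₂)) N
  have s3 : HasSum (fun m => if m ∈ mid then b m else 0) (∑ m ∈ mid, b m) := by
    have h3 : HasSum (fun m => if m ∈ mid then b m else 0)
        (∑ m ∈ mid, if m ∈ mid then b m else 0) := by
      apply hasSum_sum_of_ne_finset_zero
      intro m hm
      rw [if_neg hm]
    have h4 : (∑ m ∈ mid, if m ∈ mid then b m else 0) = ∑ m ∈ mid, b m :=
      Finset.sum_congr rfl (fun m hm => if_pos hm)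
    rwa [h4] at h3
  have s4 := (s3.add (s1.mul_left (Real.exp (-((2 * d + δ₁) * u₁)) ^ N))).add
    (s2.mul_left (Real.exp ((2 * d - δ₁) * u₂) ^ N))
  have hpt : ∀ m, b m ≤ (if m ∈ mid then b m else 0) +
      Real.exp (-((2 * d + δ₁) * u₁)) ^ N *
        ((Wd (d + 1) N m : ℝ) * (lam * Real.exp u₁) ^ m / (m.factorial : ℝ)) +
      Real.exp ((2 * d - δ₁) * u₂) ^ N *
        ((Wd (d + 1) N m : ℝ) * (lam * Real.exp (-u₂)) ^ m / (m.factorial : ℝ)) := by
    intro m
    have hn1 : 0 ≤ Real.exp (-((2 * d + δ₁) * u₁)) ^ N *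
        ((Wd (d + 1) N m : ℝ) * (lam * Real.exp u₁) ^ m / (m.factorial : ℝ)) := by positivity
    have hn2 : 0 ≤ Real.exp ((2 * d - δ₁) * u₂) ^ N *
        ((Wd (d + 1) N m : ℝ) * (lam * Real.exp (-u₂)) ^ m / (m.factorial : ℝ)) := by
      positivity
    by_cases hm : m ∈ mid
    · rw [if_pos hm]
      linarith
    · rw [if_neg hm, zero_add]
      have hcase : (2 * (d : ℝ) + δ₁) * N ≤ m ∨ (m : ℝ) ≤ (2 * d - δ₁) * N := by
        by_contra hcon
        push Not at hcon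
        apply hm
        rw [hmid, Finset.mem_filter, Finset.mem_range, abs_le]
        have hN0 : (0 : ℝ) ≤ N := Nat.cast_nonneg N
        refine ⟨?_, by nlinarith [hcon.2], by nlinarith [hcon.1]⟩
        have : (m : ℝ) < ((2 * d + 1) * N + 1 : ℕ) := by
          push_cast
          nlinarith [hcon.1]
        exact_mod_cast this
      rcases hcase with hc | hc
      · refine le_trans ?_ (le_add_of_nonneg_right hn2)
        have e1 : Real.exp (-((2 * d + δ₁) * u₁)) ^ N *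
            ((Wd (d + 1) N m : ℝ) * (lam * Real.exp u₁) ^ m / (m.factorial : ℝ)) =
            b m * Real.exp (u₁ * (m - (2 * d + δ₁) * N)) := by
          simp only [hb]
          rw [mul_pow, ← Real.exp_nat_mul, ← Real.exp_nat_mul]
          have e2 : Real.exp (u₁ * (m - (2 * d + δ₁) * N)) =
              Real.exp ((N : ℝ) * -((2 * d + δ₁) * u₁)) * Real.exp ((m : ℝ) * u₁) := by
            rw [← Real.exp_add]
            congr 1
            ring
          rw [e2]
          ring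
        rw [e1]
        have h3 : (1 : ℝ) ≤ Real.exp (u₁ * (m - (2 * d + δ₁) * N)) := by
          apply Real.one_le_exp
          exact mul_nonneg hu₁.le (by linarith)
        exact le_mul_of_one_le_right (hb0 m) h3
      · refine le_trans ?_ (le_add_of_nonneg_left hn1)
        have e1 : Real.exp ((2 * d - δ₁) * u₂) ^ N *
            ((Wd (d + 1) N m : ℝ) * (lam * Real.exp (-u₂)) ^ m / (m.factorial : ℝ)) =
            b m * Real.exp (u₂ * ((2 * d - δ₁) * N - m)) := by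
          simp only [hb]
          rw [mul_pow, ← Real.exp_nat_mul, ← Real.exp_nat_mul]
          have e2 : Real.exp (u₂ * ((2 * d - δ₁) * N - m)) =
              Real.exp ((N : ℝ) * ((2 * d - δ₁) * u₂)) * Real.exp ((m : ℝ) * -u₂) := by
            rw [← Real.exp_add]
            congr 1
            ring
          rw [e2]
          ring
        rw [e1]
        have h3 : (1 : ℝ) ≤ Real.exp (u₂ * ((2 * d - δ₁) * N - m)) := by
          apply Real.one_le_exp
          exact mul_nonneg hu₂.le (by linarith)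
        exact le_mul_of_one_le_right (hb0 m) h3
  have hle2 := hasSum_le hpt s0 s4
  have e1 : Real.exp (-((2 * d + δ₁) * u₁)) ^ N * fk (d + 1) (lam * Real.exp u₁) ^ N =
      q₁ ^ N * fk (d + 1) lam ^ N := by
    rw [← mul_pow, ← mul_pow, hq₁d, div_mul_cancel₀ _ hF.ne', mul_comm]
  have e2 : Real.exp ((2 * d - δ₁) * u₂) ^ N * fk (d + 1) (lam * Real.exp (-u₂)) ^ N =
      q₂ ^ N * fk (d + 1) lam ^ N := by
    rw [← mul_pow, ← mul_pow, hq₂d, div_mul_cancel₀ _ hF.ne', mul_comm]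
  rw [e1, e2] at hle2
  have hFN : 0 < fk (d + 1) lam ^ N := by positivity
  have hsum : fk (d + 1) lam ^ N / 2 < ∑ m ∈ mid, b m := by nlinarith
  by_contra hcon
  push Not at hcon
  have hL : (0 : ℝ) < 2 * ((2 * d + 1) * N + 1) := by positivity
  have h5 : ∀ m ∈ mid, b m ≤ fk (d + 1) lam ^ N / (2 * ((2 * d + 1) * N + 1)) := by
    intro m hm
    rw [le_div_iff₀ hL]
    have h6 := hcon m (Finset.mem_filter.1 hm).2
    have h7 : 2 * ((2 * (d : ℝ) + 1) * N + 1) * b m < fk (d + 1) lam ^ N := h6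
    linarith
  have h6 := Finset.sum_le_card_nsmul mid b _ h5
  rw [nsmul_eq_mul] at h6
  have h7 : (mid.card : ℝ) ≤ (2 * d + 1) * N + 1 := by
    have h8 : mid.card ≤ (2 * d + 1) * N + 1 := by
      refine (Finset.card_filter_le _ _).trans ?_
      rw [Finset.card_range]
    exact_mod_cast h8
  have h8 : (mid.card : ℝ) * (fk (d + 1) lam ^ N / (2 * ((2 * d + 1) * N + 1))) ≤
      ((2 * d + 1) * N + 1) * (fk (d + 1) lam ^ N / (2 * ((2 * d + 1) * N + 1))) :=
    mul_le_mul_of_nonneg_right h7 (by positivity)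
  have h9 : ((2 * (d : ℝ) + 1) * N + 1) * (fk (d + 1) lam ^ N / (2 * ((2 * d + 1) * N + 1))) =
      fk (d + 1) lam ^ N / 2 := by
    have : (2 * (d : ℝ) + 1) * N + 1 ≠ 0 := by positivity
    field_simp
  linarith

theorem wd_ge (d : ℕ) (hd : 2 ≤ d) (lam : ℝ) (hl : IsLam d lam) (δ : ℝ) (hδ : 0 < δ) :
    ∃ δ₀ > 0, ∃ N₀ : ℕ, ∀ N ≥ N₀, ∀ m : ℕ, |(m : ℝ) - 2 * d * N| ≤ δ₀ * N →
      (m.factorial : ℝ) * fk (d + 1) lam ^ N ≤
        (Wd (d + 1) N m : ℝ) * lam ^ m * Real.exp (δ * N) := by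
  have hlam : 0 < lam := hl.1
  have hdr : (2 : ℝ) ≤ d := by exact_mod_cast hd
  set R : ℝ := max (2 * lam) (max ((2 * d + 1) / lam) 1) with hR
  have hR1 : 1 ≤ R := (le_max_right _ _).trans (le_max_right _ _)
  have hR2 : 2 * lam ≤ R := le_max_left _ _
  have hR3 : (2 * (d : ℝ) + 1) / lam ≤ R := (le_max_left _ _).trans (le_max_right _ _)
  have hlog : 0 ≤ Real.log R := Real.log_nonneg hR1
  set δ₁ : ℝ := min (1 / 2) (δ / (4 * (Real.log R + 1))) with hδ₁
  have hδ₁0 : 0 < δ₁ := lt_min (by norm_num) (by positivity)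
  have hδ₁1 : δ₁ ≤ 1 / 2 := min_le_left _ _
  have hδ₁2 : 2 * δ₁ * Real.log R ≤ δ / 2 := by
    have h1 : δ₁ ≤ δ / (4 * (Real.log R + 1)) := min_le_right _ _
    have h2 : δ₁ * (4 * (Real.log R + 1)) ≤ δ := by
      rwa [le_div_iff₀ (by positivity)] at h1
    nlinarith
  obtain ⟨N₁, hN₁⟩ := WordsL_mid d hl hδ₁0 hδ₁1
  -- the polynomial factor
  have hpoly : ∀ᶠ N : ℕ in Filter.atTop,
      2 * ((2 * (d : ℝ) + 1) * N + 1) ≤ Real.exp (δ / 2 * N) := by
    have t1 : Filter.Tendsto (fun N : ℕ => δ / 2 * (N : ℝ)) Filter.atTop Filter.atTop :=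
      Filter.Tendsto.const_mul_atTop (by positivity) tendsto_natCast_atTop_atTop
    have t2 := (Real.tendsto_exp_div_pow_atTop 1).comp t1
    have t3 := t2.eventually_ge_atTop (2 * (2 * (d : ℝ) + 2) / (δ / 2))
    filter_upwards [t3, Filter.eventually_ge_atTop 1] with N h1 h2
    have hNr : (1 : ℝ) ≤ N := by exact_mod_cast h2
    simp only [Function.comp, pow_one] at h1
    rw [div_le_div_iff₀ (by positivity) (by positivity)] at h1
    have h3 : 2 * (2 * (d : ℝ) + 2) * N ≤ Real.exp (δ / 2 * N) := by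
      have h4 : 2 * (2 * (d : ℝ) + 2) * (δ / 2 * N) = (2 * (2 * (d : ℝ) + 2) * N) * (δ / 2) := by
        ring
      rw [h4] at h1
      exact le_of_mul_le_mul_right h1 (by positivity)
    nlinarith
  obtain ⟨N₂, hN₂⟩ := Filter.eventually_atTop.1 hpoly
  refine ⟨δ₁, hδ₁0, max (max N₁ N₂) 1, fun N hN m hm => ?_⟩
  have hNa : N₁ ≤ N := (le_max_left _ _).trans ((le_max_left _ _).trans hN)
  have hNb : N₂ ≤ N := (le_max_right _ _).trans ((le_max_left _ _).trans hN)
  have hNc : 1 ≤ N := (le_max_right _ _).trans hN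
  have hNr : (1 : ℝ) ≤ N := by exact_mod_cast hNc
  obtain ⟨m₁, hm₁, hbig⟩ := hN₁ N hNa
  set b : ℕ → ℝ := fun m => (Wd (d + 1) N m : ℝ) * lam ^ m / (m.factorial : ℝ) with hb
  have hb0 : ∀ m, 0 ≤ b m := fun m => by
    simp only [hb]
    positivity
  rw [abs_le] at hm hm₁
  have hstep : ∀ l : ℕ, (2 * (d : ℝ) - 1 / 2) * N ≤ l → (l : ℝ) + 1 ≤ (2 * d + 1) * N →
      b l ≤ R * b (l + 1) ∧ b (l + 1) ≤ R * b l := by
    intro l h1 h2
    obtain ⟨h3, h4⟩ := WordsL_step d hd hlam hNc h1 h2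
    exact ⟨h3.trans (mul_le_mul_of_nonneg_right hR3 (hb0 _)),
      h4.trans (mul_le_mul_of_nonneg_right hR2 (hb0 _))⟩
  have hRpow : ∀ r : ℕ, (r : ℝ) ≤ 2 * δ₁ * N → R ^ r ≤ Real.exp (δ / 2 * N) := by
    intro r hr
    have h1 : R ^ r = Real.exp (r * Real.log R) := by
      rw [Real.exp_nat_mul, Real.exp_log (by linarith)]
    rw [h1]
    apply Real.exp_le_exp.2
    calc (r : ℝ) * Real.log R ≤ 2 * δ₁ * N * Real.log R := mul_le_mul_of_nonneg_right hr hlog
      _ = (2 * δ₁ * Real.log R) * N := by ring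
      _ ≤ δ / 2 * N := mul_le_mul_of_nonneg_right hδ₁2 (by linarith)
  have hcmp : b m₁ ≤ Real.exp (δ / 2 * N) * b m := by
    rcases le_total m m₁ with hle | hle
    · have h1 := (WordsL_chain hR1 hle (b := b) (fun l h1 h2 => by
        have h1r : (m : ℝ) ≤ l := by exact_mod_cast h1
        have h2r : (l : ℝ) + 1 ≤ m₁ := by exact_mod_cast h2
        exact hstep l (by nlinarith) (by nlinarith))).2
      refine h1.trans (mul_le_mul_of_nonneg_right (hRpow _ ?_) (hb0 _))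
      rw [Nat.cast_sub hle]
      nlinarith
    · have h1 := (WordsL_chain hR1 hle (b := b) (fun l h1 h2 => by
        have h1r : (m₁ : ℝ) ≤ l := by exact_mod_cast h1
        have h2r : (l : ℝ) + 1 ≤ m := by exact_mod_cast h2
        exact hstep l (by nlinarith) (by nlinarith))).1
      refine h1.trans (mul_le_mul_of_nonneg_right (hRpow _ ?_) (hb0 _))
      rw [Nat.cast_sub hle]
      nlinarith
  have hfin : fk (d + 1) lam ^ N ≤ Real.exp (δ * N) * b m := by
    calc fk (d + 1) lam ^ N ≤ 2 * ((2 * d + 1) * N + 1) * b m₁ := hbig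
      _ ≤ Real.exp (δ / 2 * N) * b m₁ := mul_le_mul_of_nonneg_right (hN₂ N hNb) (hb0 _)
      _ ≤ Real.exp (δ / 2 * N) * (Real.exp (δ / 2 * N) * b m) :=
          mul_le_mul_of_nonneg_left hcmp (Real.exp_pos _).le
      _ = Real.exp (δ * N) * b m := by
          rw [← mul_assoc, ← Real.exp_add]
          congr 2
          ring
  have hf0 : (0 : ℝ) < (m.factorial : ℝ) := by positivity
  calc (m.factorial : ℝ) * fk (d + 1) lam ^ N ≤ (m.factorial : ℝ) * (Real.exp (δ * N) * b m) :=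
        mul_le_mul_of_nonneg_left hfin hf0.le
    _ = (Wd (d + 1) N m : ℝ) * lam ^ m * Real.exp (δ * N) := by
        simp only [hb]
        field_simp

end Pool.Agent.Helper50.RG
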