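import Pool.Agent.Helper50.RG.FqC
import Pool.Agent.Helper50.RG.FqD
import Pool.Agent.Helper50.RG.FqE
import Pool.Agent.Helper50.RG.WordsL
import Pool.Agent.Helper50.RG.Lam

/-!
# RG-45 : the event `E6`

Let `N` be large; by Bertrand's postulate (`Nat.exists_prime_lt_and_le_two_mul`) there is a prime `q` with
`N^(1/(4d))/2 ≤ q ≤ N^(1/(4d))` (`q > 2`). Let `𝒰` be the set of the sequences `u` in question,
`C₁ = (log N)²`. For `u ∈ 𝒰` take `S` from `exists_max_small` (`|S| ≤ C₂ log N`), `P` from `special_poly`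
(with `special_ne`): total degree at most `d C₂ log N`, and its vertices are in `S` or adjacent to `S`:
at most `(d + 2) |S|`. By `many_good` (with the constant `(d+2) C₂ + 1`...) at least `q^(dN)/2^(N+1)`
placements `p` are good, and for these
`exists_badM` gives `∃ m, BadM p m u η` (`C₁/q → 0`). Double counting the pairs `(u, p)` with `bad_count`:
`|𝒰| q^(dN)/2^(N+1) ≤ q^(dN) N^(2M) 6^M 2^N (1 + C₁)^M (N+1)^(q^(2d)) q^(-η N)`, `q^(2d) ≤ N^(1/2)`. On the other side
`|TT| = Wd (d+1) N (2M) ≥ (2M)! fk(lam)^N lam^(-2M) e^(-N) ≥ N^(2M) e^(-C N)` (`wd_ge`, `exists_lam`, `(2M)! ≥ (2M/e)^(2M)`,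
`2 M ≥ N`). The quotient is at most `exp (C' N log log N - η N log q)`, `log q ≥ (log N)/(4d) - log 2`.
-/

set_option autoImplicit false

namespace Pool.Agent.Helper50.RG

open Finset Filter

private lemma fqf_ev (d : ℕ) (hd : 2 ≤ d) (A η : ℝ) (hη : 0 < η) :
    ∀ᶠ N : ℕ in atTop,
      A + d * Real.log (1 + Real.log N ^ 2) ≤ η / (4 * d) * Real.log N := by
  have hd0 : (0 : ℝ) < d := by positivity
  have key : ∀ᶠ t : ℝ in atTop, A + d * Real.log (1 + t ^ 2) ≤ η / (4 * d) * t := by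
    set c : ℝ := η / (16 * d ^ 2) with hc
    have hc0 : 0 < c := by positivity
    have h1 : ∀ᶠ y : ℝ in atTop, Real.log y ≤ c * y := by
      have h := (Real.isLittleO_log_id_atTop.bound hc0)
      filter_upwards [h, eventually_ge_atTop 1] with y hy hy1
      have h2 : ‖Real.log y‖ = Real.log y := by
        rw [Real.norm_eq_abs, abs_of_nonneg (Real.log_nonneg hy1)]
      rw [h2, id, Real.norm_eq_abs, abs_of_nonneg (by linarith)] at hy
      exact hy
    have h2 : ∀ᶠ t : ℝ in atTop, Real.log (1 + t) ≤ c * (1 + t) :=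
      (tendsto_atTop_add_const_left atTop (1 : ℝ) tendsto_id).eventually h1
    filter_upwards [h2, eventually_ge_atTop 0,
      eventually_ge_atTop ((A + η / (8 * d)) / (η / (8 * d)))] with t ht ht0 htA
    have h3 : Real.log (1 + t ^ 2) ≤ 2 * Real.log (1 + t) := by
      have h4 : 2 * Real.log (1 + t) = Real.log ((1 + t) ^ 2) := by
        rw [Real.log_pow]; norm_num
      rw [h4]
      apply Real.log_le_log (by positivity)
      nlinarith
    have h5 : (d : ℝ) * Real.log (1 + t ^ 2) ≤ η / (8 * d) * (1 + t) := by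
      have h6 : η / (8 * d) * (1 + t) = d * (2 * (c * (1 + t))) := by
        rw [hc]; field_simp; ring
      rw [h6]
      apply mul_le_mul_of_nonneg_left _ hd0.le
      linarith
    rw [div_le_iff₀ (by positivity)] at htA
    have h7 : η / (4 * d) * t = η / (8 * d) * t + η / (8 * d) * t := by
      field_simp; ring
    rw [h7]
    nlinarith
  exact (Real.tendsto_log_atTop.comp tendsto_natCast_atTop_atTop).eventually key

private lemma fqf_num (d : ℕ) (hd : 2 ≤ d) (η : ℝ) (hη : 0 < η) (lam g : ℝ) (hlam : 0 < lam)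
    (hg : 0 < g) :
    ∀ᶠ N : ℕ in atTop, ∀ M s' : ℕ, s' ≤ 1 → M + KK d + s' = d * N → ∀ q : ℕ, 1 ≤ q →
      (N : ℝ) ^ (1 / (4 * (d : ℝ))) / 2 ≤ q → (q : ℝ) ≤ (N : ℝ) ^ (1 / (4 * (d : ℝ))) →
      2 ^ (N + 1) * ((N : ℝ) ^ (2 * M) * 6 ^ M * 2 ^ N * (1 + Real.log N ^ 2) ^ M *
        ((N : ℝ) + 1) ^ (q ^ (2 * d)) * (q : ℝ) ^ (-η * N)) * (lam ^ (2 * M) * Real.exp (1 * N)) ≤
      Real.exp (-(N : ℝ)) * (((2 * M).factorial : ℝ) * g ^ N) := by
  have hd0 : (0 : ℝ) < d := by positivity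
  have hsqrt : ∀ᶠ N : ℕ in atTop, (N : ℝ) ^ (1 / 2 : ℝ) * Real.log (N + 1) ≤ N := by
    have h := (isLittleO_log_rpow_atTop (r := 1 / 2) (by norm_num)).bound
      (c := 1 / 2) (by norm_num)
    have h' := (tendsto_atTop_add_const_right atTop (1 : ℝ)
      (tendsto_natCast_atTop_atTop (R := ℝ))).eventually h
    filter_upwards [h', eventually_ge_atTop 1] with N hN hN1
    have hN1' : (1 : ℝ) ≤ N := by exact_mod_cast hN1
    have h2 : Real.log ((N : ℝ) + 1) ≤ 1 / 2 * ((N : ℝ) + 1) ^ (1 / 2 : ℝ) := by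
      have h3 := le_trans (le_abs_self _) hN
      rw [Real.norm_eq_abs, abs_of_nonneg (by positivity)] at h3
      exact h3
    have h4 : ((N : ℝ) + 1) ^ (1 / 2 : ℝ) ≤ 2 * (N : ℝ) ^ (1 / 2 : ℝ) := by
      have h5 : (N : ℝ) + 1 ≤ 4 * N := by linarith
      have h6 : ((N : ℝ) + 1) ^ (1 / 2 : ℝ) ≤ (4 * (N : ℝ)) ^ (1 / 2 : ℝ) :=
        Real.rpow_le_rpow (by positivity) h5 (by norm_num)
      have h7 : (4 * (N : ℝ)) ^ (1 / 2 : ℝ) = 2 * (N : ℝ) ^ (1 / 2 : ℝ) := by
        rw [Real.mul_rpow (by norm_num) (by positivity)]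
        congr 1
        rw [show (4 : ℝ) = 2 ^ (2 : ℝ) by norm_num, ← Real.rpow_mul (by norm_num)]
        norm_num
      rw [h7] at h6
      exact h6
    have h8 : (N : ℝ) ^ (1 / 2 : ℝ) * (N : ℝ) ^ (1 / 2 : ℝ) = N := by
      rw [← Real.rpow_add (by linarith)]
      norm_num
    calc (N : ℝ) ^ (1 / 2 : ℝ) * Real.log (N + 1)
        ≤ (N : ℝ) ^ (1 / 2 : ℝ) * (1 / 2 * (2 * (N : ℝ) ^ (1 / 2 : ℝ))) := by
          apply mul_le_mul_of_nonneg_left _ (by positivity)
          linarith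
      _ = N := by linear_combination h8
  filter_upwards [hsqrt, fqf_ev d hd (6 + 4 * d + 2 * d * |Real.log lam| + |Real.log g| + η) η hη,
    eventually_ge_atTop (2 * KK d + 3)] with N h1 h2 h3 M s' hs' hM q hq0 hq1 hq2
  have hNpos : (0 : ℝ) < N := by
    have : 0 < N := by omega
    exact_mod_cast this
  have hN1 : (1 : ℝ) ≤ N := by
    have : 1 ≤ N := by omega
    exact_mod_cast this
  have hMN : M ≤ d * N := by omega
  have hMN' : (M : ℝ) ≤ d * N := by exact_mod_cast hMN
  have hdN : 2 * N ≤ d * N := Nat.mul_le_mul_right N hd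
  have hNM : N ≤ 2 * M := by omega
  have hNM' : (N : ℝ) ≤ 2 * M := by exact_mod_cast hNM
  have hqpos : (0 : ℝ) < q := by exact_mod_cast hq0
  have hlogN : 0 ≤ Real.log N := Real.log_nonneg hN1
  -- factorial
  have hfac : (N : ℝ) ^ (2 * M) ≤ ((2 * M).factorial : ℝ) * Real.exp (2 * M) := by
    have h4 := Real.pow_div_factorial_le_exp (2 * (M : ℝ)) (by positivity) (2 * M)
    rw [div_le_iff₀ (by positivity)] at h4
    calc (N : ℝ) ^ (2 * M) ≤ (2 * (M : ℝ)) ^ (2 * M) := pow_le_pow_left₀ hNpos.le hNM' _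
      _ ≤ _ := by linarith
  -- the other factors
  have e1 : (2 : ℝ) ^ (N + 1) ≤ Real.exp (N + 1) := by
    have : (2 : ℝ) ≤ Real.exp 1 := by have := Real.exp_one_gt_d9; linarith
    calc (2 : ℝ) ^ (N + 1) ≤ Real.exp 1 ^ (N + 1) := pow_le_pow_left₀ (by norm_num) this _
      _ = _ := by rw [← Real.exp_nat_mul]; push_cast; ring_nf
  have e2 : (6 : ℝ) ^ M ≤ Real.exp (2 * M) := by
    have h5 : (6 : ℝ) ≤ Real.exp 2 := by
      have h6 := Real.exp_one_gt_d9
      have h7 : Real.exp 2 = Real.exp 1 * Real.exp 1 := by rw [← Real.exp_add]; norm_num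
      rw [h7]; nlinarith
    calc (6 : ℝ) ^ M ≤ Real.exp 2 ^ M := pow_le_pow_left₀ (by norm_num) h5 _
      _ = _ := by rw [← Real.exp_nat_mul]; ring_nf
  have e3 : (2 : ℝ) ^ N ≤ Real.exp N := by
    have : (2 : ℝ) ≤ Real.exp 1 := by have := Real.exp_one_gt_d9; linarith
    calc (2 : ℝ) ^ N ≤ Real.exp 1 ^ N := pow_le_pow_left₀ (by norm_num) this _
      _ = _ := by rw [← Real.exp_nat_mul]; ring_nf
  have hL0 : 0 ≤ Real.log (1 + Real.log N ^ 2) := Real.log_nonneg (by nlinarith)
  have e4 : (1 + Real.log N ^ 2) ^ M ≤ Real.exp (d * N * Real.log (1 + Real.log N ^ 2)) := by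
    have h5 : (1 + Real.log N ^ 2) ^ M = Real.exp (M * Real.log (1 + Real.log N ^ 2)) := by
      rw [Real.exp_nat_mul, Real.exp_log (by positivity)]
    rw [h5]
    apply Real.exp_le_exp.2
    exact mul_le_mul_of_nonneg_right hMN' hL0
  have e5 : ((N : ℝ) + 1) ^ (q ^ (2 * d)) ≤ Real.exp N := by
    have h5 : ((N : ℝ) + 1) ^ (q ^ (2 * d)) =
        Real.exp (((q ^ (2 * d) : ℕ) : ℝ) * Real.log (N + 1)) := by
      rw [Real.exp_nat_mul, Real.exp_log (by positivity)]
    rw [h5]
    apply Real.exp_le_exp.2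
    have h6 : ((q ^ (2 * d) : ℕ) : ℝ) ≤ (N : ℝ) ^ (1 / 2 : ℝ) := by
      push_cast
      calc (q : ℝ) ^ (2 * d) ≤ ((N : ℝ) ^ (1 / (4 * (d : ℝ)))) ^ (2 * d) :=
            pow_le_pow_left₀ hqpos.le hq2 _
        _ = _ := by
            rw [← Real.rpow_natCast, ← Real.rpow_mul hNpos.le]
            congr 1
            push_cast
            field_simp
            norm_num
    have h7 : 0 ≤ Real.log ((N : ℝ) + 1) := Real.log_nonneg (by linarith)
    exact le_trans (mul_le_mul_of_nonneg_right h6 h7) h1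
  have e6 : (q : ℝ) ^ (-η * N) ≤ Real.exp (-η * N * (Real.log N / (4 * d) - 1)) := by
    rw [Real.rpow_def_of_pos hqpos]
    apply Real.exp_le_exp.2
    have h5 : Real.log N / (4 * d) - 1 ≤ Real.log q := by
      have h6 : Real.log ((N : ℝ) ^ (1 / (4 * (d : ℝ))) / 2) ≤ Real.log q :=
        Real.log_le_log (by positivity) hq1
      rw [Real.log_div (by positivity) (by norm_num), Real.log_rpow hNpos] at h6
      have h7 := Real.log_two_lt_d9
      have h8 : 1 / (4 * (d : ℝ)) * Real.log N = Real.log N / (4 * d) := by ring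
      rw [h8] at h6
      linarith
    have h9 : 0 ≤ η * N := by positivity
    nlinarith
  have e7 : lam ^ (2 * M) ≤ Real.exp (2 * (d * N) * |Real.log lam|) := by
    have h5 : lam ^ (2 * M) = Real.exp (((2 * M : ℕ) : ℝ) * Real.log lam) := by
      rw [Real.exp_nat_mul, Real.exp_log hlam]
    rw [h5]
    apply Real.exp_le_exp.2
    push_cast
    calc 2 * (M : ℝ) * Real.log lam ≤ 2 * (M : ℝ) * |Real.log lam| :=
          mul_le_mul_of_nonneg_left (le_abs_self _) (by positivity)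
      _ ≤ _ := mul_le_mul_of_nonneg_right (by linarith) (abs_nonneg _)
  have e8 : Real.exp (-(N * |Real.log g|)) ≤ g ^ N := by
    have h5 : g ^ N = Real.exp ((N : ℝ) * Real.log g) := by
      rw [Real.exp_nat_mul, Real.exp_log hg]
    rw [h5]
    apply Real.exp_le_exp.2
    have h6 := neg_abs_le (Real.log g)
    nlinarith
  have hexp : (N + 1 : ℝ) + (2 * M + 2 * M + N + d * N * Real.log (1 + Real.log N ^ 2) + N
      + (-η * N * (Real.log N / (4 * d) - 1))) + (2 * (d * N) * |Real.log lam| + 1 * N) ≤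
      -(N : ℝ) + -(N * |Real.log g|) := by
    have h5 := mul_le_mul_of_nonneg_left h2 hNpos.le
    have h6 : (N : ℝ) * (η / (4 * d) * Real.log N) = η * N * (Real.log N / (4 * d)) := by
      field_simp
    rw [h6] at h5
    nlinarith
  calc 2 ^ (N + 1) * ((N : ℝ) ^ (2 * M) * 6 ^ M * 2 ^ N * (1 + Real.log N ^ 2) ^ M *
        ((N : ℝ) + 1) ^ (q ^ (2 * d)) * (q : ℝ) ^ (-η * N)) * (lam ^ (2 * M) * Real.exp (1 * N))
      ≤ Real.exp (N + 1) * ((((2 * M).factorial : ℝ) * Real.exp (2 * M)) * Real.exp (2 * M) *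
          Real.exp N * Real.exp (d * N * Real.log (1 + Real.log N ^ 2)) * Real.exp N *
          Real.exp (-η * N * (Real.log N / (4 * d) - 1))) *
          (Real.exp (2 * (d * N) * |Real.log lam|) * Real.exp (1 * N)) := by
        refine mul_le_mul (mul_le_mul e1 ?_ (by positivity) (by positivity))
          (mul_le_mul_of_nonneg_right e7 (by positivity)) (by positivity) (by positivity)
        refine mul_le_mul ?_ e6 (by positivity) (by positivity)
        refine mul_le_mul ?_ e5 (by positivity) (by positivity)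
        refine mul_le_mul ?_ e4 (by positivity) (by positivity)
        refine mul_le_mul ?_ e3 (by positivity) (by positivity)
        exact mul_le_mul hfac e2 (by positivity) (by positivity)
    _ = ((2 * M).factorial : ℝ) * Real.exp ((N + 1 : ℝ) + (2 * M + 2 * M + N +
          d * N * Real.log (1 + Real.log N ^ 2) + N
          + (-η * N * (Real.log N / (4 * d) - 1))) + (2 * (d * N) * |Real.log lam| + 1 * N)) := by
        simp only [Real.exp_add]
        ring
    _ ≤ ((2 * M).factorial : ℝ) * Real.exp (-(N : ℝ) + -(N * |Real.log g|)) := by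
        apply mul_le_mul_of_nonneg_left (Real.exp_le_exp.2 hexp) (by positivity)
    _ = Real.exp (-(N : ℝ)) * (((2 * M).factorial : ℝ) * Real.exp (-(N * |Real.log g|))) := by
        rw [Real.exp_add]; ring
    _ ≤ _ := by
        apply mul_le_mul_of_nonneg_left _ (by positivity)
        exact mul_le_mul_of_nonneg_left e8 (by positivity)

open Classical in
private lemma fqf_dbl {U P : Type} [Fintype P] (S : Finset U) (good : U → P → Prop) (K L : ℝ)
    (h1 : ∀ u ∈ S, K ≤ ((univ.filter (fun p => good u p)).card : ℝ))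
    (h2 : ∀ p, ((S.filter (fun u => good u p)).card : ℝ) ≤ L) :
    (S.card : ℝ) * K ≤ Fintype.card P * L := by
  calc (S.card : ℝ) * K = ∑ u ∈ S, K := by simp
    _ ≤ ∑ u ∈ S, ((univ.filter (fun p => good u p)).card : ℝ) := sum_le_sum h1
    _ = ∑ p : P, ((S.filter (fun u => good u p)).card : ℝ) := by
        have := Finset.sum_card_bipartiteAbove_eq_sum_card_bipartiteBelow (s := S) (t := univ) good
        exact_mod_cast this
    _ ≤ ∑ p : P, L := sum_le_sum (fun p _ => h2 p)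
    _ = _ := by simp

private lemma fqf_log (a b c : ℝ) (hc : 0 < c) : ∀ᶠ N : ℕ in atTop,
    a * Real.log N + b ≤ c * N := by
  have key : ∀ᶠ x : ℝ in atTop, a * Real.log x + b ≤ c * x := by
    have hc' : 0 < c / (2 * (|a| + 1)) := by positivity
    have h := Real.isLittleO_log_id_atTop.bound hc'
    filter_upwards [h, eventually_ge_atTop 1, eventually_ge_atTop (2 * b / c)] with x hx hx1 hxb
    have h0 : 0 ≤ Real.log x := Real.log_nonneg hx1
    have hn1 : ‖Real.log x‖ = Real.log x := by rw [Real.norm_eq_abs, abs_of_nonneg h0]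
    have hn2 : ‖id x‖ = x := by rw [id, Real.norm_eq_abs, abs_of_nonneg (by linarith)]
    rw [hn1, hn2] at hx
    have h1 : a * Real.log x ≤ (|a| + 1) * (c / (2 * (|a| + 1)) * x) := by
      calc a * Real.log x ≤ (|a| + 1) * Real.log x := by
            apply mul_le_mul_of_nonneg_right _ h0
            linarith [le_abs_self a]
        _ ≤ _ := mul_le_mul_of_nonneg_left hx (by positivity)
    have h2 : (|a| + 1) * (c / (2 * (|a| + 1)) * x) = c / 2 * x := by
      field_simp
    rw [h2] at h1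
    rw [div_le_iff₀ hc] at hxb
    linarith
  exact tendsto_natCast_atTop_atTop.eventually key

private lemma fqf_pow (d : ℕ) (hd : 2 ≤ d) (c : ℝ) (hc : 0 < c) : ∀ᶠ N : ℕ in atTop,
    6 ≤ (N : ℝ) ^ (1 / (4 * (d : ℝ))) ∧
    Real.log N ^ 2 / ((N : ℝ) ^ (1 / (4 * (d : ℝ))) / 2) < c := by
  have hd0 : (0 : ℝ) < d := by positivity
  have hr : 0 < 1 / (4 * (d : ℝ)) := by positivity
  have key : ∀ᶠ x : ℝ in atTop, 6 ≤ x ^ (1 / (4 * (d : ℝ))) ∧
      Real.log x ^ 2 / (x ^ (1 / (4 * (d : ℝ))) / 2) < c := by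
    have h := (isLittleO_log_rpow_rpow_atTop 2 hr).bound (c := c / 4) (by positivity)
    have h6 := (tendsto_rpow_atTop hr).eventually (eventually_ge_atTop 6)
    filter_upwards [h, h6, eventually_ge_atTop 1] with x hx hx6 hx1
    refine ⟨hx6, ?_⟩
    have hpos : 0 < x ^ (1 / (4 * (d : ℝ))) := by linarith
    rw [Real.norm_eq_abs, Real.norm_eq_abs, abs_of_nonneg hpos.le] at hx
    have h1 : Real.log x ^ 2 ≤ c / 4 * x ^ (1 / (4 * (d : ℝ))) := by
      have h2 : Real.log x ^ (2 : ℝ) = Real.log x ^ 2 := by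
        rw [← Real.rpow_natCast]; norm_num
      rw [h2] at hx
      exact (le_abs_self _).trans hx
    rw [div_lt_iff₀ (by positivity)]
    nlinarith
  exact tendsto_natCast_atTop_atTop.eventually key

open Classical in
theorem e6_count (d : ℕ) (hd : 2 ≤ d) (ε ε₃ η C₂ ε' c₃ : ℝ) (hε : 0 < ε) (hε₃ : 0 < ε₃)
    (h3' : ε₃ ≤ ε') (hη : 0 < η) (hC₂ : 0 < C₂) (hc₃ : 0 < c₃) :
    ∃ N₀ : ℕ, ∀ (V : Type) [Fintype V] [DecidableEq V],
    N₀ ≤ Fintype.card V → ∀ M s' : ℕ, s' ≤ 1 → M + KK d + s' = d * Fintype.card V →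
      (((TT V (d + 1) M).filter (fun u => Simp u ∧ E2 ε' (Fintype.card V) (edges u) ∧
        E3 c₃ (Fintype.card V) (edges u) ∧ E4 d C₂ ε (edges u) univ ∧
        E5 d ε ε₃ η (edges u) univ ∧ ¬ E6 d ε₃ (edges u) univ)).card : ℝ) ≤
      Real.exp (-(Fintype.card V : ℝ)) * ((TT V (d + 1) M).card : ℝ) := by
  have hd0 : (0 : ℝ) < d := by positivity
  obtain ⟨lam, hl1, hl2, hl⟩ := exists_lam d hd
  have hlam : 0 < lam := hl.1
  have hfk : 0 < fk (d + 1) lam := fk_pos (d + 1) hlam
  obtain ⟨δ₀, hδ₀, N₁, hge⟩ := wd_ge d hd lam hl 1 one_pos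
  obtain ⟨N₂, hgood⟩ := many_good d hd (((d : ℝ) + 2) * C₂) c₃ (by positivity) hc₃
  have hev := ((fqf_num d hd η hη lam (fk (d + 1) lam) hlam hfk).and
    ((fqf_pow d hd ε₃ hε₃).and ((fqf_log 0 (d + 1) ε₃ hε₃).and
    ((fqf_log (2 * C₂) 0 ε hε).and ((fqf_log C₂ d ε₃ hε₃).and ((fqf_log C₂ d 1 one_pos).and
    ((fqf_log 0 (2 * (KK d + 1)) δ₀ hδ₀).and
    ((eventually_ge_atTop N₁).and ((eventually_ge_atTop N₂).and
    ((Real.tendsto_log_atTop.comp tendsto_natCast_atTop_atTop).eventually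
      (eventually_ge_atTop (1 : ℝ))))))))))))
  obtain ⟨N₀, hN₀⟩ := eventually_atTop.1 hev
  refine ⟨N₀, fun V _ _ hNV M s' hs' hM => ?_⟩
  obtain ⟨hnum, ⟨hx6, hlogq⟩, hdN, hC2N, hSN3, hSN1, hδN, hN1, hN2, hlog1⟩ :=
    hN₀ (Fintype.card V) hNV
  set N : ℕ := Fintype.card V with hNdef
  simp only [Function.comp_apply] at hlog1
  set x : ℝ := (N : ℝ) ^ (1 / (4 * (d : ℝ))) with hxdef
  -- the prime
  obtain ⟨q, hqp, hq1, hq2⟩ : ∃ q : ℕ, q.Prime ∧ x / 2 ≤ q ∧ (q : ℝ) ≤ x := by
    have hn0 : ⌊x / 2⌋₊ ≠ 0 := by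
      have : 1 ≤ ⌊x / 2⌋₊ := Nat.le_floor (by push_cast; linarith)
      omega
    obtain ⟨p, hp, hp1, hp2⟩ := Nat.exists_prime_lt_and_le_two_mul _ hn0
    refine ⟨p, hp, ?_, ?_⟩
    · have h1 := Nat.lt_floor_add_one (x / 2)
      have h2 : ((⌊x / 2⌋₊ : ℕ) : ℝ) + 1 ≤ p := by exact_mod_cast hp1
      linarith
    · have h1 := Nat.floor_le (show 0 ≤ x / 2 by linarith)
      have h2 : (p : ℝ) ≤ 2 * (⌊x / 2⌋₊ : ℕ) := by exact_mod_cast hp2
      linarith
  have : Fact q.Prime := ⟨hqp⟩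
  have hq3 : (3 : ℝ) ≤ q := by linarith
  have hq3' : 3 ≤ q := by exact_mod_cast hq3
  have h2 : (2 : ZMod q) ≠ 0 := by
    intro h
    have h' : ((2 : ℕ) : ZMod q) = 0 := by exact_mod_cast h
    rw [ZMod.natCast_eq_zero_iff] at h'
    have := Nat.le_of_dvd (by norm_num) h'
    omega
  have hMN : M ≤ d * N := by omega
  have hN1r : (1 : ℝ) ≤ N := by
    by_contra hcon
    push Not at hcon
    have h0 : N = 0 := by
      have : N < 1 := by exact_mod_cast hcon
      omega
    rw [h0] at hlog1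
    norm_num at hlog1
  -- the bound
  set L : ℝ := (N : ℝ) ^ (2 * M) * 6 ^ M * 2 ^ N * (1 + Real.log N ^ 2) ^ M *
        ((N : ℝ) + 1) ^ (q ^ (2 * d)) * (q : ℝ) ^ (-η * N) with hLdef
  have hL0 : 0 ≤ L := by positivity
  set 𝒰 := (TT V (d + 1) M).filter (fun u => Simp u ∧ E2 ε' N (edges u) ∧
        E3 c₃ N (edges u) ∧ E4 d C₂ ε (edges u) univ ∧
        E5 d ε ε₃ η (edges u) univ ∧ ¬ E6 d ε₃ (edges u) univ) with h𝒰
  let load : (V → Fin d → ZMod q) → Prop := fun p =>
    ∀ b, ((univ.filter (fun v => p v = b)).card : ℝ) ≤ Real.log N ^ 2 * N / (q : ℝ) ^ d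
  obtain ⟨gd, hgd⟩ : ∃ gd : (Fin M → V × V) → (V → Fin d → ZMod q) → Prop,
      ∀ u p, gd u p ↔ (load p ∧ ∃ m : V → Fin d → ZMod q, BadM p m u η) :=
    ⟨fun u p => load p ∧ ∃ m : V → Fin d → ZMod q, BadM p m u η, fun _ _ => Iff.rfl⟩
  have hdbl := fqf_dbl (P := V → Fin d → ZMod q) 𝒰 gd
    ((q : ℝ) ^ (d * N) / 2 ^ (N + 1)) L ?_ ?_
  rotate_left
  · intro u hu
    rw [h𝒰, mem_filter] at hu
    obtain ⟨hT, hS, hE2, hE3, hE4, hE5, hE6⟩ := hu
    have hLp : Lpl (edges u) := lpl_edges hS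
    have hdeg : ∀ v : V, d + 1 ≤ nb (edges u) univ v := by
      intro v
      rw [nb_univ_eq hS]
      exact (mem_filter.1 hT).2 v
    obtain ⟨S, hScard, hS2, hSO, hSmax⟩ := exists_max_small hd hLp hdeg hε
      (by rw [← hNdef]; linarith) (by rw [← hNdef]; positivity) hE4
    rw [← hNdef] at hScard
    have hA : d ≤ (univ \ S).card := by
      have h5 : (S.card : ℝ) + d ≤ N := by linarith
      have h6 : S.card + d ≤ N := by exact_mod_cast h5
      rw [card_sdiff_of_subset (subset_univ S), card_univ, ← hNdef]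
      omega
    have hne := special_ne hd hLp (A := univ \ S) (S := S) disjoint_sdiff_self_left hS2 hSO hE2
      (by
        have h5 : ε₃ * N ≤ ε' * N := mul_le_mul_of_nonneg_right h3' (by positivity)
        linarith)
    obtain ⟨P, hP0, hPdeg, hPvars, hPm⟩ := special_poly h2 hd hLp hA hS2 hSO hne
    have hg := hgood V (by rw [← hNdef]; exact hN2) q hq1 hq2 (edges u) hLp hE3 P hP0 ?_ ?_
    rotate_left
    · have h5 : (P.totalDegree : ℝ) ≤ d * S.card := by exact_mod_cast hPdeg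
      rw [← hNdef]
      nlinarith
    · have h5 : P.vars.image Prod.fst ⊆
          S ∪ S.biUnion (fun v => univ.filter (fun w => s(v, w) ∈ edges u)) := by
        intro v hv
        rw [mem_image] at hv
        obtain ⟨y, hy, rfl⟩ := hv
        rw [mem_union, mem_biUnion]
        rcases hPvars y hy with h6 | ⟨w, hw, h6⟩
        · exact Or.inl h6
        · exact Or.inr ⟨w, hw, by simpa using h6⟩
      have h6 : (P.vars.image Prod.fst).card ≤ S.card + S.card * (d + 1) := by
        refine (card_le_card h5).trans ((card_union_le _ _).trans ?_)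
        apply Nat.add_le_add_left
        apply card_biUnion_le_card_mul
        intro v hv
        have h7 : (univ.filter (fun w => s(v, w) ∈ edges u)) ⊆
            (S.filter (fun w => s(v, w) ∈ edges u)) ∪
              ((univ \ S).filter (fun w => s(v, w) ∈ edges u)) := by
          intro w hw
          rw [mem_filter] at hw
          simp only [Finset.mem_union, Finset.mem_filter, Finset.mem_sdiff, Finset.mem_univ,
            true_and]
          by_cases h8 : w ∈ S
          · exact Or.inl ⟨h8, hw.2⟩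
          · exact Or.inr ⟨h8, hw.2⟩
        refine (card_le_card h7).trans ((card_union_le _ _).trans ?_)
        have h8 := hS2 v hv
        have h9 := hSO v hv
        unfold nb at h8 h9
        omega
      have h7 : ((P.vars.image Prod.fst).card : ℝ) ≤ S.card + S.card * (d + 1) := by
        exact_mod_cast h6
      rw [← hNdef]
      have h8 : Real.log N ≤ Real.log N ^ 2 := by nlinarith
      have h9 : ((P.vars.image Prod.fst).card : ℝ) ≤ (d + 2) * C₂ * Real.log N := by
        nlinarith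
      refine h9.trans ?_
      exact mul_le_mul_of_nonneg_left h8 (by positivity)
    rw [← hNdef] at hg
    rw [div_le_iff₀ (by positivity)]
    refine hg.trans ?_
    rw [mul_comm]
    apply mul_le_mul_of_nonneg_right _ (by positivity)
    refine Nat.cast_le.2 (card_le_card ?_)
    intro p hp
    rw [mem_filter] at hp ⊢
    obtain ⟨-, hp1, hp2, hp3⟩ := hp
    refine ⟨mem_univ _, (hgd u p).2 ⟨?_, ?_⟩⟩
    · intro b
      convert hp2 b
    · refine exists_badM hd h2 hS hT hMN p (C₁ := Real.log N ^ 2) ?_ hη hε₃ h3' ?_ ?_ hp1 hE2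
        hE4 hE5 hE6 S hSmax ?_
      · intro b
        convert hp2 b
      · refine lt_of_le_of_lt ?_ hlogq
        apply div_le_div_of_nonneg_left (by positivity) (by linarith) hq1
      · rw [← hNdef]; linarith
      · exact hPm p hp3
  · intro p
    by_cases hp : load p
    · have hb := bad_count (M := M) p (Real.log N ^ 2) η (by positivity) hη.le
        (by
          intro b
          rw [ZMod.card, ← hNdef]
          convert hp b)
      rw [ZMod.card, ← hNdef] at hb
      have hb' : ((univ.filter (fun u : Fin M → V × V =>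
          ∃ m : V → Fin d → ZMod q, BadM p m u η)).card : ℝ) ≤ L := by
        convert hb
      refine le_trans ?_ hb'
      refine Nat.cast_le.2 (card_le_card ?_)
      intro u hu
      rw [mem_filter] at hu ⊢
      exact ⟨mem_univ _, ((hgd u p).1 hu.2).2⟩
    · have h5 : 𝒰.filter (fun u => gd u p) = ∅ := by
        rw [filter_eq_empty_iff]
        intro u _ h6
        exact hp ((hgd u p).1 h6).1
      rw [h5]
      simpa using hL0
  -- conclusion
  have hcardP : (Fintype.card (V → Fin d → ZMod q) : ℝ) = (q : ℝ) ^ (d * N) := by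
    rw [Fintype.card_fun, Fintype.card_fun, Fintype.card_fin, ZMod.card, ← hNdef]
    push_cast
    rw [← pow_mul]
  have hqpos : (0 : ℝ) < (q : ℝ) ^ (d * N) := by positivity
  have hU : (𝒰.card : ℝ) ≤ 2 ^ (N + 1) * L := by
    rw [hcardP] at hdbl
    rw [← mul_div_assoc, div_le_iff₀ (by positivity)] at hdbl
    have h5 : (q : ℝ) ^ (d * N) * (𝒰.card : ℝ) ≤ (q : ℝ) ^ (d * N) * (2 ^ (N + 1) * L) := by
      calc (q : ℝ) ^ (d * N) * (𝒰.card : ℝ) = 𝒰.card * (q : ℝ) ^ (d * N) := by ring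
        _ ≤ _ := hdbl
        _ = _ := by ring
    exact le_of_mul_le_mul_left h5 hqpos
  have hTT : ((TT V (d + 1) M).card : ℝ) = (Wd (d + 1) N (2 * M) : ℝ) := by
    rw [card_TT]
  have hgeN := hge N hN1 (2 * M) (by
    have h5 : (M : ℝ) + KK d + s' = d * N := by exact_mod_cast hM
    have h6 : (s' : ℝ) ≤ 1 := by exact_mod_cast hs'
    rw [abs_le]
    push_cast
    constructor
    · linarith
    · have h7 : (0 : ℝ) ≤ KK d := by positivity
      have h8 : (0 : ℝ) ≤ s' := by positivity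
      have h9 : 0 ≤ δ₀ * N := by positivity
      linarith)
  have hfin := hnum M s' hs' hM q (by omega) hq1 hq2
  have hw : 0 < lam ^ (2 * M) * Real.exp (1 * N) := by positivity
  rw [hTT]
  refine le_of_mul_le_mul_right ?_ hw
  calc (𝒰.card : ℝ) * (lam ^ (2 * M) * Real.exp (1 * N))
      ≤ 2 ^ (N + 1) * L * (lam ^ (2 * M) * Real.exp (1 * N)) :=
        mul_le_mul_of_nonneg_right hU hw.le
    _ ≤ Real.exp (-(N : ℝ)) * (((2 * M).factorial : ℝ) * fk (d + 1) lam ^ N) := hfin
    _ ≤ Real.exp (-(N : ℝ)) *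
        ((Wd (d + 1) N (2 * M) : ℝ) * lam ^ (2 * M) * Real.exp (1 * N)) :=
        mul_le_mul_of_nonneg_left hgeN (by positivity)
    _ = _ := by ring

end Pool.Agent.Helper50.RG
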