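import Pool.Agent.Helper50.RG.RkB

/-!
# RG-50 : algebraically independent placements are generic

`generic_gp`, `generic_rk`: an algebraically independent family is no zero of a non-zero
polynomial with integer coefficients; use `exists_minor`, and for `GP` the determinant of the
`(j+1) × (j+1)` minors of the matrix with rows `(p x, 1)`, `x ∈ A` (non-zero as a polynomial since
`ℝ^d` has `d + 1` affinely independent points). `exists_generic_real`: algebraically independent
families exist (transcendence degree / cardinality of `ℝ`; something like this for the plane is in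
Pool/Agent/Helper36/Pin or Helper37/Pin).
-/

set_option autoImplicit false

namespace Pool.Agent.Helper50.RG

open Finset

variable {V : Type} [Fintype V] [DecidableEq V] {d : ℕ}

theorem generic_aeval_ne {p : V → Fin d → ℝ} (hp : Generic p) {P : MvPolynomial (V × Fin d) ℤ}
    (hP : P ≠ 0) : MvPolynomial.aeval (fun x : V × Fin d => p x.1 x.2) P ≠ 0 := by
  intro h0
  have h1 : MvPolynomial.aeval (fun x : V × Fin d => p x.1 x.2)
      (MvPolynomial.map (Int.castRingHom ℚ) P) = 0 := by
    rw [← h0, MvPolynomial.aeval_def, MvPolynomial.aeval_def, MvPolynomial.eval₂_map]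
    congr 1
  have h2 := (algebraicIndependent_iff.1 hp) _ h1
  apply hP
  exact MvPolynomial.map_injective _ Int.cast_injective (by rw [h2, map_zero])

theorem generic_gp {p : V → Fin d → ℝ} (hp : Generic p) : GP p := by
  intro A hA
  unfold AffI
  rcases A.eq_empty_or_nonempty with rfl | ⟨x0, hx0⟩
  · have : IsEmpty ↥(∅ : Finset V) := by
      constructor
      rintro ⟨x, hx⟩
      simp at hx
    exact affineIndependent_of_subsingleton _ _
  rw [affineIndependent_iff_linearIndependent_vsub ℝ _ (⟨x0, hx0⟩ : A)]
  let ι := {x : A // x ≠ ⟨x0, hx0⟩}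
  have hcard : Fintype.card ι ≤ Fintype.card (Fin d) := by
    have h1 : Fintype.card ι + 1 = A.card := by
      have h2 : Fintype.card ι = Fintype.card A - 1 := by
        simp [ι]
      have h3 : 0 < A.card := card_pos.2 ⟨x0, hx0⟩
      rw [h2, Fintype.card_coe]
      omega
    rw [Fintype.card_fin]
    omega
  obtain ⟨σ⟩ : Nonempty (ι ↪ Fin d) := Function.Embedding.nonempty_of_card_le hcard
  let M : Matrix ι ι (MvPolynomial (V × Fin d) ℤ) := Matrix.of fun i j =>
    MvPolynomial.X ((i.1.1 : V), σ j) - MvPolynomial.X (x0, σ j)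
  have hM : M.det ≠ 0 := by
    intro h0
    classical
    let a : V × Fin d → ℤ := fun x => if ∃ i : ι, (i.1.1 : V) = x.1 ∧ σ i = x.2 then 1 else 0
    have h1 : (MvPolynomial.eval a).mapMatrix M = 1 := by
      ext i j
      have h2 : a (i.1.1, σ j) = if i = j then 1 else 0 := by
        by_cases hij : i = j
        · subst hij
          simp only [a]
          rw [if_pos ⟨i, rfl, rfl⟩]
          simp
        · simp only [a]
          rw [if_neg, if_neg hij]
          rintro ⟨k, hk1, hk2⟩
          have h3 : k = j := σ.injective hk2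
          have h4 : k = i := by
            apply Subtype.ext
            apply Subtype.ext
            exact hk1
          exact hij (h4.symm.trans h3)
      have h3 : a (x0, σ j) = 0 := by
        simp only [a]
        rw [if_neg]
        rintro ⟨k, hk1, hk2⟩
        exact k.2 (Subtype.ext hk1)
      simp [M, h2, h3, Matrix.one_apply]
    have h2 : MvPolynomial.eval a M.det = 1 := by
      rw [RingHom.map_det, h1, Matrix.det_one]
    rw [h0, map_zero] at h2
    exact zero_ne_one h2
  have hdet := generic_aeval_ne hp hM
  have hdet2 : (Matrix.of fun i j : ι => p i.1.1 (σ j) - p x0 (σ j)).det ≠ 0 := by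
    rw [AlgHom.map_det] at hdet
    convert hdet using 2
    ext i j
    simp [M]
  have hli := Matrix.linearIndependent_rows_of_det_ne_zero hdet2
  refine LinearIndependent.of_comp (LinearMap.funLeft ℝ ℝ (σ : ι → Fin d)) ?_
  exact hli

theorem generic_rk {p : V → Fin d → ℝ} (hp : Generic p) (E : Finset (Sym2 V)) :
    rkAt p E = rk ℝ d E := by
  apply le_antisymm (rkAt_le_rk p E)
  obtain ⟨q, hq⟩ := exists_rkAt_eq ℝ d E
  obtain ⟨P, hP1, hP2⟩ := exists_minor q E
  rw [← hq]
  apply hP2
  apply generic_aeval_ne hp
  rintro rfl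
  simp at hP1

theorem infinite_trbasis : ∃ f : ℕ → ℝ, AlgebraicIndependent ℚ f := by
  obtain ⟨κ, v, hv⟩ := exists_isTranscendenceBasis' ℚ ℝ
  have h1 : Infinite κ := by
    by_contra hfin
    rw [not_infinite_iff_finite] at hfin
    have := hv.isAlgebraic
    have h2 := Algebra.IsAlgebraic.cardinalMk_le_max (Algebra.adjoin ℚ (Set.range v)) ℝ
    have h4 : Cardinal.mk (Algebra.adjoin ℚ (Set.range v)) ≤ Cardinal.aleph0 := by
      rw [← Cardinal.mk_congr hv.1.aevalEquiv.toEquiv]
      refine MvPolynomial.cardinalMk_le_max.trans ?_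
      exact max_le (max_le Cardinal.mk_le_aleph0 Cardinal.mk_le_aleph0) le_rfl
    have h3 : Cardinal.mk ℝ ≤ Cardinal.aleph0 := by
      refine h2.trans ?_
      exact max_le h4 le_rfl
    rw [Cardinal.mk_real] at h3
    exact absurd h3 (not_le.2 Cardinal.aleph0_lt_continuum)
  exact ⟨v ∘ (Infinite.natEmbedding κ), hv.1.comp _ (Infinite.natEmbedding κ).injective⟩

variable (V d) in
theorem exists_generic_real : ∃ p : V → Fin d → ℝ, Generic p := by
  obtain ⟨f, hf⟩ := infinite_trbasis
  let e : V × Fin d → ℕ := fun x => (Fintype.equivFin (V × Fin d) x : ℕ)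
  have he : Function.Injective e :=
    Fin.val_injective.comp (Fintype.equivFin (V × Fin d)).injective
  exact ⟨fun v i => f (e (v, i)), hf.comp e he⟩

end Pool.Agent.Helper50.RG
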