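import Mathlib

/-!
# RG-10 : two consequences of the inverse function theorem

`fibre_const`: choose a continuous linear map `L : X → K` onto (for instance) the common kernel `K`
of the `f' x₀ j` which is the identity on `K` (a projection); then `Φ x = (f x, L x)` has an
invertible strict derivative at `x₀`, so it is a local homeomorphism with a differentiable inverse
(`HasStrictFDerivAt.toOpenPartialHomeomorph` or `HasStrictFDerivAt.implicitFunction`,
`ImplicitFunctionData`). On a small ball `B₁ × B₂` the function `(a, b) ↦ h (Φ⁻¹ (a, b))` has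
derivative zero in the direction `b`: the derivative of `h` at `x` is a combination of the
derivatives of the `f j` at `x`, and these vanish in the directions `b`. So it only depends on `a`.

`fibre_curve`: `f j`, `h` have linearly independent derivatives at `x₀`; so `(f, h)` has a
surjective strict derivative, and there is a local right inverse, continuous, with value `x₀` at
`(f x₀, h x₀)`; take the curve over `t ↦ (f x₀, h x₀ + c t)`.
-/

set_option autoImplicit false

namespace Pool.Agent.Helper50.RG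

open Finset

variable {X : Type} [NormedAddCommGroup X] [NormedSpace ℝ X] [FiniteDimensional ℝ X]
  {J : Type} [Fintype J]

private theorem surj_pi {ι : Type} [Fintype ι] (φ : ι → (X →L[ℝ] ℝ)) (h : LinearIndependent ℝ φ) :
    Function.Surjective (ContinuousLinearMap.pi φ) := by
  classical
  set L : X →ₗ[ℝ] (ι → ℝ) := (ContinuousLinearMap.pi φ : X →L[ℝ] (ι → ℝ)).toLinearMap with hL
  have hrange : LinearMap.range L = ⊤ := by
    by_contra hne
    obtain ⟨g, hg0, hg⟩ := Submodule.exists_le_ker_of_lt_top _ (lt_top_iff_ne_top.2 hne)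
    rw [Fintype.linearIndependent_iff] at h
    have h1 : ∀ j, g (Pi.single j 1) = 0 := by
      apply h
      ext x
      have h2 : g (L x) = 0 := hg ⟨x, rfl⟩
      have h3 : L x = ∑ j, (φ j x) • (Pi.single j (1 : ℝ) : ι → ℝ) := by
        ext i
        simp [hL, Finset.sum_apply, Pi.single_apply]
      rw [h3, map_sum] at h2
      simp only [map_smul, smul_eq_mul] at h2
      simp only [ContinuousLinearMap.coe_sum', Finset.sum_apply, ContinuousLinearMap.coe_smul',
        Pi.smul_apply, smul_eq_mul, ContinuousLinearMap.zero_apply]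
      rw [← h2]
      exact Finset.sum_congr rfl fun j _ => mul_comm _ _
    apply hg0
    apply LinearMap.pi_ext
    intro i x
    rw [LinearMap.zero_apply]
    have h4 : (Pi.single i x : ι → ℝ) = x • Pi.single i 1 := by
      rw [← Pi.single_smul, smul_eq_mul, mul_one]
    rw [h4, map_smul, h1, smul_zero]
  intro y
  have hy : y ∈ LinearMap.range L := by rw [hrange]; trivial
  obtain ⟨x, hx⟩ := hy
  exact ⟨x, hx⟩

private theorem exists_param {Y : Type} [NormedAddCommGroup Y] [NormedSpace ℝ Y]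
    [FiniteDimensional ℝ Y] (F : X → Y) (hF : ContDiff ℝ 1 F) (x₀ : X)
    (hs : Function.Surjective (fderiv ℝ F x₀)) :
    ∃ (K : Submodule ℝ X) (L : X →L[ℝ] K) (G : Y × K → X) (r : ℝ), 0 < r ∧
      G (F x₀, L x₀) = x₀ ∧
      (∀ z ∈ Metric.ball (F x₀, L x₀) r, F (G z) = z.1 ∧ L (G z) = z.2 ∧
        DifferentiableAt ℝ G z) ∧
      (∀ᶠ x in nhds x₀, G (F x, L x) = x) := by
  haveI : CompleteSpace X := FiniteDimensional.complete ℝ X
  haveI : CompleteSpace Y := FiniteDimensional.complete ℝ Y
  set A := fderiv ℝ F x₀ with hA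
  have hcc := A.ker_closedComplemented_of_finiteDimensional_range
  obtain ⟨L, hL⟩ := hcc
  let K : Submodule ℝ X := LinearMap.ker (A : X →ₗ[ℝ] Y)
  haveI : CompleteSpace K := FiniteDimensional.complete ℝ K
  let B : X →L[ℝ] Y × K := A.prod L
  have hBinj : LinearMap.ker (B : X →ₗ[ℝ] Y × K) = ⊥ := by
    rw [LinearMap.ker_eq_bot']
    intro x hx
    have h1 : A x = 0 := congrArg Prod.fst hx
    have h2 : L x = 0 := congrArg Prod.snd hx
    have h3 := hL ⟨x, h1⟩
    have h4 : L x = ⟨x, h1⟩ := h3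
    rw [h2] at h4
    exact (congrArg Subtype.val h4).symm
  have hBsurj : LinearMap.range (B : X →ₗ[ℝ] Y × K) = ⊤ := by
    rw [LinearMap.range_eq_top]
    rintro ⟨y, k⟩
    obtain ⟨x, hx⟩ := hs y
    have hx' : A x = y := hx
    refine ⟨x - (L x : X) + (k : X), ?_⟩
    have h1 : A ((L x : K) : X) = 0 := (L x).2
    have h2 : A (k : X) = 0 := k.2
    have h3 : L ((L x : K) : X) = L x := hL (L x)
    have h4 : L (k : X) = k := hL k
    apply Prod.ext
    · show A (x - (L x : X) + (k : X)) = y
      rw [map_add, map_sub, h1, h2, hx', sub_zero, add_zero]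
    · show L (x - (L x : X) + (k : X)) = k
      rw [map_add, map_sub, h3, h4, sub_self, zero_add]
  let e : X ≃L[ℝ] Y × K := ContinuousLinearEquiv.ofBijective B hBinj hBsurj
  let Φ : X → Y × K := fun x => (F x, L x)
  have hΦ : ContDiff ℝ 1 Φ := hF.prodMk L.contDiff
  have hdF : HasFDerivAt F A x₀ := (hF.differentiable one_ne_zero x₀).hasFDerivAt
  have hd : HasFDerivAt Φ (e : X →L[ℝ] Y × K) x₀ := by
    have h1 : HasFDerivAt Φ (A.prod L) x₀ := hdF.prodMk L.hasFDerivAt
    exact h1
  have hΦa : ContDiffAt ℝ 1 Φ x₀ := hΦ.contDiffAt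
  let G := hΦa.localInverse hd one_ne_zero
  have hG : ContDiffAt ℝ 1 G (Φ x₀) := hΦa.to_localInverse hd one_ne_zero
  have hstr := hΦa.hasStrictFDerivAt' hd one_ne_zero
  have hl : ∀ᶠ x in nhds x₀, G (Φ x) = x := hstr.eventually_left_inverse
  have hr : ∀ᶠ y in nhds (Φ x₀), Φ (G y) = y := hstr.eventually_right_inverse
  have hdiff : ∀ᶠ z in nhds (Φ x₀), DifferentiableAt ℝ G z := by
    have h1 := hG.eventually (by simp)
    filter_upwards [h1] with z hz
    exact hz.differentiableAt one_ne_zero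
  obtain ⟨r, hr0, hball⟩ := Metric.eventually_nhds_iff_ball.1 (hr.and hdiff)
  refine ⟨K, L, G, r, hr0, hΦa.localInverse_apply_image hd one_ne_zero, ?_, hl⟩
  intro z hz
  obtain ⟨h1, h2⟩ := hball z hz
  exact ⟨congrArg Prod.fst h1, congrArg Prod.snd h1, h2⟩

theorem fibre_const (f : J → X → ℝ) (h : X → ℝ) (hf : ∀ j, ContDiff ℝ 1 (f j))
    (hh : ContDiff ℝ 1 h) (x₀ : X) (hli : LinearIndependent ℝ (fun j => fderiv ℝ (f j) x₀))
    (hsp : ∀ᶠ x in nhds x₀, fderiv ℝ h x ∈ Submodule.span ℝ (Set.range fun j => fderiv ℝ (f j) x)) :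
    ∃ U ∈ nhds x₀, ∀ x ∈ U, ∀ y ∈ U, (∀ j, f j x = f j y) → h x = h y := by
  classical
  let F : X → (J → ℝ) := fun x j => f j x
  have hF : ContDiff ℝ 1 F := contDiff_pi.2 hf
  have hdF : fderiv ℝ F x₀ = ContinuousLinearMap.pi fun j => fderiv ℝ (f j) x₀ :=
    fderiv_pi fun j => (hf j).differentiable one_ne_zero x₀
  obtain ⟨K, L, G, r, hr, hG0, hG, hinv⟩ := exists_param F hF x₀ (by rw [hdF]; exact surj_pi _ hli)
  -- the continuity of G at the base point and the span condition
  have hz0 : (F x₀, L x₀) ∈ Metric.ball (F x₀, L x₀) r := Metric.mem_ball_self hr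
  have hGc : ContinuousAt G (F x₀, L x₀) := (hG _ hz0).2.2.continuousAt
  have hsp' : ∀ᶠ z in nhds (F x₀, L x₀),
      fderiv ℝ h (G z) ∈ Submodule.span ℝ (Set.range fun j => fderiv ℝ (f j) (G z)) := by
    have hsp2 : ∀ᶠ x in nhds (G (F x₀, L x₀)),
        fderiv ℝ h x ∈ Submodule.span ℝ (Set.range fun j => fderiv ℝ (f j) x) := by
      rw [hG0]
      exact hsp
    exact hGc.eventually hsp2
  obtain ⟨r', hr', hball⟩ := Metric.eventually_nhds_iff_ball.1 hsp'
  set ρ := min r r' with hρ
  have hρ0 : 0 < ρ := lt_min hr hr'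
  have hkey : ∀ a ∈ Metric.ball (F x₀) ρ, ∀ b ∈ Metric.ball (L x₀) ρ,
      HasFDerivAt (fun b => h (G (a, b))) (0 : K →L[ℝ] ℝ) b := by
    intro a ha b hb
    have hmem : (a, b) ∈ Metric.ball (F x₀, L x₀) ρ := by
      rw [← ball_prod_same]
      exact ⟨ha, hb⟩
    have hmr : (a, b) ∈ Metric.ball (F x₀, L x₀) r :=
      Metric.ball_subset_ball (min_le_left _ _) hmem
    have hmr' : (a, b) ∈ Metric.ball (F x₀, L x₀) r' :=
      Metric.ball_subset_ball (min_le_right _ _) hmem
    obtain ⟨hG1, hG2, hG3⟩ := hG _ hmr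
    have hι : HasFDerivAt (fun b : K => ((a, b) : (J → ℝ) × K))
        (ContinuousLinearMap.inr ℝ (J → ℝ) K) b := by
      have h1 := (hasFDerivAt_const (𝕜 := ℝ) a b).prodMk (hasFDerivAt_id (𝕜 := ℝ) b)
      exact h1
    have hGb : HasFDerivAt (fun b : K => G (a, b))
        ((fderiv ℝ G (a, b)).comp (ContinuousLinearMap.inr ℝ (J → ℝ) K)) b :=
      HasFDerivAt.comp (g := G) b hG3.hasFDerivAt hι
    set M := (fderiv ℝ G (a, b)).comp (ContinuousLinearMap.inr ℝ (J → ℝ) K) with hM
    have hhd : HasFDerivAt (fun b : K => h (G (a, b))) ((fderiv ℝ h (G (a, b))).comp M) b :=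
      HasFDerivAt.comp (g := h) b (hh.differentiable one_ne_zero (G (a, b))).hasFDerivAt hGb
    have hfj : ∀ j, (fderiv ℝ (f j) (G (a, b))).comp M = 0 := by
      intro j
      have h1 : HasFDerivAt (fun b : K => f j (G (a, b))) ((fderiv ℝ (f j) (G (a, b))).comp M) b :=
        HasFDerivAt.comp (g := f j) b ((hf j).differentiable one_ne_zero (G (a, b))).hasFDerivAt hGb
      have h2 : (fun b : K => f j (G (a, b))) =ᶠ[nhds b] fun _ => a j := by
        have hcont : ContinuousAt (fun b : K => ((a, b) : (J → ℝ) × K)) b := hι.continuousAt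
        have h3 : ∀ᶠ b' in nhds b, ((a, b') : (J → ℝ) × K) ∈ Metric.ball (F x₀, L x₀) r :=
          hcont.eventually_mem (Metric.isOpen_ball.mem_nhds hmr)
        filter_upwards [h3] with b' hb'
        have h4 := (hG _ hb').1
        exact congrFun h4 j
      have h5 : HasFDerivAt (fun b : K => f j (G (a, b))) (0 : K →L[ℝ] ℝ) b :=
        (hasFDerivAt_const (a j) b).congr_of_eventuallyEq h2
      exact h1.unique h5
    have hzero : (fderiv ℝ h (G (a, b))).comp M = 0 := by
      have h1 := hball _ hmr'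
      have h2 : ∀ φ ∈ Submodule.span ℝ (Set.range fun j => fderiv ℝ (f j) (G (a, b))),
          (φ : X →L[ℝ] ℝ).comp M = 0 := by
        intro φ hφ
        induction hφ using Submodule.span_induction with
        | mem φ hφ => obtain ⟨j, rfl⟩ := hφ; exact hfj j
        | zero => exact ContinuousLinearMap.zero_comp _
        | add φ ψ _ _ h3 h4 => rw [ContinuousLinearMap.add_comp, h3, h4, add_zero]
        | smul c φ _ h3 => rw [ContinuousLinearMap.smul_comp, h3, smul_zero]
      exact h2 _ h1
    rw [hzero] at hhd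
    exact hhd
  have hconst : ∀ a ∈ Metric.ball (F x₀) ρ, ∀ b ∈ Metric.ball (L x₀) ρ,
      ∀ b' ∈ Metric.ball (L x₀) ρ, h (G (a, b)) = h (G (a, b')) := by
    intro a ha b hb b' hb'
    have h1 := (convex_ball (L x₀) ρ).norm_image_sub_le_of_norm_hasFDerivWithin_le
      (f := fun b => h (G (a, b))) (f' := fun _ => 0) (C := 0)
      (fun x hx => (hkey a ha x hx).hasFDerivWithinAt) (fun x _ => by simp) hb hb'
    rw [zero_mul] at h1
    have h2 := norm_le_zero_iff.1 h1
    exact (sub_eq_zero.1 h2).symm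
  have hcF : ContinuousAt F x₀ := hF.continuous.continuousAt
  have hcL : ContinuousAt L x₀ := L.continuous.continuousAt
  have hU : ∀ᶠ x in nhds x₀, F x ∈ Metric.ball (F x₀) ρ ∧ L x ∈ Metric.ball (L x₀) ρ ∧
      G (F x, L x) = x :=
    (hcF.eventually_mem (Metric.ball_mem_nhds _ hρ0)).and
      ((hcL.eventually_mem (Metric.ball_mem_nhds _ hρ0)).and hinv)
  refine ⟨_, hU, ?_⟩
  rintro x ⟨hx1, hx2, hx3⟩ y ⟨hy1, hy2, hy3⟩ hxy
  have hFxy : F x = F y := funext hxy
  calc h x = h (G (F x, L x)) := by rw [hx3]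
    _ = h (G (F x, L y)) := hconst _ hx1 _ hx2 _ hy2
    _ = h (G (F y, L y)) := by rw [hFxy]
    _ = h y := by rw [hy3]

theorem fibre_curve (f : J → X → ℝ) (h : X → ℝ) (hf : ∀ j, ContDiff ℝ 1 (f j))
    (hh : ContDiff ℝ 1 h) (x₀ : X) (hli : LinearIndependent ℝ (fun j => fderiv ℝ (f j) x₀))
    (hsp : fderiv ℝ h x₀ ∉ Submodule.span ℝ (Set.range fun j => fderiv ℝ (f j) x₀)) :
    ∃ γ : ℝ → X, Continuous γ ∧ γ 0 = x₀ ∧ (∀ t, ∀ j, f j (γ t) = f j x₀) ∧
      ∀ δ > 0, ∃ t, 0 < t ∧ t < δ ∧ h (γ t) ≠ h x₀ := by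
  classical
  let g : Option J → X → ℝ := fun o => Option.casesOn' o h f
  have hg : ∀ o, ContDiff ℝ 1 (g o) := by
    intro o
    cases o with
    | none => exact hh
    | some j => exact hf j
  let F : X → (Option J → ℝ) := fun x o => g o x
  have hF : ContDiff ℝ 1 F := contDiff_pi.2 hg
  have hdF : fderiv ℝ F x₀ = ContinuousLinearMap.pi fun o => fderiv ℝ (g o) x₀ :=
    fderiv_pi fun o => (hg o).differentiable one_ne_zero x₀
  have hlig : LinearIndependent ℝ (fun o => fderiv ℝ (g o) x₀) := by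
    have h1 := LinearIndependent.option hli hsp
    have h2 : (fun o => fderiv ℝ (g o) x₀) = (fun o => Option.casesOn' o (fderiv ℝ h x₀)
        (fun j => fderiv ℝ (f j) x₀) : Option J → (X →L[ℝ] ℝ)) := by
      funext o
      cases o with
      | none => rfl
      | some j => rfl
    rw [h2]
    exact h1
  obtain ⟨K, L, G, r, hr, hG0, hG, hinv⟩ := exists_param F hF x₀ (by rw [hdF]; exact surj_pi _ hlig)
  let c : ℝ → (Option J → ℝ) × K := fun t => (F x₀ + Pi.single none (r / 2 * Real.sin t), L x₀)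
  have hc : Continuous c := by
    refine Continuous.prodMk (continuous_const.add ?_) continuous_const
    exact (continuous_single (i := (none : Option J))).comp
      (continuous_const.mul Real.continuous_sin)
  have hmem : ∀ t, c t ∈ Metric.ball (F x₀, L x₀) r := by
    intro t
    rw [← ball_prod_same]
    refine ⟨?_, Metric.mem_ball_self hr⟩
    rw [Metric.mem_ball, dist_eq_norm]
    simp only [c, add_sub_cancel_left]
    rw [Pi.norm_single, Real.norm_eq_abs, abs_mul, abs_of_pos (half_pos hr)]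
    have h1 := Real.abs_sin_le_one t
    have h2 : r / 2 * |Real.sin t| ≤ r / 2 * 1 := mul_le_mul_of_nonneg_left h1 (half_pos hr).le
    linarith
  refine ⟨fun t => G (c t), ?_, ?_, ?_, ?_⟩
  · rw [continuous_iff_continuousAt]
    intro t
    exact ContinuousAt.comp (g := G) (hG _ (hmem t)).2.2.continuousAt hc.continuousAt
  · show G (c 0) = x₀
    have h1 : c 0 = (F x₀, L x₀) := by
      simp only [c, Real.sin_zero, mul_zero, Pi.single_zero, add_zero]
    rw [h1, hG0]
  · intro t j
    have h1 := congrFun (hG _ (hmem t)).1 (some j)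
    have h2 : F (G (c t)) (some j) = f j (G (c t)) := rfl
    have h3 : (c t).1 (some j) = f j x₀ := by
      simp only [c, Pi.add_apply]
      rw [Pi.single_eq_of_ne (Option.some_ne_none j), add_zero]
      rfl
    rw [← h2, h1, h3]
  · intro δ hδ
    refine ⟨min (δ / 2) 1, lt_min (half_pos hδ) one_pos, (min_le_left _ _).trans_lt (by linarith),
      ?_⟩
    set t := min (δ / 2) 1 with ht
    have ht0 : 0 < t := lt_min (half_pos hδ) one_pos
    have ht1 : t ≤ 1 := min_le_right _ _
    have h1 := congrFun (hG _ (hmem t)).1 none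
    have h2 : F (G (c t)) none = h (G (c t)) := rfl
    have h3 : (c t).1 none = h x₀ + r / 2 * Real.sin t := by
      show F x₀ none + (Pi.single none (r / 2 * Real.sin t) : Option J → ℝ) none = _
      rw [Pi.single_eq_same]
      rfl
    rw [← h2, h1, h3]
    have h4 : 0 < Real.sin t := Real.sin_pos_of_pos_of_le_one ht0 ht1
    have h5 : 0 < r / 2 * Real.sin t := mul_pos (half_pos hr) h4
    linarith

end Pool.Agent.Helper50.RG
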