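import Mathlib

/-!
# RG-11 : congruent configurations differ by an isometry

Let `dist (p u) (p v) = dist (q u) (q v)` for all `u, v`. If `V` is empty there is nothing to show.
Otherwise fix `o`; the vectors `p v - p o` and `q v - q o` have the same inner products
(polarization), so there is a linear isometry from the span of the first family to the span of the
second family (well defined since the Gram matrices agree: `‖∑ c_v (p v - p o)‖ = ‖∑ c_v (q v - q o)‖`),
and it extends to the whole space (`LinearIsometry.extend`); a linear isometry of a finite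
dimensional space to itself is a `LinearIsometryEquiv`. Compose with translations.
-/

set_option autoImplicit false

namespace Pool.Agent.Helper50.RG

private theorem geoB_norm {d : ℕ} {V : Type} [Fintype V] {x y : V → EuclideanSpace ℝ (Fin d)}
    (h : ∀ u v, inner ℝ (y u) (y v) = inner ℝ (x u) (x v)) (c : V → ℝ) :
    ‖∑ v, c v • y v‖ = ‖∑ v, c v • x v‖ := by
  have key : ∀ z : V → EuclideanSpace ℝ (Fin d), ‖∑ v, c v • z v‖ ^ 2
      = ∑ u, ∑ v, c u * (c v * inner ℝ (z u) (z v)) := by
    intro z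
    rw [← real_inner_self_eq_norm_sq, sum_inner]
    refine Finset.sum_congr rfl fun u _ => ?_
    rw [inner_sum]
    refine Finset.sum_congr rfl fun v _ => ?_
    rw [real_inner_smul_left, real_inner_smul_right]
  have h1 : ‖∑ v, c v • y v‖ ^ 2 = ‖∑ v, c v • x v‖ ^ 2 := by
    rw [key, key]
    refine Finset.sum_congr rfl fun u _ => Finset.sum_congr rfl fun v _ => ?_
    rw [h]
  exact (pow_left_inj₀ (norm_nonneg _) (norm_nonneg _) two_ne_zero).1 h1

private theorem geoB_lin {d : ℕ} {V : Type} [Fintype V] {x y : V → EuclideanSpace ℝ (Fin d)}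
    (h : ∀ u v, inner ℝ (y u) (y v) = inner ℝ (x u) (x v)) :
    ∃ L : EuclideanSpace ℝ (Fin d) ≃ₗᵢ[ℝ] EuclideanSpace ℝ (Fin d), ∀ v, L (x v) = y v := by
  classical
  let Fx : (V → ℝ) →ₗ[ℝ] EuclideanSpace ℝ (Fin d) := Fintype.linearCombination ℝ x
  let Fy : (V → ℝ) →ₗ[ℝ] EuclideanSpace ℝ (Fin d) := Fintype.linearCombination ℝ y
  have hF : ∀ c, ‖Fy c‖ = ‖Fx c‖ := fun c => geoB_norm h c
  have hsurj : LinearMap.range Fx.rangeRestrict = ⊤ := LinearMap.range_rangeRestrict Fx
  obtain ⟨s, hs⟩ := Fx.rangeRestrict.exists_rightInverse_of_surjective hsurj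
  have hs' : ∀ z : LinearMap.range Fx, Fx (s z) = z := fun z =>
    congrArg Subtype.val (LinearMap.congr_fun hs z)
  let L : LinearMap.range Fx →ₗᵢ[ℝ] EuclideanSpace ℝ (Fin d) :=
    { toLinearMap := Fy ∘ₗ s
      norm_map' := fun z => by
        rw [LinearMap.comp_apply, hF, hs']
        rfl }
  refine ⟨L.extend.toLinearIsometryEquiv rfl, fun v => ?_⟩
  have hxv : Fx (Pi.single v 1) = x v := by
    simp [Fx, Fintype.linearCombination_apply_single]
  have hyv : Fy (Pi.single v 1) = y v := by
    simp [Fy, Fintype.linearCombination_apply_single]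
  have hmem : x v ∈ LinearMap.range Fx := ⟨_, hxv⟩
  have h1 : L.extend (x v) = L ⟨x v, hmem⟩ := L.extend_apply ⟨x v, hmem⟩
  have h2 : Fy (s ⟨x v, hmem⟩ - Pi.single v 1) = 0 := by
    rw [← norm_eq_zero, hF, map_sub, hs', hxv, sub_self, norm_zero]
  rw [map_sub, sub_eq_zero, hyv] at h2
  exact h1.trans h2

theorem exists_isometry (d : ℕ) (V : Type) [Fintype V] (p q : V → EuclideanSpace ℝ (Fin d))
    (h : ∀ u v, dist (q u) (q v) = dist (p u) (p v)) :
    ∃ g : EuclideanSpace ℝ (Fin d) ≃ᵢ EuclideanSpace ℝ (Fin d), ∀ v, q v = g (p v) := by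
  rcases isEmpty_or_nonempty V with hV | ⟨⟨o⟩⟩
  · exact ⟨IsometryEquiv.refl _, fun v => (hV.false v).elim⟩
  have hin : ∀ u v, inner ℝ (q u - q o) (q v - q o) = inner ℝ (p u - p o) (p v - p o) := by
    intro u v
    rw [real_inner_eq_norm_mul_self_add_norm_mul_self_sub_norm_sub_mul_self_div_two,
      real_inner_eq_norm_mul_self_add_norm_mul_self_sub_norm_sub_mul_self_div_two,
      sub_sub_sub_cancel_right, sub_sub_sub_cancel_right, ← dist_eq_norm, ← dist_eq_norm,
      ← dist_eq_norm, ← dist_eq_norm, ← dist_eq_norm, ← dist_eq_norm, h, h, h]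
  obtain ⟨L, hL⟩ := geoB_lin (x := fun v => p v - p o) (y := fun v => q v - q o) hin
  refine ⟨(IsometryEquiv.subRight (p o)).trans
    (L.toIsometryEquiv.trans (IsometryEquiv.addRight (q o))), fun v => ?_⟩
  have h1 : q v = L (p v - p o) + q o := by
    have h2 : L (p v - p o) = q v - q o := hL v
    rw [h2, sub_add_cancel]
  exact h1

end Pool.Agent.Helper50.RG
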