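import Pool.Agent.Helper50.RG.Defs

/-!
# Rigidity of graphs by continuous motions
-/

set_option autoImplicit false

namespace Pool.Agent.Helper50.RG

/-- Euclidean space -/
abbrev Eu (d : ℕ) := EuclideanSpace ℝ (Fin d)

/-- `H` is `d`-rigid: for every placement `p` in `ℝ^d` with algebraically independent coordinates,
every continuous motion of the points which starts at `p` and keeps the lengths of all edges is
induced by isometries of `ℝ^d`. -/
def IsRigid (d : ℕ) {V : Type} (H : SimpleGraph V) : Prop :=
  ∀ p : V → Eu d, AlgebraicIndependent ℚ (fun x : V × Fin d => p x.1 x.2) →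
    ∀ P : unitInterval → V → Eu d, Continuous P → P 0 = p →
      (∀ t u v, H.Adj u v → dist (P t u) (P t v) = dist (p u) (p v)) →
        ∀ t, ∃ g : Eu d ≃ᵢ Eu d, ∀ v, P t v = g (p v)

end Pool.Agent.Helper50.RG
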