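import Pool.Agent.Helper50.RG.RkB

/-!
# RG-4 : the rank is a matroid rank function

All statements follow from `exists_generic` (take `P = 1`: one placement `p` which realises all
ranks) and linear algebra of the spans of the rows: `row p '' (E ∪ E')` etc.
`rk_split`: if the edges of `S` (disjoint from `E'`) add `S.card` to the rank of `E'` then they add
`S.card` to the rank of every `E ⊆ E'` (submodularity).
`rk_circuit`: the rank of `E` is smaller than `card E`: there is a linear dependency; at each vertex
`v` of its support the vectors `p v - p w` are dependent, so (`GP`) there are at least `d + 1`.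
-/

set_option autoImplicit false

namespace Pool.Agent.Helper50.RG

open Finset

variable {V : Type} [Fintype V] [DecidableEq V] {F : Type} [Field F] [Infinite F] {d : ℕ}
  {E E' : Finset (Sym2 V)}

private theorem gen (F : Type) [Field F] [Infinite F] (V : Type) [Fintype V] [DecidableEq V]
    (d : ℕ) : ∃ p : V → Fin d → F, GP p ∧ ∀ E : Finset (Sym2 V), rkAt p E = rk F d E := by
  obtain ⟨p, -, h1, h2⟩ := exists_generic (V := V) F d 1 one_ne_zero
  exact ⟨p, h1, h2⟩

private noncomputable def sp (p : V → Fin d → F) (E : Finset (Sym2 V)) :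
    Submodule F (V → Fin d → F) := Submodule.span F (row p '' (E : Set (Sym2 V)))

omit [Infinite F] in
private theorem sp_mono (p : V → Fin d → F) (h : E ⊆ E') : sp p E ≤ sp p E' :=
  Submodule.span_mono (Set.image_mono (by exact_mod_cast h))

omit [Infinite F] in
private theorem sp_union (p : V → Fin d → F) (E E' : Finset (Sym2 V)) :
    sp p (E ∪ E') = sp p E ⊔ sp p E' := by
  unfold sp
  rw [Finset.coe_union, Set.image_union, Submodule.span_union]

omit [Infinite F] in
private theorem row_mem (p : V → Fin d → F) {e : Sym2 V} (he : e ∈ E) : row p e ∈ sp p E :=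
  Submodule.subset_span ⟨e, by exact_mod_cast he, rfl⟩

omit [Infinite F] in
private theorem sp_insert_le (p : V → Fin d → F) (e : Sym2 V) (E : Finset (Sym2 V))
    (h : row p e ∈ sp p E) : sp p (insert e E) = sp p E := by
  apply le_antisymm
  · unfold sp
    rw [Submodule.span_le]
    rintro _ ⟨f, hf, rfl⟩
    have hf' : f ∈ insert e E := by exact_mod_cast hf
    rcases Finset.mem_insert.mp hf' with rfl | hf'
    · exact h
    · exact row_mem p hf'
  · exact sp_mono p (Finset.subset_insert _ _)

private theorem cl_iff {p : V → Fin d → F} (hp : ∀ E : Finset (Sym2 V), rkAt p E = rk F d E)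
    (e : Sym2 V) (E : Finset (Sym2 V)) : Cl F d E e ↔ row p e ∈ sp p E := by
  unfold Cl
  rw [← hp, ← hp]
  constructor
  · intro h
    have h1 : sp p E = sp p (insert e E) :=
      Submodule.eq_of_le_of_finrank_eq (sp_mono p (Finset.subset_insert _ _)) h.symm
    rw [h1]
    exact row_mem p (Finset.mem_insert_self _ _)
  · intro h
    have h1 := sp_insert_le p e E h
    change Module.finrank F (sp p (insert e E)) = Module.finrank F (sp p E)
    rw [h1]

theorem rk_empty : rk F d (∅ : Finset (Sym2 V)) = 0 := by
  obtain ⟨p, -, hp⟩ := gen F V d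
  rw [← hp]
  simp [rkAt]

theorem rk_mono (h : E ⊆ E') : rk F d E ≤ rk F d E' := by
  obtain ⟨p, -, hp⟩ := gen F V d
  rw [← hp, ← hp]
  exact Submodule.finrank_mono (sp_mono p h)

theorem rk_le_card (E : Finset (Sym2 V)) : rk F d E ≤ E.card := by
  obtain ⟨p, -, hp⟩ := gen F V d
  rw [← hp]
  classical
  have h1 := finrank_span_finset_le_card (R := F) (E.image (row p))
  rw [Finset.coe_image] at h1
  exact h1.trans Finset.card_image_le

theorem rk_submod (E E' : Finset (Sym2 V)) :
    rk F d (E ∪ E') + rk F d (E ∩ E') ≤ rk F d E + rk F d E' := by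
  obtain ⟨p, -, hp⟩ := gen F V d
  rw [← hp, ← hp, ← hp, ← hp]
  have h1 := Submodule.finrank_sup_add_finrank_inf_eq (sp p E) (sp p E')
  rw [← sp_union] at h1
  have h2 : sp p (E ∩ E') ≤ sp p E ⊓ sp p E' :=
    le_inf (sp_mono p Finset.inter_subset_left) (sp_mono p Finset.inter_subset_right)
  have h3 := Submodule.finrank_mono h2
  change Module.finrank F (sp p (E ∪ E')) + Module.finrank F (sp p (E ∩ E')) ≤
    Module.finrank F (sp p E) + Module.finrank F (sp p E')
  omega

theorem rk_union_le (E S : Finset (Sym2 V)) : rk F d (E ∪ S) ≤ rk F d E + S.card := by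
  have h1 := rk_submod (F := F) (d := d) E S
  have h2 := rk_le_card (F := F) (d := d) S
  omega

theorem rk_insert_le (e : Sym2 V) (E : Finset (Sym2 V)) :
    rk F d (insert e E) ≤ rk F d E + 1 := by
  have h1 := rk_union_le (F := F) (d := d) E {e}
  rw [Finset.card_singleton] at h1
  have h2 : insert e E = E ∪ {e} := by
    rw [Finset.insert_eq, Finset.union_comm]
  rw [h2]
  exact h1

/-- if all elements of `S` are in the closure of `E` the rank does not change -/
theorem rk_union_cl {S : Finset (Sym2 V)} (h : ∀ e ∈ S, Cl F d E e) :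
    rk F d (E ∪ S) = rk F d E := by
  obtain ⟨p, -, hp⟩ := gen F V d
  have h1 : sp p (E ∪ S) = sp p E := by
    apply le_antisymm
    · rw [sp_union]
      refine sup_le le_rfl ?_
      unfold sp
      rw [Submodule.span_le]
      rintro _ ⟨f, hf, rfl⟩
      exact (cl_iff hp f E).mp (h f (by exact_mod_cast hf))
    · exact sp_mono p Finset.subset_union_left
  rw [← hp, ← hp]
  change Module.finrank F (sp p (E ∪ S)) = Module.finrank F (sp p E)
  rw [h1]

theorem cl_mono {e : Sym2 V} (h : E ⊆ E') (he : Cl F d E e) : Cl F d E' e := by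
  obtain ⟨p, -, hp⟩ := gen F V d
  rw [cl_iff hp] at he ⊢
  exact sp_mono p h he

theorem cl_of_mem {e : Sym2 V} (he : e ∈ E) : Cl F d E e := by
  unfold Cl
  rw [Finset.insert_eq_of_mem he]

/-- the closure is closed -/
theorem cl_trans {S : Finset (Sym2 V)} {e : Sym2 V} (h : ∀ f ∈ S, Cl F d E f)
    (he : Cl F d (E ∪ S) e) : Cl F d E e := by
  obtain ⟨p, -, hp⟩ := gen F V d
  rw [cl_iff hp] at he ⊢
  have h1 : sp p (E ∪ S) ≤ sp p E := by
    rw [sp_union]
    refine sup_le le_rfl ?_
    unfold sp
    rw [Submodule.span_le]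
    rintro _ ⟨f, hf, rfl⟩
    exact (cl_iff hp f E).mp (h f (by exact_mod_cast hf))
  exact h1 he

theorem cl_of_subset {e : Sym2 V} (h : E ⊆ E') (he : Cl F d E' e)
    (hr : rk F d E' = rk F d E) : Cl F d E e := by
  obtain ⟨p, -, hp⟩ := gen F V d
  rw [cl_iff hp] at he ⊢
  rw [← hp, ← hp] at hr
  have h1 : sp p E = sp p E' := Submodule.eq_of_le_of_finrank_eq (sp_mono p h) hr.symm
  rw [h1]
  exact he

theorem rk_split {S : Finset (Sym2 V)} (h : E ⊆ E') (hr : rk F d (E' ∪ S) = rk F d E' + S.card) :
    rk F d (E ∪ S) = rk F d E + S.card := by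
  apply le_antisymm (rk_union_le E S)
  have h1 := rk_submod (F := F) (d := d) (E ∪ S) E'
  have h2 : E ∪ S ∪ E' = E' ∪ S := by
    ext x
    simp only [Finset.mem_union]
    constructor
    · rintro ((hx | hx) | hx)
      · exact Or.inl (h hx)
      · exact Or.inr hx
      · exact Or.inl hx
    · rintro (hx | hx)
      · exact Or.inr hx
      · exact Or.inl (Or.inr hx)
  have h3 : E ⊆ (E ∪ S) ∩ E' := by
    intro x hx
    exact Finset.mem_inter.mpr ⟨Finset.mem_union_left _ hx, h hx⟩
  have h4 := rk_mono (F := F) (d := d) h3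
  rw [h2, hr] at h1
  omega

/-- loops do not matter -/
theorem rk_diag {e : Sym2 V} (he : e.IsDiag) : Cl F d E e := by
  obtain ⟨p, -, hp⟩ := gen F V d
  rw [cl_iff hp]
  have h1 : row p e = 0 := by
    induction e using Sym2.ind with
    | _ x y =>
      have : x = y := by simpa using he
      subst this
      simp [row]
  rw [h1]
  exact Submodule.zero_mem _

omit [Infinite F] in
private theorem row_apply (p : V → Fin d → F) {v w : V} (h : w ≠ v) :
    row p s(v, w) v = p v - p w := by
  simp [row, Pi.single_eq_of_ne h.symm]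

omit [Infinite F] in
private theorem row_apply_zero (p : V → Fin d → F) {v : V} {e : Sym2 V} (h : v ∉ e) :
    row p e v = 0 := by
  induction e using Sym2.ind with
  | _ x y =>
    have h1 : v ≠ x := fun h' => h (by simp [h'])
    have h2 : v ≠ y := fun h' => h (by simp [h'])
    simp [row, Pi.single_eq_of_ne h1, Pi.single_eq_of_ne h2]

/-- a dependent set has a non-empty subset of edges which are all in the closure of the others,
with degrees at least `d + 1` at all its vertices -/
theorem rk_circuit (hL : Lpl E) (h : rk F d E < E.card) :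
    ∃ D : Finset (Sym2 V), D ⊆ E ∧ D.Nonempty ∧ (∀ e ∈ D, Cl F d (E.erase e) e) ∧
      ∀ v, (∃ e ∈ D, v ∈ e) → d + 1 ≤ nb D univ v := by
  classical
  obtain ⟨p, hgp, hp⟩ := gen F V d
  have hdep : ¬ LinearIndependent F (fun e : E => row p (e : Sym2 V)) := by
    intro hli
    have h1 := finrank_span_eq_card hli
    have h2 : Set.range (fun e : E => row p (e : Sym2 V)) = row p '' (E : Set (Sym2 V)) := by
      ext x
      simp
    rw [h2, Fintype.card_coe] at h1
    rw [← hp] at h
    unfold rkAt at h
    omega
  obtain ⟨g, hg, ⟨e₀, he₀⟩, hge₀⟩ := Fintype.not_linearIndependent_iff.mp hdep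
  set c : Sym2 V → F := fun e => if h : e ∈ E then g ⟨e, h⟩ else 0 with hc
  have hsum : ∑ e ∈ E, c e • row p e = 0 := by
    rw [← hg, ← Finset.sum_coe_sort E (fun e => c e • row p e)]
    refine Finset.sum_congr rfl ?_
    rintro ⟨e, he⟩ -
    simp [hc, he]
  refine ⟨E.filter (fun e => c e ≠ 0), Finset.filter_subset _ _, ⟨e₀, ?_⟩, ?_, ?_⟩
  · rw [Finset.mem_filter]
    refine ⟨he₀, ?_⟩
    simp only [hc, he₀, dif_pos]
    exact hge₀
  · intro e he
    rw [Finset.mem_filter] at he
    obtain ⟨he, hce⟩ := he
    rw [cl_iff hp]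
    rw [← Finset.add_sum_erase _ _ he] at hsum
    have h1 : row p e = -((c e)⁻¹ • ∑ f ∈ E.erase e, c f • row p f) := by
      have h2 : c e • row p e = -∑ f ∈ E.erase e, c f • row p f := eq_neg_of_add_eq_zero_left hsum
      rw [← smul_neg, ← h2, smul_smul, inv_mul_cancel₀ hce, one_smul]
    rw [h1]
    refine Submodule.neg_mem _ (Submodule.smul_mem _ _ (Submodule.sum_mem _ ?_))
    intro f hf
    exact Submodule.smul_mem _ _ (row_mem p hf)
  · rintro v ⟨e, he, hve⟩
    set D := E.filter (fun e => c e ≠ 0) with hD
    have hDE : D ⊆ E := Finset.filter_subset _ _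
    set N := univ.filter (fun w => s(v, w) ∈ D) with hN
    change d + 1 ≤ N.card
    by_contra hcon
    push Not at hcon
    have hvN : v ∉ N := by
      intro hv
      have : s(v, v) ∈ D := (Finset.mem_filter.mp hv).2
      exact hL _ (hDE this) (by simp)
    have hcard : (insert v N).card ≤ d + 1 := by
      rw [Finset.card_insert_of_notMem hvN]
      omega
    have haff := hgp (insert v N) hcard
    unfold AffI at haff
    rw [affineIndependent_iff] at haff
    -- the sum at `v`
    have hsv : ∑ w ∈ N, c s(v, w) • (p v - p w) = 0 := by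
      have h1 : (∑ e ∈ E, c e • row p e) v = 0 := by rw [hsum]; rfl
      rw [Finset.sum_apply] at h1
      have h2 : ∑ e ∈ N.image (fun w => s(v, w)), (c e • row p e) v =
          ∑ e ∈ E, (c e • row p e) v := by
        apply Finset.sum_subset
        · intro e he
          obtain ⟨w, hw, rfl⟩ := Finset.mem_image.mp he
          exact hDE (Finset.mem_filter.mp hw).2
        · intro e heE he
          rw [Pi.smul_apply]
          by_cases hce : c e = 0
          · rw [hce, zero_smul]
          · by_cases hv : v ∈ e
            · exfalso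
              apply he
              obtain ⟨w, rfl⟩ := Sym2.mem_iff_exists.mp hv
              exact Finset.mem_image.mpr ⟨w, Finset.mem_filter.mpr ⟨Finset.mem_univ _,
                Finset.mem_filter.mpr ⟨heE, hce⟩⟩, rfl⟩
            · rw [row_apply_zero p hv, smul_zero]
      rw [← h2, Finset.sum_image] at h1
      · rw [← h1]
        refine Finset.sum_congr rfl ?_
        intro w hw
        rw [Pi.smul_apply, row_apply]
        rintro rfl
        exact hvN hw
      · intro a _ b _ hab
        have hab' : s(v, a) = s(v, b) := hab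
        exact Sym2.congr_right.mp hab'
    set q : V → F := fun x => if x = v then ∑ w ∈ N, c s(v, w) else - c s(v, x) with hq
    have hqN : ∀ x ∈ N, q x = - c s(v, x) := by
      intro x hx
      have : x ≠ v := by rintro rfl; exact hvN hx
      simp [hq, this]
    have hqv : q v = ∑ w ∈ N, c s(v, w) := by simp [hq]
    have hA1 : ∑ x : (insert v N : Finset V), q x = 0 := by
      rw [Finset.sum_coe_sort (insert v N) q, Finset.sum_insert hvN, hqv,
        Finset.sum_congr rfl hqN, Finset.sum_neg_distrib, add_neg_cancel]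
    have hA2 : ∑ x : (insert v N : Finset V), q x • p x = 0 := by
      rw [Finset.sum_coe_sort (insert v N) (fun x => q x • p x), Finset.sum_insert hvN, hqv,
        Finset.sum_congr rfl (fun x hx => by rw [hqN x hx] : ∀ x ∈ N, q x • p x =
          (- c s(v, x)) • p x), Finset.sum_smul, ← Finset.sum_add_distrib, ← hsv]
      refine Finset.sum_congr rfl ?_
      intro x hx
      rw [smul_sub, neg_smul, sub_eq_add_neg]
    have hall := haff Finset.univ (fun x => q x) hA1 hA2
    obtain ⟨w, rfl⟩ := Sym2.mem_iff_exists.mp hve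
    have hwN : w ∈ N := Finset.mem_filter.mpr ⟨Finset.mem_univ _, he⟩
    have h3 := hall ⟨w, Finset.mem_insert_of_mem hwN⟩ (Finset.mem_univ _)
    have h4 : q w = 0 := h3
    rw [hqN w hwN, neg_eq_zero] at h4
    exact (Finset.mem_filter.mp he).2 h4

end Pool.Agent.Helper50.RG
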