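import Pool.Agent.Helper50.RG.GeoA
import Pool.Agent.Helper50.RG.GeoB
import Pool.Agent.Helper50.RG.GeoDefs
import Pool.Agent.Helper50.RG.RkM
import Pool.Agent.Helper50.RG.GenR

/-!
# RG-12 : rigidity and rank

Let `X = V → Eu d`, `ℓ_e (x) = ‖x u - x v‖²` for `e = s(u, v)`; its derivative at `x` is
`m ↦ 2 ∑ i, (x u i - x v i) (m u i - m v i)`, i.e. twice the functional of `row x e`
(`EuclideanSpace` and functions have the same coordinates). Let `p` be generic, `E = H.edgeFinset`, and let
`E' ⊆ E` be a maximal set of edges with linearly independent rows at `p`; `|E'| = rkAt p E = rk E`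
(`generic_rk`). Near `p` the rows of `E'` stay independent, and `rkAt x E'' ≤ rk E''` for all `x`, so
for every `e` in the closure of `E` the row of `e` at `x` is in the span of the rows of `E'` at `x`,
for all `x` near `p` (`fibre_const` applies with `f = (ℓ_e), e ∈ E'`, `h = ℓ_e`).

(→) If `rk E < rk (Kn univ)` there is a pair `e₀` with row not in the span of the rows of `E'` at
`p`. By `fibre_curve` there is a curve `γ` from `p` with `ℓ_e` constant for `e ∈ E'`, and `ℓ_{e₀}`
takes values different from `ℓ_{e₀}(p)` at arbitrarily small times; by `fibre_const` and continuity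
`ℓ_e` is constant on a small interval for all `e ∈ E`. The motion `P t = γ (t δ)` (suitable small
`δ` with `ℓ_{e₀}(γ δ) ≠ ℓ_{e₀}(p)`) contradicts rigidity, as isometries preserve distances.

(←) Let `rk E = rk (Kn univ)`, `P` a motion. The set of times `t` at which `P t` is congruent to `p`
(all distances equal) is closed and contains `0`; it is open: if `P t₀` is congruent to `p`,
then by `exists_isometry` `P t₀ v = g (p v)`; then apply `fibre_const` at `p` to the motion
`g⁻¹ ∘ P t`, which is near `p` for `t` near `t₀`: all lengths of edges of `E'` are those of `p`, so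
all `ℓ_e` are those of `p`. As `unitInterval` is connected the set is everything, and
`exists_isometry` gives the isometries.
-/

set_option autoImplicit false

namespace Pool.Agent.Helper50.RG

open Finset

section GeoC

variable {V : Type} [Fintype V] [DecidableEq V] {d : ℕ}

/-- coordinates -/
def GeoC_c (x : V → Eu d) : V → Fin d → ℝ := fun v i => x v i

/-- squared length of a pair -/
noncomputable def GeoC_len (e : Sym2 V) (x : V → Eu d) : ℝ :=
  Sym2.lift ⟨fun u v => ‖x u - x v‖ ^ 2, fun u v => by simp only [norm_sub_rev]⟩ e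

omit [Fintype V] [DecidableEq V] in
theorem GeoC_len_mk (u v : V) (x : V → Eu d) : GeoC_len s(u, v) x = ‖x u - x v‖ ^ 2 := rfl

omit [Fintype V] [DecidableEq V] in
theorem GeoC_len_eq_iff (u v : V) (x y : V → Eu d) :
    GeoC_len s(u, v) x = GeoC_len s(u, v) y ↔ dist (x u) (x v) = dist (y u) (y v) := by
  rw [GeoC_len_mk, GeoC_len_mk, dist_eq_norm, dist_eq_norm]
  exact pow_left_inj₀ (norm_nonneg _) (norm_nonneg _) (by norm_num)

omit [DecidableEq V] in
theorem GeoC_contDiff (e : Sym2 V) : ContDiff ℝ 1 (GeoC_len (d := d) e) := by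
  induction e with
  | h u v =>
    have h1 : ContDiff ℝ 1 fun x : V → Eu d => x u - x v :=
      (contDiff_apply ℝ (Eu d) u).sub (contDiff_apply ℝ (Eu d) v)
    exact h1.norm_sq ℝ

/-- the functional of a row -/
noncomputable def GeoC_T : (V → Fin d → ℝ) →ₗ[ℝ] ((V → Eu d) →L[ℝ] ℝ) where
  toFun c := ∑ v, ∑ i, (2 * c v i) • ((EuclideanSpace.proj i : Eu d →L[ℝ] ℝ).comp
    (ContinuousLinearMap.proj (R := ℝ) (φ := fun _ : V => Eu d) v))
  map_add' c c' := by
    simp only [Pi.add_apply, mul_add, add_smul, Finset.sum_add_distrib]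
  map_smul' r c := by
    simp only [Pi.smul_apply, smul_eq_mul, RingHom.id_apply, Finset.smul_sum, smul_smul]
    refine Finset.sum_congr rfl fun v _ => Finset.sum_congr rfl fun i _ => ?_
    congr 1
    ring

omit [DecidableEq V] in
theorem GeoC_T_apply (c : V → Fin d → ℝ) (m : V → Eu d) :
    GeoC_T c m = ∑ v, ∑ i, 2 * c v i * m v i := by
  simp [GeoC_T]

theorem GeoC_T_single (u : V) (a : Fin d → ℝ) (m : V → Eu d) :
    GeoC_T (Pi.single u a) m = ∑ i, 2 * a i * m u i := by
  rw [GeoC_T_apply, Finset.sum_eq_single u]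
  · simp
  · intro b _ hb
    simp [Pi.single_eq_of_ne hb]
  · simp

theorem GeoC_T_ker : LinearMap.ker (GeoC_T (V := V) (d := d)) = ⊥ := by
  rw [LinearMap.ker_eq_bot']
  intro c hc
  funext v i
  have h1 : GeoC_T c (Pi.single v (EuclideanSpace.single i 1)) = 0 := by rw [hc]; rfl
  rw [GeoC_T_apply, Finset.sum_eq_single v, Finset.sum_eq_single i] at h1
  · simpa using h1
  · intro j _ hj
    simp [hj]
  · simp
  · intro b _ hb
    simp [Pi.single_eq_of_ne hb]
  · simp

theorem GeoC_fderiv (e : Sym2 V) (x : V → Eu d) :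
    fderiv ℝ (GeoC_len e) x = GeoC_T (row (GeoC_c x) e) := by
  induction e with
  | h u v =>
    have h1 : HasFDerivAt (fun x : V → Eu d => x u - x v)
        (ContinuousLinearMap.proj (R := ℝ) (φ := fun _ : V => Eu d) u -
          ContinuousLinearMap.proj (R := ℝ) (φ := fun _ : V => Eu d) v) x :=
      ((ContinuousLinearMap.proj (R := ℝ) (φ := fun _ : V => Eu d) u).hasFDerivAt).sub
        ((ContinuousLinearMap.proj (R := ℝ) (φ := fun _ : V => Eu d) v).hasFDerivAt)
    have h2 : HasFDerivAt (GeoC_len s(u, v)) _ x := h1.norm_sq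
    rw [h2.fderiv]
    ext m
    have h3 : GeoC_T (row (GeoC_c x) s(u, v)) m = ∑ i, 2 * (GeoC_c x u - GeoC_c x v) i * m u i +
        ∑ i, 2 * (GeoC_c x v - GeoC_c x u) i * m v i := by
      have : row (GeoC_c x) s(u, v) = Pi.single u (GeoC_c x u - GeoC_c x v) +
        Pi.single v (GeoC_c x v - GeoC_c x u) := rfl
      rw [this, map_add, _root_.add_apply, GeoC_T_single, GeoC_T_single]
    rw [h3, ← Finset.sum_add_distrib]
    simp only [_root_.smul_apply, ContinuousLinearMap.comp_apply,
      _root_.sub_apply, ContinuousLinearMap.proj_apply, innerSL_apply_apply,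
      PiLp.inner_apply, Finset.smul_sum]
    refine Finset.sum_congr rfl fun i _ => ?_
    simp [GeoC_c]
    ring

omit [Fintype V] in
theorem GeoC_cont (e : Sym2 V) : Continuous fun x : V → Eu d => row (GeoC_c x) e := by
  induction e with
  | h u v =>
    have hc : ∀ w : V, Continuous fun x : V → Eu d => GeoC_c x w := by
      intro w
      refine continuous_pi fun i => ?_
      exact (EuclideanSpace.proj i : Eu d →L[ℝ] ℝ).continuous.comp (continuous_apply w)
    have h1 : Continuous fun x : V → Eu d => (Pi.single u (GeoC_c x u - GeoC_c x v) :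
        V → Fin d → ℝ) + Pi.single v (GeoC_c x v - GeoC_c x u) := by
      refine Continuous.add ?_ ?_
      · exact (continuous_single u).comp ((hc u).sub (hc v))
      · exact (continuous_single v).comp ((hc v).sub (hc u))
    exact h1

/-- near `p` the rows of the closure are spanned by the rows of the basis -/
theorem GeoC_near (p : V → Eu d) (E : Finset (Sym2 V)) {J : Type} [Fintype J] (a : J → Sym2 V)
    (ha : ∀ j, a j ∈ E) (hli : LinearIndependent ℝ (fun j => row (GeoC_c p) (a j)))
    (hcard : Fintype.card J = rk ℝ d E) {e : Sym2 V} (he : Cl ℝ d E e) :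
    ∀ᶠ x in nhds p, row (GeoC_c x) e ∈
      Submodule.span ℝ (Set.range fun j => row (GeoC_c x) (a j)) := by
  have hc : Continuous fun (x : V → Eu d) (j : J) => row (GeoC_c x) (a j) :=
    continuous_pi fun j => GeoC_cont (a j)
  have h1 : ∀ᶠ x in nhds p, LinearIndependent ℝ (fun j => row (GeoC_c x) (a j)) :=
    hc.continuousAt.eventually hli.eventually
  filter_upwards [h1] with x hx
  have h2 : Submodule.span ℝ (Set.range fun j => row (GeoC_c x) (a j)) ≤
      Submodule.span ℝ (row (GeoC_c x) '' ((insert e E : Finset (Sym2 V)) : Set (Sym2 V))) := by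
    apply Submodule.span_mono
    rintro _ ⟨j, rfl⟩
    exact ⟨a j, by simp [ha j], rfl⟩
  have h3 : Module.finrank ℝ (Submodule.span ℝ (row (GeoC_c x) ''
      ((insert e E : Finset (Sym2 V)) : Set (Sym2 V)))) ≤
      Module.finrank ℝ (Submodule.span ℝ (Set.range fun j => row (GeoC_c x) (a j))) := by
    rw [finrank_span_eq_card hx, hcard, ← he]
    exact rkAt_le_rk (GeoC_c x) (insert e E)
  rw [Submodule.eq_of_le_of_finrank_le h2 h3]
  exact Submodule.subset_span ⟨e, by simp, rfl⟩

theorem GeoC_range_comp {J : Type} (a : J → Sym2 V) (x : V → Eu d) :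
    Submodule.span ℝ (Set.range fun j => fderiv ℝ (GeoC_len (a j)) x) =
      (Submodule.span ℝ (Set.range fun j => row (GeoC_c x) (a j))).map GeoC_T := by
  rw [Submodule.map_span, ← Set.range_comp]
  congr 2
  funext j
  exact GeoC_fderiv (a j) x

theorem GeoC_fibre (p : V → Eu d) (E : Finset (Sym2 V)) {J : Type} [Fintype J] (a : J → Sym2 V)
    (ha : ∀ j, a j ∈ E) (hli : LinearIndependent ℝ (fun j => row (GeoC_c p) (a j)))
    (hcard : Fintype.card J = rk ℝ d E) {e : Sym2 V} (he : Cl ℝ d E e) :
    ∃ U ∈ nhds p, ∀ x ∈ U, (∀ j, GeoC_len (a j) x = GeoC_len (a j) p) →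
      GeoC_len e x = GeoC_len e p := by
  have hli' : LinearIndependent ℝ (fun j => fderiv ℝ (GeoC_len (a j)) p) := by
    have h1 := hli.map' GeoC_T GeoC_T_ker
    have h2 : (⇑GeoC_T ∘ fun j => row (GeoC_c p) (a j)) =
        fun j => fderiv ℝ (GeoC_len (a j)) p := by
      funext j
      exact (GeoC_fderiv (a j) p).symm
    rw [h2] at h1
    exact h1
  obtain ⟨U, hU, h⟩ := fibre_const (fun j => GeoC_len (a j)) (GeoC_len e)
    (fun j => GeoC_contDiff (a j)) (GeoC_contDiff e) p hli' (by
      filter_upwards [GeoC_near p E a ha hli hcard he] with x hx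
      rw [GeoC_range_comp, GeoC_fderiv]
      exact Submodule.mem_map_of_mem hx)
  exact ⟨U, hU, fun x hx hj => h x hx p (mem_of_mem_nhds hU) hj⟩

/-- a basis of the rows -/
theorem GeoC_basis (p : V → Eu d) (hp : Generic (GeoC_c p)) (E : Finset (Sym2 V)) :
    ∃ (J : Type) (_ : Fintype J) (a : J → Sym2 V), (∀ j, a j ∈ E) ∧
      LinearIndependent ℝ (fun j => row (GeoC_c p) (a j)) ∧ Fintype.card J = rk ℝ d E ∧
      Submodule.span ℝ (Set.range fun j => row (GeoC_c p) (a j)) =
        Submodule.span ℝ (row (GeoC_c p) '' (E : Set (Sym2 V))) := by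
  obtain ⟨J, a, hinj, hspan, hli⟩ := exists_linearIndependent' ℝ
    (fun e : (E : Finset (Sym2 V)) => row (GeoC_c p) (e : Sym2 V))
  have : Fintype J := Fintype.ofInjective a hinj
  have h1 : Set.range (fun e : (E : Finset (Sym2 V)) => row (GeoC_c p) (e : Sym2 V)) =
      row (GeoC_c p) '' (E : Set (Sym2 V)) := by
    ext y
    simp
  have h2 : Submodule.span ℝ (Set.range fun j => row (GeoC_c p) ((a j : Sym2 V))) =
        Submodule.span ℝ (row (GeoC_c p) '' (E : Set (Sym2 V))) := by
    rw [← h1]
    exact hspan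
  refine ⟨J, inferInstance, fun j => (a j : Sym2 V), fun j => (a j).2, hli, ?_, h2⟩
  rw [← generic_rk hp E, rkAt, ← h2]
  exact (finrank_span_eq_card hli).symm

end GeoC

theorem isRigid_iff (d : ℕ) {V : Type} [Fintype V] [DecidableEq V] (H : SimpleGraph V)
    [DecidableRel H.Adj] : IsRigid d H ↔ rk ℝ d H.edgeFinset = rk ℝ d (Kn (univ : Finset V)) := by
  have hsub : H.edgeFinset ⊆ Kn (univ : Finset V) := by
    intro e he
    rw [Kn, Finset.mem_filter]
    refine ⟨?_, ?_⟩
    · rw [Finset.mem_sym2_iff]
      simp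
    · exact H.not_isDiag_of_mem_edgeFinset he
  constructor
  · intro hR
    by_contra hne
    have hlt : rk ℝ d H.edgeFinset < rk ℝ d (Kn (univ : Finset V)) :=
      lt_of_le_of_ne (rk_mono hsub) hne
    obtain ⟨q, hq⟩ := exists_generic_real V d
    let p : V → Eu d := fun v => WithLp.toLp 2 (q v)
    have hpq : GeoC_c p = q := rfl
    have hp : Generic (GeoC_c p) := hq
    obtain ⟨J, _, a, ha, hli, hcard, hspan⟩ := GeoC_basis p hp H.edgeFinset
    -- a pair outside the span
    obtain ⟨e₀, he₀⟩ : ∃ e₀ : Sym2 V, row (GeoC_c p) e₀ ∉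
        Submodule.span ℝ (Set.range fun j => row (GeoC_c p) (a j)) := by
      by_contra hcon
      push Not at hcon
      have h1 : Submodule.span ℝ (row (GeoC_c p) '' ((Kn (univ : Finset V) : Finset (Sym2 V)) :
          Set (Sym2 V))) ≤ Submodule.span ℝ (Set.range fun j => row (GeoC_c p) (a j)) := by
        rw [Submodule.span_le]
        rintro _ ⟨e, _, rfl⟩
        exact hcon e
      have h2 := Submodule.finrank_mono h1
      rw [finrank_span_eq_card hli, hcard] at h2
      have h3 := generic_rk hp (Kn (univ : Finset V))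
      rw [rkAt] at h3
      omega
    have hli' : LinearIndependent ℝ (fun j => fderiv ℝ (GeoC_len (a j)) p) := by
      have h1 := hli.map' GeoC_T GeoC_T_ker
      have h2 : (⇑GeoC_T ∘ fun j => row (GeoC_c p) (a j)) =
          fun j => fderiv ℝ (GeoC_len (a j)) p := by
        funext j
        exact (GeoC_fderiv (a j) p).symm
      rw [h2] at h1
      exact h1
    obtain ⟨γ, hγ, hγ0, hγa, hγe⟩ := fibre_curve (fun j => GeoC_len (a j)) (GeoC_len e₀)
      (fun j => GeoC_contDiff (a j)) (GeoC_contDiff e₀) p hli' (by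
        rw [GeoC_range_comp, GeoC_fderiv]
        intro hcon
        obtain ⟨y, hy, hy2⟩ := Submodule.mem_map.1 hcon
        have := LinearMap.ker_eq_bot.1 (GeoC_T_ker (V := V) (d := d)) hy2
        rw [this] at hy
        exact he₀ hy)
    -- all edges keep their lengths near the start
    have hev : ∀ᶠ t in nhds (0 : ℝ), ∀ e : H.edgeFinset, GeoC_len (e : Sym2 V) (γ t) =
        GeoC_len (e : Sym2 V) p := by
      rw [Filter.eventually_all]
      intro e
      obtain ⟨U, hU, h⟩ := GeoC_fibre p H.edgeFinset a ha hli hcard (cl_of_mem e.2)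
      have h1 : γ ⁻¹' U ∈ nhds (0 : ℝ) := by
        apply hγ.continuousAt
        rw [hγ0]
        exact hU
      filter_upwards [h1] with t ht
      exact h (γ t) ht (fun j => hγa t j)
    obtain ⟨δ, hδ, hδ2⟩ := Metric.eventually_nhds_iff.1 hev
    obtain ⟨t₀, ht0, htδ, hne₀⟩ := hγe δ hδ
    have hmot := hR p hq (fun t => γ ((t : ℝ) * t₀))
      (hγ.comp (continuous_subtype_val.mul continuous_const)) (by simp [hγ0]) (by
        intro t u v huv
        have hmem : s(u, v) ∈ H.edgeFinset := by
          rw [SimpleGraph.mem_edgeFinset]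
          exact huv
        have hd : dist ((t : ℝ) * t₀) 0 < δ := by
          rw [Real.dist_eq, sub_zero, abs_of_nonneg (mul_nonneg t.2.1 ht0.le)]
          calc (t : ℝ) * t₀ ≤ 1 * t₀ := mul_le_mul_of_nonneg_right t.2.2 ht0.le
            _ < δ := by linarith
        exact (GeoC_len_eq_iff u v _ _).1 (hδ2 hd ⟨s(u, v), hmem⟩)) 1
    obtain ⟨g, hg⟩ := hmot
    apply hne₀
    induction e₀ with
    | h u v =>
      rw [GeoC_len_eq_iff]
      have h1 : γ (((1 : unitInterval) : ℝ) * t₀) u = g (p u) := hg u
      have h2 : γ (((1 : unitInterval) : ℝ) * t₀) v = g (p v) := hg v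
      rw [Set.Icc.coe_one, one_mul] at h1 h2
      rw [h1, h2, g.dist_eq]
  · intro hrk p hp P hP hP0 hlen
    have hgen : Generic (GeoC_c p) := hp
    obtain ⟨J, _, a, ha, hli, hcard, hspan⟩ := GeoC_basis p hgen H.edgeFinset
    have hCl : ∀ e : Sym2 V, Cl ℝ d H.edgeFinset e := by
      intro e
      by_cases hd : e.IsDiag
      · exact rk_diag hd
      · have h1 : insert e H.edgeFinset ⊆ Kn (univ : Finset V) := by
          rw [Finset.insert_subset_iff]
          refine ⟨?_, hsub⟩
          rw [Kn, Finset.mem_filter]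
          refine ⟨?_, hd⟩
          rw [Finset.mem_sym2_iff]
          simp
        have h2 := rk_mono (F := ℝ) (d := d) h1
        have h3 := rk_mono (F := ℝ) (d := d) (Finset.subset_insert e H.edgeFinset)
        rw [Cl]
        omega
    set S : Set unitInterval := {t | ∀ u v, dist (P t u) (P t v) = dist (p u) (p v)} with hS
    have hPc : ∀ u, Continuous fun t => P t u := fun u => (continuous_apply u).comp hP
    have hclosed : IsClosed S := by
      have : S = ⋂ u : V, ⋂ v : V, {t | dist (P t u) (P t v) = dist (p u) (p v)} := by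
        ext t
        simp [hS]
      rw [this]
      exact isClosed_iInter fun u => isClosed_iInter fun v =>
        isClosed_eq ((hPc u).dist (hPc v)) continuous_const
    have hopen : IsOpen S := by
      rw [isOpen_iff_mem_nhds]
      intro t₀ ht₀
      obtain ⟨g, hg⟩ := exists_isometry d V p (P t₀) ht₀
      have hQc : Continuous fun t => (fun v => g.symm (P t v) : V → Eu d) :=
        continuous_pi fun v => g.symm.continuous.comp (hPc v)
      have hQ0 : (fun v => g.symm (P t₀ v) : V → Eu d) = p := by
        funext v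
        rw [hg v]
        simp
      have hev : ∀ᶠ t in nhds t₀, ∀ e : Sym2 V, GeoC_len e (fun v => g.symm (P t v)) =
          GeoC_len e p := by
        rw [Filter.eventually_all]
        intro e
        obtain ⟨U, hU, h⟩ := GeoC_fibre p H.edgeFinset a ha hli hcard (hCl e)
        have h1 : (fun t => (fun v => g.symm (P t v) : V → Eu d)) ⁻¹' U ∈ nhds t₀ := by
          apply hQc.continuousAt
          have h2 : (fun t => (fun v => g.symm (P t v) : V → Eu d)) t₀ = p := hQ0
          rw [h2]
          exact hU
        filter_upwards [h1] with t ht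
        refine h _ ht fun j => ?_
        have hj := ha j
        revert hj
        generalize a j = f
        induction f with
        | h u v =>
          intro hj
          rw [SimpleGraph.mem_edgeFinset] at hj
          rw [GeoC_len_eq_iff, g.symm.dist_eq]
          exact hlen t u v hj
      filter_upwards [hev] with t ht u v
      have := (GeoC_len_eq_iff u v _ _).1 (ht s(u, v))
      rw [g.symm.dist_eq] at this
      exact this
    have huniv : S = Set.univ := IsClopen.eq_univ ⟨hclosed, hopen⟩ ⟨0, by
      rw [hS]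
      intro u v
      rw [hP0]⟩
    intro t
    have ht : t ∈ S := by rw [huniv]; trivial
    exact exists_isometry d V p (P t) ht

end Pool.Agent.Helper50.RG
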