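import Mathlib

/-!
# RG-21 : many complete bipartite subgraphs in a dense graph

`R` is a symmetric relation on `V`, `|V| = n`, with at least `κ n²` ordered pairs. The number of
pairs `(x, y)` of `m`-tuples with `R (x i) (y j)` for all `i j` is at least `κ^(m²) n^(2m)`:
for a tuple `x` let `c(x)` be the number of common `R`-neighbours; `∑_x c(x) = ∑_y deg(y)^m ≥
n (κ n)^m` and `∑_x c(x)^m ≥ n^m (∑_x c(x) / n^m)^m` (power mean twice, e.g.
`inner_le_nnorm_mul_nnorm`, `Real.pow_sum_div_card_le_sum_pow`, `inner_pow`).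
At most `(2m)² n^(2m-1)` pairs of tuples are not injective (on the `2m` positions), so at least half of them
remains for `n ≥ n₀`.
-/

set_option autoImplicit false

namespace Pool.Agent.Helper50.RG

open Finset

section aux

private theorem card_all {W : Type} [Fintype W] (m : ℕ) (P : W → Prop) [DecidablePred P]
    [DecidablePred (fun x : Fin m → W => ∀ i, P (x i))] :
    (univ.filter (fun x : Fin m → W => ∀ i, P (x i))).card = (univ.filter P).card ^ m := by
  have h1 : univ.filter (fun x : Fin m → W => ∀ i, P (x i)) =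
      Fintype.piFinset (fun _ : Fin m => univ.filter P) := by
    ext x
    simp [Fintype.mem_piFinset]
  rw [h1, Fintype.card_piFinset_const]

private theorem card_coll {W ι : Type} [Fintype W] [Fintype ι] [DecidableEq ι] (i j : ι)
    (hij : i ≠ j) [DecidablePred (fun z : ι → W => z i = z j)] :
    (univ.filter (fun z : ι → W => z i = z j)).card ≤
      Fintype.card W ^ (Fintype.card ι - 1) := by
  have h1 : (univ.filter (fun z : ι → W => z i = z j)).card ≤
      (univ : Finset ({k : ι // k ≠ i} → W)).card := by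
    refine Finset.card_le_card_of_injOn (fun z k => z k) (fun _ _ => by simp) ?_
    intro z hz z' hz' hzz
    have hz1 : z i = z j := by simpa using hz
    have hz2 : z' i = z' j := by simpa using hz'
    have h2 : ∀ k, k ≠ i → z k = z' k := fun k hk => congrFun hzz ⟨k, hk⟩
    funext k
    by_cases hk : k = i
    · subst hk
      rw [hz1, hz2]
      exact h2 j hij.symm
    · exact h2 k hk
  refine h1.trans (le_of_eq ?_)
  rw [Finset.card_univ, Fintype.card_fun]
  congr 1
  have h3 := Fintype.card_subtype_compl (fun k : ι => k = i)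
  rw [Fintype.card_subtype_eq] at h3
  rw [← h3]

private theorem card_noninj {W ι : Type} [Fintype W] [Fintype ι] [DecidableEq ι]
    [DecidablePred (fun z : ι → W => ¬ Function.Injective z)] :
    (univ.filter (fun z : ι → W => ¬ Function.Injective z)).card ≤
      Fintype.card ι ^ 2 * Fintype.card W ^ (Fintype.card ι - 1) := by
  classical
  have h1 : univ.filter (fun z : ι → W => ¬ Function.Injective z) ⊆
      (univ : Finset ι).offDiag.biUnion (fun q => univ.filter (fun z : ι → W => z q.1 = z q.2)) := by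
    intro z hz
    rw [Finset.mem_filter] at hz
    have h2 := hz.2
    unfold Function.Injective at h2
    push Not at h2
    obtain ⟨a, b, hab, hne⟩ := h2
    rw [Finset.mem_biUnion]
    exact ⟨(a, b), by simpa using hne, by simpa using hab⟩
  refine (Finset.card_le_card h1).trans (Finset.card_biUnion_le.trans ?_)
  have h3 : ∀ q ∈ (univ : Finset ι).offDiag,
      (univ.filter (fun z : ι → W => z q.1 = z q.2)).card ≤
        Fintype.card W ^ (Fintype.card ι - 1) := by
    intro q hq
    apply card_coll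
    simpa using hq
  refine (Finset.sum_le_card_nsmul _ _ _ h3).trans ?_
  rw [smul_eq_mul]
  apply Nat.mul_le_mul_right
  rw [Finset.offDiag_card, Finset.card_univ, pow_two]
  exact Nat.sub_le _ _

/-- power mean inequality -/
private theorem pm {ι : Type} (s : Finset ι) (f : ι → ℝ) (hf : ∀ a ∈ s, 0 ≤ f a) {m : ℕ}
    (hm : 1 ≤ m) : (∑ a ∈ s, f a) ^ m ≤ (s.card : ℝ) ^ (m - 1) * ∑ a ∈ s, f a ^ m := by
  obtain ⟨k, rfl⟩ : ∃ k, m = k + 1 := ⟨m - 1, by omega⟩
  rw [Nat.add_sub_cancel]
  exact pow_sum_le_card_mul_sum_pow hf k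

/-- double counting -/
private theorem dc {A B : Type} [Fintype A] [Fintype B] (Q : A → B → Prop)
    [∀ a, DecidablePred (fun b => Q a b)] [∀ b, DecidablePred (fun a => Q a b)] :
    ∑ a : A, (univ.filter (fun b => Q a b)).card = ∑ b : B, (univ.filter (fun a => Q a b)).card := by
  simp_rw [Finset.card_filter]
  rw [Finset.sum_comm]

end aux

open Classical in
theorem many_ktt (m : ℕ) (hm : 1 ≤ m) (κ : ℝ) (hκ : 0 < κ) : ∃ c > 0, ∃ n₀ : ℕ,
    ∀ (V : Type) [Fintype V] [DecidableEq V], n₀ ≤ Fintype.card V →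
    ∀ R : V → V → Prop, (∀ x y, R x y → R y x) →
    κ * (Fintype.card V : ℝ) ^ 2 ≤ ((univ.filter (fun p : V × V => R p.1 p.2)).card : ℝ) →
    c * (Fintype.card V : ℝ) ^ (2 * m) ≤
      ((univ.filter (fun z : Fin m ⊕ Fin m → V => Function.Injective z ∧
        ∀ i j, R (z (Sum.inl i)) (z (Sum.inr j)))).card : ℝ) := by
  have hκm : 0 < κ ^ (m ^ 2) := pow_pos hκ _
  obtain ⟨n₁, hn₁⟩ := exists_nat_gt (2 * (2 * (m : ℝ)) ^ 2 / κ ^ (m ^ 2))
  refine ⟨κ ^ (m ^ 2) / 2, by positivity, n₁ + 1, ?_⟩
  intro V _ _ hn R hR hdense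
  set n : ℕ := Fintype.card V with hnV
  have hn0 : 0 < n := by omega
  have hnR : (0 : ℝ) < n := by exact_mod_cast hn0
  -- degrees
  set deg : V → ℕ := fun y => (univ.filter (fun x => R x y)).card with hdeg
  have h1 : ((univ.filter (fun p : V × V => R p.1 p.2)).card : ℝ) = ∑ y : V, (deg y : ℝ) := by
    rw [Finset.card_filter, Fintype.sum_prod_type, Finset.sum_comm]
    push_cast
    refine Finset.sum_congr rfl ?_
    intro y _
    rw [hdeg]
    simp only
    rw [Finset.card_filter]
    push_cast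
    rfl
  -- common neighbours
  set cn : (Fin m → V) → ℕ := fun x => (univ.filter (fun y => ∀ i, R (x i) y)).card with hcn
  have h2 : ∑ x : Fin m → V, cn x = ∑ y : V, deg y ^ m := by
    rw [hcn]
    simp only
    rw [dc (fun (x : Fin m → V) (y : V) => ∀ i, R (x i) y)]
    refine Finset.sum_congr rfl ?_
    intro y _
    exact card_all m (fun x => R x y)
  have h3 : (univ.filter (fun z : Fin m ⊕ Fin m → V =>
      ∀ i j, R (z (Sum.inl i)) (z (Sum.inr j)))).card = ∑ x : Fin m → V, cn x ^ m := by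
    have e1 : ∀ x : Fin m → V, cn x ^ m =
        (univ.filter (fun y : Fin m → V => ∀ i j, R (x i) (y j))).card := by
      intro x
      rw [hcn]
      simp only
      rw [← card_all m (fun y => ∀ i, R (x i) y)]
      congr 1
      ext y
      simp only [Finset.mem_filter, Finset.mem_univ, true_and]
      exact forall_comm
    rw [Finset.sum_congr rfl (fun x _ => e1 x)]
    rw [Finset.card_filter]
    rw [← (Equiv.sumArrowEquivProdArrow (Fin m) (Fin m) V).symm.sum_comp, Fintype.sum_prod_type]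
    refine Finset.sum_congr rfl ?_
    intro x _
    rw [Finset.card_filter]
    rfl
  -- power means
  have h4 : κ ^ m * (n : ℝ) ^ (m + 1) ≤ ∑ y : V, (deg y : ℝ) ^ m := by
    have e1 := pm (univ : Finset V) (fun y => (deg y : ℝ)) (fun _ _ => Nat.cast_nonneg _) hm
    rw [Finset.card_univ, ← hnV, ← h1] at e1
    have e2 : (κ * (n : ℝ) ^ 2) ^ m ≤ (n : ℝ) ^ (m - 1) * ∑ y : V, (deg y : ℝ) ^ m :=
      (pow_le_pow_left₀ (by positivity) hdense m).trans e1
    have e3 : (κ * (n : ℝ) ^ 2) ^ m = (n : ℝ) ^ (m - 1) * (κ ^ m * (n : ℝ) ^ (m + 1)) := by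
      rw [mul_pow, ← pow_mul]
      have : 2 * m = (m - 1) + (m + 1) := by omega
      rw [this, pow_add]
      ring
    rw [e3] at e2
    exact le_of_mul_le_mul_left e2 (by positivity)
  have h5 : κ ^ (m ^ 2) * (n : ℝ) ^ (2 * m) ≤ ∑ x : Fin m → V, (cn x : ℝ) ^ m := by
    have e1 := pm (univ : Finset (Fin m → V)) (fun x => (cn x : ℝ))
      (fun _ _ => Nat.cast_nonneg _) hm
    have e0 : ((univ : Finset (Fin m → V)).card : ℝ) = (n : ℝ) ^ m := by
      rw [Finset.card_univ, Fintype.card_fun, Fintype.card_fin]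
      push_cast
      rfl
    rw [e0] at e1
    have e2 : ∑ x : Fin m → V, (cn x : ℝ) = ∑ y : V, (deg y : ℝ) ^ m := by
      exact_mod_cast h2
    rw [e2] at e1
    have e3 : (κ ^ m * (n : ℝ) ^ (m + 1)) ^ m ≤
        ((n : ℝ) ^ m) ^ (m - 1) * ∑ x : Fin m → V, (cn x : ℝ) ^ m :=
      (pow_le_pow_left₀ (by positivity) h4 m).trans e1
    have e4 : (κ ^ m * (n : ℝ) ^ (m + 1)) ^ m =
        ((n : ℝ) ^ m) ^ (m - 1) * (κ ^ (m ^ 2) * (n : ℝ) ^ (2 * m)) := by
      rw [mul_pow, ← pow_mul, ← pow_mul, ← pow_mul, mul_left_comm, ← pow_add]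
      have e5 : m * (m - 1) + 2 * m = (m + 1) * m := by
        obtain ⟨k, rfl⟩ : ∃ k, m = k + 1 := ⟨m - 1, by omega⟩
        rw [Nat.add_sub_cancel]
        ring
      rw [e5, pow_two]
    rw [e4] at e3
    exact le_of_mul_le_mul_left e3 (by positivity)
  have h6 : κ ^ (m ^ 2) * (n : ℝ) ^ (2 * m) ≤ ((univ.filter (fun z : Fin m ⊕ Fin m → V =>
      ∀ i j, R (z (Sum.inl i)) (z (Sum.inr j)))).card : ℝ) := by
    rw [h3]
    push_cast
    exact h5
  -- non injective maps
  have h7 : ((univ.filter (fun z : Fin m ⊕ Fin m → V => ¬ Function.Injective z)).card : ℝ) ≤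
      (2 * (m : ℝ)) ^ 2 * (n : ℝ) ^ (2 * m - 1) := by
    have e1 := card_noninj (W := V) (ι := Fin m ⊕ Fin m)
    rw [Fintype.card_sum, Fintype.card_fin, ← two_mul, ← hnV] at e1
    exact_mod_cast e1
  have h8 : (2 * (m : ℝ)) ^ 2 * (n : ℝ) ^ (2 * m - 1) ≤ κ ^ (m ^ 2) / 2 * (n : ℝ) ^ (2 * m) := by
    have e1 : (2 * (m : ℝ)) ^ 2 ≤ κ ^ (m ^ 2) / 2 * n := by
      have e2 : (n₁ : ℝ) ≤ n := by exact_mod_cast (by omega : n₁ ≤ n)
      have e3 := hn₁.trans_le e2
      rw [div_lt_iff₀ hκm] at e3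
      linarith
    have e2 : (n : ℝ) ^ (2 * m) = (n : ℝ) * (n : ℝ) ^ (2 * m - 1) := by
      rw [← pow_succ']
      congr 1
      omega
    rw [e2, ← mul_assoc]
    exact mul_le_mul_of_nonneg_right e1 (by positivity)
  have h9 : (univ.filter (fun z : Fin m ⊕ Fin m → V =>
      ∀ i j, R (z (Sum.inl i)) (z (Sum.inr j)))).card ≤
      (univ.filter (fun z : Fin m ⊕ Fin m → V => Function.Injective z ∧
        ∀ i j, R (z (Sum.inl i)) (z (Sum.inr j)))).card +
      (univ.filter (fun z : Fin m ⊕ Fin m → V => ¬ Function.Injective z)).card := by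
    refine le_trans (Finset.card_le_card ?_) (Finset.card_union_le _ _)
    intro z hz
    rw [Finset.mem_union, Finset.mem_filter, Finset.mem_filter]
    rw [Finset.mem_filter] at hz
    by_cases hi : Function.Injective z
    · exact Or.inl ⟨Finset.mem_univ _, hi, hz.2⟩
    · exact Or.inr ⟨Finset.mem_univ _, hi⟩
  have h10 : ((univ.filter (fun z : Fin m ⊕ Fin m → V =>
      ∀ i j, R (z (Sum.inl i)) (z (Sum.inr j)))).card : ℝ) ≤
      ((univ.filter (fun z : Fin m ⊕ Fin m → V => Function.Injective z ∧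
        ∀ i j, R (z (Sum.inl i)) (z (Sum.inr j)))).card : ℝ) +
      ((univ.filter (fun z : Fin m ⊕ Fin m → V => ¬ Function.Injective z)).card : ℝ) := by
    exact_mod_cast h9
  linarith

end Pool.Agent.Helper50.RG
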