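import Pool.Agent.Helper50.RG.Split

/-!
# RG-38 : linear sets `B`, the bound for a fixed set

`m! ≤ 3 (m + 1) (m/e)^m` (with `0^0 = 1`). Sum `split_count` over `e`, `x` with `e + x ≤ I`. In the term
`(e, x)` use `zd_le` and `wd_le`: with `a = N - b`,
`Zd d b x (2e) y^x z^(2e) ≤ x! (2e)! exp (b (G + κ z + γ y))`,
`Wd (d+1) a (2M-2e-x) w^(2M-2e-x) ≤ (2M-2e-x)! exp (a (Lw + kw w))`, `z = 2e/(κ b)`, `y = x/(γ b)`,
`w = (2M-2e-x)/(kw a)`. So `Zd d b x (2e) ≤ 9 (2M+1)² e^(bG) (κ b)^(2e) (γ b)^x`,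
`Wd ≤ 3 (2M+1) e^(a Lw) (kw a)^(2M-2e-x)` (if an exponent is `0` the corresponding factor is `1`; if `b = 0`
or `a = 0` check the small cases directly: then the word count is zero unless the length is zero).
The term is at most `27 (2M+1)³ e^(bG + a Lw) M!/(e! x! (M-e-x)!) (κb)^(2e) (2 γ b kw a)^x (kw a)^(2(M-e-x))`;
insert `θ^(e + x - I) ≥ 1` (`θ ≤ 1`) and use the multinomial theorem.
-/

set_option autoImplicit false

namespace Pool.Agent.Helper50.RG

open Finset

/-- valid parameters -/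
structure Par (d : ℕ) (Lw kw G κ γ θ : ℝ) : Prop where
  kw_pos : 0 < kw
  κ_pos : 0 < κ
  γ_pos : 0 < γ
  θ_pos : 0 < θ
  θ_le : θ ≤ 1
  hw : ∀ w : ℝ, 0 ≤ w → fk (d + 1) w ≤ Real.exp (Lw + kw * w)
  hg : ∀ u v : ℝ, 0 ≤ u → 0 ≤ v → gk d u v ≤ Real.exp (G + κ * u + γ * v)

/-- upper Stirling bound -/
private theorem largeA_fact (n : ℕ) :
    (n.factorial : ℝ) * Real.exp n ≤ 3 * ((n : ℝ) + 1) * (n : ℝ) ^ n := by
  have main : ∀ n : ℕ, ((n + 1).factorial : ℝ) * Real.exp ((n : ℝ) + 1) ≤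
      Real.exp 1 * ((n : ℝ) + 1) * ((n : ℝ) + 1) ^ (n + 1) := by
    intro n
    induction n with
    | zero => simp
    | succ n ih =>
      have hstep : Real.exp 1 * ((n : ℝ) + 1) ^ (n + 2) ≤ ((n : ℝ) + 2) ^ (n + 2) := by
        have h1 : ((n : ℝ) + 1) / ((n : ℝ) + 2) ≤ Real.exp (-(1 / ((n : ℝ) + 2))) := by
          have h2 := Real.add_one_le_exp (-(1 / ((n : ℝ) + 2)))
          have h3 : ((n : ℝ) + 1) / ((n : ℝ) + 2) = -(1 / ((n : ℝ) + 2)) + 1 := by
            field_simp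
            ring
          rw [h3]; exact h2
        have h4 := pow_le_pow_left₀ (by positivity) h1 (n + 2)
        rw [← Real.exp_nat_mul, div_pow] at h4
        have h5 : ((n + 2 : ℕ) : ℝ) * -(1 / ((n : ℝ) + 2)) = -1 := by
          push_cast
          field_simp
        rw [h5, div_le_iff₀ (by positivity)] at h4
        calc Real.exp 1 * ((n : ℝ) + 1) ^ (n + 2)
            ≤ Real.exp 1 * (Real.exp (-1) * ((n : ℝ) + 2) ^ (n + 2)) :=
              mul_le_mul_of_nonneg_left h4 (Real.exp_pos _).le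
          _ = (Real.exp 1 * Real.exp (-1)) * ((n : ℝ) + 2) ^ (n + 2) := by ring
          _ = _ := by rw [← Real.exp_add, add_neg_cancel, Real.exp_zero, one_mul]
      have h6 : ((n + 1 + 1).factorial : ℝ) = ((n : ℝ) + 2) * ((n + 1).factorial : ℝ) := by
        rw [Nat.factorial_succ]
        push_cast
        ring
      have h7 : Real.exp (((n + 1 : ℕ) : ℝ) + 1) = Real.exp 1 * Real.exp ((n : ℝ) + 1) := by
        rw [← Real.exp_add]
        congr 1
        push_cast
        ring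
      rw [h6, h7]
      have h8 : ((n + 1 : ℕ) : ℝ) + 1 = (n : ℝ) + 2 := by push_cast; ring
      rw [h8]
      have h9 : (0 : ℝ) ≤ ((n : ℝ) + 2) * Real.exp 1 := by positivity
      calc ((n : ℝ) + 2) * ((n + 1).factorial : ℝ) * (Real.exp 1 * Real.exp ((n : ℝ) + 1))
          = (((n : ℝ) + 2) * Real.exp 1) *
            (((n + 1).factorial : ℝ) * Real.exp ((n : ℝ) + 1)) := by ring
        _ ≤ (((n : ℝ) + 2) * Real.exp 1) *
            (Real.exp 1 * ((n : ℝ) + 1) * ((n : ℝ) + 1) ^ (n + 1)) :=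
            mul_le_mul_of_nonneg_left ih h9
        _ = (((n : ℝ) + 2) * Real.exp 1) * (Real.exp 1 * ((n : ℝ) + 1) ^ (n + 2)) := by ring
        _ ≤ (((n : ℝ) + 2) * Real.exp 1) * ((n : ℝ) + 2) ^ (n + 2) :=
            mul_le_mul_of_nonneg_left hstep h9
        _ = _ := by ring
  rcases n with _ | n
  · norm_num
  · have h1 := main n
    push_cast
    refine h1.trans ?_
    apply mul_le_mul_of_nonneg_right _ (by positivity)
    have h2 := Real.exp_one_lt_three
    nlinarith [show (0 : ℝ) ≤ (n : ℝ) by positivity]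

private theorem largeA_cancel (n : ℕ) {Q c X : ℝ} (hc : 0 < c)
    (h : Q * ((n : ℝ) / c) ^ n ≤ X * (n : ℝ) ^ n) : Q ≤ X * c ^ n := by
  have h0 : (0 : ℝ) < (n : ℝ) ^ n := by
    rcases n with _ | n
    · norm_num
    · positivity
  rw [div_pow, ← mul_div_assoc, div_le_iff₀ (by positivity)] at h
  have h1 : Q * (n : ℝ) ^ n ≤ (X * c ^ n) * (n : ℝ) ^ n := by
    calc Q * (n : ℝ) ^ n ≤ X * (n : ℝ) ^ n * c ^ n := h
      _ = _ := by ring
  exact le_of_mul_le_mul_right h1 h0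

private theorem largeA_wd (d : ℕ) {Lw kw G κ γ θ : ℝ} (hP : Par d Lw kw G κ γ θ) (a m : ℕ)
    (ha : 0 < a) : (Wd (d + 1) a m : ℝ) ≤
      3 * ((m : ℝ) + 1) * Real.exp (a * Lw) * (kw * a) ^ m := by
  have hkw := hP.kw_pos
  have ha' : (0 : ℝ) < a := by exact_mod_cast ha
  have hc : 0 < kw * a := by positivity
  apply largeA_cancel m hc
  have hw0 : (0 : ℝ) ≤ (m : ℝ) / (kw * a) := by positivity
  have h1 := wd_le (d + 1) a m hw0
  have h2 : fk (d + 1) ((m : ℝ) / (kw * a)) ^ a ≤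
      Real.exp (a * Lw) * Real.exp m := by
    have h3 := pow_le_pow_left₀ (fk_nonneg (d + 1) hw0) (hP.hw _ hw0) a
    rw [← Real.exp_nat_mul] at h3
    refine h3.trans (le_of_eq ?_)
    rw [← Real.exp_add]
    congr 1
    field_simp
  have h4 := largeA_fact m
  calc (Wd (d + 1) a m : ℝ) * ((m : ℝ) / (kw * a)) ^ m
      ≤ (m.factorial : ℝ) * fk (d + 1) ((m : ℝ) / (kw * a)) ^ a := h1
    _ ≤ (m.factorial : ℝ) * (Real.exp (a * Lw) * Real.exp m) :=
        mul_le_mul_of_nonneg_left h2 (Nat.cast_nonneg _)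
    _ = Real.exp (a * Lw) * ((m.factorial : ℝ) * Real.exp m) := by ring
    _ ≤ Real.exp (a * Lw) * (3 * ((m : ℝ) + 1) * (m : ℝ) ^ m) :=
        mul_le_mul_of_nonneg_left h4 (Real.exp_pos _).le
    _ = _ := by ring

private theorem largeA_gk_nonneg (d : ℕ) {u v : ℝ} (hu : 0 ≤ u) (hv : 0 ≤ v) : 0 ≤ gk d u v := by
  unfold gk
  apply Finset.sum_nonneg
  intro i _
  apply mul_nonneg
  · positivity
  · exact fk_nonneg _ hu

private theorem largeA_zd (d : ℕ) {Lw kw G κ γ θ : ℝ} (hP : Par d Lw kw G κ γ θ) (b x m : ℕ)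
    (hb : 0 < b) : (Zd d b x m : ℝ) ≤
      9 * ((x : ℝ) + 1) * ((m : ℝ) + 1) * Real.exp (b * G) * (γ * b) ^ x * (κ * b) ^ m := by
  have hκ := hP.κ_pos
  have hγ := hP.γ_pos
  have hb' : (0 : ℝ) < b := by exact_mod_cast hb
  have hc1 : 0 < κ * b := by positivity
  have hc2 : 0 < γ * b := by positivity
  have hz0 : (0 : ℝ) ≤ (m : ℝ) / (κ * b) := by positivity
  have hy0 : (0 : ℝ) ≤ (x : ℝ) / (γ * b) := by positivity
  have h1 := zd_le d b x m hy0 hz0
  have h2 : gk d ((m : ℝ) / (κ * b)) ((x : ℝ) / (γ * b)) ^ b ≤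
      Real.exp (b * G) * (Real.exp m * Real.exp x) := by
    have h3 := pow_le_pow_left₀ (largeA_gk_nonneg d hz0 hy0) (hP.hg _ _ hz0 hy0) b
    rw [← Real.exp_nat_mul] at h3
    refine h3.trans (le_of_eq ?_)
    rw [← Real.exp_add, ← Real.exp_add]
    congr 1
    field_simp
    ring
  have h4 := largeA_fact m
  have h5 := largeA_fact x
  have h6 : ((Zd d b x m : ℝ) * ((x : ℝ) / (γ * b)) ^ x) * ((m : ℝ) / (κ * b)) ^ m ≤
      (9 * ((x : ℝ) + 1) * ((m : ℝ) + 1) * Real.exp (b * G) * (x : ℝ) ^ x) * (m : ℝ) ^ m := by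
    calc ((Zd d b x m : ℝ) * ((x : ℝ) / (γ * b)) ^ x) * ((m : ℝ) / (κ * b)) ^ m
        ≤ (x.factorial : ℝ) * (m.factorial : ℝ) *
          gk d ((m : ℝ) / (κ * b)) ((x : ℝ) / (γ * b)) ^ b := h1
      _ ≤ (x.factorial : ℝ) * (m.factorial : ℝ) *
          (Real.exp (b * G) * (Real.exp m * Real.exp x)) :=
          mul_le_mul_of_nonneg_left h2 (by positivity)
      _ = Real.exp (b * G) * (((x.factorial : ℝ) * Real.exp x) *
          ((m.factorial : ℝ) * Real.exp m)) := by ring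
      _ ≤ Real.exp (b * G) * ((3 * ((x : ℝ) + 1) * (x : ℝ) ^ x) *
          (3 * ((m : ℝ) + 1) * (m : ℝ) ^ m)) := by
          apply mul_le_mul_of_nonneg_left _ (Real.exp_pos _).le
          exact mul_le_mul h5 h4 (by positivity) (by positivity)
      _ = _ := by ring
  have h7 := largeA_cancel m hc1 h6
  have h8 : (Zd d b x m : ℝ) * ((x : ℝ) / (γ * b)) ^ x ≤
      (9 * ((x : ℝ) + 1) * ((m : ℝ) + 1) * Real.exp (b * G) * (κ * b) ^ m) * (x : ℝ) ^ x := by
    refine h7.trans (le_of_eq ?_)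
    ring
  have h9 := largeA_cancel x hc2 h8
  refine h9.trans (le_of_eq ?_)
  ring

private theorem largeA_term (d : ℕ) {Lw kw G κ γ θ : ℝ} (hP : Par d Lw kw G κ γ θ)
    (V : Type) [Fintype V] [DecidableEq V] (M : ℕ) (B : Finset V) (hB : B.Nonempty)
    (hB' : B.card < Fintype.card V) (e x : ℕ) (hex : e + x ≤ M) :
    (((TT V (d + 1) M).filter
      (fun u => nin u B = e ∧ ncr u B = x ∧ ∀ v ∈ B, cr u B v < d)).card : ℝ) ≤
      27 * (2 * (M : ℝ) + 1) ^ 3 *
        Real.exp (B.card * G + ((Fintype.card V : ℝ) - B.card) * Lw) *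
        ((M.choose e : ℝ) * ((M - e).choose x : ℝ) * ((κ * B.card) ^ 2) ^ e *
          (2 * (γ * B.card) * (kw * ((Fintype.card V : ℝ) - B.card))) ^ x *
          ((kw * ((Fintype.card V : ℝ) - B.card)) ^ 2) ^ (M - e - x)) := by
  have hb0 : 0 < B.card := Finset.card_pos.mpr hB
  have ha0 : 0 < Fintype.card V - B.card := by omega
  have ha1 : ((Fintype.card V - B.card : ℕ) : ℝ) = (Fintype.card V : ℝ) - B.card := by
    rw [Nat.cast_sub hB'.le]
  have hsp := split_count d B e x hex (M := M)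
  have hzd := largeA_zd d hP B.card x (2 * e) hb0
  have hwd := largeA_wd d hP (Fintype.card V - B.card) (2 * M - 2 * e - x) ha0
  rw [ha1] at hwd
  have hκ := hP.κ_pos
  have hγ := hP.γ_pos
  have hkw := hP.kw_pos
  have hbR : (0 : ℝ) < B.card := by exact_mod_cast hb0
  have haR : (0 : ℝ) < (Fintype.card V : ℝ) - B.card := by
    rw [← ha1]; exact_mod_cast ha0
  set a : ℝ := (Fintype.card V : ℝ) - B.card with ha
  set b : ℝ := (B.card : ℝ) with hb
  set T : ℕ := ((TT V (d + 1) M).filter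
      (fun u => nin u B = e ∧ ncr u B = x ∧ ∀ v ∈ B, cr u B v < d)).card with hT
  have hf1 : M.choose e * e.factorial * (M - e).factorial = M.factorial :=
    Nat.choose_mul_factorial_mul_factorial (by omega)
  have hf2 : (M - e).choose x * x.factorial * (M - e - x).factorial = (M - e).factorial :=
    Nat.choose_mul_factorial_mul_factorial (by omega)
  -- cancel the factorials
  have h1 : T ≤ M.choose e * (M - e).choose x * 2 ^ x * Zd d B.card x (2 * e) *
      Wd (d + 1) (Fintype.card V - B.card) (2 * M - 2 * e - x) := by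
    have h2 : T * (e.factorial * x.factorial * (M - e - x).factorial) ≤
        (M.choose e * (M - e).choose x * 2 ^ x * Zd d B.card x (2 * e) *
          Wd (d + 1) (Fintype.card V - B.card) (2 * M - 2 * e - x)) *
          (e.factorial * x.factorial * (M - e - x).factorial) := by
      refine hsp.trans (le_of_eq ?_)
      rw [← hf1, ← hf2]
      ring
    have h3 : 0 < e.factorial * x.factorial * (M - e - x).factorial := by positivity
    exact Nat.le_of_mul_le_mul_right h2 h3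
  have h1R : (T : ℝ) ≤ (M.choose e : ℝ) * ((M - e).choose x : ℝ) * 2 ^ x *
      (Zd d B.card x (2 * e) : ℝ) *
      (Wd (d + 1) (Fintype.card V - B.card) (2 * M - 2 * e - x) : ℝ) := by
    exact_mod_cast h1
  -- polynomial factors
  have hx1 : ((x : ℝ) + 1) ≤ 2 * (M : ℝ) + 1 := by
    have : (x : ℝ) ≤ M := by exact_mod_cast (show x ≤ M by omega)
    have hM0 : (0 : ℝ) ≤ M := Nat.cast_nonneg _
    linarith
  have he1 : (((2 * e : ℕ) : ℝ) + 1) ≤ 2 * (M : ℝ) + 1 := by
    have : ((2 * e : ℕ) : ℝ) ≤ 2 * M := by exact_mod_cast (show 2 * e ≤ 2 * M by omega)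
    linarith
  have hm1 : (((2 * M - 2 * e - x : ℕ) : ℝ) + 1) ≤ 2 * (M : ℝ) + 1 := by
    have : ((2 * M - 2 * e - x : ℕ) : ℝ) ≤ 2 * M := by
      exact_mod_cast (show 2 * M - 2 * e - x ≤ 2 * M by omega)
    linarith
  have hM1 : (0 : ℝ) < 2 * (M : ℝ) + 1 := by positivity
  have hzd' : (Zd d B.card x (2 * e) : ℝ) ≤
      9 * (2 * (M : ℝ) + 1) ^ 2 * (Real.exp (b * G) * (γ * b) ^ x * (κ * b) ^ (2 * e)) := by
    refine hzd.trans ?_
    have h4 : ((x : ℝ) + 1) * (((2 * e : ℕ) : ℝ) + 1) ≤ (2 * (M : ℝ) + 1) ^ 2 := by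
      rw [pow_two]
      exact mul_le_mul hx1 he1 (by positivity) hM1.le
    have h5 : (0 : ℝ) ≤ 9 * (Real.exp (b * G) * (γ * b) ^ x * (κ * b) ^ (2 * e)) := by positivity
    calc 9 * ((x : ℝ) + 1) * (((2 * e : ℕ) : ℝ) + 1) * Real.exp (b * G) * (γ * b) ^ x *
          (κ * b) ^ (2 * e)
        = (((x : ℝ) + 1) * (((2 * e : ℕ) : ℝ) + 1)) *
          (9 * (Real.exp (b * G) * (γ * b) ^ x * (κ * b) ^ (2 * e))) := by ring
      _ ≤ (2 * (M : ℝ) + 1) ^ 2 *
          (9 * (Real.exp (b * G) * (γ * b) ^ x * (κ * b) ^ (2 * e))) :=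
          mul_le_mul_of_nonneg_right h4 h5
      _ = _ := by ring
  have hwd' : (Wd (d + 1) (Fintype.card V - B.card) (2 * M - 2 * e - x) : ℝ) ≤
      3 * (2 * (M : ℝ) + 1) * (Real.exp (a * Lw) * (kw * a) ^ (2 * M - 2 * e - x)) := by
    refine hwd.trans ?_
    have h5 : (0 : ℝ) ≤ 3 * (Real.exp (a * Lw) * (kw * a) ^ (2 * M - 2 * e - x)) := by positivity
    calc 3 * (((2 * M - 2 * e - x : ℕ) : ℝ) + 1) * Real.exp (a * Lw) *
          (kw * a) ^ (2 * M - 2 * e - x)
        = (((2 * M - 2 * e - x : ℕ) : ℝ) + 1) *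
          (3 * (Real.exp (a * Lw) * (kw * a) ^ (2 * M - 2 * e - x))) := by ring
      _ ≤ (2 * (M : ℝ) + 1) * (3 * (Real.exp (a * Lw) * (kw * a) ^ (2 * M - 2 * e - x))) :=
          mul_le_mul_of_nonneg_right hm1 h5
      _ = _ := by ring
  have hexp : 2 * M - 2 * e - x = x + 2 * (M - e - x) := by omega
  calc (T : ℝ) ≤ ((M.choose e : ℝ) * ((M - e).choose x : ℝ) * 2 ^ x) *
      (Zd d B.card x (2 * e) : ℝ) *
      (Wd (d + 1) (Fintype.card V - B.card) (2 * M - 2 * e - x) : ℝ) := h1R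
    _ ≤ ((M.choose e : ℝ) * ((M - e).choose x : ℝ) * 2 ^ x) *
        (9 * (2 * (M : ℝ) + 1) ^ 2 * (Real.exp (b * G) * (γ * b) ^ x * (κ * b) ^ (2 * e))) *
        (3 * (2 * (M : ℝ) + 1) * (Real.exp (a * Lw) * (kw * a) ^ (2 * M - 2 * e - x))) := by
        apply mul_le_mul _ hwd' (by positivity) (by positivity)
        exact mul_le_mul_of_nonneg_left hzd' (by positivity)
    _ = 27 * (2 * (M : ℝ) + 1) ^ 3 * (Real.exp (b * G) * Real.exp (a * Lw)) *
        ((M.choose e : ℝ) * ((M - e).choose x : ℝ) * ((κ * b) ^ 2) ^ e *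
          (2 * (γ * b) * (kw * a)) ^ x * ((kw * a) ^ 2) ^ (M - e - x)) := by
        rw [hexp, pow_add, pow_mul (kw * a) 2, pow_mul (κ * b) 2, mul_pow (2 * (γ * b)),
          mul_pow 2 (γ * b)]
        ring
    _ = _ := by rw [← Real.exp_add]

private theorem largeA_trinomial (A B C : ℝ) (M : ℕ) :
    ∑ e ∈ range (M + 1), ∑ x ∈ range (M - e + 1),
      (M.choose e : ℝ) * ((M - e).choose x : ℝ) * A ^ e * B ^ x * C ^ (M - e - x) =
      (A + B + C) ^ M := by
  rw [add_assoc, add_pow]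
  apply Finset.sum_congr rfl
  intro e _
  rw [add_pow, Finset.mul_sum, Finset.sum_mul]
  apply Finset.sum_congr rfl
  intro x _
  ring

private theorem largeA_le {V : Type} [Fintype V] [DecidableEq V] {M : ℕ} (u : Fin M → V × V)
    (B : Finset V) : nin u B + ncr u B ≤ M := by
  unfold nin ncr
  rw [← Finset.card_union_of_disjoint]
  · refine (Finset.card_le_univ _).trans ?_
    rw [Fintype.card_fin]
  · rw [Finset.disjoint_filter]
    intro i _ h1 h2
    exact h2 ⟨fun _ => h1.2, fun _ => h1.1⟩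

open Classical in
theorem split_bound (d : ℕ) {Lw kw G κ γ θ : ℝ} (hP : Par d Lw kw G κ γ θ)
    (V : Type) [Fintype V] [DecidableEq V] (M : ℕ) (B : Finset V) (hB : B.Nonempty)
    (hB' : B.card < Fintype.card V) (I : ℝ) :
    (((TT V (d + 1) M).filter (fun u => (∀ v ∈ B, cr u B v < d) ∧
        ((nin u B + ncr u B : ℕ) : ℝ) ≤ I)).card : ℝ) ≤
      27 * (2 * (M : ℝ) + 1) ^ 3 *
        Real.exp (B.card * G + ((Fintype.card V : ℝ) - B.card) * Lw - I * Real.log θ) *
        (θ * (κ * B.card) ^ 2 + 2 * θ * (γ * B.card) * (kw * ((Fintype.card V : ℝ) - B.card)) +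
          (kw * ((Fintype.card V : ℝ) - B.card)) ^ 2) ^ M := by
  have hκ := hP.κ_pos
  have hγ := hP.γ_pos
  have hkw := hP.kw_pos
  have hθ := hP.θ_pos
  have haR : (0 : ℝ) < (Fintype.card V : ℝ) - B.card := by
    have : (B.card : ℝ) < Fintype.card V := by exact_mod_cast hB'
    linarith
  have hbR : (0 : ℝ) < B.card := by exact_mod_cast Finset.card_pos.mpr hB
  set S := (TT V (d + 1) M).filter (fun u => (∀ v ∈ B, cr u B v < d) ∧
        ((nin u B + ncr u B : ℕ) : ℝ) ≤ I) with hS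
  set a : ℝ := (Fintype.card V : ℝ) - B.card with ha
  set K : ℝ := 27 * (2 * (M : ℝ) + 1) ^ 3 *
        Real.exp (B.card * G + a * Lw - I * Real.log θ) with hK
  have hK0 : 0 < K := by rw [hK]; positivity
  -- the fibres
  have hmap : ∀ u ∈ S, (⟨nin u B, ncr u B⟩ : (_ : ℕ) × ℕ) ∈
      (range (M + 1)).sigma (fun e => range (M - e + 1)) := by
    intro u _
    have h1 := largeA_le u B
    rw [Finset.mem_sigma, Finset.mem_range, Finset.mem_range]
    constructor
    · simp only; omega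
    · simp only; omega
  have hcard := Finset.card_eq_sum_card_fiberwise hmap
  rw [hcard, Finset.sum_sigma]
  push_cast
  -- each fibre
  have hfib : ∀ e ∈ range (M + 1), ∀ x ∈ range (M - e + 1),
      (((S.filter (fun u => (⟨nin u B, ncr u B⟩ : (_ : ℕ) × ℕ) = ⟨e, x⟩)).card : ℕ) : ℝ) ≤
      K * ((M.choose e : ℝ) * ((M - e).choose x : ℝ) * (θ * (κ * B.card) ^ 2) ^ e *
          (2 * θ * (γ * B.card) * (kw * a)) ^ x * ((kw * a) ^ 2) ^ (M - e - x)) := by
    intro e he x hx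
    rw [Finset.mem_range] at he hx
    by_cases hI : ((e + x : ℕ) : ℝ) ≤ I
    · have h1 := largeA_term d hP V M B hB hB' e x (by omega)
      rw [← ha] at h1
      have h2 : (S.filter (fun u => (⟨nin u B, ncr u B⟩ : (_ : ℕ) × ℕ) = ⟨e, x⟩)).card ≤
          ((TT V (d + 1) M).filter
          (fun u => nin u B = e ∧ ncr u B = x ∧ ∀ v ∈ B, cr u B v < d)).card := by
        apply Finset.card_le_card
        intro u hu
        rw [hS, Finset.mem_filter, Finset.mem_filter] at hu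
        rw [Finset.mem_filter]
        obtain ⟨⟨h3, h4, _⟩, h5⟩ := hu
        simp only [Sigma.mk.injEq, heq_eq_eq] at h5
        exact ⟨h3, h5.1, h5.2, h4⟩
      have h2R : (((S.filter (fun u => (⟨nin u B, ncr u B⟩ : (_ : ℕ) × ℕ) = ⟨e, x⟩)).card : ℕ)
          : ℝ) ≤ (((TT V (d + 1) M).filter
          (fun u => nin u B = e ∧ ncr u B = x ∧ ∀ v ∈ B, cr u B v < d)).card : ℝ) := by
        exact_mod_cast h2
      refine (h2R.trans h1).trans ?_
      -- insert the power of theta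
      have hθ1 : 1 ≤ Real.exp (-(I * Real.log θ)) * θ ^ (e + x) := by
        have h6 : θ ^ (e + x) = Real.exp (((e + x : ℕ) : ℝ) * Real.log θ) := by
          rw [Real.exp_nat_mul, Real.exp_log hθ]
        rw [h6, ← Real.exp_add, ← Real.exp_zero]
        apply Real.exp_le_exp.mpr
        have h7 : Real.log θ ≤ 0 := Real.log_nonpos hθ.le hP.θ_le
        nlinarith
      have h8 : K * ((M.choose e : ℝ) * ((M - e).choose x : ℝ) * (θ * (κ * B.card) ^ 2) ^ e *
          (2 * θ * (γ * B.card) * (kw * a)) ^ x * ((kw * a) ^ 2) ^ (M - e - x)) =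
          (27 * (2 * (M : ℝ) + 1) ^ 3 *
          Real.exp (B.card * G + a * Lw) *
          ((M.choose e : ℝ) * ((M - e).choose x : ℝ) * ((κ * B.card) ^ 2) ^ e *
          (2 * (γ * B.card) * (kw * a)) ^ x * ((kw * a) ^ 2) ^ (M - e - x))) *
          (Real.exp (-(I * Real.log θ)) * θ ^ (e + x)) := by
        rw [hK, sub_eq_add_neg, Real.exp_add, mul_pow θ, pow_add]
        rw [show 2 * θ * (γ * (B.card : ℝ)) * (kw * a) =
          θ * (2 * (γ * (B.card : ℝ)) * (kw * a)) by ring, mul_pow θ]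
        ring
      rw [h8]
      exact le_mul_of_one_le_right (by positivity) hθ1
    · have h1 : (S.filter (fun u => (⟨nin u B, ncr u B⟩ : (_ : ℕ) × ℕ) = ⟨e, x⟩)).card = 0 := by
        rw [Finset.card_eq_zero, Finset.filter_eq_empty_iff]
        intro u hu h5
        rw [hS, Finset.mem_filter] at hu
        simp only [Sigma.mk.injEq, heq_eq_eq] at h5
        rw [h5.1, h5.2] at hu
        exact hI hu.2.2
      rw [h1, Nat.cast_zero]
      positivity
  calc _ ≤ ∑ e ∈ range (M + 1), ∑ x ∈ range (M - e + 1),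
      K * ((M.choose e : ℝ) * ((M - e).choose x : ℝ) * (θ * (κ * B.card) ^ 2) ^ e *
          (2 * θ * (γ * B.card) * (kw * a)) ^ x * ((kw * a) ^ 2) ^ (M - e - x)) := by
        apply Finset.sum_le_sum
        intro e he
        apply Finset.sum_le_sum
        intro x hx
        exact hfib e he x hx
    _ = K * ((θ * (κ * B.card) ^ 2) + (2 * θ * (γ * B.card) * (kw * a)) + (kw * a) ^ 2) ^ M := by
        rw [← largeA_trinomial, Finset.mul_sum]
        apply Finset.sum_congr rfl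
        intro e _
        rw [Finset.mul_sum]

end Pool.Agent.Helper50.RG
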