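import Pool.Agent.Helper50.RG.LargeA
import Pool.Agent.Helper50.RG.SplitB
import Pool.Agent.Helper50.RG.WordsL

/-!
# RG-39 : linear sets `B` (the event `E5`)

`AN d lam`: for every `β ∈ (0, 1)` there are valid parameters with `Phi < 0`.
For fixed parameters `Phi` is continuous in `β ∈ (0, 1)`; `[ε, 1 - ε₃]` is compact, so there are finitely many
parameters `P_1, …, P_r` and `c₀ > 0` such that for each `β ∈ [ε, 1 - ε₃]` one of them has
`Phi ≤ -4 c₀`. Let `η > 0` with `η |log θ_j| ≤ c₀` for all `j`. If `E5` fails for a simple `u`, there is `B`,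
`b = |B|`, `β = b/N ∈ [ε, 1 - ε₃]` with `cr u B v < d` for `v ∈ B` and
`nin u B + ncr u B ≤ d b + η N`. The number of these `u ∈ TT` for fixed `B` is bounded by
`split_bound` with `I = d b + η N`. Multiply with `C(N, b) ≤ exp (N (-β log β - (1-β) log (1-β)))`, divide by
`card TT = Wd (d+1) N (2M) ≥ (2M)! fk(lam)^N lam^(-2M) e^(-c₀ N)` (`wd_ge` with `δ = c₀`, `card_TT`),
`(2M)! ≥ (2M/e)^(2M)`: with `M = d N - O(1)` the logarithm is at most
`N (Phi + η |log θ| + c₀) + O(log N) ≤ - c₀ N`; sum over the `2^N`... (no: sum over `b`, at most `N` values).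
-/

set_option autoImplicit false

namespace Pool.Agent.Helper50.RG

open Finset

/-- the exponent -/
noncomputable def Phi (d : ℕ) (lam Lw kw G κ γ θ β : ℝ) : ℝ :=
  -β * Real.log β - (1 - β) * Real.log (1 - β) + β * G + (1 - β) * Lw -
    Real.log (fk (d + 1) lam) - d * β * Real.log θ +
    d * Real.log (lam ^ 2 / (4 * (d : ℝ) ^ 2) *
      ((kw * (1 - β)) ^ 2 + θ * β * (κ ^ 2 * β + 2 * γ * kw * (1 - β)))) + 2 * d

/-- the analytic input -/
def AN (d : ℕ) (lam : ℝ) : Prop :=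
  ∀ β : ℝ, 0 < β → β < 1 → ∃ Lw kw G κ γ θ : ℝ, Par d Lw kw G κ γ θ ∧
    Phi d lam Lw kw G κ γ θ β < 0

/-- elementary bound for binomial coefficients -/
private theorem choose_le_exp (N b : ℕ) (hb : 0 < b) (hbN : b < N) :
    (N.choose b : ℝ) ≤ Real.exp (N * (-((b : ℝ) / N) * Real.log ((b : ℝ) / N) -
      (1 - (b : ℝ) / N) * Real.log (1 - (b : ℝ) / N))) := by
  have hN : (0 : ℝ) < N := by exact_mod_cast (hb.trans hbN)
  have hb' : (0 : ℝ) < b := by exact_mod_cast hb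
  have hbN' : (b : ℝ) < N := by exact_mod_cast hbN
  have hNb : (N : ℝ) * ((b : ℝ) / N) = b := by field_simp
  have hβ0 : 0 < (b : ℝ) / N := div_pos hb' hN
  have hβ1 : (b : ℝ) / N < 1 := (div_lt_one hN).2 hbN'
  generalize (b : ℝ) / N = β at hNb hβ0 hβ1 ⊢
  have hβ2 : 0 < 1 - β := by linarith
  have h1 : (1 : ℝ) = ∑ k ∈ range (N + 1), β ^ k * (1 - β) ^ (N - k) * (N.choose k : ℝ) := by
    have := add_pow β (1 - β) N
    rw [add_sub_cancel, one_pow] at this
    exact this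
  have h2 : β ^ b * (1 - β) ^ (N - b) * (N.choose b : ℝ) ≤ 1 := by
    refine le_of_le_of_eq ?_ h1.symm
    refine Finset.single_le_sum (f := fun k => β ^ k * (1 - β) ^ (N - k) * (N.choose k : ℝ))
      (fun k _ => ?_) (mem_range.2 (by omega : b < N + 1))
    positivity
  have h3 : Real.exp (N * (-β * Real.log β - (1 - β) * Real.log (1 - β))) *
      (β ^ b * (1 - β) ^ (N - b)) = 1 := by
    have e1 : β ^ b = Real.exp (b * Real.log β) := by
      rw [Real.exp_nat_mul, Real.exp_log hβ0]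
    have e2 : (1 - β) ^ (N - b) = Real.exp (((N - b : ℕ) : ℝ) * Real.log (1 - β)) := by
      rw [Real.exp_nat_mul, Real.exp_log hβ2]
    rw [e1, e2, ← Real.exp_add, ← Real.exp_add, Nat.cast_sub hbN.le, ← hNb]
    refine Eq.trans (congrArg Real.exp ?_) Real.exp_zero
    ring
  calc (N.choose b : ℝ) = Real.exp (N * (-β * Real.log β - (1 - β) * Real.log (1 - β))) *
      (β ^ b * (1 - β) ^ (N - b)) * (N.choose b : ℝ) := by rw [h3, one_mul]
    _ = Real.exp (N * (-β * Real.log β - (1 - β) * Real.log (1 - β))) *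
      (β ^ b * (1 - β) ^ (N - b) * (N.choose b : ℝ)) := by ring
    _ ≤ Real.exp (N * (-β * Real.log β - (1 - β) * Real.log (1 - β))) * 1 :=
        mul_le_mul_of_nonneg_left h2 (Real.exp_pos _).le
    _ = _ := mul_one _

private theorem pow_self_le (m : ℕ) : (m : ℝ) ^ m ≤ (m.factorial : ℝ) * Real.exp m := by
  have h := Real.pow_div_factorial_le_exp (x := (m : ℝ)) (Nat.cast_nonneg m) m
  have hf : (0 : ℝ) < (m.factorial : ℝ) := by exact_mod_cast m.factorial_pos
  rw [div_le_iff₀ hf] at h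
  linarith

/-- `(2 d N)^(2 M) ≤ (2 M)! e^(2 d N)` for `M + K = d N`. -/
private theorem pow_le_fact (d N M K : ℕ) (hM : M + K = d * N) :
    (2 * (d : ℝ) * N) ^ (2 * M) ≤ ((2 * M).factorial : ℝ) * Real.exp (2 * (d : ℝ) * N) := by
  rcases Nat.eq_zero_or_pos M with h0 | hpos
  · subst h0
    simp only [mul_zero, pow_zero, Nat.factorial_zero, Nat.cast_one, one_mul]
    exact Real.one_le_exp (by positivity)
  have hMr : (0 : ℝ) < M := by exact_mod_cast hpos
  have hc : (d : ℝ) * N = M + K := by exact_mod_cast hM.symm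
  have h1 : (2 * (d : ℝ) * N) = ((2 * M : ℕ) : ℝ) * (1 + (K : ℝ) / M) := by
    push_cast
    field_simp
    linarith
  have h2 : (1 + (K : ℝ) / M) ^ (2 * M) ≤ Real.exp (2 * K) := by
    have h3 : (1 + (K : ℝ) / M) ≤ Real.exp ((K : ℝ) / M) := by
      have := Real.add_one_le_exp ((K : ℝ) / M)
      linarith
    calc (1 + (K : ℝ) / M) ^ (2 * M) ≤ Real.exp ((K : ℝ) / M) ^ (2 * M) :=
          pow_le_pow_left₀ (by positivity) h3 _
      _ = Real.exp (((2 * M : ℕ) : ℝ) * ((K : ℝ) / M)) := (Real.exp_nat_mul _ _).symm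
      _ = Real.exp (2 * K) := by
          congr 1
          push_cast
          field_simp
  have h4 := pow_self_le (2 * M)
  rw [h1, mul_pow]
  calc ((2 * M : ℕ) : ℝ) ^ (2 * M) * (1 + (K : ℝ) / M) ^ (2 * M)
      ≤ (((2 * M).factorial : ℝ) * Real.exp ((2 * M : ℕ) : ℝ)) * Real.exp (2 * K) :=
        mul_le_mul h4 h2 (by positivity) (by positivity)
    _ = ((2 * M).factorial : ℝ) * Real.exp (((2 * M : ℕ) : ℝ) * (1 + (K : ℝ) / M)) := by
        rw [mul_assoc, ← Real.exp_add]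
        congr 2
        push_cast
        field_simp

/-- the argument of the logarithm in `Phi` -/
private noncomputable def yy (d : ℕ) (lam kw κ γ θ β : ℝ) : ℝ :=
  lam ^ 2 / (4 * (d : ℝ) ^ 2) *
      ((kw * (1 - β)) ^ 2 + θ * β * (κ ^ 2 * β + 2 * γ * kw * (1 - β)))

private theorem yy_pos {d : ℕ} (hd : 2 ≤ d) {lam kw κ γ θ β : ℝ} (hl : 0 < lam) (hkw : 0 < kw)
    (hκ : 0 < κ) (hγ : 0 < γ) (hθ : 0 < θ) (h0 : 0 < β) (h1 : β < 1) :
    0 < yy d lam kw κ γ θ β := by
  have hd' : (0 : ℝ) < d := by exact_mod_cast (by omega : 0 < d)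
  have h2 : 0 < 1 - β := by linarith
  unfold yy
  positivity

open Classical in
private theorem key (d : ℕ) (hd : 2 ≤ d) {lam Lw kw G κ γ θ : ℝ} (hP : Par d Lw kw G κ γ θ)
    (hl : 0 < lam) {c₀ η L : ℝ} (hη0 : 0 ≤ η) (hη : η * |Real.log θ| ≤ c₀)
    (V : Type) [Fintype V] [DecidableEq V] (M K : ℕ) (hM : M + K = d * Fintype.card V)
    (B : Finset V) (hB0 : 0 < B.card) (hB1 : B.card < Fintype.card V)
    (hPhi : Phi d lam Lw kw G κ γ θ ((B.card : ℝ) / Fintype.card V) ≤ -(4 * c₀))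
    (hL : (K : ℝ) * |Real.log (yy d lam kw κ γ θ ((B.card : ℝ) / Fintype.card V))| ≤ L)
    (hbig : 27 * (2 * (M : ℝ) + 1) ^ 3 * Real.exp L ≤ Real.exp (c₀ * Fintype.card V))
    (hW : ((2 * M).factorial : ℝ) * fk (d + 1) lam ^ (Fintype.card V) ≤
      (Wd (d + 1) (Fintype.card V) (2 * M) : ℝ) * lam ^ (2 * M) *
        Real.exp (c₀ * Fintype.card V)) :
    ((Fintype.card V).choose B.card : ℝ) *
      (((TT V (d + 1) M).filter (fun u => (∀ v ∈ B, cr u B v < d) ∧
        ((nin u B + ncr u B : ℕ) : ℝ) ≤ (d : ℝ) * B.card + η * Fintype.card V)).card : ℝ) ≤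
      Real.exp (-c₀ * Fintype.card V) * ((TT V (d + 1) M).card : ℝ) := by
  have hBne : B.Nonempty := Finset.card_pos.1 hB0
  have hS := split_bound d hP V M B hBne hB1 ((d : ℝ) * B.card + η * Fintype.card V)
  have hC := choose_le_exp (Fintype.card V) B.card hB0 hB1
  rw [card_TT]
  generalize (((TT V (d + 1) M).filter (fun u => (∀ v ∈ B, cr u B v < d) ∧
        ((nin u B + ncr u B : ℕ) : ℝ) ≤ (d : ℝ) * B.card + η * Fintype.card V)).card : ℝ) = S
    at hS ⊢
  have hf : 0 < fk (d + 1) lam := fk_pos _ hl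
  generalize hWW : (Wd (d + 1) (Fintype.card V) (2 * M) : ℝ) = W at hW ⊢
  have hpf := pow_le_fact d (Fintype.card V) M K hM
  have hMr : (M : ℝ) + K = d * (Fintype.card V : ℝ) := by exact_mod_cast hM
  have hb : (0 : ℝ) < B.card := by exact_mod_cast hB0
  have hbn : (B.card : ℝ) < Fintype.card V := by exact_mod_cast hB1
  have hn : (0 : ℝ) < Fintype.card V := hb.trans hbn
  have hd' : (0 : ℝ) < d := by exact_mod_cast (by omega : 0 < d)
  have hnβ : (Fintype.card V : ℝ) * ((B.card : ℝ) / Fintype.card V) = B.card := by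
    field_simp
  have hβ0 : 0 < (B.card : ℝ) / Fintype.card V := div_pos hb hn
  have hβ1 : (B.card : ℝ) / Fintype.card V < 1 := (div_lt_one hn).2 hbn
  have hy := yy_pos hd hl hP.kw_pos hP.κ_pos hP.γ_pos hP.θ_pos hβ0 hβ1
  have hfact : (0 : ℝ) < ((2 * M).factorial : ℝ) := by exact_mod_cast (2 * M).factorial_pos
  rw [← Real.exp_log hf, ← Real.exp_nat_mul] at hW
  generalize hNN : (Fintype.card V) = N at *
  generalize hβ : (B.card : ℝ) / (N : ℝ) = β at *
  generalize hbb : (B.card : ℝ) = b at *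
  generalize hyy : yy d lam kw κ γ θ β = y at *
  generalize hFF : ((2 * M).factorial : ℝ) = Fm at *
  have hXeq : (θ * (κ * b) ^ 2 + 2 * θ * (γ * b) * (kw * ((N : ℝ) - b)) +
      (kw * ((N : ℝ) - b)) ^ 2) ^ M * lam ^ (2 * M) = (2 * (d : ℝ) * N) ^ (2 * M) * y ^ M := by
    rw [pow_mul, pow_mul, ← mul_pow, ← mul_pow, ← hnβ, ← hyy]
    congr 1
    unfold yy
    field_simp
    ring
  have hyM : y ^ M = Real.exp ((M : ℝ) * Real.log y) := by
    rw [Real.exp_nat_mul, Real.exp_log hy]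
  have hlamM : 0 < lam ^ (2 * M) := pow_pos hl _
  -- it suffices to multiply with `lam ^ (2 M)`
  refine le_of_mul_le_mul_right ?_ hlamM
  have hT0 : 0 ≤ 27 * (2 * (M : ℝ) + 1) ^ 3 := by positivity
  have hT : 27 * (2 * (M : ℝ) + 1) ^ 3 ≤ Real.exp (c₀ * N - L) := by
    rw [Real.exp_sub, le_div_iff₀ (Real.exp_pos _)]
    exact hbig
  set H : ℝ := (N : ℝ) * (-β * Real.log β - (1 - β) * Real.log (1 - β)) with hH
  set E₁ : ℝ := b * G + ((N : ℝ) - b) * Lw - ((d : ℝ) * b + η * N) * Real.log θ with hE₁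
  have hSnn : S * lam ^ (2 * M) ≤ 27 * (2 * (M : ℝ) + 1) ^ 3 * Real.exp E₁ *
      (Fm * Real.exp (2 * (d : ℝ) * N) * Real.exp ((M : ℝ) * Real.log y)) := by
    calc S * lam ^ (2 * M) ≤ (27 * (2 * (M : ℝ) + 1) ^ 3 * Real.exp E₁ *
        (θ * (κ * b) ^ 2 + 2 * θ * (γ * b) * (kw * ((N : ℝ) - b)) +
          (kw * ((N : ℝ) - b)) ^ 2) ^ M) * lam ^ (2 * M) :=
          mul_le_mul_of_nonneg_right hS hlamM.le
      _ = 27 * (2 * (M : ℝ) + 1) ^ 3 * Real.exp E₁ *
          ((2 * (d : ℝ) * N) ^ (2 * M) * Real.exp ((M : ℝ) * Real.log y)) := by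
          rw [mul_assoc, hXeq, hyM]
      _ ≤ _ := by
          refine mul_le_mul_of_nonneg_left ?_ (by positivity)
          exact mul_le_mul_of_nonneg_right hpf (Real.exp_pos _).le
  have hexp : (c₀ * N - L) + E₁ + 2 * (d : ℝ) * N + (M : ℝ) * Real.log y + H ≤
      (N : ℝ) * Real.log (fk (d + 1) lam) - 2 * c₀ * N := by
    have h1 : -(K : ℝ) * Real.log y ≤ L := by
      have h2 : -(K : ℝ) * Real.log y ≤ (K : ℝ) * |Real.log y| := by
        have := neg_abs_le (Real.log y)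
        have hK : (0 : ℝ) ≤ K := Nat.cast_nonneg K
        nlinarith [neg_abs_le (Real.log y), mul_le_mul_of_nonneg_left this hK]
      linarith
    have h3 : -(η * Real.log θ) ≤ c₀ := by
      have := mul_le_mul_of_nonneg_left (neg_abs_le (Real.log θ)) hη0
      linarith
    have hM' : (M : ℝ) = d * N - K := by linarith
    have h4 := mul_le_mul_of_nonneg_left hPhi hn.le
    have h5 := mul_le_mul_of_nonneg_left h3 hn.le
    unfold Phi at h4
    have hy' : lam ^ 2 / (4 * (d : ℝ) ^ 2) *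
      ((kw * (1 - β)) ^ 2 + θ * β * (κ ^ 2 * β + 2 * γ * kw * (1 - β))) = y := hyy
    rw [hy'] at h4
    rw [hH, hE₁, hM', ← hnβ]
    nlinarith [h1, h4, h5]
  have hC' : (N.choose B.card : ℝ) ≤ Real.exp H := hC
  have hW2 : Real.exp ((N : ℝ) * Real.log (fk (d + 1) lam) - 2 * c₀ * N) * Fm ≤
      Real.exp (-c₀ * N) * W * lam ^ (2 * M) := by
    have e1 : Real.exp ((N : ℝ) * Real.log (fk (d + 1) lam) - 2 * c₀ * N) * Fm =
        Real.exp (-(2 * c₀ * N)) * (Fm * Real.exp ((N : ℝ) * Real.log (fk (d + 1) lam))) := by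
      rw [sub_eq_add_neg, Real.exp_add]; ring
    rw [e1]
    calc Real.exp (-(2 * c₀ * N)) * (Fm * Real.exp ((N : ℝ) * Real.log (fk (d + 1) lam)))
        ≤ Real.exp (-(2 * c₀ * N)) * (W * lam ^ (2 * M) * Real.exp (c₀ * N)) :=
          mul_le_mul_of_nonneg_left hW (Real.exp_pos _).le
      _ = (Real.exp (-(2 * c₀ * N)) * Real.exp (c₀ * N)) * W * lam ^ (2 * M) := by ring
      _ = _ := by
          rw [← Real.exp_add]
          congr 3
          ring
  have hSl0 : (0 : ℝ) ≤ 27 * (2 * (M : ℝ) + 1) ^ 3 * Real.exp E₁ *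
      (Fm * Real.exp (2 * (d : ℝ) * N) * Real.exp ((M : ℝ) * Real.log y)) := by positivity
  calc (N.choose B.card : ℝ) * S * lam ^ (2 * M)
      = (N.choose B.card : ℝ) * (S * lam ^ (2 * M)) := by ring
    _ ≤ (N.choose B.card : ℝ) * (27 * (2 * (M : ℝ) + 1) ^ 3 * Real.exp E₁ *
      (Fm * Real.exp (2 * (d : ℝ) * N) * Real.exp ((M : ℝ) * Real.log y))) :=
        mul_le_mul_of_nonneg_left hSnn (Nat.cast_nonneg _)
    _ ≤ Real.exp H * (27 * (2 * (M : ℝ) + 1) ^ 3 * Real.exp E₁ *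
      (Fm * Real.exp (2 * (d : ℝ) * N) * Real.exp ((M : ℝ) * Real.log y))) :=
        mul_le_mul_of_nonneg_right hC' hSl0
    _ ≤ Real.exp H * (Real.exp (c₀ * N - L) * Real.exp E₁ *
      (Fm * Real.exp (2 * (d : ℝ) * N) * Real.exp ((M : ℝ) * Real.log y))) := by
        refine mul_le_mul_of_nonneg_left ?_ (Real.exp_pos _).le
        refine mul_le_mul_of_nonneg_right ?_ (by positivity)
        exact mul_le_mul_of_nonneg_right hT (Real.exp_pos _).le
    _ = Real.exp ((c₀ * N - L) + E₁ + 2 * (d : ℝ) * N + (M : ℝ) * Real.log y + H) * Fm := by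
        simp only [Real.exp_add]; ring
    _ ≤ Real.exp ((N : ℝ) * Real.log (fk (d + 1) lam) - 2 * c₀ * N) * Fm :=
        mul_le_mul_of_nonneg_right (Real.exp_le_exp.2 hexp) hfact.le
    _ ≤ _ := hW2

open Classical in
/-- the statement for the sets `B` whose density belongs to `S` -/
private def Loc (d : ℕ) (S : Set ℝ) : Prop :=
  ∃ η > 0, ∃ c > 0, ∃ N₀ : ℕ, ∀ (V : Type) [Fintype V] [DecidableEq V],
    N₀ ≤ Fintype.card V → ∀ M s' : ℕ, s' ≤ 1 → M + KK d + s' = d * Fintype.card V →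
    ∀ B : Finset V, (B.card : ℝ) / Fintype.card V ∈ S → 0 < B.card → B.card < Fintype.card V →
    ((Fintype.card V).choose B.card : ℝ) *
      (((TT V (d + 1) M).filter (fun u => (∀ v ∈ B, cr u B v < d) ∧
        ((nin u B + ncr u B : ℕ) : ℝ) ≤ (d : ℝ) * B.card + η * Fintype.card V)).card : ℝ) ≤
      Real.exp (-c * Fintype.card V) * ((TT V (d + 1) M).card : ℝ)

private theorem loc_mono (d : ℕ) {S T : Set ℝ} (h : S ⊆ T) (hT : Loc d T) : Loc d S := by
  obtain ⟨η, hη, c, hc, N₀, H⟩ := hT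
  exact ⟨η, hη, c, hc, N₀, fun V _ _ hN M s' hs hM B hB => H V hN M s' hs hM B (h hB)⟩

private theorem loc_empty (d : ℕ) : Loc d ∅ :=
  ⟨1, one_pos, 1, one_pos, 0, fun _ _ _ _ _ _ _ _ _ hB => absurd hB (Set.notMem_empty _)⟩

open Classical in
private theorem loc_union (d : ℕ) {S T : Set ℝ} (hS : Loc d S) (hT : Loc d T) :
    Loc d (S ∪ T) := by
  obtain ⟨η₁, hη₁, c₁, hc₁, N₁, H₁⟩ := hS
  obtain ⟨η₂, hη₂, c₂, hc₂, N₂, H₂⟩ := hT
  refine ⟨min η₁ η₂, lt_min hη₁ hη₂, min c₁ c₂, lt_min hc₁ hc₂, max N₁ N₂, ?_⟩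
  intro V _ _ hN M s' hs hM B hB hB0 hB1
  have key : ∀ η' c' : ℝ, min η₁ η₂ ≤ η' → min c₁ c₂ ≤ c' →
      ((Fintype.card V).choose B.card : ℝ) *
      (((TT V (d + 1) M).filter (fun u => (∀ v ∈ B, cr u B v < d) ∧
        ((nin u B + ncr u B : ℕ) : ℝ) ≤ (d : ℝ) * B.card + η' * Fintype.card V)).card : ℝ) ≤
      Real.exp (-c' * Fintype.card V) * ((TT V (d + 1) M).card : ℝ) →
      ((Fintype.card V).choose B.card : ℝ) *
      (((TT V (d + 1) M).filter (fun u => (∀ v ∈ B, cr u B v < d) ∧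
        ((nin u B + ncr u B : ℕ) : ℝ) ≤ (d : ℝ) * B.card +
          min η₁ η₂ * Fintype.card V)).card : ℝ) ≤
      Real.exp (-min c₁ c₂ * Fintype.card V) * ((TT V (d + 1) M).card : ℝ) := by
    intro η' c' h1 h2 h
    have hn : (0 : ℝ) ≤ Fintype.card V := Nat.cast_nonneg _
    refine le_trans ?_ (h.trans ?_)
    · refine mul_le_mul_of_nonneg_left ?_ (Nat.cast_nonneg _)
      have : ((TT V (d + 1) M).filter (fun u => (∀ v ∈ B, cr u B v < d) ∧
        ((nin u B + ncr u B : ℕ) : ℝ) ≤ (d : ℝ) * B.card +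
          min η₁ η₂ * Fintype.card V)).card ≤
          ((TT V (d + 1) M).filter (fun u => (∀ v ∈ B, cr u B v < d) ∧
        ((nin u B + ncr u B : ℕ) : ℝ) ≤ (d : ℝ) * B.card + η' * Fintype.card V)).card := by
        refine Finset.card_le_card (Finset.monotone_filter_right _ ?_)
        intro u _ hu
        refine ⟨hu.1, hu.2.trans ?_⟩
        have := mul_le_mul_of_nonneg_right h1 hn
        linarith
      exact_mod_cast this
    · refine mul_le_mul_of_nonneg_right (Real.exp_le_exp.2 ?_) (Nat.cast_nonneg _)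
      have := mul_le_mul_of_nonneg_right h2 hn
      linarith
  rcases hB with hB | hB
  · exact key η₁ c₁ (min_le_left _ _) (min_le_left _ _)
      (H₁ V ((le_max_left _ _).trans hN) M s' hs hM B hB hB0 hB1)
  · exact key η₂ c₂ (min_le_right _ _) (min_le_right _ _)
      (H₂ V ((le_max_right _ _).trans hN) M s' hs hM B hB hB0 hB1)

private theorem exp_big (A c : ℝ) (hc : 0 < c) :
    ∃ N₀ : ℕ, ∀ n : ℕ, N₀ ≤ n → 0 < n → A * (n : ℝ) ^ 3 ≤ Real.exp (c * n) := by
  obtain ⟨N₀, hN₀⟩ := exists_nat_ge (24 * A / c ^ 4)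
  refine ⟨N₀, fun n hn hn0 => ?_⟩
  have hnr : (0 : ℝ) < n := by exact_mod_cast hn0
  have h1 : 24 * A / c ^ 4 ≤ n := hN₀.trans (by exact_mod_cast hn)
  rw [div_le_iff₀ (by positivity)] at h1
  have h2 := Real.pow_div_factorial_le_exp (x := c * n) (by positivity) 4
  have h3 : ((Nat.factorial 4 : ℕ) : ℝ) = 24 := by norm_num [Nat.factorial]
  rw [h3] at h2
  refine le_trans ?_ h2
  rw [le_div_iff₀ (by norm_num)]
  have h4 := mul_le_mul_of_nonneg_right h1 (pow_pos hnr 3).le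
  calc A * (n : ℝ) ^ 3 * 24 = 24 * A * (n : ℝ) ^ 3 := by ring
    _ ≤ n * c ^ 4 * (n : ℝ) ^ 3 := h4
    _ = (c * n) ^ 4 := by ring

private theorem loc_nhds (d : ℕ) (hd : 2 ≤ d) (lam : ℝ) (hl : IsLam d lam) (hAN : AN d lam)
    {β₀ : ℝ} (h0 : 0 < β₀) (h1 : β₀ < 1) : ∃ t ∈ nhds β₀, Loc d t := by
  obtain ⟨Lw, kw, G, κ, γ, θ, hP, hneg⟩ := hAN β₀ h0 h1
  have hlam := hl.1
  have hy0 := yy_pos hd hlam hP.kw_pos hP.κ_pos hP.γ_pos hP.θ_pos h0 h1
  have hcy : Continuous (fun β => yy d lam kw κ γ θ β) := by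
    unfold yy
    fun_prop
  have hcly : ContinuousAt (fun β => Real.log (yy d lam kw κ γ θ β)) β₀ :=
    hcy.continuousAt.log hy0.ne'
  have hcPhi : ContinuousAt (fun β => Phi d lam Lw kw G κ γ θ β) β₀ := by
    have e : (fun β => Phi d lam Lw kw G κ γ θ β) = fun β =>
        -β * Real.log β - (1 - β) * Real.log (1 - β) + β * G + (1 - β) * Lw -
        Real.log (fk (d + 1) lam) - d * β * Real.log θ +
        d * Real.log (yy d lam kw κ γ θ β) + 2 * d := rfl
    rw [e]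
    have hlog1 : ContinuousAt (fun β : ℝ => Real.log β) β₀ :=
      Real.continuousAt_log h0.ne'
    have hlog2 : ContinuousAt (fun β : ℝ => Real.log (1 - β)) β₀ :=
      (continuousAt_const.sub continuousAt_id).log (by
        have : (1 : ℝ) - β₀ ≠ 0 := by linarith
        exact this)
    have hid : ContinuousAt (fun β : ℝ => β) β₀ := continuousAt_id
    have h1m : ContinuousAt (fun β : ℝ => 1 - β) β₀ := continuousAt_const.sub hid
    exact ((((((hid.neg.mul hlog1).sub (h1m.mul hlog2)).add (hid.mul continuousAt_const)).add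
      (h1m.mul continuousAt_const)).sub continuousAt_const).sub
      ((continuousAt_const.mul hid).mul continuousAt_const)).add
      (continuousAt_const.mul hcly) |>.add continuousAt_const
  set c₀ : ℝ := -Phi d lam Lw kw G κ γ θ β₀ / 8 with hc₀
  have hc₀pos : 0 < c₀ := by rw [hc₀]; linarith
  set L₀ : ℝ := |Real.log (yy d lam kw κ γ θ β₀)| + 1 with hL₀
  have hL₀pos : 0 ≤ L₀ := by rw [hL₀]; positivity
  have ev1 : ∀ᶠ β in nhds β₀, Phi d lam Lw kw G κ γ θ β < -(4 * c₀) := by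
    refine hcPhi.eventually_lt_const ?_
    rw [hc₀]; linarith
  have ev2 : ∀ᶠ β in nhds β₀, |Real.log (yy d lam kw κ γ θ β)| < L₀ := by
    refine hcly.abs.eventually_lt_const ?_
    rw [hL₀]; linarith
  set η : ℝ := c₀ / (|Real.log θ| + 1) with hη
  have hηpos : 0 < η := div_pos hc₀pos (by positivity)
  have hηle : η * |Real.log θ| ≤ c₀ := by
    rw [hη, div_mul_eq_mul_div, div_le_iff₀ (by positivity)]
    nlinarith [abs_nonneg (Real.log θ)]
  obtain ⟨δ₀, hδ₀, N₁, hN₁⟩ := wd_ge d hd lam hl c₀ hc₀pos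
  obtain ⟨N₂, hN₂⟩ := exp_big (27 * (3 * (d : ℝ)) ^ 3 * Real.exp (((KK d : ℝ) + 1) * L₀)) c₀ hc₀pos
  obtain ⟨N₃, hN₃⟩ := exists_nat_ge (2 * ((KK d : ℝ) + 1) / δ₀)
  refine ⟨{β | Phi d lam Lw kw G κ γ θ β < -(4 * c₀) ∧ |Real.log (yy d lam kw κ γ θ β)| < L₀},
    ev1.and ev2, η, hηpos, c₀, hc₀pos, max N₁ (max N₂ N₃), ?_⟩
  intro V _ _ hN M s' hs hM B hB hB0 hB1
  have hNN1 : N₁ ≤ Fintype.card V := (le_max_left _ _).trans hN
  have hNN2 : N₂ ≤ Fintype.card V := ((le_max_left _ _).trans (le_max_right _ _)).trans hN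
  have hNN3 : N₃ ≤ Fintype.card V := ((le_max_right _ _).trans (le_max_right _ _)).trans hN
  have hNpos : 0 < Fintype.card V := hB0.trans hB1
  have hnr : (1 : ℝ) ≤ Fintype.card V := by exact_mod_cast hNpos
  have hM1 : M + (KK d + s') = d * Fintype.card V := by omega
  have hMr : (M : ℝ) + ((KK d : ℝ) + s') = d * (Fintype.card V : ℝ) := by exact_mod_cast hM1
  have hsr : (s' : ℝ) ≤ 1 := by exact_mod_cast hs
  have hs0 : (0 : ℝ) ≤ s' := Nat.cast_nonneg _
  have hKK0 : (0 : ℝ) ≤ KK d := Nat.cast_nonneg _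
  have hdr : (2 : ℝ) ≤ d := by exact_mod_cast hd
  refine key d hd hP hlam hηpos.le hηle V M (KK d + s') hM1 B hB0 hB1 hB.1.le
    (L := ((KK d : ℝ) + 1) * L₀) ?_ ?_ ?_
  · push_cast
    exact mul_le_mul (by linarith) hB.2.le (abs_nonneg _) (by positivity)
  · refine le_trans ?_ (hN₂ _ hNN2 hNpos)
    have hMle : 2 * (M : ℝ) + 1 ≤ 3 * (d : ℝ) * Fintype.card V := by nlinarith
    have h3 : (2 * (M : ℝ) + 1) ^ 3 ≤ (3 * (d : ℝ) * Fintype.card V) ^ 3 :=
      pow_le_pow_left₀ (by positivity) hMle 3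
    calc 27 * (2 * (M : ℝ) + 1) ^ 3 * Real.exp (((KK d : ℝ) + 1) * L₀)
        ≤ 27 * (3 * (d : ℝ) * Fintype.card V) ^ 3 * Real.exp (((KK d : ℝ) + 1) * L₀) := by
          refine mul_le_mul_of_nonneg_right ?_ (Real.exp_pos _).le
          linarith
      _ = _ := by ring
  · refine hN₁ _ hNN1 (2 * M) ?_
    have e : ((2 * M : ℕ) : ℝ) - 2 * d * (Fintype.card V : ℝ) = -(2 * ((KK d : ℝ) + s')) := by
      push_cast
      linarith
    rw [e, abs_neg, abs_of_nonneg (by positivity)]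
    have h4 : 2 * ((KK d : ℝ) + 1) / δ₀ ≤ Fintype.card V := hN₃.trans (by exact_mod_cast hNN3)
    rw [div_le_iff₀ hδ₀] at h4
    linarith

open Classical in
theorem e5_count (d : ℕ) (hd : 2 ≤ d) (lam : ℝ) (hl : IsLam d lam) (hAN : AN d lam)
    (ε ε₃ : ℝ) (hε : 0 < ε) (hε₃ : 0 < ε₃) :
    ∃ η > 0, ∃ c > 0, ∃ N₀ : ℕ, ∀ (V : Type) [Fintype V] [DecidableEq V],
    N₀ ≤ Fintype.card V → ∀ M s' : ℕ, s' ≤ 1 → M + KK d + s' = d * Fintype.card V →
      (((TT V (d + 1) M).filter (fun u => Simp u ∧ ¬ E5 d ε ε₃ η (edges u) univ)).card : ℝ) ≤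
      Real.exp (-c * Fintype.card V) * ((TT V (d + 1) M).card : ℝ) := by
  have hloc : Loc d (Set.Icc ε (1 - ε₃)) := by
    refine isCompact_Icc.induction_on (loc_empty d) (fun S T h hT => loc_mono d h hT)
      (fun S T hS hT => loc_union d hS hT) ?_
    intro x hx
    obtain ⟨t, ht, hL⟩ := loc_nhds d hd lam hl hAN (β₀ := x) (hε.trans_le hx.1)
      (by linarith [hx.2])
    exact ⟨t, mem_nhdsWithin_of_mem_nhds ht, hL⟩
  obtain ⟨η, hη, c, hc, N₁, H⟩ := hloc
  obtain ⟨N₂, hN₂⟩ := exp_big 2 (c / 2) (by positivity)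
  refine ⟨η, hη, c / 2, by positivity, max N₁ (max N₂ 1), ?_⟩
  intro V _ _ hN M s' hs hM
  have hNN1 : N₁ ≤ Fintype.card V := (le_max_left _ _).trans hN
  have hNN2 : N₂ ≤ Fintype.card V := ((le_max_left _ _).trans (le_max_right _ _)).trans hN
  have hNpos : 0 < Fintype.card V := ((le_max_right _ _).trans (le_max_right _ _)).trans hN
  have hnr : (1 : ℝ) ≤ Fintype.card V := by exact_mod_cast hNpos
  have hnr0 : (0 : ℝ) < Fintype.card V := by linarith
  -- the good sets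
  set 𝓑 : Finset (Finset V) := univ.filter (fun B : Finset V =>
    ε * Fintype.card V ≤ B.card ∧ (B.card : ℝ) ≤ (1 - ε₃) * Fintype.card V) with h𝓑
  set F : Finset V → Finset (Fin M → V × V) := fun B =>
    (TT V (d + 1) M).filter (fun u => (∀ v ∈ B, cr u B v < d) ∧
        ((nin u B + ncr u B : ℕ) : ℝ) ≤ (d : ℝ) * B.card + η * Fintype.card V) with hF
  have hsub : (TT V (d + 1) M).filter (fun u => Simp u ∧ ¬ E5 d ε ε₃ η (edges u) univ) ⊆
      𝓑.biUnion F := by
    intro u hu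
    rw [Finset.mem_filter] at hu
    obtain ⟨huT, hus, hnot⟩ := hu
    unfold E5 at hnot
    push Not at hnot
    obtain ⟨B, hB1, hB2, hB3, hB4⟩ := hnot
    rw [card_incd_edges hus] at hB4
    rw [Finset.card_univ] at hB2 hB3 hB4
    rw [Finset.mem_biUnion]
    refine ⟨B, ?_, ?_⟩
    · rw [h𝓑, Finset.mem_filter]
      exact ⟨mem_univ _, hB2, hB3⟩
    · simp only [hF, Finset.mem_filter]
      refine ⟨huT, fun v hv => ?_, hB4.le⟩
      have := hB1.2 v hv
      rwa [nb_compl_eq hus B hv] at this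
  have hpos : ∀ B ∈ 𝓑, 0 < B.card ∧ B.card < Fintype.card V := by
    intro B hB
    rw [h𝓑, Finset.mem_filter] at hB
    constructor
    · have : (0 : ℝ) < B.card := lt_of_lt_of_le (by positivity) hB.2.1
      exact_mod_cast this
    · have : (B.card : ℝ) < Fintype.card V := by
        have := mul_pos hε₃ hnr0
        linarith [hB.2.2]
      exact_mod_cast this
  have hbd : ∀ B ∈ 𝓑, ((F B).card : ℝ) ≤ Real.exp (-c * Fintype.card V) *
      ((TT V (d + 1) M).card : ℝ) / ((Fintype.card V).choose B.card : ℝ) := by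
    intro B hB
    obtain ⟨h0, h1⟩ := hpos B hB
    have hch : (0 : ℝ) < ((Fintype.card V).choose B.card : ℝ) := by
      exact_mod_cast Nat.choose_pos h1.le
    rw [le_div_iff₀ hch, mul_comm]
    refine H V hNN1 M s' hs hM B ?_ h0 h1
    rw [h𝓑, Finset.mem_filter] at hB
    exact ⟨(le_div_iff₀ hnr0).2 hB.2.1, (div_le_iff₀ hnr0).2 hB.2.2⟩
  have hsum : ∑ B ∈ 𝓑, (1 : ℝ) / ((Fintype.card V).choose B.card : ℝ) ≤ Fintype.card V + 1 := by
    calc ∑ B ∈ 𝓑, (1 : ℝ) / ((Fintype.card V).choose B.card : ℝ)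
        ≤ ∑ B : Finset V, (1 : ℝ) / ((Fintype.card V).choose B.card : ℝ) :=
          Finset.sum_le_univ_sum_of_nonneg (fun B => by positivity)
      _ = ∑ B ∈ (univ : Finset V).powerset, (1 : ℝ) / ((Fintype.card V).choose B.card : ℝ) := by
          rw [Finset.powerset_univ]
      _ = ∑ m ∈ range ((univ : Finset V).card + 1), ((univ : Finset V).card.choose m) •
            ((1 : ℝ) / ((Fintype.card V).choose m : ℝ)) :=
          Finset.sum_powerset_apply_card (fun m => (1 : ℝ) / ((Fintype.card V).choose m : ℝ))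
      _ = ∑ m ∈ range (Fintype.card V + 1), (1 : ℝ) := by
          rw [Finset.card_univ]
          refine Finset.sum_congr rfl fun m hm => ?_
          have hm' : m ≤ Fintype.card V := by
            have := Finset.mem_range.1 hm
            omega
          have hch : (0 : ℝ) < ((Fintype.card V).choose m : ℝ) := by
            exact_mod_cast Nat.choose_pos hm'
          rw [nsmul_eq_mul, mul_one_div_cancel hch.ne']
      _ = Fintype.card V + 1 := by simp
  have hTT0 : (0 : ℝ) ≤ ((TT V (d + 1) M).card : ℝ) := Nat.cast_nonneg _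
  calc (((TT V (d + 1) M).filter
        (fun u => Simp u ∧ ¬ E5 d ε ε₃ η (edges u) univ)).card : ℝ)
      ≤ ((𝓑.biUnion F).card : ℝ) := by exact_mod_cast Finset.card_le_card hsub
    _ ≤ ∑ B ∈ 𝓑, ((F B).card : ℝ) := by exact_mod_cast Finset.card_biUnion_le
    _ ≤ ∑ B ∈ 𝓑, Real.exp (-c * Fintype.card V) *
      ((TT V (d + 1) M).card : ℝ) / ((Fintype.card V).choose B.card : ℝ) :=
        Finset.sum_le_sum hbd
    _ = Real.exp (-c * Fintype.card V) * ((TT V (d + 1) M).card : ℝ) *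
        ∑ B ∈ 𝓑, (1 : ℝ) / ((Fintype.card V).choose B.card : ℝ) := by
        rw [Finset.mul_sum]
        refine Finset.sum_congr rfl fun B _ => ?_
        rw [mul_one_div]
    _ ≤ Real.exp (-c * Fintype.card V) * ((TT V (d + 1) M).card : ℝ) *
        Real.exp (c / 2 * Fintype.card V) := by
        refine mul_le_mul_of_nonneg_left ?_ (by positivity)
        refine hsum.trans ?_
        refine le_trans ?_ (hN₂ _ hNN2 hNpos)
        have : (Fintype.card V : ℝ) ≤ (Fintype.card V : ℝ) ^ 3 :=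
          le_self_pow₀ hnr (by norm_num)
        have h1 : (1 : ℝ) ≤ (Fintype.card V : ℝ) ^ 3 := one_le_pow₀ hnr
        linarith
    _ = _ := by
        rw [mul_right_comm, ← Real.exp_add]
        congr 2
        ring

end Pool.Agent.Helper50.RG
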