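import Pool.Agent.Helper50.RG.SmallS
import Pool.Agent.Helper50.RG.LargeB
import Pool.Agent.Helper50.RG.FqF

/-!
# RG-46 : the structural events hold for the core of the process

`core_model`: `e4_count`, `e5_count`, `e6_count` (`c₃ = 2`); `exp (-c N) ≤ N^(-1-δ)` for large `N`.

-/

set_option autoImplicit false

namespace Pool.Agent.Helper50.RG

open Finset

private theorem core_model_exp (c δ : ℝ) (hc : 0 < c) :
    ∃ N₀ : ℕ, 1 ≤ N₀ ∧ ∀ N : ℕ, N₀ ≤ N → Real.exp (-c * N) ≤ (N : ℝ) ^ (-1 - δ) := by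
  have h1 := tendsto_rpow_mul_exp_neg_mul_atTop_nhds_zero (1 + δ) c hc
  have h2 := (h1.comp tendsto_natCast_atTop_atTop).eventually (ge_mem_nhds (zero_lt_one' ℝ))
  obtain ⟨N₁, hN₁⟩ := Filter.eventually_atTop.1 h2
  refine ⟨max N₁ 1, le_max_right _ _, fun N hN => ?_⟩
  have h3 := hN₁ N ((le_max_left _ _).trans hN)
  have hN1 : 1 ≤ N := (le_max_right _ _).trans hN
  have hNpos : (0 : ℝ) < N := by exact_mod_cast hN1
  simp only [Function.comp_apply] at h3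
  have h4 : (N : ℝ) ^ (-1 - δ) = ((N : ℝ) ^ (1 + δ))⁻¹ := by
    rw [← Real.rpow_neg hNpos.le]
    congr 1
    ring
  rw [h4, ← one_div, le_div_iff₀ (Real.rpow_pos_of_pos hNpos _), mul_comm]
  exact h3

private theorem core_model_union {α : Type} [DecidableEq α] (A4 A5 A6 A : Finset α)
    (h : ∀ u ∈ A, u ∈ A4 ∨ u ∈ A5 ∨ u ∈ A6) :
    (A.card : ℝ) ≤ (A4.card : ℝ) + (A5.card : ℝ) + (A6.card : ℝ) := by
  have h1 : A ⊆ A4 ∪ A5 ∪ A6 := by
    intro u hu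
    rw [mem_union, mem_union]
    rcases h u hu with h | h | h
    · exact Or.inl (Or.inl h)
    · exact Or.inl (Or.inr h)
    · exact Or.inr h
  have h2 := card_le_card h1
  have h3 := card_union_le (A4 ∪ A5) A6
  have h4 := card_union_le A4 A5
  have h5 : A.card ≤ A4.card + A5.card + A6.card := by omega
  exact_mod_cast h5

open Classical in
theorem core_model (d : ℕ) (hd : 2 ≤ d) (lam : ℝ) (hl : IsLam d lam) (hAN : AN d lam)
    (c₁ ε' : ℝ) (hc₁ : 0 < c₁) (hε' : 0 < ε') :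
    ∃ C₂ ε δ : ℝ, 0 < C₂ ∧ 0 < ε ∧ 0 < δ ∧ ∀ ε₃ : ℝ, 0 < ε₃ → ε₃ ≤ ε' → ∃ η > 0, ∃ N₀ : ℕ,
    ∀ (V : Type) [Fintype V] [DecidableEq V],
    N₀ ≤ Fintype.card V → ∀ M s' : ℕ, s' ≤ 1 → M + KK d + s' = d * Fintype.card V →
      (((TT V (d + 1) M).filter (fun u => Simp u ∧ E1 c₁ (Fintype.card V) (edges u) ∧
        E2 ε' (Fintype.card V) (edges u) ∧ E3 2 (Fintype.card V) (edges u) ∧
        ¬ (E4 d C₂ ε (edges u) univ ∧ E5 d ε ε₃ η (edges u) univ ∧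
          E6 d ε₃ (edges u) univ))).card : ℝ) ≤
      3 * (Fintype.card V : ℝ) ^ (-1 - δ) * ((TT V (d + 1) M).card : ℝ) := by
  obtain ⟨C₂, hC₂, ε, hε, hε1, δ, hδ, N₁, H4⟩ := e4_count d hd c₁ ε' hc₁ hε'
  refine ⟨C₂, ε, δ, hC₂, hε, hδ, fun ε₃ hε₃ h3' => ?_⟩
  obtain ⟨η, hη, c, hc, N₂, H5⟩ := e5_count d hd lam hl hAN ε ε₃ hε hε₃
  obtain ⟨N₃, H6⟩ := e6_count d hd ε ε₃ η C₂ ε' 2 hε hε₃ h3' hη hC₂ two_pos
  obtain ⟨N₄, -, H7⟩ := core_model_exp c δ hc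
  obtain ⟨N₅, -, H8⟩ := core_model_exp 1 δ one_pos
  refine ⟨η, hη, N₁ + N₂ + N₃ + N₄ + N₅, ?_⟩
  intro V _ _ hV M s' hs' hM
  have h4 := H4 V (by omega) M s' hs' hM
  have h5 := H5 V (by omega) M s' hs' hM
  have h6 := H6 V (by omega) M s' hs' hM
  have h7 := H7 (Fintype.card V) (by omega)
  have h8 := H8 (Fintype.card V) (by omega)
  rw [neg_one_mul] at h8
  have hc0 : (0 : ℝ) ≤ ((TT V (d + 1) M).card : ℝ) := by positivity
  have h5' := h5.trans (mul_le_mul_of_nonneg_right h7 hc0)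
  have h6' := h6.trans (mul_le_mul_of_nonneg_right h8 hc0)
  refine (core_model_union _ _ _ _ ?_).trans
    ((add_le_add (add_le_add h4 h5') h6').trans (le_of_eq (by ring)))
  intro u hu
  rw [mem_filter] at hu
  obtain ⟨hT, hS, hE1, hE2, hE3, hno⟩ := hu
  rw [mem_filter, mem_filter, mem_filter]
  by_cases hE4 : E4 d C₂ ε (edges u) univ
  · by_cases hE5 : E5 d ε ε₃ η (edges u) univ
    · right; right
      exact ⟨hT, hS, hE2, hE3, hE4, hE5, fun hE6 => hno ⟨hE4, hE5, hE6⟩⟩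
    · right; left
      exact ⟨hT, hS, hE5⟩
  · left
    exact ⟨hT, hS, hE1, hE2, hE4⟩

end Pool.Agent.Helper50.RG
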