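import Pool.Agent.Helper50.RG.Base

/-!
# RG-3 : minors of the rigidity matrix; generic placements

`exists_minor`: choose a maximal set of linearly independent rows of `E` at `p`, a square submatrix
of full size `r = rkAt p E` with non-zero determinant; the determinant is the value at `p` of an
integer polynomial, and where this polynomial does not vanish the rank is at least `r`.
`rkAt_le_rk`: `rkAt p E ≤ d * card V` bounds the supremum.
`exists_generic`: `F` infinite; take the product of the minors of all `E` (finitely many), of the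
polynomials which express that the points of `A` are affinely independent (for each `A` with at
most `d + 1` elements: a maximal minor of the matrix with rows `(p x, 1)`, `x ∈ A`, non-zero since
`F^d` has `d + 1` affinely independent points), and of `P`; a non-zero polynomial over an infinite
domain has a non-zero value.
`rkAt_le_real`: the minor is a non-zero integer polynomial (it has a non-zero value in a field), so
it is non-zero in `ℝ[X]`.
-/

set_option autoImplicit false

namespace Pool.Agent.Helper50.RG

open Finset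

variable {V : Type} [Fintype V] [DecidableEq V] {d : ℕ}

/-- extract a linearly independent subfamily indexed by `Fin r` -/
private theorem rkB_sub {F : Type} [Field F] {M : Type} [AddCommGroup M] [Module F M]
    {ι : Type} [Finite ι] (v : ι → M) {r : ℕ}
    (hr : Module.finrank F (Submodule.span F (Set.range v)) = r) :
    ∃ a : Fin r → ι, LinearIndependent F (v ∘ a) := by
  obtain ⟨κ, a, ha, hs, hl⟩ := exists_linearIndependent' F v
  have : Finite κ := Finite.of_injective a ha
  have : Fintype κ := Fintype.ofFinite κ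
  have hcard : r = Fintype.card κ := by
    rw [← hr, ← hs]
    exact finrank_span_eq_card hl
  subst hcard
  refine ⟨a ∘ (Fintype.equivFin κ).symm, ?_⟩
  exact hl.comp _ (Fintype.equivFin κ).symm.injective

/-- a linearly independent family in a finite coordinate space has a non-zero maximal minor -/
private theorem rkB_cols {F : Type} [Field F] {ι : Type} [Fintype ι] {r : ℕ}
    (N : Matrix (Fin r) ι F) (h : LinearIndependent F N.row) :
    ∃ c : Fin r → ι, (N.submatrix id c).det ≠ 0 := by
  have h1 : N.rank = r := by rw [h.rank_matrix, Fintype.card_fin]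
  have h2 : Module.finrank F (Submodule.span F (Set.range N.col)) = r := by
    rw [← Matrix.rank_eq_finrank_span_cols, h1]
  obtain ⟨c, hc⟩ := rkB_sub (F := F) N.col h2
  refine ⟨c, ?_⟩
  have h3 : LinearIndependent F (N.submatrix id c).col := hc
  rw [Matrix.linearIndependent_cols_iff_isUnit, Matrix.isUnit_iff_isUnit_det] at h3
  exact h3.ne_zero

/-- the polynomial row of the rigidity matrix -/
private noncomputable def rowZ (e : Sym2 V) : V × Fin d → MvPolynomial (V × Fin d) ℤ :=
  Sym2.lift ⟨fun u v x =>
    (if x.1 = u then MvPolynomial.X (u, x.2) - MvPolynomial.X (v, x.2) else 0) +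
    (if x.1 = v then MvPolynomial.X (v, x.2) - MvPolynomial.X (u, x.2) else 0),
    fun u v => by funext x; exact add_comm _ _⟩ e

omit [Fintype V] in
private theorem aeval_rowZ {F : Type} [Field F] (p : V → Fin d → F) (e : Sym2 V) (x : V × Fin d) :
    MvPolynomial.aeval (fun x : V × Fin d => p x.1 x.2) (rowZ e x) = row p e x.1 x.2 := by
  induction e using Sym2.inductionOn with
  | _ u v =>
    simp only [rowZ, row, Sym2.lift_mk, map_add, Pi.add_apply, Pi.single_apply, ite_apply,
      apply_ite (MvPolynomial.aeval (fun x : V × Fin d => p x.1 x.2)), map_sub, map_zero,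
      MvPolynomial.aeval_X, Pi.sub_apply, Pi.zero_apply]

/-- the minor polynomial -/
private noncomputable def minorZ {r : ℕ} (a : Fin r → Sym2 V) (c : Fin r → V × Fin d) :
    MvPolynomial (V × Fin d) ℤ :=
  (Matrix.of fun i j : Fin r => rowZ (a i) (c j)).det

omit [Fintype V] in
private theorem aeval_minorZ {F : Type} [Field F] (p : V → Fin d → F) {r : ℕ}
    (a : Fin r → Sym2 V) (c : Fin r → V × Fin d) :
    MvPolynomial.aeval (fun x : V × Fin d => p x.1 x.2) (minorZ a c) =
      (Matrix.of fun i j : Fin r => row p (a i) (c j).1 (c j).2).det := by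
  unfold minorZ
  rw [AlgHom.map_det]
  congr 1
  ext i j
  simp only [AlgHom.mapMatrix_apply, Matrix.map_apply, Matrix.of_apply]
  exact aeval_rowZ p (a i) (c j)

theorem exists_minor {F : Type} [Field F] (p : V → Fin d → F) (E : Finset (Sym2 V)) :
    ∃ P : MvPolynomial (V × Fin d) ℤ,
      MvPolynomial.aeval (fun x : V × Fin d => p x.1 x.2) P ≠ 0 ∧
      ∀ (F' : Type) [Field F'] (q : V → Fin d → F'),
        MvPolynomial.aeval (fun x : V × Fin d => q x.1 x.2) P ≠ 0 → rkAt p E ≤ rkAt q E := by
  have hset : Set.range (fun e : E => row p (e : Sym2 V)) = row p '' (E : Set (Sym2 V)) := by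
    ext x
    constructor
    · rintro ⟨e, rfl⟩
      exact ⟨e, e.2, rfl⟩
    · rintro ⟨e, he, rfl⟩
      exact ⟨⟨e, he⟩, rfl⟩
  have hr : Module.finrank F (Submodule.span F (Set.range (fun e : E => row p (e : Sym2 V)))) =
      rkAt p E := by
    rw [hset]
    rfl
  obtain ⟨a, ha⟩ := rkB_sub (F := F) (fun e : E => row p (e : Sym2 V)) hr
  have hN : LinearIndependent F (Matrix.of fun (i : Fin (rkAt p E)) (x : V × Fin d) =>
      row p (a i : Sym2 V) x.1 x.2).row := by
    have h1 := ha.map' (LinearEquiv.curry F F V (Fin d)).symm.toLinearMap (LinearEquiv.ker _)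
    exact h1
  obtain ⟨c, hc⟩ := rkB_cols _ hN
  refine ⟨minorZ (fun i => (a i : Sym2 V)) c, ?_, ?_⟩
  · rw [aeval_minorZ]
    exact hc
  · intro F' _ q hq
    rw [aeval_minorZ] at hq
    have h1 : LinearIndependent F' (Matrix.of fun i j : Fin (rkAt p E) =>
        row q (a i : Sym2 V) (c j).1 (c j).2).row := by
      rw [Matrix.linearIndependent_rows_iff_isUnit, Matrix.isUnit_iff_isUnit_det]
      exact isUnit_iff_ne_zero.2 hq
    have h2 : LinearIndependent F' (fun i : Fin (rkAt p E) => row q (a i : Sym2 V)) := by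
      let f : (V → Fin d → F') →ₗ[F'] (Fin (rkAt p E) → F') :=
        (LinearMap.funLeft F' F' c).comp (LinearEquiv.curry F' F' V (Fin d)).symm.toLinearMap
      exact LinearIndependent.of_comp f h1
    have h3 := finrank_span_eq_card h2
    rw [Fintype.card_fin] at h3
    rw [← h3]
    unfold rkAt
    apply Submodule.finrank_mono
    apply Submodule.span_mono
    rintro _ ⟨i, rfl⟩
    exact ⟨(a i : Sym2 V), (a i).2, rfl⟩

private theorem rkB_bdd (F : Type) [Field F] (d : ℕ) (E : Finset (Sym2 V)) :
    BddAbove (Set.range (fun p : V → Fin d → F => rkAt p E)) := by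
  refine ⟨Module.finrank F (V → Fin d → F), ?_⟩
  rintro _ ⟨p, rfl⟩
  exact Submodule.finrank_le _

theorem rkAt_le_rk {F : Type} [Field F] (p : V → Fin d → F) (E : Finset (Sym2 V)) :
    rkAt p E ≤ rk F d E :=
  le_ciSup (rkB_bdd F d E) p

theorem exists_rkAt_eq (F : Type) [Field F] (d : ℕ) (E : Finset (Sym2 V)) :
    ∃ p : V → Fin d → F, rkAt p E = rk F d E := by
  have h := Nat.sSup_mem (Set.range_nonempty (fun p : V → Fin d → F => rkAt p E))
    (rkB_bdd F d E)
  exact h

omit [Fintype V] in
/-- a polynomial which expresses general position of the points of `A` -/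
private theorem rkB_aff (F : Type) [Field F] (d : ℕ) (A : Finset V) (hA : A.card ≤ d + 1) :
    ∃ P : MvPolynomial (V × Fin d) F, P ≠ 0 ∧ ∀ q : V → Fin d → F,
      MvPolynomial.eval (fun x : V × Fin d => q x.1 x.2) P ≠ 0 → AffI q A := by
  classical
  rcases A.eq_empty_or_nonempty with h0 | ⟨a0, ha0⟩
  · refine ⟨1, one_ne_zero, fun q _ => ?_⟩
    subst h0
    unfold AffI
    exact affineIndependent_of_subsingleton F _
  · let κ : Type := {x : A // x ≠ ⟨a0, ha0⟩}
    have hcard : Fintype.card κ ≤ Fintype.card (Fin d) := by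
      have h1 : Fintype.card κ = Fintype.card A - 1 := by
        rw [Fintype.card_subtype_compl (fun x : A => x = ⟨a0, ha0⟩)]
        simp
      rw [h1, Fintype.card_coe, Fintype.card_fin]
      omega
    obtain ⟨g⟩ := Function.Embedding.nonempty_of_card_le hcard
    have heval : ∀ q : V → Fin d → F, MvPolynomial.eval (fun x : V × Fin d => q x.1 x.2)
        (Matrix.of fun x y : κ => (MvPolynomial.X ((x.1 : V), g y) -
          MvPolynomial.X (a0, g y) : MvPolynomial (V × Fin d) F)).det =
        (Matrix.of fun x y : κ => q (x.1 : V) (g y) - q a0 (g y)).det := by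
      intro q
      rw [RingHom.map_det]
      congr 1
      ext x y
      simp only [RingHom.mapMatrix_apply, Matrix.map_apply, Matrix.of_apply, map_sub,
        MvPolynomial.eval_X]
    refine ⟨(Matrix.of fun x y : κ => (MvPolynomial.X ((x.1 : V), g y) -
          MvPolynomial.X (a0, g y) : MvPolynomial (V × Fin d) F)).det, ?_, ?_⟩
    · intro hz
      let q0 : V → Fin d → F := fun v =>
        if h : ∃ hv : v ∈ A, (⟨v, hv⟩ : A) ≠ ⟨a0, ha0⟩ then
          Pi.single (g ⟨⟨v, h.choose⟩, h.choose_spec⟩) 1 else 0
      have h1 := heval q0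
      rw [hz, map_zero] at h1
      have h2 : (Matrix.of fun x y : κ => q0 (x.1 : V) (g y) - q0 a0 (g y)) = 1 := by
        ext x y
        have hx : ∃ hv : (x.1 : V) ∈ A, (⟨(x.1 : V), hv⟩ : A) ≠ ⟨a0, ha0⟩ := ⟨x.1.2, x.2⟩
        have ha : ¬ ∃ hv : a0 ∈ A, (⟨a0, hv⟩ : A) ≠ ⟨a0, ha0⟩ := by
          rintro ⟨_, h⟩
          exact h rfl
        have e1 : q0 (x.1 : V) = Pi.single (g x) 1 := by
          simp only [q0]
          rw [dif_pos hx]
        have e2 : q0 a0 = 0 := by
          simp only [q0]
          rw [dif_neg ha]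
        rw [Matrix.of_apply, e1, e2, Matrix.one_apply, Pi.single_apply]
        by_cases hxy : x = y
        · subst hxy; simp
        · rw [if_neg (fun h => hxy (g.injective h).symm), if_neg hxy]
          simp
      rw [h2, Matrix.det_one] at h1
      exact zero_ne_one h1
    · intro q hq
      rw [heval] at hq
      unfold AffI
      rw [affineIndependent_iff_linearIndependent_vsub F _ (⟨a0, ha0⟩ : A)]
      have h1 : LinearIndependent F
          (Matrix.of fun x y : κ => q (x.1 : V) (g y) - q a0 (g y)).row := by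
        rw [Matrix.linearIndependent_rows_iff_isUnit, Matrix.isUnit_iff_isUnit_det]
        exact isUnit_iff_ne_zero.2 hq
      exact LinearIndependent.of_comp (LinearMap.funLeft F F g) h1

/-- a common generic placement -/
theorem exists_generic (F : Type) [Field F] [Infinite F] (d : ℕ)
    (P : MvPolynomial (V × Fin d) F) (hP : P ≠ 0) :
    ∃ p : V → Fin d → F, MvPolynomial.eval (fun x : V × Fin d => p x.1 x.2) P ≠ 0 ∧ GP p ∧
      ∀ E : Finset (Sym2 V), rkAt p E = rk F d E := by
  classical
  -- polynomials for the ranks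
  have hE : ∀ E : Finset (Sym2 V), ∃ Q : MvPolynomial (V × Fin d) F, Q ≠ 0 ∧
      ∀ q : V → Fin d → F, MvPolynomial.eval (fun x : V × Fin d => q x.1 x.2) Q ≠ 0 →
        rkAt q E = rk F d E := by
    intro E
    obtain ⟨p, hp⟩ := exists_rkAt_eq F d E
    obtain ⟨Q, hQ1, hQ2⟩ := exists_minor p E
    have hev : ∀ q : V → Fin d → F, MvPolynomial.eval (fun x : V × Fin d => q x.1 x.2)
        (MvPolynomial.map (Int.castRingHom F) Q) =
        MvPolynomial.aeval (fun x : V × Fin d => q x.1 x.2) Q := by
      intro q
      rw [MvPolynomial.eval_map]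
      rfl
    refine ⟨MvPolynomial.map (Int.castRingHom F) Q, ?_, ?_⟩
    · intro h0
      apply hQ1
      rw [← hev, h0, map_zero]
    · intro q hq
      rw [hev] at hq
      exact le_antisymm (rkAt_le_rk q E) (hp ▸ hQ2 F q hq)
  choose Q hQ1 hQ2 using hE
  have hA : ∀ A : Finset V, ∃ R : MvPolynomial (V × Fin d) F, R ≠ 0 ∧
      ∀ q : V → Fin d → F, MvPolynomial.eval (fun x : V × Fin d => q x.1 x.2) R ≠ 0 →
        (A.card ≤ d + 1 → AffI q A) := by
    intro A
    by_cases hc : A.card ≤ d + 1
    · obtain ⟨R, hR1, hR2⟩ := rkB_aff F d A hc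
      exact ⟨R, hR1, fun q hq _ => hR2 q hq⟩
    · exact ⟨1, one_ne_zero, fun q _ h => absurd h hc⟩
  choose R hR1 hR2 using hA
  have hprod : P * (∏ E : Finset (Sym2 V), Q E) * (∏ A : Finset V, R A) ≠ 0 :=
    mul_ne_zero (mul_ne_zero hP (Finset.prod_ne_zero_iff.2 fun E _ => hQ1 E))
      (Finset.prod_ne_zero_iff.2 fun A _ => hR1 A)
  obtain ⟨x, hx⟩ : ∃ x : V × Fin d → F,
      MvPolynomial.eval x (P * (∏ E : Finset (Sym2 V), Q E) * (∏ A : Finset V, R A)) ≠ 0 := by
    by_contra hcon
    push Not at hcon
    apply hprod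
    apply MvPolynomial.funext
    intro x
    rw [hcon x, map_zero]
  rw [map_mul, map_mul, map_prod, map_prod] at hx
  obtain ⟨hx1, hx2⟩ := mul_ne_zero_iff.1 hx
  obtain ⟨hx3, hx4⟩ := mul_ne_zero_iff.1 hx1
  rw [Finset.prod_ne_zero_iff] at hx2 hx4
  refine ⟨fun v i => x (v, i), hx3, ?_, ?_⟩
  · intro A hA
    exact hR2 A _ (hx2 A (Finset.mem_univ _)) hA
  · intro E
    exact hQ2 E _ (hx4 E (Finset.mem_univ _))

/-- the rank over any field is at most the real rank -/
theorem rkAt_le_real {F : Type} [Field F] (p : V → Fin d → F) (E : Finset (Sym2 V)) :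
    rkAt p E ≤ rk ℝ d E := by
  obtain ⟨Q, hQ1, hQ2⟩ := exists_minor p E
  have hQ0 : Q ≠ 0 := by
    intro h0
    apply hQ1
    rw [h0, map_zero]
  have hmap : MvPolynomial.map (Int.castRingHom ℝ) Q ≠ 0 := by
    intro h0
    apply hQ0
    apply MvPolynomial.map_injective (Int.castRingHom ℝ) (RingHom.injective_int _)
    rw [h0, map_zero]
  obtain ⟨x, hx⟩ : ∃ x : V × Fin d → ℝ,
      MvPolynomial.eval x (MvPolynomial.map (Int.castRingHom ℝ) Q) ≠ 0 := by
    by_contra hcon
    push Not at hcon
    apply hmap
    apply MvPolynomial.funext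
    intro x
    rw [hcon x, map_zero]
  have h1 := hQ2 ℝ (fun v i => x (v, i)) (by
    rw [MvPolynomial.eval_map] at hx
    exact hx)
  exact h1.trans (rkAt_le_rk _ E)

end Pool.Agent.Helper50.RG
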