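import Pool.Agent.Helper50.RG.RkC
import Pool.Agent.Helper50.RG.RkX

/-!
# RG-9 : special 2-regular sets attach rigidly

`S` and `A` are disjoint, every vertex of `S` has exactly two neighbours in `S` and exactly `d - 1`
neighbours in `A`; for no non-empty subset `S'` of `S` which is closed under adjacency in `S` all
vertices of `S'` have the same neighbours in `A`. Then `Kn A ∪ ins E (A ∪ S)` has full rank on
`A ∪ S`.

Proof. Induction on `card S`. Let `S' ⊆ S` be a minimal non-empty subset closed under adjacency in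
`S`. (1) There are adjacent `v, w ∈ S'` with different neighbourhoods `O_v ≠ O_w` in `A`: otherwise
`{x ∈ S' | O_x = O_{x₀}}` is closed under adjacency, non-empty, so it is `S'`, contradiction.
Choose `z ∈ O_w \ O_v`. Let `E₁` be `Kn A` together with the edges of `E` inside `A ∪ (S' \ w)` which
meet `S' \ w`.
(2) `E₁ + vz` has full rank on `A ∪ (S' \ w)`: let `R ⊆ S' \ w` be a largest set such
that `ClK (E₁ + vz) (A ∪ R)` (`clK_insert`: a vertex with `d` neighbours in `A ∪ R` can be added). `v ∈ R`, and no vertex of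
`S' \ w \ R` has a neighbour in `R`. Hence all `S`-neighbours of vertices of `R` are in `R ∪ {w}`.
Let `j` be the number of neighbours of `w` in `R`, `1 ≤ j ≤ 2`. The sum of the degrees in the graph
induced on `R ∪ {w}` is `2 |R| + j`, it is even, so `j = 2`, and `R ∪ {w}` is closed under adjacency.
By minimality `R ∪ {w} = S'`.
(3) `|E₁ \ Kn A| = d |S'| - (d + 1)` (the number of edges meeting `S'` is `d |S'|`, and `w` is in
`d + 1` of them), which is smaller than `d (|S'| - 1)`, so `E₁` does not have full rank and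
`vz` is not in the closure of `E₁`; the rank of `E₁` is `d (|A| + |S'| - 1) - KK d - 1`.
(4) `w` is adjacent to the `d + 1` vertices of `O_w ∪ N_S(w)`, which contain `z` and `v`; by
`rk_star_succ` the rank increases by `d + 1`: full rank on `A ∪ S'`.
(5) So `A ∪ S'` is a clique of the closure; apply the induction hypothesis to `A ∪ S'` and `S \ S'`
(its vertices have no neighbour in `S'`) and compare the closures.
-/

set_option autoImplicit false

namespace Pool.Agent.Helper50.RG

open Finset

variable {V : Type} [Fintype V] [DecidableEq V] {F : Type} [Field F] [Infinite F] {d : ℕ}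
  {E : Finset (Sym2 V)}

/-- the neighbours of `v` in `A` -/
private def Nb (E : Finset (Sym2 V)) (A : Finset V) (v : V) : Finset V :=
  A.filter (fun w => s(v, w) ∈ E)

private theorem mem_Nb {A : Finset V} {v w : V} : w ∈ Nb E A v ↔ w ∈ A ∧ s(v, w) ∈ E := by
  simp [Nb]

private theorem card_Nb (A : Finset V) (v : V) : (Nb E A v).card = nb E A v := rfl

private theorem Nb_subset (A : Finset V) (v : V) : Nb E A v ⊆ A := Finset.filter_subset _ _

private theorem ne_of_edge (hL : Lpl E) {v w : V} (h : s(v, w) ∈ E) : v ≠ w := by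
  intro hvw
  have := hL _ h
  rw [Sym2.mk_isDiag_iff] at this
  exact this hvw

private theorem ins_subset_Kn (hL : Lpl E) (X : Finset V) : ins E X ⊆ Kn X := by
  intro e he
  rw [ins, Finset.mem_inter] at he
  rw [Kn, Finset.mem_filter]
  exact ⟨he.2, hL _ he.1⟩

private theorem mem_KnS {A : Finset V} {u v : V} : s(u, v) ∈ Kn A ↔ (u ∈ A ∧ v ∈ A) ∧ u ≠ v := by
  rw [Kn, Finset.mem_filter, Finset.mk_mem_sym2_iff, Sym2.mk_isDiag_iff]

private theorem Kn_mono {A B : Finset V} (h : A ⊆ B) : Kn A ⊆ Kn B := by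
  intro e he
  rw [Kn, Finset.mem_filter] at he ⊢
  exact ⟨Finset.sym2_mono h he.1, he.2⟩

/-- one step: a minimal closed subset `S'` -/
private theorem step (h2 : (2 : F) ≠ 0) (hd : 2 ≤ d) (hL : Lpl E) {A S S' : Finset V}
    (hAS : Disjoint A S) (hA : d ≤ A.card)
    (hS : ∀ v ∈ S, nb E S v = 2) (hO : ∀ v ∈ S, nb E A v + 1 = d)
    (hS'S : S' ⊆ S) (hS'n : S'.Nonempty) (hcl : ∀ v ∈ S', ∀ w ∈ S, s(v, w) ∈ E → w ∈ S')
    (hmin : ∀ S'' ⊆ S', S''.Nonempty → (∀ v ∈ S'', ∀ w ∈ S, s(v, w) ∈ E → w ∈ S'') →
      S'' = S')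
    (hne : ¬ ∃ O : Finset V, ∀ v ∈ S', A.filter (fun w => s(v, w) ∈ E) = O) :
    ClK F d (Kn A ∪ ins E (A ∪ S')) (A ∪ S') := by
  have hAS' : Disjoint A S' := Finset.disjoint_of_subset_right hS'S hAS
  -- (1) adjacent vertices with different neighbourhoods
  obtain ⟨v, hv, w, hw, hvw, hOvw⟩ : ∃ v ∈ S', ∃ w ∈ S', s(v, w) ∈ E ∧ Nb E A v ≠ Nb E A w := by
    by_contra hcon
    push Not at hcon
    obtain ⟨x0, hx0⟩ := hS'n
    apply hne
    refine ⟨Nb E A x0, ?_⟩
    have hS'' := hmin (S'.filter (fun x => Nb E A x = Nb E A x0)) (Finset.filter_subset _ _)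
      ⟨x0, Finset.mem_filter.mpr ⟨hx0, rfl⟩⟩ (by
        intro x hx y hy hxy
        rw [Finset.mem_filter] at hx ⊢
        have hy' := hcl x hx.1 y hy hxy
        exact ⟨hy', by rw [← hx.2]; exact (hcon x hx.1 y hy' hxy).symm⟩)
    intro x hx
    rw [← hS'', Finset.mem_filter] at hx
    exact hx.2
  have hvS := hS'S hv
  have hwS := hS'S hw
  have hvwne : v ≠ w := ne_of_edge hL hvw
  obtain ⟨z, hzw, hzv⟩ : ∃ z ∈ Nb E A w, z ∉ Nb E A v := by
    by_contra hcon
    push Not at hcon
    apply hOvw
    have hsub : Nb E A w ⊆ Nb E A v := hcon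
    have hc : (Nb E A v).card ≤ (Nb E A w).card := by
      rw [card_Nb, card_Nb]
      have h1 := hO v hvS
      have h2' := hO w hwS
      omega
    exact (Finset.eq_of_subset_of_card_le hsub hc).symm
  have hzA : z ∈ A := (mem_Nb.mp hzw).1
  have hvA : v ∉ A := fun h => Finset.disjoint_left.mp hAS h hvS
  have hwA : w ∉ A := fun h => Finset.disjoint_left.mp hAS h hwS
  have hvz : v ≠ z := fun h => hvA (h ▸ hzA)
  set Q : Finset V := S'.erase w with hQ
  have hQS' : Q ⊆ S' := Finset.erase_subset _ _
  have hQS : Q ⊆ S := hQS'.trans hS'S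
  have hvQ : v ∈ Q := Finset.mem_erase.mpr ⟨hvwne, hv⟩
  have hwQ : w ∉ Q := Finset.notMem_erase w S'
  have hAQ : Disjoint A Q := Finset.disjoint_of_subset_right hQS hAS
  set E₁ : Finset (Sym2 V) := Kn A ∪ ins E (A ∪ Q) with hE₁
  set E₂ : Finset (Sym2 V) := insert s(v, z) E₁ with hE₂
  have hE₁Kn : E₁ ⊆ Kn (A ∪ Q) :=
    Finset.union_subset (Kn_mono Finset.subset_union_left) (ins_subset_Kn hL _)
  have hE₂Kn : E₂ ⊆ Kn (A ∪ Q) := by
    apply Finset.insert_subset _ hE₁Kn
    rw [mem_KnS]
    exact ⟨⟨Finset.mem_union_right _ hvQ, Finset.mem_union_left _ hzA⟩, hvz⟩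
  have hE₁₂ : E₁ ⊆ E₂ := Finset.subset_insert _ _
  -- (2) `E₂` is rigid on `A ∪ Q`
  have hrig : ClK F d E₂ (A ∪ Q) := by
    classical
    -- a largest set `R`
    have hne0 : (Q.powerset.filter (fun R => ClK F d E₂ (A ∪ R))).Nonempty := by
      refine ⟨∅, Finset.mem_filter.mpr ⟨Finset.empty_mem_powerset _, ?_⟩⟩
      rw [Finset.union_empty]
      intro a ha b hb hab
      apply cl_of_mem
      apply hE₁₂
      apply Finset.mem_union_left
      rw [mem_KnS]
      exact ⟨⟨ha, hb⟩, hab⟩
    obtain ⟨R, hR, hRmax⟩ := Finset.exists_max_image _ Finset.card hne0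
    rw [Finset.mem_filter, Finset.mem_powerset] at hR
    obtain ⟨hRQ, hRcl⟩ := hR
    have hmax : ∀ y ∈ Q, y ∉ R → ¬ ClK F d E₂ (insert y (A ∪ R)) := by
      intro y hy hyR hcon
      have h1 := hRmax (insert y R) (by
        rw [Finset.mem_filter, Finset.mem_powerset]
        refine ⟨Finset.insert_subset hy hRQ, ?_⟩
        rw [Finset.union_insert]
        exact hcon)
      rw [Finset.card_insert_of_notMem hyR] at h1
      omega
    -- `v ∈ R`
    have hvR : v ∈ R := by
      by_contra hvR
      apply hmax v hvQ hvR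
      refine clK_insert h2 hRcl (T := insert z (Nb E A v)) ?_ ?_ ?_
      · apply Finset.insert_subset (Finset.mem_union_left _ hzA)
        exact (Nb_subset A v).trans Finset.subset_union_left
      · rw [Finset.card_insert_of_notMem hzv, card_Nb]
        exact (hO v hvS).ge
      · intro y hy
        rw [Finset.mem_insert] at hy
        apply cl_of_mem
        rcases hy with rfl | hy
        · exact Finset.mem_insert_self _ _
        · rw [mem_Nb] at hy
          apply hE₁₂
          apply Finset.mem_union_right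
          rw [mk_mem_ins]
          exact ⟨hy.2, Finset.mem_union_right _ hvQ, Finset.mem_union_left _ hy.1⟩
    -- no neighbours in `R`
    have hnoR : ∀ y ∈ Q, y ∉ R → ∀ r ∈ R, s(y, r) ∉ E := by
      intro y hy hyR r hr hyr
      apply hmax y hy hyR
      have hyS : y ∈ S := hQS hy
      have hrA : r ∉ A := fun h => Finset.disjoint_left.mp hAQ h (hRQ hr)
      refine clK_insert h2 hRcl (T := insert r (Nb E A y)) ?_ ?_ ?_
      · apply Finset.insert_subset (Finset.mem_union_right _ hr)
        exact (Nb_subset A y).trans Finset.subset_union_left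
      · rw [Finset.card_insert_of_notMem (fun h => hrA (mem_Nb.mp h).1), card_Nb]
        exact (hO y hyS).ge
      · intro u hu
        rw [Finset.mem_insert] at hu
        apply cl_of_mem
        apply hE₁₂
        apply Finset.mem_union_right
        rw [mk_mem_ins]
        rcases hu with rfl | hu
        · exact ⟨hyr, Finset.mem_union_right _ hy, Finset.mem_union_right _ (hRQ hr)⟩
        · rw [mem_Nb] at hu
          exact ⟨hu.2, Finset.mem_union_right _ hy, Finset.mem_union_left _ hu.1⟩
    -- the `S`-neighbours of `r ∈ R` are in `insert w R`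
    have hwR : w ∉ R := fun h => hwQ (hRQ h)
    have hRnb : ∀ r ∈ R, ∀ y ∈ S, s(r, y) ∈ E → y ∈ insert w R := by
      intro r hr y hy hry
      have hyS' : y ∈ S' := hcl r (hQS' (hRQ hr)) y hy hry
      rw [Finset.mem_insert]
      by_cases hyw : y = w
      · exact Or.inl hyw
      · right
        by_contra hyR
        refine hnoR y (Finset.mem_erase.mpr ⟨hyw, hyS'⟩) hyR r hr ?_
        rw [Sym2.eq_swap]
        exact hry
    have hRw : insert w R ⊆ S := Finset.insert_subset hwS (hRQ.trans hQS)
    have hdeg : ∀ r ∈ R, nb E (insert w R) r = 2 := by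
      intro r hr
      rw [← hS r (hQS (hRQ hr))]
      simp only [nb]
      congr 1
      ext y
      rw [Finset.mem_filter, Finset.mem_filter]
      constructor
      · rintro ⟨h1, h2'⟩
        exact ⟨hRw h1, h2'⟩
      · rintro ⟨h1, h2'⟩
        exact ⟨hRnb r hr y h1 h2', h2'⟩
    have hsum := sum_nb hL (insert w R)
    rw [Finset.sum_insert hwR, Finset.sum_congr rfl hdeg, Finset.sum_const, smul_eq_mul] at hsum
    have hj1 : 1 ≤ nb E (insert w R) w := by
      rw [nb, Nat.succ_le_iff, Finset.card_pos]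
      refine ⟨v, Finset.mem_filter.mpr ⟨Finset.mem_insert_of_mem hvR, ?_⟩⟩
      rw [Sym2.eq_swap]
      exact hvw
    have hj2 : nb E (insert w R) w ≤ 2 := by
      rw [← hS w hwS]
      exact nb_mono (Finset.Subset.refl _) hRw w
    have hj : nb E (insert w R) w = 2 := by omega
    have hcl2 : ∀ x ∈ insert w R, ∀ y ∈ S, s(x, y) ∈ E → y ∈ insert w R := by
      intro x hx y hy hxy
      rw [Finset.mem_insert] at hx
      rcases hx with rfl | hx
      · have hsub : Nb E (insert x R) x ⊆ Nb E S x := by
          intro u hu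
          rw [mem_Nb] at hu ⊢
          exact ⟨hRw hu.1, hu.2⟩
        have heq := Finset.eq_of_subset_of_card_le hsub (by
          rw [card_Nb, card_Nb, hj, hS x hwS])
        have : y ∈ Nb E S x := mem_Nb.mpr ⟨hy, hxy⟩
        rw [← heq] at this
        exact (mem_Nb.mp this).1
      · exact hRnb x hx y hy hxy
    have hfin := hmin (insert w R) (Finset.insert_subset hw (hRQ.trans hQS'))
      ⟨w, Finset.mem_insert_self _ _⟩ hcl2
    have hRQ' : R = Q := by
      rw [hQ, ← hfin, Finset.erase_insert hwR]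
    rw [← hRQ']
    exact hRcl
  -- cardinalities
  have hcardQ : Q.card + 1 = S'.card := Finset.card_erase_add_one hw
  have hcAQ : (A ∪ Q).card = A.card + Q.card := Finset.card_union_of_disjoint hAQ
  have hcAS' : (A ∪ S').card = A.card + S'.card := Finset.card_union_of_disjoint hAS'
  have hr2 : rk F d E₂ + KK d = d * (A.card + Q.card) := by
    have := (clK_iff_rk h2 hE₂Kn (by omega)).mp hrig
    rwa [hcAQ] at this
  have hrA : rk F d (Kn A) + KK d = d * A.card := rk_Kn h2 hA
  -- (3) the pair `v z` is not in the closure of `E₁`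
  have hncl : ¬ Cl F d E₁ s(v, z) := by
    intro hc
    have hc' : rk F d E₂ = rk F d E₁ := hc
    have hsub : E₁ ⊆ Kn A ∪ incd E (A ∪ Q) Q := by
      intro e he
      rw [hE₁, Finset.mem_union] at he
      rw [Finset.mem_union]
      rcases he with he | he
      · exact Or.inl he
      · by_cases hmeet : ∃ u ∈ Q, u ∈ e
        · right
          rw [incd, Finset.mem_filter]
          exact ⟨he, hmeet⟩
        · left
          rw [mem_ins] at he
          have he2 : e ∈ ins E A := by
            rw [mem_ins]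
            refine ⟨he.1, fun u hu => ?_⟩
            have := he.2 u hu
            rw [Finset.mem_union] at this
            rcases this with h | h
            · exact h
            · exact absurd ⟨u, h, hu⟩ hmeet
          exact ins_subset_Kn hL A he2
    have h3 : rk F d E₁ ≤ rk F d (Kn A) + (incd E (A ∪ Q) Q).card :=
      (rk_mono hsub).trans (rk_union_le _ _)
    have h4 := card_incd_eq (E := E) hL (B := Q) (C := A ∪ Q) Finset.subset_union_right
    have h5 : (A ∪ Q) \ Q = A := by
      rw [Finset.union_sdiff_right]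
      exact Finset.sdiff_eq_self_of_disjoint hAQ
    rw [h5] at h4
    have h6 : ∑ x ∈ Q, nb E A x = Q.card * (d - 1) := by
      rw [Finset.sum_congr rfl (fun x hx => show nb E A x = d - 1 by
        have := hO x (hQS hx); omega), Finset.sum_const, smul_eq_mul]
    have h7 : ∑ x ∈ Q, nb E Q x < ∑ x ∈ Q, 2 := by
      apply Finset.sum_lt_sum
      · intro x hx
        rw [← hS x (hQS hx)]
        exact nb_mono (Finset.Subset.refl _) hQS x
      · refine ⟨v, hvQ, ?_⟩
        rw [← hS v hvS]
        apply Finset.card_lt_card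
        rw [Finset.ssubset_iff_of_subset (Finset.filter_subset_filter _ hQS)]
        refine ⟨w, Finset.mem_filter.mpr ⟨hwS, hvw⟩, ?_⟩
        intro hcon
        exact hwQ (Finset.mem_filter.mp hcon).1
    rw [sum_nb hL Q, Finset.sum_const, smul_eq_mul] at h7
    have h8 : Q.card * (d - 1) + Q.card = d * Q.card := by
      obtain ⟨k, rfl⟩ : ∃ k, d = k + 1 := ⟨d - 1, by omega⟩
      simp only [Nat.add_sub_cancel]
      ring
    have h9 : d * (A.card + Q.card) = d * A.card + d * Q.card := Nat.mul_add _ _ _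
    omega
  -- (4) adding `w`
  set T : Finset V := Nb E A w ∪ Nb E S w with hT
  have hNSw : Nb E S w ⊆ Q := by
    intro y hy
    rw [mem_Nb] at hy
    rw [hQ, Finset.mem_erase]
    exact ⟨(ne_of_edge hL hy.2).symm, hcl w hw y hy.1 hy.2⟩
  have hTcard : T.card = d + 1 := by
    rw [hT, Finset.card_union_of_disjoint (Finset.disjoint_of_subset_left (Nb_subset A w)
      (Finset.disjoint_of_subset_right hNSw hAQ)), card_Nb, card_Nb, hS w hwS]
    have := hO w hwS
    omega
  have hTsub : T ⊆ A ∪ Q := Finset.union_subset ((Nb_subset A w).trans Finset.subset_union_left)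
    (hNSw.trans Finset.subset_union_right)
  have hwAQ : w ∉ A ∪ Q := by
    rw [Finset.mem_union]
    rintro (h | h)
    · exact hwA h
    · exact hwQ h
  have hwE₁ : ∀ e ∈ E₁, w ∉ e := by
    intro e he hwe
    have h1 := hE₁Kn he
    rw [Kn, Finset.mem_filter, Finset.mem_sym2_iff] at h1
    exact hwAQ (h1.1 w hwe)
  have hvT : v ∈ T := by
    rw [hT, Finset.mem_union, mem_Nb, mem_Nb]
    right
    refine ⟨hvS, ?_⟩
    rw [Sym2.eq_swap]
    exact hvw
  have hzT : z ∈ T := Finset.mem_union_left _ hzw
  have hstar := rk_star_succ (F := F) (d := d) hwE₁ (fun h => hwAQ (hTsub h)) hTcard hvT hzT hvz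
    hncl
  have hins : rk F d E₂ ≤ rk F d E₁ + 1 := rk_insert_le s(v, z) E₁
  have hsub3 : E₁ ∪ star w T ⊆ Kn A ∪ ins E (A ∪ S') := by
    apply Finset.union_subset
    · apply Finset.union_subset_union (Finset.Subset.refl _)
      exact ins_mono (Finset.Subset.refl _) (Finset.union_subset_union (Finset.Subset.refl _) hQS')
    · intro e he
      rw [star, Finset.mem_image] at he
      obtain ⟨y, hy, rfl⟩ := he
      apply Finset.mem_union_right
      rw [mk_mem_ins]
      refine ⟨?_, Finset.mem_union_right _ hw, ?_⟩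
      · rw [hT, Finset.mem_union, mem_Nb, mem_Nb] at hy
        rcases hy with hy | hy
        · exact hy.2
        · exact hy.2
      · exact Finset.union_subset_union (Finset.Subset.refl _) hQS' (hTsub hy)
  have hE₃Kn : Kn A ∪ ins E (A ∪ S') ⊆ Kn (A ∪ S') :=
    Finset.union_subset (Kn_mono Finset.subset_union_left) (ins_subset_Kn hL _)
  have hup : rk F d (Kn A ∪ ins E (A ∪ S')) + KK d ≤ d * (A.card + S'.card) := by
    have h1 := rk_Kn (F := F) (d := d) h2 (A := A ∪ S') (by omega)
    rw [hcAS'] at h1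
    have h3 := rk_mono (F := F) (d := d) hE₃Kn
    omega
  have hlow := rk_mono (F := F) (d := d) hsub3
  rw [clK_iff_rk h2 hE₃Kn (by omega), hcAS']
  have hm : d * (A.card + S'.card) = d * (A.card + Q.card) + d := by
    rw [← hcardQ]
    ring
  omega

theorem special_rigid (h2 : (2 : F) ≠ 0) (hd : 2 ≤ d) (hL : Lpl E) {A S : Finset V}
    (hAS : Disjoint A S) (hA : d ≤ A.card)
    (hS : ∀ v ∈ S, nb E S v = 2) (hO : ∀ v ∈ S, nb E A v + 1 = d)
    (hne : ∀ S' ⊆ S, S'.Nonempty → (∀ v ∈ S', ∀ w ∈ S, s(v, w) ∈ E → w ∈ S') →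
      ¬ ∃ O : Finset V, ∀ v ∈ S', A.filter (fun w => s(v, w) ∈ E) = O) :
    rk F d (Kn A ∪ ins E (A ∪ S)) + KK d = d * (A.card + S.card) := by
  induction hn : S.card using Nat.strong_induction_on generalizing A S with
  | _ n ih =>
  subst hn
  rcases S.eq_empty_or_nonempty with rfl | hSn
  · rw [Finset.union_empty, Finset.card_empty, Nat.add_zero,
      Finset.union_eq_left.mpr (ins_subset_Kn hL A)]
    exact rk_Kn h2 hA
  · classical
    -- a minimal closed subset
    have hne0 : (S.powerset.filter (fun X => X.Nonempty ∧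
        ∀ v ∈ X, ∀ w ∈ S, s(v, w) ∈ E → w ∈ X)).Nonempty :=
      ⟨S, Finset.mem_filter.mpr ⟨Finset.mem_powerset_self S, hSn, fun _ _ w hw _ => hw⟩⟩
    obtain ⟨S', hS', hS'min⟩ := Finset.exists_min_image _ Finset.card hne0
    rw [Finset.mem_filter, Finset.mem_powerset] at hS'
    obtain ⟨hS'S, hS'n, hcl⟩ := hS'
    have hmin : ∀ S'' ⊆ S', S''.Nonempty → (∀ v ∈ S'', ∀ w ∈ S, s(v, w) ∈ E → w ∈ S'') →
        S'' = S' := by
      intro X hX hXn hXcl
      apply Finset.eq_of_subset_of_card_le hX
      apply hS'min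
      rw [Finset.mem_filter, Finset.mem_powerset]
      exact ⟨hX.trans hS'S, hXn, hXcl⟩
    have hstep := step h2 hd hL hAS hA hS hO hS'S hS'n hcl hmin (hne S' hS'S hS'n hcl)
    have hAS' : Disjoint A S' := Finset.disjoint_of_subset_right hS'S hAS
    set S1 : Finset V := S \ S' with hS1
    have hS1S : S1 ⊆ S := Finset.sdiff_subset
    -- no edges between `S1` and `S'`
    have hno : ∀ v ∈ S1, ∀ w ∈ S', s(v, w) ∉ E := by
      intro v hv w hw hvw
      rw [hS1, Finset.mem_sdiff] at hv
      apply hv.2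
      apply hcl w hw v hv.1
      rw [Sym2.eq_swap]
      exact hvw
    have hno0 : ∀ v ∈ S1, nb E S' v = 0 := by
      intro v hv
      rw [nb, Finset.card_eq_zero, Finset.filter_eq_empty_iff]
      intro w hw
      exact hno v hv w hw
    have hSeq : S' ∪ S1 = S := Finset.union_sdiff_of_subset hS'S
    have hd1 : Disjoint (A ∪ S') S1 := by
      rw [Finset.disjoint_union_left]
      exact ⟨Finset.disjoint_of_subset_right hS1S hAS, Finset.disjoint_sdiff⟩
    have hlt : S1.card < S.card := by
      have h1 : S1.card + S'.card = S.card := Finset.card_sdiff_add_card_eq_card hS'S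
      have h3 : 0 < S'.card := Finset.card_pos.mpr hS'n
      omega
    have hfil : ∀ v ∈ S1, (A ∪ S').filter (fun w => s(v, w) ∈ E) =
        A.filter (fun w => s(v, w) ∈ E) := by
      intro v hv
      rw [Finset.filter_union]
      have : S'.filter (fun w => s(v, w) ∈ E) = ∅ := by
        rw [Finset.filter_eq_empty_iff]
        intro w hw
        exact hno v hv w hw
      rw [this, Finset.union_empty]
    have hIH := ih S1.card hlt (A := A ∪ S') (S := S1) hd1
      (hA.trans (Finset.card_le_card Finset.subset_union_left))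
      (by
        intro v hv
        have h1 := hS v (hS1S hv)
        rw [← hSeq, nb_union (Finset.disjoint_sdiff), hno0 v hv, Nat.zero_add] at h1
        exact h1)
      (by
        intro v hv
        rw [nb_union hAS', hno0 v hv, Nat.add_zero]
        exact hO v (hS1S hv))
      (by
        intro X hX hXn hXcl hcon
        obtain ⟨O, hO'⟩ := hcon
        refine hne X (hX.trans hS1S) hXn ?_ ⟨O, fun v hv => ?_⟩
        · intro v hv w hw hvw
          apply hXcl v hv w _ hvw
          rw [hS1, Finset.mem_sdiff]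
          exact ⟨hw, fun hw' => hno v (hX hv) w hw' hvw⟩
        · rw [← hfil v (hX hv)]
          exact hO' v hv) rfl
    have hcA : (A ∪ S').card = A.card + S'.card := Finset.card_union_of_disjoint hAS'
    have hcS : S1.card + S'.card = S.card := Finset.card_sdiff_add_card_eq_card hS'S
    have hun : A ∪ S' ∪ S1 = A ∪ S := by rw [Finset.union_assoc, hSeq]
    rw [hun, hcA] at hIH
    have hE₃ : Kn A ∪ ins E (A ∪ S') ⊆ Kn A ∪ ins E (A ∪ S) :=
      Finset.union_subset_union (Finset.Subset.refl _) (ins_mono (Finset.Subset.refl _)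
        (Finset.union_subset_union (Finset.Subset.refl _) hS'S))
    have hclos : ∀ e ∈ Kn (A ∪ S'), Cl F d (Kn A ∪ ins E (A ∪ S)) e := by
      intro e he
      induction e using Sym2.ind with
      | _ a b =>
        rw [mem_KnS] at he
        exact cl_mono hE₃ (hstep a he.1.1 b he.1.2 he.2)
    have hr := rk_union_cl hclos
    have heq : Kn A ∪ ins E (A ∪ S) ∪ Kn (A ∪ S') = Kn (A ∪ S') ∪ ins E (A ∪ S) := by
      rw [Finset.union_comm, ← Finset.union_assoc,
        Finset.union_eq_left.mpr (Kn_mono (A := A) (B := A ∪ S') Finset.subset_union_left)]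
    rw [heq] at hr
    rw [← hr, hIH]
    congr 1
    omega

/-- the hypothesis `hne` of `special_rigid` follows from sparsity (`E2`): otherwise `S' ∪ O` has
`|S'| + d - 1` vertices and at least `d |S'|` edges, `|S'| ≥ 3` -/
theorem special_ne (hd : 2 ≤ d) (hL : Lpl E) {A S : Finset V} (hAS : Disjoint A S)
    (hS : ∀ v ∈ S, nb E S v = 2) (hO : ∀ v ∈ S, nb E A v + 1 = d) {ε : ℝ} {N : ℕ}
    (hE : E2 ε N E) (hSN : (S.card : ℝ) + d ≤ ε * N) :
    ∀ S' ⊆ S, S'.Nonempty → (∀ v ∈ S', ∀ w ∈ S, s(v, w) ∈ E → w ∈ S') →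
      ¬ ∃ O : Finset V, ∀ v ∈ S', A.filter (fun w => s(v, w) ∈ E) = O := by
  rintro S' hS'S ⟨x0, hx0⟩ hcl ⟨O, hO'⟩
  have hOA : O ⊆ A := by
    rw [← hO' x0 hx0]
    exact Finset.filter_subset _ _
  have hOc : O.card + 1 = d := by
    have := hO x0 (hS'S hx0)
    rw [nb, hO' x0 hx0] at this
    exact this
  have hdis : Disjoint O S' := Finset.disjoint_of_subset_left hOA
    (Finset.disjoint_of_subset_right hS'S hAS)
  have hdeg : ∀ v ∈ S', nb E S' v = 2 := by
    intro v hv
    rw [← hS v (hS'S hv)]
    simp only [nb]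
    congr 1
    ext y
    rw [Finset.mem_filter, Finset.mem_filter]
    constructor
    · rintro ⟨h1, h2'⟩
      exact ⟨hS'S h1, h2'⟩
    · rintro ⟨h1, h2'⟩
      exact ⟨hcl v hv y h1 h2', h2'⟩
  have h3 : 2 < S'.card := by
    rw [← hdeg x0 hx0]
    exact nb_lt_card hL hx0
  have hsum := sum_nb hL S'
  rw [Finset.sum_congr rfl hdeg, Finset.sum_const, smul_eq_mul] at hsum
  have hnbO : ∀ v ∈ S', nb E O v = d - 1 := by
    intro v hv
    have h1 : nb E O v = O.card := by
      rw [nb]
      congr 1
      apply Finset.filter_true_of_mem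
      intro y hy
      rw [← hO' v hv, Finset.mem_filter] at hy
      exact hy.2
    omega
  have h4 := card_incd_eq (E := E) hL (B := S') (C := O ∪ S') Finset.subset_union_right
  have h5 : (O ∪ S') \ S' = O := by
    rw [Finset.union_sdiff_right]
    exact Finset.sdiff_eq_self_of_disjoint hdis
  rw [h5, Finset.sum_congr rfl hnbO, Finset.sum_const, smul_eq_mul] at h4
  have h6 := card_incd E (B := S') (C := O ∪ S') Finset.subset_union_right
  have hcX : (O ∪ S').card = O.card + S'.card := Finset.card_union_of_disjoint hdis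
  have hle : S'.card ≤ S.card := Finset.card_le_card hS'S
  have h7 := hE (O ∪ S') ⟨x0, Finset.mem_union_right _ hx0⟩ (by
    refine le_trans ?_ hSN
    rw [hcX]
    push_cast
    have h8 : (O.card : ℝ) + 1 = d := by exact_mod_cast hOc
    have h9 : (S'.card : ℝ) ≤ S.card := by exact_mod_cast hle
    linarith)
  rw [hcX] at h7
  obtain ⟨k, rfl⟩ : ∃ k, d = k + 2 := ⟨d - 2, by omega⟩
  have e1 : k + 2 - 1 = k + 1 := rfl
  rw [e1] at h4
  have h10 : O.card = k + 1 := by omega
  rw [h10] at h7
  obtain ⟨j, hj⟩ : ∃ j, S'.card = j + 3 := ⟨S'.card - 3, by omega⟩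
  rw [hj] at h4 h7 hsum
  nlinarith

end Pool.Agent.Helper50.RG
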