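import Pool.Agent.Helper50.RG.SmallT
import Pool.Agent.Helper50.RG.SplitB

/-!
# RG-37 : small sets with `IsB` (the event `E4`)

Let `u ∈ TT` be simple with `E1`, `E2` and let `E4` fail for `B`: `IsB d E univ B`, `|B| = b ≤ ε N`, and
`b > C₂ log N` or `e(B) ≥ b + 1`. By `nb_compl_eq` `cr u B v < d` for `v ∈ B`; `occ u v ≥ d + 1`, so each
`v ∈ B` has at least `2` neighbours in `B` and `e = e(B) = nin u B ≥ b`; by `E2` (`ε ≤ ε'`)
`2 e < 3 b`; `x = ncr u B ≤ (d-1) b` (`sum_cr`). If `e ≥ b + 1` then `b > c₁ log N` by `E1`. So by the union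
bound over `B`, `e`, `x` (`split_count`, `small_term`; at most `d b` values of `x`) the number of these `u`
is at most `Wd N (2M)` (`= card TT`, `card_TT`) times
`∑_{b > C₂ log N} 2 d b ϑ^b ∑_ℓ (C ε)^ℓ + ∑_{b > c₁ log N} 2 d b ϑ^b (C b/N) ∑_ℓ (C ε)^ℓ`,
with `C ε ≤ 1/2`. Take `C₂` with `ϑ^(C₂ log N) ≤ N^(-3)`; the second sum is at most
`N^(-1) N^(-2 δ)` for large `N` if `δ < c₁ log(1/ϑ) / 4`.
-/

set_option autoImplicit false

namespace Pool.Agent.Helper50.RG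

open Finset

private theorem smallS_ev (a C₂ κ : ℝ) (ha : 0 ≤ a) (hC₂ : 0 ≤ C₂) (hκ : 0 < κ) :
    ∃ N₂ : ℕ, ∀ N : ℕ, N₂ ≤ N → a * (C₂ * Real.log N + 1) ^ 4 ≤ (N : ℝ) ^ (κ / 2) := by
  have hA1 : 1 ≤ a + 1 := by linarith
  have h1 : ∀ᶠ x : ℝ in Filter.atTop, ‖Real.log x‖ ≤ 1 / (2 * ((a + 1) * (C₂ + 1))) *
      ‖x ^ (κ / 8)‖ :=
    (isLittleO_log_rpow_atTop (by positivity : 0 < κ / 8)).def (by positivity)
  have h2 : ∀ᶠ x : ℝ in Filter.atTop, 2 * (a + 1) ≤ x ^ (κ / 8) :=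
    (tendsto_rpow_atTop (by positivity : 0 < κ / 8)).eventually_ge_atTop _
  have h3 : ∀ᶠ x : ℝ in Filter.atTop, (1 : ℝ) ≤ x := Filter.eventually_ge_atTop 1
  have h4 := (tendsto_natCast_atTop_atTop (R := ℝ)).eventually (h1.and (h2.and h3))
  obtain ⟨N₂, hN₂⟩ := Filter.eventually_atTop.1 h4
  refine ⟨N₂, fun N hN => ?_⟩
  obtain ⟨e1, e2, e3⟩ := hN₂ N hN
  have hL : 0 ≤ Real.log N := Real.log_nonneg e3
  have hP : 0 ≤ (N : ℝ) ^ (κ / 8) := by positivity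
  rw [Real.norm_of_nonneg hL, Real.norm_of_nonneg hP] at e1
  have h5 : (a + 1) * (C₂ * Real.log N + 1) ≤ (N : ℝ) ^ (κ / 8) := by
    have h6 : (a + 1) * (C₂ + 1) * Real.log N ≤ (N : ℝ) ^ (κ / 8) / 2 := by
      have h7 := mul_le_mul_of_nonneg_left e1 (by positivity : 0 ≤ (a + 1) * (C₂ + 1))
      refine h7.trans (le_of_eq ?_)
      field_simp
    have h8 : (a + 1) * C₂ * Real.log N ≤ (a + 1) * (C₂ + 1) * Real.log N := by
      gcongr
      linarith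
    nlinarith
  have h6 : ((a + 1) * (C₂ * Real.log N + 1)) ^ 4 ≤ ((N : ℝ) ^ (κ / 8)) ^ 4 :=
    pow_le_pow_left₀ (by positivity) h5 4
  have h7 : ((N : ℝ) ^ (κ / 8)) ^ 4 = (N : ℝ) ^ (κ / 2) := by
    rw [← Real.rpow_natCast, ← Real.rpow_mul (by positivity)]
    congr 1
    push_cast
    ring
  rw [h7, mul_pow] at h6
  refine le_trans ?_ h6
  have h8 : a ≤ (a + 1) ^ 4 := by
    have : a + 1 ≤ (a + 1) ^ 4 := le_self_pow₀ hA1 (by norm_num)
    linarith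
  exact mul_le_mul_of_nonneg_right h8 (by positivity)

/-- the weights of the sizes `b` -/
private noncomputable def smallTau (ϑ C C₂ c₁ W : ℝ) (N b : ℕ) : ℝ :=
  if C₂ * Real.log N < b then 2 * W * ϑ ^ b
  else if c₁ * Real.log N < b then 2 * W * ϑ ^ b * (C * b / N) else 0

private theorem smallS_pow {ϑ lm r : ℝ} (hϑ0 : 0 < ϑ) (hlm : lm = -Real.log ϑ) {n : ℝ}
    (hn : 1 ≤ n) {c : ℝ} (hc : c * lm = r) (hlm0 : 0 < lm) {b : ℕ} (hb : c * Real.log n < b) :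
    ϑ ^ b ≤ n ^ (-r) := by
  have h1 : ϑ ^ b = Real.exp (b * Real.log ϑ) := by
    rw [← Real.log_pow, Real.exp_log (by positivity)]
  rw [h1, Real.rpow_def_of_pos (by linarith), Real.exp_le_exp, ← hc]
  have h2 : Real.log ϑ = -lm := by rw [hlm]; ring
  rw [h2]
  nlinarith

private theorem smallS_sum {d : ℕ} {ϑ lm C C₂ c₁ W κ δ : ℝ} (hϑ0 : 0 < ϑ)
    (hlm : lm = -Real.log ϑ) (hlm0 : 0 < lm) (hC : 0 < C) (hC₂ : C₂ * lm = 6) (hC₂0 : 0 ≤ C₂)
    (hκ : c₁ * lm = κ) (hκ0 : 0 < κ) (hW : 0 ≤ W) (hδ1 : δ ≤ κ / 2) (hδ2 : δ ≤ 1) {N : ℕ}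
    (hN : 8 * d + 2 ≤ N)
    (hev : 4 * d * C * (C₂ * Real.log N + 1) ^ 4 ≤ (N : ℝ) ^ (κ / 2)) :
    ∑ b ∈ range (N + 1), ((d : ℝ) * b ^ 2) * smallTau ϑ C C₂ c₁ W N b ≤
      (N : ℝ) ^ (-1 - δ) * W := by
  have hNR : ((8 * d + 2 : ℕ) : ℝ) ≤ N := by exact_mod_cast hN
  push_cast at hNR
  have hd0 : (0 : ℝ) ≤ d := Nat.cast_nonneg _
  have hn1 : (1 : ℝ) ≤ N := by linarith
  have hn0 : (0 : ℝ) < N := by linarith
  set n : ℝ := (N : ℝ) with hn
  set L : ℝ := Real.log n with hL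
  have hL0 : 0 ≤ L := Real.log_nonneg hn1
  set T2 : ℝ := 2 * d * C * W * (C₂ * L) ^ 3 * n ^ (-1 - κ) with hT2
  have hT20 : 0 ≤ T2 := by positivity
  have hterm : ∀ b ∈ range (N + 1), ((d : ℝ) * b ^ 2) * smallTau ϑ C C₂ c₁ W N b ≤
      2 * d * W * n ^ (-4 : ℝ) + (if (b : ℝ) ≤ C₂ * L then T2 else 0) := by
    intro b hb
    have hbN : (b : ℝ) ≤ n := by
      have := Nat.lt_succ_iff.1 (mem_range.1 hb)
      rw [hn]
      exact_mod_cast this
    have hb0 : (0 : ℝ) ≤ b := Nat.cast_nonneg _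
    have hfirst : 0 ≤ 2 * (d : ℝ) * W * n ^ (-4 : ℝ) := by positivity
    unfold smallTau
    by_cases h1 : C₂ * Real.log N < b
    · rw [if_pos h1]
      have h2 : ϑ ^ b ≤ n ^ (-6 : ℝ) := smallS_pow hϑ0 hlm hn1 hC₂ hlm0 h1
      have h3 : (d : ℝ) * b ^ 2 * (2 * W * ϑ ^ b) ≤ d * n ^ 2 * (2 * W * n ^ (-6 : ℝ)) := by
        gcongr
      have h4 : (d : ℝ) * n ^ 2 * (2 * W * n ^ (-6 : ℝ)) = 2 * d * W * n ^ (-4 : ℝ) := by
        have h5 : n ^ 2 * n ^ (-6 : ℝ) = n ^ (-4 : ℝ) := by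
          rw [← Real.rpow_natCast, ← Real.rpow_add hn0]
          norm_num
        rw [← h5]
        ring
      rw [h4] at h3
      have h6 : 0 ≤ (if (b : ℝ) ≤ C₂ * L then T2 else 0) := by
        split_ifs
        · exact hT20
        · exact le_rfl
      linarith
    · rw [if_neg h1]
      have h1' : (b : ℝ) ≤ C₂ * L := not_lt.1 h1
      rw [if_pos h1']
      by_cases h2 : c₁ * Real.log N < b
      · rw [if_pos h2]
        have h3 : ϑ ^ b ≤ n ^ (-κ) := smallS_pow hϑ0 hlm hn1 hκ hlm0 h2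
        have h4 : (d : ℝ) * b ^ 2 * (2 * W * ϑ ^ b * (C * b / n)) ≤
            d * (C₂ * L) ^ 2 * (2 * W * n ^ (-κ) * (C * (C₂ * L) / n)) := by
          gcongr
        have h5 : (d : ℝ) * (C₂ * L) ^ 2 * (2 * W * n ^ (-κ) * (C * (C₂ * L) / n)) = T2 := by
          have h6 : n ^ (-1 - κ) = n ^ (-κ) / n := by
            rw [show (-1 - κ : ℝ) = -κ - 1 by ring, Real.rpow_sub hn0, Real.rpow_one]
          rw [hT2, h6]
          ring
        rw [h5] at h4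
        linarith
      · rw [if_neg h2, mul_zero]
        positivity
  refine (Finset.sum_le_sum hterm).trans ?_
  rw [Finset.sum_add_distrib, Finset.sum_const, Finset.card_range, nsmul_eq_mul,
    ← Finset.sum_filter, Finset.sum_const, nsmul_eq_mul]
  have hcard : (((range (N + 1)).filter (fun b : ℕ => (b : ℝ) ≤ C₂ * L)).card : ℝ) ≤
      C₂ * L + 1 := by
    have h1 : ((range (N + 1)).filter (fun b : ℕ => (b : ℝ) ≤ C₂ * L)) ⊆
        range (⌊C₂ * L⌋₊ + 1) := by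
      intro b hb
      rw [mem_filter] at hb
      rw [mem_range, Nat.lt_succ_iff]
      exact Nat.le_floor hb.2
    have h2 := card_le_card h1
    rw [card_range] at h2
    have h3 : (((range (N + 1)).filter (fun b : ℕ => (b : ℝ) ≤ C₂ * L)).card : ℝ) ≤
        ⌊C₂ * L⌋₊ + 1 := by exact_mod_cast h2
    have h4 := Nat.floor_le (by positivity : 0 ≤ C₂ * L)
    linarith
  have hsum1 : ((N + 1 : ℕ) : ℝ) * (2 * d * W * n ^ (-4 : ℝ)) ≤ 1 / 2 * (n ^ (-1 - δ) * W) := by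
    have h1 : n ^ (-2 : ℝ) ≤ n ^ (-1 - δ) := Real.rpow_le_rpow_of_exponent_le hn1 (by linarith)
    have h2 : n ^ (-4 : ℝ) = n ^ (-2 : ℝ) / n ^ 2 := by
      rw [← Real.rpow_natCast, ← Real.rpow_sub hn0]
      norm_num
    have h3 : (((N + 1 : ℕ) : ℝ) * (2 * d)) ≤ 1 / 2 * n ^ 2 := by
      push_cast
      nlinarith
    have h4 : ((N + 1 : ℕ) : ℝ) * (2 * d * W * n ^ (-4 : ℝ)) =
        (((N + 1 : ℕ) : ℝ) * (2 * d)) * (W * n ^ (-2 : ℝ) / n ^ 2) := by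
      rw [h2]; ring
    rw [h4]
    calc (((N + 1 : ℕ) : ℝ) * (2 * d)) * (W * n ^ (-2 : ℝ) / n ^ 2)
        ≤ (1 / 2 * n ^ 2) * (W * n ^ (-2 : ℝ) / n ^ 2) :=
          mul_le_mul_of_nonneg_right h3 (by positivity)
      _ = 1 / 2 * (n ^ (-2 : ℝ) * W) := by field_simp
      _ ≤ 1 / 2 * (n ^ (-1 - δ) * W) := by gcongr
  have hsum2 : (((range (N + 1)).filter (fun b : ℕ => (b : ℝ) ≤ C₂ * L)).card : ℝ) * T2 ≤
      1 / 2 * (n ^ (-1 - δ) * W) := by
    have h1 : n ^ (-1 - κ / 2) ≤ n ^ (-1 - δ) :=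
      Real.rpow_le_rpow_of_exponent_le hn1 (by linarith)
    have h2 : (C₂ * L) ^ 3 ≤ (C₂ * L + 1) ^ 3 := by
      have : 0 ≤ C₂ * L := by positivity
      gcongr
      linarith
    have h3 : n ^ (κ / 2) * n ^ (-1 - κ) = n ^ (-1 - κ / 2) := by
      rw [← Real.rpow_add hn0]
      congr 1
      ring
    have hCL : 0 ≤ C₂ * L := by positivity
    calc (((range (N + 1)).filter (fun b : ℕ => (b : ℝ) ≤ C₂ * L)).card : ℝ) * T2
        ≤ (C₂ * L + 1) * T2 := mul_le_mul_of_nonneg_right hcard hT20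
      _ ≤ (C₂ * L + 1) * (2 * d * C * W * (C₂ * L + 1) ^ 3 * n ^ (-1 - κ)) := by
          rw [hT2]
          gcongr
      _ = 1 / 2 * ((4 * d * C * (C₂ * L + 1) ^ 4) * (n ^ (-1 - κ) * W)) := by ring
      _ ≤ 1 / 2 * (n ^ (κ / 2) * (n ^ (-1 - κ) * W)) := by gcongr
      _ = 1 / 2 * (n ^ (-1 - κ / 2) * W) := by rw [← mul_assoc (n ^ (κ / 2)), h3]
      _ ≤ 1 / 2 * (n ^ (-1 - δ) * W) := by gcongr
  linarith

/-- the possible sizes, numbers of inner pairs and numbers of crossing pairs -/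
private def smallP (d : ℕ) (ε C₂ c₁ : ℝ) (N M b e x : ℕ) : Prop :=
  1 ≤ b ∧ (b : ℝ) ≤ ε * N ∧ b ≤ e ∧ 2 * e < 3 * b ∧ x + b ≤ d * b ∧ e + x ≤ M ∧
    ((b : ℝ) ≤ C₂ * Real.log N → b + 1 ≤ e ∧ c₁ * Real.log N < b)

private theorem smallS_struct {V : Type} [Fintype V] [DecidableEq V] {d M : ℕ} (hd : 2 ≤ d)
    {ε ε' C₂ c₁ : ℝ} (hεε : ε ≤ ε') {u : Fin M → V × V} (hT : u ∈ TT V (d + 1) M) (hu : Simp u)
    (h1 : E1 c₁ (Fintype.card V) (edges u)) (h2 : E2 ε' (Fintype.card V) (edges u))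
    {B : Finset V} (hB : B.Nonempty) (hIs : IsB d (edges u) univ B)
    (hs : (B.card : ℝ) ≤ ε * Fintype.card V)
    (hn : ¬ ((B.card : ℝ) ≤ C₂ * Real.log (Fintype.card V) ∧ (ins (edges u) B).card ≤ B.card)) :
    smallP d ε C₂ c₁ (Fintype.card V) M B.card (nin u B) (ncr u B) ∧
      ∀ v ∈ B, cr u B v < d := by
  have hcr : ∀ v ∈ B, cr u B v < d := by
    intro v hv
    rw [← nb_compl_eq hu B hv]
    exact hIs.2 v hv
  have hx : ncr u B + B.card ≤ d * B.card := by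
    rw [← sum_cr, Finset.card_eq_sum_ones, ← Finset.sum_add_distrib, Finset.mul_sum]
    refine Finset.sum_le_sum fun v hv => ?_
    have := hcr v hv
    omega
  have hocc : (d + 1) * B.card ≤ 2 * nin u B + ncr u B := by
    rw [← sum_occ, Finset.card_eq_sum_ones, Finset.mul_sum]
    refine Finset.sum_le_sum fun v _ => ?_
    unfold TT at hT
    have := (mem_filter.1 hT).2 v
    omega
  have he : B.card ≤ nin u B := by
    have h3 : (d + 1) * B.card = d * B.card + B.card := by ring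
    omega
  have hpos : 1 ≤ B.card := Finset.card_pos.2 hB
  have hN0 : (0 : ℝ) ≤ Fintype.card V := Nat.cast_nonneg _
  have h2' := h2 B hB (hs.trans (mul_le_mul_of_nonneg_right hεε hN0))
  rw [card_ins_eq hu] at h2' hn
  refine ⟨⟨hpos, hs, he, h2', hx, nin_add_ncr_le u B, ?_⟩, hcr⟩
  intro hlog
  have h3 : ¬ nin u B ≤ B.card := fun h => hn ⟨hlog, h⟩
  refine ⟨by omega, ?_⟩
  by_contra h4
  rw [not_lt] at h4
  have h5 := h1 B hB h4
  rw [card_ins_eq hu] at h5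
  exact h3 h5

open Classical in
theorem e4_count (d : ℕ) (hd : 2 ≤ d) (c₁ ε' : ℝ) (hc₁ : 0 < c₁) (hε' : 0 < ε') :
    ∃ C₂ > 0, ∃ ε > 0, ε < 1 ∧ ∃ δ : ℝ, 0 < δ ∧ ∃ N₀ : ℕ, ∀ (V : Type) [Fintype V] [DecidableEq V],
    N₀ ≤ Fintype.card V → ∀ M s' : ℕ, s' ≤ 1 → M + KK d + s' = d * Fintype.card V →
      (((TT V (d + 1) M).filter (fun u => Simp u ∧ E1 c₁ (Fintype.card V) (edges u) ∧
        E2 ε' (Fintype.card V) (edges u) ∧ ¬ E4 d C₂ ε (edges u) univ)).card : ℝ) ≤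
      (Fintype.card V : ℝ) ^ (-1 - δ) * ((TT V (d + 1) M).card : ℝ) := by
  classical
  obtain ⟨ϑ, hϑ0, hϑ1, C, hC, ε₁, hε₁, N₁, hst⟩ := small_term d hd
  set lm : ℝ := -Real.log ϑ with hlm
  have hlm0 : 0 < lm := by
    have := Real.log_neg hϑ0 hϑ1
    rw [hlm]; linarith
  set C₂ : ℝ := 6 / lm with hC₂
  have hC₂0 : 0 < C₂ := by positivity
  have hC₂' : C₂ * lm = 6 := by rw [hC₂]; field_simp
  set κ : ℝ := c₁ * lm with hκ
  have hκ0 : 0 < κ := by positivity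
  set δ : ℝ := min (κ / 2) 1 with hδ
  have hδ0 : 0 < δ := lt_min (by positivity) one_pos
  set ε : ℝ := min (min ε₁ ε') (min (1 / (2 * C)) (1 / 2)) with hε
  have hε0 : 0 < ε := lt_min (lt_min hε₁ hε') (lt_min (by positivity) (by norm_num))
  have hεε₁ : ε ≤ ε₁ := (min_le_left _ _).trans (min_le_left _ _)
  have hεε' : ε ≤ ε' := (min_le_left _ _).trans (min_le_right _ _)
  have hεC : ε ≤ 1 / (2 * C) := (min_le_right _ _).trans (min_le_left _ _)
  have hεh : ε ≤ 1 / 2 := (min_le_right _ _).trans (min_le_right _ _)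
  obtain ⟨N₂, hN₂⟩ := smallS_ev (4 * d * C) C₂ κ (by positivity) hC₂0.le hκ0
  refine ⟨C₂, hC₂0, ε, hε0, by linarith, δ, hδ0, max (max N₁ N₂) (8 * d + 2), ?_⟩
  intro V _ _ hN M s' hs' hM
  have hNN₁ : N₁ ≤ Fintype.card V := (le_max_left _ _).trans ((le_max_left _ _).trans hN)
  have hNN₂ : N₂ ≤ Fintype.card V := (le_max_right _ _).trans ((le_max_left _ _).trans hN)
  have hN8 : 8 * d + 2 ≤ Fintype.card V := (le_max_right _ _).trans hN
  rw [card_TT]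
  set N : ℕ := Fintype.card V with hNdef
  set W : ℝ := (Wd (d + 1) N (2 * M) : ℝ) with hW
  have hW0 : 0 ≤ W := Nat.cast_nonneg _
  have hNpos : (0 : ℝ) < N := by
    have : 0 < N := by omega
    exact_mod_cast this
  have hev := hN₂ N hNN₂
  refine le_trans ?_ (smallS_sum hϑ0 hlm hlm0 hC hC₂' hC₂0.le rfl hκ0 hW0 (min_le_left _ _)
    (min_le_right _ _) hN8 hev)
  -- the bound of one term
  set bd : ℕ → ℕ → ℕ → ℝ := fun b e x => (M.factorial : ℝ) * 2 ^ x * (Zd d b x (2 * e) : ℝ) *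
    (Wd (d + 1) (N - b) (2 * M - 2 * e - x) : ℝ) /
      ((e.factorial : ℝ) * (x.factorial : ℝ) * ((M - e - x).factorial : ℝ)) with hbd
  have hcnt : ∀ (B : Finset V) (e x : ℕ), e + x ≤ M →
      (((TT V (d + 1) M).filter (fun u => nin u B = e ∧ ncr u B = x ∧
        ∀ v ∈ B, cr u B v < d)).card : ℝ) ≤ bd B.card e x := by
    intro B e x hex
    rw [hbd]
    have hp : (0 : ℝ) < (e.factorial : ℝ) * (x.factorial : ℝ) * ((M - e - x).factorial : ℝ) := by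
      positivity
    rw [le_div_iff₀ hp]
    have h1 := split_count (M := M) d B e x hex
    exact_mod_cast h1
  set Q : Finset ((ℕ × ℕ)) := range (M + 1) ×ˢ range (M + 1) with hQ
  set I : Finset (Finset V × (ℕ × ℕ)) := ((univ : Finset V).powerset ×ˢ Q).filter
    (fun t => smallP d ε C₂ c₁ N M t.1.card t.2.1 t.2.2) with hI
  have hsub : (TT V (d + 1) M).filter (fun u => Simp u ∧ E1 c₁ N (edges u) ∧
      E2 ε' N (edges u) ∧ ¬ E4 d C₂ ε (edges u) univ) ⊆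
      I.biUnion (fun t => (TT V (d + 1) M).filter (fun u => nin u t.1 = t.2.1 ∧
        ncr u t.1 = t.2.2 ∧ ∀ v ∈ t.1, cr u t.1 v < d)) := by
    intro u hu
    rw [mem_filter] at hu
    obtain ⟨hT, hS, h1, h2, h4⟩ := hu
    unfold E4 at h4
    push Not at h4
    obtain ⟨B, hB, hIs, hs, hn⟩ := h4
    rw [Finset.card_univ] at hs hn
    have hn' : ¬ ((B.card : ℝ) ≤ C₂ * Real.log (Fintype.card V) ∧
        (ins (edges u) B).card ≤ B.card) := fun h => absurd h.2 (not_le.2 (hn h.1))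
    obtain ⟨hP, hcr⟩ := smallS_struct hd hεε' hT hS h1 h2 hB hIs hs hn'
    rw [mem_biUnion]
    refine ⟨(B, (nin u B, ncr u B)), ?_, ?_⟩
    · rw [hI, mem_filter, mem_product, hQ, mem_product, mem_range, mem_range, mem_powerset]
      have h5 := nin_add_ncr_le u B
      exact ⟨⟨subset_univ _, by show nin u B < M + 1; omega, by show ncr u B < M + 1; omega⟩, hP⟩
    · rw [mem_filter]
      exact ⟨hT, rfl, rfl, hcr⟩
  have hstep1 : (((TT V (d + 1) M).filter (fun u => Simp u ∧ E1 c₁ N (edges u) ∧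
      E2 ε' N (edges u) ∧ ¬ E4 d C₂ ε (edges u) univ)).card : ℝ) ≤
      ∑ t ∈ I, bd t.1.card t.2.1 t.2.2 := by
    have h1 := (card_le_card hsub).trans card_biUnion_le
    have h2 : (((TT V (d + 1) M).filter (fun u => Simp u ∧ E1 c₁ N (edges u) ∧
      E2 ε' N (edges u) ∧ ¬ E4 d C₂ ε (edges u) univ)).card : ℝ) ≤
        ∑ t ∈ I, (((TT V (d + 1) M).filter (fun u => nin u t.1 = t.2.1 ∧
        ncr u t.1 = t.2.2 ∧ ∀ v ∈ t.1, cr u t.1 v < d)).card : ℝ) := by exact_mod_cast h1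
    refine h2.trans (Finset.sum_le_sum fun t ht => ?_)
    rw [hI, mem_filter] at ht
    exact hcnt t.1 t.2.1 t.2.2 ht.2.2.2.2.2.2.1
  refine hstep1.trans ?_
  rw [hI, Finset.sum_filter, Finset.sum_product]
  have hpw := Finset.sum_powerset_apply_card
    (fun b => ∑ y ∈ Q, if smallP d ε C₂ c₁ N M b y.1 y.2 then bd b y.1 y.2 else 0)
    (x := (univ : Finset V))
  rw [Finset.card_univ, ← hNdef] at hpw
  refine (le_of_eq hpw).trans ?_
  refine Finset.sum_le_sum fun b _ => ?_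
  rw [nsmul_eq_mul, Finset.mul_sum]
  -- the terms for a fixed size
  have hτ0 : 0 ≤ smallTau ϑ C C₂ c₁ W N b := by
    unfold smallTau
    split_ifs <;> positivity
  have hone : ∀ y ∈ Q, (N.choose b : ℝ) *
      (if smallP d ε C₂ c₁ N M b y.1 y.2 then bd b y.1 y.2 else 0) ≤
      if (smallP d ε C₂ c₁ N M b y.1 y.2) then smallTau ϑ C C₂ c₁ W N b else 0 := by
    intro y _
    by_cases hP : smallP d ε C₂ c₁ N M b y.1 y.2
    · rw [if_pos hP, if_pos hP]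
      obtain ⟨p1, p2, p3, p4, p5, -, p7⟩ := hP
      have h1 := hst N hNN₁ M s' hs' hM b y.1 y.2 p1
        (p2.trans (mul_le_mul_of_nonneg_right hεε₁ hNpos.le)) p3 p4 p5
      refine h1.trans ?_
      have hb0 : (0 : ℝ) ≤ b := Nat.cast_nonneg _
      have hr0 : 0 ≤ C * b / N := by positivity
      have hr1 : C * b / N ≤ 1 := by
        rw [div_le_one hNpos]
        calc C * b ≤ C * (ε * N) := by gcongr
          _ ≤ C * (1 / (2 * C) * N) := by gcongr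
          _ = N / 2 := by field_simp
          _ ≤ N := by linarith
      unfold smallTau
      by_cases hlog : C₂ * Real.log N < b
      · rw [if_pos hlog]
        have h2 : (C * b / N) ^ (y.1 - b) ≤ 1 := pow_le_one₀ hr0 hr1
        calc 2 * W * ϑ ^ b * (C * b / N) ^ (y.1 - b) ≤ 2 * W * ϑ ^ b * 1 := by gcongr
          _ = 2 * W * ϑ ^ b := mul_one _
      · rw [if_neg hlog]
        obtain ⟨q1, q2⟩ := p7 (not_lt.1 hlog)
        rw [if_pos q2]
        have h2 : (C * b / N) ^ (y.1 - b) ≤ C * b / N :=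
          pow_le_of_le_one hr0 hr1 (by omega)
        gcongr
    · rw [if_neg hP, if_neg hP, mul_zero]
  refine (Finset.sum_le_sum hone).trans ?_
  rw [← Finset.sum_filter, Finset.sum_const, nsmul_eq_mul]
  refine mul_le_mul_of_nonneg_right ?_ hτ0
  have hsub2 : Q.filter (fun y => smallP d ε C₂ c₁ N M b y.1 y.2) ⊆
      (Finset.Ico b (2 * b)) ×ˢ range (d * b) := by
    intro y hy
    rw [mem_filter] at hy
    obtain ⟨-, p1, p2, p3, p4, p5, -, -⟩ := hy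
    rw [mem_product, Finset.mem_Ico, mem_range]
    refine ⟨⟨p3, by omega⟩, by omega⟩
  have h3 := card_le_card hsub2
  rw [card_product, Nat.card_Ico, card_range] at h3
  have h4 : (2 * b - b) * (d * b) = d * b ^ 2 := by
    rw [show 2 * b - b = b by omega]; ring
  rw [h4] at h3
  exact_mod_cast h3

end Pool.Agent.Helper50.RG
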