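import Pool.Agent.Helper50.RG.WordsO

/-!
# RG-55 : removing letters

`wd_remove`: remove `b` letters one after the other, the first one with `D = s - (d+1)(b-1)`
occurrences, the others with `d + 1`: `wd_drop` with `r = 2 d + 1` and `wd_occ` for the current
numbers `N' = N - i`, `m'` (they satisfy `|m' - 2 d N'| ≤ δ₀ N'` if `ε₀` is small):
`Wd k (N'-1) (m'-D) ≤ Wd k N' m' ((m'-D)!/m'!) (2 ϑ/k) k! (2d+1)^(D-k)`.
-/

set_option autoImplicit false

namespace Pool.Agent.Helper50.RG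

open Finset

private theorem wd_remove_step (d : ℕ) {ϑ : ℝ} {n m D : ℕ} (hn : 2 ≤ n)
    (hocc : ((d : ℝ) + 1) * (m.choose (d + 1) : ℝ) * (Wd (d + 1) (n - 1) (m - (d + 1)) : ℝ) ≤
      2 * ϑ * (Wd (d + 1) n m : ℝ))
    (hD : d + 1 ≤ D) (hDm : D ≤ m) (hr : (m : ℝ) ≤ (2 * (d : ℝ) + 1) * ((n - 1 : ℕ) : ℝ)) :
    (Wd (d + 1) (n - 1) (m - D) : ℝ) * (m.factorial : ℝ) ≤
      (Wd (d + 1) n m : ℝ) * ((m - D).factorial : ℝ) *
        ((2 * ϑ * (d.factorial : ℝ)) * (2 * (d : ℝ) + 1) ^ (D - (d + 1))) := by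
  have h1 := wd_drop (d + 1) (n - 1) m D hD hDm (by omega) hr
  have h2 : (m.factorial : ℝ) = (m.choose D : ℝ) * (D.factorial : ℝ) * ((m - D).factorial : ℝ) := by
    have := Nat.choose_mul_factorial_mul_factorial hDm
    exact_mod_cast this.symm
  have h3 : ((d + 1).factorial : ℝ) = ((d : ℝ) + 1) * (d.factorial : ℝ) := by
    rw [Nat.factorial_succ]; push_cast; ring
  calc (Wd (d + 1) (n - 1) (m - D) : ℝ) * (m.factorial : ℝ) =
      ((m.choose D : ℝ) * (Wd (d + 1) (n - 1) (m - D) : ℝ) * (D.factorial : ℝ)) *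
        ((m - D).factorial : ℝ) := by rw [h2]; ring
    _ ≤ ((m.choose (d + 1) : ℝ) * (Wd (d + 1) (n - 1) (m - (d + 1)) : ℝ) *
        ((d + 1).factorial : ℝ) * (2 * (d : ℝ) + 1) ^ (D - (d + 1))) * ((m - D).factorial : ℝ) :=
      mul_le_mul_of_nonneg_right h1 (by positivity)
    _ = (((d : ℝ) + 1) * (m.choose (d + 1) : ℝ) * (Wd (d + 1) (n - 1) (m - (d + 1)) : ℝ)) *
        ((d.factorial : ℝ) * (2 * (d : ℝ) + 1) ^ (D - (d + 1)) * ((m - D).factorial : ℝ)) := by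
      rw [h3]; ring
    _ ≤ (2 * ϑ * (Wd (d + 1) n m : ℝ)) *
        ((d.factorial : ℝ) * (2 * (d : ℝ) + 1) ^ (D - (d + 1)) * ((m - D).factorial : ℝ)) :=
      mul_le_mul_of_nonneg_right hocc (by positivity)
    _ = _ := by ring

private theorem wd_remove_comb {A B C F0 F1 F2 c1 c2 : ℝ} (h1 : A * F1 ≤ B * F2 * c1)
    (h2 : B * F0 ≤ C * F1 * c2) (hF1 : 0 < F1) (hF0 : 0 ≤ F0) (hF2 : 0 ≤ F2) (hc1 : 0 ≤ c1) :
    A * F0 ≤ C * F2 * (c2 * c1) := by
  have h3 : A * F0 * F1 ≤ C * F2 * (c2 * c1) * F1 := by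
    calc A * F0 * F1 = (A * F1) * F0 := by ring
      _ ≤ (B * F2 * c1) * F0 := mul_le_mul_of_nonneg_right h1 hF0
      _ = (B * F0) * (F2 * c1) := by ring
      _ ≤ (C * F1 * c2) * (F2 * c1) := mul_le_mul_of_nonneg_right h2 (by positivity)
      _ = _ := by ring
  exact le_of_mul_le_mul_right h3 hF1

private theorem wd_remove_iter (d : ℕ) {ϑ : ℝ} (hϑ : 0 < ϑ) (N m b : ℕ)
    (hst : ∀ j, j < b → ∀ D, d + 1 ≤ D → D ≤ m - (d + 1) * j →
      (Wd (d + 1) (N - j - 1) (m - (d + 1) * j - D) : ℝ) * ((m - (d + 1) * j).factorial : ℝ) ≤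
        (Wd (d + 1) (N - j) (m - (d + 1) * j) : ℝ) * ((m - (d + 1) * j - D).factorial : ℝ) *
          ((2 * ϑ * (d.factorial : ℝ)) * (2 * (d : ℝ) + 1) ^ (D - (d + 1))))
    (hbm : (d + 1) * b ≤ m) :
    (Wd (d + 1) (N - b) (m - (d + 1) * b) : ℝ) * (m.factorial : ℝ) ≤
      (Wd (d + 1) N m : ℝ) * ((m - (d + 1) * b).factorial : ℝ) *
        (2 * ϑ * (d.factorial : ℝ)) ^ b := by
  induction b with
  | zero => simp
  | succ b ih =>
    have hq : (d + 1) * (b + 1) = (d + 1) * b + (d + 1) := by ring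
    have ih' := ih (fun j hj => hst j (by omega)) (by omega)
    have h1 := hst b (by omega) (d + 1) le_rfl (by omega)
    rw [Nat.sub_self, pow_zero, mul_one] at h1
    have e1 : m - (d + 1) * (b + 1) = m - (d + 1) * b - (d + 1) := by omega
    have e2 : N - (b + 1) = N - b - 1 := by omega
    rw [e1, e2, pow_succ]
    exact wd_remove_comb h1 ih' (by positivity) (by positivity) (by positivity) (by positivity)

theorem wd_remove (d : ℕ) (hd : 2 ≤ d) : ∃ ϑ : ℝ, 0 < ϑ ∧ ϑ < 1 ∧ ∃ ε₀ > 0, ∃ N₀ : ℕ, ∀ N ≥ N₀,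
    ∀ m : ℕ, |(m : ℝ) - 2 * d * N| ≤ ε₀ * N → ∀ b : ℕ, (b : ℝ) ≤ ε₀ * N →
    ∀ s : ℕ, (d + 1) * b ≤ s → s ≤ (d + 2) * b →
      (Wd (d + 1) (N - b) (m - s) : ℝ) * (m.factorial : ℝ) ≤
        (Wd (d + 1) N m : ℝ) * ((m - s).factorial : ℝ) *
          (2 * ϑ * (d.factorial : ℝ)) ^ b * (2 * (d : ℝ) + 1) ^ (s - (d + 1) * b) := by
  obtain ⟨ϑ, hϑ0, hϑ1, δ₀, hδ₀, N₁, hocc⟩ := wd_occ d hd
  have hd' : (2 : ℝ) ≤ d := by exact_mod_cast hd
  refine ⟨ϑ, hϑ0, hϑ1, min (1 / (4 * (d : ℝ))) (δ₀ / (2 * d)), by positivity, 2 * N₁ + 8 * d + 4,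
    fun N hN m hm b hb s hs1 hs2 => ?_⟩
  set ε₀ : ℝ := min (1 / (4 * (d : ℝ))) (δ₀ / (2 * d)) with hε₀
  have hε1 : d * ε₀ ≤ 1 / 4 := by
    calc d * ε₀ ≤ d * (1 / (4 * (d : ℝ))) :=
          mul_le_mul_of_nonneg_left (min_le_left _ _) (by positivity)
      _ = 1 / 4 := by field_simp
  have hε2 : d * ε₀ ≤ δ₀ / 2 := by
    calc d * ε₀ ≤ d * (δ₀ / (2 * (d : ℝ))) :=
          mul_le_mul_of_nonneg_left (min_le_right _ _) (by positivity)
      _ = δ₀ / 2 := by field_simp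
  have hε0 : 0 < ε₀ := by positivity
  have hε3 : ε₀ ≤ 1 / 8 := by nlinarith
  have hNR : (2 * (N₁ : ℝ) + 8 * d + 4) ≤ N := by exact_mod_cast hN
  have hN0 : (0 : ℝ) ≤ N := by positivity
  have hN₁0 : (0 : ℝ) ≤ N₁ := by positivity
  obtain ⟨hm1, hm2⟩ := abs_le.1 hm
  have hdεN : d * ε₀ * N ≤ 1 / 4 * N := mul_le_mul_of_nonneg_right hε1 hN0
  have hdεN2 : d * ε₀ * N ≤ δ₀ / 2 * N := mul_le_mul_of_nonneg_right hε2 hN0
  have hεN : ε₀ * N ≤ 1 / 8 * N := mul_le_mul_of_nonneg_right hε3 hN0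
  have hsm : s ≤ m := by
    have h1 : (s : ℝ) ≤ ((d : ℝ) + 2) * b := by exact_mod_cast hs2
    have h2 : ((d : ℝ) + 2) * b ≤ ((d : ℝ) + 2) * (ε₀ * N) :=
      mul_le_mul_of_nonneg_left hb (by positivity)
    have h3 : (s : ℝ) ≤ m := by nlinarith
    exact_mod_cast h3
  have hst : ∀ j, j < b → ∀ D, d + 1 ≤ D → D ≤ m - (d + 1) * j →
      (Wd (d + 1) (N - j - 1) (m - (d + 1) * j - D) : ℝ) * ((m - (d + 1) * j).factorial : ℝ) ≤
        (Wd (d + 1) (N - j) (m - (d + 1) * j) : ℝ) * ((m - (d + 1) * j - D).factorial : ℝ) *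
          ((2 * ϑ * (d.factorial : ℝ)) * (2 * (d : ℝ) + 1) ^ (D - (d + 1))) := by
    intro j hj D hD1 hD2
    have hjR : (j : ℝ) + 1 ≤ b := by exact_mod_cast hj
    have hj0 : (0 : ℝ) ≤ j := by positivity
    have hjN : j ≤ N := by
      have : (j : ℝ) ≤ N := by linarith
      exact_mod_cast this
    have hjm : (d + 1) * j ≤ m := by
      have : (d + 1) * j ≤ (d + 1) * b := Nat.mul_le_mul_left _ hj.le
      omega
    have en : ((N - j : ℕ) : ℝ) = (N : ℝ) - j := by push_cast [hjN]; ring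
    have em : ((m - (d + 1) * j : ℕ) : ℝ) = (m : ℝ) - (d + 1) * j := by push_cast [hjm]; ring
    have hjd : (d : ℝ) * j ≤ d * (ε₀ * N) := mul_le_mul_of_nonneg_left (by linarith) (by positivity)
    have habs : |((m - (d + 1) * j : ℕ) : ℝ) - 2 * d * ((N - j : ℕ) : ℝ)| ≤ d * ε₀ * N := by
      rw [en, em]
      have e : (m : ℝ) - (d + 1) * j - 2 * d * (N - j) = (m - 2 * d * N) + (d - 1) * j := by ring
      have hjd2 : ((d : ℝ) - 1) * j ≤ (d - 1) * (ε₀ * N) :=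
        mul_le_mul_of_nonneg_left (by linarith) (by linarith)
      have hjd3 : 0 ≤ ((d : ℝ) - 1) * j := mul_nonneg (by linarith) hj0
      rw [e, abs_le]
      have hεN0 : 0 ≤ ε₀ * N := by positivity
      constructor
      · nlinarith
      · nlinarith
    have hn2 : (N : ℝ) / 2 ≤ ((N - j : ℕ) : ℝ) := by rw [en]; linarith
    have hN₁ : N₁ ≤ N - j := by
      have : (N₁ : ℝ) ≤ ((N - j : ℕ) : ℝ) := by linarith
      exact_mod_cast this
    have hnbig : (4 * (d : ℝ) + 2) ≤ ((N - j : ℕ) : ℝ) := by linarith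
    have hn : 2 ≤ N - j := by
      have : ((2 : ℕ) : ℝ) ≤ ((N - j : ℕ) : ℝ) := by push_cast; linarith
      exact_mod_cast this
    have en1 : ((N - j - 1 : ℕ) : ℝ) = ((N - j : ℕ) : ℝ) - 1 := by
      rw [Nat.cast_sub (by omega : 1 ≤ N - j), Nat.cast_one]
    refine wd_remove_step d hn (hocc (N - j) hN₁ _ ?_) hD1 hD2 ?_
    · refine habs.trans (hdεN2.trans ?_)
      have := mul_le_mul_of_nonneg_left hn2 hδ₀.le
      linarith
    · rw [en1]
      have h1 := (abs_le.1 habs).2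
      linarith
  rcases Nat.eq_zero_or_pos b with rfl | hbpos
  · have hs0 : s = 0 := by omega
    subst hs0
    simp
  · obtain ⟨b', rfl⟩ : ∃ b', b = b' + 1 := ⟨b - 1, by omega⟩
    have hq : (d + 1) * (b' + 1) = (d + 1) * b' + (d + 1) := by ring
    have h2 := wd_remove_iter d hϑ0 N m b' (fun j hj => hst j (by omega)) (by omega)
    have h1 := hst b' (by omega) (s - (d + 1) * b') (by omega) (by omega)
    have e1 : m - (d + 1) * b' - (s - (d + 1) * b') = m - s := by omega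
    have e2 : N - b' - 1 = N - (b' + 1) := by omega
    have e3 : s - (d + 1) * b' - (d + 1) = s - (d + 1) * (b' + 1) := by omega
    rw [e1, e2, e3] at h1
    refine (wd_remove_comb h1 h2 (by positivity) (by positivity) (by positivity)
      (by positivity)).trans (le_of_eq ?_)
    rw [pow_succ]
    ring

end Pool.Agent.Helper50.RG
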