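import Pool.Agent.Helper50.RG.Split
import Pool.Agent.Helper50.RG.WordsD

/-!
# RG-36 : the expected number of small sets `B`, one term

Let `T(b, e, x)` be `C(N, b)` times the bound of `split_count`,
`M!/(e! x! (M-e-x)!) 2^x Zd d b x (2e) Wd (d+1) (N-b) (2M-2e-x)`, `e = b + ℓ`, `0 ≤ ℓ < b/2`,
`x ≤ (d-1) b`. Let `s = 2 e + x`. If `s < (d+1) b` then `Zd = 0`. Otherwise `s ≤ (d+2) b`. By `zd_le` with `y = 1` and a
constant `z ∈ (0, 1]`: `Zd ≤ x! (2e)! z^(-2e) (gk d z 1)^b`, and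
`gk d z 1 ≤ z²/(2 (d-1)!) (1 + C z)` (the term `i = d - 1` is `fk 2 z / (d-1)! ≤ z²/2 e^z/(d-1)!`, the
others are `O(z³)`; `fk j z ≤ z^j/j! e^z`). By `wd_remove`,
`Wd (N-b) (2M-s) ≤ Wd N (2M) ((2M-s)!/(2M)!) (2 ϑ d!)^b (2d+1)^(s-(d+1)b)` and `s - (d+1) b ≤ 2 ℓ`.
`M!/(M-e-x)! (2M-s)!/(2M)! ≤ M^(e+x) / ((2M)^s (1 - s/(2M))^s) ≤ M^(-e) 2^(-2e-x) e^(s²/M)` (for
`s ≤ M`), and `s²/M ≤ C b ε₁`. `(2e)!/(e! 4^e) ≤ e!`. `C(N,b) e! M^(-e) ≤ (N/M)^b ((b+ℓ)!/b!) M^(-ℓ)
≤ (N/M)^b (1.5 b/M)^ℓ`, `(N/M)^b ≤ 2 d^(-b)` (`M ≥ d N - C`). Altogether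
`T ≤ 2 Wd N (2M) [ϑ (1 + C z) e^(C ε₁)]^b ((2d+1)² z^(-2) (3/2) b / M)^ℓ`. Choose `z`, then `ε₁`.
-/

set_option autoImplicit false

namespace Pool.Agent.Helper50.RG

open Finset

/-- the occurrence numbers add up to the length of the word -/
private theorem sum_cn {ι L : Type} [Fintype ι] [Fintype L] [DecidableEq L] (w : ι → L) :
    ∑ a, cn w a = Fintype.card ι := by
  simp only [cn]
  rw [← Finset.card_eq_sum_card_fiberwise (f := w) (s := univ) (t := univ)
    (fun _ _ => by simp)]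
  exact Finset.card_univ

private theorem zd_zero (d b x m : ℕ) (h : x + m < (d + 1) * b) : Zd d b x m = 0 := by
  rw [Zd, Finset.card_eq_zero, Finset.filter_eq_empty_iff]
  intro w _ hw
  have h1 := sum_cn w.1
  have h2 := sum_cn w.2
  rw [Fintype.card_fin] at h1 h2
  have h3 : ∑ a : Fin b, (d + 1) ≤ ∑ a : Fin b, (cn w.1 a + cn w.2 a) :=
    Finset.sum_le_sum (fun a _ => (hw a).2)
  have h4 : ∑ a : Fin b, (d + 1) = (d + 1) * b := by
    rw [Finset.sum_const, Finset.card_univ, Fintype.card_fin, smul_eq_mul, mul_comm]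
  have h5 : ∑ a : Fin b, (cn w.1 a + cn w.2 a) = x + m := by
    rw [Finset.sum_add_distrib, h1, h2]
  omega

private theorem fk_le_cube {j : ℕ} (hj : 3 ≤ j) {z : ℝ} (h0 : 0 ≤ z) (h1 : z ≤ 1) :
    fk j z ≤ z ^ 3 := by
  have hb := Real.exp_bound' h0 h1 (n := j) (by omega)
  have hjj : (3 : ℝ) ≤ j := by exact_mod_cast hj
  have hf : (1 : ℝ) ≤ j.factorial := by exact_mod_cast Nat.succ_le_of_lt (Nat.factorial_pos j)
  have hf2 : (j : ℝ) ≤ j.factorial := by exact_mod_cast Nat.self_le_factorial j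
  have h2 : z ^ j * (j + 1) / (j.factorial * j) ≤ z ^ 3 := by
    rw [div_le_iff₀ (by positivity)]
    have hz : z ^ j ≤ z ^ 3 := pow_le_pow_of_le_one h0 h1 hj
    have h3 : (j : ℝ) + 1 ≤ j.factorial * j := by nlinarith
    have hz3 : 0 ≤ z ^ 3 := by positivity
    exact mul_le_mul hz h3 (by positivity) hz3
  have h3 : fk j z = Real.exp z - ∑ i ∈ range j, z ^ i / (i.factorial : ℝ) := rfl
  rw [h3]
  linarith

private theorem fk_two_le {z : ℝ} (h0 : 0 ≤ z) (h1 : z ≤ 1) : fk 2 z ≤ z ^ 2 / 2 + z ^ 3 := by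
  have h := fk_le_cube (le_refl 3) h0 h1
  have h3 : fk 3 z = fk 2 z - z ^ 2 / 2 := by
    simp only [fk, Finset.sum_range_succ, Finset.sum_range_zero]
    norm_num [Nat.factorial]
    ring
  linarith

private theorem gk_le (d : ℕ) (hd : 2 ≤ d) {z : ℝ} (h0 : 0 ≤ z) (h1 : z ≤ 1) :
    gk d z 1 ≤ z ^ 2 / (2 * ((d - 1).factorial : ℝ)) * (1 + 2 * (d.factorial : ℝ) * z) := by
  obtain ⟨k, rfl⟩ : ∃ k, d = k + 2 := ⟨d - 2, by omega⟩
  have hfac : (((k + 2).factorial : ℕ) : ℝ) = (k + 2) * ((k + 1).factorial : ℝ) := by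
    rw [Nat.factorial_succ]
    push_cast
    ring
  have hk : (k + 2 - 1) = k + 1 := rfl
  rw [hk, hfac]
  have hfp : (1 : ℝ) ≤ ((k + 1).factorial : ℝ) := by
    exact_mod_cast Nat.succ_le_of_lt (Nat.factorial_pos (k + 1))
  simp only [gk, one_pow]
  rw [Finset.sum_range_succ]
  have e1 : k + 2 + 1 - (k + 1) = 2 := by omega
  rw [e1]
  have t1 : ∑ i ∈ range (k + 1), 1 / (i.factorial : ℝ) * fk (k + 2 + 1 - i) z ≤
      ∑ i ∈ range (k + 1), z ^ 3 := by
    apply Finset.sum_le_sum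
    intro i hi
    have hi' : i < k + 1 := Finset.mem_range.mp hi
    have h2 : fk (k + 2 + 1 - i) z ≤ z ^ 3 := fk_le_cube (by omega) h0 h1
    have h3 : (1 : ℝ) ≤ (i.factorial : ℝ) := by
      exact_mod_cast Nat.succ_le_of_lt (Nat.factorial_pos i)
    have h4 : 1 / (i.factorial : ℝ) ≤ 1 := by
      rw [div_le_one (by positivity)]
      exact h3
    have h5 : 0 ≤ fk (k + 2 + 1 - i) z := fk_nonneg _ h0
    calc 1 / (i.factorial : ℝ) * fk (k + 2 + 1 - i) z ≤ 1 * fk (k + 2 + 1 - i) z :=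
          mul_le_mul_of_nonneg_right h4 h5
      _ ≤ z ^ 3 := by rw [one_mul]; exact h2
  rw [Finset.sum_const, Finset.card_range, nsmul_eq_mul] at t1
  have t2 : 1 / ((k + 1).factorial : ℝ) * fk 2 z ≤
      z ^ 2 / (2 * ((k + 1).factorial : ℝ)) + z ^ 3 := by
    have h2 := fk_two_le h0 h1
    calc 1 / ((k + 1).factorial : ℝ) * fk 2 z
        ≤ 1 / ((k + 1).factorial : ℝ) * (z ^ 2 / 2 + z ^ 3) :=
          mul_le_mul_of_nonneg_left h2 (by positivity)
      _ = z ^ 2 / (2 * ((k + 1).factorial : ℝ)) + 1 / ((k + 1).factorial : ℝ) * z ^ 3 := by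
          field_simp
      _ ≤ z ^ 2 / (2 * ((k + 1).factorial : ℝ)) + z ^ 3 := by
          have : 1 / ((k + 1).factorial : ℝ) * z ^ 3 ≤ 1 * z ^ 3 := by
            apply mul_le_mul_of_nonneg_right _ (by positivity)
            rw [div_le_one (by positivity)]
            exact hfp
          linarith
  calc _ ≤ ((k + 1 : ℕ) : ℝ) * z ^ 3 + (z ^ 2 / (2 * ((k + 1).factorial : ℝ)) + z ^ 3) :=
        add_le_add t1 t2
    _ = z ^ 2 / (2 * ((k + 1).factorial : ℝ)) *
        (1 + 2 * ((k + 2) * ((k + 1).factorial : ℝ)) * z) := by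
        push_cast
        field_simp
        ring

/-- existence of `z` -/
private theorem exists_z (d : ℕ) (hd : 2 ≤ d) {q : ℝ} (hq : 1 < q) :
    ∃ z : ℝ, 0 < z ∧ z ≤ 1 ∧ gk d z 1 ≤ q * (z ^ 2 / (2 * ((d - 1).factorial : ℝ))) := by
  have hfac : 0 < (d.factorial : ℝ) := by exact_mod_cast Nat.factorial_pos d
  refine ⟨min 1 ((q - 1) / (2 * d.factorial)), ?_, min_le_left _ _, ?_⟩
  · apply lt_min one_pos
    apply div_pos (by linarith) (by positivity)
  · set z := min 1 ((q - 1) / (2 * (d.factorial : ℝ))) with hz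
    have hz0 : 0 ≤ z := by
      apply le_min zero_le_one
      apply div_nonneg (by linarith) (by positivity)
    have h1 := gk_le d hd hz0 (min_le_left _ _)
    refine h1.trans ?_
    rw [mul_comm q]
    apply mul_le_mul_of_nonneg_left _ (by positivity)
    have h2 : z ≤ (q - 1) / (2 * d.factorial) := min_le_right _ _
    rw [le_div_iff₀ (by positivity)] at h2
    linarith [mul_comm z (2 * (d.factorial : ℝ))]

private theorem two_fac (e : ℕ) : ((2 * e).factorial : ℝ) ≤ 4 ^ e * (e.factorial : ℝ) ^ 2 := by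
  have h1 := Nat.choose_mul_factorial_mul_factorial (n := 2 * e) (k := e) (by omega)
  have h2 : 2 * e - e = e := by omega
  rw [h2] at h1
  have h3 := Nat.choose_le_two_pow (2 * e) e
  have h4 : (2 : ℕ) ^ (2 * e) = 4 ^ e := by rw [pow_mul]; norm_num
  rw [h4] at h3
  have h5 : (2 * e).factorial ≤ 4 ^ e * e.factorial ^ 2 := by
    rw [← h1, sq, ← mul_assoc]
    exact Nat.mul_le_mul_right _ (Nat.mul_le_mul_right _ h3)
  exact_mod_cast h5

private theorem fac_up (M k : ℕ) (h : k ≤ M) :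
    (M.factorial : ℝ) ≤ (M : ℝ) ^ k * ((M - k).factorial : ℝ) := by
  have h1 := Nat.factorial_mul_descFactorial h
  have h2 := Nat.descFactorial_le_pow M k
  have h3 : M.factorial ≤ M ^ k * (M - k).factorial := by
    rw [← h1, mul_comm]
    exact Nat.mul_le_mul_right _ h2
  exact_mod_cast h3

private theorem fac_low (m s : ℕ) (h : s ≤ m) :
    ((m : ℝ) - s) ^ s * ((m - s).factorial : ℝ) ≤ (m.factorial : ℝ) := by
  have h1 := Nat.factorial_mul_descFactorial h
  have h2 := Nat.pow_sub_le_descFactorial m s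
  have h3 : (m - s) ^ s ≤ (m + 1 - s) ^ s := Nat.pow_le_pow_left (by omega) s
  have h4 : (m - s) ^ s * (m - s).factorial ≤ m.factorial := by
    rw [← h1, mul_comm]
    exact Nat.mul_le_mul_left _ (h3.trans h2)
  have h5 : ((m : ℝ) - s) = ((m - s : ℕ) : ℝ) := by
    rw [Nat.cast_sub h]
  rw [h5]
  exact_mod_cast h4

theorem small_term (d : ℕ) (hd : 2 ≤ d) : ∃ ϑ : ℝ, 0 < ϑ ∧ ϑ < 1 ∧ ∃ C > 0, ∃ ε₁ > 0, ∃ N₀ : ℕ,
    ∀ N ≥ N₀, ∀ M s' : ℕ, s' ≤ 1 → M + KK d + s' = d * N →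
    ∀ b e x : ℕ, 1 ≤ b → (b : ℝ) ≤ ε₁ * N → b ≤ e → 2 * e < 3 * b → x + b ≤ d * b →
      (N.choose b : ℝ) * ((M.factorial : ℝ) * 2 ^ x * (Zd d b x (2 * e) : ℝ) *
          (Wd (d + 1) (N - b) (2 * M - 2 * e - x) : ℝ) /
            ((e.factorial : ℝ) * (x.factorial : ℝ) * ((M - e - x).factorial : ℝ))) ≤
        2 * (Wd (d + 1) N (2 * M) : ℝ) * ϑ ^ b * (C * b / N) ^ (e - b) := by
  obtain ⟨ϑ, hϑ0, hϑ1, ε₀, hε₀, N₁, hrem⟩ := wd_remove d hd
  have hdR : (2 : ℝ) ≤ d := by exact_mod_cast hd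
  -- the constants
  set ϑ2 : ℝ := (1 + ϑ) / 2 with hϑ2
  have hϑ20 : 0 < ϑ2 := by positivity
  have hϑ21 : ϑ2 < 1 := by rw [hϑ2]; linarith
  set q : ℝ := (1 + ϑ) / (2 * ϑ) with hq
  have hq1 : 1 < q := by
    rw [hq, lt_div_iff₀ (by positivity)]
    linarith
  have hϑq : ϑ * q = ϑ2 := by
    rw [hq, hϑ2]
    field_simp
  obtain ⟨z, hz0, hz1, hgz⟩ := exists_z d hd hq1
  set Y : ℝ := (1 - ϑ2) / (1 + ϑ2) with hY
  have hY0 : 0 < Y := div_pos (by linarith) (by linarith)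
  set K1 : ℝ := (KK d : ℝ) + 1 with hK1
  have hK10 : 0 < K1 := by positivity
  set ε₁ : ℝ := min (min ε₀ (1 / (d + 2))) (min (Y / (d + 2) ^ 2) (1 / (2 * K1))) with hε₁
  have hε₁0 : 0 < ε₁ := by
    apply lt_min (lt_min hε₀ (by positivity)) (lt_min (by positivity) (by positivity))
  have l1 : ε₁ ≤ ε₀ := (min_le_left _ _).trans (min_le_left _ _)
  have l2 : ε₁ ≤ 1 / (d + 2) := (min_le_left _ _).trans (min_le_right _ _)
  have l3 : ε₁ ≤ Y / (d + 2) ^ 2 := (min_le_right _ _).trans (min_le_left _ _)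
  have l4 : ε₁ ≤ 1 / (2 * K1) := (min_le_right _ _).trans (min_le_right _ _)
  clear_value q ε₁
  refine ⟨(1 + ϑ2) / 2, by positivity, by linarith, (2 * (d : ℝ) + 1) ^ 2 * (3 / 2) / z ^ 2,
    by positivity, ε₁, hε₁0, max N₁ (max (KK d + 1) ⌈2 * K1 / ε₀⌉₊), ?_⟩
  intro N hN M s' hs' hM b e x hb hbN hbe he hx
  have n1 : N₁ ≤ N := (le_max_left _ _).trans hN
  have n2 : KK d + 1 ≤ N := (le_max_left _ _).trans ((le_max_right _ _).trans hN)
  have n3 : ⌈2 * K1 / ε₀⌉₊ ≤ N := (le_max_right _ _).trans ((le_max_right _ _).trans hN)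
  have hbR : (1 : ℝ) ≤ b := by exact_mod_cast hb
  have hNpos : 0 < N := by omega
  have hNR : (0 : ℝ) < N := by exact_mod_cast hNpos
  have n4 : 2 * K1 ≤ ε₀ * N := by
    have : 2 * K1 / ε₀ ≤ N := (Nat.le_ceil _).trans (by exact_mod_cast n3)
    rw [div_le_iff₀ hε₀] at this
    linarith [mul_comm (N : ℝ) ε₀]
  -- `M ≥ N`
  have hMN : N ≤ M := by
    have : 2 * N ≤ d * N := Nat.mul_le_mul_right N hd
    omega
  have hMR : (N : ℝ) ≤ M := by exact_mod_cast hMN
  have hMpos : (0 : ℝ) < M := hNR.trans_le hMR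
  have hMeq : (M : ℝ) + KK d + s' = d * N := by exact_mod_cast hM
  have hs'R : (s' : ℝ) ≤ 1 := by exact_mod_cast hs'
  have hs'0 : (0 : ℝ) ≤ s' := Nat.cast_nonneg _
  by_cases hs : x + 2 * e < (d + 1) * b
  · rw [zd_zero d b x (2 * e) hs]
    simp only [Nat.cast_zero, mul_zero, zero_mul, zero_div]
    positivity
  push Not at hs
  set s : ℕ := 2 * e + x with hsdef
  have hs1 : (d + 1) * b ≤ s := by omega
  have hs2 : s ≤ (d + 2) * b := by
    have : (d + 2) * b = d * b + 2 * b := by ring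
    omega
  have hsR2 : (s : ℝ) ≤ (d + 2) * b := by exact_mod_cast hs2
  have hsN : (s : ℝ) ≤ N := by
    calc (s : ℝ) ≤ (d + 2) * b := hsR2
      _ ≤ (d + 2) * (ε₁ * N) := mul_le_mul_of_nonneg_left hbN (by positivity)
      _ ≤ (d + 2) * (1 / (d + 2) * N) := by
          apply mul_le_mul_of_nonneg_left _ (by positivity)
          exact mul_le_mul_of_nonneg_right l2 hNR.le
      _ = N := by field_simp
  have hsM : (s : ℝ) ≤ M := hsN.trans hMR
  have hsMn : s ≤ M := by exact_mod_cast hsM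
  have hexM : e + x ≤ M := by omega
  -- removing letters
  have r1 := hrem N n1 (2 * M) (by
    push_cast
    have : (2 * (M : ℝ) - 2 * d * N) = -(2 * (KK d + s')) := by
      have : (d : ℝ) * N = M + KK d + s' := hMeq.symm
      linarith
    rw [this, abs_neg, abs_of_nonneg (by positivity)]
    linarith) b (hbN.trans (mul_le_mul_of_nonneg_right l1 hNR.le)) s hs1 hs2
  have r2 := zd_le d b x (2 * e) (y := 1) (z := z) zero_le_one hz0.le
  rw [one_pow, mul_one] at r2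
  have r3 := two_fac e
  have r4 := fac_up M (e + x) hexM
  have r5 := fac_low (2 * M) s (by omega)
  have r6 : (N.choose b : ℝ) ≤ (N : ℝ) ^ b / (b.factorial : ℝ) := Nat.choose_le_pow_div b N
  have r7 := fac_up e (e - b) (by omega)
  have q1 : 2 * M - 2 * e - x = 2 * M - s := by omega
  have q2 : M - e - x = M - (e + x) := by omega
  have q3 : e - (e - b) = b := by omega
  rw [q3] at r7
  rw [q1, q2]
  set ℓ : ℕ := e - b with hℓ
  have hebℓ : e = b + ℓ := by omega
  -- names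
  set W : ℝ := (Wd (d + 1) N (2 * M) : ℝ) with hW
  set W' : ℝ := (Wd (d + 1) (N - b) (2 * M - s) : ℝ) with hW'
  set Z : ℝ := (Zd d b x (2 * e) : ℝ) with hZ
  have hW0 : 0 ≤ W := Nat.cast_nonneg _
  have hW'0 : 0 ≤ W' := Nat.cast_nonneg _
  have hZ0 : 0 ≤ Z := Nat.cast_nonneg _
  have fe : (0 : ℝ) < (e.factorial : ℝ) := by exact_mod_cast Nat.factorial_pos _
  have fx : (0 : ℝ) < (x.factorial : ℝ) := by exact_mod_cast Nat.factorial_pos _
  have fb : (0 : ℝ) < (b.factorial : ℝ) := by exact_mod_cast Nat.factorial_pos _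
  have fM : (0 : ℝ) < ((M - (e + x)).factorial : ℝ) := by exact_mod_cast Nat.factorial_pos _
  have f2M : (0 : ℝ) < ((2 * M).factorial : ℝ) := by exact_mod_cast Nat.factorial_pos _
  have f2Ms : (0 : ℝ) < ((2 * M - s).factorial : ℝ) := by exact_mod_cast Nat.factorial_pos _
  have fd : (0 : ℝ) < (d.factorial : ℝ) := by exact_mod_cast Nat.factorial_pos _
  have fd1 : (0 : ℝ) < ((d - 1).factorial : ℝ) := by exact_mod_cast Nat.factorial_pos _
  have hg0 : 0 ≤ gk d z 1 := by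
    simp only [gk]
    apply Finset.sum_nonneg
    intro i _
    exact mul_nonneg (by positivity) (fk_nonneg _ hz0.le)
  -- bound for `Z`
  have z1 : Z ≤ (x.factorial : ℝ) * (4 ^ e * (e.factorial : ℝ) ^ 2) *
      (q * (z ^ 2 / (2 * ((d - 1).factorial : ℝ)))) ^ b / z ^ (2 * e) := by
    rw [le_div_iff₀ (by positivity)]
    refine r2.trans ?_
    apply mul_le_mul
    · exact mul_le_mul_of_nonneg_left r3 fx.le
    · exact pow_le_pow_left₀ hg0 hgz b
    · positivity
    · positivity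
  -- bound for `W'`
  have h2Ms : (0 : ℝ) < 2 * M - s := by linarith
  have w1 : W' ≤ W * (2 * ϑ * (d.factorial : ℝ)) ^ b * (2 * (d : ℝ) + 1) ^ (2 * ℓ) /
      (2 * (M : ℝ) - s) ^ s := by
    rw [le_div_iff₀ (by positivity)]
    push_cast at r5
    have h1 : (2 * (d : ℝ) + 1) ^ (s - (d + 1) * b) ≤ (2 * (d : ℝ) + 1) ^ (2 * ℓ) := by
      apply pow_le_pow_right₀ (by linarith)
      have : (d + 1) * b = d * b + b := by ring
      omega
    have h2 : W' * (2 * (M : ℝ) - s) ^ s * ((2 * M - s).factorial : ℝ) ≤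
        W * ((2 * M - s).factorial : ℝ) * (2 * ϑ * (d.factorial : ℝ)) ^ b *
          (2 * (d : ℝ) + 1) ^ (2 * ℓ) := by
      calc W' * (2 * (M : ℝ) - s) ^ s * ((2 * M - s).factorial : ℝ)
          = W' * ((2 * (M : ℝ) - s) ^ s * ((2 * M - s).factorial : ℝ)) := by ring
        _ ≤ W' * ((2 * M).factorial : ℝ) := mul_le_mul_of_nonneg_left r5 hW'0
        _ ≤ W * ((2 * M - s).factorial : ℝ) * (2 * ϑ * (d.factorial : ℝ)) ^ b *
          (2 * (d : ℝ) + 1) ^ (s - (d + 1) * b) := r1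
        _ ≤ _ := mul_le_mul_of_nonneg_left h1 (by positivity)
    have h3 : W' * (2 * (M : ℝ) - s) ^ s * ((2 * M - s).factorial : ℝ) ≤
        (W * (2 * ϑ * (d.factorial : ℝ)) ^ b * (2 * (d : ℝ) + 1) ^ (2 * ℓ)) *
          ((2 * M - s).factorial : ℝ) := by
      refine h2.trans (le_of_eq (by ring))
    exact le_of_mul_le_mul_right h3 f2Ms
  -- the factor `(2M/(2M-s))^s`
  have m1 : (2 * (M : ℝ)) ^ s ≤ (2 * (M : ℝ) - s) ^ s * Real.exp ((d + 2) ^ 2 * ε₁) ^ b := by
    have h1 : 2 * (M : ℝ) ≤ (2 * (M : ℝ) - s) * Real.exp (s / M) := by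
      have h2 := Real.add_one_le_exp ((s : ℝ) / M)
      have h3 : 2 * (M : ℝ) ≤ (2 * (M : ℝ) - s) * (s / M + 1) := by
        have h4 : (2 * (M : ℝ) - s) * (s / M + 1) = 2 * M + s * (M - s) / M := by
          field_simp
          ring
        rw [h4]
        have : 0 ≤ (s : ℝ) * (M - s) / M := by
          apply div_nonneg (mul_nonneg (Nat.cast_nonneg _) (by linarith)) hMpos.le
        linarith
      exact h3.trans (mul_le_mul_of_nonneg_left h2 h2Ms.le)
    calc (2 * (M : ℝ)) ^ s ≤ ((2 * (M : ℝ) - s) * Real.exp (s / M)) ^ s :=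
          pow_le_pow_left₀ (by positivity) h1 s
      _ = (2 * (M : ℝ) - s) ^ s * Real.exp (s / M) ^ s := mul_pow _ _ _
      _ ≤ (2 * (M : ℝ) - s) ^ s * Real.exp ((d + 2) ^ 2 * ε₁) ^ b := by
          apply mul_le_mul_of_nonneg_left _ (by positivity)
          rw [← Real.exp_nat_mul, ← Real.exp_nat_mul]
          apply Real.exp_le_exp.mpr
          have h5 : (s : ℝ) / M ≤ (d + 2) * ε₁ := by
            rw [div_le_iff₀ hMpos]
            calc (s : ℝ) ≤ (d + 2) * b := hsR2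
              _ ≤ (d + 2) * (ε₁ * N) := mul_le_mul_of_nonneg_left hbN (by positivity)
              _ ≤ (d + 2) * (ε₁ * M) := by
                  apply mul_le_mul_of_nonneg_left _ (by positivity)
                  exact mul_le_mul_of_nonneg_left hMR hε₁0.le
              _ = (d + 2) * ε₁ * M := by ring
          calc (s : ℝ) * (s / M) ≤ ((d + 2) * b) * ((d + 2) * ε₁) :=
                mul_le_mul hsR2 h5 (by positivity) (by positivity)
            _ = b * ((d + 2) ^ 2 * ε₁) := by ring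
  -- the factor `(d N / M)^b`
  have m2 : ((d : ℝ) * N) ^ b ≤ 2 * (M : ℝ) ^ b := by
    have h1 : (d : ℝ) * N ≤ M * Real.exp (K1 / M) := by
      have h2 := Real.add_one_le_exp (K1 / M)
      calc (d : ℝ) * N = M + KK d + s' := hMeq.symm
        _ ≤ M + K1 := by rw [hK1]; linarith
        _ = M * (K1 / M + 1) := by
            field_simp
            ring
        _ ≤ M * Real.exp (K1 / M) := mul_le_mul_of_nonneg_left h2 hMpos.le
    calc ((d : ℝ) * N) ^ b ≤ (M * Real.exp (K1 / M)) ^ b :=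
          pow_le_pow_left₀ (by positivity) h1 b
      _ = Real.exp (K1 / M) ^ b * (M : ℝ) ^ b := by rw [mul_pow]; ring
      _ ≤ 2 * (M : ℝ) ^ b := by
          apply mul_le_mul_of_nonneg_right _ (by positivity)
          rw [← Real.exp_nat_mul]
          have h3 : (b : ℝ) * (K1 / M) ≤ 1 / 2 := by
            have h4 : (b : ℝ) / M ≤ ε₁ := by
              rw [div_le_iff₀ hMpos]
              exact hbN.trans (mul_le_mul_of_nonneg_left hMR hε₁0.le)
            calc (b : ℝ) * (K1 / M) = K1 * (b / M) := by ring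
              _ ≤ K1 * (1 / (2 * K1)) := mul_le_mul_of_nonneg_left (h4.trans l4) hK10.le
              _ = 1 / 2 := by field_simp
          have h5 := Real.exp_bound_div_one_sub_of_interval (x := 1 / 2) (by norm_num)
            (by norm_num)
          calc Real.exp ((b : ℝ) * (K1 / M)) ≤ Real.exp (1 / 2) := Real.exp_le_exp.mpr h3
            _ ≤ 1 / (1 - 1 / 2) := h5
            _ = 2 := by norm_num
  -- the factor `X`
  have m3 : ϑ2 * Real.exp ((d + 2) ^ 2 * ε₁) ≤ (1 + ϑ2) / 2 := by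
    have h1 : ((d : ℝ) + 2) ^ 2 * ε₁ ≤ Y := by
      have := mul_le_mul_of_nonneg_left l3 (sq_nonneg ((d : ℝ) + 2))
      refine this.trans (le_of_eq ?_)
      field_simp
    have hYlt : Y < 1 := by
      rw [hY, div_lt_one (by linarith)]
      linarith
    have h2 : Real.exp ((d + 2) ^ 2 * ε₁) ≤ 1 / (1 - Y) :=
      (Real.exp_le_exp.mpr h1).trans (Real.exp_bound_div_one_sub_of_interval hY0.le hYlt)
    have h3 : 1 - Y = 2 * ϑ2 / (1 + ϑ2) := by
      rw [hY]
      field_simp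
      ring
    calc ϑ2 * Real.exp ((d + 2) ^ 2 * ε₁) ≤ ϑ2 * (1 / (1 - Y)) :=
          mul_le_mul_of_nonneg_left h2 hϑ20.le
      _ = (1 + ϑ2) / 2 := by
          rw [h3]
          field_simp
  -- assembling
  have hfd : (d.factorial : ℝ) = d * ((d - 1).factorial : ℝ) := by
    have := Nat.mul_factorial_pred (n := d) (by omega)
    exact_mod_cast this.symm
  have heR : (e : ℝ) ≤ 3 / 2 * b := by
    have : (2 * e : ℝ) < 3 * b := by exact_mod_cast he
    linarith
  calc (N.choose b : ℝ) * ((M.factorial : ℝ) * 2 ^ x * Z * W' /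
        ((e.factorial : ℝ) * (x.factorial : ℝ) * ((M - (e + x)).factorial : ℝ)))
      ≤ ((N : ℝ) ^ b / (b.factorial : ℝ)) * (((M : ℝ) ^ (e + x) *
          ((M - (e + x)).factorial : ℝ)) * 2 ^ x *
          ((x.factorial : ℝ) * (4 ^ e * (e.factorial : ℝ) ^ 2) *
            (q * (z ^ 2 / (2 * ((d - 1).factorial : ℝ)))) ^ b / z ^ (2 * e)) *
          (W * (2 * ϑ * (d.factorial : ℝ)) ^ b * (2 * (d : ℝ) + 1) ^ (2 * ℓ) /
            (2 * (M : ℝ) - s) ^ s) /
        ((e.factorial : ℝ) * (x.factorial : ℝ) * ((M - (e + x)).factorial : ℝ))) := by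
        apply mul_le_mul r6 _ (by positivity) (by positivity)
        apply div_le_div_of_nonneg_right _ (by positivity)
        apply mul_le_mul _ w1 hW'0 (by positivity)
        apply mul_le_mul _ z1 hZ0 (by positivity)
        exact mul_le_mul_of_nonneg_right r4 (by positivity)
    _ = W * (((e.factorial : ℝ) / (b.factorial : ℝ)) * (N : ℝ) ^ b *
          ((2 * (M : ℝ)) ^ s / ((2 * (M : ℝ) - s) ^ s)) / (M : ℝ) ^ e) *
        ((q * (z ^ 2 / (2 * ((d - 1).factorial : ℝ)))) ^ b / z ^ (2 * e) *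
          (2 * ϑ * (d.factorial : ℝ)) ^ b * (2 * (d : ℝ) + 1) ^ (2 * ℓ)) := by
        have hp : (2 * (M : ℝ)) ^ s = (M : ℝ) ^ (e + x) * (M : ℝ) ^ e * 2 ^ x * 4 ^ e := by
          rw [hsdef, mul_pow, pow_add 2, pow_mul, pow_add (M : ℝ) (2 * e), pow_add (M : ℝ) e,
            two_mul e, pow_add (M : ℝ) e e]
          norm_num
          ring
        rw [hp]
        field_simp
    _ ≤ W * ((e : ℝ) ^ ℓ * (N : ℝ) ^ b *
          (Real.exp ((d + 2) ^ 2 * ε₁) ^ b) / (M : ℝ) ^ e) *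
        ((q * (z ^ 2 / (2 * ((d - 1).factorial : ℝ)))) ^ b / z ^ (2 * e) *
          (2 * ϑ * (d.factorial : ℝ)) ^ b * (2 * (d : ℝ) + 1) ^ (2 * ℓ)) := by
        apply mul_le_mul_of_nonneg_right _ (by positivity)
        apply mul_le_mul_of_nonneg_left _ hW0
        apply div_le_div_of_nonneg_right _ (by positivity)
        apply mul_le_mul
        · apply mul_le_mul_of_nonneg_right _ (by positivity)
          rw [div_le_iff₀ fb]
          exact r7
        · rw [div_le_iff₀ (by positivity), mul_comm (Real.exp _ ^ b)]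
          exact m1
        · positivity
        · positivity
    _ = W * ((((d : ℝ) * N) ^ b) / (M : ℝ) ^ b) *
          (ϑ2 * Real.exp ((d + 2) ^ 2 * ε₁)) ^ b *
          ((2 * (d : ℝ) + 1) ^ 2 * e / z ^ 2 / M) ^ ℓ := by
        have e1 : (M : ℝ) ^ e = (M : ℝ) ^ b * (M : ℝ) ^ ℓ := by rw [← pow_add, ← hebℓ]
        have e2 : z ^ (2 * e) = (z ^ 2) ^ b * (z ^ 2) ^ ℓ := by
          rw [← pow_add, ← hebℓ, pow_mul]
        have e3 : (q * (z ^ 2 / (2 * ((d - 1).factorial : ℝ)))) ^ b =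
            q ^ b * (z ^ 2) ^ b / (2 * ((d - 1).factorial : ℝ)) ^ b := by
          rw [mul_pow, div_pow, mul_div_assoc]
        have e4 : (2 * ϑ * (d.factorial : ℝ)) ^ b =
            ϑ ^ b * (d : ℝ) ^ b * (2 * ((d - 1).factorial : ℝ)) ^ b := by
          rw [← mul_pow, ← mul_pow, hfd]
          congr 1
          ring
        rw [e1, e2, e3, e4, ← hϑq, pow_mul (2 * (d : ℝ) + 1) 2 ℓ]
        simp only [mul_pow, div_pow]
        field_simp
    _ ≤ W * 2 * ((1 + ϑ2) / 2) ^ b *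
          ((2 * (d : ℝ) + 1) ^ 2 * (3 / 2) / z ^ 2 * b / N) ^ ℓ := by
        apply mul_le_mul
        · apply mul_le_mul
          · apply mul_le_mul_of_nonneg_left _ hW0
            rw [div_le_iff₀ (by positivity)]
            exact m2
          · exact pow_le_pow_left₀ (by positivity) m3 b
          · positivity
          · positivity
        · apply pow_le_pow_left₀ (by positivity)
          calc (2 * (d : ℝ) + 1) ^ 2 * e / z ^ 2 / M
              ≤ (2 * (d : ℝ) + 1) ^ 2 * (3 / 2 * b) / z ^ 2 / N := by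
                apply div_le_div₀ (by positivity) _ hNR hMR
                apply div_le_div_of_nonneg_right _ (by positivity)
                exact mul_le_mul_of_nonneg_left heR (by positivity)
            _ = (2 * (d : ℝ) + 1) ^ 2 * (3 / 2) / z ^ 2 * b / N := by ring
        · positivity
        · positivity
    _ = 2 * W * ((1 + ϑ2) / 2) ^ b *
          ((2 * (d : ℝ) + 1) ^ 2 * (3 / 2) / z ^ 2 * b / N) ^ ℓ := by ring

end Pool.Agent.Helper50.RG
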