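import Pool.Agent.Helper50.RG.Words

/-!
# RG-35 : splitting a sequence of pairs along a vertex set `B`

A sequence `u : Fin M → V × V` is a word of length `2 M` (positions `Fin M × Bool`). Its pattern
`i ↦ ((u i).1 ∈ B, (u i).2 ∈ B)` has `e` pairs inside `B`, `x` crossing pairs: there are
`M! / (e! x! (M-e-x)!) 2^x` such patterns. For a given pattern `u` is given by the word of the `B`-ends of
the crossing pairs (length `x`, letters in `B`), the word of the ends of the inside pairs (length
`2 e`, letters in `B`), the word of all other positions (length `2 M - 2 e - x`, letters in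
the complement, each at least `d+1` times). `cr u B v` is the number of occurrences of `v` in the first word, and
`occ u v` for `v ∈ B` the number in the first two.
-/

set_option autoImplicit false
set_option linter.unusedSectionVars false

namespace Pool.Agent.Helper50.RG

open Finset

variable {V : Type} [Fintype V] [DecidableEq V] {M : ℕ}

/-- the number of crossing pairs at `v ∈ B` -/
def cr (u : Fin M → V × V) (B : Finset V) (v : V) : ℕ :=
  (univ.filter (fun i => (u i).1 = v ∧ (u i).2 ∉ B)).card +
    (univ.filter (fun i => (u i).2 = v ∧ (u i).1 ∉ B)).card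

/-- the number of pairs inside `B` -/
def nin (u : Fin M → V × V) (B : Finset V) : ℕ :=
  (univ.filter (fun i => (u i).1 ∈ B ∧ (u i).2 ∈ B)).card

/-- the number of pairs with exactly one end in `B` -/
def ncr (u : Fin M → V × V) (B : Finset V) : ℕ :=
  (univ.filter (fun i => ¬ ((u i).1 ∈ B ↔ (u i).2 ∈ B))).card

private lemma card_splitQ (R : Fin M × Bool → Prop) [DecidablePred R] :
    (univ.filter R).card = (univ.filter (fun i => R (i, false))).card +
      (univ.filter (fun i => R (i, true))).card := by
  rw [card_filter, Fintype.sum_prod_type, card_filter, card_filter, ← Finset.sum_add_distrib]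
  refine Finset.sum_congr rfl fun i _ => ?_
  rw [Fintype.sum_bool, add_comm]

private lemma card_sub {Q L : Type} [Fintype Q] [DecidableEq Q] [DecidableEq L] (R : Q → Prop)
    [DecidablePred R] (f : Q → L) (v : L) :
    (univ.filter (fun q : {q // R q} => f q = v)).card =
      (univ.filter (fun q => R q ∧ f q = v)).card := by
  rw [← Finset.card_map (Function.Embedding.subtype R)]
  congr 1
  ext q
  simp only [mem_map, mem_filter, mem_univ, true_and, Function.Embedding.subtype_apply,
    Subtype.exists, exists_and_left, exists_prop]
  constructor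
  · rintro ⟨a, h1, h2, rfl⟩
    exact ⟨h2, h1⟩
  · rintro ⟨h1, h2⟩
    exact ⟨q, h2, h1, rfl⟩

/-- the patterns -/
private def pats (M e x : ℕ) : Finset (Fin M → Bool × Bool) :=
  univ.filter (fun p => (univ.filter (fun i => (p i).1 = true ∧ (p i).2 = true)).card = e ∧
    (univ.filter (fun i => ¬ ((p i).1 = true ↔ (p i).2 = true))).card = x)

private lemma pats_card (M e x : ℕ) (hex : e + x ≤ M) :
    (pats M e x).card * (e.factorial * x.factorial * (M - e - x).factorial) ≤
      M.factorial * 2 ^ x := by
  classical
  let t : Finset (Σ _ : Finset (Fin M), Σ _ : Finset (Fin M), Finset (Fin M)) :=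
    (powersetCard e univ).sigma (fun S1 => (powersetCard x S1ᶜ).sigma fun S2 => S2.powerset)
  have ht : t.card = M.choose e * ((M - e).choose x * 2 ^ x) := by
    have h1 : ∀ S1 ∈ powersetCard e (univ : Finset (Fin M)),
        ((powersetCard x S1ᶜ).sigma fun S2 => S2.powerset).card = (M - e).choose x * 2 ^ x := by
      intro S1 hS1
      rw [card_sigma, Finset.sum_const_nat (m := 2 ^ x)]
      · rw [card_powersetCard, card_compl, Fintype.card_fin, (mem_powersetCard.1 hS1).2]
      · intro S2 hS2
        rw [card_powerset, (mem_powersetCard.1 hS2).2]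
    rw [card_sigma, Finset.sum_const_nat h1, card_powersetCard, card_univ, Fintype.card_fin]
  have hle : (pats M e x).card ≤ t.card := by
    refine Finset.card_le_card_of_injOn (fun p =>
      ⟨univ.filter (fun i => (p i).1 = true ∧ (p i).2 = true),
        univ.filter (fun i => ¬ ((p i).1 = true ↔ (p i).2 = true)),
        univ.filter (fun i => (p i).1 = true ∧ (p i).2 = false)⟩) ?_ ?_
    · intro p hp
      have hp' := (mem_filter.1 hp).2
      simp only [t, coe_sigma, Set.mem_sigma_iff, mem_coe, mem_powersetCard, mem_powerset,
        subset_univ, true_and]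
      refine ⟨hp'.1, ⟨?_, hp'.2⟩, ?_⟩
      · intro i hi
        simp only [mem_filter, mem_univ, true_and, mem_compl] at hi ⊢
        tauto
      · intro i hi
        simp only [mem_filter, mem_univ, true_and] at hi ⊢
        rw [hi.1, hi.2]
        simp
    · intro p _ p' _ hpp
      simp only [Sigma.mk.injEq, heq_eq_eq] at hpp
      obtain ⟨h1, h2, h3⟩ := hpp
      funext i
      have h1' := Finset.ext_iff.1 h1 i
      have h2' := Finset.ext_iff.1 h2 i
      have h3' := Finset.ext_iff.1 h3 i
      simp only [mem_filter, mem_univ, true_and] at h1' h2' h3'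
      ext1
      · cases h : (p i).1 <;> cases h4 : (p i).2 <;> cases h5 : (p' i).1 <;>
          cases h6 : (p' i).2 <;> simp_all
      · cases h : (p i).1 <;> cases h4 : (p i).2 <;> cases h5 : (p' i).1 <;>
          cases h6 : (p' i).2 <;> simp_all
  have hf : M.choose e * e.factorial * (M - e).factorial = M.factorial :=
    Nat.choose_mul_factorial_mul_factorial (by omega)
  have hf2 : (M - e).choose x * x.factorial * (M - e - x).factorial = (M - e).factorial :=
    Nat.choose_mul_factorial_mul_factorial (by omega)
  calc (pats M e x).card * (e.factorial * x.factorial * (M - e - x).factorial)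
      ≤ (M.choose e * ((M - e).choose x * 2 ^ x)) *
        (e.factorial * x.factorial * (M - e - x).factorial) :=
        Nat.mul_le_mul_right _ (hle.trans ht.le)
    _ = M.factorial * 2 ^ x := by rw [← hf, ← hf2]; ring

/-- the value at a position -/
private def uval (u : Fin M → V × V) (q : Fin M × Bool) : V :=
  if q.2 then (u q.1).2 else (u q.1).1

/-- the value of the pattern at a position -/
private def side (p : Fin M → Bool × Bool) (q : Fin M × Bool) : Bool :=
  if q.2 then (p q.1).2 else (p q.1).1

private def mate (q : Fin M × Bool) : Fin M × Bool := (q.1, !q.2)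

private def pat (B : Finset V) (u : Fin M → V × V) : Fin M → Bool × Bool :=
  fun i => (decide ((u i).1 ∈ B), decide ((u i).2 ∈ B))

private lemma side_pat (B : Finset V) (u : Fin M → V × V) (q : Fin M × Bool) :
    side (pat B u) q = true ↔ uval u q ∈ B := by
  obtain ⟨i, b⟩ := q
  cases b <;> simp [side, pat, uval]

private lemma side_pat_false (B : Finset V) (u : Fin M → V × V) (q : Fin M × Bool) :
    side (pat B u) q = false ↔ uval u q ∉ B := by
  rw [← side_pat, Bool.not_eq_true]

private lemma card_R1 (p : Fin M → Bool × Bool) :
    Fintype.card {q : Fin M × Bool // side p q = true ∧ side p (mate q) = false} =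
      (univ.filter (fun i => ¬ ((p i).1 = true ↔ (p i).2 = true))).card := by
  rw [Fintype.card_subtype, card_splitQ, ← card_union_of_disjoint]
  · congr 1
    ext i
    simp only [mem_union, mem_filter, mem_univ, true_and, side, mate]
    cases h : (p i).1 <;> cases h4 : (p i).2 <;> simp
  · rw [Finset.disjoint_filter]
    intro i _
    simp only [side, mate]
    cases h : (p i).1 <;> cases h4 : (p i).2 <;> simp

private lemma card_R2 (p : Fin M → Bool × Bool) :
    Fintype.card {q : Fin M × Bool // side p q = true ∧ side p (mate q) = true} =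
      2 * (univ.filter (fun i => (p i).1 = true ∧ (p i).2 = true)).card := by
  rw [Fintype.card_subtype, card_splitQ, two_mul]
  congr 2
  ext i
  simp only [mem_filter, mem_univ, true_and, side, mate]
  cases h : (p i).1 <;> cases h4 : (p i).2 <;> simp

private lemma card_R3 (p : Fin M → Bool × Bool) :
    Fintype.card {q : Fin M × Bool // side p q = false} +
      (Fintype.card {q : Fin M × Bool // side p q = true ∧ side p (mate q) = true} +
      Fintype.card {q : Fin M × Bool // side p q = true ∧ side p (mate q) = false}) = 2 * M := by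
  have h : Fintype.card (Fin M × Bool) = 2 * M := by
    rw [Fintype.card_prod, Fintype.card_fin, Fintype.card_bool, mul_comm]
  rw [← h, Fintype.card_subtype, Fintype.card_subtype, Fintype.card_subtype,
    ← card_union_of_disjoint (Finset.disjoint_filter.2 fun i _ h1 h2 => by simp [h1.2] at h2),
    ← card_union_of_disjoint, ← card_univ]
  · congr 1
    ext q
    simp only [mem_union, mem_filter, mem_univ, true_and, iff_true]
    cases h : side p q <;> cases h4 : side p (mate q) <;> simp
  · rw [Finset.disjoint_left]
    intro q h1 h2
    simp only [mem_union, mem_filter, mem_univ, true_and] at h1 h2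
    rcases h2 with h2 | h2 <;> simp [h1] at h2

private lemma occ_eq (u : Fin M → V × V) (v : V) :
    occ u v = (univ.filter (fun q => uval u q = v)).card := by
  rw [card_splitQ]
  rfl

private lemma cr_eq (u : Fin M → V × V) (B : Finset V) (v : V) :
    cr u B v = (univ.filter (fun q => uval u q = v ∧ uval u (mate q) ∉ B)).card := by
  rw [card_splitQ]
  rfl

private lemma fibre (d : ℕ) (B : Finset V) (e x : ℕ) (p : Fin M → Bool × Bool)
    (hp : p ∈ pats M e x) :
    (((TT V (d + 1) M).filter (fun u => nin u B = e ∧ ncr u B = x ∧ ∀ v ∈ B, cr u B v < d)).filter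
      (fun u => pat B u = p)).card ≤
      Zd d B.card x (2 * e) * Wd (d + 1) (Fintype.card V - B.card) (2 * M - 2 * e - x) := by
  classical
  have hp' := (mem_filter.1 hp).2
  have hc1 := card_R1 p
  have hc2 := card_R2 p
  have hc3 := card_R3 p
  rw [hp'.2] at hc1
  rw [hp'.1] at hc2
  have hc3' : Fintype.card {q : Fin M × Bool // side p q = false} = 2 * M - 2 * e - x := by omega
  have hL : Fintype.card {v : V // v ∈ B} = B.card := by simp
  have hL' : Fintype.card {v : V // v ∉ B} = Fintype.card V - B.card := by
    rw [Fintype.card_subtype_compl, hL]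
  have hZ : Zd d B.card x (2 * e) = (univ.filter
      (fun w : ({q : Fin M × Bool // side p q = true ∧ side p (mate q) = false} →
        {v : V // v ∈ B}) × ({q : Fin M × Bool // side p q = true ∧ side p (mate q) = true} →
        {v : V // v ∈ B}) => ∀ a, cn w.1 a < d ∧ d + 1 ≤ cn w.1 a + cn w.2 a)).card := by
    rw [zd_card, hc1, hc2, hL]
  have hW : Wd (d + 1) (Fintype.card V - B.card) (2 * M - 2 * e - x) = (univ.filter
      (fun w : {q : Fin M × Bool // side p q = false} → {v : V // v ∉ B} =>
        ∀ a, d + 1 ≤ cn w a)).card := by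
    rw [wd_card, hc3', hL']
  rw [hZ, hW, ← card_product]
  rw [← Fintype.card_coe, ← Fintype.card_coe]
  have hB : ∀ u : {u // u ∈ ((TT V (d + 1) M).filter
      (fun u => nin u B = e ∧ ncr u B = x ∧ ∀ v ∈ B, cr u B v < d)).filter
      (fun u => pat B u = p)}, ∀ q, side p q = true ↔ uval u.1 q ∈ B := by
    intro u q
    have h := side_pat B u.1 q
    rwa [(mem_filter.1 u.2).2] at h
  have hB' : ∀ u : {u // u ∈ ((TT V (d + 1) M).filter
      (fun u => nin u B = e ∧ ncr u B = x ∧ ∀ v ∈ B, cr u B v < d)).filter
      (fun u => pat B u = p)}, ∀ q, side p q = false ↔ uval u.1 q ∉ B := by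
    intro u q
    have h := side_pat_false B u.1 q
    rwa [(mem_filter.1 u.2).2] at h
  refine Fintype.card_le_of_injective (fun u =>
    ⟨((fun q => ⟨uval u.1 q.1, (hB u q.1).1 q.2.1⟩, fun q => ⟨uval u.1 q.1, (hB u q.1).1 q.2.1⟩),
      fun q => ⟨uval u.1 q.1, (hB' u q.1).1 q.2⟩), ?_⟩) ?_
  · have hu := (mem_filter.1 (mem_filter.1 u.2).1).2
    have hT := (mem_filter.1 (mem_filter.1 (mem_filter.1 u.2).1).1).2
    rw [mem_product, mem_filter, mem_filter]
    refine ⟨⟨mem_univ _, ?_⟩, mem_univ _, ?_⟩
    · intro a
      have e1 : cn (fun q : {q : Fin M × Bool // side p q = true ∧ side p (mate q) = false} =>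
          (⟨uval u.1 q.1, (hB u q.1).1 q.2.1⟩ : {v : V // v ∈ B})) a = cr u.1 B a.1 := by
        rw [cn, cr_eq]
        simp only [Subtype.ext_iff]
        rw [card_sub (fun q : Fin M × Bool => side p q = true ∧ side p (mate q) = false)
          (fun q => uval u.1 q) a.1]
        congr 1
        ext q
        simp only [mem_filter, mem_univ, true_and]
        rw [hB u, hB' u]
        constructor
        · rintro ⟨⟨h1, h2⟩, h3⟩
          exact ⟨h3, h2⟩
        · rintro ⟨h1, h2⟩
          exact ⟨⟨by rw [h1]; exact a.2, h2⟩, h1⟩
      have e2 : cn (fun q : {q : Fin M × Bool // side p q = true ∧ side p (mate q) = true} =>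
          (⟨uval u.1 q.1, (hB u q.1).1 q.2.1⟩ : {v : V // v ∈ B})) a + cr u.1 B a.1 =
          occ u.1 a.1 := by
        rw [cn, cr_eq, occ_eq]
        simp only [Subtype.ext_iff]
        rw [card_sub (fun q : Fin M × Bool => side p q = true ∧ side p (mate q) = true)
          (fun q => uval u.1 q) a.1, ← card_union_of_disjoint]
        · congr 1
          ext q
          simp only [mem_union, mem_filter, mem_univ, true_and]
          rw [hB u, hB u]
          constructor
          · rintro (⟨h1, h2⟩ | ⟨h1, h2⟩)
            · exact h2
            · exact h1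
          · intro h1
            by_cases h2 : uval u.1 (mate q) ∈ B
            · exact Or.inl ⟨⟨by rw [h1]; exact a.2, h2⟩, h1⟩
            · exact Or.inr ⟨h1, h2⟩
        · rw [Finset.disjoint_filter]
          intro q _ h1 h2
          exact h2.2 ((hB u _).1 h1.1.2)
      refine ⟨?_, ?_⟩
      · rw [e1]
        exact hu.2.2 a.1 a.2
      · refine (hT a.1).trans ?_
        rw [← e2, ← e1, add_comm]
    · intro a
      have e3 : cn (fun q : {q : Fin M × Bool // side p q = false} =>
          (⟨uval u.1 q.1, (hB' u q.1).1 q.2⟩ : {v : V // v ∉ B})) a = occ u.1 a.1 := by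
        rw [cn, occ_eq]
        simp only [Subtype.ext_iff]
        rw [card_sub (fun q : Fin M × Bool => side p q = false)
          (fun q => uval u.1 q) a.1]
        congr 1
        ext q
        simp only [mem_filter, mem_univ, true_and]
        rw [hB' u]
        constructor
        · rintro ⟨h1, h2⟩
          exact h2
        · intro h1
          exact ⟨by rw [h1]; exact a.2, h1⟩
      rw [e3]
      exact hT a.1
  · intro u u' huu
    simp only [Subtype.mk.injEq, Prod.mk.injEq] at huu
    obtain ⟨⟨h1, h2⟩, h3⟩ := huu
    have hval : ∀ q, uval u.1 q = uval u'.1 q := by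
      intro q
      cases hs : side p q with
      | false => exact congrArg Subtype.val (congrFun h3 ⟨q, hs⟩)
      | true =>
        cases hm : side p (mate q) with
        | false => exact congrArg Subtype.val (congrFun h1 ⟨q, hs, hm⟩)
        | true => exact congrArg Subtype.val (congrFun h2 ⟨q, hs, hm⟩)
    apply Subtype.ext
    funext i
    exact Prod.ext (hval (i, false)) (hval (i, true))

theorem split_count (d : ℕ) (B : Finset V) (e x : ℕ) (hex : e + x ≤ M) :
    ((TT V (d + 1) M).filter (fun u => nin u B = e ∧ ncr u B = x ∧ ∀ v ∈ B, cr u B v < d)).card *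
        (e.factorial * x.factorial * (M - e - x).factorial) ≤
      M.factorial * 2 ^ x * Zd d B.card x (2 * e) *
        Wd (d + 1) (Fintype.card V - B.card) (2 * M - 2 * e - x) := by
  classical
  have h1 := Finset.card_le_mul_card_image_of_maps_to (f := pat B)
    (s := (TT V (d + 1) M).filter (fun u => nin u B = e ∧ ncr u B = x ∧ ∀ v ∈ B, cr u B v < d))
    (t := pats M e x) ?_ _ (fun p hp => fibre d B e x p hp)
  · have h2 := pats_card M e x hex
    calc _ ≤ (Zd d B.card x (2 * e) * Wd (d + 1) (Fintype.card V - B.card) (2 * M - 2 * e - x) *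
            (pats M e x).card) * (e.factorial * x.factorial * (M - e - x).factorial) :=
          Nat.mul_le_mul_right _ h1
      _ = Zd d B.card x (2 * e) * Wd (d + 1) (Fintype.card V - B.card) (2 * M - 2 * e - x) *
            ((pats M e x).card * (e.factorial * x.factorial * (M - e - x).factorial)) := by ring
      _ ≤ Zd d B.card x (2 * e) * Wd (d + 1) (Fintype.card V - B.card) (2 * M - 2 * e - x) *
            (M.factorial * 2 ^ x) := Nat.mul_le_mul_left _ h2
      _ = _ := by ring
  · intro u hu
    have hu' := (mem_filter.1 hu).2
    rw [pats, mem_filter]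
    refine ⟨mem_univ _, ?_, ?_⟩
    · rw [← hu'.1, nin]
      simp only [pat, decide_eq_true_eq]
    · rw [← hu'.2.1, ncr]
      simp only [pat, decide_eq_true_eq]

end Pool.Agent.Helper50.RG
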