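import Pool.Agent.Helper50.RG.GeoDefs

/-!
# The hitting time of a giant rigid component: the definitions of the statement

`Pr n`, `Ord n` (file `Defs.lean`): unordered pairs of distinct elements of `Fin n`, and the
bijections `Fin (n.choose 2) ≃ Pr n`, i.e. the orderings of all pairs.
`IsRigid` (file `GeoDefs.lean`): `d`-rigidity by continuous motions of generic placements.
-/

set_option autoImplicit false

namespace Pool.Agent.Helper50.RG

/-- The random graph process: `proc σ t` is the graph on `Fin n` whose edges are the first `t` pairs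
of the ordering `σ`. For a uniformly random ordering `σ` this is the random graph process. -/
def proc {n : ℕ} (σ : Ord n) (t : ℕ) : SimpleGraph (Fin n) where
  Adj u v := ∃ i : Fin (n.choose 2), (i : ℕ) < t ∧ (σ i : Sym2 (Fin n)) = s(u, v)
  symm := ⟨fun u v h => by
    obtain ⟨i, hi, h⟩ := h
    exact ⟨i, hi, by rw [h, Sym2.eq_swap]⟩⟩
  loopless := ⟨fun u h => by
    obtain ⟨i, _, h⟩ := h
    exact (σ i).2 (by rw [h]; exact Sym2.mk_isDiag_iff.2 rfl)⟩

section
variable {V : Type}

/-- the number of neighbours of `v` in `A` -/
noncomputable def degIn (G : SimpleGraph V) (A : Set V) (v : V) : ℕ := {w | w ∈ A ∧ G.Adj v w}.ncard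

/-- the number of edges of the induced subgraph on `A` -/
noncomputable def edgesIn (G : SimpleGraph V) (A : Set V) : ℕ :=
  {e | e ∈ G.edgeSet ∧ ∀ v ∈ e, v ∈ A}.ncard

/-- The (vertex set of the) `k`-core: the union of all `A` such that the induced subgraph on `A` has
minimum degree at least `k`. It is the largest such set, see `kCore_isGreatest`. -/
def kCore (k : ℕ) (G : SimpleGraph V) : Set V :=
  ⋃₀ {A | ∀ v ∈ A, k ≤ degIn G A v}

/-- The `((d+1)+d)`-core: the smallest set which contains the `(d+1)`-core and every vertex with at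
least `d` neighbours in the set; i.e. what is obtained from the `(d+1)`-core by repeatedly adding
vertices with at least `d` neighbours in the current set. -/
def hatCore (d : ℕ) (G : SimpleGraph V) : Set V :=
  ⋂₀ {X | kCore (d + 1) G ⊆ X ∧ ∀ v, d ≤ degIn G X v → v ∈ X}

/-- the `(d+1)`-core is non-empty and its numbers of vertices `n'` and edges `m'` satisfy
`m' ≥ d n' - d (d + 1) / 2` -/
def Hits (d : ℕ) (G : SimpleGraph V) : Prop :=
  (kCore (d + 1) G).Nonempty ∧
    d * (kCore (d + 1) G).ncard ≤ edgesIn G (kCore (d + 1) G) + (d + 1).choose 2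

/-- `A` is a `d`-rigid component: maximal such that the induced subgraph on `A` is `d`-rigid -/
def RigidComponent (d : ℕ) (G : SimpleGraph V) (A : Set V) : Prop :=
  Maximal (fun B : Set V => IsRigid d (G.induce B)) A

end

/-- `t` is the stopping time of the process -/
def IsStop (d : ℕ) {n : ℕ} (σ : Ord n) (t : ℕ) : Prop :=
  Hits d (proc σ t) ∧ ∀ s < t, ¬ Hits d (proc σ s)

/-- The stopping time `t` exists; before `t` there is no `d`-rigid component with more than three
vertices; and at time `t` the `((d+1)+d)`-core is a `d`-rigid component. -/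
def GiantAtStop (d : ℕ) {n : ℕ} (σ : Ord n) : Prop :=
  ∃ t ≤ n.choose 2, IsStop d σ t ∧
    (∀ s < t, ∀ A : Set (Fin n), RigidComponent d (proc σ s) A → A.ncard ≤ 3) ∧
    RigidComponent d (proc σ t) (hatCore d (proc σ t))

/-- the union in the definition of the core has minimum degree at least `k` -/
theorem kCore_isGreatest {V : Type} [Finite V] (k : ℕ) (G : SimpleGraph V) :
    IsGreatest {A : Set V | ∀ v ∈ A, k ≤ degIn G A v} (kCore k G) := by
  constructor
  · intro v hv
    obtain ⟨A, hA, hvA⟩ := hv
    refine (hA v hvA).trans ?_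
    unfold degIn
    apply Set.ncard_le_ncard _ (Set.toFinite _)
    intro w hw
    exact ⟨⟨A, hA, hw.1⟩, hw.2⟩
  · intro A hA v hv
    exact ⟨A, hA, hv⟩

end Pool.Agent.Helper50.RG
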