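import Pool.Agent.Helper50.RG.Defs

/-!
# The events of the switching argument
-/

set_option autoImplicit false

namespace Pool.Agent.Helper50.RG

open Finset

/-- before the stopping time and one edge missing -/
def SSt (d : ℕ) (c₁ ε' C₂ ε ε₃ η : ℝ) (t : ℕ) {n : ℕ} (σ : Ord n) : Prop :=
  (∀ s' ≤ t, ¬ Hit d σ s') ∧ Cnt d 1 (edg σ t) ∧ Reg c₁ ε' (edg σ t) ∧
    Str d C₂ ε ε₃ η (edg σ t)

/-- the right number of edges, but dependent -/
def DD (d : ℕ) (c₁ ε' C₂ ε ε₃ η : ℝ) (t : ℕ) {n : ℕ} (σ : Ord n) : Prop :=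
  Cnt d 0 (edg σ t) ∧ Reg c₁ ε' (edg σ t) ∧ Str d C₂ ε ε₃ η (edg σ t) ∧
    rk ℝ d (ins (edg σ t) (core (d + 1) (edg σ t))) <
      (ins (edg σ t) (core (d + 1) (edg σ t))).card

end Pool.Agent.Helper50.RG
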