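import Pool.Agent.Helper50.RG.TightA
import Pool.Agent.Helper50.RG.RkS

/-!
# RG-52 : tight sets, second part

See the comment in `TightA.lean`, paragraph `tight`. `tight_coloop`: `ins E C` is the union of
`ins E (C \ B)` and `incd E C B`; without `e` the rank is at most
`rk (ins E (C \ B)) + d |B| - 1`.
-/

set_option autoImplicit false

namespace Pool.Agent.Helper50.RG

open Finset

variable {V : Type} [Fintype V] [DecidableEq V] {E : Finset (Sym2 V)} {C : Finset V} {d : ℕ}
  {C₂ ε ε₃ η : ℝ}

private theorem Tight_union (E : Finset (Sym2 V)) (B : Finset V) :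
    ins E (C \ B) ∪ incd E C B = ins E C := by
  classical
  ext e
  simp only [incd, mem_union, mem_filter, mem_ins, mem_sdiff]
  constructor
  · rintro (⟨h1, h2⟩ | h)
    · exact ⟨h1, fun v hv => (h2 v hv).1⟩
    · exact h.1
  · rintro ⟨h1, h2⟩
    by_cases h3 : ∃ v ∈ B, v ∈ e
    · exact Or.inr ⟨⟨h1, h2⟩, h3⟩
    · exact Or.inl ⟨h1, fun v hv => ⟨h2 v hv, fun hB => h3 ⟨v, hB, hv⟩⟩⟩

private theorem Tight_insert (hL : Lpl E) {A : Finset V} {v : V} (hv : v ∉ A) :
    ins E (insert v A) = ins E A ∪ star v (A.filter (fun w => s(v, w) ∈ E)) := by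
  ext e
  induction e using Sym2.ind with
  | _ x y =>
    simp only [star, mk_mem_ins, mem_union, mem_image, mem_filter, mem_insert]
    constructor
    · rintro ⟨h1, h2, h3⟩
      rcases h2 with rfl | h2
      · rcases h3 with rfl | h3
        · exact absurd h1 (fun h => hL _ h (by simp))
        · exact Or.inr ⟨y, ⟨h3, h1⟩, rfl⟩
      · rcases h3 with rfl | h3
        · refine Or.inr ⟨x, ⟨h2, ?_⟩, Sym2.eq_swap⟩
          rw [Sym2.eq_swap]; exact h1
        · exact Or.inl ⟨h1, h2, h3⟩
    · rintro (⟨h1, h2, h3⟩ | ⟨w, ⟨h1, h2⟩, h3⟩)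
      · exact ⟨h1, Or.inr h2, Or.inr h3⟩
      · rw [← h3]
        refine ⟨h2, ?_⟩
        rw [Sym2.eq_iff] at h3
        rcases h3 with ⟨rfl, rfl⟩ | ⟨rfl, rfl⟩
        · exact ⟨Or.inl rfl, Or.inr h1⟩
        · exact ⟨Or.inr h1, Or.inl rfl⟩

theorem tight (hd : 2 ≤ d) (hL : Lpl E) (hC : ∀ v ∈ C, d + 1 ≤ nb E C v)
    (h4 : E4 d C₂ ε E C) (h5 : E5 d ε ε₃ η E C) (hη : 0 < η)
    {ε' : ℝ} {N : ℕ} (h2 : E2 ε' N E) (hN : C₂ * Real.log C.card + d ≤ ε' * N)
    {B : Finset V} (hB : B ⊆ C) (hs : (B.card : ℝ) ≤ (1 - ε₃) * C.card)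
    (hA : (d : ℝ) ≤ ε₃ * C.card) (ht : (incd E C B).card = d * B.card) :
    rk ℝ d (ins E C) = rk ℝ d (ins E (C \ B)) + d * B.card := by
  induction hm : B.card generalizing B with
  | zero =>
    rw [card_eq_zero] at hm
    subst hm
    simp
  | succ m ih =>
    by_cases hex : ∃ v ∈ B, d ≤ nb E (C \ B) v
    · obtain ⟨v, hv, hdv⟩ := hex
      have hsub : B.erase v ⊆ C := (erase_subset v B).trans hB
      have hcard : (B.erase v).card = m := by rw [card_erase_of_mem hv, hm]; rfl
      have hs' : ((B.erase v).card : ℝ) ≤ (1 - ε₃) * C.card := by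
        refine le_trans ?_ hs
        exact_mod_cast card_le_card (erase_subset v B)
      have h1 := card_incd_erase (E := E) hL hB hv
      have h3 := t1 hd hL hC h4 h5 hη hsub hs'
      have hmul : d * B.card = d * (B.erase v).card + d := by rw [hm, hcard]; ring
      have ht' : (incd E C (B.erase v)).card = d * (B.erase v).card := by omega
      have hdeq : nb E (C \ B) v = d := by omega
      have hih := ih hsub hs' ht' hcard
      have hvn : v ∉ C \ B := fun h => (mem_sdiff.1 h).2 hv
      have hins : C \ B.erase v = insert v (C \ B) := by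
        ext w
        simp only [mem_sdiff, mem_erase, mem_insert]
        constructor
        · rintro ⟨h1, h2⟩
          by_cases hw : w = v
          · exact Or.inl hw
          · exact Or.inr ⟨h1, fun hwB => h2 ⟨hw, hwB⟩⟩
        · rintro (rfl | ⟨h1, h2⟩)
          · exact ⟨hB hv, fun h => h.1 rfl⟩
          · exact ⟨h1, fun h => h2 h.2⟩
      rw [hins, Tight_insert hL hvn, rk_star (F := ℝ) (d := d)] at hih
      · have hT : ((C \ B).filter (fun w => s(v, w) ∈ E)).card = d := hdeq
        rw [hih, hT]
        ring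
      · intro e he hve
        exact hvn ((mem_ins.1 he).2 v hve)
      · intro h
        exact hvn (mem_filter.1 h).1
      · exact hdeq.le
    · push Not at hex
      have hIs : IsB d E C B := ⟨hB, hex⟩
      have hne : B.Nonempty := by rw [← card_pos, hm]; omega
      have hCpos : (0 : ℝ) < C.card := by
        exact_mod_cast card_pos.2 (hne.mono hB)
      have hsmall : (B.card : ℝ) ≤ ε * C.card := by
        by_contra hcon
        push Not at hcon
        have h6 := h5 B hIs hcon.le hs
        rw [ht] at h6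
        push_cast at h6
        have := mul_pos hη hCpos
        linarith
      obtain ⟨g1, g2, g3, g4⟩ := small_isB hd hL hC h4 hIs hne hsmall
      have hdisj : Disjoint (C \ B) B := sdiff_disjoint
      have hBC : (C \ B).card + B.card = C.card := by
        rw [card_sdiff_of_subset hB]
        have := card_le_card hB
        omega
      have hAd : d ≤ (C \ B).card := by
        have e1 : ((C \ B).card : ℝ) + B.card = C.card := by exact_mod_cast hBC
        have e2 : (d : ℝ) ≤ (C \ B).card := by nlinarith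
        exact_mod_cast e2
      have hsn := special_ne (A := C \ B) (S := B) hd hL hdisj g2 g3 h2
        (by linarith)
      have hsr := special_rigid (F := ℝ) two_ne_zero hd hL hdisj hAd g2 g3 hsn
      have hkn := rk_Kn (F := ℝ) (d := d) two_ne_zero hAd
      have hun : (C \ B) ∪ B = C := sdiff_union_of_subset hB
      rw [hun] at hsr
      have hsub : ins E (C \ B) ⊆ Kn (C \ B) := by
        intro e he
        unfold Kn
        rw [mem_filter]
        refine ⟨?_, hL e (mem_ins.1 he).1⟩
        rw [mem_sym2_iff]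
        exact (mem_ins.1 he).2
      have hu2 : Kn (C \ B) ∪ ins E C = Kn (C \ B) ∪ incd E C B := by
        rw [← Tight_union E B, ← union_assoc, union_eq_left.2 hsub]
      rw [hu2] at hsr
      have hspl := rk_split (F := ℝ) (d := d) (S := incd E C B) hsub (by
        rw [ht]
        have : d * ((C \ B).card + B.card) = d * (C \ B).card + d * B.card := by ring
        omega)
      rw [Tight_union] at hspl
      rw [hspl, ht, hm]

/-- all edges which meet a tight set are coloops -/
theorem tight_coloop (hd : 2 ≤ d) (hL : Lpl E) (hC : ∀ v ∈ C, d + 1 ≤ nb E C v)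
    (h4 : E4 d C₂ ε E C) (h5 : E5 d ε ε₃ η E C) (hη : 0 < η)
    {ε' : ℝ} {N : ℕ} (h2 : E2 ε' N E) (hN : C₂ * Real.log C.card + d ≤ ε' * N)
    {B : Finset V} (hB : B ⊆ C) (hs : (B.card : ℝ) ≤ (1 - ε₃) * C.card)
    (hA : (d : ℝ) ≤ ε₃ * C.card) (ht : (incd E C B).card = d * B.card)
    {e : Sym2 V} (he : e ∈ incd E C B) : ¬ Cl ℝ d ((ins E C).erase e) e := by
  intro hcl
  have hr := tight hd hL hC h4 h5 hη h2 hN hB hs hA ht
  have heC : e ∈ ins E C := (mem_filter.1 he).1
  unfold Cl at hcl
  rw [insert_erase heC] at hcl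
  have hsub : (ins E C).erase e ⊆ ins E (C \ B) ∪ (incd E C B).erase e := by
    intro f hf
    rw [mem_erase] at hf
    rw [← Tight_union E B, mem_union] at hf
    rw [mem_union, mem_erase]
    rcases hf.2 with h | h
    · exact Or.inl h
    · exact Or.inr ⟨hf.1, h⟩
  have h1 := rk_mono (F := ℝ) (d := d) hsub
  have h3 := rk_union_le (F := ℝ) (d := d) (ins E (C \ B)) ((incd E C B).erase e)
  have h6 : ((incd E C B).erase e).card < (incd E C B).card := card_erase_lt_of_mem he
  omega

end Pool.Agent.Helper50.RG
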