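import Pool.Agent.Helper50.RG.Defs

/-!
# RG-31 : words, recursion and generating functions

`ws_succ`: split the words over `Fin (N + 1)` by the set of the positions of the last letter
(`C(m, j)` sets with `j` elements; the rest is a word of length `m - j` over `Fin N`).
`ws_le` by induction on `N`: `x^m/m! C(m, j) ψ j Ws N (m-j) = (ψ j x^j / j!) (x^(m-j) Ws N (m-j)/(m-j)!)`.
`wd_le`: `ψ j = 1` for `k ≤ j`, `0` otherwise; the partial sums of `x^j/j!`, `j ≥ k` are at most
`fk k x`. `zd_le` is the same with two words. `wd_card`: transport along bijections.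
-/

set_option autoImplicit false

namespace Pool.Agent.Helper50.RG

open Finset

/-- the number of occurrences of `a` in the word `w` -/
def cn {ι L : Type} [Fintype ι] [DecidableEq L] (w : ι → L) (a : L) : ℕ :=
  (univ.filter (fun i => w i = a)).card

/-- the sum over all words of the product of the weights of the occurrence numbers -/
noncomputable def Ws (ψ : ℕ → ℝ) (N m : ℕ) : ℝ :=
  ∑ w : Fin m → Fin N, ∏ a, ψ (cn w a)

/-- the number of pairs of words of lengths `x`, `m` over `b` letters such that each letter is less than `d`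
times in the first word and at least `d + 1` times in both words together -/
def Zd (d b x m : ℕ) : ℕ :=
  (univ.filter (fun w : (Fin x → Fin b) × (Fin m → Fin b) =>
    ∀ a, cn w.1 a < d ∧ d + 1 ≤ cn w.1 a + cn w.2 a)).card

private theorem ite_prod {L : Type} [Fintype L] (p : L → Prop) [DecidablePred p]
    [Decidable (∀ a, p a)] :
    (if ∀ a, p a then (1 : ℝ) else 0) = ∏ a, (if p a then (1 : ℝ) else 0) := by
  by_cases h : ∀ a, p a
  · rw [if_pos h]
    exact (Finset.prod_eq_one fun a _ => if_pos (h a)).symm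
  · rw [if_neg h]
    push Not at h
    obtain ⟨a, ha⟩ := h
    exact (Finset.prod_eq_zero (Finset.mem_univ a) (if_neg ha)).symm

/-- pairs of words with weights -/
private noncomputable def GG (Φ : ℕ → ℕ → ℝ) (ι κ L : Type) [Fintype ι] [DecidableEq ι] [Fintype κ]
    [DecidableEq κ] [Fintype L] [DecidableEq L] : ℝ :=
  ∑ w : (ι → L) × (κ → L), ∏ a, Φ (cn w.1 a) (cn w.2 a)

private theorem cn_congr {ι ι' L L' : Type} [Fintype ι] [Fintype ι'] [DecidableEq L]
    [DecidableEq L'] (e : ι ≃ ι') (f : L ≃ L') (w : ι → L) (a : L) :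
    cn (e.arrowCongr f w) (f a) = cn w a := by
  unfold cn
  refine (Finset.card_bij (fun i _ => e i) ?_ ?_ ?_).symm
  · intro i hi
    simp only [mem_filter, mem_univ, true_and] at hi ⊢
    simp [Equiv.arrowCongr, hi]
  · intro i _ j _ h
    exact e.injective h
  · intro j hj
    simp only [mem_filter, mem_univ, true_and, Equiv.arrowCongr, Equiv.coe_fn_mk,
      Function.comp] at hj
    exact ⟨e.symm j, by simpa using f.injective hj, by simp⟩

private theorem GG_congr (Φ : ℕ → ℕ → ℝ) {ι κ L ι' κ' L' : Type} [Fintype ι] [DecidableEq ι]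
    [Fintype κ] [DecidableEq κ] [Fintype L] [DecidableEq L] [Fintype ι'] [DecidableEq ι']
    [Fintype κ'] [DecidableEq κ'] [Fintype L'] [DecidableEq L'] (e : ι ≃ ι') (e' : κ ≃ κ')
    (f : L ≃ L') : GG Φ ι κ L = GG Φ ι' κ' L' := by
  unfold GG
  refine Fintype.sum_equiv (Equiv.prodCongr (e.arrowCongr f) (e'.arrowCongr f)) _ _ ?_
  intro w
  refine Fintype.prod_equiv f _ _ ?_
  intro a
  rw [Equiv.prodCongr_apply, Prod.map_fst, Prod.map_snd, cn_congr, cn_congr]

/-- a word over `Fin (N + 1)` from the set of the positions of the last letter -/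
private def glue {ι : Type} {N : ℕ} [DecidableEq ι] (S : Finset ι)
    (w : {i // i ∉ S} → Fin N) : ι → Fin (N + 1) :=
  fun i => if h : i ∉ S then (w ⟨i, h⟩).castSucc else Fin.last N

private theorem glue_last {ι : Type} {N : ℕ} [DecidableEq ι] {S : Finset ι}
    {w : {i // i ∉ S} → Fin N} {i : ι} : glue S w i = Fin.last N ↔ i ∈ S := by
  unfold glue
  by_cases h : i ∈ S
  · simp [h]
  · simp [h, (Fin.castSucc_lt_last _).ne]

private theorem glue_bij {ι : Type} [Fintype ι] [DecidableEq ι] (N : ℕ) :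
    Function.Bijective (fun x : (Σ S : Finset ι, ({i // i ∉ S} → Fin N)) => glue x.1 x.2) := by
  constructor
  · rintro ⟨S, w⟩ ⟨T, v⟩ h
    have hST : S = T := by
      ext i
      have hi : glue S w i = glue T v i := congrFun h i
      rw [← glue_last (w := w), ← glue_last (w := v), hi]
    subst hST
    have hwv : w = v := by
      funext ⟨i, hi⟩
      have := congrFun h i
      simpa [glue, hi] using this
    rw [hwv]
  · intro w
    refine ⟨⟨univ.filter (fun i => w i = Fin.last N), fun i => (w i.1).castPred (by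
      have := i.2
      simpa using this)⟩, ?_⟩
    funext i
    by_cases h : w i = Fin.last N
    · simp [glue, h]
    · simp [glue, h]

private theorem cn_glue_last {ι : Type} [Fintype ι] [DecidableEq ι] {N : ℕ} (S : Finset ι)
    (w : {i // i ∉ S} → Fin N) : cn (glue S w) (Fin.last N) = S.card := by
  unfold cn
  congr 1
  ext i
  simp [glue_last]

private theorem cn_glue_castSucc {ι : Type} [Fintype ι] [DecidableEq ι] {N : ℕ} (S : Finset ι)
    (w : {i // i ∉ S} → Fin N) (a : Fin N) : cn (glue S w) a.castSucc = cn w a := by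
  unfold cn
  refine (Finset.card_bij (fun i _ => i.1) ?_ ?_ ?_).symm
  · rintro ⟨i, hi⟩ h
    simp only [mem_filter, mem_univ, true_and] at h ⊢
    simp [glue, hi, h]
  · rintro ⟨i, hi⟩ _ ⟨j, hj⟩ _ h
    exact Subtype.ext h
  · intro j hj
    simp only [mem_filter, mem_univ, true_and] at hj
    have hjS : j ∉ S := by
      intro h
      rw [glue_last.2 h] at hj
      exact (Fin.castSucc_lt_last a).ne hj.symm
    refine ⟨⟨j, hjS⟩, ?_, rfl⟩
    simp only [mem_filter, mem_univ, true_and]
    simpa [glue, hjS] using hj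

private theorem card_not_mem {m : ℕ} (S : Finset (Fin m)) :
    Fintype.card {i // i ∉ S} = m - S.card := by
  rw [Fintype.card_subtype_compl]
  simp

/-- numbered version -/
private noncomputable def Wt (Φ : ℕ → ℕ → ℝ) (N x m : ℕ) : ℝ := GG Φ (Fin x) (Fin m) (Fin N)

private theorem wt_succ (Φ : ℕ → ℕ → ℝ) (N x m : ℕ) :
    Wt Φ (N + 1) x m = ∑ i ∈ range (x + 1), ∑ j ∈ range (m + 1),
      (x.choose i : ℝ) * (m.choose j : ℝ) * Φ i j * Wt Φ N (x - i) (m - j) := by
  have h1 : Wt Φ (N + 1) x m = ∑ S : Finset (Fin x), ∑ T : Finset (Fin m),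
      Φ S.card T.card * Wt Φ N (x - S.card) (m - T.card) := by
    unfold Wt GG
    rw [Fintype.sum_prod_type]
    rw [← (glue_bij (ι := Fin x) N).sum_comp
      (fun w => ∑ y : Fin m → Fin (N + 1), ∏ a, Φ (cn w a) (cn y a))]
    rw [Fintype.sum_sigma]
    refine Finset.sum_congr rfl fun S _ => ?_
    have h2 : ∀ w : {i // i ∉ S} → Fin N, ∑ y : Fin m → Fin (N + 1),
        ∏ a, Φ (cn (glue S w) a) (cn y a) = ∑ T : Finset (Fin m), ∑ v : {i // i ∉ T} → Fin N,
          Φ S.card T.card * ∏ a, Φ (cn w a) (cn v a) := by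
      intro w
      rw [← (glue_bij (ι := Fin m) N).sum_comp
        (fun y => ∏ a, Φ (cn (glue S w) a) (cn y a)), Fintype.sum_sigma]
      refine Finset.sum_congr rfl fun T _ => Finset.sum_congr rfl fun v _ => ?_
      rw [Fin.prod_univ_castSucc, mul_comm]
      simp only [cn_glue_last, cn_glue_castSucc]
    simp only [h2]
    rw [Finset.sum_comm]
    refine Finset.sum_congr rfl fun T _ => ?_
    have h3 : ∑ w : {i // i ∉ S} → Fin N, ∑ v : {i // i ∉ T} → Fin N,
        Φ S.card T.card * ∏ a, Φ (cn w a) (cn v a) =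
        Φ S.card T.card * GG Φ {i // i ∉ S} {i // i ∉ T} (Fin N) := by
      unfold GG
      rw [Fintype.sum_prod_type]
      simp only [Finset.mul_sum]
    rw [h3]
    congr 1
    exact GG_congr Φ (Fintype.equivFinOfCardEq (card_not_mem S))
      (Fintype.equivFinOfCardEq (card_not_mem T)) (Equiv.refl _)
  rw [h1]
  have h2 : ∀ S : Finset (Fin x), ∑ T : Finset (Fin m),
      Φ S.card T.card * Wt Φ N (x - S.card) (m - T.card) =
      ∑ j ∈ range (m + 1), (m.choose j : ℝ) * (Φ S.card j * Wt Φ N (x - S.card) (m - j)) := by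
    intro S
    have := Finset.sum_powerset_apply_card
      (fun j => Φ S.card j * Wt Φ N (x - S.card) (m - j)) (x := (univ : Finset (Fin m)))
    rw [Finset.powerset_univ, Finset.card_univ, Fintype.card_fin] at this
    rw [this]
    simp only [nsmul_eq_mul]
  simp only [h2]
  have h3 := Finset.sum_powerset_apply_card
    (fun i => ∑ j ∈ range (m + 1), (m.choose j : ℝ) * (Φ i j * Wt Φ N (x - i) (m - j)))
    (x := (univ : Finset (Fin x)))
  rw [Finset.powerset_univ, Finset.card_univ, Fintype.card_fin] at h3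
  rw [h3]
  refine Finset.sum_congr rfl fun i _ => ?_
  rw [nsmul_eq_mul, Finset.mul_sum]
  refine Finset.sum_congr rfl fun j _ => ?_
  ring

private theorem wt_zero (Φ : ℕ → ℕ → ℝ) (x m : ℕ) :
    Wt Φ 0 x m = if x = 0 ∧ m = 0 then 1 else 0 := by
  unfold Wt GG
  simp only [Finset.univ_eq_empty (α := Fin 0), Finset.prod_empty]
  rw [Finset.sum_const, Finset.card_univ, Fintype.card_prod]
  simp only [Fintype.card_fun, Fintype.card_fin, nsmul_eq_mul, mul_one]
  rcases Nat.eq_zero_or_pos x with hx | hx <;> rcases Nat.eq_zero_or_pos m with hm | hm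
  · simp [hx, hm]
  · simp [hx, hm.ne']
  · simp [hx.ne', hm]
  · simp [hx.ne', hm.ne']

private theorem wt_nonneg (Φ : ℕ → ℕ → ℝ) (hΦ : ∀ i j, 0 ≤ Φ i j) (N x m : ℕ) :
    0 ≤ Wt Φ N x m :=
  Finset.sum_nonneg fun _ _ => Finset.prod_nonneg fun _ _ => hΦ _ _

private theorem wt_le (Φ : ℕ → ℕ → ℝ) (hΦ : ∀ i j, 0 ≤ Φ i j) {y z S : ℝ} (hy : 0 ≤ y)
    (hz : 0 ≤ z)
    (hS : ∀ p q, ∑ i ∈ range p, ∑ j ∈ range q,
      Φ i j * (y ^ i / (i.factorial : ℝ)) * (z ^ j / (j.factorial : ℝ)) ≤ S) (N x m : ℕ) :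
    Wt Φ N x m * y ^ x * z ^ m ≤ (x.factorial : ℝ) * (m.factorial : ℝ) * S ^ N := by
  have hS0 : 0 ≤ S := by simpa using hS 0 0
  induction N generalizing x m with
  | zero =>
    rw [wt_zero]
    by_cases h : x = 0 ∧ m = 0
    · rw [if_pos h, h.1, h.2]
      simp
    · rw [if_neg h]
      simp only [zero_mul, pow_zero, mul_one]
      positivity
  | succ N ih =>
    rw [wt_succ]
    calc (∑ i ∈ range (x + 1), ∑ j ∈ range (m + 1),
          (x.choose i : ℝ) * (m.choose j : ℝ) * Φ i j * Wt Φ N (x - i) (m - j)) * y ^ x * z ^ m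
        ≤ ∑ i ∈ range (x + 1), ∑ j ∈ range (m + 1),
          (x.factorial : ℝ) * (m.factorial : ℝ) * S ^ N *
            (Φ i j * (y ^ i / (i.factorial : ℝ)) * (z ^ j / (j.factorial : ℝ))) := by
          rw [Finset.sum_mul, Finset.sum_mul]
          refine Finset.sum_le_sum fun i hi => ?_
          rw [Finset.sum_mul, Finset.sum_mul]
          refine Finset.sum_le_sum fun j hj => ?_
          have hi' : i ≤ x := Nat.lt_succ_iff.1 (Finset.mem_range.1 hi)
          have hj' : j ≤ m := Nat.lt_succ_iff.1 (Finset.mem_range.1 hj)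
          have e1 : (x.choose i : ℝ) * (i.factorial : ℝ) * ((x - i).factorial : ℝ) =
              (x.factorial : ℝ) := by
            exact_mod_cast Nat.choose_mul_factorial_mul_factorial hi'
          have e2 : (m.choose j : ℝ) * (j.factorial : ℝ) * ((m - j).factorial : ℝ) =
              (m.factorial : ℝ) := by
            exact_mod_cast Nat.choose_mul_factorial_mul_factorial hj'
          have e3 : y ^ x = y ^ i * y ^ (x - i) := by
            rw [← pow_add]; congr 1; omega
          have e4 : z ^ m = z ^ j * z ^ (m - j) := by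
            rw [← pow_add]; congr 1; omega
          have h1 := ih (x - i) (m - j)
          have hc : 0 ≤ (x.choose i : ℝ) * (m.choose j : ℝ) * Φ i j * y ^ i * z ^ j := by
            have := hΦ i j
            positivity
          have h2 := mul_le_mul_of_nonneg_left h1 hc
          have f1 : (i.factorial : ℝ) ≠ 0 := by positivity
          have f2 : (j.factorial : ℝ) ≠ 0 := by positivity
          calc (x.choose i : ℝ) * (m.choose j : ℝ) * Φ i j * Wt Φ N (x - i) (m - j) * y ^ x *
                z ^ m = (x.choose i : ℝ) * (m.choose j : ℝ) * Φ i j * y ^ i * z ^ j *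
                (Wt Φ N (x - i) (m - j) * y ^ (x - i) * z ^ (m - j)) := by
                rw [e3, e4]; ring
            _ ≤ (x.choose i : ℝ) * (m.choose j : ℝ) * Φ i j * y ^ i * z ^ j *
                (((x - i).factorial : ℝ) * ((m - j).factorial : ℝ) * S ^ N) := h2
            _ = (x.factorial : ℝ) * (m.factorial : ℝ) * S ^ N *
                (Φ i j * (y ^ i / (i.factorial : ℝ)) * (z ^ j / (j.factorial : ℝ))) := by
                rw [← e1, ← e2]
                field_simp
      _ = (x.factorial : ℝ) * (m.factorial : ℝ) * S ^ N *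
          ∑ i ∈ range (x + 1), ∑ j ∈ range (m + 1),
            Φ i j * (y ^ i / (i.factorial : ℝ)) * (z ^ j / (j.factorial : ℝ)) := by
          simp only [Finset.mul_sum]
      _ ≤ (x.factorial : ℝ) * (m.factorial : ℝ) * S ^ N * S :=
          mul_le_mul_of_nonneg_left (hS _ _) (by positivity)
      _ = (x.factorial : ℝ) * (m.factorial : ℝ) * S ^ (N + 1) := by ring

private theorem cn_fin_zero {L : Type} [DecidableEq L] (w : Fin 0 → L) (a : L) : cn w a = 0 := by
  unfold cn
  simp

private theorem ws_eq_wt (ψ : ℕ → ℝ) (N m : ℕ) : Ws ψ N m = Wt (fun _ j => ψ j) N 0 m := by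
  unfold Ws Wt GG
  rw [Fintype.sum_prod_type]
  exact (Fintype.sum_unique (fun _ : Fin 0 → Fin N =>
    ∑ y : Fin m → Fin N, ∏ a, ψ (cn y a))).symm

theorem ws_succ (ψ : ℕ → ℝ) (N m : ℕ) :
    Ws ψ (N + 1) m = ∑ j ∈ range (m + 1), (m.choose j : ℝ) * ψ j * Ws ψ N (m - j) := by
  rw [ws_eq_wt, wt_succ]
  simp only [ws_eq_wt]
  simp

theorem ws_le (ψ : ℕ → ℝ) (hψ : ∀ j, 0 ≤ ψ j) {x S : ℝ} (hx : 0 ≤ x)
    (hS : ∀ m, ∑ j ∈ range m, ψ j * x ^ j / (j.factorial : ℝ) ≤ S) (N m : ℕ) :
    Ws ψ N m * x ^ m ≤ (m.factorial : ℝ) * S ^ N := by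
  have hS0 : 0 ≤ S := by simpa using hS 0
  have h := wt_le (fun _ j => ψ j) (fun _ j => hψ j) (y := 0) (z := x) (S := S) le_rfl hx ?_ N 0 m
  · rw [ws_eq_wt]
    simpa using h
  · intro p q
    rcases Nat.eq_zero_or_pos p with hp | hp
    · simpa [hp] using hS0
    · rw [Finset.sum_eq_single_of_mem 0 (Finset.mem_range.2 hp)]
      · refine le_trans (le_of_eq ?_) (hS q)
        refine Finset.sum_congr rfl fun j _ => ?_
        simp [mul_div_assoc]
      · intro i _ hi
        refine Finset.sum_eq_zero fun j _ => ?_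
        simp [hi]

theorem wd_eq_ws (k N m : ℕ) : (Wd k N m : ℝ) = Ws (fun j => if k ≤ j then 1 else 0) N m := by
  unfold Wd Ws
  rw [Finset.card_filter]
  push_cast
  refine Finset.sum_congr rfl fun w _ => ?_
  rw [ite_prod]
  rfl

theorem wd_succ (k N m : ℕ) : Wd k (N + 1) m =
    ∑ j ∈ range (m + 1), if k ≤ j then m.choose j * Wd k N (m - j) else 0 := by
  have h : ((Wd k (N + 1) m : ℕ) : ℝ) =
      ((∑ j ∈ range (m + 1), if k ≤ j then m.choose j * Wd k N (m - j) else 0 : ℕ) : ℝ) := by
    rw [wd_eq_ws, ws_succ]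
    push_cast
    refine Finset.sum_congr rfl fun j _ => ?_
    rw [wd_eq_ws]
    split_ifs with h
    · ring
    · ring
  exact_mod_cast h

theorem wd_zero (k m : ℕ) : Wd k 0 m = if m = 0 then 1 else 0 := by
  have h : ((Wd k 0 m : ℕ) : ℝ) = ((if m = 0 then 1 else 0 : ℕ) : ℝ) := by
    rw [wd_eq_ws, ws_eq_wt, wt_zero]
    push_cast
    simp
  exact_mod_cast h

private theorem fk_ge (k : ℕ) {x : ℝ} (hx : 0 ≤ x) : x ^ k / (k.factorial : ℝ) ≤ fk k x := by
  have h := Real.sum_le_exp_of_nonneg hx (k + 1)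
  rw [Finset.sum_range_succ] at h
  unfold fk
  linarith

theorem fk_pos (k : ℕ) {x : ℝ} (hx : 0 < x) : 0 < fk k x :=
  lt_of_lt_of_le (by positivity) (fk_ge k hx.le)

theorem fk_nonneg (k : ℕ) {x : ℝ} (hx : 0 ≤ x) : 0 ≤ fk k x :=
  le_trans (by positivity) (fk_ge k hx)

private theorem partial_le_fk (k q : ℕ) {x : ℝ} (hx : 0 ≤ x) :
    ∑ j ∈ range q, (if k ≤ j then (1 : ℝ) else 0) * (x ^ j / (j.factorial : ℝ)) ≤ fk k x := by
  have h1 : ∑ j ∈ range q, (if k ≤ j then (1 : ℝ) else 0) * (x ^ j / (j.factorial : ℝ)) ≤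
      ∑ j ∈ range (max q k), (if k ≤ j then (1 : ℝ) else 0) * (x ^ j / (j.factorial : ℝ)) := by
    refine Finset.sum_le_sum_of_subset_of_nonneg (Finset.range_mono (le_max_left _ _)) ?_
    intro j _ _
    split_ifs <;> positivity
  have h2 : ∑ j ∈ range (max q k), (if k ≤ j then (1 : ℝ) else 0) * (x ^ j / (j.factorial : ℝ)) +
      ∑ j ∈ range k, x ^ j / (j.factorial : ℝ) =
      ∑ j ∈ range (max q k), x ^ j / (j.factorial : ℝ) := by
    have h3 : ∑ j ∈ range k, x ^ j / (j.factorial : ℝ) =
        ∑ j ∈ range (max q k), (if j < k then x ^ j / (j.factorial : ℝ) else 0) := by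
      rw [← Finset.sum_filter]
      refine Finset.sum_congr ?_ fun _ _ => rfl
      ext j
      simp only [Finset.mem_range, Finset.mem_filter]
      constructor
      · intro h
        exact ⟨lt_of_lt_of_le h (le_max_right _ _), h⟩
      · intro h
        exact h.2
    rw [h3, ← Finset.sum_add_distrib]
    refine Finset.sum_congr rfl fun j _ => ?_
    by_cases h : k ≤ j
    · rw [if_pos h, if_neg (by omega)]; ring
    · rw [if_neg h, if_pos (by omega)]; ring
  have h4 := Real.sum_le_exp_of_nonneg hx (max q k)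
  unfold fk
  linarith

theorem wd_le (k N m : ℕ) {x : ℝ} (hx : 0 ≤ x) :
    (Wd k N m : ℝ) * x ^ m ≤ (m.factorial : ℝ) * fk k x ^ N := by
  rw [wd_eq_ws]
  refine ws_le _ (fun j => by split_ifs <;> norm_num) hx (fun q => ?_) N m
  refine le_trans (le_of_eq ?_) (partial_le_fk k q hx)
  exact Finset.sum_congr rfl fun j _ => by rw [mul_div_assoc]

private theorem zd_eq_wt (d b x m : ℕ) : (Zd d b x m : ℝ) =
    Wt (fun i j => if i < d ∧ d + 1 ≤ i + j then 1 else 0) b x m := by
  unfold Zd Wt GG
  rw [Finset.card_filter]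
  push_cast
  refine Finset.sum_congr rfl fun w _ => ?_
  rw [ite_prod]

theorem zd_le (d b x m : ℕ) {y z : ℝ} (hy : 0 ≤ y) (hz : 0 ≤ z) :
    (Zd d b x m : ℝ) * y ^ x * z ^ m ≤
      (x.factorial : ℝ) * (m.factorial : ℝ) * gk d z y ^ b := by
  rw [zd_eq_wt]
  refine wt_le _ (fun i j => by split_ifs <;> norm_num) hy hz (fun p q => ?_) b x m
  unfold gk
  have hnn : ∀ i, 0 ≤ y ^ i / (i.factorial : ℝ) * fk (d + 1 - i) z := fun i =>
    mul_nonneg (by positivity) (fk_nonneg _ hz)
  calc ∑ i ∈ range p, ∑ j ∈ range q, (if i < d ∧ d + 1 ≤ i + j then (1 : ℝ) else 0) *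
        (y ^ i / (i.factorial : ℝ)) * (z ^ j / (j.factorial : ℝ))
      ≤ ∑ i ∈ range p, (if i < d then y ^ i / (i.factorial : ℝ) * fk (d + 1 - i) z else 0) := by
        refine Finset.sum_le_sum fun i _ => ?_
        by_cases hi : i < d
        · rw [if_pos hi]
          have h1 := partial_le_fk (d + 1 - i) q hz
          have h2 : (0 : ℝ) ≤ y ^ i / (i.factorial : ℝ) := by positivity
          refine le_trans (le_of_eq ?_) (mul_le_mul_of_nonneg_left h1 h2)
          rw [Finset.mul_sum]
          refine Finset.sum_congr rfl fun j _ => ?_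
          by_cases hj : d + 1 ≤ i + j
          · rw [if_pos ⟨hi, hj⟩, if_pos (by omega)]; ring
          · rw [if_neg (fun h => hj h.2), if_neg (by omega)]; ring
        · rw [if_neg hi]
          refine le_of_eq (Finset.sum_eq_zero fun j _ => ?_)
          rw [if_neg (fun h => hi h.1)]
          ring
    _ ≤ ∑ i ∈ range (max p d),
        (if i < d then y ^ i / (i.factorial : ℝ) * fk (d + 1 - i) z else 0) := by
        refine Finset.sum_le_sum_of_subset_of_nonneg (Finset.range_mono (le_max_left _ _)) ?_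
        intro i _ _
        split_ifs
        · exact hnn i
        · exact le_rfl
    _ = ∑ i ∈ range d, y ^ i / (i.factorial : ℝ) * fk (d + 1 - i) z := by
        rw [← Finset.sum_filter]
        refine Finset.sum_congr ?_ fun _ _ => rfl
        ext i
        simp only [Finset.mem_range, Finset.mem_filter]
        constructor
        · intro h
          exact h.2
        · intro h
          exact ⟨lt_of_lt_of_le h (le_max_right _ _), h⟩

theorem wd_card (k : ℕ) (ι L : Type) [Fintype ι] [DecidableEq ι] [Fintype L] [DecidableEq L] :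
    (univ.filter (fun w : ι → L => ∀ a, k ≤ cn w a)).card =
      Wd k (Fintype.card L) (Fintype.card ι) := by
  have h1 : (((univ.filter (fun w : ι → L => ∀ a, k ≤ cn w a)).card : ℕ) : ℝ) =
      GG (fun _ j => if k ≤ j then 1 else 0) (Fin 0) ι L := by
    unfold GG
    rw [Fintype.sum_prod_type, Finset.card_filter]
    push_cast
    refine (Finset.sum_congr rfl fun w _ => ?_).trans (Fintype.sum_unique (fun _ : Fin 0 → L =>
      ∑ y : ι → L, ∏ a, if k ≤ cn y a then (1 : ℝ) else 0)).symm
    rw [ite_prod]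
  have h2 : ((Wd k (Fintype.card L) (Fintype.card ι) : ℕ) : ℝ) =
      GG (fun _ j => if k ≤ j then 1 else 0) (Fin 0) (Fin (Fintype.card ι))
        (Fin (Fintype.card L)) := by
    rw [wd_eq_ws, ws_eq_wt, Wt]
  rw [← Nat.cast_inj (R := ℝ), h1, h2]
  exact GG_congr _ (Equiv.refl _) (Fintype.equivFin ι) (Fintype.equivFin L)

theorem zd_card (d : ℕ) (ι κ L : Type) [Fintype ι] [DecidableEq ι] [Fintype κ] [DecidableEq κ]
    [Fintype L] [DecidableEq L] :
    (univ.filter (fun w : (ι → L) × (κ → L) =>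
      ∀ a, cn w.1 a < d ∧ d + 1 ≤ cn w.1 a + cn w.2 a)).card =
      Zd d (Fintype.card L) (Fintype.card ι) (Fintype.card κ) := by
  have h1 : (((univ.filter (fun w : (ι → L) × (κ → L) =>
      ∀ a, cn w.1 a < d ∧ d + 1 ≤ cn w.1 a + cn w.2 a)).card : ℕ) : ℝ) =
      GG (fun i j => if i < d ∧ d + 1 ≤ i + j then 1 else 0) ι κ L := by
    unfold GG
    rw [Finset.card_filter]
    push_cast
    refine Finset.sum_congr rfl fun w _ => ?_
    rw [ite_prod]
  rw [← Nat.cast_inj (R := ℝ), h1, zd_eq_wt, Wt]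
  exact GG_congr _ (Fintype.equivFin ι) (Fintype.equivFin κ) (Fintype.equivFin L)

/-- the number of sequences of pairs with all occupancies at least `k` -/
theorem card_TT (V : Type) [Fintype V] [DecidableEq V] (k M : ℕ) :
    (TT V k M).card = Wd k (Fintype.card V) (2 * M) := by
  have h1 := wd_card k (Fin M ⊕ Fin M) V
  rw [Fintype.card_sum, Fintype.card_fin, ← two_mul] at h1
  rw [← h1]
  unfold TT
  refine Finset.card_bij (fun u _ => Sum.elim (fun i => (u i).1) (fun i => (u i).2)) ?_ ?_ ?_
  · intro u hu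
    simp only [mem_filter, mem_univ, true_and] at hu ⊢
    intro a
    refine (hu a).trans (le_of_eq ?_)
    unfold occ cn
    simp only [Finset.card_filter, Fintype.sum_sum_type, Sum.elim_inl, Sum.elim_inr]
    rfl
  · intro u _ v _ h
    funext i
    have h2 := congrFun h (Sum.inl i)
    have h3 := congrFun h (Sum.inr i)
    simp only [Sum.elim_inl, Sum.elim_inr] at h2 h3
    exact Prod.ext h2 h3
  · intro w hw
    simp only [mem_filter, mem_univ, true_and] at hw
    refine ⟨fun i => (w (Sum.inl i), w (Sum.inr i)), ?_, ?_⟩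
    · simp only [mem_filter, mem_univ, true_and]
      intro a
      refine (hw a).trans (le_of_eq ?_)
      unfold occ cn
      simp only [Finset.card_filter, Fintype.sum_sum_type]
    · funext i
      rcases i with i | i <;> rfl

end Pool.Agent.Helper50.RG
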