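import Pool.Agent.Helper50.RG.WordsL
import Pool.Agent.Helper50.RG.Lam

/-!
# RG-34 : the number of letters which occur exactly `d + 1` times

Use `exists_lam`. `wd_occ`: let `P = lam^k / (k! fk k lam) ` ; `IsLam` says `lam + k P = 2 d` so `k P < 2`; let `δ' > 0` with
`k (P + 2 δ') < 2`, `ϑ = k (P + 2 δ') / 2 < 1`. Let `#_k(w)` be the number of letters which occur exactly `k` times in `w`;
`∑_w #_k(w) = N C(m, k) Wd k (N-1) (m-k)` (sum over the words counted by `Wd k N m`; the derivative of
`Ws ψ_s N m` at `s = 1`). For `0 < u ≤ 1`,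
`∑_w e^(u #_k(w)) = Ws ψ N m` with `ψ j = 0` for `j < k`, `e^u` for `j = k`, `1` for `j > k`, and by
`ws_le` `≤ m! lam^(-m) (fk k lam + (e^u - 1) lam^k/k!)^N = m! lam^(-m) (fk k lam)^N (1 + (e^u-1) P)^N
≤ m! lam^(-m) (fk k lam)^N e^((u + u²) P N)`. By Jensen the mean `μ` of `#_k(w)` satisfies
`e^(u μ) Wd k N m ≤ Ws ψ N m`, and with `wd_ge` (`δ = δ'²`, `u = δ'`) we get `μ ≤ (P + 2 δ') N`.
-/

set_option autoImplicit false

namespace Pool.Agent.Helper50.RG

open Finset

/-- the weight: `s` for the letters which occur exactly `k` times -/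
private noncomputable def wordsO_psi (k : ℕ) (s : ℝ) (j : ℕ) : ℝ :=
  if j = k then s else if k ≤ j then 1 else 0

private theorem wordsO_psi_one (k : ℕ) : wordsO_psi k 1 = fun j => if k ≤ j then 1 else 0 := by
  funext j
  unfold wordsO_psi
  split_ifs with h1 h2 h3
  · rfl
  · omega
  · rfl
  · rfl

/-- the number of letters which occur exactly `k` times -/
private def wordsO_X (k : ℕ) {N m : ℕ} (w : Fin m → Fin N) : ℕ :=
  (univ.filter (fun a => cn w a = k)).card

/-- the words in which all letters occur at least `k` times -/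
private def wordsO_W (k N m : ℕ) : Finset (Fin m → Fin N) :=
  univ.filter (fun w => ∀ a, k ≤ cn w a)

private theorem wordsO_card (k N m : ℕ) : (wordsO_W k N m).card = Wd k N m := rfl

private theorem wordsO_prod (k : ℕ) (s : ℝ) {N m : ℕ} (w : Fin m → Fin N) :
    ∏ a, wordsO_psi k s (cn w a) = if ∀ a, k ≤ cn w a then s ^ wordsO_X k w else 0 := by
  split_ifs with h
  · unfold wordsO_X
    have h1 : ∀ a, wordsO_psi k s (cn w a) = if cn w a = k then s else 1 := by
      intro a
      unfold wordsO_psi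
      rw [if_pos (h a)]
    rw [Finset.prod_congr rfl fun a _ => h1 a, Finset.prod_ite, Finset.prod_const,
      Finset.prod_const_one, mul_one]
  · push Not at h
    obtain ⟨a, ha⟩ := h
    refine Finset.prod_eq_zero (Finset.mem_univ a) ?_
    unfold wordsO_psi
    rw [if_neg (by omega), if_neg (by omega)]

private theorem wordsO_Ws (k : ℕ) (s : ℝ) (N m : ℕ) :
    Ws (wordsO_psi k s) N m = ∑ w ∈ wordsO_W k N m, s ^ wordsO_X k w := by
  unfold Ws wordsO_W
  rw [Finset.sum_filter]
  exact Finset.sum_congr rfl fun w _ => wordsO_prod k s w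

private theorem wordsO_deriv (k N : ℕ) : ∀ m, HasDerivAt (fun s => Ws (wordsO_psi k s) N m)
    ((N : ℝ) * (m.choose k : ℝ) * (Wd k (N - 1) (m - k) : ℝ)) 1 := by
  induction N with
  | zero =>
    intro m
    have h1 : (fun s => Ws (wordsO_psi k s) 0 m) = fun _ => Ws (wordsO_psi k 1) 0 m := by
      funext s
      unfold Ws
      refine Finset.sum_congr rfl fun w _ => ?_
      simp
    rw [h1]
    simpa using hasDerivAt_const (1 : ℝ) (Ws (wordsO_psi k 1) 0 m)
  | succ N ih =>
    intro m
    have h1 : (fun s => Ws (wordsO_psi k s) (N + 1) m) = fun s => ∑ j ∈ range (m + 1),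
        (m.choose j : ℝ) * (wordsO_psi k s j * Ws (wordsO_psi k s) N (m - j)) := by
      funext s
      rw [ws_succ]
      exact Finset.sum_congr rfl fun j _ => by ring
    rw [h1]
    have h2 : ∀ j ∈ range (m + 1), HasDerivAt (fun s => (m.choose j : ℝ) *
        (wordsO_psi k s j * Ws (wordsO_psi k s) N (m - j)))
        ((m.choose j : ℝ) * ((if j = k then 1 else 0) * (Wd k N (m - j) : ℝ) +
          (if k ≤ j then 1 else 0) * ((N : ℝ) * ((m - j).choose k : ℝ) *
            (Wd k (N - 1) (m - j - k) : ℝ)))) 1 := by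
      intro j _
      have e1 : HasDerivAt (fun s => wordsO_psi k s j) (if j = k then (1 : ℝ) else 0) 1 := by
        unfold wordsO_psi
        split_ifs with h
        · exact hasDerivAt_id 1
        · exact hasDerivAt_const _ _
        · exact hasDerivAt_const _ _
      have e2 := (e1.mul (ih (m - j))).const_mul (m.choose j : ℝ)
      rw [wordsO_psi_one] at e2
      simp only at e2
      rw [← wd_eq_ws] at e2
      exact e2
    have h3 := HasDerivAt.fun_sum h2
    have h4 : ∑ j ∈ range (m + 1), ((m.choose j : ℝ) * ((if j = k then 1 else 0) *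
        (Wd k N (m - j) : ℝ) + (if k ≤ j then 1 else 0) * ((N : ℝ) * ((m - j).choose k : ℝ) *
            (Wd k (N - 1) (m - j - k) : ℝ)))) =
        ((N + 1 : ℕ) : ℝ) * (m.choose k : ℝ) * (Wd k (N + 1 - 1) (m - k) : ℝ) := by
      simp only [mul_add]
      rw [Finset.sum_add_distrib]
      have e1 : ∑ j ∈ range (m + 1), (m.choose j : ℝ) * ((if j = k then (1 : ℝ) else 0) *
          (Wd k N (m - j) : ℝ)) = (m.choose k : ℝ) * (Wd k N (m - k) : ℝ) := by
        rcases Nat.lt_or_ge m k with hmk | hmk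
        · rw [Nat.choose_eq_zero_of_lt hmk]
          simp only [Nat.cast_zero, zero_mul]
          refine Finset.sum_eq_zero fun j hj => ?_
          rw [Finset.mem_range] at hj
          rw [if_neg (by omega)]
          simp
        · rw [Finset.sum_eq_single k]
          · rw [if_pos rfl, one_mul]
          · intro j _ hj
            rw [if_neg hj]
            simp
          · intro h
            exact absurd (Finset.mem_range.2 (by omega)) h
      have e2 : ∑ j ∈ range (m + 1), (m.choose j : ℝ) * ((if k ≤ j then (1 : ℝ) else 0) *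
          ((N : ℝ) * ((m - j).choose k : ℝ) * (Wd k (N - 1) (m - j - k) : ℝ))) =
          (N : ℝ) * ((m.choose k : ℝ) * (Wd k N (m - k) : ℝ)) := by
        cases N with
        | zero => simp
        | succ N' =>
          rcases Nat.lt_or_ge m k with hmk | hmk
          · rw [Nat.choose_eq_zero_of_lt hmk]
            simp only [Nat.cast_zero, zero_mul, mul_zero]
            refine Finset.sum_eq_zero fun j hj => ?_
            rw [Nat.choose_eq_zero_of_lt (by omega : m - j < k)]
            simp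
          · rw [wd_succ]
            push_cast
            rw [Finset.mul_sum, Finset.mul_sum]
            have e3 : ∑ j ∈ range (m - k + 1), ((N' : ℝ) + 1) * ((m.choose k : ℝ) *
                (if k ≤ j then ((m - k).choose j : ℝ) * (Wd k N' (m - k - j) : ℝ) else 0)) =
                ∑ j ∈ range (m + 1), ((N' : ℝ) + 1) * ((m.choose k : ℝ) *
                (if k ≤ j then ((m - k).choose j : ℝ) * (Wd k N' (m - k - j) : ℝ) else 0)) := by
              refine Finset.sum_subset (Finset.range_subset_range.2 (by omega)) ?_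
              intro j _ hj2
              rw [Finset.mem_range, not_lt] at hj2
              rw [Nat.choose_eq_zero_of_lt (by omega : m - k < j)]
              simp
            refine Eq.trans (Finset.sum_congr rfl fun j hj => ?_) e3.symm
            rw [Finset.mem_range] at hj
            have e5 : (m.choose j : ℝ) * ((m - j).choose k : ℝ) =
                (m.choose k : ℝ) * ((m - k).choose j : ℝ) := by
              rcases Nat.lt_or_ge m (j + k) with hjk | hjk
              · rw [Nat.choose_eq_zero_of_lt (by omega : m - j < k),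
                  Nat.choose_eq_zero_of_lt (by omega : m - k < j)]
                simp
              · rw [Nat.cast_choose ℝ (by omega : j ≤ m), Nat.cast_choose ℝ (by omega : k ≤ m - j),
                  Nat.cast_choose ℝ (by omega : k ≤ m), Nat.cast_choose ℝ (by omega : j ≤ m - k)]
                have f1 : ((m - j).factorial : ℝ) ≠ 0 := by
                  exact_mod_cast (m - j).factorial_ne_zero
                have f2 : ((m - k).factorial : ℝ) ≠ 0 := by
                  exact_mod_cast (m - k).factorial_ne_zero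
                have f3 : (j.factorial : ℝ) ≠ 0 := by exact_mod_cast j.factorial_ne_zero
                have f4 : (k.factorial : ℝ) ≠ 0 := by exact_mod_cast k.factorial_ne_zero
                have f5 : m - j - k = m - k - j := by omega
                rw [f5]
                have f6 : ((m - k - j).factorial : ℝ) ≠ 0 := by
                  exact_mod_cast (m - k - j).factorial_ne_zero
                field_simp
            have e6 : m - j - k = m - k - j := by omega
            rw [e6]
            split_ifs with h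
            · calc (m.choose j : ℝ) * (1 * (((N' : ℝ) + 1) * ((m - j).choose k : ℝ) *
                    (Wd k N' (m - k - j) : ℝ)))
                  = ((m.choose j : ℝ) * ((m - j).choose k : ℝ)) * (((N' : ℝ) + 1) *
                    (Wd k N' (m - k - j) : ℝ)) := by ring
                _ = _ := by rw [e5]; ring
            · simp
      rw [e1, e2]
      simp only [Nat.add_sub_cancel]
      push_cast
      ring
    rw [← h4]
    exact h3

/-- the sum of the numbers of letters which occur exactly `k` times -/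
private theorem wordsO_sum (k N m : ℕ) : ∑ w ∈ wordsO_W k N m, (wordsO_X k w : ℝ) =
    (N : ℝ) * (m.choose k : ℝ) * (Wd k (N - 1) (m - k) : ℝ) := by
  have h1 := wordsO_deriv k N m
  have h2 : HasDerivAt (fun s : ℝ => ∑ w ∈ wordsO_W k N m, s ^ wordsO_X k w)
      (∑ w ∈ wordsO_W k N m, (wordsO_X k w : ℝ)) 1 := by
    refine HasDerivAt.fun_sum fun w _ => ?_
    simpa using hasDerivAt_pow (wordsO_X k w) (1 : ℝ)
  have h3 : (fun s => Ws (wordsO_psi k s) N m) =
      fun s : ℝ => ∑ w ∈ wordsO_W k N m, s ^ wordsO_X k w := by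
    funext s
    exact wordsO_Ws k s N m
  rw [h3] at h1
  exact h2.unique h1

/-- Jensen -/
private theorem wordsO_jensen (k N m : ℕ) (hW : 0 < Wd k N m) (u : ℝ) :
    (Wd k N m : ℝ) * Real.exp (u * ((∑ w ∈ wordsO_W k N m, (wordsO_X k w : ℝ)) /
      (Wd k N m : ℝ))) ≤ Ws (wordsO_psi k (Real.exp u)) N m := by
  set μ := (∑ w ∈ wordsO_W k N m, (wordsO_X k w : ℝ)) / (Wd k N m : ℝ) with hμ
  have hW' : (0 : ℝ) < (Wd k N m : ℝ) := by exact_mod_cast hW
  rw [wordsO_Ws]
  have h1 : ∀ w ∈ wordsO_W k N m, Real.exp (u * μ) * (1 + u * ((wordsO_X k w : ℝ) - μ)) ≤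
      Real.exp u ^ wordsO_X k w := by
    intro w _
    rw [← Real.exp_nat_mul]
    have h2 : (wordsO_X k w : ℝ) * u = u * μ + u * ((wordsO_X k w : ℝ) - μ) := by ring
    rw [h2, Real.exp_add]
    refine mul_le_mul_of_nonneg_left ?_ (Real.exp_pos _).le
    have := Real.add_one_le_exp (u * ((wordsO_X k w : ℝ) - μ))
    linarith
  refine le_trans (le_of_eq ?_) (Finset.sum_le_sum h1)
  rw [← Finset.mul_sum, Finset.sum_add_distrib, ← Finset.mul_sum, Finset.sum_sub_distrib,
    Finset.sum_const, Finset.sum_const, wordsO_card, nsmul_eq_mul, nsmul_eq_mul]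
  have h3 : (Wd k N m : ℝ) * μ = ∑ w ∈ wordsO_W k N m, (wordsO_X k w : ℝ) := by
    rw [hμ]; field_simp
  rw [← h3]
  ring

private theorem wordsO_partial (k : ℕ) {x s : ℝ} (hx : 0 ≤ x) (hs : 1 ≤ s) (M : ℕ) :
    ∑ j ∈ range M, wordsO_psi k s j * x ^ j / (j.factorial : ℝ) ≤
      fk k x + (s - 1) * (x ^ k / (k.factorial : ℝ)) := by
  have h1 : ∑ j ∈ range M, wordsO_psi k s j * x ^ j / (j.factorial : ℝ) =
      ∑ j ∈ range M, (if k ≤ j then x ^ j / (j.factorial : ℝ) else 0) +
      ∑ j ∈ range M, (if j = k then (s - 1) * (x ^ j / (j.factorial : ℝ)) else 0) := by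
    rw [← Finset.sum_add_distrib]
    refine Finset.sum_congr rfl fun j _ => ?_
    unfold wordsO_psi
    by_cases h : j = k
    · rw [if_pos h, if_pos (by omega), if_pos h]
      ring
    · rw [if_neg h, if_neg h]
      split_ifs <;> ring
  have h2 : ∑ j ∈ range M, (if k ≤ j then x ^ j / (j.factorial : ℝ) else 0) ≤ fk k x := by
    have e1 : ∑ j ∈ range M, (if k ≤ j then x ^ j / (j.factorial : ℝ) else 0) ≤
        ∑ j ∈ range (max k M), (if k ≤ j then x ^ j / (j.factorial : ℝ) else 0) := by
      refine Finset.sum_le_sum_of_subset_of_nonneg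
        (Finset.range_subset_range.2 (le_max_right _ _)) fun j _ _ => ?_
      split_ifs
      · positivity
      · exact le_rfl
    have e2 := Real.sum_le_exp_of_nonneg hx (max k M)
    have e3 : ∑ j ∈ range (max k M), (if k ≤ j then x ^ j / (j.factorial : ℝ) else 0) =
        ∑ j ∈ range (max k M), x ^ j / (j.factorial : ℝ) -
          ∑ j ∈ range k, x ^ j / (j.factorial : ℝ) := by
      rw [← Finset.sum_Ico_eq_sub _ (le_max_left k M), ← Finset.sum_filter]
      refine Finset.sum_congr ?_ fun _ _ => rfl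
      ext j
      rw [Finset.mem_filter, Finset.mem_range, Finset.mem_Ico]
      omega
    unfold fk
    linarith
  have h3 : ∑ j ∈ range M, (if j = k then (s - 1) * (x ^ j / (j.factorial : ℝ)) else 0) ≤
      (s - 1) * (x ^ k / (k.factorial : ℝ)) := by
    rw [Finset.sum_ite_eq' (range M) k]
    split_ifs
    · exact le_rfl
    · have : 0 ≤ s - 1 := by linarith
      positivity
  rw [h1]
  linarith

theorem wd_occ (d : ℕ) (hd : 2 ≤ d) : ∃ ϑ : ℝ, 0 < ϑ ∧ ϑ < 1 ∧ ∃ δ₀ > 0, ∃ N₀ : ℕ, ∀ N ≥ N₀,
    ∀ m : ℕ, |(m : ℝ) - 2 * d * N| ≤ δ₀ * N →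
      ((d : ℝ) + 1) * (m.choose (d + 1) : ℝ) * (Wd (d + 1) (N - 1) (m - (d + 1)) : ℝ) ≤
        2 * ϑ * (Wd (d + 1) N m : ℝ) := by
  obtain ⟨lam, hlam1, -, hlam⟩ := exists_lam d hd
  have hl0 : 0 < lam := hlam.1
  have hd2 : (2 : ℝ) ≤ d := by exact_mod_cast hd
  set f := fk (d + 1) lam with hf
  have hf0 : 0 < f := fk_pos _ hl0
  have hfac : (0 : ℝ) < ((d + 1).factorial : ℝ) := by exact_mod_cast Nat.factorial_pos _
  have hfacd : (0 : ℝ) < (d.factorial : ℝ) := by exact_mod_cast Nat.factorial_pos _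
  set P := lam ^ (d + 1) / ((d + 1).factorial : ℝ) / f with hP
  have hP0 : 0 < P := by positivity
  have hPf : lam ^ (d + 1) / ((d + 1).factorial : ℝ) = P * f := by
    rw [hP]; field_simp
  have hP1 : P ≤ 1 := by
    have h1 := wordsO_partial (d + 1) hl0.le le_rfl (d + 2)
    rw [sub_self, zero_mul, add_zero, wordsO_psi_one, Finset.sum_range_succ] at h1
    have h2 : ∑ j ∈ range (d + 1), (fun j => if d + 1 ≤ j then (1 : ℝ) else 0) j * lam ^ j /
        (j.factorial : ℝ) = 0 := by
      refine Finset.sum_eq_zero fun j hj => ?_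
      rw [Finset.mem_range] at hj
      simp only
      rw [if_neg (by omega)]
      simp
    rw [h2] at h1
    simp only [le_refl, if_true, one_mul, zero_add] at h1
    rw [hP, div_le_one hf0]
    exact h1
  have hkP : ((d : ℝ) + 1) * P < 2 := by
    have h1 := hlam.2
    have h2 : fk d lam = f + lam ^ d / (d.factorial : ℝ) := by
      rw [hf]
      unfold fk
      rw [Finset.sum_range_succ]
      ring
    rw [h2] at h1
    have h3 : ((d : ℝ) + 1) * P * f = lam * (lam ^ d / (d.factorial : ℝ)) := by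
      rw [mul_assoc, ← hPf, Nat.factorial_succ, pow_succ]
      push_cast
      field_simp
    have h4 : ((d : ℝ) + 1) * P * f < 2 * f := by
      have h5 : lam * (f + lam ^ d / (d.factorial : ℝ)) = 2 * d * f := h1
      nlinarith
    exact lt_of_mul_lt_mul_right h4 hf0.le
  set δ' := (2 - ((d : ℝ) + 1) * P) / (4 * ((d : ℝ) + 1)) with hδ'
  have hδ'0 : 0 < δ' := by
    rw [hδ']
    have : 0 < 2 - ((d : ℝ) + 1) * P := by linarith
    positivity
  have hδ'1 : δ' ≤ 1 := by
    rw [hδ', div_le_one (by positivity)]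
    nlinarith [mul_pos (by positivity : (0 : ℝ) < (d : ℝ) + 1) hP0]
  set ϑ := ((d : ℝ) + 1) * (P + 2 * δ') / 2 with hϑ
  have hϑeq : ϑ = (2 + ((d : ℝ) + 1) * P) / 4 := by
    rw [hϑ, hδ']
    field_simp
    ring
  refine ⟨ϑ, by positivity, by rw [hϑeq]; linarith, ?_⟩
  obtain ⟨δ₀, hδ₀, N₀, hN₀⟩ := wd_ge d hd lam hlam (δ' ^ 2) (by positivity)
  refine ⟨δ₀, hδ₀, max N₀ 1, fun N hN m hm => ?_⟩
  have hN1 : 1 ≤ N := (le_max_right _ _).trans hN
  have hNr : (0 : ℝ) < N := by exact_mod_cast hN1
  have hge := hN₀ N ((le_max_left _ _).trans hN) m hm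
  have hmf : (0 : ℝ) < (m.factorial : ℝ) := by exact_mod_cast Nat.factorial_pos _
  have hWpos : (0 : ℝ) < (Wd (d + 1) N m : ℝ) := by
    by_contra hcon
    have h1 : (Wd (d + 1) N m : ℝ) = 0 := le_antisymm (not_lt.1 hcon) (Nat.cast_nonneg _)
    rw [h1, zero_mul, zero_mul] at hge
    have : 0 < (m.factorial : ℝ) * fk (d + 1) lam ^ N := by
      have := fk_pos (d + 1) hl0
      positivity
    linarith
  have hWpos' : 0 < Wd (d + 1) N m := by exact_mod_cast hWpos
  set Wr : ℝ := (Wd (d + 1) N m : ℝ) with hWr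
  set Sm := ∑ w ∈ wordsO_W (d + 1) N m, (wordsO_X (d + 1) w : ℝ) with hSm
  have hjen := wordsO_jensen (d + 1) N m hWpos' δ'
  have hexp1 : 1 ≤ Real.exp δ' := Real.one_le_exp hδ'0.le
  have hle := ws_le (wordsO_psi (d + 1) (Real.exp δ')) (fun j => by
    unfold wordsO_psi
    split_ifs
    · exact (Real.exp_pos _).le
    · exact zero_le_one
    · exact le_rfl) hl0.le (fun M => wordsO_partial (d + 1) hl0.le hexp1 M) N m
  rw [hPf] at hle
  have h1 : f + (Real.exp δ' - 1) * (P * f) ≤ f * Real.exp ((δ' + δ' ^ 2) * P) := by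
    have e1 : Real.exp δ' - 1 ≤ δ' + δ' ^ 2 := by
      have := Real.abs_exp_sub_one_sub_id_le (x := δ') (by rw [abs_of_pos hδ'0]; exact hδ'1)
      have := (le_abs_self _).trans this
      linarith
    have e2 := Real.add_one_le_exp ((δ' + δ' ^ 2) * P)
    have e3 : f + (Real.exp δ' - 1) * (P * f) = f * (1 + (Real.exp δ' - 1) * P) := by ring
    rw [e3]
    refine mul_le_mul_of_nonneg_left ?_ hf0.le
    have e4 : (Real.exp δ' - 1) * P ≤ (δ' + δ' ^ 2) * P := mul_le_mul_of_nonneg_right e1 hP0.le
    linarith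
  have h2 : (f + (Real.exp δ' - 1) * (P * f)) ^ N ≤
      f ^ N * Real.exp ((δ' + δ' ^ 2) * P * N) := by
    have e1 : 0 ≤ f + (Real.exp δ' - 1) * (P * f) := by
      have : 0 ≤ Real.exp δ' - 1 := by linarith
      positivity
    refine (pow_le_pow_left₀ e1 h1 N).trans (le_of_eq ?_)
    rw [mul_pow, ← Real.exp_nat_mul]
    congr 2
    ring
  have hlm : 0 < lam ^ m := by positivity
  -- combine
  have h3 : Wr * Real.exp (δ' * (Sm / Wr)) * lam ^ m ≤
      Wr * lam ^ m * Real.exp (δ' ^ 2 * N) * Real.exp ((δ' + δ' ^ 2) * P * N) := by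
    calc Wr * Real.exp (δ' * (Sm / Wr)) * lam ^ m
        ≤ Ws (wordsO_psi (d + 1) (Real.exp δ')) N m * lam ^ m :=
          mul_le_mul_of_nonneg_right hjen hlm.le
      _ ≤ (m.factorial : ℝ) * (f + (Real.exp δ' - 1) * (P * f)) ^ N := hle
      _ ≤ (m.factorial : ℝ) * (f ^ N * Real.exp ((δ' + δ' ^ 2) * P * N)) :=
          mul_le_mul_of_nonneg_left h2 hmf.le
      _ = ((m.factorial : ℝ) * f ^ N) * Real.exp ((δ' + δ' ^ 2) * P * N) := by ring
      _ ≤ (Wr * lam ^ m * Real.exp (δ' ^ 2 * N)) * Real.exp ((δ' + δ' ^ 2) * P * N) :=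
          mul_le_mul_of_nonneg_right hge (Real.exp_pos _).le
  have h4 : Real.exp (δ' * (Sm / Wr)) ≤ Real.exp (δ' ^ 2 * N + (δ' + δ' ^ 2) * P * N) := by
    rw [Real.exp_add]
    have e1 : Wr * lam ^ m * Real.exp (δ' * (Sm / Wr)) ≤
        Wr * lam ^ m * (Real.exp (δ' ^ 2 * N) * Real.exp ((δ' + δ' ^ 2) * P * N)) := by
      linarith
    exact le_of_mul_le_mul_left e1 (by positivity)
  have h5 := Real.exp_le_exp.1 h4
  have h6 : Sm / Wr ≤ (P + 2 * δ') * N := by
    have e1 : δ' * (Sm / Wr) ≤ δ' * ((δ' + (1 + δ') * P) * N) := by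
      refine h5.trans (le_of_eq ?_)
      ring
    have e2 := le_of_mul_le_mul_left e1 hδ'0
    refine e2.trans (mul_le_mul_of_nonneg_right ?_ hNr.le)
    nlinarith
  rw [div_le_iff₀ hWpos] at h6
  have h7 : Sm = (N : ℝ) * (m.choose (d + 1) : ℝ) * (Wd (d + 1) (N - 1) (m - (d + 1)) : ℝ) :=
    wordsO_sum (d + 1) N m
  rw [h7] at h6
  have h8 : (N : ℝ) * ((m.choose (d + 1) : ℝ) * (Wd (d + 1) (N - 1) (m - (d + 1)) : ℝ)) ≤
      N * ((P + 2 * δ') * Wr) := by
    linarith
  have h9 := le_of_mul_le_mul_left h8 hNr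
  have h10 : 2 * ϑ * Wr = ((d : ℝ) + 1) * ((P + 2 * δ') * Wr) := by
    rw [hϑ]; ring
  rw [h10, mul_assoc]
  exact mul_le_mul_of_nonneg_left h9 (by positivity)

end Pool.Agent.Helper50.RG
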