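import Pool.Agent.Helper50.RG.Words

/-!
# RG-32 : ratios of numbers of words

`wd_last`: split the words of length `m + 1` by the last letter `a` (`N + 1` choices): either the
rest is still a word with all occurrences at least `k`, or `a` occurs exactly `k - 1` times in the
rest: `C(m, k-1) Wd k N (m + 1 - k)`.
(Alternatively both sides have the same generating function / satisfy the same recursion
`wd_succ`.) `wd_ratio_le` follows. `wd_ratio_ge`: `C(m, k-1) (m+1) = k C(m+1, k)` and
`C(m+1, k) Wd k N (m+1-k) ≤ Wd k (N+1) (m+1)` (the term `j = k` of `wd_succ`).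
`wd_drop` (removing a letter with `D` occurrences): let `ρ_D = C(m, D) Wd k N (m-D)`;
`ρ_(D+1) = ρ_D (m-D)/(D+1) Wd k N (m-D-1)/Wd k N (m-D) ≤ ρ_D (m - D)/((D+1) N)` by `wd_ratio_le`
(`N` letters).
-/

set_option autoImplicit false

namespace Pool.Agent.Helper50.RG

open Finset

/-- the exponential generating function of the occurrence numbers at least `k` -/
private noncomputable def wordsR_f (k : ℕ) : PowerSeries ℚ :=
  PowerSeries.mk fun j => if k ≤ j then (1 : ℚ) / (j.factorial : ℚ) else 0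

private theorem wordsR_coeff (k N : ℕ) : ∀ m, PowerSeries.coeff m (wordsR_f k ^ N) =
    (Wd k N m : ℚ) / (m.factorial : ℚ) := by
  induction N with
  | zero =>
    intro m
    rw [pow_zero, PowerSeries.coeff_one, wd_zero]
    split_ifs with h
    · subst h; simp
    · simp
  | succ N ih =>
    intro m
    rw [pow_succ, mul_comm, PowerSeries.coeff_mul, wd_succ,
      Finset.Nat.sum_antidiagonal_eq_sum_range_succ_mk]
    push_cast
    rw [Finset.sum_div]
    refine Finset.sum_congr rfl fun j hj => ?_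
    have hj' : j ≤ m := Nat.lt_succ_iff.1 (Finset.mem_range.1 hj)
    rw [ih, wordsR_f, PowerSeries.coeff_mk]
    split_ifs with h
    · rw [Nat.cast_choose ℚ hj']
      have h1 : (j.factorial : ℚ) ≠ 0 := by exact_mod_cast j.factorial_ne_zero
      have h2 : ((m - j).factorial : ℚ) ≠ 0 := by exact_mod_cast (m - j).factorial_ne_zero
      have h3 : (m.factorial : ℚ) ≠ 0 := by exact_mod_cast m.factorial_ne_zero
      field_simp
    · simp

private theorem wordsR_deriv (k : ℕ) (hk : 1 ≤ k) :
    PowerSeries.derivative ℚ (wordsR_f k) = wordsR_f k +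
      PowerSeries.C (1 / ((k - 1).factorial : ℚ)) * PowerSeries.X ^ (k - 1) := by
  ext m
  rw [PowerSeries.coeff_derivative, map_add, PowerSeries.coeff_C_mul, PowerSeries.coeff_X_pow,
    wordsR_f, PowerSeries.coeff_mk, PowerSeries.coeff_mk]
  have h3 : (m.factorial : ℚ) ≠ 0 := by exact_mod_cast m.factorial_ne_zero
  have h4 : ((m : ℚ) + 1) ≠ 0 := by positivity
  have h5 : (1 : ℚ) / ((m + 1).factorial : ℚ) * ((m : ℚ) + 1) = 1 / (m.factorial : ℚ) := by
    rw [Nat.factorial_succ]
    push_cast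
    field_simp
  by_cases h1 : k ≤ m
  · rw [if_pos (by omega), if_pos h1, if_neg (by omega), h5]
    simp
  · by_cases h2 : k = m + 1
    · rw [if_pos (by omega), if_neg h1, if_pos (by omega), h5]
      subst h2
      simp
    · rw [if_neg (by omega), if_neg h1, if_neg (by omega)]
      simp

theorem wd_last (k N m : ℕ) (hk : 1 ≤ k) (hm : k ≤ m + 1) :
    Wd k (N + 1) (m + 1) =
      (N + 1) * (Wd k (N + 1) m + m.choose (k - 1) * Wd k N (m + 1 - k)) := by
  have h1 : PowerSeries.coeff m (PowerSeries.derivative ℚ (wordsR_f k ^ (N + 1))) =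
      (Wd k (N + 1) (m + 1) : ℚ) / (m.factorial : ℚ) := by
    rw [PowerSeries.coeff_derivative, wordsR_coeff, Nat.factorial_succ]
    have h3 : (m.factorial : ℚ) ≠ 0 := by exact_mod_cast m.factorial_ne_zero
    have h4 : ((m : ℚ) + 1) ≠ 0 := by positivity
    push_cast
    field_simp
  have h2 : PowerSeries.derivative ℚ (wordsR_f k ^ (N + 1)) =
      PowerSeries.C ((N : ℚ) + 1) * (wordsR_f k ^ (N + 1) +
        PowerSeries.C (1 / ((k - 1).factorial : ℚ)) *
          (PowerSeries.X ^ (k - 1) * wordsR_f k ^ N)) := by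
    rw [Derivation.leibniz_pow, wordsR_deriv k hk, nsmul_eq_mul, smul_eq_mul]
    simp only [Nat.add_sub_cancel, map_add, map_one, map_natCast]
    push_cast
    ring
  rw [h2, PowerSeries.coeff_C_mul, map_add, PowerSeries.coeff_C_mul, wordsR_coeff,
    PowerSeries.coeff_X_pow_mul', if_pos (by omega), wordsR_coeff] at h1
  have h3 : (m.factorial : ℚ) ≠ 0 := by exact_mod_cast m.factorial_ne_zero
  have h5 : m - (k - 1) = m + 1 - k := by omega
  rw [h5] at h1
  have h6 : (m.choose (k - 1) : ℚ) =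
      (m.factorial : ℚ) / (((k - 1).factorial : ℚ) * ((m + 1 - k).factorial : ℚ)) := by
    rw [Nat.cast_choose ℚ (by omega : k - 1 ≤ m), h5]
  have h7 : ((k - 1).factorial : ℚ) ≠ 0 := by exact_mod_cast (k - 1).factorial_ne_zero
  have h8 : ((m + 1 - k).factorial : ℚ) ≠ 0 := by exact_mod_cast (m + 1 - k).factorial_ne_zero
  have h9 : (Wd k (N + 1) (m + 1) : ℚ) =
      ((N : ℚ) + 1) * ((Wd k (N + 1) m : ℚ) + (m.choose (k - 1) : ℚ) *
        (Wd k N (m + 1 - k) : ℚ)) := by
    rw [h6]
    field_simp at h1 ⊢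
    linarith
  exact_mod_cast h9

private theorem wordsR_small (k N m : ℕ) (h : m < k) : Wd k (N + 1) m = 0 := by
  rw [wd_succ]
  refine Finset.sum_eq_zero fun j hj => ?_
  rw [Finset.mem_range] at hj
  rw [if_neg (by omega)]

private theorem wordsR_zero (N m : ℕ) : Wd 0 N m = N ^ m := by
  unfold Wd
  simp

theorem wd_ratio_le (k N m : ℕ) : N * Wd k N m ≤ Wd k N (m + 1) := by
  rcases Nat.eq_zero_or_pos k with rfl | hk
  · rw [wordsR_zero, wordsR_zero, pow_succ, mul_comm]
  · cases N with
    | zero => simp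
    | succ N =>
      rcases Nat.lt_or_ge m k with h | h
      · rw [wordsR_small k N m h, mul_zero]
        exact Nat.zero_le _
      · rw [wd_last k N m hk (by omega)]
        exact Nat.mul_le_mul_left _ (Nat.le_add_right _ _)

theorem wd_ratio_ge (k N m : ℕ) (hk : 1 ≤ k) :
    ((m : ℝ) + 1 - k * N) * (Wd k N (m + 1) : ℝ) ≤ N * ((m : ℝ) + 1) * (Wd k N m : ℝ) := by
  cases N with
  | zero =>
    rw [wd_zero]
    simp
  | succ N =>
    rcases Nat.lt_or_ge (m + 1) k with h | h
    · rw [wordsR_small k N (m + 1) h]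
      simp only [Nat.cast_zero, mul_zero]
      positivity
    · have h1 := wd_last k N m hk h
      have h2 : (m + 1).choose k * Wd k N (m + 1 - k) ≤ Wd k (N + 1) (m + 1) := by
        rw [wd_succ]
        have h3 := Finset.single_le_sum (f := fun j => if k ≤ j then (m + 1).choose j *
          Wd k N (m + 1 - j) else 0) (fun i _ => Nat.zero_le _)
          (show k ∈ range (m + 1 + 1) by rw [Finset.mem_range]; omega)
        simpa using h3
      have h3 : (m + 1) * m.choose (k - 1) = (m + 1).choose k * k := by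
        have h4 := Nat.add_one_mul_choose_eq m (k - 1)
        rw [Nat.sub_add_cancel hk] at h4
        exact h4
      have h4 : (m + 1) * Wd k (N + 1) (m + 1) ≤
          (N + 1) * ((m + 1) * Wd k (N + 1) m) + (N + 1) * (k * Wd k (N + 1) (m + 1)) := by
        calc (m + 1) * Wd k (N + 1) (m + 1)
            = (N + 1) * ((m + 1) * Wd k (N + 1) m) +
              (N + 1) * (((m + 1) * m.choose (k - 1)) * Wd k N (m + 1 - k)) := by
              rw [h1]; ring
          _ = (N + 1) * ((m + 1) * Wd k (N + 1) m) +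
              (N + 1) * (k * ((m + 1).choose k * Wd k N (m + 1 - k))) := by
              rw [h3]; ring
          _ ≤ _ := Nat.add_le_add_left (Nat.mul_le_mul_left _ (Nat.mul_le_mul_left _ h2)) _
      have h5 : ((m : ℝ) + 1) * (Wd k (N + 1) (m + 1) : ℝ) ≤
          ((N : ℝ) + 1) * (((m : ℝ) + 1) * (Wd k (N + 1) m : ℝ)) +
          ((N : ℝ) + 1) * ((k : ℝ) * (Wd k (N + 1) (m + 1) : ℝ)) := by
        exact_mod_cast h4
      push_cast
      linarith

private theorem wordsR_pos (k : ℕ) : ∀ N m : ℕ, k * N ≤ m → (N = 0 → m = 0) → 0 < Wd k N m := by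
  intro N
  induction N with
  | zero =>
    intro m _ h0
    rw [h0 rfl, wd_zero]
    simp
  | succ N ih =>
    intro m hm _
    rw [wd_succ]
    rcases Nat.eq_zero_or_pos N with rfl | hN
    · have hkm : k ≤ m := by simpa using hm
      refine Finset.sum_pos' (fun i _ => Nat.zero_le _) ⟨m, Finset.mem_range.2 (by omega), ?_⟩
      rw [if_pos hkm, wd_zero]
      simp
    · have hkm : k ≤ m := by
        have : k * 1 ≤ k * (N + 1) := Nat.mul_le_mul_left _ (by omega)
        omega
      refine Finset.sum_pos' (fun i _ => Nat.zero_le _) ⟨k, Finset.mem_range.2 (by omega), ?_⟩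
      rw [if_pos le_rfl]
      refine Nat.mul_pos (Nat.choose_pos hkm) (ih _ ?_ (by omega))
      rw [Nat.mul_succ] at hm
      omega

theorem wd_pos (k N m : ℕ) (hN : 1 ≤ N) (h : k * N ≤ m) : 0 < Wd k N m :=
  wordsR_pos k N m h (by omega)

/-- `r` bounds `m / N` -/
theorem wd_drop (k N m D : ℕ) (hk : k ≤ D) (hD : D ≤ m) (hN : 1 ≤ N) {r : ℝ}
    (hr : (m : ℝ) ≤ r * N) :
    (m.choose D : ℝ) * (Wd k N (m - D) : ℝ) * (D.factorial : ℝ) ≤
      (m.choose k : ℝ) * (Wd k N (m - k) : ℝ) * (k.factorial : ℝ) * r ^ (D - k) := by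
  have hN0 : (0 : ℝ) < N := by exact_mod_cast hN
  have hr0 : 0 ≤ r := by
    by_contra hcon
    push Not at hcon
    have h1 : r * N < 0 := mul_neg_of_neg_of_pos hcon hN0
    have h2 : (0 : ℝ) ≤ m := Nat.cast_nonneg m
    linarith
  induction D, hk using Nat.le_induction with
  | base => simp
  | succ D hk ih =>
    have ih' := ih (by omega)
    have h1 : (m.choose (D + 1) : ℝ) * ((D : ℝ) + 1) = (m.choose D : ℝ) * ((m : ℝ) - D) := by
      have h2 := Nat.choose_succ_right_eq m D
      have h3 : ((m - D : ℕ) : ℝ) = (m : ℝ) - D := Nat.cast_sub (by omega)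
      rw [← h3]
      exact_mod_cast h2
    have h4 : ((m : ℝ) - D) * (Wd k N (m - (D + 1)) : ℝ) ≤ r * (Wd k N (m - D) : ℝ) := by
      have h5 := wd_ratio_le k N (m - (D + 1))
      have h6 : m - (D + 1) + 1 = m - D := by omega
      rw [h6] at h5
      have h7 : (N : ℝ) * (Wd k N (m - (D + 1)) : ℝ) ≤ (Wd k N (m - D) : ℝ) := by
        exact_mod_cast h5
      calc ((m : ℝ) - D) * (Wd k N (m - (D + 1)) : ℝ)
          ≤ (r * N) * (Wd k N (m - (D + 1)) : ℝ) := by
            refine mul_le_mul_of_nonneg_right ?_ (Nat.cast_nonneg _)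
            have : (0 : ℝ) ≤ D := Nat.cast_nonneg D
            linarith
        _ = r * ((N : ℝ) * (Wd k N (m - (D + 1)) : ℝ)) := by ring
        _ ≤ r * (Wd k N (m - D) : ℝ) := mul_le_mul_of_nonneg_left h7 hr0
    have h8 : D + 1 - k = (D - k) + 1 := by omega
    calc (m.choose (D + 1) : ℝ) * (Wd k N (m - (D + 1)) : ℝ) * ((D + 1).factorial : ℝ)
        = ((m.choose (D + 1) : ℝ) * ((D : ℝ) + 1)) * (Wd k N (m - (D + 1)) : ℝ) *
          (D.factorial : ℝ) := by
          rw [Nat.factorial_succ]; push_cast; ring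
      _ = (m.choose D : ℝ) * (D.factorial : ℝ) *
          (((m : ℝ) - D) * (Wd k N (m - (D + 1)) : ℝ)) := by rw [h1]; ring
      _ ≤ (m.choose D : ℝ) * (D.factorial : ℝ) * (r * (Wd k N (m - D) : ℝ)) :=
          mul_le_mul_of_nonneg_left h4 (by positivity)
      _ = r * ((m.choose D : ℝ) * (Wd k N (m - D) : ℝ) * (D.factorial : ℝ)) := by ring
      _ ≤ r * ((m.choose k : ℝ) * (Wd k N (m - k) : ℝ) * (k.factorial : ℝ) * r ^ (D - k)) :=
          mul_le_mul_of_nonneg_left ih' hr0
      _ = _ := by rw [h8, pow_succ]; ring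

end Pool.Agent.Helper50.RG
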